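import Pool.Agent.P.MP_d3e5c7_ag.APt

/-! Riemann-Roch-Clifford for the strict transform of a plane curve. -/

namespace Pool.Agent.P.MP_d3e5c7_ag.PA

open Module Submodule Polynomial

variable {K : Type*} [Field K]

/-- coordinates adapted to a direction -/
noncomputable def Th (v : Fin 2 → K) (hv : v 1 ≠ 0) : Pl K ≃ₐ[K] K[X][X] :=
  .ofAlgHom (MvPolynomial.aeval ![C X + C (C (v 0)) * X, C (C (v 1)) * X])
    (aevalAeval (.X 0 - .C (v 0 / v 1) * .X 1) (.C (v 1)⁻¹ * .X 1))
    (by
      have h1 : (C (C (v 0 / v 1)) * C (C (v 1)) : K[X][X]) = C (C (v 0)) := by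
        rw [← map_mul, ← map_mul, div_mul_cancel₀ _ hv]
      have h2 : (C (C (v 1)⁻¹) * C (C (v 1)) : K[X][X]) = 1 := by
        rw [← map_mul, ← map_mul, inv_mul_cancel₀ hv, map_one, map_one]
      refine Polynomial.algHom_ext' (Polynomial.algHom_ext ?_) ?_
      · simp; linear_combination (-X) * h1
      · simp; linear_combination (X : K[X][X]) * h2)
    (by
      have h1 : (.C (v 0) * .C (v 1)⁻¹ : Pl K) = .C (v 0 / v 1) := by
        rw [← map_mul, div_eq_mul_inv]
      have h2 : (.C (v 1) * .C (v 1)⁻¹ : Pl K) = 1 := by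
        rw [← map_mul, mul_inv_cancel₀ hv, map_one]
      ext1 k
      fin_cases k
      · simp; linear_combination (.X 1) * h1
      · simp; linear_combination (.X 1) * h2)

theorem Th_X0 (v : Fin 2 → K) (hv : v 1 ≠ 0) : Th v hv (.X 0) = C X + C (C (v 0)) * X := by
  simp [Th]

theorem Th_X1 (v : Fin 2 → K) (hv : v 1 ≠ 0) : Th v hv (.X 1) = C (C (v 1)) * X := by
  simp [Th]

theorem Th_C (v : Fin 2 → K) (hv : v 1 ≠ 0) (c : K) : Th v hv (.C c) = C (C c) :=
  (Th v hv).commutes c

theorem Th_lin (v p : Fin 2 → K) (hv : v 1 ≠ 0) :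
    Th v hv (lin v p) = C (X - C (p 0 - v 0 / v 1 * p 1)) := by
  have h1 : (C (C (v 0 / v 1)) * C (C (v 1)) : K[X][X]) = C (C (v 0)) := by
    rw [← map_mul, ← map_mul, div_mul_cancel₀ _ hv]
  simp only [lin, map_sub, map_mul, Th_X0, Th_X1, Th_C]
  linear_combination (-X) * h1

theorem filt_mem {A : Type*} [CommRing A] [Algebra K A] (φ : Pl K →ₐ[K] A)
    (F : ℕ → Submodule K A) (hm : ∀ a b, a ≤ b → F a ≤ F b) (h1 : 1 ∈ F 1)
    (hX : ∀ k, φ (.X k) ∈ F 2) (hmul : ∀ a b u z, u ∈ F a → z ∈ F (b + 1) → u * z ∈ F (a + b))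
    (h : Pl K) : φ h ∈ F (h.totalDegree + 1) := by
  have hp : ∀ k n, φ (.X k) ^ n ∈ F (n + 1) := fun k n => by
    induction n with
    | zero => simpa using h1
    | succ n ih => rw [pow_succ]; exact hmul _ 1 _ _ ih (hX k)
  rw [h.as_sum, map_sum, ← h.as_sum]
  refine sum_mem fun s hs => ?_
  have := MvPolynomial.le_totalDegree hs
  rw [Finsupp.sum_fintype _ _ (by simp), Fin.sum_univ_two] at this
  rw [MvPolynomial.monomial_eq, Finsupp.prod_fintype _ _ (by simp), Fin.prod_univ_two,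
    ← MvPolynomial.smul_eq_C_mul, map_smul, map_mul, map_pow, map_pow]
  exact smul_mem _ _ (hm _ _ (by omega) (hmul _ _ _ _ (hp 0 _) (hp 1 _)))

/-- total degree `< n` -/
def TD (K : Type*) [Field K] (n : ℕ) : Submodule K K[X][X] where
  carrier := {h | ∀ j, h.coeff j ∈ degreeLT K (n - j)}
  add_mem' ha hb j := by rw [coeff_add]; exact add_mem (ha j) (hb j)
  zero_mem' j := by simp
  smul_mem' c b hb j := by rw [coeff_smul]; exact smul_mem _ c (hb j)

theorem mem_TD {n : ℕ} {h : K[X][X]} : h ∈ TD K n ↔ ∀ j, h.coeff j ∈ degreeLT K (n - j) := Iff.rfl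

theorem Th_mem_TD (v : Fin 2 → K) (hv : v 1 ≠ 0) (h : Pl K) :
    Th v hv h ∈ TD K (h.totalDegree + 1) := by
  have hC : ∀ c : K, C (C c) * X ∈ TD K 2 := fun c => mem_TD.2 fun j => by
    rw [coeff_C_mul_X, mem_dlt]
    split_ifs with e
    · subst e; simp
    · simp
  refine filt_mem (Th v hv).toAlgHom (TD K)
    (fun a b hab h hh => mem_TD.2 fun j => degreeLT_mono (by omega) (mem_TD.1 hh j))
    (mem_TD.2 fun j => ?_) (fun k => ?_) (fun a b u z hu hz => mem_TD.2 fun j => ?_) h
  · rw [coeff_one, mem_dlt]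
    split_ifs with e
    · subst e; simp
    · simp
  · fin_cases k
    · change Th v hv (.X 0) ∈ _
      rw [Th_X0]
      refine add_mem (mem_TD.2 fun j => ?_) (hC _)
      rw [coeff_C, mem_dlt]
      split_ifs with e
      · subst e; simp
      · simp
    · change Th v hv (.X 1) ∈ _
      rw [Th_X1]
      exact hC _
  · rw [coeff_mul]
    refine sum_mem fun x hx => ?_
    replace hx : x.1 + x.2 = j := by simpa using hx
    rw [mem_dlt]
    rcases mem_dlt.1 (mem_TD.1 hu x.1) with h | h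
    · simp [h]
    rcases mem_dlt.1 (mem_TD.1 hz x.2) with h' | h'
    · simp [h']
    have := natDegree_mul_le (p := u.coeff x.1) (q := z.coeff x.2)
    right; omega

theorem coeff_Th (v : Fin 2 → K) (hv : v 1 ≠ 0) (h : Pl K) (n : ℕ) :
    ((Th v hv h).coeff n).coeff 0 =
      MvPolynomial.eval v (MvPolynomial.homogeneousComponent n h) := by
  have : (Polynomial.mapAlgHom (aeval (0 : K) : K[X] →ₐ[K] K)).comp (Th v hv).toAlgHom = ln v := by
    ext1 k
    fin_cases k
    · simp [Th_X0, ln]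
    · simp [Th_X1, ln]
  rw [← coeff_ln, ← this]
  simp [coeff_zero_eq_eval_zero]

theorem exists_monic_eq (v : Fin 2 → K) (hv : v 1 ≠ 0) {f : Pl K}
    (h : MvPolynomial.eval v (MvPolynomial.homogeneousComponent f.totalDegree f) ≠ 0) :
    ∃ g : K[X][X], g.Monic ∧ g.natDegree = f.totalDegree ∧ Associated (Th v hv f) g ∧
      g ∈ TD K (f.totalDegree + 1) := by
  have h1 := Th_mem_TD v hv f
  rw [← coeff_Th v hv] at h
  set c := ((Th v hv f).coeff f.totalDegree).coeff 0 with hc
  have h2 : (Th v hv f).coeff f.totalDegree = C c := by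
    rcases mem_dlt.1 (mem_TD.1 h1 f.totalDegree) with e | e
    · rw [hc, e]; simp
    · exact eq_C_of_natDegree_le_zero (by omega)
  have h3 : (c⁻¹ • Th v hv f).natDegree ≤ f.totalDegree :=
    natDegree_le_iff_coeff_eq_zero.2 fun j hj => by
      have := mem_dlt.1 (mem_TD.1 h1 j)
      rw [coeff_smul, this.resolve_right (by omega), smul_zero]
  have h4 : (c⁻¹ • Th v hv f).coeff f.totalDegree = 1 := by
    rw [coeff_smul, h2, smul_C, smul_eq_mul, inv_mul_cancel₀ h, map_one]
  refine ⟨c⁻¹ • Th v hv f, monic_of_natDegree_le_of_coeff_eq_one _ h3 h4,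
    natDegree_eq_of_le_of_coeff_ne_zero h3 (h4 ▸ one_ne_zero), ?_, smul_mem _ _ h1⟩
  rw [Algebra.smul_def]
  exact (associated_unit_mul_left _ _ ((inv_ne_zero h).isUnit.map _)).symm

theorem repr_pow {A B : Type*} [CommRing A] [CommRing B] [Algebra A B] {g : A[X]} (hg : g.Monic)
    (bs : Basis (Fin g.natDegree) A B) (y : B) (hbs : ∀ j, bs j = y ^ (j : ℕ))
    (h0 : aeval y g = 0) (j : Fin g.natDegree) : bs.repr (y ^ g.natDegree) j = -g.coeff j := by
  have e : y ^ g.natDegree = ∑ i : Fin g.natDegree, (-g.coeff i) • bs i := by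
    rw [hg.as_sum, map_add, map_pow, aeval_X, map_sum,
      ← Fin.sum_univ_eq_sum_range (fun i => aeval _ (C (g.coeff i) * X ^ i))] at h0
    rw [eq_neg_of_add_eq_zero_left h0, ← Finset.sum_neg_distrib]
    exact Finset.sum_congr rfl fun i _ => by simp [hbs, Algebra.smul_def]
  rw [e, Basis.repr_sum_self]

/-- the model attached to a monic equation -/
noncomputable def mkModel {g : K[X][X]} (hg : g.Monic) (hd : 0 < g.natDegree)
    (h : g ∈ TD K (g.natDegree + 1)) : Model K (AdjoinRoot g) where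
  d := g.natDegree
  y := AdjoinRoot.root g
  bs := (AdjoinRoot.powerBasis' hg).basis
  hbs := (AdjoinRoot.powerBasis' hg).basis_eq_pow
  hy j := by
    have := repr_pow hg (AdjoinRoot.powerBasis' hg).basis _
      (AdjoinRoot.powerBasis' hg).basis_eq_pow (by simp) j
    exact this ▸ neg_mem (mem_TD.1 h j)
  hd := hd

theorem exists_dir [Infinite K] {ι : Type*} [Fintype ι] (p : ι → Fin 2 → K)
    (hp : Function.Injective p) (T : Option ι → Pl K) (hT : ∀ i, T i ≠ 0) :
    ∃ v : Fin 2 → K, v 1 ≠ 0 ∧ (∀ i, MvPolynomial.eval v (T i) ≠ 0) ∧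
      ∀ i j, i ≠ j → MvPolynomial.eval (p j) (lin v (p i)) ≠ 0 := by
  classical
  let H : ι × ι → Pl K := fun t => if t.1 = t.2 then 1 else
    .C (p t.2 0 - p t.1 0) * .X 1 - .C (p t.2 1 - p t.1 1) * .X 0
  have hH : ∀ t, H t ≠ 0 := fun t => by
    simp only [H]
    split_ifs with e
    · exact one_ne_zero
    · intro h0
      have h1 := congrArg (MvPolynomial.eval ![0, 1]) h0
      have h2 := congrArg (MvPolynomial.eval ![1, 0]) h0
      simp [sub_eq_zero] at h1 h2
      refine e (hp ?_)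
      funext k
      fin_cases k
      · exact h1.symm
      · exact h2
  have h0 : .X 1 * ((∏ i, T i) * ∏ t, H t) ≠ 0 := mul_ne_zero (MvPolynomial.X_ne_zero _)
    (mul_ne_zero (Finset.prod_ne_zero_iff.2 fun i _ => hT i)
      (Finset.prod_ne_zero_iff.2 fun t _ => hH t))
  obtain ⟨v, hv⟩ : ∃ v, MvPolynomial.eval v (.X 1 * ((∏ i, T i) * ∏ t, H t)) ≠ 0 := by
    by_contra hc
    push Not at hc
    exact h0 (MvPolynomial.funext hc)
  simp only [map_mul, map_prod, ne_eq, mul_eq_zero, not_or, MvPolynomial.eval_X,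
    Finset.prod_eq_zero_iff, Finset.mem_univ, true_and, not_exists] at hv
  refine ⟨v, hv.1, hv.2.1, fun i j hij h => hv.2.2 (i, j) ?_⟩
  have := hv.1
  simp only [lin, map_sub, map_mul, MvPolynomial.eval_X, MvPolynomial.eval_C] at h
  simp only [H, if_neg hij, map_sub, map_mul, MvPolynomial.eval_X, MvPolynomial.eval_C]
  field_simp at h
  linear_combination h

theorem top_ne_zero {f : Pl K} (hf : f ≠ 0) :
    MvPolynomial.homogeneousComponent f.totalDegree f ≠ 0 := fun h => by
  obtain ⟨s, hs, e⟩ := f.support.exists_mem_eq_sup (MvPolynomial.support_nonempty.2 hf)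
    fun s => s.sum fun _ e => e
  have := MvPolynomial.coeff_homogeneousComponent (n := f.totalDegree) (φ := f) s
  rw [h, if_pos (show s.degree = f.totalDegree from e.symm)] at this
  exact MvPolynomial.mem_support_iff.1 hs this.symm

theorem ci_map {A B : Type*} [CommRing A] [CommRing B] [Algebra K A] [Algebra K B]
    (π : A →ₐ[K] B) (hπ : Function.Surjective π) {c : Ideal A} (hc : Cof (c.restrictScalars K)) :
    ci K (c.map π) = ci K (c ⊔ RingHom.ker π : Ideal A) := by
  have e : ((c.map π).restrictScalars K).comap π.toLinearMap =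
      (c ⊔ RingHom.ker π : Ideal A).restrictScalars K := by
    rw [RingHom.ker, ← Ideal.comap_map_of_surjective π hπ]
    rfl
  rw [ci, ci, ← e, cd_comap_of_surj _ hπ (cof_of_comap _ hπ (e ▸ cof_mono hc le_sup_left))]

theorem rrc [IsAlgClosed K] {ι : Type*} [Fintype ι] (p : ι → Fin 2 → K)
    (hp : Function.Injective p) {f : Pl K} (hf : Irreducible f) {d : ℕ} (hd : f.totalDegree = d)
    (m : ι → ℕ) (hm : ∀ i, f ∈ mx (p i) ^ m i)
    (hm' : ∀ i, MvPolynomial.homogeneousComponent (m i) (tr (p i) f) ≠ 0) :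
    (3 * d + ∑ i, m i * (m i - 1) ≤ d * d + 2) ∧
    (∀ g, ¬ f ∣ g → Cof ((Ideal.span {f, g}).restrictScalars K)) ∧
    ∀ (e w : ℕ) (h : Fin w → Pl K) (c : ι → Ideal (Pl K)) (k γ : ι → ℕ), 0 < w →
      (∀ α : Fin w → K, f ∣ ∑ j, α j • h j → ∀ j, α j = 0) → (∀ j, (h j).totalDegree ≤ e) →
      (∀ i, mx (p i) ^ k i ≤ c i) → (∀ i j, ∀ z ∈ mx (p i) ^ (m i - 1), h j * z ∈ c i) →
      (∀ i, m i * (m i - 1) + 2 * γ i ≤ 2 * ci K (c i ⊔ Ideal.span {f} : Ideal (Pl K))) →
      2 * w + 2 * ∑ i, γ i + d * d ≤ 2 * (e * d) + 3 * d + ∑ i, m i * (m i - 1) ∨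
        2 * w + ∑ i, γ i ≤ e * d + 2 := by
  subst hd
  obtain ⟨v, hv, hT, hl⟩ := exists_dir p hp
    (fun i => i.elim (MvPolynomial.homogeneousComponent f.totalDegree f)
      fun i => MvPolynomial.homogeneousComponent (m i) (tr (p i) f))
    (by rintro (_ | i); exacts [top_ne_zero hf.ne_zero, hm' i])
  obtain ⟨g, hg, hgd, hfg, hTD⟩ := exists_monic_eq v hv (hT none)
  have hgi : Irreducible g := hfg.irreducible (hf.map (Th v hv))
  have hd0 : 0 < g.natDegree := Nat.pos_of_ne_zero fun h0 =>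
    hgi.not_isUnit (by rw [hg.natDegree_eq_zero.1 h0]; exact isUnit_one)
  have := AdjoinRoot.isDomain_of_prime hgi.prime
  let M := mkModel hg hd0 (hgd ▸ hTD)
  have hMd : M.d = f.totalDegree := hgd
  have : Module.Finite K[X] (AdjoinRoot g) := Module.Finite.of_basis M.bs
  have : Algebra.FiniteType K (AdjoinRoot g) :=
    Algebra.FiniteType.trans (S := K[X]) inferInstance inferInstance
  let π : Pl K →ₐ[K] AdjoinRoot g := (AdjoinRoot.mkₐ g).restrictScalars K |>.comp (Th v hv)
  have hπa : ∀ h, π h = AdjoinRoot.mk g (Th v hv h) := fun _ => rfl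
  have hπ : Function.Surjective π := AdjoinRoot.mk_surjective.comp (Th v hv).surjective
  have hker : RingHom.ker π = Ideal.span {f} := by
    ext h
    rw [RingHom.mem_ker, hπa, AdjoinRoot.mk_eq_zero, ← hfg.dvd_iff_dvd_left, map_dvd_iff,
      Ideal.mem_span_singleton]
  have hlin : ∀ i, algebraMap K[X] (AdjoinRoot g) (X - C (p i 0 - v 0 / v 1 * p i 1)) =
      π (lin v (p i)) := fun i => by rw [hπa, Th_lin]; rfl
  let S : Pts K (AdjoinRoot g) ι :=
    { 𝔪 i := (mx (p i)).map π
      l i := X - C (p i 0 - v 0 / v 1 * p i 1)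
      μ i := m i - 1
      monic i := monic_X_sub_C _
      mem i := hlin i ▸ Ideal.mem_map_of_mem _ (lin_mem v _)
      co i j hij := by
        have := congrArg (Ideal.map π) (span_sup_mx (hl i j hij))
        rwa [Ideal.map_sup, Ideal.map_span, Set.image_singleton, Ideal.map_top, ← hlin] at this
      gen i hi := by
        have e : m i = m i - 1 + 1 := by omega
        have := Ideal.map_mono (f := π) (mx_gen hv (μ := m i - 1) (e ▸ hm i) (e ▸ hT (some i)))
        rwa [Ideal.map_sup, Ideal.map_sup, Ideal.map_mul, Ideal.map_pow, Ideal.map_pow,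
          Ideal.map_pow, Ideal.map_span, Set.image_singleton, ← hlin, ← hker,
          (Ideal.map_eq_bot_iff_le_ker π).2 le_rfl, sup_bot_eq] at this }
  have hμ : ∀ i, 2 * ci K (S.𝔪 i ^ S.μ i) ≤ m i * (m i - 1) := fun i => by
    have h1 := ci_mx (p i) (m i - 1)
    have h2 := ci_anti (cof_mx (p i) (m i - 1)) (le_sup_left (b := RingHom.ker π))
    rw [← ci_map π hπ (cof_mx _ _), Ideal.map_pow] at h2
    rcases Nat.eq_zero_or_pos (m i) with h | h
    · simp [S, h, ci_top]
    · rw [Nat.sub_add_cancel h, mul_comm (m i - 1)] at h1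
      exact (Nat.mul_le_mul_left 2 h2).trans h1.le
  have hμ' := Finset.sum_le_sum fun i (_ : i ∈ Finset.univ) => hμ i
  rw [← Finset.mul_sum] at hμ'
  refine ⟨?_, fun q hq => ?_, fun e w h c k γ hw hind hdeg hk hc hγ => ?_⟩
  · have h1 := M.genus_B S exists_point
    have h2 : ∑ i, m i * (m i - 1) ≤ ∑ i, ci K (Ideal.span {algebraMap K[X] _ (S.l i) ^ S.μ i} ⊔
        S.𝔪 i ^ (S.μ i + S.μ i) : Ideal (AdjoinRoot g)) := Finset.sum_le_sum fun i _ => by
      have := ci_gen (hm i) (lin_mem v (p i))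
      rwa [← hker, ← ci_map π hπ (cof_mono (cof_mx _ _) le_sup_right), Ideal.map_sup,
        Ideal.map_pow, Ideal.map_span, Set.image_singleton, map_pow, ← hlin] at this
    rw [← Finset.sum_mul, ← Finset.sum_mul, hMd] at h1
    omega
  · have h1 := M.cof (I := Ideal.span {π q}) (by
      rwa [ne_eq, Ideal.span_singleton_eq_bot, ← RingHom.mem_ker, hker, Ideal.mem_span_singleton])
    have h2 := Cof.inf_comap π.toLinearMap h1 cof_top
    refine h2.mono fun x hx => ?_
    obtain ⟨b, hb⟩ := Ideal.mem_span_singleton'.1 hx.2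
    obtain ⟨b, rfl⟩ := hπ b
    have : x - b * q ∈ RingHom.ker π := by
      rw [RingHom.mem_ker, map_sub, map_mul, hb]; exact sub_self _
    rw [hker] at this
    obtain ⟨a, ha⟩ := Ideal.mem_span_singleton'.1 this
    exact Ideal.mem_span_pair.2 ⟨a, b, by linear_combination ha⟩
  · have hy : ∀ c : K, algebraMap K[X] _ (C c) * AdjoinRoot.root g ∈ M.E 2 := fun c =>
      M.mul_mem_E (b := 1) (M.alg_mem_E (k := 0) (by simp)) (pow_one M.y ▸ M.y_pow_mem_E 1 : M.y ∈ _)
    have hX0 : π (.X 0) ∈ M.E 2 := by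
      rw [hπa, Th_X0, map_add, map_mul, AdjoinRoot.mk_C, AdjoinRoot.mk_C, AdjoinRoot.mk_X]
      exact add_mem (M.alg_mem_E (a := X) natDegree_X_le) (hy _)
    have hX1 : π (.X 1) ∈ M.E 2 := by
      rw [hπa, Th_X1, map_mul, AdjoinRoot.mk_C, AdjoinRoot.mk_X]
      exact hy _
    have h1 := M.clifford_B S exists_point (e := e) hw (fun j => π (h j))
      (Fintype.linearIndependent_iff.2 fun α hα => hind α (by
        rw [← Ideal.mem_span_singleton, ← hker, RingHom.mem_ker, map_sum]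
        simpa using hα))
      (fun j => M.E_mono (by have := hdeg j; omega) (filt_mem π M.E (fun _ _ => M.E_mono)
        M.one_mem_E (Fin.forall_fin_two.2 ⟨hX0, hX1⟩) (fun _ _ _ _ => M.mul_mem_E) _))
      (fun i => (c i).map π) k (fun i => Ideal.map_pow π _ _ ▸ Ideal.map_mono (hk i))
      fun i j z hz => by
        obtain ⟨z, hz', rfl⟩ := (Ideal.mem_map_iff_of_surjective π hπ).1 (Ideal.map_pow π _ _ ▸ hz)
        rw [← map_mul]
        exact Ideal.mem_map_of_mem _ (hc i j z hz')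
    have h2 := Finset.sum_le_sum fun i (_ : i ∈ Finset.univ) => hγ i
    rw [Finset.sum_add_distrib, ← Finset.mul_sum, ← Finset.mul_sum] at h2
    rw [Finset.sum_congr rfl fun i _ => ci_map π hπ (cof_mono (cof_mx _ _) (hk i)), hker,
      hMd] at h1
    omega

end Pool.Agent.P.MP_d3e5c7_ag.PA
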