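import Pool.Agent.P.MP_d3e5c7_ag.ACurve

/-! Derivations moving one point; leading forms. -/

namespace Pool.Agent.P.MP_d3e5c7_ag.PA

open Module Submodule MvPolynomial

theorem exists_der {L κ : Type*} [Field L] [CharZero L] {x : κ → L}
    (hx : AlgebraicIndependent ℚ x) (w : κ → L) : ∃ D : Derivation ℚ L L, ∀ k, D (x k) = w k := by
  classical
  obtain ⟨t, ht, hb⟩ := exists_isTranscendenceBasis_superset (R := ℚ) hx.to_subtype_range
  let S := MvPolynomial t ℚ
  let _ : Algebra S L := (aeval ((↑) : t → L)).toRingHom.toAlgebra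
  have : IsScalarTower ℚ S L := IsScalarTower.of_algebraMap_eq fun r => by
    simp [RingHom.algebraMap_toAlgebra]
  have : FaithfulSMul S L := (faithfulSMul_iff_algebraMap_injective S L).2 hb.1
  have : Algebra.IsAlgebraic S L :=
    (Algebra.isAlgebraic_ringHom_iff_of_comp_eq hb.1.aevalEquiv (RingEquiv.refl L)
      (RingHom.ext fun z => hb.1.algebraMap_aevalEquiv z)).1 hb.isAlgebraic
  let _ := FractionRing.liftAlgebra S L
  have := FractionRing.isScalarTower_liftAlgebra S L
  have : Algebra.IsAlgebraic (FractionRing S) L := IsFractionRing.comap_isAlgebraic_iff.1 ‹_›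
  have : Algebra.FormallyEtale S (FractionRing S) := .of_isLocalization (nonZeroDivisors S)
  have : Algebra.FormallyEtale (FractionRing S) L := .of_isSeparable _ _
  have : Algebra.FormallyEtale S L := .comp S (FractionRing S) L
  let d0 : Derivation ℚ S L := mkDerivation ℚ fun z => Function.extend x w 0 (z : L)
  refine ⟨(d0.liftKaehlerDifferential.liftBaseChange L ∘ₗ
    (KaehlerDifferential.tensorKaehlerEquivOfFormallyEtale ℚ S L).symm.toLinearMap).compDer
      (KaehlerDifferential.D ℚ L), fun k => ?_⟩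
  have e : x k = algebraMap S L (X ⟨x k, ht ⟨k, rfl⟩⟩) := (aeval_X ((↑) : t → L) ⟨x k, ht ⟨k, rfl⟩⟩).symm
  change d0.liftKaehlerDifferential.liftBaseChange L
    ((KaehlerDifferential.tensorKaehlerEquivOfFormallyEtale ℚ S L).symm
      (KaehlerDifferential.D ℚ L (x k))) = w k
  rw [e, KaehlerDifferential.tensorKaehlerEquivOfFormallyEtale_symm_D_algebraMap,
    LinearMap.liftBaseChange_tmul, one_smul, Derivation.liftKaehlerDifferential_comp_D,
    mkDerivation_X, hx.injective.extend_apply]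

variable {K : Type*} [Field K]

section Dt

variable [CharZero K] (D : Derivation ℚ K K)

/-- coefficientwise derivative -/
noncomputable def Dt (h : Pl K) : Pl K := ∑ s ∈ h.support, monomial s (D (coeff s h))

theorem coeff_Dt (h : Pl K) (s : Fin 2 →₀ ℕ) : coeff s (Dt D h) = D (coeff s h) := by
  classical
  rw [Dt, coeff_sum]
  simp only [coeff_monomial, Finset.sum_ite_eq', MvPolynomial.mem_support_iff]
  split_ifs with e
  · rfl
  · rw [not_not.1 e, map_zero]

theorem Dt_add (a b : Pl K) : Dt D (a + b) = Dt D a + Dt D b := by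
  ext s; simp [coeff_Dt]

theorem Dt_mul (a b : Pl K) : Dt D (a * b) = a * Dt D b + b * Dt D a := by
  classical
  ext s
  rw [mul_comm b]
  simp only [coeff_Dt, coeff_mul, coeff_add, map_sum, Derivation.leibniz, smul_eq_mul,
    ← Finset.sum_add_distrib]
  exact Finset.sum_congr rfl fun x _ => by ring

theorem Dt_C (c : K) : Dt D (C c) = C (D c) := by
  classical
  ext s
  simp only [coeff_Dt, coeff_C]
  split_ifs <;> simp

theorem Dt_X (k : Fin 2) : Dt D (X k) = 0 := by
  classical
  ext s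
  simp only [coeff_Dt, coeff_X]
  split_ifs <;> simp

theorem Dt_X_pow (k : Fin 2) (n : ℕ) : Dt D (X k ^ n) = 0 := by
  induction n with
  | zero => simpa using Dt_C D 1
  | succ n ih => rw [pow_succ, Dt_mul, ih, Dt_X]; simp

theorem totalDegree_Dt (h : Pl K) : (Dt D h).totalDegree ≤ h.totalDegree :=
  totalDegree_le_of_support_subset fun s hs => by
    rw [MvPolynomial.mem_support_iff] at hs ⊢
    intro e
    rw [coeff_Dt, e, map_zero] at hs
    exact hs rfl

theorem Dt_mem {h : Pl K} {n : ℕ} (H : h ∈ mx 0 ^ n) : Dt D h ∈ mx 0 ^ n := by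
  rw [mx_zero, mem_pow_idealOfVars_iff'] at H ⊢
  intro x hx
  rw [coeff_Dt, H x hx, map_zero]

theorem Dt_pderiv (k : Fin 2) (h : Pl K) : Dt D (pderiv k h) = pderiv k (Dt D h) := by
  ext s
  have : D ((s k : K) + 1) = 0 := by simp
  simp [coeff_Dt, coeff_pderiv, this, mul_comm]

end Dt

/-- directional derivative -/
noncomputable def dv (v : Fin 2 → K) : Derivation K (Pl K) (Pl K) :=
  v 0 • pderiv 0 + v 1 • pderiv 1

theorem dv_apply (v : Fin 2 → K) (h : Pl K) : dv v h = v 0 • pderiv 0 h + v 1 • pderiv 1 h := rfl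

@[simp] theorem dv_X (v : Fin 2 → K) (k : Fin 2) : dv v (X k) = C (v k) := by
  fin_cases k <;> simp [dv_apply, smul_eq_C_mul]

@[simp] theorem dv_C (v : Fin 2 → K) (c : K) : dv v (C c) = 0 := by simp

theorem tr_Dt [CharZero K] (D : Derivation ℚ K K) {p v : Fin 2 → K} (hv : ∀ k, D (p k) = -v k)
    (h : Pl K) : tr p (Dt D h) = Dt D (tr p h) + dv v (tr p h) := by
  induction h using MvPolynomial.induction_on with
  | C c => simp [Dt_C]
  | add a b ha hb => simp only [Dt_add, map_add, ha, hb]; ring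
  | mul_X a k ha =>
    simp only [Dt_mul, Dt_X, Dt_add, Dt_C, map_add, map_mul, ha, tr_X, Derivation.leibniz, dv_X,
      dv_C, hv, map_neg, smul_eq_mul, map_zero]
    ring

theorem pderiv_mem {h : Pl K} {n : ℕ} (H : h ∈ mx 0 ^ (n + 1)) (k : Fin 2) :
    pderiv k h ∈ mx 0 ^ n := by
  rw [mx_zero, mem_pow_idealOfVars_iff'] at H ⊢
  intro x hx
  rw [coeff_pderiv, H _ (by simpa using hx), zero_mul]

theorem dv_mem {h : Pl K} {n : ℕ} (H : h ∈ mx 0 ^ (n + 1)) (v : Fin 2 → K) :
    dv v h ∈ mx 0 ^ n := by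
  rw [dv_apply, smul_eq_C_mul, smul_eq_C_mul]
  exact add_mem (Ideal.mul_mem_left _ _ (pderiv_mem H 0)) (Ideal.mul_mem_left _ _ (pderiv_mem H 1))

theorem dv_hom {h : Pl K} {n : ℕ} (H : h.IsHomogeneous (n + 1)) (v : Fin 2 → K) :
    (dv v h).IsHomogeneous n := by
  rw [dv_apply, smul_eq_C_mul, smul_eq_C_mul]
  exact (H.pderiv.C_mul _).add (H.pderiv.C_mul _)

theorem pderiv_comm (i j : Fin 2) (h : Pl K) : pderiv i (pderiv j h) = pderiv j (pderiv i h) := by
  classical
  ext s
  simp only [coeff_pderiv, Finsupp.add_apply, Finsupp.single_apply, add_right_comm s]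
  by_cases e : i = j
  · simp [e]
  · simp [e, Ne.symm e]; ring

theorem dv_pderiv (v : Fin 2 → K) (k : Fin 2) (h : Pl K) :
    dv v (pderiv k h) = pderiv k (dv v h) := by
  simp [dv_apply, pderiv_comm k]

theorem hom_mem {H : Pl K} {n : ℕ} (h : H.IsHomogeneous n) : H ∈ mx 0 ^ n :=
  (mem_mx0_pow n H).2 fun j hj => by rw [homogeneousComponent_of_mem h, if_neg hj.ne]

/-- `H` is the degree `n` leading form of `G` -/
def Lead (n : ℕ) (G H : Pl K) : Prop := H.IsHomogeneous n ∧ G - H ∈ mx 0 ^ (n + 1)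

theorem Lead.mem {n : ℕ} {G H : Pl K} (h : Lead n G H) : G ∈ mx 0 ^ n := by
  simpa using add_mem (Ideal.pow_le_pow_right n.le_succ h.2) (hom_mem h.1)

theorem Lead.eq {n : ℕ} {G H : Pl K} (h : Lead n G H) : homogeneousComponent n G = H := by
  have := (mem_mx0_pow _ _).1 h.2 n n.lt_succ_self
  rwa [map_sub, homogeneousComponent_eq_self h.1, sub_eq_zero] at this

theorem lead_of_mem {n : ℕ} {G : Pl K} (h : G ∈ mx 0 ^ n) :
    Lead n G (homogeneousComponent n G) :=
  ⟨homogeneousComponent_isHomogeneous _ _, (mem_mx0_pow _ _).2 fun j hj => by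
    rw [map_sub, homogeneousComponent_of_mem (homogeneousComponent_mem _ _)]
    split_ifs with e
    · rw [e, sub_self]
    · rw [(mem_mx0_pow _ _).1 h j (by omega), sub_zero]⟩

theorem Lead.mul {n n' : ℕ} {G H G' H' : Pl K} (h : Lead n G H) (h' : Lead n' G' H') :
    Lead (n + n') (G * G') (H * H') :=
  ⟨h.1.mul h'.1, by
    have := add_mem (mul_mem_pow h.2 h'.mem (c := n + n' + 1) (by omega))
      (mul_mem_pow (hom_mem h.1) h'.2 (by omega))
    rwa [show (G - H) * G' + H * (G' - H') = G * G' - H * H' by ring] at this⟩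

theorem Lead.der [CharZero K] (D : Derivation ℚ K K) {n : ℕ} {G H : Pl K} (h : Lead (n + 1) G H)
    (v : Fin 2 → K) : Lead n (Dt D G + dv v G) (dv v H) :=
  ⟨dv_hom h.1 v, by
    rw [add_sub_assoc, ← map_sub]
    exact add_mem (Dt_mem D h.mem) (dv_mem h.2 v)⟩

theorem Lead.sum {n w : ℕ} {G H : Fin w → Pl K} (h : ∀ j, Lead n (G j) (H j)) (α : Fin w → K) :
    Lead n (∑ j, α j • G j) (∑ j, α j • H j) :=
  ⟨IsHomogeneous.sum _ _ _ fun j _ => by rw [smul_eq_C_mul]; exact (h j).1.C_mul _, by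
    rw [← Finset.sum_sub_distrib]
    refine sum_mem fun j _ => ?_
    rw [← smul_sub, smul_eq_C_mul]
    exact Ideal.mul_mem_left _ _ (h j).2⟩

theorem exists_mult {G : Pl K} (h : G ≠ 0) :
    ∃ r, G ∈ mx 0 ^ r ∧ homogeneousComponent r G ≠ 0 := by
  classical
  have : ∃ r, homogeneousComponent r G ≠ 0 := ⟨_, top_ne_zero h⟩
  exact ⟨Nat.find this, (mem_mx0_pow _ _).2 fun j hj => not_not.1 (Nat.find_min this hj),
    Nat.find_spec this⟩

theorem Lead.dvd {m n : ℕ} {F T G H : Pl K} (hF : Lead m F T) (hT : T ≠ 0) (hG : Lead n G H)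
    (h : F ∣ G) : ∃ g : Pl K, g.IsHomogeneous (n - m) ∧ (n < m → g = 0) ∧ H = T * g := by
  obtain ⟨g, rfl⟩ := h
  rcases eq_or_ne g 0 with rfl | hg
  · exact ⟨0, isHomogeneous_zero _ _ _, fun _ => rfl, by simp [← hG.eq]⟩
  obtain ⟨r, hr, hr'⟩ := exists_mult hg
  have h1 := hF.mul (lead_of_mem hr)
  rcases lt_trichotomy n (m + r) with e | e | e
  · exact ⟨0, isHomogeneous_zero _ _ _, fun _ => rfl, by
      rw [← hG.eq, (mem_mx0_pow _ _).1 h1.mem n e, mul_zero]⟩
  · subst e
    exact ⟨_, by simpa using homogeneousComponent_isHomogeneous r g, fun h => by omega,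
      hG.eq.symm.trans h1.eq⟩
  · exact absurd (h1.eq.symm.trans ((mem_mx0_pow _ _).1 hG.mem _ e)) (mul_ne_zero hT hr')

theorem eval_eq_zero {p : Fin 2 → K} {h : Pl K} (H : h ∈ mx p) : eval p h = 0 := by
  have : mx p ≤ RingHom.ker (eval p) := Ideal.span_le.2 (by rintro _ ⟨k, rfl⟩; simp)
  exact this H

theorem cof_pair [IsAlgClosed K] {f g : Pl K} (hf : Irreducible f) (h : ¬ f ∣ g) :
    Cof ((Ideal.span {f, g}).restrictScalars K) :=
  (rrc (ι := Empty) (fun i => i.elim) (fun i => i.elim) hf rfl (fun i => i.elim)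
    (fun i => i.elim) fun i => i.elim).2.1 g h

/-- a singular point cannot move on a fixed curve -/
theorem not_dvd_der [IsAlgClosed K] [CharZero K] (D : Derivation ℚ K K) {v : Fin 2 → K}
    (hv : v ≠ 0) {F T : Pl K} (hF : Irreducible F) {m : ℕ} (hT : Lead (m + 2) F T) (hT0 : T ≠ 0) :
    ¬ F ∣ Dt D F + dv v F := by
  rintro ⟨g, hg⟩
  set I : Ideal (Pl K) := Ideal.span {F, pderiv 0 F, pderiv 1 F} with hI
  have hF0 : F ∈ I := Ideal.subset_span (by simp)
  have hFk : ∀ k, pderiv k F ∈ I := Fin.forall_fin_two.2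
    ⟨Ideal.subset_span (by simp), Ideal.subset_span (by simp)⟩
  have hk : ∀ k, Dt D (pderiv k F) + dv v (pderiv k F) ∈ I := fun k => by
    rw [Dt_pderiv, dv_pderiv, ← map_add, hg, Derivation.leibniz]
    exact add_mem (I.mul_mem_right _ hF0) (I.mul_mem_left _ (hFk k))
  have hst : ∀ z ∈ I, Dt D z + dv v z ∈ I := fun z hz => by
    induction hz using Submodule.span_induction with
    | mem x hx =>
      rcases hx with rfl | rfl | rfl
      exacts [hg ▸ I.mul_mem_right _ hF0, hk 0, hk 1]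
    | zero => simp [Dt]
    | add x y _ _ hx hy => rw [Dt_add, map_add, add_add_add_comm]; exact add_mem hx hy
    | smul a x hx' hx =>
      rw [smul_eq_mul, Dt_mul, Derivation.leibniz, add_add_add_comm, smul_eq_mul, smul_eq_mul,
        ← mul_add, ← mul_add]
      exact add_mem (I.mul_mem_left _ hx) (I.mul_mem_right _ hx')
  have hle : I ≤ mx 0 := by
    refine Ideal.span_le.2 ?_
    have h1 : ∀ k, pderiv k F ∈ mx 0 := fun k =>
      Ideal.pow_le_self m.succ_ne_zero (pderiv_mem hT.mem k)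
    rintro x (rfl | rfl | rfl)
    exacts [Ideal.pow_le_self (m + 1).succ_ne_zero hT.mem, h1 0, h1 1]
  obtain ⟨k, hk⟩ : ∃ k, ¬ F ∣ pderiv k F := by
    by_contra hc
    push Not at hc
    have h1 : ∀ k, pderiv k T = 0 := fun k => by
      obtain ⟨g, -, h2, h3⟩ := hT.dvd hT0 (n := m + 1) (H := pderiv k T)
        ⟨hT.1.pderiv, map_sub (pderiv k) F T ▸ pderiv_mem hT.2 k⟩ (hc k)
      rw [h3, h2 (by omega), mul_zero]
    have := hT.1.sum_X_mul_pderiv
    simp only [h1, mul_zero, Finset.sum_const_zero] at this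
    exact hT0 ((smul_eq_zero.1 this.symm).resolve_left (by omega))
  have hc : FiniteDimensional K (Pl K ⧸ I.restrictScalars K) := cof_mono (cof_pair hF hk)
    (Ideal.span_le.2 (by rintro x (rfl | rfl); exacts [hF0, hFk k]))
  have : Module.Finite K (Pl K ⧸ I) :=
    Module.Finite.equiv (Submodule.Quotient.restrictScalarsEquiv K I)
  obtain ⟨j, hj⟩ := Function.ne_iff.1 hv
  obtain ⟨N, hN, hN'⟩ := Algebra.IsIntegral.isIntegral (R := K) (Ideal.Quotient.mkₐ K I (X j))
  rw [← Polynomial.aeval_def, Polynomial.aeval_algHom_apply] at hN'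
  have hD : ∀ N : Polynomial K, ∃ N' : Polynomial K, (∀ k, N'.coeff k = D (N.coeff k)) ∧
      Dt D (Polynomial.aeval (X j) N) = Polynomial.aeval (X j) N' := fun N => by
    induction N using Polynomial.induction_on' with
    | add a b ha hb =>
      obtain ⟨a', ha, ha'⟩ := ha
      obtain ⟨b', hb, hb'⟩ := hb
      exact ⟨a' + b', fun k => by simp [ha, hb], by simp [Dt_add, ha', hb']⟩
    | monomial n c =>
      refine ⟨Polynomial.monomial n (D c), fun k => ?_, by simp [Dt_mul, Dt_C, Dt_X_pow, mul_comm]⟩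
      simp only [Polynomial.coeff_monomial]
      split_ifs <;> simp
  have H : ∀ k, ∀ N : Polynomial K, Polynomial.aeval (X j) N ∈ I → N.coeff k = 0 := fun k => by
    induction k with
    | zero =>
      intro N h
      have := eval_eq_zero (hle h)
      rwa [← coe_aeval_eq_eval, RingHom.coe_coe, ← Polynomial.aeval_algHom_apply, aeval_X,
        Pi.zero_apply, Polynomial.coe_aeval_eq_eval, ← Polynomial.coeff_zero_eq_eval_zero] at this
    | succ k ih =>
      intro N h
      obtain ⟨N', h1, h2⟩ := hD N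
      have := ih (N' + Polynomial.derivative N * Polynomial.C (v j)) (by
        have := hst _ h
        rw [h2, Derivation.map_aeval, dv_X, smul_eq_mul] at this
        simpa using this)
      rw [Polynomial.coeff_add, h1, ih N h, map_zero, zero_add, Polynomial.coeff_mul_C,
        Polynomial.coeff_derivative] at this
      exact (mul_eq_zero.1 ((mul_eq_zero.1 this).resolve_right hj)).resolve_right
        (Nat.cast_add_one_ne_zero k)
  exact hN.ne_zero (Polynomial.ext fun k => H k N (Ideal.Quotient.eq_zero_iff_mem.1 hN'))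

end Pool.Agent.P.MP_d3e5c7_ag.PA
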