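import Pool.Agent.P.MP_d3e5c7_ag.Lin

/-! The degree filtration on the coordinate ring of a plane curve in Noether position. -/

namespace Pool.Agent.P.MP_d3e5c7_ag.PA

open Module Submodule Polynomial

theorem mem_dlt {K : Type*} [Field K] {a : K[X]} {k : ℕ} :
    a ∈ degreeLT K k ↔ a = 0 ∨ a.natDegree < k := by
  rw [Polynomial.mem_degreeLT]
  by_cases h : a = 0
  · simp [h]
  · simp [h, natDegree_lt_iff_degree_lt h]

/-- a plane curve of degree `d`, monic in `y` -/
structure Model (K B : Type*) [Field K] [CommRing B] [Algebra K[X] B] where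
  d : ℕ
  y : B
  bs : Basis (Fin d) K[X] B
  hbs : ∀ j, bs j = y ^ (j : ℕ)
  hy : ∀ j : Fin d, bs.repr (y ^ d) j ∈ degreeLT K (d + 1 - j)
  hd : 0 < d

variable {K B : Type*} [Field K] [CommRing B] [Algebra K B] [Algebra K[X] B]
  [IsScalarTower K K[X] B] (M : Model K B)

namespace Model

/-- elements with bounded coordinate degrees -/
def G (ν : Fin M.d → ℕ) : Submodule K B where
  carrier := {b | ∀ j, M.bs.repr b j ∈ degreeLT K (ν j)}
  add_mem' ha hb j := by
    rw [map_add, Finsupp.add_apply]; exact add_mem (ha j) (hb j)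
  zero_mem' j := by simp
  smul_mem' c b hb j := by
    rw [← algebraMap_smul K[X] c b, map_smul, Finsupp.smul_apply, algebraMap_smul]
    exact smul_mem _ c (hb j)

theorem mem_G {ν : Fin M.d → ℕ} {b : B} :
    b ∈ M.G ν ↔ ∀ j, M.bs.repr b j ∈ degreeLT K (ν j) := Iff.rfl

/-- coordinates -/
noncomputable def Gequiv (ν : Fin M.d → ℕ) : M.G ν ≃ₗ[K] (∀ j, degreeLT K (ν j)) where
  toFun b j := ⟨M.bs.repr b j, b.2 j⟩
  map_add' a b := by ext j; simp
  map_smul' c b := by
    funext j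
    apply Subtype.ext
    change M.bs.repr (c • (b : B)) j = c • M.bs.repr b j
    rw [← algebraMap_smul K[X] c (b : B), map_smul, Finsupp.smul_apply, algebraMap_smul]
  invFun a := ⟨M.bs.equivFun.symm fun j => a j, fun j => by
    rw [← Basis.equivFun_apply, LinearEquiv.apply_symm_apply]; exact (a j).2⟩
  left_inv b := by
    apply Subtype.ext
    change M.bs.equivFun.symm (M.bs.equivFun b) = b
    simp
  right_inv a := by
    funext j
    apply Subtype.ext
    change M.bs.repr (M.bs.equivFun.symm fun j => a j) j = a j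
    rw [← Basis.equivFun_apply, LinearEquiv.apply_symm_apply]

instance (ν : Fin M.d → ℕ) : FiniteDimensional K (M.G ν) :=
  Module.Finite.equiv (M.Gequiv ν).symm

theorem finrank_G (ν : Fin M.d → ℕ) : finrank K (M.G ν) = ∑ j, ν j := by
  rw [(M.Gequiv ν).finrank_eq, finrank_pi_fintype]
  exact Finset.sum_congr rfl fun j _ => by simp [(degreeLTEquiv K (ν j)).finrank_eq]

/-- elements of degree `< n` -/
def E (n : ℕ) : Submodule K B := M.G fun j => n - j

/-- reduced elements -/
def Red (n : ℕ) : Submodule K B := M.G fun _ => n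

instance (n : ℕ) : FiniteDimensional K (M.E n) := inferInstanceAs (FiniteDimensional K (M.G _))

instance (n : ℕ) : FiniteDimensional K (M.Red n) := inferInstanceAs (FiniteDimensional K (M.G _))

theorem finrank_Red (n : ℕ) : finrank K (M.Red n) = n * M.d := by
  rw [Red, finrank_G]; simp [mul_comm]

theorem sum_sub (d n : ℕ) (h : d ≤ n + 1) :
    2 * ∑ j : Fin d, (n - j) + d * d = 2 * (n * d) + d := by
  rw [Fin.sum_univ_eq_sum_range (fun j => n - j)]
  induction d with
  | zero => simp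
  | succ d ih =>
    rw [Finset.sum_range_succ]
    have := ih (by omega)
    obtain ⟨k, rfl⟩ : ∃ k, n = d + k := ⟨n - d, by omega⟩
    rw [Nat.add_sub_cancel_left]
    nlinarith

theorem finrank_E {n : ℕ} (h : M.d ≤ n + 1) :
    2 * finrank K (M.E n) + M.d * M.d = 2 * (n * M.d) + M.d := by
  rw [E, finrank_G]; exact sum_sub _ _ h

theorem mem_E {n : ℕ} {b : B} :
    b ∈ M.E n ↔ ∀ j : Fin M.d, M.bs.repr b j ∈ degreeLT K (n - j) := Iff.rfl

theorem mem_Red {n : ℕ} {b : B} :
    b ∈ M.Red n ↔ ∀ j : Fin M.d, M.bs.repr b j ∈ degreeLT K n := Iff.rfl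

theorem E_mono {a b : ℕ} (h : a ≤ b) : M.E a ≤ M.E b := fun _ hz => M.mem_E.2 fun j =>
  degreeLT_mono (by omega) (M.mem_E.1 hz j)

theorem eq_zero_of_mem_E_zero {b : B} (h : b ∈ M.E 0) : b = 0 := by
  apply M.bs.repr.injective
  ext1 j
  simpa using mem_dlt.1 (h j)

theorem smul_mem_E {a : K[X]} {k n : ℕ} {z : B} (ha : a ∈ degreeLT K k) (hz : z ∈ M.E (n + 1)) :
    a • z ∈ M.E (n + k) := M.mem_E.2 fun j => by
  rw [map_smul, Finsupp.smul_apply, smul_eq_mul, mem_dlt]
  rcases mem_dlt.1 ha with h | h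
  · simp [h]
  rcases mem_dlt.1 (M.mem_E.1 hz j) with h' | h'
  · simp [h']
  have := natDegree_mul_le (p := a) (q := M.bs.repr z j)
  right; omega

theorem bs_mem_E (j : Fin M.d) : M.bs j ∈ M.E (j + 1) := M.mem_E.2 fun i => by
  rw [Basis.repr_self, Finsupp.single_apply, mem_dlt]
  split_ifs with h
  · subst h; simp
  · simp

theorem y_pow_mem_E' {j : ℕ} (h : j ≤ M.d) : M.y ^ j ∈ M.E (j + 1) := by
  rcases h.lt_or_eq with h | rfl
  · have := M.bs_mem_E ⟨j, h⟩
    rwa [M.hbs] at this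
  · exact M.hy

omit [Algebra K B] [IsScalarTower K K[X] B] in
theorem expand (b : B) : b = ∑ j, M.bs.repr b j • M.y ^ (j : ℕ) := by
  conv_lhs => rw [← M.bs.sum_repr b]
  simp only [M.hbs]

theorem y_mul_mem_E {n : ℕ} {b : B} (hb : b ∈ M.E n) : M.y * b ∈ M.E (n + 1) := by
  rw [M.expand b, Finset.mul_sum]
  refine sum_mem fun j _ => ?_
  rw [mul_smul_comm, ← pow_succ']
  rcases mem_dlt.1 (M.mem_E.1 hb j) with h | h
  · simp [h]
  · exact M.E_mono (by omega) (M.smul_mem_E (M.mem_E.1 hb j) (M.y_pow_mem_E' j.2))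

theorem y_pow_mul_mem_E {n : ℕ} {b : B} (hb : b ∈ M.E n) (k : ℕ) :
    M.y ^ k * b ∈ M.E (n + k) := by
  induction k with
  | zero => simpa using hb
  | succ k ih => rw [pow_succ', mul_assoc]; exact M.y_mul_mem_E ih

theorem mul_mem_E {a b : ℕ} {u z : B} (hu : u ∈ M.E a) (hz : z ∈ M.E (b + 1)) :
    u * z ∈ M.E (a + b) := by
  rw [M.expand u, Finset.sum_mul]
  refine sum_mem fun j _ => ?_
  rw [smul_mul_assoc]
  rcases mem_dlt.1 (M.mem_E.1 hu j) with h | h
  · simp [h]
  · have := M.y_pow_mul_mem_E hz j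
    rw [Nat.add_right_comm] at this
    exact M.E_mono (by omega) (M.smul_mem_E (M.mem_E.1 hu j) this)

theorem one_mem_E : (1 : B) ∈ M.E 1 := by
  simpa using M.y_pow_mem_E' (Nat.zero_le _)

theorem y_pow_mem_E (k : ℕ) : M.y ^ k ∈ M.E (k + 1) := by
  simpa [add_comm] using M.y_pow_mul_mem_E M.one_mem_E k

theorem alg_mem_E {a : K[X]} {k : ℕ} (ha : a.natDegree ≤ k) :
    algebraMap K[X] B a ∈ M.E (k + 1) := by
  have := M.smul_mem_E (a := a) (k := k + 1) (mem_dlt.2 (.inr (by omega))) M.one_mem_E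
  rwa [Algebra.smul_def, mul_one, zero_add] at this

theorem strict {r : K[X]} (hr : r ≠ 0) {n : ℕ} {z : B}
    (h : algebraMap K[X] B r * z ∈ M.E (n + r.natDegree)) : z ∈ M.E n := M.mem_E.2 fun j => by
  have := M.mem_E.1 h j
  rw [← Algebra.smul_def, map_smul, Finsupp.smul_apply, smul_eq_mul, mem_dlt] at this
  rw [mem_dlt]
  by_cases h0 : M.bs.repr z j = 0
  · exact .inl h0
  rw [natDegree_mul hr h0] at this
  rcases this with h | h
  · exact absurd h (mul_ne_zero hr h0)
  · right; omega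

omit [Algebra K B] [IsScalarTower K K[X] B] in
include M in
theorem alg_ne_zero {r : K[X]} (hr : r ≠ 0) : algebraMap K[X] B r ≠ 0 := fun h => by
  have : M.bs.repr (r • M.bs ⟨0, M.hd⟩) ⟨0, M.hd⟩ = 0 := by
    rw [Algebra.smul_def, h]; simp
  simp [hr] at this

theorem exists_red {q : K[X]} (hq : q.Monic) (b : B) :
    ∃ b' ∈ M.Red q.natDegree, algebraMap K[X] B q ∣ b - b' := by
  refine ⟨M.bs.equivFun.symm fun j => M.bs.repr b j %ₘ q, fun j => ?_,
    M.bs.equivFun.symm fun j => M.bs.repr b j /ₘ q, ?_⟩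
  · rw [← Basis.equivFun_apply, LinearEquiv.apply_symm_apply, Polynomial.mem_degreeLT,
      ← degree_eq_natDegree hq.ne_zero]
    exact degree_modByMonic_lt _ hq
  · apply M.bs.equivFun.injective
    rw [← Algebra.smul_def, map_sub, map_smul, LinearEquiv.apply_symm_apply,
      LinearEquiv.apply_symm_apply]
    funext j
    simp only [Pi.sub_apply, Basis.equivFun_apply, Pi.smul_apply, smul_eq_mul]
    rw [sub_eq_iff_eq_add', modByMonic_add_div]

theorem red_eq_zero {q : K[X]} (hq : q ≠ 0) {b : B} (hb : b ∈ M.Red q.natDegree)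
    (h : algebraMap K[X] B q ∣ b) : b = 0 := by
  obtain ⟨c, rfl⟩ := h
  apply M.bs.repr.injective
  ext1 j
  have := M.mem_Red.1 hb j
  rw [← Algebra.smul_def, map_smul, Finsupp.smul_apply, smul_eq_mul] at this ⊢
  by_cases h0 : M.bs.repr c j = 0
  · simp [h0]
  rw [mem_dlt, natDegree_mul hq h0] at this
  rcases this with h | h
  · simp [h]
  · omega

end Model

end Pool.Agent.P.MP_d3e5c7_ag.PA
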