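import Pool.Agent.P.MP_d3e5c7_ag.AGen

/-! Finiteness of reduced classes; very general points. -/

namespace Pool.Agent.P.MP_d3e5c7_ag.PA

open MvPolynomial

theorem nine {d a b c m3 m4 m5 m6 m7 m8 S1 S2 n k : ℤ} (h1 : b ≤ a) (h2 : c ≤ b) (h3 : m3 ≤ c)
    (h4 : m4 ≤ m3) (h5 : m5 ≤ m4) (h6 : m6 ≤ m5) (h7 : m7 ≤ m6) (h8 : m8 ≤ m7) (h9 : 0 ≤ m8)
    (hd : a + b + c ≤ d) (hk : 0 ≤ k) (hn : 0 < n) (hS : 0 ≤ S1) (hS0 : 0 ≤ S2)
    (hS1 : S2 ≤ m8 * S1) (hS2 : S2 ≤ S1 ^ 2)
    (e1 : a + b + c + m3 + m4 + m5 + m6 + m7 + m8 + S1 ≤ 3 * d + k)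
    (e2 : d ^ 2 = n + (a ^ 2 + b ^ 2 + c ^ 2 + m3 ^ 2 + m4 ^ 2 + m5 ^ 2 + m6 ^ 2 + m7 ^ 2 + m8 ^ 2
      + S2)) {M : ℤ} (hM : n + (n + 2 * k) ^ 2 ≤ M) : d ≤ 3 * (M + M ^ 2) := by
  obtain ⟨t, rfl⟩ : ∃ t, d = a + b + c + t := ⟨d - (a + b + c), by ring⟩
  have ht : 0 ≤ t := by linarith
  obtain ⟨κ, hκ⟩ : ∃ κ, κ = 3 * (a + b + c + t) - (a + b + c + m3 + m4 + m5 + m6 + m7 + m8) :=
    ⟨_, rfl⟩
  have hκ0 : 0 ≤ κ := by linarith
  have hc : 0 ≤ c := by linarith
  have hnM : n ≤ M := by linarith [sq_nonneg (n + 2 * k)]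
  have id : n + S2 = c * κ + 2 * (a * b - c ^ 2) + t * (2 * a + 2 * b - c + t) + (m3 * (c - m3) +
      m4 * (c - m4) + m5 * (c - m5) + m6 * (c - m6) + m7 * (c - m7) + m8 * (c - m8)) := by
    rw [hκ]; linear_combination -e2
  have p3 := mul_le_mul_of_nonneg_right (show m8 ≤ m3 by linarith) (show 0 ≤ c - m3 by linarith)
  have p4 := mul_le_mul_of_nonneg_right (show m8 ≤ m4 by linarith) (show 0 ≤ c - m4 by linarith)
  have p5 := mul_le_mul_of_nonneg_right (show m8 ≤ m5 by linarith) (show 0 ≤ c - m5 by linarith)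
  have p6 := mul_le_mul_of_nonneg_right (show m8 ≤ m6 by linarith) (show 0 ≤ c - m6 by linarith)
  have p7 := mul_le_mul_of_nonneg_right h8 (show 0 ≤ c - m7 by linarith)
  have q1 : m8 * (a + b - 2 * c) ≤ a * b - c ^ 2 := by
    linarith [mul_nonneg (sub_nonneg.2 (h2.trans h1)) (sub_nonneg.2 h2),
      mul_nonneg (show 0 ≤ c - m8 by linarith) (show 0 ≤ a + b - 2 * c by linarith)]
  have q2 : t * (3 * m8) ≤ t * (2 * a + 2 * b - c + t) :=
    mul_le_mul_of_nonneg_left (by linarith) ht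
  have q3 : (c + m8) * κ ≤ n + S2 := by
    have : m8 * κ = m8 * (c - m3) + m8 * (c - m4) + m8 * (c - m5) + m8 * (c - m6) +
        m8 * (c - m7) + m8 * (c - m8) + 2 * (m8 * (a + b - 2 * c)) + t * (3 * m8) := by
      rw [hκ]; ring
    linarith
  have q4 : m8 * S1 ≤ m8 * (κ + k) := mul_le_mul_of_nonneg_left (by linarith) h9
  have q5 : m8 * k ≤ c * k := mul_le_mul_of_nonneg_right (by linarith) hk
  have hM0 : 0 < M := by linarith
  have r0 : 0 ≤ m8 * (c - m8) := mul_nonneg h9 (by linarith)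
  have r1 : 0 ≤ m8 * (c - m3) + m8 * (c - m4) + m8 * (c - m5) + m8 * (c - m6) + m8 * (c - m7) := by
    have : ∀ x, x ≤ c → 0 ≤ m8 * (c - x) := fun x hx => mul_nonneg h9 (by linarith)
    linarith [this m3 (by linarith), this m4 (by linarith), this m5 (by linarith),
      this m6 (by linarith), this m7 (by linarith)]
  have r2 : 0 ≤ m8 * (a + b - 2 * c) := mul_nonneg h9 (by linarith)
  have r3 : 0 ≤ c * κ := mul_nonneg hc hκ0
  have r4 : 0 ≤ t * (2 * a + 2 * b - c + t) := mul_nonneg ht (by linarith)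
  have hS2M : n + S2 ≤ M ∧ c ≤ M := by
    rcases hc.eq_or_lt with rfl | hc1
    · obtain rfl : m8 = 0 := by linarith
      constructor <;> linarith
    · have s1 : κ ≤ n + k := by
        by_contra hcon
        have := mul_le_mul_of_nonneg_right (show 1 ≤ c from hc1) (show 0 ≤ κ - k by linarith)
        linarith
      have s2 : S1 ^ 2 ≤ (n + 2 * k) ^ 2 := pow_le_pow_left₀ hS (by linarith) 2
      refine ⟨by linarith, ?_⟩
      rcases hκ0.eq_or_lt with rfl | hκ1
      · obtain rfl : a = c := by linarith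
        obtain rfl : b = a := by linarith
        obtain rfl : t = 0 := by linarith
        obtain rfl : m3 = b := by linarith
        obtain rfl : m4 = m3 := by linarith
        obtain rfl : m5 = m4 := by linarith
        obtain rfl : m6 = m5 := by linarith
        obtain rfl : m7 = m6 := by linarith
        obtain rfl : m8 = m7 := by linarith
        linarith
      · have := mul_le_mul_of_nonneg_left (show 1 ≤ κ from hκ1) hc
        have := mul_nonneg h9 hκ0
        linarith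
  rcases ht.eq_or_lt with rfl | ht1
  · have s3 : 2 * (a * b) ≤ M + 2 * c ^ 2 := by linarith
    have s4 : c ^ 2 ≤ M ^ 2 := pow_le_pow_left₀ hc hS2M.2 2
    rcases (hc.trans h2).eq_or_lt with rfl | hb
    · obtain rfl : c = 0 := by linarith
      obtain rfl : m8 = 0 := by linarith
      obtain rfl : m3 = 0 := by linarith
      obtain rfl : m4 = 0 := by linarith
      obtain rfl : m5 = 0 := by linarith
      obtain rfl : m6 = 0 := by linarith
      obtain rfl : m7 = 0 := by linarith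
      linarith
    · have := mul_le_mul_of_nonneg_left (show 1 ≤ b from hb) (show 0 ≤ a by linarith)
      linarith
  · have := mul_le_mul_of_nonneg_right (show 1 ≤ t from ht1)
      (show 0 ≤ 2 * a + 2 * b - c + t by linarith)
    have := sq_nonneg M
    linarith

theorem reduced_bound {s : ℕ} (m : Fin s → ℕ) (d : ℕ)
    (hred : ∀ J : Finset (Fin s), J.card ≤ 3 → ∑ j ∈ J, m j ≤ d) {n k M : ℤ} (hk : 0 ≤ k)
    (hn : 0 < n) (e1 : ∑ j, (m j : ℤ) ≤ 3 * d + k) (e2 : (d : ℤ) ^ 2 = n + ∑ j, (m j : ℤ) ^ 2)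
    (hM : n + (n + 2 * k) ^ 2 ≤ M) : (d : ℤ) ≤ 3 * (M + M ^ 2) := by
  classical
  let σ : Fin s ≃ Fin s := Fin.revPerm.trans (Tuple.sort m)
  let u : ℕ → ℕ := fun j => if h : j < s then m (σ ⟨j, h⟩) else 0
  have hu : Antitone u := fun i j hij => by
    simp only [u]
    split_ifs with h1 h2 h2
    · exact Tuple.monotone_sort m (Fin.rev_le_rev.2 hij)
    · omega
    · omega
    · rfl
  have hs : ∀ F : ℕ → ℤ, F 0 = 0 → ∑ j, F (m j) = ∑ j ∈ Finset.range (9 + s), F (u j) := by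
    intro F hF
    rw [← σ.sum_comp, add_comm, Finset.sum_range_add, ← Fin.sum_univ_eq_sum_range (fun j => F (u j)),
      Finset.sum_eq_zero (s := Finset.range 9) fun j _ => by simp [u, hF], add_zero]
    exact Finset.sum_congr rfl fun j _ => by simp [u]
  have h3 : u 0 + u 1 + u 2 ≤ d := by
    have h := hred ((Finset.univ.filter fun j : Fin s => (j : ℕ) < 3).map σ.toEmbedding) (by
      rw [Finset.card_map]
      exact (Finset.card_le_card_of_injOn (t := Finset.range 3) (fun j : Fin s => (j : ℕ))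
        (fun j hj => by simpa using hj) fun _ _ _ _ h => Fin.ext h).trans (by simp))
    rw [Finset.sum_map, Finset.sum_filter] at h
    have e : ∑ j : Fin s, (if (j : ℕ) < 3 then m (σ.toEmbedding j) else 0) =
        ∑ j ∈ Finset.range (3 + s), if j < 3 then u j else 0 := by
      rw [add_comm, Finset.sum_range_add,
        ← Fin.sum_univ_eq_sum_range (fun j => if j < 3 then u j else 0),
        Finset.sum_eq_zero (s := Finset.range 3) fun j _ => by simp [u], add_zero]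
      exact Finset.sum_congr rfl fun j _ => by simp [u]
    rw [e, Finset.sum_range_add, Finset.sum_eq_zero (s := Finset.range s) fun j _ => by simp] at h
    simpa [Finset.sum_range_succ] using h
  rw [hs (fun x => x) rfl, Finset.sum_range_add] at e1
  rw [hs (fun x => (x : ℤ) ^ 2) rfl, Finset.sum_range_add] at e2
  simp only [Finset.sum_range_succ, Finset.sum_range_zero, zero_add] at e1 e2
  have hu' : ∀ i j, i ≤ j → (u j : ℤ) ≤ u i := fun i j h => by exact_mod_cast hu h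
  refine nine (hu' 0 1 (by omega)) (hu' 1 2 (by omega)) (hu' 2 3 (by omega)) (hu' 3 4 (by omega))
    (hu' 4 5 (by omega)) (hu' 5 6 (by omega)) (hu' 6 7 (by omega)) (hu' 7 8 (by omega))
    (by positivity) (by exact_mod_cast h3) hk hn (by positivity) (by positivity) ?_
    (Finset.sum_sq_le_sq_sum_of_nonneg fun _ _ => by positivity) e1 e2 hM
  rw [Finset.mul_sum]
  exact Finset.sum_le_sum fun j _ => by
    rw [sq]; exact mul_le_mul_of_nonneg_right (hu' 8 _ (by omega)) (by positivity)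

theorem very_general (σ : Type) [Fintype σ] : ∃ Z : ℕ → MvPolynomial σ ℂ, (∀ n, Z n ≠ 0) ∧
    ∀ x : σ → ℂ, (∀ n, eval x (Z n) ≠ 0) → AlgebraicIndependent ℚ x := by
  classical
  have : Countable (MvPolynomial σ ℚ) :=
    (AddMonoidAlgebra.coeffEquiv (R := ℚ) (M := σ →₀ ℕ)).injective.countable
  obtain ⟨q, hq⟩ := exists_surjective_nat (MvPolynomial σ ℚ)
  refine ⟨fun n => if q n = 0 then 1 else map (algebraMap ℚ ℂ) (q n), fun n => ?_,
    fun x hx => algebraicIndependent_iff.2 fun P hP => ?_⟩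
  · dsimp only
    split_ifs with h
    · exact one_ne_zero
    · exact (map_ne_zero_iff _ (map_injective _ (algebraMap ℚ ℂ).injective)).2 h
  · obtain ⟨n, rfl⟩ := hq P
    by_contra h
    have := hx n
    dsimp only at this
    rw [if_neg h, eval_map, ← aeval_def] at this
    exact this hP

theorem A_general {L : Type*} [Field L] [IsAlgClosed L] [CharZero L] {s : ℕ}
    (p : Fin s → Fin 2 → L)
    (hp : AlgebraicIndependent ℚ (fun ij : Fin s × Fin 2 => p ij.1 ij.2))
    (f : MvPolynomial (Fin 2) L) (hf : Irreducible f) (d : ℕ) (hd : f.totalDegree = d)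
    (m : Fin s → ℕ)
    (hm : ∀ i, (∀ j < m i, homogeneousComponent j
        (aeval (fun k : Fin 2 => X k + C (p i k)) f) = 0) ∧
      homogeneousComponent (m i) (aeval (fun k : Fin 2 => X k + C (p i k)) f) ≠ 0)
    (a g2 : ℤ) (ha : a = ∑ i, (m i : ℤ) ^ 2 - (d : ℤ) ^ 2) (ha0 : 0 < a)
    (hg : g2 = ((d : ℤ) - 1) * (d - 2) - ∑ i, (m i : ℤ) * (m i - 1)) (i : Fin s) (hi : 2 ≤ m i) :
    0 ≤ g2 ∧ a < m i ∧ g2 + (12 * m i - 6) * a ≤ 6 * m i ^ 3 - 3 * m i ^ 2 + 3 * m i + 2 := by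
  let N : Neg L (Fin s) := ⟨p, f, d, m, i, a, g2, fun j k h => congrArg Prod.fst
    (hp.injective (a₁ := (j, 0)) (a₂ := (k, 0)) (congrFun h 0)), hf, hd,
    fun j => (mem_mx_iff _ _ _).2 (hm j).1, fun j => (hm j).2, ha, ha0, hg⟩
  choose D hD using fun v : Fin 2 → L => exists_der hp fun t => if t.1 = i then -v t.2 else 0
  have h1 : ∀ v k, D v (N.p N.o k) = -v k := fun v k => by simpa using hD v (i, k)
  have h2 : ∀ v j, j ≠ N.o → ∀ k, D v (N.p j k) = 0 := fun v j hj k => by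
    simpa [show j ≠ i from hj] using hD v (j, k)
  obtain ⟨n, e⟩ : ∃ n, m i = n + 2 := ⟨m i - 2, by omega⟩
  have h3 : a ≤ n + 1 ∧ g2 + (12 * (n + 2) - 6) * a ≤
    6 * (n + 2) ^ 3 - 3 * (n + 2) ^ 2 + 3 * (n + 2) + 2 := Neg.genus_bound h1 h2 e
  rw [e]
  push_cast
  exact ⟨N.g2_nonneg, by omega, h3.2⟩

end Pool.Agent.P.MP_d3e5c7_ag.PA
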