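import Pool.Agent.P.MP_d3e5c7_ag.ADer

/-! Binary forms of degree three and four. -/

namespace Pool.Agent.P.MP_d3e5c7_ag.PA

open MvPolynomial

variable {K : Type*} [Field K]

@[simp] theorem der_ofNat (D : Derivation K (Pl K) (Pl K)) (n : ℕ) [n.AtLeastTwo] :
    D (no_index (OfNat.ofNat n)) = 0 := D.map_natCast n

theorem hom_eq {H : Pl K} {n : ℕ} (h : H.IsHomogeneous n) :
    ∃ c : ℕ → K, H = ∑ k ∈ Finset.range (n + 1), C (c k) * X 0 ^ (n - k) * X 1 ^ k := by
  rw [H.as_sum]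
  refine Finset.sum_induction _ (fun G : Pl K => ∃ c : ℕ → K,
    G = ∑ k ∈ Finset.range (n + 1), C (c k) * X 0 ^ (n - k) * X 1 ^ k) ?_ ⟨0, by simp⟩ ?_
  · rintro _ _ ⟨a, rfl⟩ ⟨b, rfl⟩
    exact ⟨a + b, by simp [add_mul, Finset.sum_add_distrib]⟩
  · intro s hs
    have e : s 0 + s 1 = n := by
      rw [← Fin.sum_univ_two, ← Finsupp.degree_eq_sum]
      by_contra hc
      exact MvPolynomial.mem_support_iff.1 hs (h.coeff_eq_zero hc)
    refine ⟨Pi.single (s 1) (coeff s H), ?_⟩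
    rw [Finset.sum_eq_single (s 1) (fun k _ hk => by simp [hk]) (by simp; omega), monomial_eq,
      Finsupp.prod_fintype _ _ (by simp), Fin.prod_univ_two, ← e]
    simp [mul_assoc]

theorem hom1 {H : Pl K} (h : H.IsHomogeneous 1) : ∃ a b : K, H = C a * X 0 + C b * X 1 := by
  obtain ⟨c, rfl⟩ := hom_eq h
  exact ⟨c 0, c 1, by simp [Finset.sum_range_succ]⟩

theorem hom2 {H : Pl K} (h : H.IsHomogeneous 2) :
    ∃ a b c : K, H = C a * X 0 ^ 2 + C b * X 0 * X 1 + C c * X 1 ^ 2 := by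
  obtain ⟨c, rfl⟩ := hom_eq h
  exact ⟨c 0, c 1, c 2, by simp [Finset.sum_range_succ]⟩

theorem hom3 {H : Pl K} (h : H.IsHomogeneous 3) : ∃ a b c d : K,
    H = C a * X 0 ^ 3 + C b * X 0 ^ 2 * X 1 + C c * X 0 * X 1 ^ 2 + C d * X 1 ^ 3 := by
  obtain ⟨c, rfl⟩ := hom_eq h
  exact ⟨c 0, c 1, c 2, c 3, by simp [Finset.sum_range_succ]⟩

theorem hom4 {H : Pl K} (h : H.IsHomogeneous 4) : ∃ a b c d e : K,
    H = C a * X 0 ^ 4 + C b * X 0 ^ 3 * X 1 + C c * X 0 ^ 2 * X 1 ^ 2 + C d * X 0 * X 1 ^ 3 +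
      C e * X 1 ^ 4 := by
  obtain ⟨c, rfl⟩ := hom_eq h
  exact ⟨c 0, c 1, c 2, c 3, c 4, by simp [Finset.sum_range_succ]⟩

theorem van6 [CharZero K] {a b c d e f g : K}
    (h : ∀ t : K, a + b * t + c * t ^ 2 + d * t ^ 3 + e * t ^ 4 + f * t ^ 5 + g * t ^ 6 = 0) :
    a = 0 ∧ b = 0 ∧ c = 0 ∧ d = 0 ∧ e = 0 ∧ f = 0 ∧ g = 0 := by
  have : Polynomial.monomial 0 a + Polynomial.monomial 1 b + Polynomial.monomial 2 c +
      Polynomial.monomial 3 d + Polynomial.monomial 4 e + Polynomial.monomial 5 f +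
      Polynomial.monomial 6 g = 0 := Polynomial.funext fun t => by simpa using h t
  have H := fun k => congrArg (Polynomial.coeff · k) this
  exact ⟨by simpa [Polynomial.coeff_monomial] using H 0,
    by simpa [Polynomial.coeff_monomial] using H 1, by simpa [Polynomial.coeff_monomial] using H 2,
    by simpa [Polynomial.coeff_monomial] using H 3, by simpa [Polynomial.coeff_monomial] using H 4,
    by simpa [Polynomial.coeff_monomial] using H 5, by simpa [Polynomial.coeff_monomial] using H 6⟩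

/-- linear substitution -/
noncomputable def sb (u w : Fin 2 → K) : Pl K →ₐ[K] Pl K :=
  aeval fun k => C (u k) * X 0 + C (w k) * X 1

theorem sb_X (u w : Fin 2 → K) (k : Fin 2) : sb u w (X k) = C (u k) * X 0 + C (w k) * X 1 := by
  simp [sb]

theorem sb_C (u w : Fin 2 → K) (c : K) : sb u w (C c) = C c := by simp [sb]

theorem sb_dv_left (u w : Fin 2 → K) (h : Pl K) : sb u w (dv u h) = pderiv 0 (sb u w h) := by
  induction h using MvPolynomial.induction_on with
  | C c => simp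
  | add a b ha hb => simp [ha, hb]
  | mul_X a k ha => simp [ha, sb_X]

theorem sb_dv_right (u w : Fin 2 → K) (h : Pl K) : sb u w (dv w h) = pderiv 1 (sb u w h) := by
  induction h using MvPolynomial.induction_on with
  | C c => simp
  | add a b ha hb => simp [ha, hb]
  | mul_X a k ha => simp [ha, sb_X]

theorem sb_hom (u w : Fin 2 → K) {h : Pl K} {n : ℕ} (H : h.IsHomogeneous n) :
    (sb u w h).IsHomogeneous n := by
  simpa [sb] using H.aeval (fun k => C (u k) * X 0 + C (w k) * X 1)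
    fun k => (isHomogeneous_C_mul_X _ _).add (isHomogeneous_C_mul_X _ _)

theorem sb_inv {u w : Fin 2 → K} (h : u 0 * w 1 - u 1 * w 0 ≠ 0) :
    ∃ u' w' : Fin 2 → K, ∀ H, sb u' w' (sb u w H) = H := by
  set Δ := u 0 * w 1 - u 1 * w 0 with hΔ
  refine ⟨![w 1 / Δ, -u 1 / Δ], ![-w 0 / Δ, u 0 / Δ], fun H => ?_⟩
  have : (sb ![w 1 / Δ, -u 1 / Δ] ![-w 0 / Δ, u 0 / Δ]).comp (sb u w) = AlgHom.id K _ := by
    have e : (C (u 0) * C (w 1) - C (u 1) * C (w 0)) * C Δ⁻¹ = (1 : Pl K) := by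
      rw [← map_mul, ← map_mul, ← map_sub, ← map_mul, mul_inv_cancel₀ h, map_one]
    ext1 k
    fin_cases k
    · simp [sb_X, div_eq_mul_inv]; linear_combination X 0 * e
    · simp [sb_X, div_eq_mul_inv]; linear_combination X 1 * e
  exact DFunLike.congr_fun this H

theorem dv_e0 (h : Pl K) : dv ![1, 0] h = pderiv 0 h := by simp [dv_apply]

theorem dv_e1 (h : Pl K) : dv ![0, 1] h = pderiv 1 h := by simp [dv_apply]

theorem indep_first {T : Pl K} (h : ∀ v, v ≠ 0 → dv v T ≠ 0) (α : Fin 2 → K)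
    (H : ∑ j, α j • ![dv ![1, 0] T, dv ![0, 1] T] j = 0) (j : Fin 2) : α j = 0 := by
  refine congrFun (by_contra fun hc => h α hc ?_ : α = 0) j
  simpa [dv_e0, dv_e1, dv_apply] using H

theorem two_eq {a b c d : K} {α : Fin 2 → K} (h : a * d - b * c ≠ 0) (h1 : α 0 * a + α 1 * c = 0)
    (h2 : α 0 * b + α 1 * d = 0) (j : Fin 2) : α j = 0 := by
  fin_cases j
  · exact (mul_eq_zero.1 (by linear_combination d * h1 - c * h2 :
      α 0 * (a * d - b * c) = 0)).resolve_right h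
  · exact (mul_eq_zero.1 (by linear_combination a * h2 - b * h1 :
      α 1 * (a * d - b * c) = 0)).resolve_right h

theorem cubic [CharZero K] {T : Pl K} (hT : T.IsHomogeneous 3) (h : ∀ v, v ≠ 0 → dv v T ≠ 0) :
    ∃ u v u' v', ∀ α : Fin 2 → K, ∑ j, α j • ![dv u (dv v T), dv u' (dv v' T)] j = 0 →
      ∀ j, α j = 0 := by
  obtain ⟨a, b, c, d, rfl⟩ := hom3 hT
  by_cases h1 : 3 * a * c - b * b = 0
  swap
  · refine ⟨![1, 0], ![1, 0], ![1, 0], ![0, 1], fun α H => ?_⟩
    have e1 := congrArg (eval ![1, 0]) H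
    have e2 := congrArg (eval ![0, 1]) H
    simp [dv_e0, dv_e1] at e1 e2
    exact two_eq h1 (by linear_combination (1 / 2) * e1) (by linear_combination (1 / 2) * e2)
  by_cases h2 : 3 * a * (3 * d) - b * c = 0
  swap
  · refine ⟨![1, 0], ![1, 0], ![0, 1], ![0, 1], fun α H => ?_⟩
    have e1 := congrArg (eval ![1, 0]) H
    have e2 := congrArg (eval ![0, 1]) H
    simp [dv_e0, dv_e1] at e1 e2
    exact two_eq h2 (by linear_combination (1 / 2) * e1) (by linear_combination (1 / 2) * e2)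
  by_cases h3 : b * (3 * d) - c * c = 0
  swap
  · refine ⟨![1, 0], ![0, 1], ![0, 1], ![0, 1], fun α H => ?_⟩
    have e1 := congrArg (eval ![1, 0]) H
    have e2 := congrArg (eval ![0, 1]) H
    simp [dv_e0, dv_e1] at e1 e2
    exact two_eq h3 (by linear_combination (1 / 2) * e1) (by linear_combination (1 / 2) * e2)
  exfalso
  by_cases h4 : (![-b, 3 * a] : Fin 2 → K) = 0
  · have hb : b = 0 := by simpa using congrFun h4 0
    have ha : a = 0 := by simpa using congrFun h4 1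
    have hc : c = 0 := by simpa [hb] using h3
    exact h ![1, 0] (by simp) (by simp [ha, hb, hc])
  · refine h _ h4 (MvPolynomial.funext fun z => ?_)
    simp
    linear_combination 2 * z 0 * z 1 * h1 + z 1 ^ 2 * h2

theorem exists_factor [IsAlgClosed K] {α : Fin 3 → K} (h : α ≠ 0) : ∃ u w : Fin 2 → K,
    u ≠ 0 ∧ w ≠ 0 ∧ u 0 * w 0 = α 0 ∧ u 0 * w 1 + u 1 * w 0 = α 1 ∧ u 1 * w 1 = α 2 := by
  by_cases h0 : α 0 = 0
  · refine ⟨![0, 1], ![α 1, α 2], by simp, fun e => h ?_, by simp [h0], by simp, by simp⟩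
    funext j
    fin_cases j
    exacts [h0, congrFun e 0, congrFun e 1]
  · obtain ⟨r, hr⟩ := IsAlgClosed.exists_root (Polynomial.C (α 0) * Polynomial.X ^ 2 +
      Polynomial.C (-α 1) * Polynomial.X + Polynomial.C (α 2))
      (by rw [Polynomial.degree_quadratic h0]; simp)
    refine ⟨![1, r], ![α 0, α 1 - α 0 * r], by simp, fun e => h0 (congrFun e 0), by simp,
      by simp [mul_comm], ?_⟩
    simp at hr ⊢
    linear_combination -hr

theorem quartic_b [CharZero K] {T : Pl K} (hT : T.IsHomogeneous 4) (h : ∀ v, v ≠ 0 → dv v T ≠ 0)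
    {u w : Fin 2 → K} (hu : u ≠ 0) (hw : w ≠ 0) (hd : u 0 * w 1 - u 1 * w 0 ≠ 0)
    (H : dv u (dv w T) = 0) :
    (∀ (α : Fin 4 → K) (g : Pl K), g.IsHomogeneous 1 → ∑ j, α j • ![dv u T * dv u (dv u T),
      dv u T * dv w (dv w T), dv w T * dv u (dv u T), dv w T * dv w (dv w T)] j = T * g →
      ∀ j, α j = 0) ∧
    ∀ (α : Fin 3 → K) (g : Pl K), g.IsHomogeneous 2 → ∑ j, α j • ![dv u T * dv u T,
      dv u T * dv w T, dv w T * dv w T] j = T * g → ∀ j, α j = 0 := by
  obtain ⟨u', w', hinv⟩ := sb_inv hd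
  obtain ⟨a, b, c, d, e, E⟩ := hom4 (sb_hom u w hT)
  have H1 := congrArg (sb u w) H
  rw [sb_dv_left, sb_dv_right, E, map_zero] at H1
  obtain ⟨hb, hc, hd', -⟩ := van6 (a := 3 * b) (b := 4 * c) (c := 3 * d) (d := 0) (e := 0) (f := 0)
    (g := 0) fun t => by
      have := congrArg (eval ![1, t]) H1
      simp at this
      linear_combination this
  simp only [mul_eq_zero, OfNat.ofNat_ne_zero, false_or] at hb hc hd'
  subst hb hc hd'
  have ha : a ≠ 0 := fun ha => h u hu (by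
    rw [← hinv (dv u T), sb_dv_left, E, ha]; simp)
  have he : e ≠ 0 := fun he => h w hw (by
    rw [← hinv (dv w T), sb_dv_right, E, he]; simp)
  refine ⟨fun α g hg G => ?_, fun α g hg G => ?_⟩
  · obtain ⟨g0, g1, Eg⟩ := hom1 (sb_hom u w hg)
    have G1 := congrArg (sb u w) G
    simp only [Fin.sum_univ_four, Matrix.cons_val, map_add, map_smul, map_mul, sb_dv_left,
      sb_dv_right, E, Eg] at G1
    obtain ⟨k0, k1, k2, k3, k4, k5, -⟩ := van6 (a := 48 * a * a * α 0 - a * g0) (b := -(a * g1))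
      (c := 48 * a * e * α 1) (d := 48 * a * e * α 2) (e := -(e * g0))
      (f := 48 * e * e * α 3 - e * g1) (g := 0) fun t => by
        have := congrArg (eval ![1, t]) G1
        simp at this
        linear_combination this
    simp only [neg_eq_zero, mul_eq_zero, ha, he, false_or, OfNat.ofNat_ne_zero] at k1 k2 k3 k4
    simp only [k1, k4, mul_zero, sub_zero, mul_eq_zero, ha, he, false_or,
      OfNat.ofNat_ne_zero] at k0 k5
    intro j
    fin_cases j
    exacts [k0, k2, k3, k5]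
  · obtain ⟨g0, g1, g2, Eg⟩ := hom2 (sb_hom u w hg)
    have G1 := congrArg (sb u w) G
    simp only [Fin.sum_univ_three, Matrix.cons_val, map_add, map_smul, map_mul, sb_dv_left,
      sb_dv_right, E, Eg] at G1
    obtain ⟨k0, k1, k2, k3, k4, -, k6⟩ := van6 (a := 16 * a * a * α 0 - a * g0) (b := -(a * g1))
      (c := -(a * g2)) (d := 16 * a * e * α 1) (e := -(e * g0)) (f := -(e * g1))
      (g := 16 * e * e * α 2 - e * g2) fun t => by
        have := congrArg (eval ![1, t]) G1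
        simp at this
        linear_combination this
    simp only [neg_eq_zero, mul_eq_zero, ha, he, false_or, OfNat.ofNat_ne_zero] at k1 k2 k3 k4
    simp only [k2, k4, mul_zero, sub_zero, mul_eq_zero, ha, he, false_or,
      OfNat.ofNat_ne_zero] at k0 k6
    intro j
    fin_cases j
    exacts [k0, k3, k6]

theorem quartic_c [CharZero K] {T : Pl K} (hT : T.IsHomogeneous 4) {u : Fin 2 → K} (hu : u ≠ 0)
    (H : dv u (dv u T) = 0) :
    ∃ l q : Pl K, l.IsHomogeneous 1 ∧ q.IsHomogeneous 1 ∧ T = l ^ 3 * q := by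
  obtain ⟨w, hd⟩ : ∃ w : Fin 2 → K, u 0 * w 1 - u 1 * w 0 ≠ 0 := by
    by_cases h0 : u 0 = 0
    · exact ⟨![1, 0], fun e => hu (by
        funext k; fin_cases k; exacts [h0, by simpa using e])⟩
    · exact ⟨![0, 1], by simpa using h0⟩
  obtain ⟨u', w', hinv⟩ := sb_inv hd
  obtain ⟨a, b, c, d, e, E⟩ := hom4 (sb_hom u w hT)
  have H1 := congrArg (sb u w) H
  rw [sb_dv_left, sb_dv_left, E, map_zero] at H1
  obtain ⟨ha, hb, hc, -⟩ := van6 (a := 12 * a) (b := 6 * b) (c := 2 * c) (d := 0) (e := 0) (f := 0)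
    (g := 0) fun t => by
      have := congrArg (eval ![1, t]) H1
      simp at this
      linear_combination this
  simp only [mul_eq_zero, OfNat.ofNat_ne_zero, false_or] at ha hb hc
  subst ha hb hc
  refine ⟨sb u' w' (X 1), sb u' w' (C d * X 0 + C e * X 1), sb_hom _ _ (isHomogeneous_X _ _),
    sb_hom _ _ ((isHomogeneous_C_mul_X _ _).add (isHomogeneous_C_mul_X _ _)), ?_⟩
  rw [← hinv T, E, ← map_pow, ← map_mul]
  congr 1
  simp only [map_zero]
  ring

theorem quartic [CharZero K] [IsAlgClosed K] {T : Pl K} (α : Fin 3 → K) (hα : α ≠ 0)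
    (H : ∑ j, α j • ![dv ![1, 0] (dv ![1, 0] T), dv ![1, 0] (dv ![0, 1] T),
      dv ![0, 1] (dv ![0, 1] T)] j = 0) :
    (∃ u w : Fin 2 → K, u ≠ 0 ∧ w ≠ 0 ∧ u 0 * w 1 - u 1 * w 0 ≠ 0 ∧ dv u (dv w T) = 0) ∨
      ∃ u : Fin 2 → K, u ≠ 0 ∧ dv u (dv u T) = 0 := by
  obtain ⟨u, w, hu, hw, h0, h1, h2⟩ := exists_factor hα
  have H' : dv u (dv w T) = 0 := by
    simp only [Fin.sum_univ_three, Matrix.cons_val, dv_e0, dv_e1, ← h0, ← h1, ← h2] at H
    rw [← H]
    simp only [dv_apply, map_add, Derivation.map_smul, pderiv_comm 1 0]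
    module
  by_cases hd : u 0 * w 1 - u 1 * w 0 = 0
  · right
    obtain ⟨c, rfl⟩ : ∃ c : K, w = c • u := by
      by_cases h0 : u 0 = 0
      · have h1 : u 1 ≠ 0 := fun e => hu (by funext k; fin_cases k; exacts [h0, e])
        refine ⟨w 1 / u 1, funext (Fin.forall_fin_two.2 ⟨?_, by simp [h1]⟩)⟩
        simpa [h0, h1] using hd
      · refine ⟨w 0 / u 0, funext (Fin.forall_fin_two.2 ⟨by simp [h0], ?_⟩)⟩
        simp only [Pi.smul_apply, smul_eq_mul]
        field_simp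
        linear_combination hd
    refine ⟨u, hu, ?_⟩
    have e : dv (c • u) T = c • dv u T := by simp [dv_apply, mul_smul]
    rw [e, Derivation.map_smul] at H'
    exact (smul_eq_zero.1 H').resolve_left fun hc => hw (by simp [hc])
  · exact .inl ⟨u, w, hu, hw, hd, H'⟩

end Pool.Agent.P.MP_d3e5c7_ag.PA
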