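import Pool.Agent.P.MP_d3e5c7_ag.AMain

/-! A genus bound in terms of one multiplicity. -/

namespace Pool.Agent.P.MP_d3e5c7_ag.PA

open Module Submodule

section Bez

open Polynomial

theorem Model.ci_span_le {K B : Type*} [Field K] [CommRing B] [Algebra K B] [Algebra K[X] B]
    [IsScalarTower K K[X] B] [IsDomain B] (M : Model K B) {g : B} (hg : g ≠ 0) {e : ℕ}
    (he : g ∈ M.E (e + 1)) : ci K (Ideal.span {g}) ≤ e * M.d := by
  obtain ⟨q, hq, -, hq'⟩ := M.exists_monic (I := Ideal.span {g}) (by simpa using hg) 0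
  have h1 := finrank_inf_add_cd (M.cof_of_mem hq hq') (S := M.E (q.natDegree + M.d + e))
  rw [eq_top_iff.2 ((M.sup_red hq hq').ge.trans (sup_le_sup_left (fun b hb => M.mem_E.2 fun j =>
    degreeLT_mono (by have := j.2; omega) (M.mem_Red.1 hb j)) _)), cd_top] at h1
  have h2 : finrank K (M.E (q.natDegree + M.d)) ≤ finrank K ((Ideal.span {g}).restrictScalars K ⊓
      M.E (q.natDegree + M.d + e) : Submodule K B) := by
    rw [← finrank_map_mulLeft hg]
    refine finrank_mono ?_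
    rintro _ ⟨b, hb, rfl⟩
    exact ⟨Ideal.mem_span_singleton.2 (dvd_mul_right _ _), by
      rw [LinearMap.mulLeft_apply, mul_comm g]; exact M.mul_mem_E hb he⟩
  have h3 := M.finrank_E (n := q.natDegree + M.d) (by omega)
  have h4 := M.finrank_E (n := q.natDegree + M.d + e) (by omega)
  rw [add_mul _ e] at h4
  unfold ci
  omega

variable {K : Type*} [Field K]

theorem ci_pair_le [IsAlgClosed K] {f g : Pl K} (hf : Irreducible f) (h : ¬ f ∣ g) :
    ci K (Ideal.span {g} ⊔ Ideal.span {f} : Ideal (Pl K)) ≤ g.totalDegree * f.totalDegree := by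
  obtain ⟨v, hv, hT, -⟩ := exists_dir (ι := Empty) (fun i => i.elim) (fun i => i.elim)
    (fun _ => MvPolynomial.homogeneousComponent f.totalDegree f) fun _ => top_ne_zero hf.ne_zero
  obtain ⟨G, hg, hgd, hfg, hTD⟩ := exists_monic_eq v hv (hT none)
  have hgi : Irreducible G := hfg.irreducible (hf.map (Th v hv))
  have hd0 : 0 < G.natDegree := Nat.pos_of_ne_zero fun h0 =>
    hgi.not_isUnit (by rw [hg.natDegree_eq_zero.1 h0]; exact isUnit_one)
  have := AdjoinRoot.isDomain_of_prime hgi.prime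
  let M := mkModel hg hd0 (hgd ▸ hTD)
  have hMd : M.d = f.totalDegree := hgd
  let π : Pl K →ₐ[K] AdjoinRoot G := (AdjoinRoot.mkₐ G).restrictScalars K |>.comp (Th v hv)
  have hπa : ∀ h, π h = AdjoinRoot.mk G (Th v hv h) := fun _ => rfl
  have hπ : Function.Surjective π := AdjoinRoot.mk_surjective.comp (Th v hv).surjective
  have hker : RingHom.ker π = Ideal.span {f} := by
    ext h
    rw [RingHom.mem_ker, hπa, AdjoinRoot.mk_eq_zero, ← hfg.dvd_iff_dvd_left, map_dvd_iff,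
      Ideal.mem_span_singleton]
  have hy : ∀ c : K, algebraMap K[X] _ (C c) * AdjoinRoot.root G ∈ M.E 2 := fun c =>
    M.mul_mem_E (b := 1) (M.alg_mem_E (k := 0) (by simp)) (pow_one M.y ▸ M.y_pow_mem_E 1 : M.y ∈ _)
  have hX0 : π (.X 0) ∈ M.E 2 := by
    rw [hπa, Th_X0, map_add, map_mul, AdjoinRoot.mk_C, AdjoinRoot.mk_C, AdjoinRoot.mk_X]
    exact add_mem (M.alg_mem_E (a := X) natDegree_X_le) (hy _)
  have hX1 : π (.X 1) ∈ M.E 2 := by
    rw [hπa, Th_X1, map_mul, AdjoinRoot.mk_C, AdjoinRoot.mk_X]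
    exact hy _
  have h1 := M.ci_span_le (g := π g) (by
    rwa [ne_eq, ← RingHom.mem_ker, hker, Ideal.mem_span_singleton]) (filt_mem π M.E
    (fun _ _ => M.E_mono) M.one_mem_E (Fin.forall_fin_two.2 ⟨hX0, hX1⟩)
    (fun _ _ _ _ => M.mul_mem_E) g)
  have h2 := ci_map π hπ (c := Ideal.span {g} ⊔ Ideal.span {f})
    (cof_mono (cof_pair hf h) (by rw [Ideal.span_insert, sup_comm]))
  rw [Ideal.map_sup, Ideal.map_span, Set.image_singleton, ← hker,
    (Ideal.map_eq_bot_iff_le_ker π).2 le_rfl, sup_bot_eq, sup_assoc, sup_idem, hker] at h2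
  rw [← h2, ← hMd]
  exact h1

end Bez

open MvPolynomial

variable {K : Type*} [Field K]

theorem ci_pair_ge {p : Fin 2 → K} {f g : Pl K} {m n : ℕ} (hf : f ∈ mx p ^ m) (hg : g ∈ mx p ^ n) :
    m * n ≤ ci K (Ideal.span {g} ⊔ Ideal.span {f} ⊔ mx p ^ (m - 1 + n) : Ideal (Pl K)) := by
  rcases m with _ | m
  · simp
  have h1 := ci_std hf n
  have h2 := ci_sup_span' g (cof_mono (cof_mx p (m + 1 - 1 + n))
    (le_sup_left (b := Ideal.span {f}))) (cof_mx p m) fun z hz =>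
    mem_sup_left (mul_mem_pow hg hz (by omega))
  have h3 := ci_mx p m
  rw [sup_comm _ (Ideal.span {g}), sup_comm _ (Ideal.span {f}), ← sup_assoc] at h2
  rw [sup_comm] at h1
  rw [Nat.add_sub_cancel] at *
  nlinarith

theorem le_of_ci_le {B : Type*} [CommRing B] [Algebra K B] {I J : Ideal B}
    (h : Cof (I.restrictScalars K)) (hIJ : I ≤ J) (h' : ci K I ≤ ci K J) : J ≤ I := fun x hx => by
  have : FiniteDimensional K (B ⧸ I.restrictScalars K) := h
  have h1 := cd_le h (B := J.restrictScalars K) hIJ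
  have h2 : (J.restrictScalars K).map (I.restrictScalars K).mkQ = ⊥ :=
    finrank_eq_zero.1 (by unfold ci at h'; omega)
  exact (Quotient.mk_eq_zero (I.restrictScalars K)).1 ((mem_bot K).1 (h2 ▸ mem_map_of_mem hx))

theorem stab0 {p : Fin 2 → K} {I : Ideal (Pl K)} {n : ℕ}
    (h : ci K (I ⊔ mx p ^ (n + 1) : Ideal (Pl K)) ≤ ci K (I ⊔ mx p ^ n : Ideal (Pl K))) (N : ℕ) :
    mx p ^ n ≤ I ⊔ mx p ^ N := by
  have h3 : mx p ^ n ≤ I ⊔ mx p ^ (n + 1) := le_sup_right.trans (le_of_ci_le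
    (cof_mono (cof_mx p _) le_sup_right) (sup_le_sup_left (Ideal.pow_le_pow_right n.le_succ) _) h)
  have h4 : ∀ j, mx p ^ n ≤ I ⊔ mx p ^ (n + j) := fun j => by
    induction j with
    | zero => exact le_sup_right
    | succ j ih =>
      refine ih.trans (sup_le le_sup_left ?_)
      rw [pow_add, ← add_assoc, add_right_comm, pow_add _ (n + 1)]
      refine (Ideal.mul_mono_left h3).trans ?_
      rw [Ideal.sup_mul]
      exact sup_le_sup_right Ideal.mul_le_left _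
  exact (h4 N).trans (sup_le_sup_left (Ideal.pow_le_pow_right (by omega)) _)

theorem stab {p : Fin 2 → K} {I : Ideal (Pl K)} {n b : ℕ} (k : ℕ)
    (h1 : b ≤ ci K (I ⊔ mx p ^ n : Ideal (Pl K)))
    (h2 : ci K (I ⊔ mx p ^ (n + k + 1) : Ideal (Pl K)) ≤ b + k) (N : ℕ) :
    mx p ^ (n + k) ≤ I ⊔ mx p ^ N := by
  induction k generalizing n b with
  | zero => exact stab0 (h2.trans h1) N
  | succ k ih =>
    by_cases h3 : ci K (I ⊔ mx p ^ (n + 1) : Ideal (Pl K)) ≤ b
    · exact (Ideal.pow_le_pow_right (by omega)).trans (stab0 (h3.trans h1) N)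
    · rw [show n + (k + 1) = n + 1 + k by ring] at h2 ⊢
      exact ih (b := b + 1) (by omega) (by omega)

theorem exists_family {B : Type*} [CommRing B] [Algebra K B] {I : Ideal B}
    (hI : Cof (I.restrictScalars K)) (V : Submodule K B) (h : ∀ z, ∃ v ∈ V, z - v ∈ I) :
    ∃ g : Fin (ci K I) → B, (∀ j, g j ∈ V) ∧
      ∀ α : Fin (ci K I) → K, ∑ j, α j • g j ∈ I → ∀ j, α j = 0 := by
  have : FiniteDimensional K (B ⧸ I.restrictScalars K) := hI
  let b := finBasis K (B ⧸ I.restrictScalars K)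
  have : ∀ j, ∃ v ∈ V, (I.restrictScalars K).mkQ v = b j := fun j => by
    obtain ⟨z, hz⟩ := (I.restrictScalars K).mkQ_surjective (b j)
    obtain ⟨v, hv, e⟩ := h z
    exact ⟨v, hv, hz ▸ ((Submodule.Quotient.eq _).2 e).symm⟩
  choose g h1 h2 using this
  refine ⟨g, h1, fun α hα => Fintype.linearIndependent_iff.1 b.linearIndependent α ?_⟩
  have := (Quotient.mk_eq_zero (I.restrictScalars K)).2 hα
  rw [← mkQ_apply, map_sum] at this
  simp only [map_smul, h2] at this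
  exact this

variable {ι : Type*} [Fintype ι]

namespace Neg

variable (N : Neg K ι)

/-- sections of `c (C + m E)` -/
def V (c : ℕ) : Submodule K (Pl K) where
  carrier := {h | h.totalDegree ≤ c * N.d ∧ ∀ i, i ≠ N.o → h ∈ mx (N.p i) ^ (c * N.m i)}
  add_mem' ha hb := ⟨(totalDegree_add _ _).trans (max_le ha.1 hb.1),
    fun i hi => add_mem (ha.2 i hi) (hb.2 i hi)⟩
  zero_mem' := ⟨by simp, fun _ _ => zero_mem _⟩
  smul_mem' a h hh := ⟨(totalDegree_smul_le _ _).trans hh.1, fun i hi => by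
    rw [smul_eq_C_mul]; exact Ideal.mul_mem_left _ _ (hh.2 i hi)⟩

variable {N}

theorem Sec.memV {c n : ℕ} {h H : Pl K} (s : N.Sec c n h H) : h ∈ N.V c := ⟨s.1, s.2.1⟩

theorem mul_memV {c c' : ℕ} {h h' : Pl K} (s : h ∈ N.V c) (s' : h' ∈ N.V c') :
    h * h' ∈ N.V (c + c') :=
  ⟨(totalDegree_mul _ _).trans (by rw [add_mul]; exact add_le_add s.1 s'.1),
    fun i hi => mul_mem_pow (s.2 i hi) (s'.2 i hi) (by rw [add_mul])⟩

theorem Sec.lin {c n w : ℕ} {h H : Fin w → Pl K} (s : ∀ j, N.Sec c n (h j) (H j))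
    (α : Fin w → K) : N.Sec c n (∑ j, α j • h j) (∑ j, α j • H j) := by
  have : ∑ j, α j • h j ∈ N.V c := sum_mem fun j _ => smul_mem _ _ (s j).memV
  exact ⟨this.1, this.2, by simpa using Lead.sum (fun j => (s j).2.2) α⟩

theorem Sec.pow {n : ℕ} {h H : Pl K} (s : N.Sec 1 n h H) (k : ℕ) :
    N.Sec k (k * n) (h ^ k) (H ^ k) := by
  induction k with
  | zero => exact ⟨by simp, by simp, by simpa using isHomogeneous_one _ _, by simp⟩
  | succ k ih => rw [pow_succ, pow_succ, add_mul, one_mul]; exact ih.mul s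

theorem span_V {s0 sx sy : Pl K} (h0 : N.Sec 1 0 s0 1) (hx : N.Sec 1 1 sx (X 0))
    (hy : N.Sec 1 1 sy (X 1)) {c n : ℕ} (h : n ≤ c + 1) (z : Pl K) :
    ∃ v ∈ N.V c, z - v ∈ mx (N.p N.o) ^ n := by
  induction n with
  | zero => exact ⟨0, zero_mem _, by simp⟩
  | succ n ih =>
    obtain ⟨v, hv, e⟩ := ih (by omega)
    have h1 := lead_of_mem ((mem_mx_pow _ _ _).1 e)
    obtain ⟨a, ha⟩ := hom_eq h1.1
    have h2 := Sec.lin (N := N) (c := c) (n := n)
      (h := fun k : Fin (n + 1) => sx ^ (n - k) * sy ^ (k : ℕ) * s0 ^ (c - n))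
      (H := fun k : Fin (n + 1) => X 0 ^ (n - k) * X 1 ^ (k : ℕ)) (fun k => by
        have := ((hx.pow (n - k)).mul (hy.pow k)).mul (h0.pow (c - n))
        have hk := k.2
        rwa [one_pow, mul_one, mul_one, mul_one, mul_zero, add_zero, Nat.sub_add_cancel (by omega),
          Nat.add_sub_cancel' (by omega)] at this) fun k => a k
    refine ⟨_, add_mem hv h2.memV, ?_⟩
    have h3 := sub_mem h1.2 h2.2.2.2
    rw [Fin.sum_univ_eq_sum_range (fun k => a k • (X 0 ^ (n - k) * X 1 ^ k : Pl K)), ha] at h3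
    simp only [smul_eq_C_mul, ← mul_assoc, sub_sub_sub_cancel_right] at h3
    rw [mem_mx_pow, ← sub_sub, map_sub]
    simpa only [smul_eq_C_mul, ← mul_assoc] using h3

theorem span_V' {s0 sx sy A : Pl K} (h0 : N.Sec 1 0 s0 1) (hx : N.Sec 1 1 sx (X 0))
    (hy : N.Sec 1 1 sy (X 1)) (hA : A ∈ N.V 1) {ν : ℕ} {J : Ideal (Pl K)}
    (h : mx (N.p N.o) ^ (ν + 1) ≤ Ideal.span {A} ⊔ J) (k : ℕ) (z : Pl K) :
    ∃ v ∈ N.V (ν + k), ∃ u, z - v - A ^ (k + 1) * u ∈ J := by
  induction k generalizing z with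
  | zero =>
    obtain ⟨v, hv, e⟩ := span_V h0 hx hy (c := ν) le_rfl z
    obtain ⟨a, ha, b, hb, e'⟩ := mem_sup.1 (h e)
    obtain ⟨u, rfl⟩ := Ideal.mem_span_singleton.1 ha
    exact ⟨v, hv, u, by rwa [← e', zero_add, pow_one, add_sub_cancel_left]⟩
  | succ k ih =>
    obtain ⟨v, hv, e⟩ := span_V h0 hx hy (c := ν + (k + 1)) (n := ν + 1) (by omega) z
    obtain ⟨a, ha, b, hb, e'⟩ := mem_sup.1 (h e)
    obtain ⟨u, rfl⟩ := Ideal.mem_span_singleton.1 ha
    obtain ⟨v', hv', u', e''⟩ := ih u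
    refine ⟨v + v' * A, add_mem hv (mul_memV (c := ν + k) hv' hA), u', ?_⟩
    have := add_mem hb (J.mul_mem_left A e'')
    convert this using 1
    linear_combination - e'

variable [IsAlgClosed K]

theorem ci_local {A : Pl K} (hA : A ∈ N.V 1) (h : ¬ N.f ∣ A) (n : ℕ) :
    (ci K (Ideal.span {A} ⊔ Ideal.span {N.f} ⊔ mx (N.p N.o) ^ n : Ideal (Pl K)) : ℤ) + N.a ≤
      N.m N.o ^ 2 := by
  classical
  have h1 := ci_pair_le N.hf h
  have hc := cof_mono (cof_pair N.hf h) (J := Ideal.span {A} ⊔ Ideal.span {N.f})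
    (by rw [Ideal.span_insert, sup_comm])
  let k : ι → ℕ := fun i => if i = N.o then n else N.m i - 1 + N.m i
  have h2 := ci_biInf (K := K) (fun i => Ideal.span {A} ⊔ Ideal.span {N.f} ⊔ mx (N.p i) ^ k i)
    (fun i => cof_mono hc le_sup_left) (fun i j hij => by
      obtain ⟨t, ht⟩ := Function.ne_iff.1 (N.hp.ne hij)
      have h3 : mx (N.p i) ⊔ mx (N.p j) = ⊤ := eq_top_iff.2 ((span_sup_mx (p := N.p j)
        (h := X t - C (N.p i t)) (by simpa [sub_eq_zero] using ht.symm)).ge.trans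
        (sup_le_sup_right ((Ideal.span_singleton_le_iff_mem _).2 (X_sub_mem _ _)) _))
      exact eq_top_iff.2 ((Ideal.pow_sup_pow_eq_top h3).ge.trans
        (sup_le_sup le_sup_right le_sup_right))) Finset.univ
  have h3 := ci_anti hc (J := ⨅ i ∈ Finset.univ, Ideal.span {A} ⊔ Ideal.span {N.f} ⊔
    mx (N.p i) ^ k i) (le_iInf₂ fun _ _ => le_sup_left)
  rw [h2.2, ← Finset.add_sum_erase _ _ (Finset.mem_univ N.o)] at h3
  have h4 : ∑ i ∈ Finset.univ.erase N.o, N.m i * N.m i ≤ ∑ i ∈ Finset.univ.erase N.o,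
      ci K (Ideal.span {A} ⊔ Ideal.span {N.f} ⊔ mx (N.p i) ^ k i : Ideal (Pl K)) :=
    Finset.sum_le_sum fun i hi => by
      have hi' := Finset.ne_of_mem_erase hi
      simpa [k, hi'] using ci_pair_ge (N.hm i) (by simpa using hA.2 i hi')
  have h5 : A.totalDegree * N.f.totalDegree ≤ N.d * N.d :=
    Nat.mul_le_mul (by simpa using hA.1) N.hd.le
  have h6 : k N.o = n := if_pos rfl
  rw [h6] at h3
  rw [N.ha, ← Finset.add_sum_erase _ _ (Finset.mem_univ N.o)]
  zify at h1 h3 h4 h5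
  simp only [sq]
  linarith

variable [CharZero K] {D : (Fin 2 → K) → Derivation ℚ K K} (h1 : ∀ v k, D v (N.p N.o k) = -v k)
  (h2 : ∀ v i, i ≠ N.o → ∀ k, D v (N.p i k) = 0)

include h1 h2

theorem exists_sec (hm : 2 ≤ N.m N.o) (j : ℕ) :
    ∀ n, n + 1 + j = N.m N.o → ∀ v, v ≠ 0 → ∃ h H, N.Sec 1 (n + 1) h H ∧ dv v H ≠ 0 := by
  induction j with
  | zero => exact fun n e v hv => ⟨_, _, e ▸ N.sec_f, no_cone h1 h2 hm v hv⟩
  | succ j ih =>
    intro n e v hv
    obtain ⟨h, H, s, hH⟩ := ih (n + 1) (by omega) v hv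
    by_contra hc
    push Not at hc
    have k0 := hc _ _ (s.der (h1 ![1, 0]) (h2 _))
    have k1 := hc _ _ (s.der (h1 ![0, 1]) (h2 _))
    rw [dv_e0, dv_pderiv] at k0
    rw [dv_e1, dv_pderiv] at k1
    have := (dv_hom s.2.2.1 v).sum_X_mul_pderiv
    rw [Fin.sum_univ_two, k0, k1, mul_zero, mul_zero, add_zero] at this
    exact hH ((smul_eq_zero.1 this.symm).resolve_left (by omega))

theorem exists_coords (hm : 2 ≤ N.m N.o) :
    ∃ s0 sx sy, N.Sec 1 0 s0 1 ∧ N.Sec 1 1 sx (X 0) ∧ N.Sec 1 1 sy (X 1) := by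
  have k := exists_sec h1 h2 hm (N.m N.o - 1) 0 (by omega)
  obtain ⟨u, U, su, hu⟩ := k ![1, 0] (by simp)
  obtain ⟨a, b, rfl⟩ := hom1 su.2.2.1
  have ha : a ≠ 0 := by simpa using hu
  obtain ⟨w, W, sw, hw⟩ := k ![-b, a] (fun e => ha (congrFun e 1))
  obtain ⟨c, d, rfl⟩ := hom1 sw.2.2.1
  have hΔ : a * d - b * c ≠ 0 := fun e => hw (by
    have : C (a * d - b * c) = (0 : Pl K) := by rw [e, map_zero]
    simp only [map_sub, map_mul] at this
    simp
    linear_combination this)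
  have e : (C a * C d - C b * C c) * C (a * d - b * c)⁻¹ = (1 : Pl K) := by
    rw [← map_mul, ← map_mul, ← map_sub, ← map_mul, mul_inv_cancel₀ hΔ, map_one]
  have s := Sec.lin (h := ![u, w]) (H := ![_, _]) (Fin.forall_fin_two.2 ⟨su, sw⟩)
  have sx := s ![d / (a * d - b * c), -b / (a * d - b * c)]
  have sy := s ![-c / (a * d - b * c), a / (a * d - b * c)]
  rw [show ∑ j, ![d / (a * d - b * c), -b / (a * d - b * c)] j •
    ![C a * X 0 + C b * X 1, C c * X 0 + C d * X 1] j = (X 0 : Pl K) by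
      simp [smul_eq_C_mul, div_eq_mul_inv]; linear_combination X 0 * e] at sx
  rw [show ∑ j, ![-c / (a * d - b * c), a / (a * d - b * c)] j •
    ![C a * X 0 + C b * X 1, C c * X 0 + C d * X 1] j = (X 1 : Pl K) by
      simp [smul_eq_C_mul, div_eq_mul_inv]; linear_combination X 1 * e] at sy
  exact ⟨_, _, _, by simpa using sx.der (h1 ![1, 0]) (h2 _), sx, sy⟩

theorem genus_bound {n : ℕ} (e : N.m N.o = n + 2) :
    N.a ≤ n + 1 ∧ N.g2 + (12 * (n + 2) - 6) * N.a ≤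
      6 * (n + 2) ^ 3 - 3 * (n + 2) ^ 2 + 3 * (n + 2) + 2 := by
  have k0 := N.g2_nonneg
  have k1 := N.ha0
  refine ⟨by have := first h1 h2 e; omega, ?_⟩
  obtain ⟨s0, sx, sy, h0, hx, hy⟩ := exists_coords h1 h2 (by omega)
  have sA := (e ▸ N.sec_f).der (h1 ![1, 0]) (h2 _)
  set A := Dt (D ![1, 0]) N.f
  have hA : ¬ N.f ∣ A := fun h => by
    obtain ⟨g, -, h3, h4⟩ := N.lead_T.dvd (N.hm' _) sA.2.2 (map_dvd _ h)
    exact no_cone h1 h2 (by omega) ![1, 0] (by simp) (by rw [h4, h3 (by omega), mul_zero])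
  have hA' : A ∈ mx (N.p N.o) ^ (n + 1) := (mem_mx_pow _ _ _).2 sA.2.2.mem
  have k2 := ci_pair_ge (e ▸ N.hm N.o) hA'
  have k3 := ci_local sA.memV hA (n + 2 - 1 + (n + 1) + (n + 1) + 1)
  have k4 := stab (n + 1) k2 (by
    rw [e] at k3
    generalize ci K (Ideal.span {A} ⊔ Ideal.span {N.f} ⊔
      mx (N.p N.o) ^ (n + 2 - 1 + (n + 1) + (n + 1) + 1) : Ideal (Pl K)) = w at k3
    push_cast at k3
    zify
    nlinarith)
    (n + 2 - 1 + (3 * n + 7) * (n + 1))
  rw [show n + 2 - 1 + (n + 1) + (n + 1) = 3 * n + 2 + 1 by omega, sup_assoc,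
    sup_comm (Ideal.span {N.f})] at k4
  obtain ⟨g, hg, hI⟩ := exists_family (cof_mono (cof_mx _ _) le_sup_left) (N.V (6 * n + 9))
    (I := mx (N.p N.o) ^ (n + 2 - 1 + (3 * n + 7) * (n + 1)) ⊔ Ideal.span {N.f}) fun z => by
      obtain ⟨v, hv, u, h⟩ := span_V' h0 hx hy sA.memV k4 (3 * n + 7) z
      refine ⟨v, by rwa [show 6 * n + 9 = 3 * n + 2 + (3 * n + 7) by ring], ?_⟩
      have := add_mem h (mem_sup_left (Ideal.mul_mem_right u _ (Ideal.pow_le_pow_right
        (show n + 2 - 1 + (3 * n + 7) * (n + 1) ≤ (n + 1) * (3 * n + 7 + 1) by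
          rw [show n + 2 - 1 = n + 1 by omega]; nlinarith)
        (pow_mul (mx (N.p N.o)) _ _ ▸ Ideal.pow_mem_pow hA' _))))
      rwa [sub_add_cancel] at this
  have k5 := ci_std (e ▸ N.hm N.o) ((3 * n + 7) * (n + 1))
  generalize ci K (mx (N.p N.o) ^ (n + 2 - 1 + (3 * n + 7) * (n + 1)) ⊔ Ideal.span {N.f} :
    Ideal (Pl K)) = w at g hg hI k5
  rw [show n + 2 - 1 = n + 1 by omega] at k5
  have k6 := bound (γ := 0) (k := N.m N.o - 1 + 0)
    (by have : 0 < (n + 2) * (n + 1) := by positivity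
        omega) (fun j => (hg j).1)
    (fun j => (hg j).2) (fun α h => hI α (mem_sup_right (Ideal.mem_span_singleton.2 h))) _ le_rfl
    (fun j z hz => Ideal.mul_mem_left _ _ hz) (by simpa using ci_std (N.hm N.o) 0)
  rw [e] at k6
  zify at k5
  push_cast at k6
  rcases k6 with H | H
  · nlinarith
  · nlinarith

end Neg

end Pool.Agent.P.MP_d3e5c7_ag.PA
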