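import Pool.Agent.P.MP_d3e5c7_ag.ARR

/-! The blown up model: colengths. -/

namespace Pool.Agent.P.MP_d3e5c7_ag.PA

open Module Submodule Polynomial

section Ci

variable {K B : Type*} [Field K] [CommRing B] [Algebra K B]

theorem ci_anti {I J : Ideal B} (h : Cof (I.restrictScalars K)) (hIJ : I ≤ J) :
    ci K J ≤ ci K I := cd_anti h hIJ

theorem cof_mono {I J : Ideal B} (h : Cof (I.restrictScalars K)) (hIJ : I ≤ J) :
    Cof (J.restrictScalars K) := h.mono hIJ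

theorem cof_inf {I J : Ideal B} (hI : Cof (I.restrictScalars K))
    (hJ : Cof (J.restrictScalars K)) : Cof ((I ⊓ J : Ideal B).restrictScalars K) := by
  have := Cof.inf_comap LinearMap.id hJ hI
  rwa [Submodule.comap_id, ← restrictScalars_inf] at this

theorem ci_inf {I J : Ideal B} (hI : Cof (I.restrictScalars K)) (hJ : Cof (J.restrictScalars K))
    (h : I ⊔ J = ⊤) : ci K (I ⊓ J : Ideal B) = ci K I + ci K J := by
  have := cd_map LinearMap.id hJ hI
  rw [Submodule.map_id, Submodule.comap_id, ← restrictScalars_sup, sup_comm, h,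
    restrictScalars_top, cd_top, zero_add, ← restrictScalars_inf] at this
  unfold ci
  omega

theorem ci_biInf {ι : Type*} (c : ι → Ideal B) (hc : ∀ i, Cof ((c i).restrictScalars K))
    (h : ∀ i j, i ≠ j → c i ⊔ c j = ⊤) (s : Finset ι) :
    Cof ((⨅ i ∈ s, c i).restrictScalars K) ∧ ci K (⨅ i ∈ s, c i) = ∑ i ∈ s, ci K (c i) := by
  classical
  induction s using Finset.induction_on with
  | empty => simpa [ci] using ⟨cof_top, cd_top⟩
  | insert a s ha ih =>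
    rw [Finset.iInf_insert, Finset.sum_insert ha, ci_inf (hc a) ih.1
      (Ideal.sup_iInf_eq_top fun i hi => h a i (by rintro rfl; exact ha hi)), ih.2]
    exact ⟨cof_inf (hc a) ih.1, rfl⟩

/-- image and preimage under a multiplication -/
theorem ci_mul (u : B) {A C : Ideal B} (hA : Cof (A.restrictScalars K))
    (hC : Cof (C.restrictScalars K)) :
    ci K A + ci K C = ci K (A ⊔ Ideal.span {u} * C : Ideal B) +
      ci K (C ⊓ A.colon {u} : Ideal B) := by
  have e1 : A.restrictScalars K ⊔ (C.restrictScalars K).map (LinearMap.mulLeft K u) =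
      (A ⊔ Ideal.span {u} * C : Ideal B).restrictScalars K := by
    rw [restrictScalars_sup]
    congr 1
    ext x
    rw [restrictScalars_mem, Ideal.mem_span_singleton_mul]
    rfl
  have e2 : C.restrictScalars K ⊓ (A.restrictScalars K).comap (LinearMap.mulLeft K u) =
      (C ⊓ A.colon {u} : Ideal B).restrictScalars K := by
    ext x
    simp [Submodule.mem_colon, mul_comm]
  have := cd_map (LinearMap.mulLeft K u) hA hC
  rwa [e1, e2] at this

theorem ci_top : ci K (⊤ : Ideal B) = 0 := cd_top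

theorem ci_mul_left [IsDomain B] {u : B} (hu : u ≠ 0) {I : Ideal B}
    (h : Cof ((Ideal.span {u} * I).restrictScalars K)) :
    ci K (Ideal.span {u} * I) = ci K (Ideal.span {u}) + ci K I := by
  have := ci_mul u h (C := ⊤) cof_top
  rw [ci_top, Ideal.mul_top, sup_eq_right.2 Ideal.mul_le_left, top_inf_eq] at this
  rw [add_zero] at this
  rw [this]
  congr 2
  ext x
  simp only [Submodule.mem_colon, Set.mem_singleton_iff, forall_eq, smul_eq_mul,
    Ideal.mem_span_singleton_mul]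
  refine ⟨fun ⟨z, hz, e⟩ => ?_, fun hx => ⟨x, hx, mul_comm _ _⟩⟩
  rwa [← mul_left_cancel₀ hu (e.trans (mul_comm _ _))]

theorem nakayama [IsNoetherianRing B] {𝔪 : Ideal B} {l : B} {μ : ℕ}
    (h : μ ≠ 0 → 𝔪 ^ (μ + 1) ≤ Ideal.span {l} * 𝔪 ^ μ ⊔ 𝔪 ^ (μ + 2)) :
    ∃ s, Ideal.span {s} ⊔ 𝔪 = ⊤ ∧
      Ideal.span {s} ^ μ * 𝔪 ^ (μ + μ) ≤ Ideal.span {l} ^ μ * 𝔪 ^ μ := by
  rcases eq_or_ne μ 0 with rfl | hμ
  · exact ⟨1, by simp, by simp⟩
  obtain ⟨s, hs, hs'⟩ := Submodule.exists_sub_one_mem_and_smul_le_of_fg_of_le_sup (I := 𝔪)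
    (N := Ideal.span {l} * 𝔪 ^ μ) (N' := 𝔪 ^ (μ + 1)) (IsNoetherian.noetherian _) le_rfl
    (by rw [smul_eq_mul, ← pow_succ']; exact h hμ)
  have h1 : Ideal.span {s} * 𝔪 ^ (μ + 1) ≤ Ideal.span {l} * 𝔪 ^ μ := fun x hx => by
    obtain ⟨z, hz, rfl⟩ := Ideal.mem_span_singleton_mul.1 hx
    exact hs' (Submodule.smul_mem_pointwise_smul _ _ _ hz)
  refine ⟨s, (Ideal.eq_top_iff_one _).2 ?_, ?_⟩
  · have := sub_mem (mem_sup_left (T := 𝔪) (Ideal.mem_span_singleton_self s)) (mem_sup_right hs)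
    rwa [sub_sub_cancel] at this
  · have : ∀ k, Ideal.span {s} ^ k * 𝔪 ^ (μ + k) ≤ Ideal.span {l} ^ k * 𝔪 ^ μ := by
      intro k
      induction k with
      | zero => simp
      | succ k ih =>
        calc Ideal.span {s} ^ (k + 1) * 𝔪 ^ (μ + (k + 1))
            = (Ideal.span {s} * 𝔪 ^ (μ + 1)) * (Ideal.span {s} ^ k * 𝔪 ^ k) := by ring
          _ ≤ (Ideal.span {l} * 𝔪 ^ μ) * (Ideal.span {s} ^ k * 𝔪 ^ k) := Ideal.mul_mono_left h1
          _ = Ideal.span {l} * (Ideal.span {s} ^ k * 𝔪 ^ (μ + k)) := by ring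
          _ ≤ Ideal.span {l} * (Ideal.span {l} ^ k * 𝔪 ^ μ) := Ideal.mul_mono_right ih
          _ = _ := by ring
    exact this μ

theorem exists_unit [IsNoetherianRing B] {ι : Type*} [Fintype ι] (𝔪 : ι → Ideal B) (l : ι → B)
    (μ : ι → ℕ) (hco : ∀ i j, i ≠ j → Ideal.span {l i} ⊔ 𝔪 j = ⊤)
    (h : ∀ i, μ i ≠ 0 → 𝔪 i ^ (μ i + 1) ≤ Ideal.span {l i} * 𝔪 i ^ μ i ⊔ 𝔪 i ^ (μ i + 2))
    (k : ι → ℕ) : ∃ s, (∀ i, 1 - s ∈ 𝔪 i ^ k i) ∧ ∀ u ∈ ∏ i, 𝔪 i ^ μ i, ∀ v ∈ ∏ i, 𝔪 i ^ μ i,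
      ∃ z ∈ ∏ i, 𝔪 i ^ μ i, (∏ i, l i ^ μ i) * z = s * (u * v) := by
  classical
  choose s hs hs' using fun i => nakayama (h i)
  set a := ∏ i, 𝔪 i ^ μ i with ha
  set Z := (Ideal.span {∏ i, l i ^ μ i} * a).colon (a * a : Ideal B) with hZ
  have hZj : ∀ j, Z ⊔ 𝔪 j = ⊤ := fun j => by
    let t : ι → B := fun i => if i = j then s i else l i
    have h1 : (∏ i, Ideal.span {t i} ^ μ i) ⊔ 𝔪 j = ⊤ :=
      Ideal.prod_sup_eq_top fun i _ => Ideal.pow_sup_eq_top (by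
        by_cases hi : i = j
        · simpa [t, hi] using hs j
        · simpa [t, hi] using hco i j hi)
    have h2 : (∏ i, Ideal.span {t i} ^ μ i) * (a * a) ≤ Ideal.span {∏ i, l i ^ μ i} * a := by
      rw [← Ideal.prod_span_singleton, ha, ← Finset.prod_mul_distrib, ← Finset.prod_mul_distrib,
        ← Finset.prod_mul_distrib]
      refine Finset.prod_le_prod' fun i _ => ?_
      rw [← pow_add, ← Ideal.span_singleton_pow]
      by_cases hi : i = j
      · simpa [t, hi] using hs' j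
      · simpa [t, hi] using Ideal.mul_mono_right (Ideal.pow_le_pow_right (by omega))
    refine eq_top_iff.2 (h1.ge.trans (sup_le_sup_right (fun x hx => ?_) _))
    exact Submodule.mem_colon.2 fun z hz => h2 (Ideal.mul_mem_mul hx hz)
  have h3 : Z ⊔ ∏ j, 𝔪 j ^ k j = ⊤ :=
    Ideal.sup_prod_eq_top fun j _ => Ideal.sup_pow_eq_top (hZj j)
  obtain ⟨x, hx, y, hy, e⟩ := mem_sup.1 ((Ideal.eq_top_iff_one _).1 h3)
  refine ⟨x, fun i => ?_, fun u hu v hv => ?_⟩
  · rw [← e, add_sub_cancel_left]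
    exact Ideal.le_of_dvd (Finset.dvd_prod_of_mem _ (Finset.mem_univ i)) hy
  · exact Ideal.mem_span_singleton_mul.1 (Submodule.mem_colon.1 hx _ (Ideal.mul_mem_mul hu hv))

end Ci

variable {K B : Type*} [Field K] [CommRing B] [Algebra K B] [Algebra K[X] B]
  [IsScalarTower K K[X] B] [IsDomain B] (M : Model K B)

/-- finitely many points with good vertical lines -/
structure Pts (K B ι : Type*) [Field K] [CommRing B] [Algebra K[X] B] where
  𝔪 : ι → Ideal B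
  l : ι → K[X]
  μ : ι → ℕ
  monic : ∀ i, (l i).Monic
  mem : ∀ i, algebraMap K[X] B (l i) ∈ 𝔪 i
  co : ∀ i j, i ≠ j → Ideal.span {algebraMap K[X] B (l i)} ⊔ 𝔪 j = ⊤
  gen : ∀ i, μ i ≠ 0 → 𝔪 i ^ (μ i + 1) ≤
    Ideal.span {algebraMap K[X] B (l i)} * 𝔪 i ^ μ i ⊔ 𝔪 i ^ (μ i + 2)

variable {ι : Type*} [Fintype ι] (S : Pts K B ι)

namespace Pts

/-- the adjoint ideal -/
noncomputable def a : Ideal B := ∏ i, S.𝔪 i ^ S.μ i

/-- its local generator -/
noncomputable def u : K[X] := ∏ i, S.l i ^ S.μ i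

/-- the common denominator -/
noncomputable def r (n : ℕ) : K[X] := S.u * X ^ n

/-- the ring of the blown up curve, times the denominator -/
noncomputable def R (n : ℕ) : Ideal B :=
  (Ideal.span {algebraMap K[X] B (S.r n)} * S.a).colon S.a

omit [Algebra K B] [IsScalarTower K K[X] B] [IsDomain B]

theorem u_monic : S.u.Monic := monic_prod_of_monic _ _ fun i _ => (S.monic i).pow _

theorem r_monic (n : ℕ) : (S.r n).Monic := S.u_monic.mul (monic_X_pow n)

theorem le_natDegree_r (n : ℕ) : n ≤ (S.r n).natDegree := by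
  rw [r, natDegree_mul_X_pow _ S.u_monic.ne_zero]; omega

theorem u_mem : algebraMap K[X] B S.u ∈ S.a := by
  rw [u, map_prod]
  exact Ideal.prod_mem_prod fun i _ => by rw [map_pow]; exact Ideal.pow_mem_pow (S.mem i) _

theorem r_mem (n : ℕ) : algebraMap K[X] B (S.r n) ∈ S.a := by
  rw [r, map_mul]; exact Ideal.mul_mem_right _ _ S.u_mem

theorem mem_P {n : ℕ} {b : B} :
    b ∈ S.R n ↔ ∀ z ∈ S.a, ∃ z' ∈ S.a, algebraMap K[X] B (S.r n) * z' = b * z := by
  simp [R, Submodule.mem_colon, Ideal.mem_span_singleton_mul]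

theorem r_mem_P (n : ℕ) : algebraMap K[X] B (S.r n) ∈ S.R n :=
  S.mem_P.2 fun z hz => ⟨z, hz, rfl⟩

omit [Fintype ι] in
theorem sup_top {i j : ι} (h : i ≠ j) (k k' : ℕ) : S.𝔪 i ^ k ⊔ S.𝔪 j ^ k' = ⊤ :=
  Ideal.pow_sup_pow_eq_top (eq_top_iff.2 ((S.co i j h).ge.trans
    (sup_le_sup_right ((Ideal.span_singleton_le_iff_mem _).2 (S.mem i)) _)))

theorem a_le (i : ι) : S.a ≤ S.𝔪 i ^ S.μ i :=
  Ideal.le_of_dvd (Finset.dvd_prod_of_mem _ (Finset.mem_univ i))

end Pts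

namespace Model

include M

omit [Algebra K B] [IsScalarTower K K[X] B] in
theorem P_mul (n : ℕ) : ∀ u ∈ S.R n, ∀ v ∈ S.R n, ∃ z ∈ S.R n,
    u * v = algebraMap K[X] B (S.r n) * z := fun u hu v hv => by
  have hr := M.alg_ne_zero (S.r_monic n).ne_zero
  obtain ⟨v', hv', e⟩ := S.mem_P.1 hv _ (S.r_mem n)
  obtain rfl : v' = v := mul_left_cancel₀ hr (e.trans (mul_comm _ _))
  obtain ⟨z, -, e1⟩ := S.mem_P.1 hu _ hv'
  refine ⟨z, S.mem_P.2 fun x hx => ?_, e1.symm⟩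
  obtain ⟨x1, hx1, e2⟩ := S.mem_P.1 hv _ hx
  obtain ⟨x2, hx2, e3⟩ := S.mem_P.1 hu _ hx1
  refine ⟨x2, hx2, mul_left_cancel₀ hr ?_⟩
  linear_combination algebraMap K[X] B (S.r n) * e3 + u * e2 - x * e1

omit [IsDomain B] [Fintype ι] in
theorem cof_pow (i : ι) (k : ℕ) : Cof ((S.𝔪 i ^ k).restrictScalars K) :=
  M.cof_of_mem ((S.monic i).pow k) (by rw [map_pow]; exact Ideal.pow_mem_pow (S.mem i) _)

omit [IsDomain B] in
theorem ci_a : ci K S.a = ∑ i, ci K (S.𝔪 i ^ S.μ i) := by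
  rw [Pts.a, Ideal.prod_eq_iInf_of_pairwise_isCoprime fun i _ j _ h =>
    Ideal.isCoprime_iff_sup_eq.2 (S.sup_top h _ _)]
  exact (ci_biInf _ (fun i => M.cof_pow S i _) (fun i j h => S.sup_top h _ _) _).2

omit [IsDomain B] in
theorem ci_P_ge {n : ℕ} (hn : 0 < n) :
    (S.r n).natDegree * M.d ≤ ci K (S.R n) + ∑ i, ci K (S.𝔪 i ^ S.μ i) := by
  have := M.ci_colon (S.r_monic n) (hn.trans_le (S.le_natDegree_r n)) S.a (S.r_mem n)
  rw [← this, M.ci_a]
  refine Nat.add_le_add_right (ci_anti (M.cof_of_mem (S.r_monic n) (S.r_mem_P n)) ?_) _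
  exact Submodule.colon_mono Ideal.mul_le_left le_rfl

theorem psi (n : ℕ) {I : Ideal B} (hI : I ≠ ⊥) (hIP : I ≤ S.R n) (c : ι → Ideal B) (k : ι → ℕ)
    (hc : ∀ i, S.𝔪 i ^ k i ≤ c i) (h : ∀ z ∈ I, ∃ b, (∀ i, b ∈ c i) ∧
      algebraMap K[X] B S.u * z = algebraMap K[X] B (S.r n) * b) :
    ci K (S.R n) + ∑ i, ci K (c i) ≤ ci K I + ∑ i, ci K (S.𝔪 i ^ S.μ i) := by
  have : Module.Finite K[X] B := Module.Finite.of_basis M.bs
  have : IsNoetherianRing B := IsNoetherianRing.of_finite K[X] B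
  have hr := M.alg_ne_zero (S.r_monic n).ne_zero
  have hu := M.alg_ne_zero S.u_monic.ne_zero
  obtain ⟨s, hs, hs'⟩ := exists_unit S.𝔪 (fun i => algebraMap K[X] B (S.l i)) S.μ S.co S.gen k
  have e : ∏ i, algebraMap K[X] B (S.l i) ^ S.μ i = algebraMap K[X] B S.u := by
    simp [Pts.u]
  rw [e] at hs'
  have hb : Ideal.span {algebraMap K[X] B S.u} ≠ ⊥ := by simpa using hu
  have c1 := M.cof (mul_ne_zero hb hI)
  have c2 := M.cof (mul_ne_zero hb (ne_bot_of_le_ne_bot hI hIP))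
  have c3 := M.cof_of_mem S.u_monic S.u_mem
  have h1 := ci_mul (s * algebraMap K[X] B (S.r n)) c1 c3
  have h2 := ci_biInf c (fun i => cof_mono (M.cof_pow S i (k i)) (hc i)) (fun i j h =>
    eq_top_iff.2 ((S.sup_top h _ _).ge.trans (sup_le_sup (hc i) (hc j)))) Finset.univ
  have h3 : ci K (Ideal.span {algebraMap K[X] B S.u} * S.R n) ≤
      ci K (Ideal.span {algebraMap K[X] B S.u} * I ⊔
        Ideal.span {s * algebraMap K[X] B (S.r n)} * S.a : Ideal B) := by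
    refine ci_anti (cof_mono c1 le_sup_left) (sup_le (Ideal.mul_mono_right hIP) ?_)
    intro x hx
    obtain ⟨b, hb, rfl⟩ := Ideal.mem_span_singleton_mul.1 hx
    obtain ⟨z, -, e1⟩ := hs' _ (S.r_mem n) _ hb
    refine Ideal.mem_span_singleton_mul.2 ⟨z, S.mem_P.2 fun v hv => ?_, by rw [e1]; ring⟩
    obtain ⟨z', hz', e2⟩ := hs' _ hb _ hv
    refine ⟨z', hz', mul_left_cancel₀ hu ?_⟩
    linear_combination algebraMap K[X] B (S.r n) * e2 - v * e1
  have h4 : ci K (⨅ i ∈ Finset.univ, c i) ≤ ci K (S.a ⊓ (Ideal.span {algebraMap K[X] B S.u} * I).colon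
      {s * algebraMap K[X] B (S.r n)} : Ideal B) := by
    refine ci_anti (cof_mono (M.cof (mul_ne_zero (mul_ne_zero hb hI) hb)) (le_inf ?_ ?_)) ?_
    · exact Ideal.mul_le_right.trans ((Ideal.span_singleton_le_iff_mem _).2 S.u_mem)
    · exact fun x hx =>
        Submodule.mem_colon.2 fun y _ => Ideal.mul_mem_right _ _ (Ideal.mul_le_left hx)
    · intro x hx
      obtain ⟨z, hz, e1⟩ := Ideal.mem_span_singleton_mul.1 (Submodule.mem_colon.1 hx.2 _ rfl)
      obtain ⟨b, hb, e2⟩ := h z hz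
      rw [smul_eq_mul] at e1
      obtain rfl : b = s * x := mul_left_cancel₀ hr (by linear_combination e1 - e2)
      simp only [Submodule.mem_iInf]
      intro i _
      have := add_mem (hb i) (Ideal.mul_mem_right x _ (hc i (hs i)))
      rwa [← add_mul, add_sub_cancel, one_mul] at this
  rw [ci_mul_left hu c1, M.ci_a] at h1
  rw [ci_mul_left hu c2] at h3
  rw [h2.2] at h4
  omega

variable (hpt : ∀ b : B, b ≠ 0 → ∃ φ : B →ₐ[K] K, φ b ≠ 0)

include hpt

theorem genus_B : M.d + ∑ i, ci K (Ideal.span {algebraMap K[X] B (S.l i) ^ S.μ i} ⊔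
    S.𝔪 i ^ (S.μ i + S.μ i) : Ideal B) * 2 + M.d + M.d ≤
      M.d * M.d + 2 + ∑ i, ci K (S.𝔪 i ^ S.μ i) * 2 := by
  have hr := M.alg_ne_zero (S.r_monic M.d).ne_zero
  have h1 := M.genus_nonneg hpt (S.r_monic M.d) (S.r_mem_P M.d) (M.P_mul S M.d)
  have h2 := M.psi S M.d (I := Ideal.span {algebraMap K[X] B (S.r M.d)}) (by simpa using hr)
    ((Ideal.span_singleton_le_iff_mem _).2 (S.r_mem_P _))
    (fun i => Ideal.span {algebraMap K[X] B (S.l i) ^ S.μ i} ⊔ S.𝔪 i ^ (S.μ i + S.μ i)) _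
    (fun i => le_sup_right) fun z hz => by
      obtain ⟨b, rfl⟩ := Ideal.mem_span_singleton.1 hz
      refine ⟨algebraMap K[X] B S.u * b, fun i => mem_sup_left (Ideal.mem_span_singleton.2
        (Dvd.dvd.mul_right ?_ _)), by ring⟩
      rw [← map_pow]
      exact map_dvd _ (Finset.dvd_prod_of_mem _ (Finset.mem_univ i))
  have h3 := M.finrank_E (n := (S.r M.d).natDegree + 1) (by have := S.le_natDegree_r M.d; omega)
  rw [M.ci_span (S.r_monic _)] at h2
  rw [← Finset.sum_mul, ← Finset.sum_mul]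
  rw [add_mul, one_mul] at h3
  omega

theorem clifford_B {e w : ℕ} (hw : 0 < w) (h : Fin w → B) (hh : LinearIndependent K h)
    (he : ∀ j, h j ∈ M.E (e + 1)) (c : ι → Ideal B) (k : ι → ℕ) (hc : ∀ i, S.𝔪 i ^ k i ≤ c i)
    (hm : ∀ i j, ∀ z ∈ S.𝔪 i ^ S.μ i, h j * z ∈ c i) :
    2 * w + 2 * ∑ i, ci K (c i) + M.d * M.d ≤
        2 * (e * M.d) + 3 * M.d + 4 * ∑ i, ci K (S.𝔪 i ^ S.μ i) ∨
      2 * w + ∑ i, ci K (c i) ≤ e * M.d + 2 + ∑ i, ci K (S.𝔪 i ^ S.μ i) := by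
  have hd := M.hd
  have hr := M.alg_ne_zero (S.r_monic M.d).ne_zero
  have hρ := S.le_natDegree_r M.d
  set J : Ideal B := Ideal.span (Set.range h) with hJ
  have hJm : ∀ x ∈ J, ∀ z ∈ S.a, ∀ i, x * z ∈ c i := fun x hx z hz i =>
    Submodule.mem_colon.1 ((Ideal.span_le (I := (c i).colon (S.𝔪 i ^ S.μ i : Ideal B))).2
      (by rintro _ ⟨j, rfl⟩; exact Submodule.mem_colon.2 (hm i j)) hx) z (S.a_le i hz)
  have hmem : ∀ j, h j * algebraMap K[X] B (S.r M.d) ∈ J * S.R M.d := fun j =>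
    Ideal.mul_mem_mul (Ideal.subset_span ⟨j, rfl⟩) (S.r_mem_P _)
  have hw' : w ≤ finrank K ((J * S.R M.d).restrictScalars K ⊓
      M.E (e + 1 + (S.r M.d).natDegree) : Submodule K B) := by
    have h1 := finrank_span_eq_card hh
    rw [Fintype.card_fin, ← finrank_map_mulLeft hr] at h1
    refine h1.ge.trans (finrank_mono ?_)
    rw [Submodule.map_span_le]
    rintro _ ⟨j, rfl⟩
    rw [LinearMap.mulLeft_apply, mul_comm _ (h j)]
    exact ⟨hmem j, M.mul_mem_E (he j) (M.alg_mem_E le_rfl)⟩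
  have h1 := M.clifford hpt (S.r_monic M.d) hρ (S.r_mem_P M.d) (M.P_mul S M.d)
    (I := J * S.R M.d) (fun u hu v hv => by
      refine Submodule.mul_induction_on hu (fun x hx y hy => ?_) fun x y hx hy => ?_
      · obtain ⟨z, hz, e⟩ := M.P_mul S M.d y hy v hv
        exact ⟨x * z, Ideal.mul_mem_mul hx hz, by linear_combination x * e⟩
      · obtain ⟨z, hz, e⟩ := hx
        obtain ⟨z', hz', e'⟩ := hy
        exact ⟨z + z', add_mem hz hz', by linear_combination e + e'⟩) (by omega) hw hw'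
  have h2 := M.psi S M.d (I := J * S.R M.d) (fun h0 => mul_ne_zero (hh.ne_zero ⟨0, hw⟩) hr
    (by simpa [h0] using hmem ⟨0, hw⟩)) Ideal.mul_le_right c k hc fun z hz => by
      refine Submodule.mul_induction_on hz (fun x hx y hy => ?_) fun x y hx hy => ?_
      · obtain ⟨z, hz, e⟩ := S.mem_P.1 hy _ S.u_mem
        exact ⟨x * z, hJm x hx z hz, by linear_combination - x * e⟩
      · obtain ⟨z, hz, e⟩ := hx
        obtain ⟨z', hz', e'⟩ := hy
        exact ⟨z + z', fun i => add_mem (hz i) (hz' i), by linear_combination e + e'⟩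
  have h3 := M.finrank_E (n := (S.r M.d).natDegree + 1) (by omega)
  have h4 := M.finrank_E (n := e + 1 + (S.r M.d).natDegree) (by omega)
  have h5 := M.ci_P_ge S hd
  simp only [add_mul, one_mul] at h3 h4
  omega

end Model

end Pool.Agent.P.MP_d3e5c7_ag.PA
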