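import Pool.Agent.P.MP_d3e5c7_ag.AForms

/-! Genus bounds for negative curves with a point of multiplicity two, three or four. -/

namespace Pool.Agent.P.MP_d3e5c7_ag

open MvPolynomial

namespace PA

variable {K : Type*} [Field K]

theorem mem_mx_iff (p : Fin 2 → K) (n : ℕ) (h : Pl K) : h ∈ mx p ^ n ↔
    ∀ j < n, homogeneousComponent j (aeval (fun k : Fin 2 => X k + C (p k)) h) = 0 := by
  rw [mem_mx_pow, mem_mx0_pow]; rfl

theorem exists_exact {p : Fin 2 → K} {f : Pl K} (hf : f ≠ 0) {m : ℕ} (hm : f ∈ mx p ^ m) :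
    ∃ r, m ≤ r ∧ f ∈ mx p ^ r ∧ homogeneousComponent r (tr p f) ≠ 0 := by
  obtain ⟨r, h1, h2⟩ := exists_mult ((map_ne_zero_iff _ (tr_injective p)).2 hf)
  exact ⟨r, not_lt.1 fun h => h2 ((mem_mx0_pow _ _).1 ((mem_mx_pow _ _ _).1 hm) r h),
    (mem_mx_pow _ _ _).2 h1, h2⟩

variable [IsAlgClosed K] {ι : Type*} [Fintype ι]

theorem bezout {p : ι → Fin 2 → K} (hp : Function.Injective p) {f g : Pl K} (hf : Irreducible f)
    (hfg : ¬ f ∣ g) {d e : ℕ} (hd : f.totalDegree = d) (he : g.totalDegree ≤ e) {m n : ι → ℕ}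
    (hm : ∀ i, f ∈ mx (p i) ^ m i) (hn : ∀ i, g ∈ mx (p i) ^ n i) : ∑ i, m i * n i ≤ d * e := by
  choose r h1 h2 h3 using fun i => exists_exact hf.ne_zero (hm i)
  obtain ⟨H1, -, H2⟩ := rrc p hp hf hd r h2 h3
  have := H2 e 1 ![g] (fun i => mx (p i) ^ (r i - 1 + n i)) _ (fun i => r i * n i) one_pos
    (fun α h j => by
      obtain rfl := Subsingleton.elim j 0
      by_contra hc
      simp only [Finset.univ_unique, Finset.sum_singleton, smul_eq_C_mul] at h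
      exact hfg ((IsUnit.map C (Ne.isUnit hc)).dvd_mul_left.1 h))
    (by simpa using he) (fun _ => le_rfl)
    (fun i j z hz => mul_mem_pow (by simpa using hn i) hz (by omega)) fun i => ci_std (h2 i) _
  have h4 : ∑ i, m i * n i ≤ ∑ i, r i * n i :=
    Finset.sum_le_sum fun i _ => Nat.mul_le_mul_right _ (h1 i)
  rw [mul_comm d]
  omega

theorem cast_sum (m : ι → ℕ) :
    ((∑ i, m i * (m i - 1) : ℕ) : ℤ) = ∑ i, (m i : ℤ) * (m i - 1) := by
  push_cast
  refine Finset.sum_congr rfl fun i _ => ?_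
  cases m i <;> simp

/-- a negative curve through points, one of which can be moved -/
structure Neg (K : Type*) [Field K] (ι : Type*) [Fintype ι] where
  p : ι → Fin 2 → K
  f : Pl K
  d : ℕ
  m : ι → ℕ
  o : ι
  a : ℤ
  g2 : ℤ
  hp : Function.Injective p
  hf : Irreducible f
  hd : f.totalDegree = d
  hm : ∀ i, f ∈ mx (p i) ^ m i
  hm' : ∀ i, homogeneousComponent (m i) (tr (p i) f) ≠ 0
  ha : a = ∑ i, (m i : ℤ) ^ 2 - (d : ℤ) ^ 2
  ha0 : 0 < a
  hg : g2 = ((d : ℤ) - 1) * (d - 2) - ∑ i, (m i : ℤ) * (m i - 1)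

namespace Neg

variable (N : Neg K ι)

/-- the tangent cone -/
noncomputable def T : Pl K := homogeneousComponent (N.m N.o) (tr (N.p N.o) N.f)

/-- sections of `c C + j E` with their leading forms -/
def Sec (c n : ℕ) (h H : Pl K) : Prop :=
  h.totalDegree ≤ c * N.d ∧ (∀ i, i ≠ N.o → h ∈ mx (N.p i) ^ (c * N.m i)) ∧
    Lead n (tr (N.p N.o) h) H

theorem g2_nonneg : 0 ≤ N.g2 := by
  have := (rrc N.p N.hp N.hf N.hd N.m N.hm N.hm').1
  zify [cast_sum] at this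
  rw [N.hg]
  linarith

omit [IsAlgClosed K]

theorem lead_T : Lead (N.m N.o) (tr (N.p N.o) N.f) N.T := lead_of_mem ((mem_mx_pow _ _ _).1 (N.hm _))

theorem sec_f : N.Sec 1 (N.m N.o) N.f N.T :=
  ⟨by rw [N.hd, one_mul], fun i _ => by rw [one_mul]; exact N.hm i, N.lead_T⟩

variable {N}

theorem Sec.mul {c n c' n' : ℕ} {h H h' H' : Pl K} (s : N.Sec c n h H) (s' : N.Sec c' n' h' H') :
    N.Sec (c + c') (n + n') (h * h') (H * H') :=
  ⟨(totalDegree_mul _ _).trans (by rw [add_mul]; exact add_le_add s.1 s'.1),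
    fun i hi => mul_mem_pow (s.2.1 i hi) (s'.2.1 i hi) (by rw [add_mul]),
    by rw [map_mul]; exact s.2.2.mul s'.2.2⟩

theorem Sec.der [CharZero K] {D : Derivation ℚ K K} {v : Fin 2 → K}
    (h1 : ∀ k, D (N.p N.o k) = -v k) (h2 : ∀ i, i ≠ N.o → ∀ k, D (N.p i k) = 0) {c n : ℕ}
    {h H : Pl K} (s : N.Sec c (n + 1) h H) : N.Sec c n (Dt D h) (dv v H) :=
  ⟨(totalDegree_Dt D h).trans s.1, fun i hi => by
    rw [mem_mx_pow, tr_Dt D (v := 0) (by simpa using h2 i hi)]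
    simpa [dv_apply] using Dt_mem D ((mem_mx_pow _ _ _).1 (s.2.1 i hi)),
    by rw [tr_Dt D h1]; exact s.2.2.der D v⟩

theorem Sec.weak {c n : ℕ} {h H : Pl K} (s : N.Sec c (n + 1) h H) : N.Sec c n h 0 :=
  ⟨s.1, s.2.1, isHomogeneous_zero _ _ _, by simpa using s.2.2.mem⟩

/-- independence of leading forms modulo the tangent cone -/
def Ind (N : Neg K ι) (n : ℕ) {w : ℕ} (H : Fin w → Pl K) : Prop :=
  ∀ (α : Fin w → K) (g : Pl K), g.IsHomogeneous (n - N.m N.o) → (n < N.m N.o → g = 0) →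
    ∑ j, α j • H j = N.T * g → ∀ j, α j = 0

theorem Ind.of_lt {n w : ℕ} {H : Fin w → Pl K} (hn : n < N.m N.o)
    (h : ∀ α : Fin w → K, ∑ j, α j • H j = 0 → ∀ j, α j = 0) : N.Ind n H :=
  fun α g _ hg e => h α (by rw [e, hg hn, mul_zero])

theorem indep_one {c n w : ℕ} {h H : Fin w → Pl K} (s : ∀ j, N.Sec c n (h j) (H j))
    (hI : N.Ind n H) (α : Fin w → K) (hα : N.f ∣ ∑ j, α j • h j) : ∀ j, α j = 0 := by
  obtain ⟨g, h1, h2, h3⟩ := N.lead_T.dvd (N.hm' _) (Lead.sum (fun j => (s j).2.2) α)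
    (by simpa using map_dvd (tr (N.p N.o)) hα)
  exact hI α g h1 h2 h3

theorem indep_two {c n w w' : ℕ} {h H : Fin w → Pl K} {h' H' : Fin w' → Pl K}
    (s : ∀ j, N.Sec c n (h j) (H j)) (s' : ∀ j, N.Sec c (n + 1) (h' j) (H' j)) (hI : N.Ind n H)
    (hI' : N.Ind (n + 1) H') (α : Fin (w + w') → K) (hα : N.f ∣ ∑ j, α j • Fin.append h h' j) :
    ∀ j, α j = 0 := by
  obtain ⟨g, h1, h2, h3⟩ := N.lead_T.dvd (N.hm' _) (Lead.sum (n := n)
    (G := fun j => tr (N.p N.o) (Fin.append h h' j)) (H := Fin.append H 0)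
    (Fin.addCases (fun j => by simpa using (s j).2.2) fun j => by simpa using (s' j).weak.2.2) α)
    (by simpa using map_dvd (tr (N.p N.o)) hα)
  have h4 := hI (fun j => α (Fin.castAdd w' j)) g h1 h2 (by simpa [Fin.sum_univ_add] using h3)
  exact Fin.addCases h4 (indep_one s' hI' (fun j => α (Fin.natAdd w j))
    (by simpa [Fin.sum_univ_add, h4] using hα))

end Neg

namespace Neg

variable {N : Neg K ι}

theorem bound {c w k γ : ℕ} (hw : 0 < w) {h : Fin w → Pl K} (hd : ∀ j, (h j).totalDegree ≤ c * N.d)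
    (hm : ∀ j i, i ≠ N.o → h j ∈ mx (N.p i) ^ (c * N.m i))
    (hI : ∀ α : Fin w → K, N.f ∣ ∑ j, α j • h j → ∀ j, α j = 0) (Q : Ideal (Pl K))
    (hk : mx (N.p N.o) ^ k ≤ Q) (hQ : ∀ j, ∀ z ∈ mx (N.p N.o) ^ (N.m N.o - 1), h j * z ∈ Q)
    (hγ : N.m N.o * (N.m N.o - 1) + 2 * γ ≤ 2 * ci K (Q ⊔ Ideal.span {N.f} : Ideal (Pl K))) :
    2 * (w : ℤ) + N.g2 ≤ 2 * (c * (N.m N.o) ^ 2 - γ - c * N.a) + 2 ∨
      2 * (w : ℤ) ≤ c * (N.m N.o) ^ 2 - γ - c * N.a + 2 := by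
  classical
  have := (rrc N.p N.hp N.hf N.hd N.m N.hm N.hm').2.2 (c * N.d) w h
    (fun i => if i = N.o then Q else mx (N.p i) ^ (N.m i - 1 + c * N.m i))
    (fun i => if i = N.o then k else N.m i - 1 + c * N.m i)
    (fun i => if i = N.o then γ else N.m i * (c * N.m i)) hw hI hd
    (fun i => by split_ifs with e; exacts [e ▸ hk, le_rfl])
    (fun i j z hz => by
      split_ifs with e
      exacts [hQ j z (e ▸ hz), mul_mem_pow (hm j i e) hz (by omega)])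
    (fun i => by split_ifs with e; exacts [e ▸ hγ, ci_std (N.hm i) _])
  have e1 : ((∑ i, if i = N.o then γ else N.m i * (c * N.m i) : ℕ) : ℤ) =
      γ + c * (∑ i, (N.m i : ℤ) ^ 2) - c * (N.m N.o) ^ 2 := by
    rw [← Finset.add_sum_erase _ _ (Finset.mem_univ N.o), if_pos rfl,
      ← Finset.add_sum_erase _ _ (Finset.mem_univ N.o), mul_add, Finset.mul_sum,
      Finset.sum_congr rfl fun i hi => if_neg (Finset.ne_of_mem_erase hi)]
    push_cast
    rw [Finset.sum_congr rfl fun i _ => show (N.m i : ℤ) * (c * N.m i) = c * N.m i ^ 2 by ring]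
    ring
  have e2 := cast_sum N.m
  generalize (∑ i, if i = N.o then γ else N.m i * (c * N.m i) : ℕ) = A at this e1
  generalize (∑ i, N.m i * (N.m i - 1) : ℕ) = B at this e2
  zify at this
  rw [N.hg, N.ha, ← e2]
  rcases this with H | H
  · left; linarith
  · right; linarith

theorem bound_std {c n w : ℕ} (hw : 0 < w) {h H : Fin w → Pl K} (s : ∀ j, N.Sec c n (h j) (H j))
    (hI : ∀ α : Fin w → K, N.f ∣ ∑ j, α j • h j → ∀ j, α j = 0) :
    2 * (w : ℤ) + N.g2 ≤ 2 * (c * (N.m N.o) ^ 2 - N.m N.o * n - c * N.a) + 2 ∨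
      2 * (w : ℤ) ≤ c * (N.m N.o) ^ 2 - N.m N.o * n - c * N.a + 2 := by
  exact_mod_cast bound hw (fun j => (s j).1) (fun j => (s j).2.1) hI _ le_rfl
    (fun j z hz => mul_mem_pow ((mem_mx_pow _ _ _).2 (s j).2.2.mem) hz (by omega))
    (ci_std (N.hm N.o) n)

theorem bound_one {c n w : ℕ} (hw : 0 < w) {h H : Fin w → Pl K} (s : ∀ j, N.Sec c n (h j) (H j))
    (hI : N.Ind n H) :
    2 * (w : ℤ) + N.g2 ≤ 2 * (c * (N.m N.o) ^ 2 - N.m N.o * n - c * N.a) + 2 ∨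
      2 * (w : ℤ) ≤ c * (N.m N.o) ^ 2 - N.m N.o * n - c * N.a + 2 :=
  bound_std hw s (indep_one s hI)

theorem bound_two {c n w w' : ℕ} (hw : 0 < w) {h H : Fin w → Pl K} {h' H' : Fin w' → Pl K}
    (s : ∀ j, N.Sec c n (h j) (H j)) (s' : ∀ j, N.Sec c (n + 1) (h' j) (H' j)) (hI : N.Ind n H)
    (hI' : N.Ind (n + 1) H') :
    2 * ((w : ℤ) + w') + N.g2 ≤ 2 * (c * (N.m N.o) ^ 2 - N.m N.o * n - c * N.a) + 2 ∨
      2 * ((w : ℤ) + w') ≤ c * (N.m N.o) ^ 2 - N.m N.o * n - c * N.a + 2 := by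
  exact_mod_cast bound_std (H := Fin.append H 0) (Nat.add_pos_left hw w')
    (Fin.addCases (fun j => by simpa using s j) fun j => by simpa using (s' j).weak)
    (indep_two s s' hI hI')

variable [CharZero K] {D : (Fin 2 → K) → Derivation ℚ K K} (h1 : ∀ v k, D v (N.p N.o k) = -v k)
  (h2 : ∀ v i, i ≠ N.o → ∀ k, D v (N.p i k) = 0)

include h1 h2

theorem no_cone (hm : 2 ≤ N.m N.o) (v : Fin 2 → K) (hv : v ≠ 0) : dv v N.T ≠ 0 := fun h0 => by
  obtain ⟨m, e⟩ : ∃ m, N.m N.o = m + 2 := ⟨N.m N.o - 2, by omega⟩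
  have s := (e ▸ N.sec_f).der (h1 v) (h2 v)
  refine not_dvd_der (D v) hv (N.hf.map (trE (N.p N.o))) (e ▸ N.lead_T) (N.hm' _) ?_
  change tr _ N.f ∣ Dt (D v) (tr _ N.f) + dv v (tr _ N.f)
  rw [← tr_Dt _ (h1 v)]
  refine map_dvd _ (by_contra fun hc => ?_)
  have := bezout N.hp N.hf hc N.hd (e := N.d) (by simpa using s.1) N.hm (n := N.m) fun i => by
    by_cases hi : i = N.o
    · subst hi
      rw [mem_mx_pow, e]
      simpa [h0] using s.2.2.2
    · simpa using s.2.1 i hi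
  have h3 := N.ha0
  rw [N.ha] at h3
  zify at this
  simp only [sq] at h3
  omega

theorem first {n : ℕ} (e : N.m N.o = n + 2) :
    4 + N.g2 ≤ 2 * (n + 2 - N.a) + 2 ∨ 4 ≤ n + 2 - N.a + 2 := by
  have s := fun v => (e ▸ N.sec_f).der (h1 v) (h2 v)
  have := bound_one two_pos (h := ![_, _]) (H := ![_, _])
    (Fin.forall_fin_two.2 ⟨s ![1, 0], s ![0, 1]⟩)
    (Ind.of_lt (by omega) (indep_first (no_cone h1 h2 (by omega))))
  rw [e] at this
  push_cast at this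
  rcases this with H | H
  · left; linarith
  · right; linarith

theorem three (e : N.m N.o = 3) : N.g2 + 4 * N.a ≤ 8 := by
  have hc := no_cone h1 h2 (by omega)
  have s := fun v => (e ▸ N.sec_f).der (h1 v) (h2 v)
  have s2 := fun u v => (s v).der (h1 u) (h2 u)
  obtain ⟨u, v, u', v', H⟩ := cubic (e ▸ N.lead_T.1) hc
  have k1 := bound_two two_pos (h := ![_, _]) (H := ![_, _]) (h' := ![_, _]) (H' := ![_, _])
    (Fin.forall_fin_two.2 ⟨s2 u v, s2 u' v'⟩) (Fin.forall_fin_two.2 ⟨s ![1, 0], s ![0, 1]⟩)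
    (Ind.of_lt (by omega) H) (Ind.of_lt (by omega) (indep_first hc))
  have k2 := first h1 h2 (n := 1) e
  have k3 := N.g2_nonneg
  have k4 := N.ha0
  rw [e] at k1
  push_cast at k1 k2
  omega

theorem four_c (e : N.m N.o = 4) {l q : Pl K} (hl : l.IsHomogeneous 1) (hq : q.IsHomogeneous 1)
    (hT : N.T = l ^ 3 * q) : N.g2 + 2 * N.a ≤ 2 := by
  have s := fun v => (e ▸ N.sec_f).der (h1 v) (h2 v)
  set p := N.p N.o with hp
  have back : ∀ G, tr p (tr (-p) G) = G := (trE p).apply_symm_apply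
  have hl' := hom_mem hl
  have hq' := hom_mem hq
  have key : ∀ (h G : Pl K) (n : ℕ), tr p h - l ^ 2 * G ∈ mx 0 ^ (n + 2 + 1) → G ∈ mx 0 ^ n →
      ∀ r, n + r = 4 → ∀ z ∈ mx p ^ r,
        h * z ∈ mx p ^ 7 ⊔ Ideal.span {tr (-p) l ^ 2} * mx p ^ 4 := fun h G n k1 k2 r hr z hz => by
    have k3 : h - tr (-p) l ^ 2 * tr (-p) G ∈ mx p ^ (n + 2 + 1) := by
      rw [mem_mx_pow]; simpa [back] using k1
    have k4 : tr (-p) G ∈ mx p ^ n := by rw [mem_mx_pow, back]; exact k2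
    rw [show h * z = (h - tr (-p) l ^ 2 * tr (-p) G) * z + tr (-p) l ^ 2 * (tr (-p) G * z) by ring]
    exact add_mem (Submodule.mem_sup_left (mul_mem_pow k3 hz (by omega))) (Submodule.mem_sup_right
      (Ideal.mul_mem_mul (Ideal.mem_span_singleton_self _) (mul_mem_pow k4 hz hr.ge)))
  have k0 : ∀ v, ∀ z ∈ mx p ^ (N.m N.o - 1),
      Dt (D v) N.f * z ∈ mx p ^ 7 ⊔ Ideal.span {tr (-p) l ^ 2} * mx p ^ 4 := fun v =>
    key _ (l * dv v q + 3 * dv v l * q) 1 (by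
      have := (s v).2.2.2
      rwa [hT, show dv v (l ^ 3 * q) = l ^ 2 * (l * dv v q + 3 * dv v l * q) by simp; ring] at this)
      (add_mem (Ideal.mul_mem_right _ _ hl') (Ideal.mul_mem_left _ _ hq')) _ (by omega)
  have c1 := ci_sup_span (tr (-p) l ^ 2) (cof_mx p 7) (cof_mx p 4) (cof_mx p 5)
    (Ideal.pow_le_pow_right (by omega)) fun z hz => mul_mem_pow (a := 2)
      (Ideal.pow_mem_pow (by rw [← pow_one (mx p), mem_mx_pow, back]; exact hl') _) hz le_rfl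
  have c2 := ci_sup_span' N.f (cof_mono (cof_mx p 7)
    (le_sup_left (b := Ideal.span {tr (-p) l ^ 2} * mx p ^ 4))) (cof_mx p 2)
    (key _ (l * q) 2 (by
      have := (e ▸ N.lead_T).2
      rwa [hT, show l ^ 3 * q = l ^ 2 * (l * q) by ring] at this)
      (mul_mem_pow hl' hq' le_rfl) 2 rfl)
  have c3 := ci_mx p 7
  have c4 := ci_mx p 4
  have c5 := ci_mx p 5
  have c6 := ci_mx p 2
  have s' : ∀ j, N.Sec 1 3 (![Dt (D ![1, 0]) N.f, Dt (D ![0, 1]) N.f] j)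
      (![dv ![1, 0] N.T, dv ![0, 1] N.T] j) := Fin.forall_fin_two.2 ⟨s _, s _⟩
  have k1 := bound (γ := 14) two_pos (fun j => (s' j).1) (fun j => (s' j).2.1)
    (indep_one s' (Ind.of_lt (by omega) (indep_first (no_cone h1 h2 (by omega))))) _ le_sup_left
    (Fin.forall_fin_two.2 ⟨k0 _, k0 _⟩) (by rw [e, ← hp]; omega)
  have k4 := N.ha0
  rw [e] at k1
  push_cast at k1
  omega

theorem four (e : N.m N.o = 4) : N.g2 + 4 * N.a ≤ 12 := by
  have hc := no_cone h1 h2 (by omega)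
  have s := fun v => (e ▸ N.sec_f).der (h1 v) (h2 v)
  have s2 := fun u v => (s v).der (h1 u) (h2 u)
  have hT : N.T.IsHomogeneous 4 := e ▸ N.lead_T.1
  have k3 := N.g2_nonneg
  have k4 := N.ha0
  by_cases H : ∀ α : Fin 3 → K, ∑ j, α j • ![dv ![1, 0] (dv ![1, 0] N.T),
      dv ![1, 0] (dv ![0, 1] N.T), dv ![0, 1] (dv ![0, 1] N.T)] j = 0 → ∀ j, α j = 0
  · have k1 := bound_two three_pos (h := ![_, _, _]) (h' := ![_, _]) (H' := ![_, _])
      (fun j => by fin_cases j; exacts [s2 _ _, s2 _ _, s2 _ _])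
      (Fin.forall_fin_two.2 ⟨s ![1, 0], s ![0, 1]⟩)
      (Ind.of_lt (by omega) H) (Ind.of_lt (by omega) (indep_first hc))
    have k2 := first h1 h2 (n := 2) e
    rw [e] at k1
    push_cast at k1 k2
    omega
  push Not at H
  obtain ⟨α, hα, j, hj⟩ := H
  rcases quartic α (Function.ne_iff.2 ⟨j, hj⟩) hα with ⟨u, w, hu, hw, hd, H⟩ | ⟨u, hu, H⟩
  · obtain ⟨b1, b2⟩ := quartic_b hT hc hu hw hd H
    have k1 := bound_two (N := N) (c := 2) (n := 5) four_pos (h := ![_, _, _, _]) (h' := ![_, _, _])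
      (fun j => by
        fin_cases j
        exacts [(s u).mul (s2 u u), (s u).mul (s2 w w), (s w).mul (s2 u u), (s w).mul (s2 w w)])
      (fun j => by fin_cases j; exacts [(s u).mul (s u), (s u).mul (s w), (s w).mul (s w)])
      (fun α g hg _ => b1 α g (by rwa [e] at hg)) fun α g hg _ => b2 α g (by rwa [e] at hg)
    rw [e] at k1
    push_cast at k1
    omega
  · obtain ⟨l, q, hl, hq, E⟩ := quartic_c hT hu H
    have := four_c h1 h2 e hl hq E
    omega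

end Neg

end PA

open PA

variable {L : Type*} [Field L] [IsAlgClosed L]

/-- Bezout, distinct points, no genericity. -/
theorem A_bezout {ι : Type*} [Fintype ι] (p : ι → Fin 2 → L) (hp : Function.Injective p)
    (f g : MvPolynomial (Fin 2) L) (hf : Irreducible f) (hfg : ¬ f ∣ g) (d e : ℕ)
    (hd : f.totalDegree = d) (he : g.totalDegree ≤ e) (m n : ι → ℕ)
    (hm : ∀ i, ∀ j < m i, homogeneousComponent j
      (aeval (fun k : Fin 2 => X k + C (p i k)) f) = 0)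
    (hn : ∀ i, ∀ j < n i, homogeneousComponent j
      (aeval (fun k : Fin 2 => X k + C (p i k)) g) = 0) :
    ∑ i, m i * n i ≤ d * e :=
  bezout hp hf hfg hd he (fun i => (mem_mx_iff _ _ _).2 (hm i)) fun i => (mem_mx_iff _ _ _).2 (hn i)

/-- nonnegative arithmetic genus, distinct points, no genericity -/
theorem A_genus {ι : Type*} [Fintype ι] (p : ι → Fin 2 → L) (hp : Function.Injective p)
    (f : MvPolynomial (Fin 2) L) (hf : Irreducible f) (d : ℕ)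
    (hd : f.totalDegree = d) (m : ι → ℕ)
    (hm : ∀ i, ∀ j < m i, homogeneousComponent j
      (aeval (fun k : Fin 2 => X k + C (p i k)) f) = 0) :
    ∑ i, (m i : ℤ) * (m i - 1) ≤ ((d : ℤ) - 1) * (d - 2) := by
  choose r h1 h2 h3 using fun i => exists_exact hf.ne_zero ((mem_mx_iff _ _ _).2 (hm i))
  have h4 := (rrc p hp hf hd r h2 h3).1
  have h5 : ∑ i, m i * (m i - 1) ≤ ∑ i, r i * (r i - 1) :=
    Finset.sum_le_sum fun i _ => Nat.mul_le_mul (h1 i) (Nat.sub_le_sub_right (h1 i) 1)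
  rw [← cast_sum]
  generalize (∑ i, m i * (m i - 1) : ℕ) = A at h5
  generalize (∑ i, r i * (r i - 1) : ℕ) = B at h4 h5
  zify at h4 h5
  linarith

/-- the genus bounds; `a = - C^2`, `g2 = 2 * p_a` -/
theorem A_main [CharZero L] {s : ℕ} (p : Fin s → Fin 2 → L)
    (hp : AlgebraicIndependent ℚ (fun ij : Fin s × Fin 2 => p ij.1 ij.2))
    (f : MvPolynomial (Fin 2) L) (hf : Irreducible f) (d : ℕ) (hd : f.totalDegree = d)
    (m : Fin s → ℕ)
    (hm : ∀ i, (∀ j < m i, homogeneousComponent j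
        (aeval (fun k : Fin 2 => X k + C (p i k)) f) = 0) ∧
      homogeneousComponent (m i) (aeval (fun k : Fin 2 => X k + C (p i k)) f) ≠ 0)
    (a g2 : ℤ) (ha : a = ∑ i, (m i : ℤ) ^ 2 - (d : ℤ) ^ 2) (ha0 : 0 < a)
    (hg : g2 = ((d : ℤ) - 1) * (d - 2) - ∑ i, (m i : ℤ) * (m i - 1)) (i : Fin s) :
    0 ≤ g2 ∧ (m i = 2 → a = 1 ∧ g2 = 0) ∧ (m i = 3 → g2 + 4 * a ≤ 8) ∧
      (m i = 4 → g2 + 4 * a ≤ 12) := by
  let N : Neg L (Fin s) := ⟨p, f, d, m, i, a, g2, fun j k h => congrArg Prod.fst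
    (hp.injective (a₁ := (j, 0)) (a₂ := (k, 0)) (congrFun h 0)), hf, hd,
    fun j => (mem_mx_iff _ _ _).2 (hm j).1, fun j => (hm j).2, ha, ha0, hg⟩
  choose D hD using fun v : Fin 2 → L => exists_der hp fun t => if t.1 = i then -v t.2 else 0
  have h1 : ∀ v k, D v (N.p N.o k) = -v k := fun v k => by simpa using hD v (i, k)
  have h2 : ∀ v j, j ≠ N.o → ∀ k, D v (N.p j k) = 0 := fun v j hj k => by
    simpa [show j ≠ i from hj] using hD v (j, k)
  have h0 : 0 ≤ g2 := N.g2_nonneg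
  refine ⟨h0, fun e => ?_, Neg.three h1 h2, Neg.four h1 h2⟩
  have : 4 + g2 ≤ 2 * ((0 : ℕ) + 2 - a) + 2 ∨ 4 ≤ (0 : ℕ) + 2 - a + 2 := Neg.first h1 h2 (n := 0) e
  omega

end Pool.Agent.P.MP_d3e5c7_ag
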