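import Pool.Agent.P.MP_d3e5c7_ag.ALoc

/-! Point ideals in the plane. -/

namespace Pool.Agent.P.MP_d3e5c7_ag.PA

open Module Submodule MvPolynomial

variable {K : Type*} [Field K]

theorem exists_point [IsAlgClosed K] {B : Type*} [CommRing B] [IsDomain B] [Algebra K B]
    [Algebra.FiniteType K B] (b : B) (hb : b ≠ 0) : ∃ φ : B →ₐ[K] K, φ b ≠ 0 := by
  have : IsJacobsonRing B := isJacobsonRing_of_finiteType (A := K)
  have h : (⊥ : Ideal B).jacobson = ⊥ := IsJacobsonRing.out this Ideal.isPrime_bot.isRadical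
  have hb' : b ∉ (⊥ : Ideal B).jacobson := by rw [h]; exact hb
  rw [Ideal.jacobson, Ideal.mem_sInf] at hb'
  push Not at hb'
  obtain ⟨n, ⟨-, hn⟩, hbn⟩ := hb'
  let := Ideal.Quotient.field n
  have := finite_of_finite_type_of_isJacobsonRing K (B ⧸ n)
  let ψ : (B ⧸ n) →ₐ[K] K := IsAlgClosed.lift
  refine ⟨ψ.comp (Ideal.Quotient.mkₐ K n), fun h => hbn ?_⟩
  exact Ideal.Quotient.eq_zero_iff_mem.1 ((map_eq_zero_iff ψ ψ.injective).1 h)

/-- the plane -/
abbrev Pl (K : Type*) [Field K] := MvPolynomial (Fin 2) K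

/-- translation -/
noncomputable def tr (p : Fin 2 → K) : Pl K →ₐ[K] Pl K := aeval fun k => X k + C (p k)

@[simp] theorem tr_X (p : Fin 2 → K) (k : Fin 2) : tr p (X k) = X k + C (p k) := by simp [tr]

@[simp] theorem tr_C (p : Fin 2 → K) (c : K) : tr p (C c) = C c := by simp [tr]

/-- translation -/
noncomputable def trE (p : Fin 2 → K) : Pl K ≃ₐ[K] Pl K :=
  .ofAlgHom (tr p) (tr (-p)) (by ext1 k; simp) (by ext1 k; simp)

theorem tr_injective (p : Fin 2 → K) : Function.Injective (tr p) := (trE p).injective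

/-- the ideal of a point -/
noncomputable def mx (p : Fin 2 → K) : Ideal (Pl K) :=
  Ideal.span (Set.range fun k => X k - C (p k))

theorem mx_zero : mx (0 : Fin 2 → K) = idealOfVars (Fin 2) K := by simp [mx]

theorem map_mx (p : Fin 2 → K) : (mx p).map (tr p) = mx 0 := by
  rw [mx, Ideal.map_span, ← Set.range_comp, mx]
  congr 2
  funext k
  simp

theorem mem_mx_pow (p : Fin 2 → K) (n : ℕ) (h : Pl K) :
    h ∈ mx p ^ n ↔ tr p h ∈ mx 0 ^ n := by
  rw [← map_mx p, ← Ideal.map_pow]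
  exact (Ideal.apply_mem_of_equiv_iff (f := (trE p).toRingEquiv)).symm

theorem mem_mx0_pow (n : ℕ) (h : Pl K) :
    h ∈ mx 0 ^ n ↔ ∀ j < n, homogeneousComponent j h = 0 := by
  rw [mx_zero, mem_pow_idealOfVars_iff']
  refine ⟨fun H j hj => ?_, fun H x hx => ?_⟩
  · ext x
    rw [coeff_homogeneousComponent]
    split_ifs with e
    · exact H x (by omega)
    · rfl
  · have := coeff_homogeneousComponent (n := x.degree) (φ := h) x
    rwa [H _ hx, if_pos rfl, coeff_zero, eq_comm] at this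

theorem X_sub_mem (p : Fin 2 → K) (k : Fin 2) : X k - C (p k) ∈ mx p :=
  Ideal.subset_span ⟨k, rfl⟩

theorem sub_C_mem (p : Fin 2 → K) (h : Pl K) : h - C (eval p h) ∈ mx p := by
  induction h using MvPolynomial.induction_on with
  | C c => simp
  | add a b ha hb => rw [map_add, map_add, add_sub_add_comm]; exact add_mem ha hb
  | mul_X a k ha =>
    have : a * X k - C (eval p (a * X k)) =
        (a - C (eval p a)) * X k + C (eval p a) * (X k - C (p k)) := by
      simp only [map_mul, eval_X]; ring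
    rw [this]
    exact add_mem (Ideal.mul_mem_right _ _ ha) (Ideal.mul_mem_left _ _ (X_sub_mem p k))

theorem span_sup_mx {p : Fin 2 → K} {h : Pl K} (H : eval p h ≠ 0) :
    Ideal.span {h} ⊔ mx p = ⊤ := by
  have := sub_mem (mem_sup_left (T := mx p) (Ideal.mem_span_singleton_self h))
    (mem_sup_right (sub_C_mem p h))
  rw [sub_sub_cancel] at this
  exact Ideal.eq_top_of_isUnit_mem _ this (H.isUnit.map C)

theorem mul_mem_pow {B : Type*} [CommRing B] {I : Ideal B} {a b c : ℕ} {x y : B} (hx : x ∈ I ^ a)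
    (hy : y ∈ I ^ b) (h : c ≤ a + b) : x * y ∈ I ^ c :=
  Ideal.pow_le_pow_right h (pow_add I a b ▸ Ideal.mul_mem_mul hx hy)

theorem ci_mx0 (n : ℕ) : Cof ((mx (0 : Fin 2 → K) ^ n).restrictScalars K) ∧
    2 * ci K (mx (0 : Fin 2 → K) ^ n) = n * (n + 1) := by
  classical
  let e : (Σ j : Fin n, Fin (n - j)) → (Fin 2 →₀ ℕ) := fun t =>
    Finsupp.single 0 (t.2 : ℕ) + Finsupp.single 1 (t.1 : ℕ)
  have he : Function.Injective e := by
    rintro ⟨j, i⟩ ⟨j', i'⟩ h
    have h0 := DFunLike.congr_fun h 0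
    have h1 := DFunLike.congr_fun h 1
    simp [e] at h0 h1
    obtain rfl : j = j' := Fin.ext h1
    obtain rfl : i = i' := Fin.ext h0
    rfl
  let φ : Pl K →ₗ[K] ((Σ j : Fin n, Fin (n - j)) → K) := LinearMap.pi fun t => lcoeff K (e t)
  have hφ : Function.Surjective φ := fun a => ⟨∑ t, monomial (e t) (a t), by
    funext t
    simp [φ, coeff_monomial, he.eq_iff]⟩
  have hk : LinearMap.ker φ = (mx (0 : Fin 2 → K) ^ n).restrictScalars K := by
    ext h
    rw [restrictScalars_mem, mx_zero, mem_pow_idealOfVars_iff', LinearMap.mem_ker,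
      _root_.funext_iff]
    refine ⟨fun H x hx => ?_, fun H t => H _ ?_⟩
    · rw [Finsupp.degree_eq_sum, Fin.sum_univ_two] at hx
      have := H ⟨⟨x 1, by omega⟩, ⟨x 0, by simp only; omega⟩⟩
      have e1 : e ⟨⟨x 1, by omega⟩, ⟨x 0, by simp only; omega⟩⟩ = x := by
        ext k; fin_cases k <;> simp [e]
      simpa [φ, e1] using this
    · have := t.2.2
      simp [e]
      omega
  have E := φ.quotKerEquivOfSurjective hφ
  rw [hk] at E
  refine ⟨Module.Finite.equiv E.symm, ?_⟩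
  rw [ci, cd, E.finrank_eq, finrank_fintype_fun_eq_card, Fintype.card_sigma]
  have := Model.sum_sub n n (by omega)
  simp only [Fintype.card_fin]
  nlinarith

theorem comap_mx (p : Fin 2 → K) (n : ℕ) : (mx p ^ n).restrictScalars K =
    ((mx (0 : Fin 2 → K) ^ n).restrictScalars K).comap (tr p).toLinearMap := by
  ext h; exact mem_mx_pow p n h

theorem cof_mx (p : Fin 2 → K) (n : ℕ) : Cof ((mx p ^ n).restrictScalars K) := by
  have := Cof.inf_comap (tr p).toLinearMap (ci_mx0 n).1 cof_top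
  rwa [top_inf_eq, ← comap_mx] at this

theorem ci_mx (p : Fin 2 → K) (n : ℕ) : 2 * ci K (mx p ^ n) = n * (n + 1) := by
  rw [ci, comap_mx, cd_comap_of_surj _ (trE p).surjective (ci_mx0 n).1]
  exact (ci_mx0 n).2

theorem ci_sup_span {B : Type*} [CommRing B] [Algebra K B] (u : B) {A C D : Ideal B}
    (hA : Cof (A.restrictScalars K)) (hC : Cof (C.restrictScalars K))
    (hD : Cof (D.restrictScalars K)) (h : D ≤ C) (h' : ∀ z ∈ D, u * z ∈ A) :
    ci K A + ci K C ≤ ci K (A ⊔ Ideal.span {u} * C : Ideal B) + ci K D := by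
  rw [ci_mul u hA hC]
  refine Nat.add_le_add_left (ci_anti hD (le_inf h fun z hz => ?_)) _
  exact Submodule.mem_colon.2 fun y hy => by
    rw [Set.mem_singleton_iff.1 hy, smul_eq_mul, mul_comm]; exact h' z hz

theorem ci_sup_span' {B : Type*} [CommRing B] [Algebra K B] (u : B) {A D : Ideal B}
    (hA : Cof (A.restrictScalars K)) (hD : Cof (D.restrictScalars K)) (h' : ∀ z ∈ D, u * z ∈ A) :
    ci K A ≤ ci K (A ⊔ Ideal.span {u} : Ideal B) + ci K D := by
  simpa [ci_top] using ci_sup_span u hA (C := ⊤) cof_top hD le_top h'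

/-- the standard colength -/
theorem ci_std {p : Fin 2 → K} {f : Pl K} {m : ℕ} (hf : f ∈ mx p ^ m) (n : ℕ) :
    m * (m - 1) + 2 * (m * n) ≤ 2 * ci K (mx p ^ (m - 1 + n) ⊔ Ideal.span {f} : Ideal (Pl K)) := by
  rcases m with _ | m
  · simp
  have h1 := ci_sup_span' f (cof_mx p (m + n)) (cof_mx p (n - 1)) fun z hz =>
    mul_mem_pow hf hz (by omega)
  have h2 := ci_mx p (m + n)
  have h3 := ci_mx p (n - 1)
  rw [Nat.add_sub_cancel]
  rcases n with _ | n
  · simp only [Nat.add_zero, Nat.zero_sub] at *; nlinarith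
  · rw [Nat.add_sub_cancel] at h1 h3; nlinarith

/-- the colength used for the genus -/
theorem ci_gen {p : Fin 2 → K} {f l : Pl K} {m : ℕ} (hf : f ∈ mx p ^ m) (hl : l ∈ mx p) :
    m * (m - 1) ≤ ci K (Ideal.span {l ^ (m - 1)} ⊔ mx p ^ (m - 1 + (m - 1)) ⊔ Ideal.span {f} :
      Ideal (Pl K)) := by
  rcases m with _ | _ | m
  · simp
  · simp
  rw [Nat.add_sub_cancel, sup_comm (Ideal.span _)]
  have h1 := ci_sup_span' (l ^ (m + 1)) (cof_mx p (m + 1 + (m + 1))) (cof_mx p (m + 1))
    fun z hz => mul_mem_pow (Ideal.pow_mem_pow hl _) hz le_rfl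
  have h2 := ci_sup_span' f (cof_mono (cof_mx p (m + 1 + (m + 1)))
    (le_sup_left (b := Ideal.span {l ^ (m + 1)}))) (cof_mx p m) fun z hz => mem_sup_left
    (mul_mem_pow hf hz (by omega))
  have h3 := ci_mx p (m + 1 + (m + 1))
  have h4 := ci_mx p (m + 1)
  have h5 := ci_mx p m
  nlinarith

/-- restriction to a line through the origin -/
noncomputable def ln (v : Fin 2 → K) : Pl K →ₐ[K] Polynomial K :=
  aeval fun k => Polynomial.C (v k) * Polynomial.X

theorem coeff_ln (v : Fin 2 → K) (h : Pl K) (n : ℕ) :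
    (ln v h).coeff n = eval v (homogeneousComponent n h) := by
  induction h using MvPolynomial.induction_on' with
  | monomial s c =>
    rw [homogeneousComponent_of_mem (isHomogeneous_monomial c rfl), ln, aeval_monomial,
      Finsupp.prod_fintype _ _ (by simp), Fin.prod_univ_two, Finsupp.degree_eq_sum,
      Fin.sum_univ_two]
    have : algebraMap K (Polynomial K) c * ((Polynomial.C (v 0) * Polynomial.X) ^ s 0 *
        (Polynomial.C (v 1) * Polynomial.X) ^ s 1) =
        Polynomial.C (c * (v 0 ^ s 0 * v 1 ^ s 1)) * Polynomial.X ^ (s 0 + s 1) := by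
      simp only [Polynomial.algebraMap_apply, Algebra.algebraMap_self, RingHom.id_apply, map_mul,
        map_pow]
      ring
    rw [this, Polynomial.coeff_C_mul_X_pow]
    split_ifs
    · rw [eval_monomial, Finsupp.prod_fintype _ _ (by simp), Fin.prod_univ_two]
    · simp
  | add a b ha hb => simp [ha, hb]

theorem sup_pow_le {B : Type*} [CommRing B] (I J : Ideal B) (n : ℕ) :
    (I ⊔ J) ^ (n + 1) ≤ I * (I ⊔ J) ^ n ⊔ J ^ (n + 1) := by
  induction n with
  | zero => simp
  | succ n ih =>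
    rw [pow_succ]
    refine (Ideal.mul_mono_left ih).trans ?_
    rw [Ideal.sup_mul, Ideal.mul_sup (J ^ (n + 1)), mul_assoc, ← pow_succ, ← pow_succ, ← sup_assoc]
    refine sup_le_sup_right (sup_le le_rfl ?_) _
    rw [mul_comm]
    exact Ideal.mul_mono_right (Ideal.pow_right_mono le_sup_right _)

/-- the line through `p` with direction `v` -/
noncomputable def lin (v p : Fin 2 → K) : Pl K :=
  X 0 - C (p 0) - C (v 0 / v 1) * (X 1 - C (p 1))

theorem lin_mem (v p : Fin 2 → K) : lin v p ∈ mx p :=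
  sub_mem (X_sub_mem p 0) (Ideal.mul_mem_left _ _ (X_sub_mem p 1))

theorem mx_eq (v p : Fin 2 → K) :
    mx p = Ideal.span {lin v p} ⊔ Ideal.span {X 1 - C (p 1)} := by
  refine le_antisymm (Ideal.span_le.2 ?_) (sup_le ((Ideal.span_singleton_le_iff_mem _).2
    (lin_mem v p)) ((Ideal.span_singleton_le_iff_mem _).2 (X_sub_mem p 1)))
  rintro _ ⟨k, rfl⟩
  fin_cases k
  · have := add_mem (mem_sup_left (T := Ideal.span {X 1 - C (p 1)})
      (Ideal.mem_span_singleton_self (lin v p))) (mem_sup_right (Ideal.mul_mem_left _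
        (C (v 0 / v 1)) (Ideal.mem_span_singleton_self _)))
    rwa [lin, sub_add_cancel] at this
  · exact mem_sup_right (Ideal.mem_span_singleton_self _)

theorem eval_ne_zero {v p : Fin 2 → K} (hv : v 1 ≠ 0) {z u : Pl K} {n : ℕ}
    (hT : eval v (homogeneousComponent n (tr p (lin v p * z + (X 1 - C (p 1)) ^ n * u))) ≠ 0) :
    eval p u ≠ 0 := fun h0 => hT (by
  have hu := sub_C_mem p u
  rw [h0, map_zero, sub_zero, ← pow_one (mx p), mem_mx_pow, mem_mx0_pow] at hu
  have e : ln v (tr p (lin v p)) = 0 := by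
    have : Polynomial.C (v 0 / v 1) * Polynomial.C (v 1) = Polynomial.C (v 0) := by
      rw [← map_mul, div_mul_cancel₀ _ hv]
    simp only [lin, ln, map_sub, map_mul, tr_X, tr_C, map_add, aeval_X, aeval_C,
      Polynomial.algebraMap_eq]
    linear_combination (-Polynomial.X) * this
  have e' : ln v (tr p (X 1 - C (p 1))) = Polynomial.C (v 1) * Polynomial.X := by simp [ln]
  rw [← coeff_ln]
  simp only [map_add, map_mul, map_pow, e, e', zero_mul, zero_add]
  rw [mul_pow, ← map_pow, mul_assoc, Polynomial.coeff_C_mul, Polynomial.coeff_X_pow_mul',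
    if_pos le_rfl, Nat.sub_self, coeff_ln, hu 0 one_pos, map_zero, mul_zero])

theorem mx_gen {v p : Fin 2 → K} (hv : v 1 ≠ 0) {f : Pl K} {μ : ℕ} (hf : f ∈ mx p ^ (μ + 1))
    (hT : eval v (homogeneousComponent (μ + 1) (tr p f)) ≠ 0) :
    mx p ^ (μ + 1) ≤ Ideal.span {lin v p} * mx p ^ μ ⊔ mx p ^ (μ + 2) ⊔ Ideal.span {f} := by
  have h1 := sup_pow_le (Ideal.span {lin v p}) (Ideal.span {X 1 - C (p 1)}) μ
  rw [← mx_eq, Ideal.span_singleton_pow] at h1
  obtain ⟨a, ha, b, hb, e0⟩ := mem_sup.1 (h1 hf)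
  obtain ⟨u, rfl⟩ := Ideal.mem_span_singleton.1 hb
  have hu : eval p u ≠ 0 := by
    obtain ⟨z, -, rfl⟩ := Ideal.mem_span_singleton_mul.1 ha
    exact eval_ne_zero hv (by rwa [e0])
  refine h1.trans (sup_le (le_sup_left.trans le_sup_left)
    ((Ideal.span_singleton_le_iff_mem _).2 ?_))
  have e : (X 1 - C (p 1) : Pl K) ^ (μ + 1) = C (eval p u)⁻¹ * (f
      - a - (X 1 - C (p 1)) ^ (μ + 1) * (u - C (eval p u))) := by
    have : (C (eval p u)⁻¹ * C (eval p u) : Pl K) = 1 := by
      rw [← map_mul, inv_mul_cancel₀ hu, map_one]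
    rw [← e0]
    linear_combination (-(X 1 - C (p 1)) ^ (μ + 1)) * this
  have h2 : (X 1 - C (p 1)) ^ (μ + 1) * (u - C (eval p u)) ∈ mx p ^ (μ + 2) :=
    mul_mem_pow (Ideal.pow_mem_pow (X_sub_mem p 1) _) ((pow_one (mx p)).symm ▸ sub_C_mem p u) le_rfl
  rw [e]
  exact Ideal.mul_mem_left _ _ (sub_mem (sub_mem (mem_sup_right (Ideal.mem_span_singleton_self _))
    (mem_sup_left (mem_sup_left ha))) (mem_sup_left (mem_sup_right h2)))

end Pool.Agent.P.MP_d3e5c7_ag.PA
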