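import Pool.Agent.P.MP_d3e5c7_ag.AFil

/-! Riemann-Roch and Clifford on a plane model. -/

namespace Pool.Agent.P.MP_d3e5c7_ag.PA

open Module Submodule Polynomial

variable {K B : Type*} [Field K] [CommRing B] [Algebra K B] [Algebra K[X] B]
  [IsScalarTower K K[X] B] (M : Model K B)

/-- codimension of an ideal -/
noncomputable def ci (K : Type*) {B : Type*} [Field K] [CommRing B] [Algebra K B] (I : Ideal B) :
    ℕ := cd (I.restrictScalars K)

namespace Model

/-- the last index -/
def last : Fin M.d := ⟨M.d - 1, by have := M.hd; omega⟩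

/-- the residue functional -/
noncomputable def lam (q : K[X]) : B →ₗ[K] K :=
  lcoeff K (q.natDegree - 1) ∘ₗ modByMonicHom q ∘ₗ (M.bs.coord M.last).restrictScalars K

theorem lam_apply (q : K[X]) (b : B) :
    M.lam q b = (M.bs.repr b M.last %ₘ q).coeff (q.natDegree - 1) := rfl

theorem lam_mul {q : K[X]} (hq : q.Monic) (c : B) : M.lam q (algebraMap K[X] B q * c) = 0 := by
  rw [lam_apply, ← Algebra.smul_def, map_smul, Finsupp.smul_apply, smul_eq_mul,
    (modByMonic_eq_zero_iff_dvd hq).2 (dvd_mul_right _ _), coeff_zero]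

theorem lam_E {q : K[X]} (hq : q.Monic) {n : ℕ} (hn : n + 2 ≤ q.natDegree + M.d)
    (h0 : 0 < q.natDegree) {b : B} (hb : b ∈ M.E n) : M.lam q b = 0 := by
  rw [lam_apply]
  rcases mem_dlt.1 (M.mem_E.1 hb M.last) with h | h
  · simp [h]
  · have hd := M.hd
    simp only [last] at h
    rw [(modByMonic_eq_self_iff hq).2 (degree_lt_degree (by simp only [last]; omega))]
    exact coeff_eq_zero_of_natDegree_lt (by simp only [last]; omega)

theorem key {q : K[X]} (hq : q.Monic) (h0 : 0 < q.natDegree) {t : ℕ} {b : B}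
    (hb : b ∈ M.Red q.natDegree) (h1 : b ∈ M.E (t + 1)) (h2 : b ∉ M.E t) :
    ∃ c ∈ M.E (q.natDegree + M.d - 1 - t), M.lam q (b * c) ≠ 0 := by
  classical
  rw [mem_E] at h2
  push Not at h2
  obtain ⟨j, hj, hmax⟩ := Finset.exists_max_image
    (Finset.univ.filter fun j : Fin M.d => M.bs.repr b j ∉ degreeLT K (t - j)) id
    (by obtain ⟨j, hj⟩ := h2; exact ⟨j, by simpa using hj⟩)
  simp only [Finset.mem_filter, Finset.mem_univ, true_and, id] at hj hmax
  rw [mem_dlt, not_or] at hj
  have hj1 := (mem_dlt.1 (M.mem_E.1 h1 j)).resolve_left hj.1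
  have hj2 := (mem_dlt.1 (M.mem_Red.1 hb j)).resolve_left hj.1
  have hjd := j.2
  set i := (M.bs.repr b j).natDegree with hi
  set N := q.natDegree with hN
  refine ⟨(X ^ (N - 1 - i) : K[X]) • M.y ^ (M.d - 1 - j), ?_, ?_⟩
  · refine M.E_mono ?_ (M.smul_mem_E (k := N - 1 - i + 1) (mem_dlt.2 (.inr (by simp)))
      (M.y_pow_mem_E _))
    omega
  · rw [M.expand b, Finset.sum_mul, map_sum, Finset.sum_eq_single j]
    · have e : M.y ^ (j : ℕ) * M.y ^ (M.d - 1 - j) = M.bs M.last := by
        rw [← pow_add, M.hbs]; congr 1; simp only [last]; omega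
      rw [smul_mul_smul_comm, e, lam_apply, map_smul, Finsupp.smul_apply, Basis.repr_self,
        Finsupp.single_eq_same, smul_eq_mul, mul_one, (modByMonic_eq_self_iff hq).2
          (degree_lt_degree (by rw [natDegree_mul_X_pow _ hj.1]; omega)),
        coeff_mul_X_pow', if_pos (by omega), show N - 1 - (N - 1 - i) = i by omega]
      exact leadingCoeff_ne_zero.2 hj.1
    · intro k _ hk
      rw [smul_mul_smul_comm, ← pow_add]
      rcases lt_or_gt_of_ne hk with h | h
      · have h' : (k : ℕ) < j := h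
        have e : M.y ^ (k + (M.d - 1 - j)) = M.bs ⟨k + (M.d - 1 - j), by omega⟩ := by
          rw [M.hbs]
        rw [e, lam_apply, map_smul, Finsupp.smul_apply, Basis.repr_self, Finsupp.single_eq_of_ne]
        · simp
        · simp only [last, ne_eq, Fin.mk.injEq]; omega
      · have h' : (j : ℕ) < k := h
        have hk' : M.bs.repr b k ∈ degreeLT K (t - k) := by
          by_contra hc
          exact absurd (hmax k hc) (not_le.2 h)
        rcases mem_dlt.1 hk' with h0' | h0'
        · simp [h0']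
        refine M.lam_E hq (n := N + M.d - 2) (by omega) h0 (M.E_mono ?_
          (M.smul_mem_E (k := t - k + (N - 1 - i)) (mem_dlt.2 (.inr ?_)) (M.y_pow_mem_E _)))
        · omega
        · have := natDegree_mul_le (p := M.bs.repr b k) (q := X ^ (N - 1 - i))
          rw [natDegree_X_pow] at this
          omega
    · simp

theorem orth {q : K[X]} (hq : q.Monic) (h0 : 0 < q.natDegree) {n n' : ℕ}
    (hn : n + n' + 1 = q.natDegree + M.d) (b : B) (h : ∀ c ∈ M.E n, M.lam q (b * c) = 0) :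
    ∃ b' ∈ M.E n', algebraMap K[X] B q ∣ b - b' := by
  obtain ⟨b', hb', c, hc⟩ := M.exists_red hq b
  refine ⟨b', ?_, c, hc⟩
  have H : ∀ k, b' ∈ M.E (n' + k) → b' ∈ M.E n' := by
    intro k
    induction k with
    | zero => exact id
    | succ k ih =>
      intro hk
      refine ih (by_contra fun hcon => ?_)
      obtain ⟨z, hz, hz'⟩ := M.key hq h0 (t := n' + k) hb' hk hcon
      have := h z (M.E_mono (by omega) hz)
      rw [eq_add_of_sub_eq hc, add_mul, map_add, mul_assoc, M.lam_mul hq, zero_add] at this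
      exact hz' this
  refine H n (M.mem_E.2 fun j => degreeLT_mono ?_ (M.mem_Red.1 hb' j))
  have := j.2
  omega

theorem nondeg {q : K[X]} (hq : q.Monic) (h0 : 0 < q.natDegree) (b : B)
    (h : ∀ c, M.lam q (b * c) = 0) : algebraMap K[X] B q ∣ b := by
  obtain ⟨b', hb', hc⟩ := M.orth hq h0 (n := q.natDegree + M.d - 1) (n' := 0) (by omega) b
    fun c _ => h c
  rwa [M.eq_zero_of_mem_E_zero hb', sub_zero] at hc

theorem sup_red {q : K[X]} (hq : q.Monic) {I : Ideal B} (hI : algebraMap K[X] B q ∈ I) :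
    I.restrictScalars K ⊔ M.Red q.natDegree = ⊤ := by
  refine eq_top_iff.2 fun b _ => ?_
  obtain ⟨b', hb', c, hc⟩ := M.exists_red hq b
  exact mem_sup.2 ⟨_, I.mul_mem_right c hI, b', hb', (eq_add_of_sub_eq hc).symm⟩

include M in
theorem cof_of_mem {q : K[X]} (hq : q.Monic) {I : Ideal B} (hI : algebraMap K[X] B q ∈ I) :
    Cof (I.restrictScalars K) := cof_of_sup (M.sup_red hq hI)

theorem ci_span {q : K[X]} (hq : q.Monic) :
    ci K (Ideal.span {algebraMap K[X] B q}) = q.natDegree * M.d := by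
  have hI := Ideal.mem_span_singleton_self (algebraMap K[X] B q)
  have := finrank_inf_add_cd (M.cof_of_mem hq hI) (S := M.Red q.natDegree)
  rw [M.sup_red hq hI, cd_top, finrank_Red, (eq_bot_iff (a := _ ⊓ _)).2 fun b hb =>
    M.red_eq_zero hq.ne_zero hb.2 (Ideal.mem_span_singleton.1 hb.1), finrank_bot] at this
  simpa [ci] using this

/-- Riemann-Roch -/
theorem rr {q : K[X]} (hq : q.Monic) (h0 : 0 < q.natDegree) {n n' : ℕ}
    (hn : n + n' + 1 = q.natDegree + M.d) (hn' : M.d ≤ n + 1) (I : Ideal B)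
    (hI : algebraMap K[X] B q ∈ I) :
    finrank K (I.restrictScalars K ⊓ M.E n : Submodule K B) + ci K I = finrank K (M.E n) +
      finrank K (((Ideal.span {algebraMap K[X] B q}).colon (I : Set B)).restrictScalars K ⊓
        M.E n' : Submodule K B) := by
  refine duality _ (M.lam q) (M.E n) (M.E n') (M.cof_of_mem hq (Ideal.mem_span_singleton_self _))
    (M.lam_mul hq) (M.nondeg hq h0) (fun b hb c hc => ?_) (M.orth hq h0 hn)
    (fun b hb => M.red_eq_zero hq.ne_zero (M.mem_Red.2 fun j =>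
      degreeLT_mono (by omega) (M.mem_E.1 hb j))) I hI
  cases n with
  | zero => simp [M.eq_zero_of_mem_E_zero hc]
  | succ n => exact M.lam_E hq (by omega) h0 (M.mul_mem_E hb hc)

/-- Gorenstein duality -/
theorem ci_colon {q : K[X]} (hq : q.Monic) (h0 : 0 < q.natDegree) (I : Ideal B)
    (hI : algebraMap K[X] B q ∈ I) :
    ci K ((Ideal.span {algebraMap K[X] B q}).colon (I : Set B)) + ci K I = q.natDegree * M.d := by
  have h1 := duality _ (M.lam q) ⊥ (M.Red q.natDegree)
    (M.cof_of_mem hq (Ideal.mem_span_singleton_self _))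
    (M.lam_mul hq) (M.nondeg hq h0) (fun b _ c hc => by simp [(mem_bot K).1 hc])
    (fun b _ => M.exists_red hq b) (fun b hb => M.red_eq_zero hq.ne_zero hb) I hI
  have hq' : algebraMap K[X] B q ∈ (Ideal.span {algebraMap K[X] B q}).colon (I : Set B) :=
    Submodule.mem_colon.2 fun z _ => Ideal.mem_span_singleton.2 (dvd_mul_right _ _)
  have h2 := finrank_inf_add_cd (M.cof_of_mem hq hq') (S := M.Red q.natDegree)
  rw [M.sup_red hq hq', cd_top, finrank_Red] at h2
  rw [inf_bot_eq, finrank_bot] at h1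
  unfold ci
  omega

variable [IsDomain B]

omit [Algebra K B] [IsScalarTower K K[X] B] in
include M in
theorem exists_monic {I : Ideal B} (hI : I ≠ ⊥) (k : ℕ) :
    ∃ q : K[X], q.Monic ∧ k ≤ q.natDegree ∧ algebraMap K[X] B q ∈ I := by
  have : Module.Finite K[X] B := Module.Finite.of_basis M.bs
  obtain ⟨b, hb, hb0⟩ := Submodule.exists_mem_ne_zero_of_ne_bot hI
  obtain ⟨q, hq, hq0⟩ := Submodule.exists_mem_ne_zero_of_ne_bot
    (Ideal.comap_ne_bot_of_integral_mem hb0 hb (Algebra.IsIntegral.isIntegral (R := K[X]) b))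
  have hm := monic_mul_leadingCoeff_inv hq0
  refine ⟨q * C (q.leadingCoeff)⁻¹ * X ^ k, hm.mul (monic_X_pow k), ?_, ?_⟩
  · rw [natDegree_mul_X_pow _ hm.ne_zero]; omega
  · rw [mul_assoc, map_mul]
    exact I.mul_mem_right _ hq

include M in
theorem cof {I : Ideal B} (hI : I ≠ ⊥) : Cof (I.restrictScalars K) := by
  obtain ⟨q, hq, -, h⟩ := M.exists_monic hI 0
  exact M.cof_of_mem hq h

variable (hpt : ∀ b : B, b ≠ 0 → ∃ φ : B →ₐ[K] K, φ b ≠ 0)

include hpt in
theorem h0_le_one {r : K[X]} (hr : r ≠ 0) {P : Ideal B}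
    (hP : ∀ u ∈ P, ∀ v ∈ P, ∃ z ∈ P, u * v = algebraMap K[X] B r * z) :
    finrank K (P.restrictScalars K ⊓ M.E (r.natDegree + 1) : Submodule K B) ≤ 1 := by
  set V : Submodule K B := P.restrictScalars K ⊓ M.E (r.natDegree + 1)
  rcases Nat.eq_zero_or_pos (finrank K V) with h | h
  · omega
  have := hopf' hpt (Z := V.map (LinearMap.mulLeft K (algebraMap K[X] B r))) h h
    fun u hu v hv => by
      obtain ⟨z, hz, e⟩ := hP u hu.1 v hv.1
      refine ⟨z, ⟨hz, M.strict hr ?_⟩, e.symm⟩
      rw [← e]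
      exact M.mul_mem_E hu.2 hv.2
  rw [finrank_map_mulLeft (M.alg_ne_zero hr)] at this
  omega

include hpt in
theorem genus_nonneg {r : K[X]} (hr : r.Monic) {P : Ideal B}
    (hrP : algebraMap K[X] B r ∈ P)
    (hP : ∀ u ∈ P, ∀ v ∈ P, ∃ z ∈ P, u * v = algebraMap K[X] B r * z) :
    finrank K (M.E (r.natDegree + 1)) ≤ ci K P + 1 := by
  have h1 := M.h0_le_one hpt hr.ne_zero hP
  have h2 := finrank_inf_add_cd (M.cof_of_mem hr hrP) (S := M.E (r.natDegree + 1))
  unfold ci
  omega

include hpt in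
/-- Clifford -/
theorem clifford {r : K[X]} (hr : r.Monic) (hρ : M.d ≤ r.natDegree) {P I : Ideal B}
    (hrP : algebraMap K[X] B r ∈ P)
    (hP : ∀ u ∈ P, ∀ v ∈ P, ∃ z ∈ P, u * v = algebraMap K[X] B r * z)
    (hI : ∀ u ∈ I, ∀ v ∈ P, ∃ z ∈ I, u * v = algebraMap K[X] B r * z) {n w : ℕ}
    (hn : M.d ≤ n + 1) (hw : 0 < w)
    (hw' : w ≤ finrank K (I.restrictScalars K ⊓ M.E n : Submodule K B)) :
    w + ci K I ≤ finrank K (M.E n) ∨
      2 * w + ci K I + finrank K (M.E (r.natDegree + 1)) ≤ finrank K (M.E n) + ci K P + 2 := by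
  have hd := M.hd
  have hI0 : I ≠ ⊥ := by
    rintro rfl
    rw [restrictScalars_bot, bot_inf_eq, finrank_bot] at hw'
    omega
  obtain ⟨q, hq, hqn, hqI⟩ := M.exists_monic hI0 (n + 2)
  have h1 := M.rr hq (by omega) (n := n) (n' := q.natDegree + M.d - 1 - n) (by omega) hn I hqI
  have hdeg := hr.natDegree_mul hq
  have h2 := M.rr (hr.mul hq) (by omega) (n := r.natDegree + 1) (n' := q.natDegree + M.d - 2)
    (by omega) (by omega) P (by rw [map_mul]; exact P.mul_mem_right _ hrP)
  have h3 := M.h0_le_one hpt hr.ne_zero hP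
  rcases Nat.eq_zero_or_pos (finrank K (((Ideal.span {algebraMap K[X] B q}).colon
    (I : Set B)).restrictScalars K ⊓ M.E (q.natDegree + M.d - 1 - n) : Submodule K B)) with h | h
  · left; omega
  right
  have := hopf' hpt (Z := ((Ideal.span {algebraMap K[X] B (r * q)}).colon
    (P : Set B)).restrictScalars K ⊓ M.E (q.natDegree + M.d - 2)) (hw.trans_le hw') h
    fun u hu v hv => ⟨Submodule.mem_colon.2 fun z hz => by
      obtain ⟨z', hz', e⟩ := hI u hu.1 z hz
      obtain ⟨c, hc⟩ := Ideal.mem_span_singleton.1 (Submodule.mem_colon.1 hv.1 z' hz')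
      rw [smul_eq_mul] at hc ⊢
      refine Ideal.mem_span_singleton.2 ⟨c, ?_⟩
      rw [map_mul, mul_assoc _ _ c, ← hc]
      linear_combination v * e, by
      have := hv.2
      rw [show q.natDegree + M.d - 1 - n = q.natDegree + M.d - 2 - n + 1 by omega] at this
      exact M.E_mono (by omega) (M.mul_mem_E hu.2 this)⟩
  omega

end Model

end Pool.Agent.P.MP_d3e5c7_ag.PA
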