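import Pool.Agent.P.MP_d3e5c7_ag.Eff

/-! Affine versus homogeneous polynomials. -/

set_option autoImplicit false

namespace Pool.Agent.P.MP_d3e5c7_ag

open MvPolynomial

theorem totalDegree_aeval_le {σ τ K : Type*} [CommRing K] (g : σ → MvPolynomial τ K)
    (hg : ∀ k, (g k).totalDegree ≤ 1) (f : MvPolynomial σ K) :
    (aeval g f).totalDegree ≤ f.totalDegree := by
  conv_lhs => rw [f.as_sum, map_sum]
  refine (totalDegree_finsetSum _ _).trans (Finset.sup_le fun α hα => ?_)
  rw [aeval_monomial]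
  refine (totalDegree_mul _ _).trans ?_
  rw [algebraMap_eq, totalDegree_C, zero_add]
  refine (totalDegree_finsetProd _ _).trans ?_
  refine le_trans ?_ (le_totalDegree hα)
  refine Finset.sum_le_sum fun k _ => (totalDegree_pow _ _).trans ?_
  exact (Nat.mul_le_mul_left _ (hg k)).trans (by simp)

section
variable {K : Type*} [CommRing K]

/-- dehomogenisation -/
noncomputable def dh : MvPolynomial (Fin 3) K →ₐ[K] MvPolynomial (Fin 2) K := aeval ![X 0, X 1, 1]

theorem dh_inj {F : MvPolynomial (Fin 3) K} {n : ℕ} (hF : F.IsHomogeneous n) (h : dh F = 0) :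
    F = 0 := by
  have h1 : (aeval (fun b => if b = 2 then (1 : MvPolynomial (Fin 3) K) else X b) :
      MvPolynomial (Fin 3) K →ₐ[K] _) = (aeval ![X 0, X 1]).comp dh := by
    ext k : 1
    fin_cases k <;> simp [dh]
  ext α
  by_cases hα : α.degree = n
  · rw [← coeff_dehom 2 hF hα, h1]; simp [h]
  · exact hF.coeff_eq_zero hα

theorem degree2 (α : Fin 2 →₀ ℕ) : α.degree = α 0 + α 1 := by
  rw [Finsupp.degree_eq_sum, Fin.sum_univ_two]

theorem monomial2 (α : Fin 2 →₀ ℕ) (c : K) :
    monomial α c = C c * (X 0 ^ α 0 * X 1 ^ α 1) := by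
  rw [monomial_eq, Finsupp.prod_fintype _ _ (by simp), Fin.prod_univ_two]

theorem degree_le_totalDegree {σ : Type*} {f : MvPolynomial σ K} {α : σ →₀ ℕ}
    (hα : α ∈ f.support) : α.degree ≤ f.totalDegree := le_totalDegree hα

/-- homogenisation in degree `n` -/
noncomputable def hm (n : ℕ) (f : MvPolynomial (Fin 2) K) : MvPolynomial (Fin 3) K :=
  ∑ α ∈ f.support, C (coeff α f) * (X 0 ^ α 0 * X 1 ^ α 1 * X 2 ^ (n - α 0 - α 1))

theorem hm_hom {n : ℕ} {f : MvPolynomial (Fin 2) K} (hf : f.totalDegree ≤ n) :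
    (hm n f).IsHomogeneous n := by
  apply IsHomogeneous.sum
  intro α hα
  apply IsHomogeneous.C_mul
  have := ((isHomogeneous_X_pow (R := K) (0 : Fin 3) (α 0)).mul
    (isHomogeneous_X_pow (1 : Fin 3) (α 1))).mul (isHomogeneous_X_pow (2 : Fin 3) (n - α 0 - α 1))
  convert this using 1
  have := degree_le_totalDegree hα
  rw [degree2] at this
  omega

theorem dh_hm (n : ℕ) (f : MvPolynomial (Fin 2) K) : dh (hm n f) = f := by
  conv_rhs => rw [f.as_sum]
  rw [hm, map_sum]
  refine Finset.sum_congr rfl fun α _ => ?_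
  rw [monomial2]
  simp [dh]

theorem van_hm (n : ℕ) {f : MvPolynomial (Fin 2) K} {μ : ℤ} (hf : Van 0 μ f) (t : K) :
    Van ![0, 0, t] μ (hm n f) := by
  apply Van.sum
  intro α hα
  apply Van.mul_left
  rw [mul_comm]
  apply Van.mul_left
  refine ((Van.pow (by simp) _).mul (Van.pow (by simp) _)).mono ?_
  by_contra hc
  have := hf α (by rw [degree2]; omega)
  rw [sh_zero] at this
  exact mem_support_iff.1 hα this

theorem totalDegree_sh_le [Nontrivial K] {σ : Type*} (p : σ → K) (f : MvPolynomial σ K) :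
    (sh p f).totalDegree ≤ f.totalDegree := by
  apply totalDegree_aeval_le
  intro k
  refine (totalDegree_add _ _).trans ?_
  simp

theorem totalDegree_dh_le [Nontrivial K] (F : MvPolynomial (Fin 3) K) :
    (dh F).totalDegree ≤ F.totalDegree := by
  apply totalDegree_aeval_le
  intro k
  fin_cases k <;> simp

end

theorem van_hm' {K : Type*} [Field K] {n : ℕ} {f : MvPolynomial (Fin 2) K} (hn : f.totalDegree ≤ n)
    {μ : ℤ} (P : Fin 3 → K) (hP : P 2 ≠ 0) (hf : Van ![P 0 / P 2, P 1 / P 2] μ f) :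
    Van P μ (hm n f) := by
  set q : Fin 2 → K := ![P 0 / P 2, P 1 / P 2] with hq
  let T : Fin 3 → MvPolynomial (Fin 3) K := ![X 0 - C (q 0) * X 2, X 1 - C (q 1) * X 2, X 2]
  have h1 : (aeval T (hm n (sh q f))).IsHomogeneous n := by
    have := (hm_hom ((totalDegree_sh_le q f).trans hn)).aeval T (n := 1) (by
      intro k
      fin_cases k
      · exact (isHomogeneous_X _ _).sub (isHomogeneous_C_mul_X _ _)
      · exact (isHomogeneous_X _ _).sub (isHomogeneous_C_mul_X _ _)
      · exact isHomogeneous_X _ _)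
    simpa using this
  have h2 : (dh : MvPolynomial (Fin 3) K →ₐ[K] _).comp (aeval T) = (sh (-q)).comp dh := by
    ext k : 1
    fin_cases k <;> simp [dh, T, sh, sub_eq_add_neg]
  have h3 : hm n f = aeval T (hm n (sh q f)) := by
    rw [← sub_eq_zero]
    apply dh_inj ((hm_hom hn).sub h1)
    have := congrArg (fun φ : MvPolynomial (Fin 3) K →ₐ[K] MvPolynomial (Fin 2) K =>
      φ (hm n (sh q f))) h2
    simp only [AlgHom.comp_apply] at this
    rw [map_sub, this, dh_hm, dh_hm, sh_neg_sh, sub_self]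
  rw [h3]
  apply Van.comp
  have h4 : Van 0 μ (sh q f) := by
    intro β hβ
    rw [sh_zero]; exact hf β hβ
  convert van_hm n h4 (P 2) using 2 with k
  fin_cases k <;> simp [T, q, hP]

variable {ι : Type}

theorem Eff.affine {d : ℤ} {m : ι → ℤ} (h : Eff d m) (K : Type) [Field K] (p : ι → Fin 2 → K) :
    ∃ f : MvPolynomial (Fin 2) K, f ≠ 0 ∧ (f.totalDegree : ℤ) ≤ d ∧ ∀ i, Van (p i) (m i) f := by
  obtain ⟨F, hF0, hFd, hF⟩ := h.2 K (fun i => ![p i 0, p i 1, 1])
  refine ⟨dh F, fun h0 => hF0 (dh_inj hFd h0), ?_, fun i => ?_⟩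
  · have := (totalDegree_dh_le F).trans hFd.totalDegree_le
    have := h.1
    omega
  · apply Van.comp
    convert hF i using 2 with k
    fin_cases k <;> simp

theorem eff_of_affine [Finite ι] {L : Type} [Field L] [CharZero L] (p : ι → Fin 2 → L)
    (hp : AlgebraicIndependent ℚ (fun ij : ι × Fin 2 => p ij.1 ij.2)) {d : ℤ} {m : ι → ℤ}
    {f : MvPolynomial (Fin 2) L} (hf0 : f ≠ 0) (hfd : (f.totalDegree : ℤ) ≤ d)
    (hf : ∀ i, Van (p i) (m i) f) : Eff d m := by
  classical
  have hd : 0 ≤ d := by omega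
  apply eff_of_generic hd
  let φ : MvPolynomial (ι × Fin 2) ℤ →+* L :=
    (aeval (fun ij : ι × Fin 2 => p ij.1 ij.2) : MvPolynomial (ι × Fin 2) ℚ →ₐ[ℚ] L).toRingHom.comp
      (map (Int.castRingHom ℚ))
  have hφ : Function.Injective φ := by
    intro a b hab
    exact map_injective (Int.castRingHom ℚ) Int.cast_injective (hp hab)
  let x : ι → Fin 3 → FractionRing (GA ι) := fun i k => algebraMap (GA ι) _ (X (i, k))
  let S := (Finsupp.finite_of_degree_le (σ := Fin 2) d.toNat).toFinset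
  obtain ⟨g, hg0, hgS, hg⟩ := special φ hφ
    (eval₂Hom (Int.castRingHom (FractionRing (GA ι)))
      (fun ij : ι × Fin 2 => ![x ij.1 0 / x ij.1 2, x ij.1 1 / x ij.1 2] ij.2)) S
    (fun i k => X (i, k)) m ⟨f, hf0, by
      intro α hα
      have := degree_le_totalDegree hα
      simp only [S, Set.Finite.mem_toFinset, Set.mem_ofPred_eq]
      omega, by simpa [φ] using hf⟩
  have hgd : g.totalDegree ≤ d.toNat := by
    apply Finset.sup_le
    intro α hα
    have := hgS hα
    simp only [S, Set.Finite.mem_toFinset, Set.mem_ofPred_eq] at this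
    exact this
  refine ⟨hm d.toNat g, fun h0 => hg0 (by rw [← dh_hm d.toNat g, h0, map_zero]), hm_hom hgd,
    fun i => ?_⟩
  apply van_hm' hgd (x i)
  · intro h0
    simp [x] at h0
  · simpa using hg i

end Pool.Agent.P.MP_d3e5c7_ag
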