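import Pool.Agent.P.MP_d3e5c7_ag.Rank

/-! Rank computations modulo 127. -/

set_option autoImplicit false

namespace Pool.Agent.P.MP_d3e5c7_ag

theorem ne24 : NE 27 [9, 9, 9, 9, 9, 9, 8, 8, 8, 6, 4] :=
  check_sound 7 25 27 9 9 9
    [(9, 110, 51), (9, 99, 115), (9, 55, 7), (8, 35, 125), (8, 67, 64), (8, 53, 119), (6, 102, 108), (4, 40, 125)]
    (by norm_num) (by norm_num) (by decide +kernel)

theorem ne25 : NE 27 [9, 9, 9, 9, 9, 9, 9, 7, 7, 7, 4] :=
  check_sound 7 25 27 9 9 9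
    [(9, 110, 51), (9, 99, 115), (9, 55, 7), (9, 35, 125), (7, 67, 64), (7, 53, 119), (7, 102, 108), (4, 40, 125)]
    (by norm_num) (by norm_num) (by decide +kernel)

theorem ne26 : NE 27 [9, 9, 9, 9, 9, 9, 9, 9, 7, 4, 4, 1] :=
  check_sound 7 25 27 9 9 9
    [(9, 110, 51), (9, 99, 115), (9, 55, 7), (9, 35, 125), (9, 67, 64), (7, 53, 119), (4, 102, 108), (4, 40, 125), (1, 63, 47)]
    (by norm_num) (by norm_num) (by decide +kernel)

theorem ne27 : NE 27 [9, 9, 9, 9, 9, 9, 9, 9, 8, 4, 1, 1] :=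
  check_sound 7 25 27 9 9 9
    [(9, 110, 51), (9, 99, 115), (9, 55, 7), (9, 35, 125), (9, 67, 64), (8, 53, 119), (4, 102, 108), (1, 40, 125), (1, 63, 47)]
    (by norm_num) (by norm_num) (by decide +kernel)

theorem ne28 : NE 30 [10, 10, 10, 10, 10, 10, 10, 10, 7, 6, 4] :=
  check_sound 7 25 30 10 10 10
    [(10, 110, 51), (10, 99, 115), (10, 55, 7), (10, 35, 125), (10, 67, 64), (7, 53, 119), (6, 102, 108), (4, 40, 125)]
    (by norm_num) (by norm_num) (by decide +kernel)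

theorem ne29 : NE 30 [10, 10, 10, 10, 10, 10, 10, 10, 9, 4, 1, 1, 1, 1] :=
  check_sound 7 25 30 10 10 10
    [(10, 110, 51), (10, 99, 115), (10, 55, 7), (10, 35, 125), (10, 67, 64), (9, 53, 119), (4, 102, 108), (1, 40, 125), (1, 63, 47), (1, 76, 116), (1, 118, 29)]
    (by norm_num) (by norm_num) (by decide +kernel)

theorem ne30 : NE 31 [11, 10, 10, 10, 10, 10, 10, 10, 10, 5, 4] :=
  check_sound 7 25 31 11 10 10
    [(10, 110, 51), (10, 99, 115), (10, 55, 7), (10, 35, 125), (10, 67, 64), (10, 53, 119), (5, 102, 108), (4, 40, 125)]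
    (by norm_num) (by norm_num) (by decide +kernel)

theorem ne31 : NE 33 [11, 11, 11, 11, 11, 11, 11, 11, 9, 5, 4] :=
  check_sound 7 25 33 11 11 11
    [(11, 110, 51), (11, 99, 115), (11, 55, 7), (11, 35, 125), (11, 67, 64), (9, 53, 119), (5, 102, 108), (4, 40, 125)]
    (by norm_num) (by norm_num) (by decide +kernel)


end Pool.Agent.P.MP_d3e5c7_ag
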