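import Pool.Agent.P.MP_d3e5c7_ag.Rank

/-! Rank computations modulo 127. -/

set_option autoImplicit false

namespace Pool.Agent.P.MP_d3e5c7_ag

theorem ne0 : NE 6 [4, 1, 1, 1, 1, 1, 1, 1, 1, 1, 1, 1, 1, 1, 1, 1, 1, 1, 1, 1, 1, 1] :=
  check_sound 7 25 6 4 1 1
    [(1, 110, 51), (1, 99, 115), (1, 55, 7), (1, 35, 125), (1, 67, 64), (1, 53, 119), (1, 102, 108), (1, 40, 125), (1, 63, 47), (1, 76, 116), (1, 118, 29), (1, 66, 19), (1, 38, 19), (1, 98, 14), (1, 81, 104), (1, 34, 118), (1, 70, 92), (1, 105, 79), (1, 117, 20)]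
    (by norm_num) (by norm_num) (by decide +kernel)

theorem ne1 : NE 9 [3, 3, 3, 3, 3, 3, 3, 3, 3, 1] :=
  check_sound 7 25 9 3 3 3
    [(3, 110, 51), (3, 99, 115), (3, 55, 7), (3, 35, 125), (3, 67, 64), (3, 53, 119), (1, 102, 108)]
    (by norm_num) (by norm_num) (by decide +kernel)

theorem ne2 : NE 12 [4, 4, 4, 4, 4, 4, 4, 4, 4, 1] :=
  check_sound 7 25 12 4 4 4
    [(4, 110, 51), (4, 99, 115), (4, 55, 7), (4, 35, 125), (4, 67, 64), (4, 53, 119), (1, 102, 108)]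
    (by norm_num) (by norm_num) (by decide +kernel)

theorem ne3 : NE 13 [5, 4, 4, 4, 4, 4, 4, 4, 4, 4, 1] :=
  check_sound 7 25 13 5 4 4
    [(4, 110, 51), (4, 99, 115), (4, 55, 7), (4, 35, 125), (4, 67, 64), (4, 53, 119), (4, 102, 108), (1, 40, 125)]
    (by norm_num) (by norm_num) (by decide +kernel)

theorem ne4 : NE 14 [5, 5, 4, 4, 4, 4, 4, 4, 4, 4, 4, 1, 1, 1] :=
  check_sound 7 25 14 5 5 4
    [(4, 110, 51), (4, 99, 115), (4, 55, 7), (4, 35, 125), (4, 67, 64), (4, 53, 119), (4, 102, 108), (4, 40, 125), (1, 63, 47), (1, 76, 116), (1, 118, 29)]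
    (by norm_num) (by norm_num) (by decide +kernel)

theorem ne5 : NE 14 [6, 4, 4, 4, 4, 4, 4, 4, 4, 4, 4, 1] :=
  check_sound 7 25 14 6 4 4
    [(4, 110, 51), (4, 99, 115), (4, 55, 7), (4, 35, 125), (4, 67, 64), (4, 53, 119), (4, 102, 108), (4, 40, 125), (1, 63, 47)]
    (by norm_num) (by norm_num) (by decide +kernel)

theorem ne6 : NE 15 [5, 5, 5, 5, 5, 5, 5, 4, 4, 4, 1, 1, 1] :=
  check_sound 7 25 15 5 5 5
    [(5, 110, 51), (5, 99, 115), (5, 55, 7), (5, 35, 125), (4, 67, 64), (4, 53, 119), (4, 102, 108), (1, 40, 125), (1, 63, 47), (1, 76, 116)]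
    (by norm_num) (by norm_num) (by decide +kernel)

theorem ne7 : NE 15 [5, 5, 5, 5, 5, 5, 5, 5, 4, 3, 1] :=
  check_sound 7 25 15 5 5 5
    [(5, 110, 51), (5, 99, 115), (5, 55, 7), (5, 35, 125), (5, 67, 64), (4, 53, 119), (3, 102, 108), (1, 40, 125)]
    (by norm_num) (by norm_num) (by decide +kernel)

theorem ne8 : NE 15 [7, 4, 4, 4, 4, 4, 4, 4, 4, 4, 4, 4, 1] :=
  check_sound 7 25 15 7 4 4
    [(4, 110, 51), (4, 99, 115), (4, 55, 7), (4, 35, 125), (4, 67, 64), (4, 53, 119), (4, 102, 108), (4, 40, 125), (4, 63, 47), (1, 76, 116)]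
    (by norm_num) (by norm_num) (by decide +kernel)

theorem ne9 : NE 16 [5, 5, 5, 5, 5, 5, 5, 5, 5, 4, 4] :=
  check_sound 7 25 16 5 5 5
    [(5, 110, 51), (5, 99, 115), (5, 55, 7), (5, 35, 125), (5, 67, 64), (5, 53, 119), (4, 102, 108), (4, 40, 125)]
    (by norm_num) (by norm_num) (by decide +kernel)

theorem ne10 : NE 16 [6, 5, 5, 5, 5, 5, 4, 4, 4, 4, 4, 4] :=
  check_sound 7 25 16 6 5 5
    [(5, 110, 51), (5, 99, 115), (5, 55, 7), (4, 35, 125), (4, 67, 64), (4, 53, 119), (4, 102, 108), (4, 40, 125), (4, 63, 47)]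
    (by norm_num) (by norm_num) (by decide +kernel)

theorem ne11 : NE 16 [6, 5, 5, 5, 5, 5, 5, 5, 5, 4, 1, 1, 1, 1, 1] :=
  check_sound 7 25 16 6 5 5
    [(5, 110, 51), (5, 99, 115), (5, 55, 7), (5, 35, 125), (5, 67, 64), (5, 53, 119), (4, 102, 108), (1, 40, 125), (1, 63, 47), (1, 76, 116), (1, 118, 29), (1, 66, 19)]
    (by norm_num) (by norm_num) (by decide +kernel)

theorem ne12 : NE 17 [6, 6, 5, 5, 5, 5, 5, 5, 5, 5, 4, 1, 1] :=
  check_sound 7 25 17 6 6 5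
    [(5, 110, 51), (5, 99, 115), (5, 55, 7), (5, 35, 125), (5, 67, 64), (5, 53, 119), (5, 102, 108), (4, 40, 125), (1, 63, 47), (1, 76, 116)]
    (by norm_num) (by norm_num) (by decide +kernel)

theorem ne13 : NE 17 [7, 5, 5, 5, 5, 5, 5, 5, 5, 5, 4] :=
  check_sound 7 25 17 7 5 5
    [(5, 110, 51), (5, 99, 115), (5, 55, 7), (5, 35, 125), (5, 67, 64), (5, 53, 119), (5, 102, 108), (4, 40, 125)]
    (by norm_num) (by norm_num) (by decide +kernel)

theorem ne14 : NE 18 [6, 6, 6, 6, 6, 6, 5, 5, 5, 4, 4, 1, 1] :=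
  check_sound 7 25 18 6 6 6
    [(6, 110, 51), (6, 99, 115), (6, 55, 7), (5, 35, 125), (5, 67, 64), (5, 53, 119), (4, 102, 108), (4, 40, 125), (1, 63, 47), (1, 76, 116)]
    (by norm_num) (by norm_num) (by decide +kernel)

theorem ne15 : NE 18 [6, 6, 6, 6, 6, 6, 6, 5, 4, 4, 4] :=
  check_sound 7 25 18 6 6 6
    [(6, 110, 51), (6, 99, 115), (6, 55, 7), (6, 35, 125), (5, 67, 64), (4, 53, 119), (4, 102, 108), (4, 40, 125)]
    (by norm_num) (by norm_num) (by decide +kernel)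

theorem ne16 : NE 18 [6, 6, 6, 6, 6, 6, 6, 6, 4, 4, 1, 1, 1, 1, 1] :=
  check_sound 7 25 18 6 6 6
    [(6, 110, 51), (6, 99, 115), (6, 55, 7), (6, 35, 125), (6, 67, 64), (4, 53, 119), (4, 102, 108), (1, 40, 125), (1, 63, 47), (1, 76, 116), (1, 118, 29), (1, 66, 19)]
    (by norm_num) (by norm_num) (by decide +kernel)

theorem ne17 : NE 21 [7, 7, 7, 7, 7, 6, 6, 6, 6, 6, 4, 1] :=
  check_sound 7 25 21 7 7 7
    [(7, 110, 51), (7, 99, 115), (6, 55, 7), (6, 35, 125), (6, 67, 64), (6, 53, 119), (6, 102, 108), (4, 40, 125), (1, 63, 47)]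
    (by norm_num) (by norm_num) (by decide +kernel)

theorem ne18 : NE 21 [7, 7, 7, 7, 7, 7, 7, 7, 4, 4, 4, 1, 1] :=
  check_sound 7 25 21 7 7 7
    [(7, 110, 51), (7, 99, 115), (7, 55, 7), (7, 35, 125), (7, 67, 64), (4, 53, 119), (4, 102, 108), (4, 40, 125), (1, 63, 47), (1, 76, 116)]
    (by norm_num) (by norm_num) (by decide +kernel)

theorem ne19 : NE 22 [8, 7, 7, 7, 7, 7, 7, 7, 6, 5, 4, 1] :=
  check_sound 7 25 22 8 7 7
    [(7, 110, 51), (7, 99, 115), (7, 55, 7), (7, 35, 125), (7, 67, 64), (6, 53, 119), (5, 102, 108), (4, 40, 125), (1, 63, 47)]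
    (by norm_num) (by norm_num) (by decide +kernel)

theorem ne20 : NE 24 [8, 8, 8, 8, 8, 8, 8, 8, 7, 4] :=
  check_sound 7 25 24 8 8 8
    [(8, 110, 51), (8, 99, 115), (8, 55, 7), (8, 35, 125), (8, 67, 64), (7, 53, 119), (4, 102, 108)]
    (by norm_num) (by norm_num) (by decide +kernel)

theorem ne21 : NE 25 [8, 8, 8, 8, 8, 8, 8, 8, 7, 7, 4] :=
  check_sound 7 25 25 8 8 8
    [(8, 110, 51), (8, 99, 115), (8, 55, 7), (8, 35, 125), (8, 67, 64), (7, 53, 119), (7, 102, 108), (4, 40, 125)]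
    (by norm_num) (by norm_num) (by decide +kernel)

theorem ne22 : NE 25 [9, 8, 8, 8, 8, 8, 8, 8, 8, 4, 4, 1] :=
  check_sound 7 25 25 9 8 8
    [(8, 110, 51), (8, 99, 115), (8, 55, 7), (8, 35, 125), (8, 67, 64), (8, 53, 119), (4, 102, 108), (4, 40, 125), (1, 63, 47)]
    (by norm_num) (by norm_num) (by decide +kernel)

theorem ne23 : NE 26 [10, 8, 8, 8, 8, 8, 8, 8, 8, 7, 4] :=
  check_sound 7 25 26 10 8 8
    [(8, 110, 51), (8, 99, 115), (8, 55, 7), (8, 35, 125), (8, 67, 64), (8, 53, 119), (7, 102, 108), (4, 40, 125)]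
    (by norm_num) (by norm_num) (by decide +kernel)


end Pool.Agent.P.MP_d3e5c7_ag
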