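import Pool.Agent.P.MP_d3e5c7_ag.Aff
import Pool.Agent.P.MP_d3e5c7_ag.AMain

/-! Numerical classes that behave like irreducible negative curves. -/

set_option autoImplicit false

namespace Pool.Agent.P.MP_d3e5c7_ag

open MvPolynomial

variable {ι : Type} [Fintype ι]

/-- intersection number -/
def dot (d : ℤ) (m : ι → ℤ) (e : ℤ) (n : ι → ℤ) : ℤ := d * e - ∑ i, m i * n i

/-- classes which behave like an irreducible curve of negative square -/
def Neg (d : ℤ) (m : ι → ℤ) : Prop :=
  Eff d m ∧ dot d m d m < 0 ∧ ∀ e n, Eff e n → 0 ≤ dot d m e n ∨ Eff (e - d) (n - m)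

/-- numerical exceptional classes -/
def IsExc (d : ℤ) (m : ι → ℤ) : Prop := dot d m d m = -1 ∧ 3 * d - ∑ i, m i = 1

section cremona
variable [DecidableEq ι] (t : Fin 3 → ι)

/-- degree change -/
def ck (d : ℤ) (m : ι → ℤ) : ℤ := d - (m (t 0) + m (t 1) + m (t 2))

/-- indicator of the three centres -/
def ind : ι → ℤ := Pi.single (t 0) 1 + Pi.single (t 1) 1 + Pi.single (t 2) 1

/-- new multiplicities -/
def cm (d : ℤ) (m : ι → ℤ) : ι → ℤ := fun i => m i + ck t d m * ind t i

variable {t}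

omit [Fintype ι] in
theorem ind_t (ht : Function.Injective t) (a : Fin 3) : ind t (t a) = 1 := by
  fin_cases a <;> simp [ind, ht.eq_iff]

omit [Fintype ι] in
theorem ind_off {l : ι} (hl : ∀ a, t a ≠ l) : ind t l = 0 := by
  simp [ind, (hl _).symm]

theorem sum_mul_ind (n : ι → ℤ) : ∑ i, n i * ind t i = n (t 0) + n (t 1) + n (t 2) := by
  simp [ind, mul_add, Finset.sum_add_distrib, Pi.single_apply]

theorem Eff.cm {d : ℤ} {m : ι → ℤ} (h : Eff d m) (ht : Function.Injective t) :
    Eff (d + ck t d m) (cm t d m) :=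
  h.cremona t ht (fun a => by simp [MP_d3e5c7_ag.cm, ind_t ht, ck])
    (fun l hl => by simp [MP_d3e5c7_ag.cm, ind_off hl])

omit [Fintype ι] in
theorem ck_cm (ht : Function.Injective t) (d : ℤ) (m : ι → ℤ) :
    ck t (d + ck t d m) (cm t d m) = -ck t d m := by
  simp only [cm, ind_t ht, ck]; ring

theorem dot_cm (ht : Function.Injective t) (d : ℤ) (m : ι → ℤ) (e : ℤ) (n : ι → ℤ) :
    dot (d + ck t d m) (cm t d m) (e + ck t e n) (cm t e n) = dot d m e n := by
  have h1 : ∀ i, cm t d m i * cm t e n i = m i * n i + ck t e n * (m i * ind t i) +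
      ck t d m * (n i * ind t i) + ck t d m * ck t e n * (ind t i * ind t i) := by
    intro i; simp only [cm]; ring
  simp only [dot, h1, Finset.sum_add_distrib, ← Finset.mul_sum, sum_mul_ind, ind_t ht, ck]
  ring

theorem can_cm (d : ℤ) (m : ι → ℤ) :
    3 * (d + ck t d m) - ∑ i, cm t d m i = 3 * d - ∑ i, m i := by
  have := sum_mul_ind (t := t) (fun _ => 1)
  simp only [one_mul] at this
  simp only [cm, Finset.sum_add_distrib, ← Finset.mul_sum, this]
  ring

theorem Neg.cm {d : ℤ} {m : ι → ℤ} (h : Neg d m) (ht : Function.Injective t) :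
    Neg (d + ck t d m) (cm t d m) := by
  refine ⟨h.1.cm ht, by rw [dot_cm ht]; exact h.2.1, fun e n hen => ?_⟩
  have e1 : e + ck t e n + ck t (e + ck t e n) (MP_d3e5c7_ag.cm t e n) = e := by
    rw [ck_cm ht]; ring
  have e2 : MP_d3e5c7_ag.cm t (e + ck t e n) (MP_d3e5c7_ag.cm t e n) = n := by
    ext i
    rw [MP_d3e5c7_ag.cm, ck_cm ht, MP_d3e5c7_ag.cm]; ring
  rcases h.2.2 _ _ (hen.cm ht) with h1 | h1
  · left
    rwa [← dot_cm ht, e1, e2] at h1
  · right
    have h2 := h1.cm ht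
    have e3 : ck t (e + ck t e n - d) (MP_d3e5c7_ag.cm t e n - m) = -ck t e n - ck t d m := by
      rw [← ck_cm ht e n]; simp only [ck, Pi.sub_apply]; ring
    convert h2 using 1
    · rw [e3]; ring
    · ext i
      rw [MP_d3e5c7_ag.cm, e3]
      simp only [Pi.sub_apply, MP_d3e5c7_ag.cm]; ring

end cremona

theorem Neg.nonneg {d : ℤ} {m : ι → ℤ} (h : Neg d m) (hx : ¬ IsExc d m) (i : ι) : 0 ≤ m i := by
  classical
  by_contra hc
  have hE : Eff 0 (-Pi.single i 1 : ι → ℤ) := eff_of_nonpos le_rfl (by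
    intro l; by_cases hl : l = i
    · subst hl; simp
    · simp [hl])
  rcases h.2.2 _ _ hE with h1 | h1
  · simp [dot, Pi.single_apply] at h1
    omega
  · have h2 := h1.1
    have h3 := h.1.1
    have hd : d = 0 := by omega
    subst hd
    have h4 : m = -Pi.single i 1 := by
      ext l
      have h5 := h1.le l
      have h6 := h.1.le l
      by_cases hl : l = i
      · subst hl; simp at h5 ⊢; omega
      · simp [hl] at h5 ⊢; omega
    apply hx
    subst h4
    constructor
    · simp [dot, Pi.single_apply]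
    · simp

theorem Van.mono_toNat {σ K : Type*} [CommRing K] {p : σ → K} {n : ℤ} {f : MvPolynomial σ K}
    (h : Van p n f) : Van p (n.toNat : ℕ) f := fun β hβ => h β (by omega)

omit [Fintype ι] in
theorem gen_injective {L : Type} [Field L] [CharZero L] (p : ι → Fin 2 → L)
    (hp : AlgebraicIndependent ℚ (fun ij : ι × Fin 2 => p ij.1 ij.2)) : Function.Injective p := by
  intro i j hij
  have := hp.injective (a₁ := (i, 0)) (a₂ := (j, 0)) (by simp [hij])
  simpa using this

theorem neg_of_irred {L : Type} [Field L] [IsAlgClosed L] [CharZero L] (p : ι → Fin 2 → L)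
    (hp : AlgebraicIndependent ℚ (fun ij : ι × Fin 2 => p ij.1 ij.2))
    {f : MvPolynomial (Fin 2) L} (hf : Irreducible f)
    (hneg : dot (f.totalDegree : ℤ) (fun i => (ordN (p i) f : ℤ)) f.totalDegree
      (fun i => (ordN (p i) f : ℤ)) < 0) :
    Neg (f.totalDegree : ℤ) (fun i => (ordN (p i) f : ℤ)) := by
  have hf0 := hf.ne_zero
  refine ⟨eff_of_affine p hp hf0 le_rfl (fun i => (van_iff_le_ordN _ hf0 _).2 le_rfl), hneg,
    fun e n hen => ?_⟩
  obtain ⟨g, hg0, hge, hg⟩ := hen.affine L p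
  by_cases hfg : f ∣ g
  · right
    obtain ⟨h, rfl⟩ := hfg
    have hh0 : h ≠ 0 := right_ne_zero_of_mul hg0
    refine eff_of_affine p hp hh0 ?_ (fun i => ?_)
    · rw [totalDegree_mul_of_isDomain hf0 hh0] at hge
      omega
    · have := (van_iff_le_ordN _ hg0 _).1 (hg i)
      rw [ordN_mul _ hf0 hh0] at this
      rw [van_iff_le_ordN _ hh0]
      simp only [Pi.sub_apply]
      omega
  · left
    have := A_bezout p (gen_injective p hp) f g hf hfg f.totalDegree e.toNat rfl (by omega)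
      (fun i => ordN (p i) f) (fun i => (n i).toNat)
      (fun i => (van_iff_hc _ _ _).1 ((van_iff_le_ordN _ hf0 _).2 le_rfl))
      (fun i => (van_iff_hc _ _ _).1 ((hg i).mono_toNat))
    have h2 : ∑ i, (ordN (p i) f : ℤ) * n i ≤ ∑ i, ((ordN (p i) f * (n i).toNat : ℕ) : ℤ) := by
      refine Finset.sum_le_sum fun i _ => ?_
      push_cast
      exact mul_le_mul_of_nonneg_left (by omega) (by omega)
    have h3 : ((∑ i, ordN (p i) f * (n i).toNat : ℕ) : ℤ) ≤ (f.totalDegree * e.toNat : ℕ) := by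
      exact_mod_cast this
    have h4 : (e.toNat : ℤ) = e := by have := hen.1; omega
    rw [Nat.cast_sum, Nat.cast_mul, h4] at h3
    simp only [dot]
    omega

/-- the field of definition of the generic configuration -/
abbrev GL0 (ι : Type) := AlgebraicClosure (FractionRing (MvPolynomial (ι × Fin 2) ℚ))

/-- the generic configuration -/
noncomputable def gp (ι : Type) : ι → Fin 2 → GL0 ι := fun i k =>
  algebraMap (MvPolynomial (ι × Fin 2) ℚ) _ (X (i, k))

omit [Fintype ι] in
theorem gp_indep : AlgebraicIndependent ℚ (fun ij : ι × Fin 2 => gp ι ij.1 ij.2) := by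
  have h1 : Function.Injective (algebraMap (MvPolynomial (ι × Fin 2) ℚ) (GL0 ι)) := by
    rw [IsScalarTower.algebraMap_eq _ (FractionRing (MvPolynomial (ι × Fin 2) ℚ)) _]
    exact (algebraMap (FractionRing (MvPolynomial (ι × Fin 2) ℚ)) (GL0 ι)).injective.comp
      (IsFractionRing.injective _ _)
  exact (MvPolynomial.algebraicIndependent_X (ι × Fin 2) ℚ).map'
    (f := (algebraMap (MvPolynomial (ι × Fin 2) ℚ) (GL0 ι)).toRatAlgHom) h1

theorem exists_irred_factor {L : Type} [Field L] (p : ι → Fin 2 → L) (d : ℤ) (m : ι → ℤ)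
    (g : MvPolynomial (Fin 2) L) (hg : g ≠ 0)
    (hneg : dot d m g.totalDegree (fun i => ordN (p i) g) < 0) :
    ∃ q, Irreducible q ∧ q ∣ g ∧ dot d m q.totalDegree (fun i => ordN (p i) q) < 0 := by
  have hadd : ∀ a b : MvPolynomial (Fin 2) L, a ≠ 0 → b ≠ 0 →
      dot d m (a * b).totalDegree (fun i => ordN (p i) (a * b)) =
      dot d m a.totalDegree (fun i => ordN (p i) a) +
        dot d m b.totalDegree (fun i => ordN (p i) b) := by
    intro a b ha hb
    simp only [dot, totalDegree_mul_of_isDomain ha hb, ordN_mul _ ha hb, Nat.cast_add, mul_add,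
      Finset.sum_add_distrib]
    ring
  induction g using WfDvdMonoid.induction_on_irreducible with
  | zero => exact absurd rfl hg
  | unit u hu =>
    exfalso
    obtain ⟨v, hv⟩ := hu.exists_right_inv
    have hv0 : v ≠ 0 := right_ne_zero_of_mul (hv ▸ one_ne_zero)
    have h1 : u.totalDegree = 0 := by
      have := totalDegree_mul_of_isDomain hg hv0
      rw [hv, totalDegree_one] at this
      omega
    have h2 : ∀ i, ordN (p i) u = 0 := by
      intro i
      have h3 := ordN_mul (p i) hg hv0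
      have h4 := ordN_mul (p i) (one_ne_zero (α := MvPolynomial (Fin 2) L)) one_ne_zero
      rw [hv] at h3
      rw [mul_one] at h4
      omega
    simp [dot, h1, h2] at hneg
  | mul a q ha hq ih =>
    rw [hadd q a hq.ne_zero ha] at hneg
    by_cases h1 : dot d m q.totalDegree (fun i => ordN (p i) q) < 0
    · exact ⟨q, hq, dvd_mul_right _ _, h1⟩
    · obtain ⟨r, hr, hr1, hr2⟩ := ih ha (by omega)
      exact ⟨r, hr, hr1.mul_left _, hr2⟩

theorem irred_of_neg {d : ℤ} {m : ι → ℤ} (h : Neg d m) (hx : ¬ IsExc d m) :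
    ∃ q : MvPolynomial (Fin 2) (GL0 ι), Irreducible q ∧ (q.totalDegree : ℤ) = d ∧
      ∀ i, (ordN (gp ι i) q : ℤ) = m i := by
  obtain ⟨f, hf0, hfd, hf⟩ := h.1.affine (GL0 ι) (gp ι)
  have hf' : ∀ i, m i ≤ ordN (gp ι i) f := fun i => (van_iff_le_ordN _ hf0 _).1 (hf i)
  obtain ⟨q, hq, ⟨r, rfl⟩, hneg⟩ := exists_irred_factor (gp ι) d m f hf0 (by
    refine lt_of_le_of_lt ?_ h.2.1
    simp only [dot]
    have h1 : d * f.totalDegree ≤ d * d := mul_le_mul_of_nonneg_left hfd h.1.1
    have h2 : ∑ i, m i * m i ≤ ∑ i, m i * ordN (gp ι i) f :=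
      Finset.sum_le_sum fun i _ => mul_le_mul_of_nonneg_left (hf' i) (h.nonneg hx i)
    omega)
  have hq0 := hq.ne_zero
  have hr0 : r ≠ 0 := right_ne_zero_of_mul hf0
  have e1 : Eff (q.totalDegree : ℤ) (fun i => (ordN (gp ι i) q : ℤ)) :=
    eff_of_affine _ gp_indep hq0 le_rfl (fun i => (van_iff_le_ordN _ hq0 _).2 le_rfl)
  rcases h.2.2 _ _ e1 with h1 | h1
  · omega
  rw [totalDegree_mul_of_isDomain hq0 hr0] at hfd
  have h2 := h1.1
  have h3 : (q.totalDegree : ℤ) = d := by omega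
  have h4 : r.totalDegree = 0 := by omega
  refine ⟨q, hq, h3, fun i => ?_⟩
  have h5 := h1.le i
  have h6 := hf' i
  rw [ordN_mul _ hq0 hr0] at h6
  have e2 : Eff (r.totalDegree : ℤ) (fun i => (ordN (gp ι i) r : ℤ)) :=
    eff_of_affine _ gp_indep hr0 le_rfl (fun i => (van_iff_le_ordN _ hr0 _).2 le_rfl)
  have h7 := e2.le i
  simp only [Pi.sub_apply] at h5
  omega

/-- the geometric bounds for classes -/
theorem Neg.bound {s : ℕ} {d : ℤ} {m : Fin s → ℤ} (h : Neg d m) (hx : ¬ IsExc d m) (a b : ℤ)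
    (ha : a = -dot d m d m) (hb : b = ∑ i, m i - 3 * d) (i : Fin s) :
    0 < a ∧ a - 2 ≤ b ∧ m i ≠ 2 ∧ (m i = 3 → b + 3 * a ≤ 6) ∧ (m i = 4 → b + 3 * a ≤ 10) := by
  obtain ⟨q, hq, hd, hm⟩ := irred_of_neg h hx
  have ha0 : 0 < a := by have := h.2.1; omega
  have e1 : a = ∑ i, ((ordN (gp (Fin s) i) q : ℕ) : ℤ) ^ 2 - (q.totalDegree : ℤ) ^ 2 := by
    simp only [hm, hd, ha, dot, sq]; ring
  have e2 : b - a + 2 = ((q.totalDegree : ℤ) - 1) * (q.totalDegree - 2) -
      ∑ i, ((ordN (gp (Fin s) i) q : ℕ) : ℤ) * (ordN (gp (Fin s) i) q - 1) := by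
    simp only [hm, hd, ha, hb, dot, mul_sub, Finset.sum_sub_distrib, mul_one]; ring
  have := A_main (gp (Fin s)) gp_indep q hq _ rfl (fun i => ordN (gp (Fin s) i) q)
    (fun i => (ordN_eq_iff _ hq.ne_zero _).1 rfl) a (b - a + 2) e1 ha0 e2 i
  obtain ⟨h0, h2, h3, h4⟩ := this
  have h5 := hm i
  refine ⟨ha0, by omega, fun h6 => hx ?_, fun h6 => ?_, fun h6 => ?_⟩
  · obtain ⟨h7, h8⟩ := h2 (by omega)
    constructor <;> omega
  · have := h3 (by omega); omega
  · have := h4 (by omega); omega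

end Pool.Agent.P.MP_d3e5c7_ag
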