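import Pool.Agent.P.MP_d3e5c7_ag.Rank
import Pool.Agent.P.MP_d3e5c7_ag.Neg

/-! Effective classes given by lists, the reduction checker and the enumeration. -/

set_option autoImplicit false

namespace Pool.Agent.P.MP_d3e5c7_ag

/-- possible counterexample given by a list of multiplicities -/
def EffL (d : ℕ) (l : List ℕ) : Prop :=
  ∃ (ι : Type) (_ : Fintype ι) (m : ι → ℕ) (L : List ι), L.Nodup ∧ L.map m = l ∧
    Neg (d : ℤ) (fun i => (m i : ℤ)) ∧ ¬ IsExc (d : ℤ) (fun i => (m i : ℤ))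

theorem EffL.perm {d : ℕ} {l l' : List ℕ} (h : EffL d l) (hp : l.Perm l') : EffL d l' := by
  obtain ⟨ι, _, m, L, h1, rfl, h3⟩ := h
  have h4 : Relation.Comp (· = List.map m ·) (List.Perm · ·) l' L := by
    rw [List.eq_map_comp_perm]; exact hp.symm
  obtain ⟨L', h5, h6⟩ := h4
  exact ⟨ι, inferInstance, m, L', h6.symm.nodup h1, h5.symm, h3⟩

theorem isExc_cm {ι : Type} [Fintype ι] [DecidableEq ι] {t : Fin 3 → ι} (ht : Function.Injective t)
    (d : ℤ) (m : ι → ℤ) : IsExc (d + ck t d m) (cm t d m) ↔ IsExc d m := by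
  rw [IsExc, IsExc, dot_cm ht, can_cm]

theorem EffL.crem {d x y z : ℕ} {r : List ℕ} (h : EffL d (x :: y :: z :: r)) :
    x + y ≤ d ∧
      EffL (2 * d - (x + y + z)) ((d - (y + z)) :: (d - (x + z)) :: (d - (x + y)) :: r) := by
  classical
  obtain ⟨ι, _, m, L, h1, h2, h3, hx⟩ := h
  obtain _ | ⟨i, _ | ⟨j, _ | ⟨k, L⟩⟩⟩ := L <;> simp only [List.map_cons, List.map_nil, reduceCtorEq,
    List.cons.injEq, and_false] at h2
  obtain ⟨rfl, rfl, rfl, rfl⟩ := h2
  simp only [List.nodup_cons, List.mem_cons, not_or] at h1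
  obtain ⟨⟨hij, hik, hiL⟩, ⟨hjk, hjL⟩, hkL, hL⟩ := h1
  have ht : Function.Injective ![i, j, k] := by
    intro a b hab
    fin_cases a <;> fin_cases b <;> simp_all
  have h4 := h3.cm ht
  rw [← isExc_cm ht] at hx
  have h5 := h4.1.1
  have h6 := h4.nonneg hx
  have e : ∀ a, cm ![i, j, k] d (fun i => (m i : ℤ)) (![i, j, k] a) =
      m (![i, j, k] a) + ck ![i, j, k] d (fun i => (m i : ℤ)) := by
    intro a; rw [cm, ind_t ht, mul_one]
  have ec : ck ![i, j, k] d (fun i => (m i : ℤ)) = d - (m i + m j + m k) := rfl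
  have e0 := e 0
  have e1 := e 1
  have e2 := e 2
  have g0 := h6 i
  have g1 := h6 j
  have g2 := h6 k
  simp only [Matrix.cons_val_zero, Matrix.cons_val_one, Matrix.cons_val] at e0 e1 e2
  have hd : ((2 * d - (m i + m j + m k) : ℕ) : ℤ) = d + ck ![i, j, k] d (fun i => (m i : ℤ)) := by
    omega
  have hm : (fun l => (((cm ![i, j, k] d (fun i => (m i : ℤ)) l).toNat : ℕ) : ℤ)) =
      cm ![i, j, k] d (fun i => (m i : ℤ)) := by
    ext l; exact Int.toNat_of_nonneg (h6 l)
  refine ⟨by omega, ι, inferInstance, fun l => (cm ![i, j, k] d (fun i => (m i : ℤ)) l).toNat,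
    i :: j :: k :: L, by simp [*], ?_, by rwa [hd, hm], by rwa [hd, hm]⟩
  simp only [List.map_cons, List.cons.injEq]
  refine ⟨by omega, by omega, by omega, List.map_congr_left fun l hl => ?_⟩
  rw [cm, ind_off]
  · simp
  · intro a
    fin_cases a <;> rintro rfl <;> contradiction

theorem EffL.nat {d : ℕ} {l : List ℕ} (h : EffL d l) :
    Eff (ι := ℕ) (d : ℤ) (fun n => (l.getD n 0 : ℕ)) := by
  classical
  obtain ⟨ι, _, m, L, h1, rfl, ⟨h3, -⟩, -⟩ := h
  refine ⟨h3.1, fun K _ P => ?_⟩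
  obtain ⟨F, hF0, hFd, hF⟩ := h3.2 K (fun i => P (L.idxOf i))
  refine ⟨F, hF0, hFd, fun n => ?_⟩
  by_cases hn : n < L.length
  · have := hF L[n]
    rw [h1.idxOf_getElem] at this
    simp only
    rw [List.getD_eq_getElem _ _ (show n < (L.map m).length by simpa using hn), List.getElem_map]
    exact this
  · apply van_of_nonpos
    simp only
    rw [List.getD_eq_default _ _ (show (L.map m).length ≤ n by simpa using hn)]
    simp

/-- domination of multiplicity lists -/
def dom : List ℕ → List ℕ → Bool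
  | [], _ => true
  | a :: as, [] => Nat.beq a 0 && dom as []
  | a :: as, b :: bs => Nat.ble a b && dom as bs

theorem dom_true {l l' : List ℕ} (h : dom l l' = true) (n : ℕ) : l.getD n 0 ≤ l'.getD n 0 := by
  induction l generalizing l' n with
  | nil => simp
  | cons a l ih =>
    cases l' with
    | nil =>
      simp only [dom, Bool.and_eq_true, Nat.beq_eq] at h
      cases n with
      | zero => simp [h.1]
      | succ n => simpa using ih h.2 n
    | cons b l' =>
      simp only [dom, Bool.and_eq_true, Nat.ble_eq] at h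
      cases n with
      | zero => simp [h.1]
      | succ n => simpa using ih h.2 n

/-- reduce by quadratic transformations and compare with the base classes -/
def bad (base : List (ℕ × List ℕ)) : ℕ → ℕ → List ℕ → Bool
  | 0, _, _ => false
  | f + 1, d, l =>
    match l.insertionSort (· ≥ ·) with
    | x :: y :: z :: r =>
      if d < x + y + z then
        (decide (d < x + y) ||
          bad base f (2 * d - (x + y + z)) ((d - (y + z)) :: (d - (x + z)) :: (d - (x + y)) :: r))
      else base.any fun b => Nat.ble d b.1 && dom b.2 (x :: y :: z :: r)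
    | _ => false

theorem bad_true {base : List (ℕ × List ℕ)} (hb : ∀ b ∈ base, NE b.1 b.2) (f d : ℕ) (l : List ℕ)
    (h : bad base f d l = true) : ¬ EffL d l := by
  induction f generalizing d l with
  | zero => simp [bad] at h
  | succ f ih =>
    intro hE
    have h1 := hE.perm (List.perm_insertionSort (· ≥ ·) l).symm
    rw [bad] at h
    split at h
    · rename_i x y z r heq
      rw [heq] at h1
      split_ifs at h with h2
      · obtain ⟨h3, h4⟩ := h1.crem
        simp only [Bool.or_eq_true, decide_eq_true_eq] at h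
        rcases h with h | h
        · omega
        · exact ih _ _ h h4
      · simp only [List.any_eq_true, Bool.and_eq_true, Nat.ble_eq] at h
        obtain ⟨b, h3, h4, h5⟩ := h
        exact hb b h3 (h1.nat.mono id Function.injective_id
          (fun n => by simpa using dom_true h5 n) (by exact_mod_cast h4))
    · simp at h

/-- sum of squares -/
def sq2 (l : List ℕ) : ℕ := (l.map fun x => x * x).sum

/-- search through all decreasing lists with given sum and sum of squares -/
def search (μ : ℕ) (chk : List ℕ → Bool) : ℕ → ℕ → ℕ → ℕ → List ℕ → Bool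
  | 0, _, _, _, _ => false
  | f + 1, mx, S, Q, acc =>
    if S = 0 then (decide (Q ≠ 0) || chk acc)
    else if mx = 0 ∨ mx * S < Q ∨ Q < S then true
    else (decide ((1 < mx ∧ mx < μ) ∨ S < mx ∨ Q < mx * mx) ||
        search μ chk f mx (S - mx) (Q - mx * mx) (mx :: acc)) &&
      search μ chk f (mx - 1) S Q acc

theorem sq2_le {r : List ℕ} {mx : ℕ} (h : ∀ x ∈ r, x ≤ mx) : sq2 r ≤ mx * r.sum := by
  induction r with
  | nil => simp [sq2]
  | cons x r ih =>
    have h1 := ih (fun y hy => h y (List.mem_cons_of_mem _ hy))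
    have h2 := Nat.mul_le_mul_right x (h x List.mem_cons_self)
    simp only [sq2, List.map_cons, List.sum_cons, mul_add] at h1 ⊢
    omega

theorem le_sq2 (r : List ℕ) : r.sum ≤ sq2 r := by
  induction r with
  | nil => simp [sq2]
  | cons x r ih =>
    have h2 := Nat.le_mul_self x
    simp only [sq2, List.map_cons, List.sum_cons] at ih ⊢
    omega

theorem sq2_le_sq (r : List ℕ) : sq2 r ≤ r.sum * r.sum :=
  sq2_le fun _ hx => List.single_le_sum (by simp) _ hx

theorem search_true {μ : ℕ} {chk : List ℕ → Bool} {P : List ℕ → Prop}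
    (hP : ∀ l l', l.Perm l' → P l → P l') (hc : ∀ l, chk l = true → P l) (f mx S Q : ℕ)
    (acc : List ℕ) (h : search μ chk f mx S Q acc = true) (r : List ℕ)
    (h1 : r.Pairwise (· ≥ ·)) (h2 : ∀ x ∈ r, x ≤ mx ∧ (x = 1 ∨ μ ≤ x) ∧ 0 < x) (h3 : r.sum = S)
    (h4 : sq2 r = Q) : P (r ++ acc) := by
  induction f generalizing mx S Q acc r with
  | zero => simp [search] at h
  | succ f ih =>
    rw [search] at h
    have h5 := sq2_le (fun x hx => (h2 x hx).1)
    have h6 := le_sq2 r
    split_ifs at h with h7 h8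
    · obtain _ | ⟨x, r⟩ := r
      · simp only [sq2, List.map_nil, List.sum_nil] at h4
        simp only [← h4, ne_eq, not_true_eq_false, decide_false, Bool.false_or] at h
        exact hc _ h
      · have := (h2 x List.mem_cons_self).2.2
        simp only [List.sum_cons] at h3
        omega
    · exfalso
      rw [h3, h4] at h5
      rcases h8 with h8 | h8 | h8
      · subst h8; omega
      · omega
      · omega
    · simp only [Bool.and_eq_true, Bool.or_eq_true, decide_eq_true_eq] at h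
      obtain _ | ⟨x, r⟩ := r
      · simp at h3; omega
      obtain ⟨h9, h10⟩ := List.pairwise_cons.1 h1
      have h11 := h2 x List.mem_cons_self
      by_cases hx : x = mx
      · subst hx
        simp only [sq2, List.map_cons, List.sum_cons] at h3 h4
        rcases h.1 with h12 | h12
        · omega
        · refine hP _ _ List.perm_middle (ih _ _ _ _ h12 r h10
            (fun y hy => h2 y (List.mem_cons_of_mem _ hy)) (by omega) (by simp only [sq2]; omega))
      · refine ih _ _ _ _ h.2 _ h1 (fun y hy => ⟨?_, (h2 y hy).2⟩) h3 h4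
        rcases List.mem_cons.1 hy with rfl | h13
        · omega
        · have := h9 y h13; omega

theorem peel (r : List ℕ) (M : ℕ) (h1 : r.Pairwise (· ≥ ·)) (h2 : ∀ z ∈ r, z ≤ M) :
    ∃ (h : ℕ) (r' : List ℕ), h ≤ M ∧ r'.Pairwise (· ≥ ·) ∧ (∀ z ∈ r', z ≤ h) ∧
      r.sum = h + r'.sum ∧ sq2 r = h * h + sq2 r' := by
  obtain _ | ⟨x, r⟩ := r
  · exact ⟨0, [], by simp [sq2]⟩
  · obtain ⟨h3, h4⟩ := List.pairwise_cons.1 h1
    exact ⟨x, r, h2 x List.mem_cons_self, h4, h3, by simp, by simp [sq2]⟩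

theorem arith_bound (M u v e a1 a2 a3 a4 a5 a6 σ τ b c t : ℤ) (hM : 1 ≤ M) (hu : 0 ≤ u) (hv : 0 ≤ v)
    (he : u + v ≤ e) (h1 : 0 ≤ a1) (h2 : a1 ≤ a2) (h3 : a2 ≤ a3) (h4 : a3 ≤ a4) (h5 : a4 ≤ a5)
    (h6 : a5 ≤ a6) (h7 : a6 ≤ M) (hσ : 0 ≤ σ) (hτ : 0 ≤ τ) (hb : b ≤ 3) (hc : 0 < c) (hc' : c ≤ 15)
    (ht : t = 3 * e - u - v + (a1 + a2 + a3 + a4 + a5 + a6)) (hs : σ = t + b)
    (hq : 2 * M * t + e * e - u * u - v * v -
      (a1 * a1 + a2 * a2 + a3 * a3 + a4 * a4 + a5 * a5 + a6 * a6) = τ + c)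
    (hτ1 : τ ≤ (M - a6) * σ) (hτ2 : τ ≤ σ * σ) : M ≤ 16 ∧ e ≤ 9 := by
  obtain ⟨D, hD⟩ : ∃ D, D = a1 + a2 + a3 + a4 + a5 + a6 := ⟨_, rfl⟩
  obtain ⟨q, hq'⟩ : ∃ q, q = a1 * a1 + a2 * a2 + a3 * a3 + a4 * a4 + a5 * a5 + a6 * a6 := ⟨_, rfl⟩
  have e1 : q ≤ a6 * D := by rw [hq', hD]; nlinarith
  have e2 : q ≤ D * D := by
    have : a6 * D ≤ D * D := mul_le_mul_of_nonneg_right (by omega) (by omega)
    omega
  have e0 : 0 ≤ q := by rw [hq']; nlinarith
  have e3 : u * u + v * v ≤ e * e := by nlinarith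
  have e4 : D ≤ t - 2 * e := by omega
  have e5 : a6 * D ≤ a6 * t := mul_le_mul_of_nonneg_left (by omega) (by omega)
  have e6 : (M - a6) * b ≤ 3 * M := by nlinarith
  have e7 : M * t ≤ 3 * M + 15 := by
    rw [hs] at hτ1
    nlinarith
  rw [← hq'] at hq
  constructor
  · by_contra hc
    have e8 : t ≤ 3 := by nlinarith
    have e9 : D * D ≤ t * t := mul_self_le_mul_self (by omega) (by omega)
    have e10 : σ * σ ≤ (t + 3) * (t + 3) := mul_self_le_mul_self hσ (by omega)
    have e11 : 0 ≤ t := by omega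
    interval_cases t
    · have : e = 0 := by omega
      have : u = 0 := by omega
      have : v = 0 := by omega
      subst_vars
      omega
    · omega
    · omega
    · omega
  · have : t ≤ 18 := by nlinarith
    omega

/-- the whole enumeration for given `μ`, `a = -C²`, `b1 = K·C + 1` -/
def enum (base : List (ℕ × List ℕ)) (μ a b1 : ℕ) : Bool :=
  (List.range 17).all fun M => (List.range 10).all fun e => (List.range (e + 1)).all fun u =>
    (List.range (min u (e - u) + 1)).all fun v =>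
      decide ((1 < M ∧ M < μ) ∨ (1 < M + u ∧ M + u < μ) ∨ (1 < M + v ∧ M + v < μ) ∨
        3 * (3 * M + e) + b1 < μ + (3 * M + u + v) + 1 ∨
        (3 * M + e) * (3 * M + e) + a < μ * μ + (M + u) * (M + u) + (M + v) * (M + v) + M * M) ||
      search μ (bad base 100 (3 * M + e)) 200 M (3 * (3 * M + e) + b1 - (μ + (3 * M + u + v) + 1))
        ((3 * M + e) * (3 * M + e) + a - (μ * μ + (M + u) * (M + u) + (M + v) * (M + v) + M * M))
        [μ, M + u, M + v, M]

theorem enum_true {base : List (ℕ × List ℕ)} (hb : ∀ b ∈ base, NE b.1 b.2) {μ a b1 : ℕ}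
    (h : enum base μ a b1 = true) (hb1 : b1 ≤ μ + 4) (ha : a < μ * μ) (ha' : μ * μ ≤ a + 15)
    (d x y z : ℕ) (r : List ℕ) (h1 : (x :: y :: z :: r).Pairwise (· ≥ ·))
    (h2 : ∀ w ∈ x :: y :: z :: r, (w = 1 ∨ μ ≤ w) ∧ 0 < w) (h3 : x + y + z ≤ d)
    (h4 : μ + (x :: y :: z :: r).sum + 1 = 3 * d + b1)
    (h5 : μ * μ + sq2 (x :: y :: z :: r) = d * d + a) : ¬ EffL d (μ :: x :: y :: z :: r) := by
  simp only [List.pairwise_cons, List.mem_cons, forall_eq_or_imp] at h1 h2
  obtain ⟨⟨hxy, -, -⟩, ⟨hyz, -⟩, hz, hr⟩ := h1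
  obtain ⟨hx', hy', hz', hr'⟩ := h2
  obtain ⟨v, rfl⟩ := Nat.exists_eq_add_of_le hyz
  obtain ⟨u, rfl⟩ := Nat.exists_eq_add_of_le (show z ≤ x by omega)
  obtain ⟨e, rfl⟩ := Nat.exists_eq_add_of_le (show 3 * z ≤ d by omega)
  simp only [sq2, List.map_cons, List.sum_cons] at h4 h5
  have hbd : z ≤ 16 ∧ e ≤ 9 := by
    obtain ⟨a1, r1, p1, q1, s1, t1, w1⟩ := peel r z hr hz
    obtain ⟨a2, r2, p2, q2, s2, t2, w2⟩ := peel r1 a1 q1 s1
    obtain ⟨a3, r3, p3, q3, s3, t3, w3⟩ := peel r2 a2 q2 s2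
    obtain ⟨a4, r4, p4, q4, s4, t4, w4⟩ := peel r3 a3 q3 s3
    obtain ⟨a5, r5, p5, q5, s5, t5, w5⟩ := peel r4 a4 q4 s4
    obtain ⟨a6, r6, p6, q6, s6, t6, w6⟩ := peel r5 a5 q5 s5
    have g1 := sq2_le s6
    have g2 := sq2_le_sq r6
    change _ + (_ + (_ + (_ + sq2 r))) = _ at h5
    rw [w1, w2, w3, w4, w5, w6] at h5
    rw [t1, t2, t3, t4, t5, t6] at h4
    have := arith_bound z u v e (z - a1) (z - a2) (z - a3) (z - a4) (z - a5) (z - a6) r6.sum (sq2 r6)
      (b1 - μ - 1) (μ * μ - a) _ (by omega) (by omega) (by omega) (by omega) (by omega) (by omega)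
      (by omega) (by omega) (by omega) (by omega) (by omega) (by omega) (by omega) (by omega)
      (by zify at ha; omega) (by zify at ha'; omega) rfl (by omega)
      (by zify at h5 h4; linear_combination -h5)
      (by rw [sub_sub_cancel]; exact_mod_cast g1) (by exact_mod_cast g2)
    omega
  simp only [enum, List.all_eq_true, List.mem_range, Bool.or_eq_true, decide_eq_true_eq] at h
  rcases h z (by omega) e (by omega) u (by omega) v (by omega) with h6 | h6
  · omega
  · have := search_true (P := fun l => ¬ EffL (3 * z + e) l)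
      (fun l l' hp h hE => h (hE.perm hp.symm)) (bad_true hb 100 _) _ _ _ _ _ h6 r hr
      (fun w hw => ⟨hz w hw, hr' w hw⟩) (by omega) (by simp only [sq2]; omega)
    exact fun hE => this (hE.perm (List.perm_append_comm (l₁ := [μ, z + u, z + v, z])))

end Pool.Agent.P.MP_d3e5c7_ag
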