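import Pool.Agent.P.MP_d3e5c7_ag.Base1
import Pool.Agent.P.MP_d3e5c7_ag.Base2
import Pool.Agent.P.MP_d3e5c7_ag.Base3
import Pool.Agent.P.MP_d3e5c7_ag.Enum

/-! The base classes and the enumerations. -/

set_option autoImplicit false

namespace Pool.Agent.P.MP_d3e5c7_ag

/-- the base classes -/
def base : List (ℕ × List ℕ) :=
  [(6, [4, 1, 1, 1, 1, 1, 1, 1, 1, 1, 1, 1, 1, 1, 1, 1, 1, 1, 1, 1, 1, 1]),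
   (9, [3, 3, 3, 3, 3, 3, 3, 3, 3, 1]),
   (12, [4, 4, 4, 4, 4, 4, 4, 4, 4, 1]),
   (13, [5, 4, 4, 4, 4, 4, 4, 4, 4, 4, 1]),
   (14, [5, 5, 4, 4, 4, 4, 4, 4, 4, 4, 4, 1, 1, 1]),
   (14, [6, 4, 4, 4, 4, 4, 4, 4, 4, 4, 4, 1]),
   (15, [5, 5, 5, 5, 5, 5, 5, 4, 4, 4, 1, 1, 1]),
   (15, [5, 5, 5, 5, 5, 5, 5, 5, 4, 3, 1]),
   (15, [7, 4, 4, 4, 4, 4, 4, 4, 4, 4, 4, 4, 1]),
   (16, [5, 5, 5, 5, 5, 5, 5, 5, 5, 4, 4]),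
   (16, [6, 5, 5, 5, 5, 5, 4, 4, 4, 4, 4, 4]),
   (16, [6, 5, 5, 5, 5, 5, 5, 5, 5, 4, 1, 1, 1, 1, 1]),
   (17, [6, 6, 5, 5, 5, 5, 5, 5, 5, 5, 4, 1, 1]),
   (17, [7, 5, 5, 5, 5, 5, 5, 5, 5, 5, 4]),
   (18, [6, 6, 6, 6, 6, 6, 5, 5, 5, 4, 4, 1, 1]),
   (18, [6, 6, 6, 6, 6, 6, 6, 5, 4, 4, 4]),
   (18, [6, 6, 6, 6, 6, 6, 6, 6, 4, 4, 1, 1, 1, 1, 1]),
   (21, [7, 7, 7, 7, 7, 6, 6, 6, 6, 6, 4, 1]),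
   (21, [7, 7, 7, 7, 7, 7, 7, 7, 4, 4, 4, 1, 1]),
   (22, [8, 7, 7, 7, 7, 7, 7, 7, 6, 5, 4, 1]),
   (24, [8, 8, 8, 8, 8, 8, 8, 8, 7, 4]),
   (25, [8, 8, 8, 8, 8, 8, 8, 8, 7, 7, 4]),
   (25, [9, 8, 8, 8, 8, 8, 8, 8, 8, 4, 4, 1]),
   (26, [10, 8, 8, 8, 8, 8, 8, 8, 8, 7, 4]),
   (27, [9, 9, 9, 9, 9, 9, 8, 8, 8, 6, 4]),
   (27, [9, 9, 9, 9, 9, 9, 9, 7, 7, 7, 4]),
   (27, [9, 9, 9, 9, 9, 9, 9, 9, 7, 4, 4, 1]),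
   (27, [9, 9, 9, 9, 9, 9, 9, 9, 8, 4, 1, 1]),
   (30, [10, 10, 10, 10, 10, 10, 10, 10, 7, 6, 4]),
   (30, [10, 10, 10, 10, 10, 10, 10, 10, 9, 4, 1, 1, 1, 1]),
   (31, [11, 10, 10, 10, 10, 10, 10, 10, 10, 5, 4]),
   (33, [11, 11, 11, 11, 11, 11, 11, 11, 9, 5, 4]),
   (48, [16, 16, 16, 16, 16, 16, 16, 16, 15, 4, 4])]

theorem base_ne : ∀ b ∈ base, NE b.1 b.2 := by
  simp only [base, List.forall_mem_cons, List.not_mem_nil, IsEmpty.forall_iff, implies_true,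
    and_true]
  exact ⟨ne0, ne1, ne2, ne3, ne4, ne5, ne6, ne7, ne8, ne9, ne10, ne11, ne12, ne13, ne14, ne15, ne16, ne17, ne18, ne19, ne20, ne21, ne22, ne23, ne24, ne25, ne26, ne27, ne28, ne29, ne30, ne31, ne32⟩

theorem enum3 : ([(1, 2), (1, 4), (2, 1)].all fun q : ℕ × ℕ => enum base 3 q.1 q.2) = true := by
  decide +kernel

theorem enum4 : ([(1, 2), (1, 4), (1, 6), (1, 8), (2, 1), (2, 3), (2, 5), (3, 2)].all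
    fun q : ℕ × ℕ => enum base 4 q.1 q.2) = true := by
  decide +kernel

end Pool.Agent.P.MP_d3e5c7_ag
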