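import Pool.Agent.P.MP_d3e5c7_ag.Rank

/-! Rank computations modulo 127. -/

set_option autoImplicit false

namespace Pool.Agent.P.MP_d3e5c7_ag

theorem ne32 : NE 48 [16, 16, 16, 16, 16, 16, 16, 16, 15, 4, 4] :=
  check_sound 7 25 48 16 16 16
    [(16, 110, 51), (16, 99, 115), (16, 55, 7), (16, 35, 125), (16, 67, 64), (15, 53, 119), (4, 102, 108), (4, 40, 125)]
    (by norm_num) (by norm_num) (by decide +kernel)


end Pool.Agent.P.MP_d3e5c7_ag
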