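import Pool.Agent.P.MP_d3e5c7_ag.Spec

/-! Effective classes and their invariance under the standard quadratic transformation. -/

set_option autoImplicit false

namespace Pool.Agent.P.MP_d3e5c7_ag

open MvPolynomial

/-- for every field and all points there is a nonzero ternary form of degree `d` vanishing to
order `m i` at the `i`-th point -/
def Eff {ι : Type} (d : ℤ) (m : ι → ℤ) : Prop :=
  0 ≤ d ∧ ∀ (K : Type) [Field K] (P : ι → Fin 3 → K), ∃ F : MvPolynomial (Fin 3) K,
    F ≠ 0 ∧ F.IsHomogeneous d.toNat ∧ ∀ i, Van (P i) (m i) F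

variable {ι κ : Type}

theorem Eff.mono {d d' : ℤ} {m : ι → ℤ} {n : κ → ℤ} (h : Eff d m) (e : κ → ι)
    (he : Function.Injective e) (hn : ∀ k, n k ≤ m (e k)) (hd : d ≤ d') : Eff d' n := by
  refine ⟨h.1.trans hd, fun K _ P => ?_⟩
  obtain ⟨F, hF0, hFd, hF⟩ := h.2 K (Function.extend e P 0)
  refine ⟨X 0 ^ (d' - d).toNat * F, mul_ne_zero (pow_ne_zero _ (X_ne_zero _)) hF0, ?_, fun k => ?_⟩
  · have := (isHomogeneous_X_pow (R := K) (0 : Fin 3) (d' - d).toNat).mul hFd
    convert this using 1
    have := h.1; omega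
  · have := hF (e k)
    rw [he.extend_apply] at this
    exact (this.mono (hn k)).mul_left _

theorem Eff.add {d d' : ℤ} {m n : ι → ℤ} (h : Eff d m) (h' : Eff d' n) : Eff (d + d') (m + n) := by
  refine ⟨add_nonneg h.1 h'.1, fun K _ P => ?_⟩
  obtain ⟨F, hF0, hFd, hF⟩ := h.2 K P
  obtain ⟨G, hG0, hGd, hG⟩ := h'.2 K P
  refine ⟨F * G, mul_ne_zero hF0 hG0, ?_, fun i => (hF i).mul (hG i)⟩
  convert hFd.mul hGd using 1
  have := h.1; have := h'.1; omega

theorem eff_of_nonpos {d : ℤ} {m : ι → ℤ} (hd : 0 ≤ d) (hm : ∀ i, m i ≤ 0) : Eff d m :=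
  ⟨hd, fun _ _ _ => ⟨X 0 ^ d.toNat, pow_ne_zero _ (X_ne_zero _), isHomogeneous_X_pow _ _,
    fun i => van_of_nonpos _ (hm i)⟩⟩

theorem sh_zero {σ K : Type*} [CommRing K] (f : MvPolynomial σ K) : sh (0 : σ → K) f = f := by
  have : sh (0 : σ → K) = AlgHom.id K _ := by
    ext k : 1
    simp [sh]
  rw [this]; rfl

theorem Eff.le {d : ℤ} {m : ι → ℤ} (h : Eff d m) (i : ι) : m i ≤ d := by
  obtain ⟨F, hF0, hFd, hF⟩ := h.2 ℚ 0
  obtain ⟨α, hα⟩ := ne_zero_iff.1 hF0
  by_contra hc
  have h1 : α.degree = d.toNat := by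
    by_contra h2; exact hα (hFd.coeff_eq_zero h2)
  have := hF i α (by have := h.1; omega)
  rw [Pi.zero_apply, sh_zero] at this
  exact hα this

/-- exponents of total degree `n` -/
noncomputable def hS (σ : Type*) [Finite σ] (n : ℕ) : Finset (σ →₀ ℕ) :=
  (Finsupp.finite_of_degree_le (σ := σ) n).toFinset.filter (fun α => α.degree = n)

theorem isHomogeneous_iff_support {σ K : Type*} [Finite σ] [CommRing K] (F : MvPolynomial σ K)
    (n : ℕ) : F.IsHomogeneous n ↔ F.support ⊆ hS σ n := by
  constructor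
  · intro h α hα
    have : α.degree = n := by
      by_contra h2; exact mem_support_iff.1 hα (h.coeff_eq_zero h2)
    simp [hS, this]
  · intro h α hα
    have := h (mem_support_iff.2 hα)
    simp only [hS, Finset.mem_filter] at this
    rw [← this.2, Finsupp.degree_eq_weight_one]; rfl

/-- the generic point -/
abbrev GA (ι : Type) := MvPolynomial (ι × Fin 3) ℤ

theorem eff_of_generic [Finite ι] {d : ℤ} {m : ι → ℤ} (hd : 0 ≤ d)
    (h : ∃ F : MvPolynomial (Fin 3) (FractionRing (GA ι)), F ≠ 0 ∧ F.IsHomogeneous d.toNat ∧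
      ∀ i, Van (fun k => algebraMap (GA ι) _ (X (i, k))) (m i) F) : Eff d m := by
  refine ⟨hd, fun K _ P => ?_⟩
  simp only [isHomogeneous_iff_support] at h ⊢
  have := special (algebraMap (GA ι) (FractionRing (GA ι))) (IsFractionRing.injective _ _)
    (eval₂Hom (Int.castRingHom K) (fun x : ι × Fin 3 => P x.1 x.2)) (hS _ d.toNat)
    (fun i k => X (i, k)) m h
  simpa using this

theorem aeval_one_monomial {K : Type*} [CommRing K] (a : Fin 3) (α : Fin 3 →₀ ℕ) (c : K) :
    aeval (fun b => if b = a then (1 : MvPolynomial (Fin 3) K) else X b) (monomial α c) =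
      monomial (α.erase a) c := by
  rw [aeval_monomial, monomial_eq, Finsupp.prod_fintype _ _ (by simp),
    Finsupp.prod_fintype _ _ (by simp)]
  congr 1
  refine Finset.prod_congr rfl fun b _ => ?_
  by_cases h : b = a
  · subst h; simp
  · simp [h, Finsupp.erase_ne h]

theorem degree3 (α : Fin 3 →₀ ℕ) : α.degree = α 0 + α 1 + α 2 := by
  rw [Finsupp.degree_eq_sum, Fin.sum_univ_three]

theorem degree_erase (a : Fin 3) (α : Fin 3 →₀ ℕ) : (α.erase a).degree + α a = α.degree := by
  rw [degree3, degree3]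
  fin_cases a <;> simp <;> omega

theorem coeff_dehom {K : Type*} [CommRing K] (a : Fin 3) {F : MvPolynomial (Fin 3) K} {n : ℕ}
    (hF : F.IsHomogeneous n) {α : Fin 3 →₀ ℕ} (hα : α.degree = n) :
    coeff (α.erase a) (aeval (fun b => if b = a then (1 : MvPolynomial (Fin 3) K) else X b) F) =
      coeff α F := by
  classical
  conv_lhs => rw [F.as_sum, map_sum, coeff_sum]
  simp only [aeval_one_monomial, coeff_monomial]
  rw [Finset.sum_eq_single α]
  · simp
  · intro β hβ hne
    rw [if_neg]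
    intro h
    apply hne
    have h1 : β.degree = n := by
      by_contra h2; exact mem_support_iff.1 hβ (hF.coeff_eq_zero h2)
    have h2 := degree_erase a α
    have h3 := degree_erase a β
    rw [h] at h3
    ext b
    by_cases hb : b = a
    · subst hb; omega
    · have := DFunLike.congr_fun h b
      simpa [Finsupp.erase_ne hb] using this
  · intro h; simp [notMem_support_iff.1 h]

theorem le_of_van_single {K : Type*} [CommRing K] (a : Fin 3) {F : MvPolynomial (Fin 3) K} {n : ℕ}
    (hF : F.IsHomogeneous n) {μ : ℤ} (hv : Van (Pi.single a 1) μ F) {α : Fin 3 →₀ ℕ}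
    (hα : α ∈ F.support) : (α a : ℤ) + μ ≤ n := by
  have h1 : α.degree = n := by
    by_contra h2; exact mem_support_iff.1 hα (hF.coeff_eq_zero h2)
  have h2 : Van (0 : Fin 3 → K) μ
      (aeval (fun b => if b = a then (1 : MvPolynomial (Fin 3) K) else X b) F) := by
    apply Van.comp
    convert hv using 2 with b
    by_cases hb : b = a
    · subst hb; simp
    · simp [hb]
  by_contra hc
  have h3 := degree_erase a α
  have := h2 (α.erase a) (by omega)
  rw [sh_zero, coeff_dehom a hF h1] at this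
  exact mem_support_iff.1 hα this

theorem monomial3 {K : Type*} [CommRing K] (α : Fin 3 →₀ ℕ) (c : K) :
    monomial α c = C c * (X 0 ^ α 0 * X 1 ^ α 1 * X 2 ^ α 2) := by
  rw [monomial_eq, Finsupp.prod_fintype _ _ (by simp), Fin.prod_univ_three]

/-- the standard quadratic map -/
noncomputable def cr (K : Type*) [CommRing K] : Fin 3 → MvPolynomial (Fin 3) K :=
  ![X 1 * X 2, X 0 * X 2, X 0 * X 1]

theorem crem_core {K : Type} [Field K] {d : ℤ} {m m' : ι → ℤ} (h : Eff d m) (t : Fin 3 → ι)
    (ht : Function.Injective t) (h1 : ∀ a, m' (t a) = m (t a) + (d - (m (t 0) + m (t 1) + m (t 2))))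
    (h2 : ∀ l, (∀ a, t a ≠ l) → m' l = m l) (Q : ι → Fin 3 → K)
    (hQ1 : ∀ a b, b ≠ a → Q (t a) b = 0) (hQ2 : ∀ l, (∀ a, t a ≠ l) → ∀ b, Q l b ≠ 0) :
    0 ≤ d + (d - (m (t 0) + m (t 1) + m (t 2))) ∧ ∃ F : MvPolynomial (Fin 3) K, F ≠ 0 ∧
      F.IsHomogeneous (d + (d - (m (t 0) + m (t 1) + m (t 2)))).toNat ∧
        ∀ i, Van (Q i) (m' i) F := by
  classical
  obtain ⟨F, hF0, hFd, hF⟩ := h.2 K (Function.extend t (fun a => Pi.single a 1)
    (fun l b => eval (Q l) (cr K b)))
  have hd := h.1
  have hs : ∀ α ∈ F.support, α 0 + α 1 + α 2 = d.toNat ∧ ∀ a, (α a : ℤ) + m (t a) ≤ d := by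
    intro α hα
    refine ⟨?_, fun a => ?_⟩
    · rw [← degree3]
      by_contra h2; exact mem_support_iff.1 hα (hFd.coeff_eq_zero h2)
    · have h3 := hF (t a)
      rw [ht.extend_apply] at h3
      have := le_of_van_single a hFd h3 hα
      omega
  let τ : (Fin 3 →₀ ℕ) → (Fin 3 →₀ ℕ) := fun α =>
    Finsupp.equivFunOnFinite.symm (fun a => (d - m (t a) - α a).toNat)
  have hτ : ∀ α a, τ α a = (d - m (t a) - α a).toNat := fun α a => rfl
  obtain ⟨α₀, hα₀⟩ := ne_zero_iff.1 hF0
  have hα₀' := mem_support_iff.2 hα₀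
  refine ⟨?_, ∑ α ∈ F.support, monomial (τ α) (coeff α F), ?_, ?_, fun i => ?_⟩
  · obtain ⟨e1, e2⟩ := hs α₀ hα₀'
    have := e2 0; have := e2 1; have := e2 2
    omega
  · intro h0
    have := congrArg (coeff (τ α₀)) h0
    rw [coeff_sum, Finset.sum_eq_single α₀] at this
    · simp [hα₀] at this
    · intro β hβ hne
      rw [coeff_monomial, if_neg]
      intro h3
      apply hne
      ext a
      have h4 := DFunLike.congr_fun h3 a
      rw [hτ, hτ] at h4
      have := (hs β hβ).2 a
      have := (hs α₀ hα₀').2 a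
      omega
    · intro h3; exact absurd hα₀' h3
  · apply IsHomogeneous.sum
    intro α hα
    apply isHomogeneous_monomial
    rw [degree3, hτ, hτ, hτ]
    obtain ⟨e1, e2⟩ := hs α hα
    have := e2 0; have := e2 1; have := e2 2
    omega
  · by_cases hi : ∃ a, t a = i
    · obtain ⟨a, rfl⟩ := hi
      apply Van.sum
      intro α hα
      obtain ⟨e1, e2⟩ := hs α hα
      have := e2 0; have := e2 1; have := e2 2
      rw [monomial3, h1]
      apply Van.mul_left
      have hx : ∀ b, b ≠ a → ∀ n : ℕ, Van (Q (t a)) n (X b ^ n : MvPolynomial (Fin 3) K) :=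
        fun b hb n => Van.pow (by simp [hQ1 a b hb]) n
      fin_cases a
      · rw [mul_assoc]
        apply Van.mul_left
        refine ((hx 1 (by decide) _).mul (hx 2 (by decide) _)).mono ?_
        rw [hτ, hτ]; simp only [Fin.zero_eta]; omega
      · rw [mul_right_comm, mul_comm]
        apply Van.mul_left
        refine ((hx 0 (by decide) _).mul (hx 2 (by decide) _)).mono ?_
        rw [hτ, hτ]; simp only [Fin.mk_one]; omega
      · rw [mul_comm]
        apply Van.mul_left
        refine ((hx 0 (by decide) _).mul (hx 1 (by decide) _)).mono ?_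
        rw [hτ, hτ]; simp only [Fin.reduceFinMk]; omega
    · push Not at hi
      rw [h2 i hi]
      have h3 := hF i
      rw [Function.extend_apply' _ _ _ (by simpa using hi)] at h3
      have h4 := (Van.comp (cr K) (Q i) h3).mul_left
        (X 0 ^ (-m (t 0)).toNat * X 1 ^ (-m (t 1)).toNat * X 2 ^ (-m (t 2)).toNat)
      apply Van.of_mul (u := X 0 ^ (m (t 0)).toNat * X 1 ^ (m (t 1)).toNat * X 2 ^ (m (t 2)).toNat)
      · simp [hQ2 i hi]
      · convert h4 using 1
        conv_rhs => rw [F.as_sum, map_sum]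
        rw [Finset.mul_sum, Finset.mul_sum]
        refine Finset.sum_congr rfl fun α hα => ?_
        obtain ⟨e1, e2⟩ := hs α hα
        have := e2 0; have := e2 1; have := e2 2
        rw [monomial3, monomial3]
        simp only [map_mul, map_pow, aeval_X, aeval_C, cr, algebraMap_eq, Matrix.cons_val_zero,
          Matrix.cons_val_one, Matrix.cons_val]
        have f0 : (m (t 0)).toNat + τ α 0 = (-m (t 0)).toNat + α 1 + α 2 := by rw [hτ]; omega
        have f1 : (m (t 1)).toNat + τ α 1 = (-m (t 1)).toNat + α 0 + α 2 := by rw [hτ]; omega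
        have f2 : (m (t 2)).toNat + τ α 2 = (-m (t 2)).toNat + α 0 + α 1 := by rw [hτ]; omega
        trans C (coeff α F) * (X 0 ^ ((m (t 0)).toNat + τ α 0) * X 1 ^ ((m (t 1)).toNat + τ α 1)
              * X 2 ^ ((m (t 2)).toNat + τ α 2))
        · ring
        · rw [f0, f1, f2]; ring

/-- linear substitution -/
noncomputable def lin {K : Type*} [CommRing K] (B : Matrix (Fin 3) (Fin 3) K) :
    Fin 3 → MvPolynomial (Fin 3) K := fun a => ∑ b, C (B a b) * X b

theorem eval_lin {K : Type*} [CommRing K] (B : Matrix (Fin 3) (Fin 3) K) (v : Fin 3 → K) :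
    (fun a => eval v (lin B a)) = B.mulVec v := by
  ext a; simp [lin, Matrix.mulVec, dotProduct]

theorem aeval_lin_ne_zero {K : Type*} [Field K] [Infinite K] (B : Matrix (Fin 3) (Fin 3) K)
    (hB : B.det ≠ 0) {F : MvPolynomial (Fin 3) K} (hF : F ≠ 0) : aeval (lin B) F ≠ 0 := by
  intro h
  apply hF
  apply MvPolynomial.funext
  intro w
  have h1 := congrArg (eval (B⁻¹.mulVec w)) h
  rw [eval_aeval', eval_lin, Matrix.mulVec_mulVec,
    Matrix.mul_nonsing_inv _ (isUnit_iff_ne_zero.2 hB), Matrix.one_mulVec] at h1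
  simpa using h1

theorem Eff.cremona [Finite ι] {d : ℤ} {m m' : ι → ℤ} (h : Eff d m) (t : Fin 3 → ι)
    (ht : Function.Injective t) (h1 : ∀ a, m' (t a) = m (t a) + (d - (m (t 0) + m (t 1) + m (t 2))))
    (h2 : ∀ l, (∀ a, t a ≠ l) → m' l = m l) :
    Eff (d + (d - (m (t 0) + m (t 1) + m (t 2)))) m' := by
  classical
  let φ := algebraMap (GA ι) (FractionRing (GA ι))
  have hφ : Function.Injective φ := IsFractionRing.injective _ _
  let A : Matrix (Fin 3) (Fin 3) (GA ι) := Matrix.of fun r c => X (t c, r)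
  let ev : GA ι →+* ℤ := eval (fun x : ι × Fin 3 =>
    Function.extend t (fun a => (Pi.single a 1 : Fin 3 → ℤ)) (fun _ _ => 1) x.1 x.2)
  have hA : A.map ev = 1 := by
    ext r c
    simp [A, ev, ht.extend_apply, Pi.single_apply, Matrix.one_apply]
  have hdet : A.det ≠ 0 := by
    intro h0
    have := congrArg ev h0
    rw [RingHom.map_det, RingHom.mapMatrix_apply, hA] at this
    simp at this
  let B : Matrix (Fin 3) (Fin 3) (FractionRing (GA ι)) := A.adjugate.map φ
  have hB : B.det ≠ 0 := by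
    have : B.det = φ A.adjugate.det := by rw [RingHom.map_det]; rfl
    rw [this, Matrix.det_adjugate]
    exact fun h0 => pow_ne_zero _ hdet (hφ (by rw [h0, map_zero]))
  have hQ : ∀ l b, B.mulVec (fun k => φ (X (l, k))) b =
      φ (A.adjugate.mulVec (fun k => X (l, k)) b) := by
    intro l b
    simp [B, Matrix.mulVec, dotProduct]
  obtain ⟨hd, F, hF0, hFd, hF⟩ := crem_core h t ht h1 h2
    (fun l => B.mulVec (fun k => φ (X (l, k)))) (by
      intro a b hb
      rw [hQ]
      have : (fun k => (X (t a, k) : GA ι)) = A.mulVec (Pi.single a 1) := by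
        ext k : 1; simp [A]
      rw [this, Matrix.mulVec_mulVec, Matrix.adjugate_mul]
      simp [hb]) (by
      intro l hl b
      rw [hQ]
      intro h0
      have h3 : A.adjugate.mulVec (fun k => X (l, k)) b = 0 := hφ (by simpa using h0)
      have h4 := congrArg ev h3
      have h5 : ev (A.adjugate.mulVec (fun k => X (l, k)) b) =
          (A.adjugate.map ev).mulVec (fun k => ev (X (l, k))) b := by
        simp [Matrix.mulVec, dotProduct]
      rw [h5, ← RingHom.mapMatrix_apply, RingHom.map_adjugate, RingHom.mapMatrix_apply, hA] at h4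
      simp [ev, Function.extend_apply' _ _ _ (show ¬ ∃ a, t a = l by simpa using hl)] at h4)
  apply eff_of_generic hd
  refine ⟨aeval (lin B) F, aeval_lin_ne_zero B hB hF0, ?_, fun i => ?_⟩
  · have := hFd.aeval (lin B) (n := 1) (fun a => IsHomogeneous.sum _ _ _
      (fun b _ => isHomogeneous_C_mul_X _ _))
    simpa using this
  · apply Van.comp
    rw [eval_lin]
    exact hF i

end Pool.Agent.P.MP_d3e5c7_ag
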