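import Pool.Agent.P.MP_d3e5c7_ag.G1E

/-! Residue fields of valuations on the function field of a cubic. -/

set_option autoImplicit false

namespace Pool.Agent.P.MP_d3e5c7_ag.G1

open Polynomial IntermediateField IsLocalRing

variable (K : Type*) {F : Type*} [Field K] [Field F] [Algebra K F] (W : ValuationSubring F)

/-- residues of constants as a ring map -/
noncomputable def rho : W.comap (algebraMap K F) →+* ResidueField W :=
  (residue W).comp (((algebraMap K F).comp (W.comap (algebraMap K F)).subtype).codRestrict W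
    fun c => c.2)

/-- the field of residues of constants -/
noncomputable def cst : Subfield (ResidueField W) :=
  { (rho K W).range with
    inv_mem' := by
      rintro _ ⟨c, rfl⟩
      have h0 : algebraMap K F c ∈ W := c.2
      have h1 : rho K W c = res W (algebraMap K F c) := (res_of h0).symm
      by_cases h : rho K W c = 0
      · exact ⟨0, by simp [h]⟩
      · have h2 := (res_ne_zero h0).1 (h1 ▸ h)
        have h3 : algebraMap K F (c : K)⁻¹ ∈ W := by rw [map_inv₀]; exact inv_mem_of_eq h2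
        refine ⟨⟨(c : K)⁻¹, h3⟩, ?_⟩
        rw [h1, ← res_inv h2, ← map_inv₀]
        exact (res_of h3).symm }

variable {K W}

theorem res_mem_cst {c : K} (h : algebraMap K F c ∈ W) : res W (algebraMap K F c) ∈ cst K W :=
  ⟨⟨c, h⟩, (res_of h).symm⟩

theorem cst_algClosed [IsAlgClosed K] : IsAlgClosed (cst K W) :=
  algClosed_of_surj (W.comap (algebraMap K F)) ((rho K W).codRestrict (cst K W) fun c => ⟨c, rfl⟩)
    (by rintro ⟨_, c, rfl⟩; exact ⟨c, rfl⟩)

variable (K) in
/-- a constant multiple of a unit with residue in `T` -/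
def MT (T : Subfield (ResidueField W)) (θ : F) : Prop :=
  ∃ c : K, W.valuation (θ / algebraMap K F c) = 1 ∧ res W (θ / algebraMap K F c) ∈ T

variable {T : Subfield (ResidueField W)}

theorem MT.mul {a b : F} (ha : MT K T a) (hb : MT K T b) : MT K T (a * b) := by
  obtain ⟨c, h1, h2⟩ := ha
  obtain ⟨d, h3, h4⟩ := hb
  refine ⟨c * d, ?_⟩
  rw [map_mul (algebraMap K F), ← div_mul_div_comm, map_mul, h1, h3,
    res_mul (mem_of_eq h1) (mem_of_eq h3)]
  exact ⟨one_mul _, mul_mem h2 h4⟩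

theorem MT.inv {a : F} (ha : MT K T a) : MT K T a⁻¹ := by
  obtain ⟨c, h1, h2⟩ := ha
  refine ⟨c⁻¹, ?_⟩
  rw [map_inv₀ (algebraMap K F), inv_div_inv, ← inv_div, map_inv₀, h1, res_inv h1]
  exact ⟨inv_one, inv_mem h2⟩

theorem MT.const {c : K} (hc : c ≠ 0) : MT K T (algebraMap K F c) :=
  ⟨c, by rw [div_self (by simpa using hc), res_one]; exact ⟨map_one _, one_mem _⟩⟩

theorem MT.of_lt {a z : F} {c : K} (h : W.valuation z < 1) (e : a / algebraMap K F c = 1 + z) :
    MT K T a :=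
  ⟨c, by
    rw [e, res_add (one_mem _) (mem_of_lt h), res_one, (res_eq_zero (mem_of_lt h)).2 h, add_zero]
    exact ⟨val_one_add h, one_mem _⟩⟩

theorem MT.res_mem (hT : cst K W ≤ T) {a : F} (ha : MT K T a) (h : a ∈ W) : res W a ∈ T := by
  obtain ⟨c, h1, h2⟩ := ha
  have h0 : algebraMap K F c ≠ 0 := by intro h0; simp [h0] at h1
  have h3 : algebraMap K F c ∈ W := W.mem_of_valuation_le_one _ (by
    rw [map_div₀, div_eq_one_iff_eq (by simpa using h0)] at h1
    exact h1 ▸ le_of_mem h)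
  rw [← div_mul_cancel₀ a h0, res_mul (mem_of_eq h1) h3]
  exact mul_mem h2 (hT (res_mem_cst h3))

theorem simple_ind [IsAlgClosed K] (M : F → Prop) (u : F)
    (h1 : ∀ c : K, c ≠ 0 → M (algebraMap K F c)) (h2 : ∀ c : K, M (u - algebraMap K F c))
    (h3 : ∀ a b, M a → M b → M (a * b)) (h4 : ∀ a, M a → M a⁻¹) {θ : F} (hθ : θ ∈ adjoin K {u})
    (h0 : θ ≠ 0) : M θ := by
  obtain ⟨r, s, rfl⟩ := (mem_adjoin_simple_iff _ _).1 hθ
  rw [div_eq_mul_inv]
  exact h3 _ _ (aeval_ind M u h1 h2 h3 r (by rintro rfl; simp at h0))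
    (h4 _ (aeval_ind M u h1 h2 h3 s (by rintro rfl; simp at h0)))

theorem res_conj {K0 : IntermediateField K F} (H : ∀ θ ∈ K0, θ ∈ W → res W θ ∈ T) {α β η : F}
    (hα : α ∈ K0) (hβ : β ∈ K0) (hη : η ^ 2 ∈ K0) (h : α + β * η ∈ W) (h' : α - β * η ∉ W) :
    res W (α + β * η) ∈ T := by
  have h0 : α - β * η ≠ 0 := by intro h0; exact h' (h0 ▸ zero_mem _)
  have h1 := mul_lt h (inv_lt_of_notMem h')
  have h2 := val_one_add h1
  have h3 : 1 + (α + β * η) * (α - β * η)⁻¹ ≠ 0 := by intro h0; simp [h0] at h2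
  have h4 : (α + β * η) / (1 + (α + β * η) * (α - β * η)⁻¹) =
      (α * α - β * β * η ^ 2) / (α + α) := by
    rw [show α + α = (1 + (α + β * η) * (α - β * η)⁻¹) * (α - β * η) by field_simp; ring,
      show α * α - β * β * η ^ 2 = (α + β * η) * (α - β * η) by ring, mul_div_mul_right _ _ h0]
  have h5 := H _ (div_mem (sub_mem (mul_mem hα hα) (mul_mem (mul_mem hβ hβ) hη)) (add_mem hα hα))
    (h4 ▸ div_mem_of_eq h h2)
  rwa [← h4, res_div h h2, res_add (one_mem _) (mem_of_lt h1), (res_eq_zero (mem_of_lt h1)).2 h1,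
    res_one, add_zero, div_one] at h5

theorem exists_gauss [IsAlgClosed K] {X Y θ : F} (hX : ∀ c, X ≠ algebraMap K F c)
    (hY : Y ^ 2 ∈ adjoin K {X}) (hθ : θ ∈ adjoin K {X, Y}) (h1 : θ ∈ W) (h2 : res W θ ∉ cst K W) :
    ∃ a c : K, c ≠ 0 ∧ (X - algebraMap K F a) / algebraMap K F c ∈ W ∧
      res W ((X - algebraMap K F a) / algebraMap K F c) ∉ cst K W := by
  by_contra H
  push Not at H
  have H0 : ∀ θ ∈ adjoin K {X}, θ ∈ W → res W θ ∈ cst K W := by
    intro θ h3 h4
    rcases eq_or_ne θ 0 with rfl | h0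
    · rw [res_zero]; exact zero_mem _
    by_cases h5 : ∀ a : K, ∃ c : K, W.valuation ((X - algebraMap K F a) / algebraMap K F c) = 1
    · refine MT.res_mem le_rfl (simple_ind _ X (fun c => MT.const) (fun a => ?_)
        (fun _ _ => MT.mul) (fun _ => MT.inv) h3 h0) h4
      obtain ⟨c, hc⟩ := h5 a
      exact ⟨c, hc, H a c (by rintro rfl; simp at hc) (mem_of_eq hc)⟩
    push Not at h5
    obtain ⟨a0, h5⟩ := h5
    have ξ0 := sub_ne_zero.2 (hX a0)
    set ξ := X - algebraMap K F a0 with hξ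
    obtain ⟨n, hn⟩ := simple_ind (fun θ => ∃ n : ℤ, MT K (cst K W) (θ / ξ ^ n)) X
      (fun c hc => ⟨0, by simpa using MT.const hc⟩) (fun a => by
        rcases lt_or_gt_of_ne (h5 (a0 - a)) with h | h
        · rcases eq_or_ne (a0 - a) 0 with h6 | h6
          · exact ⟨1, by simpa [← sub_eq_zero.1 h6, ← hξ, ξ0] using MT.const (T := cst K W) (c := (1 : K)) one_ne_zero⟩
          refine ⟨0, MT.of_lt (c := a0 - a) h ?_⟩
          have : algebraMap K F (a0 - a) ≠ 0 := (_root_.map_ne_zero _).2 h6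
          field_simp
          rw [hξ, map_sub]; ring
        · refine ⟨1, MT.of_lt (c := 1) (z := (ξ / algebraMap K F (a0 - a))⁻¹) ?_ ?_⟩
          · rw [map_inv₀]; exact inv_lt_one_of_one_lt₀ h
          · rw [inv_div, map_one]
            field_simp
            rw [hξ, map_sub]; ring)
      (by
        rintro a b ⟨m, hm⟩ ⟨n, hn⟩
        exact ⟨m + n, by rw [zpow_add₀ ξ0, ← div_mul_div_comm]; exact hm.mul hn⟩)
      (by
        rintro a ⟨m, hm⟩
        exact ⟨-m, by rw [zpow_neg, inv_div_inv, ← inv_div]; exact hm.inv⟩) h3 h0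
    rcases eq_or_ne n 0 with rfl | hn0
    · exact MT.res_mem le_rfl (by simpa using hn) h4
    rcases (le_of_mem h4).lt_or_eq with h6 | h6
    · rw [(res_eq_zero h4).2 h6]; exact zero_mem _
    obtain ⟨c, hc, -⟩ := hn
    obtain ⟨d, hd⟩ : ∃ d : K, d ^ n = c⁻¹ := by
      obtain ⟨m, rfl | rfl⟩ := n.eq_nat_or_neg
      · simpa using IsAlgClosed.exists_pow_nat_eq c⁻¹ (n := m) (by omega)
      · simpa using IsAlgClosed.exists_pow_nat_eq c (n := m) (by omega)
    refine absurd hn0 (not_not.2 ((zpow_eq_one_iff_right₀ zero_le (h5 d)).1 ?_))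
    rw [← map_zpow₀, div_zpow, ← map_zpow₀, hd, map_inv₀, div_inv_eq_mul]
    rw [div_div, map_div₀, h6, one_div, inv_eq_one] at hc
    exact hc
  obtain ⟨α, hα, β, hβ, rfl⟩ := mem_quad _ (mem_adjoin_simple_self K X) hY hθ
  by_cases h3 : α - β * Y ∈ W
  · have := cst_algClosed (K := K) (W := W)
    have h4 := H0 _ (add_mem hα hα) (by convert add_mem h1 h3 using 1; ring)
    have h5 := H0 _ (sub_mem (mul_mem hα hα) (mul_mem (mul_mem hβ hβ) hY))
      (by convert mul_mem h1 h3 using 1; ring)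
    rw [show α + α = α + β * Y + (α - β * Y) by ring, res_add h1 h3] at h4
    rw [show α * α - β * β * Y ^ 2 = (α + β * Y) * (α - β * Y) by ring, res_mul h1 h3] at h5
    obtain ⟨c, hc⟩ := mem_range_of_alg (κ := cst K W) (z := res W (α + β * Y))
      ⟨Polynomial.X ^ 2 + (C ⟨_, h5⟩ - C ⟨_, h4⟩ * Polynomial.X),
        (monic_X_pow_add (by compute_degree!)).ne_zero, by
        simp only [map_add, map_sub, map_mul, map_pow, aeval_X, aeval_C, Subfield.algebraMap_ofSubfield,
          Subfield.coe_subtype]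
        ring⟩
    exact h2 (hc ▸ c.2)
  · exact h2 (res_conj H0 hα hβ hY h1 h3)

theorem factor {u : F} (hu : u ∈ W) (hu' : res W u ∉ cst K W) (a : K) :
    ∃ c : K, W.valuation ((u - algebraMap K F a) / algebraMap K F c) = 1 ∧
      ((algebraMap K F a ∉ W ∧ res W ((u - algebraMap K F a) / algebraMap K F c) = 1) ∨
      (algebraMap K F a ∈ W ∧ res W ((u - algebraMap K F a) / algebraMap K F c) =
        res W u - res W (algebraMap K F a))) := by
  by_cases h : algebraMap K F a ∈ W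
  · refine ⟨1, ?_, Or.inr ⟨h, ?_⟩⟩
    · rw [map_one, div_one, ← res_ne_zero (sub_mem hu h), res_sub hu h, sub_ne_zero]
      exact fun e => hu' (e ▸ res_mem_cst h)
    · rw [map_one, div_one, res_sub hu h]
  · have h1 := mul_lt (neg_mem hu) (inv_lt_of_notMem h)
    have h2 : (u - algebraMap K F a) / algebraMap K F (-a) = 1 + -u * (algebraMap K F a)⁻¹ := by
      have : algebraMap K F a ≠ 0 := fun e => h (e ▸ zero_mem _)
      rw [map_neg]; field_simp; ring
    refine ⟨-a, h2 ▸ val_one_add h1, Or.inl ⟨h, ?_⟩⟩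
    rw [h2, res_add (one_mem _) (mem_of_lt h1), (res_eq_zero (mem_of_lt h1)).2 h1, res_one, add_zero]

theorem res_aeval {z : F} (h : z ∈ W) (q : ℤ[X]) :
    aeval z q ∈ W ∧ res W (aeval z q) = aeval (res W z) q := by
  have := aeval_algHom_apply W.subtype.toIntAlgHom ⟨z, h⟩ q
  change aeval z q = _ at this
  rw [this, res_of h]
  have h2 := aeval_algHom_apply (residue W).toIntAlgHom (⟨z, h⟩ : W) q
  exact ⟨Subtype.property _, (res_coe _ _).trans h2.symm⟩

theorem noDom [IsAlgClosed K] {X Y a b : F} {e1 e2 e3 n : K} (hX : ∀ c, X ≠ algebraMap K F c)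
    (e : Y ^ 2 = (X - algebraMap K F e1) * (X - algebraMap K F e2) * (X - algebraMap K F e3))
    (hgen : ∀ z, z ∈ adjoin K {X, Y}) (hn : algebraMap K F n ∈ W)
    (hn' : ∀ q : ℤ[X], q ≠ 0 → W.valuation (aeval (algebraMap K F n) q) = 1)
    (hl : IsAlgebraic ℤ ((e3 - e1) / (e2 - e1)) ∨ algebraMap K F ((e3 - e1) / (e2 - e1)) ∉ W)
    (ha : a ∈ W) (hb : b ∈ W)
    (hab : W.valuation (b ^ 2 - a * (a - 1) * (a - algebraMap K F n)) < 1)
    (hc : res W a ∉ cst K W) : False := by
  have := cst_algClosed (K := K) (W := W)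
  have tν : Transcendental ℤ (res W (algebraMap K F n)) := by
    rintro ⟨q, h1, h2⟩
    exact (res_ne_zero (res_aeval hn q).1).2 (hn' q h1) ((res_aeval hn q).2.trans h2)
  have : CharZero (ResidueField W) := ⟨fun i j h => by
    by_contra h1
    exact tν ⟨C (i - j : ℤ), C_ne_zero.2 (by omega), by simp [h]⟩⟩
  have lift : ∀ z : cst K W, IsAlgebraic ℚ z ↔ IsAlgebraic ℤ (z : ResidueField W) := fun z => by
    rw [← IsFractionRing.isAlgebraic_iff ℤ ℚ]
    exact (isAlgebraic_algHom_iff (cst K W).subtype.toIntAlgHom Subtype.val_injective).symm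
  have mX := mem_adjoin_simple_self K X
  have mc := fun T : IntermediateField K F => T.algebraMap_mem
  obtain ⟨a0, c, c0, hu, hu'⟩ := exists_gauss hX (e ▸ mul_mem (mul_mem (sub_mem mX (mc _ _))
    (sub_mem mX (mc _ _))) (sub_mem mX (mc _ _))) (hgen a) ha hc
  have c0' : algebraMap K F c ≠ 0 := by simpa using c0
  obtain ⟨u, hu0⟩ : ∃ u, u = (X - algebraMap K F a0) / algebraMap K F c := ⟨_, rfl⟩
  rw [← hu0] at hu hu'
  have hXu : X = u * algebraMap K F c + algebraMap K F a0 := by rw [hu0]; field_simp; ring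
  obtain ⟨c1, v1, r1⟩ := factor hu hu' ((e1 - a0) / c)
  obtain ⟨c2, v2, r2⟩ := factor hu hu' ((e2 - a0) / c)
  obtain ⟨c3, v3, r3⟩ := factor hu hu' ((e3 - a0) / c)
  have nz : ∀ {z : F} {c : K}, W.valuation (z / algebraMap K F c) = 1 → algebraMap K F c ≠ 0 :=
    fun h h0 => by simp [h0] at h
  obtain ⟨d, hd⟩ := IsAlgClosed.exists_pow_nat_eq (c ^ 3 * c1 * c2 * c3) two_pos
  have hd' := congrArg (algebraMap K F) hd
  simp only [map_mul, map_pow] at hd'
  have d0 : algebraMap K F d ≠ 0 := pow_ne_zero_iff two_ne_zero |>.1 (hd' ▸ mul_ne_zero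
    (mul_ne_zero (mul_ne_zero (pow_ne_zero 3 c0') (nz v1)) (nz v2)) (nz v3))
  obtain ⟨η, hη0⟩ : ∃ η, η = Y / algebraMap K F d := ⟨_, rfl⟩
  have hη : η ^ 2 = (u - algebraMap K F ((e1 - a0) / c)) / algebraMap K F c1 *
      ((u - algebraMap K F ((e2 - a0) / c)) / algebraMap K F c2) *
      ((u - algebraMap K F ((e3 - a0) / c)) / algebraMap K F c3) := by
    have := nz v1; have := nz v2; have := nz v3
    rw [hη0, div_pow, hd', e, hXu]
    simp only [map_div₀, map_sub]
    field_simp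
    ring
  have vη : W.valuation η = 1 := by
    rw [← pow_eq_one_iff_of_nonneg zero_le two_ne_zero, ← map_pow, hη, map_mul, map_mul, v1, v2, v3]
    simp
  have mη := mem_of_eq vη
  let T := adjoin (cst K W) {res W u, res W η}
  have hT : cst K W ≤ T.toSubfield := fun z hz => T.algebraMap_mem ⟨z, hz⟩
  have uT : res W u ∈ T := subset_adjoin _ _ (by simp)
  have H0 : ∀ θ ∈ adjoin K {u}, θ ∈ W → res W θ ∈ T.toSubfield := by
    intro θ h3 h4
    rcases eq_or_ne θ 0 with rfl | h0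
    · rw [res_zero]; exact zero_mem _
    refine MT.res_mem hT (simple_ind _ u (fun c => MT.const) (fun a => ?_)
        (fun _ _ => MT.mul) (fun _ => MT.inv) h3 h0) h4
    obtain ⟨c, h5, ⟨-, h6⟩ | ⟨h7, h6⟩⟩ := factor hu hu' a
    · exact ⟨c, h5, h6 ▸ one_mem _⟩
    · exact ⟨c, h5, h6 ▸ sub_mem uT (hT (res_mem_cst h7))⟩
  have mu := mem_adjoin_simple_self K u
  have hη2 : η ^ 2 ∈ adjoin K {u} := hη ▸ mul_mem (mul_mem (div_mem (sub_mem mu (mc _ _)) (mc _ _))
    (div_mem (sub_mem mu (mc _ _)) (mc _ _))) (div_mem (sub_mem mu (mc _ _)) (mc _ _))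
  have v2' : W.valuation 2 = 1 := by
    have := hn' 2 two_ne_zero
    rwa [map_ofNat] at this
  have two0 : (2 : F) ≠ 0 := by intro h; simp [h] at v2'
  have hgen' : ∀ z, z ∈ T := by
    intro z
    obtain ⟨⟨θ, h1⟩, rfl⟩ := residue_surjective z
    rw [← res_of h1]
    obtain ⟨α, hα, β, hβ, rfl⟩ := mem_quad _ mu hη2 (adjoin_le_iff.2 (by
      rintro _ (h | h) <;> rw [h]
      · rw [hXu]; exact add_mem (mul_mem (subset_adjoin _ _ (by simp)) (mc _ _)) (mc _ _)
      · rw [← div_mul_cancel₀ Y d0, ← hη0]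
        exact mul_mem (subset_adjoin _ _ (by simp)) (mc _ _)) (hgen θ))
    by_cases h3 : α - β * η ∈ W
    · have h4 : α ∈ W := by
        convert div_mem_of_eq (add_mem h1 h3) v2' using 1; field_simp; ring
      have h5 : β ∈ W := by
        have : η ≠ 0 := by rintro rfl; simp at vη
        convert div_mem_of_eq (sub_mem h1 h4) vη using 1; field_simp; ring
      rw [res_add h4 (mul_mem h5 mη), res_mul h5 mη]
      exact add_mem (H0 _ hα h4) (mul_mem (H0 _ hβ h5) (subset_adjoin _ _ (by simp)))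
    · exact res_conj H0 hα hβ hη2 h1 h3
  have conv : ∀ {l : ResidueField W} {ε : K}, (algebraMap K F ε ∉ W ∧ l = 1) ∨
      (algebraMap K F ε ∈ W ∧ l = res W u - res W (algebraMap K F ε)) →
      (l = 1 ∨ ∃ c : cst K W, l = res W u - algebraMap _ _ c) ∧ ∀ c : cst K W,
        l = res W u - algebraMap _ _ c → algebraMap K F ε ∈ W ∧ res W (algebraMap K F ε) = c := by
    rintro l ε (⟨h1, rfl⟩ | ⟨h1, rfl⟩)
    · exact ⟨Or.inl rfl, fun c h => absurd (eq_sub_iff_add_eq.1 h ▸ add_mem (one_mem _) c.2) hu'⟩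
    · exact ⟨Or.inr ⟨⟨_, res_mem_cst h1⟩, rfl⟩, fun c h => ⟨h1, sub_right_injective h⟩⟩
  have m1 := mem_of_eq v1
  have m2 := mem_of_eq v2
  have m3 := mem_of_eq v3
  obtain ⟨z, hz⟩ := endgame (x := res W a) (y := res W b) (ν := ⟨_, res_mem_cst hn⟩) hgen'
    (by rintro ⟨z, hz⟩; exact hu' (hz ▸ z.2)) (conv r1).1 (conv r2).1 (conv r3).1
    (by rw [← res_pow mη, hη, res_mul (mul_mem m1 m2) m3, res_mul m1 m2]) (by
      intro d1 d2 d3 s1 s2 s3 hne
      obtain ⟨t1, s1⟩ := (conv r1).2 _ s1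
      obtain ⟨t2, s2⟩ := (conv r2).2 _ s2
      obtain ⟨t3, s3⟩ := (conv r3).2 _ s3
      have h1 := (res_ne_zero (sub_mem t2 t1)).1 (by
        rw [res_sub t2 t1, s1, s2, sub_ne_zero]; exact fun h => hne (Subtype.ext h).symm)
      have h2 : algebraMap K F ((e3 - e1) / (e2 - e1)) =
          (algebraMap K F ((e3 - a0) / c) - algebraMap K F ((e1 - a0) / c)) /
          (algebraMap K F ((e2 - a0) / c) - algebraMap K F ((e1 - a0) / c)) := by
        rw [← map_sub, ← map_sub, ← map_div₀, ← sub_div, ← sub_div, div_div_div_cancel_right₀ c0]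
        congr 2 <;> ring
      have h3 := div_mem_of_eq (sub_mem t3 t1) h1
      have h4 := res_div (sub_mem t3 t1) h1
      rw [← h2] at h3 h4
      rw [res_sub t3 t1, res_sub t2 t1, s1, s2, s3] at h4
      obtain ⟨q, h5, h6⟩ := hl.resolve_right (not_not.2 h3)
      rw [lift]
      push_cast
      refine ⟨q, h5, ?_⟩
      rw [← h4, ← (res_aeval h3 q).2, aeval_algebraMap_apply, h6, map_zero, res_zero])
    (fun h => tν ((lift _).1 h)) (by
      have h1 := sub_mem ha (one_mem _)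
      have h2 := sub_mem ha hn
      have := (res_eq_iff (pow_mem hb 2) (mul_mem (mul_mem ha h1) h2)).2 hab
      rwa [res_pow hb, res_mul (mul_mem ha h1) h2, res_mul ha h1, res_sub ha hn,
        res_sub ha (one_mem _), res_one] at this)
  exact hc (hz ▸ z.2)

end Pool.Agent.P.MP_d3e5c7_ag.G1
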