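import Pool.Agent.P.MP_d3e5c7_ag.G1O
import Pool.Agent.P.MP_d3e5c7_ag.G1R
import Pool.Agent.P.MP_d3e5c7_ag.Neg

/-! Reduction of the curve: either the cubic is a component or the canonical degree is small. -/

set_option autoImplicit false

namespace Pool.Agent.P.MP_d3e5c7_ag.G1

open MvPolynomial IsLocalRing

variable {ι : Type} [Fintype ι]

theorem van_scale {σ K : Type*} [Fintype σ] [Field K] {G : MvPolynomial σ K} {d : ℕ}
    (hG : G.IsHomogeneous d) {P : σ → K} {m : ℤ} (h : Van P m G) {c : K} (hc : c ≠ 0) :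
    Van (fun k => P k / c) m G := by
  have h1 := Van.comp (fun k => C c * X k) (fun k => P k / c) (n := m) (f := G) (by
    convert h using 2 with k; simp; field_simp)
  rw [aeval_smul_hom hG, aeval_X_left_apply] at h1
  exact h1.of_mul (by simp [hc])

theorem dich {κ : Type} [Field κ] [IsAlgClosed κ] (ν : κ) (Q : ι → Fin 3 → κ)
    (h1 : ∀ i, Q i 1 ^ 2 * Q i 2 - Q i 0 * (Q i 0 - Q i 2) * (Q i 0 - ν * Q i 2) = 0)
    (h2 : ∀ i, ∃ k, Q i k ≠ 0) (h3 : ∀ i j, i ≠ j → ∃ k l, Q i k * Q j l - Q i l * Q j k ≠ 0)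
    {G : MvPolynomial (Fin 3) κ} {d : ℕ} (hG : G.IsHomogeneous d) (h0 : G ≠ 0) {m : ι → ℤ}
    (hm : ∀ i, Van (Q i) (m i) G) (hd : 3 * (d : ℤ) < ∑ i, m i) :
    ∃ (Ω : Type) (_ : Field Ω) (_ : Algebra κ Ω) (x y : Ω),
      y ^ 2 = x * (x - 1) * (x - algebraMap κ Ω ν) ∧ x ∉ (algebraMap κ Ω).range ∧
        aeval ![x, y, 1] G = 0 := by
  obtain ⟨v, hv⟩ : ∃ v : Fin 2 → κ, ∀ i, Q i 2 + v 0 * Q i 0 + v 1 * Q i 1 ≠ 0 := by
    by_contra hc
    push Not at hc
    have : ∏ i, (C (Q i 2) + X 0 * C (Q i 0) + X 1 * C (Q i 1) : MvPolynomial (Fin 2) κ) = 0 :=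
      MvPolynomial.funext fun v => by
        obtain ⟨i, hi⟩ := hc v
        rw [map_prod, map_zero]
        exact Finset.prod_eq_zero (Finset.mem_univ i) (by simpa using hi)
    obtain ⟨i, -, hi⟩ := Finset.prod_eq_zero_iff.1 this
    have e0 := congrArg (eval ![0, 0]) hi
    have e1 := congrArg (eval ![1, 0]) hi
    have e2 := congrArg (eval ![0, 1]) hi
    obtain ⟨k, hk⟩ := h2 i
    simp at e0 e1 e2
    simp only [e0, zero_add] at e1 e2
    fin_cases k <;> exact hk ‹_›
  let T : Fin 3 → MvPolynomial (Fin 2) κ := ![X 0, X 1, 1 - C (v 0) * X 0 - C (v 1) * X 1]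
  have hT : ∀ k, (T k).totalDegree ≤ 1 := fun k => by
    have : ∀ (c : κ) (j : Fin 2), (C c * X j).totalDegree ≤ 1 := fun c j =>
      (totalDegree_mul _ _).trans (by simp)
    fin_cases k
    · simp [T]
    · simp [T]
    · exact (totalDegree_sub _ _).trans (max_le ((totalDegree_sub _ _).trans
        (max_le (by simp) (this _ _))) (this _ _))
  have hev : ∀ w : Fin 3 → κ, w 2 + v 0 * w 0 + v 1 * w 1 ≠ 0 → (fun k => eval
      ![w 0 / (w 2 + v 0 * w 0 + v 1 * w 1), w 1 / (w 2 + v 0 * w 0 + v 1 * w 1)] (T k)) =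
      fun k => w k / (w 2 + v 0 * w 0 + v 1 * w 1) := fun w hw => by
    ext k
    fin_cases k <;> simp [T]
    field_simp; ring
  let q : ι → Fin 2 → κ := fun i => ![Q i 0 / (Q i 2 + v 0 * Q i 0 + v 1 * Q i 1),
    Q i 1 / (Q i 2 + v 0 * Q i 0 + v 1 * Q i 1)]
  have hq : Function.Injective q := fun i j hij => by
    by_contra hne
    obtain ⟨k, l, h⟩ := h3 i j hne
    have e := (hev _ (hv i)).symm.trans ((congrArg (fun a k => eval a (T k)) hij).trans (hev _ (hv j)))
    have e1 := congrFun e k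
    have e2 := congrFun e l
    rw [div_eq_div_iff (hv i) (hv j)] at e1 e2
    exact h (mul_left_cancel₀ (hv j) (by linear_combination Q j l * e1 - Q j k * e2))
  have hvan : ∀ {G : MvPolynomial (Fin 3) κ} {d : ℕ} {m : ℤ} (i : ι), G.IsHomogeneous d →
      Van (Q i) m G → Van (q i) m (aeval T G) := fun i hG h => by
    apply Van.comp
    rw [hev _ (hv i)]
    exact van_scale hG h (hv i)
  have g0 : aeval T G ≠ 0 := fun h => by
    have : G * (X 2 + C (v 0) * X 0 + C (v 1) * X 1) = 0 := MvPolynomial.funext fun w => by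
      rw [map_mul, map_zero]
      by_cases hw : w 2 + v 0 * w 0 + v 1 * w 1 = 0
      · simp [hw]
      · have e := aeval_smul_hom hG (w 2 + v 0 * w 0 + v 1 * w 1)
          fun k => w k / (w 2 + v 0 * w 0 + v 1 * w 1)
        simp only [mul_div_cancel₀ _ hw, aeval_eq_eval] at e
        rw [← hev w hw, ← eval_aeval', h] at e
        simp [show eval w G = 0 by simpa using e]
    have h4 := congrArg (eval ![0, 0, 1]) ((mul_eq_zero.1 this).resolve_left h0)
    simp at h4
  obtain ⟨r, hr, hrG, hr2⟩ := exists_irred_factor q 3 (fun _ => 1) _ g0 (by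
    have h4 := (totalDegree_aeval_le T hT G).trans hG.totalDegree_le
    have h5 := Finset.sum_le_sum fun i (_ : i ∈ Finset.univ) =>
      (van_iff_le_ordN _ g0 _).1 (hvan i hG (hm i))
    simp only [dot, one_mul]
    omega)
  let γ : MvPolynomial (Fin 3) κ := X 1 ^ 2 * X 2 - X 0 * (X 0 - X 2) * (X 0 - C ν * X 2)
  have hγ : γ.IsHomogeneous 3 := ((isHomogeneous_X_pow _ 2).mul (isHomogeneous_X _ _)).sub
    (((isHomogeneous_X _ _).mul ((isHomogeneous_X _ _).sub (isHomogeneous_X _ _))).mul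
      ((isHomogeneous_X _ _).sub (isHomogeneous_C_mul_X _ _)))
  have hrγ : r ∣ aeval T γ := by
    by_contra hc
    have := A_bezout q hq r _ hr hc _ 3 rfl ((totalDegree_aeval_le T hT γ).trans hγ.totalDegree_le)
      (fun i => ordN (q i) r) (fun _ => 1)
      (fun i => (van_iff_hc _ _ _).1 ((van_iff_le_ordN _ hr.ne_zero _).2 le_rfl))
      (fun i => (van_iff_hc _ _ _).1 (hvan i hγ (by
        simpa using Van.pow (p := Q i) (f := γ) (by simpa [γ] using h1 i) 1)))
    simp only [dot, one_mul, mul_one] at hr2 this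
    zify at this
    omega
  have : (Ideal.span {r}).IsPrime := (Ideal.span_singleton_prime hr.ne_zero).2 hr.prime
  obtain ⟨Ω, _, _, π, hπ⟩ : ∃ (Ω : Type) (_ : Field Ω) (_ : Algebra κ Ω)
      (π : MvPolynomial (Fin 2) κ →ₐ[κ] Ω), ∀ h, π h = 0 ↔ r ∣ h :=
    ⟨FractionRing (MvPolynomial (Fin 2) κ ⧸ Ideal.span {r}), inferInstance, inferInstance,
      (IsScalarTower.toAlgHom κ _ _).comp (Ideal.Quotient.mkₐ κ (Ideal.span {r})), fun h => by
      rw [← Ideal.mem_span_singleton, ← Ideal.Quotient.eq_zero_iff_mem]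
      exact map_eq_zero_iff _ (IsFractionRing.injective (MvPolynomial (Fin 2) κ ⧸ Ideal.span {r}) _)⟩
  have nc : π (X 0) ∈ (algebraMap κ Ω).range → π (X 1) ∉ (algebraMap κ Ω).range := by
    rintro ⟨c, hc⟩ ⟨e, he⟩
    obtain ⟨s, hs⟩ := (hπ (X 0 - C c)).1 (by rw [map_sub, ← hc, algHom_C, sub_self])
    have h4 := (hπ (X 1 - C e)).1 (by rw [map_sub, ← he, algHom_C, sub_self])
    have h5 : Irreducible (X 0 - C c : MvPolynomial (Fin 2) κ) := by
      refine irreducible_of_totalDegree_eq_one ?_ fun a ha => ?_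
      · rw [sub_eq_add_neg, totalDegree_add_eq_left_of_totalDegree_lt] <;> simp
      · refine isUnit_iff_ne_zero.2 fun h => ?_
        simpa [h, coeff_C, eq_comm] using ha (Finsupp.single 0 1)
    obtain ⟨u, rfl⟩ := (h5.isUnit_or_isUnit hs).resolve_left hr.not_isUnit
    have h6 := map_dvd (eval ![c, e + 1]) ((hs ▸ Units.mul_right_dvd.2 dvd_rfl :
      (X 0 - C c : MvPolynomial (Fin 2) κ) ∣ r).trans h4)
    simp at h6
  have e1 := (hπ _).2 hrG
  have e2 := (hπ _).2 hrγ
  rw [comp_aeval_apply] at e1 e2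
  simp only [γ, T, map_sub, map_mul, map_pow, aeval_X, Matrix.cons_val_zero,
    Matrix.cons_val_one, Matrix.cons_val, map_one, algHom_C] at e2
  have e3 : (fun k => π (T k)) = ![π (X 0), π (X 1),
      1 - algebraMap κ Ω (v 0) * π (X 0) - algebraMap κ Ω (v 1) * π (X 1)] := by
    ext k; fin_cases k <;> simp [T]
  rw [e3] at e1
  generalize π (X 0) = x at *
  generalize π (X 1) = y at *
  obtain ⟨z, hz⟩ : ∃ z, z = 1 - algebraMap κ Ω (v 0) * x - algebraMap κ Ω (v 1) * y := ⟨_, rfl⟩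
  rw [← hz] at e1 e2
  have z0 : z ≠ 0 := by
    rintro rfl
    obtain rfl : x = 0 := pow_eq_zero_iff three_ne_zero |>.1 (by linear_combination -e2)
    refine nc (zero_mem _) ⟨(v 1)⁻¹, ?_⟩
    rw [map_inv₀]
    exact (eq_inv_of_mul_eq_one_right (by linear_combination hz)).symm
  have e4 : (y / z) ^ 2 = x / z * (x / z - 1) * (x / z - algebraMap κ Ω ν) := by
    field_simp; linear_combination e2
  refine ⟨Ω, inferInstance, inferInstance, x / z, y / z, e4, ?_, ?_⟩
  · rintro ⟨c, hc⟩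
    obtain ⟨e, he⟩ := mem_range_of_alg (κ := κ) (z := y / z) (IsAlgebraic.of_pow two_pos (by
      rw [e4, ← hc, ← map_one (algebraMap κ Ω), ← map_sub, ← map_sub, ← map_mul, ← map_mul]
      exact isAlgebraic_algebraMap _))
    have e5 : z = algebraMap κ Ω (1 + v 0 * c + v 1 * e)⁻¹ := by
      rw [map_inv₀]
      apply eq_inv_of_mul_eq_one_left
      simp only [map_add, map_mul, map_one, hc, he]
      field_simp
      linear_combination hz
    exact nc ⟨c * _, by rw [map_mul, ← e5, hc, div_mul_cancel₀ _ z0]⟩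
      ⟨e * _, by rw [map_mul, ← e5, he, div_mul_cancel₀ _ z0]⟩
  · have := aeval_smul_hom hG z⁻¹ ![x, y, z]
    rw [e1, mul_zero] at this
    rw [← this]
    congr 2
    ext k; fin_cases k <;> simp [z0, div_eq_inv_mul]

theorem exists_prim {σ K : Type*} [Field K] (O : ValuationSubring K) {f : MvPolynomial σ K}
    (hf : f ≠ 0) : ∃ c : K, c ≠ 0 ∧ ∃ g : MvPolynomial σ O, map O.subtype g = C c * f ∧
      map (residue O) g ≠ 0 := by
  obtain ⟨j, -, h1, h2⟩ := exists_norm (V := O) f.support (fun m => coeff m f) (by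
    obtain ⟨m, h⟩ := ne_zero_iff.1 hf
    exact ⟨m, mem_support_iff.2 h, h⟩)
  obtain ⟨g, hg⟩ := (mem_range_map_iff_coeffs_subset (f := O.subtype)
    (x := C (coeff j f)⁻¹ * f)).2 fun c hc => by
      obtain ⟨m, h3, rfl⟩ := mem_coeffs_iff.1 hc
      rw [mem_support_iff, coeff_C_mul] at h3
      rw [coeff_C_mul, ← div_eq_inv_mul]
      exact ⟨⟨_, h2 m (mem_support_iff.2 (right_ne_zero_of_mul h3))⟩, rfl⟩
  refine ⟨_, inv_ne_zero h1, g, hg, fun h => ?_⟩
  have h3 := congrArg (coeff j) hg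
  have h4 := congrArg (coeff j) h
  rw [coeff_map, coeff_C_mul, inv_mul_cancel₀ h1] at h3
  rw [coeff_map, show coeff j g = 1 from Subtype.ext h3] at h4
  simp at h4

theorem ker_lemma {K F : Type*} [Field K] [IsAlgClosed K] [Field F] [Algebra K F] {v : Fin 2 → F}
    {f h : MvPolynomial (Fin 2) K} (hf : Irreducible f) (h1 : aeval v f = 0) (h2 : aeval v h = 0)
    (h3 : ¬ f ∣ h) (k : Fin 2) : v k ∈ (algebraMap K F).range := by
  have h4 : FiniteDimensional K _ := PA.cof_pair hf h3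
  have h5 : (Ideal.span {f, h}).restrictScalars K ≤ LinearMap.ker (aeval v).toLinearMap :=
    fun z hz => (Ideal.span_le (I := RingHom.ker (aeval v))).2 (by
      rintro _ (rfl | rfl) <;> assumption) hz
  refine mem_range_of_alg (IsIntegral.of_mem_of_fg (aeval v).range ?_ _ ⟨X k, aeval_X _ _⟩).isAlgebraic
  have h6 : (LinearMap.range (Submodule.liftQ _ _ h5)).FG := Submodule.fg_range _
  rwa [Submodule.range_liftQ] at h6

theorem canon_le {p : ι → Fin 2 → ℂ}
    (hp : AlgebraicIndependent ℚ (fun ij : ι × Fin 2 => p ij.1 ij.2))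
    {f : MvPolynomial (Fin 2) ℂ} (hf : Irreducible f) {m : ι → ℤ} (hv : ∀ i, Van (p i) (m i) f)
    {F : Type*} [Field F] [Algebra ℂ F] {x y a b : F} {e1 e2 e3 : ℂ}
    (hX : ∀ c, x ≠ algebraMap ℂ F c)
    (e : y ^ 2 = (x - algebraMap ℂ F e1) * (x - algebraMap ℂ F e2) * (x - algebraMap ℂ F e3))
    (hgen : ∀ z, z ∈ IntermediateField.adjoin ℂ {x, y}) (hab : aeval ![a, b] f = 0)
    (hc : ¬ (a ∈ (algebraMap ℂ F).range ∧ b ∈ (algebraMap ℂ F).range)) :
    ∑ i, m i ≤ 3 * f.totalDegree := by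
  classical
  by_contra hd
  obtain ⟨O, P, n, o1, o2, o3, o4, o5, o6, o7, o8⟩ := exists_O p hp ((e3 - e1) / (e2 - e1))
  have := algClosed_of_surj O (residue O) residue_surjective
  obtain ⟨c, c0, g, g1, g2⟩ := exists_prim O hf.ne_zero
  have g3 : g.totalDegree ≤ f.totalDegree := by
    rw [totalDegree, ← support_map_of_injective g O.subtype_injective, ← totalDegree, g1]
    exact (totalDegree_mul _ _).trans (by simp)
  have hdh : ∀ {R S : Type} [CommRing R] [CommRing S] (φ : R →+* S) (G : MvPolynomial (Fin 3) R),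
      dh (map φ G) = map φ (dh G) := fun φ G => by
    induction G using MvPolynomial.induction_on with
    | C a => simp [dh]
    | add p q hp hq => simp [hp, hq]
    | mul_X p k hp => simp only [map_mul, hp]; fin_cases k <;> simp [dh]
  have g4 : map O.subtype (hm f.totalDegree g) = hm f.totalDegree (C c * f) := by
    have h1 : (C c * f).totalDegree ≤ f.totalDegree := (totalDegree_mul _ _).trans (by simp)
    rw [← sub_eq_zero]
    apply dh_inj (((hm_hom g3).map _).sub (hm_hom h1))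
    rw [map_sub, hdh, dh_hm, dh_hm, g1, sub_self]
  obtain ⟨Ω, _, _, u, v, d1, d2, d3⟩ := dich (res O n) (fun i k => res O (P i k))
    (fun i => by
      have h1 := mul_mem (pow_mem (o5 i 1) 2) (o5 i 2)
      have h2 := sub_mem (o5 i 0) (o5 i 2)
      have h3 := sub_mem (o5 i 0) (mul_mem o1 (o5 i 2))
      have := (res_eq_zero (mem_of_lt (o6 i))).2 (o6 i)
      rwa [res_sub h1 (mul_mem (mul_mem (o5 i 0) h2) h3), res_mul (mul_mem (o5 i 0) h2) h3,
        res_mul (o5 i 0) h2, res_sub (o5 i 0) (o5 i 2), res_sub (o5 i 0) (mul_mem o1 (o5 i 2)),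
        res_mul o1 (o5 i 2), res_mul (pow_mem (o5 i 1) 2) (o5 i 2), res_pow (o5 i 1)] at this)
    (fun i => (o7 i).imp fun k h => (res_ne_zero (o5 i k)).2 h)
    (fun i j hij => by
      obtain ⟨k, l, h⟩ := o8 i j hij
      have := (res_ne_zero (mem_of_eq h)).2 h
      rw [res_sub (mul_mem (o5 _ _) (o5 _ _)) (mul_mem (o5 _ _) (o5 _ _)), res_mul (o5 _ _) (o5 _ _),
        res_mul (o5 _ _) (o5 _ _)] at this
      exact ⟨k, l, this⟩)
    ((hm_hom g3).map (residue O)) (fun h => g2 (by rw [← dh_hm f.totalDegree g, ← hdh, h, map_zero]))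
    (m := m) (fun i β hβ => by
      have h1 := van_hm' (n := f.totalDegree) ((totalDegree_mul (C c) f).trans (by simp)) (P i)
        (o4 i).1 (by rw [(o4 i).2]; exact (hv i).mul_left _) β hβ
      have h2 := map_sh O.subtype (fun k => ⟨P i k, o5 i k⟩) (hm f.totalDegree g)
      have h3 := map_sh (residue O) (fun k => ⟨P i k, o5 i k⟩) (hm f.totalDegree g)
      rw [← g4] at h1
      simp only [← res_of] at h3
      have h4 : coeff β (sh (fun k => ⟨P i k, o5 i k⟩) (hm f.totalDegree g)) = 0 :=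
        O.subtype_injective (by rw [← coeff_map, h2, map_zero]; exact h1)
      rw [← h3, coeff_map, h4, map_zero]) (not_le.1 hd)
  have d4 : aeval ![u, v] (map (residue O) g) = 0 := by
    have h1 := hdh (residue O) (hm f.totalDegree g)
    rw [dh_hm] at h1
    rw [← d3, ← h1, dh, comp_aeval_apply]
    congr 2
    ext k; fin_cases k <;> simp
  let α : MvPolynomial (Fin 2) O →+* F := (aeval ![a, b]).toRingHom.comp (map O.subtype)
  let β : MvPolynomial (Fin 2) O →+* Ω := (aeval ![u, v]).toRingHom.comp (map (residue O))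
  obtain ⟨W, w1, w2⟩ := chev α β fun h hh => by
    obtain ⟨q, hq⟩ : f ∣ map O.subtype h := by
      by_contra h1
      exact hc ⟨ker_lemma hf hab hh h1 0, ker_lemma hf hab hh h1 1⟩
    have inj := map_injective (σ := Fin 2) _ O.subtype_injective
    rcases eq_or_ne q 0 with rfl | q0
    · rw [inj (a₂ := 0) (hq.trans (by simp)), map_zero]
    obtain ⟨c', c0', g', g1', g2'⟩ := exists_prim O q0
    by_cases h1 : (c * c')⁻¹ ∈ O
    · have : h = C ⟨_, h1⟩ * g * g' := inj (by
        rw [map_mul, map_mul, g1, g1', hq, map_C, ← one_mul (f * q), ← C_1,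
          ← inv_mul_cancel₀ (mul_ne_zero c0 c0'), map_mul, map_mul]
        simp only [ValuationSubring.coe_subtype]
        ring)
      rw [this, map_mul, map_mul, show β g = 0 from d4, mul_zero, zero_mul]
    · have h2 := inv_lt_of_notMem h1
      rw [inv_inv] at h2
      have : C ⟨_, mem_of_lt h2⟩ * h = g * g' := inj (by
        rw [map_mul, map_mul, g1, g1', hq, map_C]
        simp only [ValuationSubring.coe_subtype, map_mul]
        ring)
      have h3 := congrArg (map (residue O)) this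
      rw [map_mul, map_mul, map_C, ← res_of, (res_eq_zero (mem_of_lt h2)).2 h2, C_0, zero_mul] at h3
      exact absurd h3.symm (mul_ne_zero g2 g2')
  have w3 : ∀ c (h : c ∈ O), algebraMap ℂ F c ∈ W ∧
      (W.valuation (algebraMap ℂ F c) < 1 ↔ O.valuation c < 1) := fun c h => by
    have h1 := w2 (C ⟨c, h⟩)
    rw [← res_eq_zero h, res_of h]
    exact ⟨by simpa [α] using w1 (C ⟨c, h⟩), by simpa [α, β] using h1⟩
  have w4 : ∀ c, algebraMap ℂ F c ∈ W → c ∈ O := fun c h => by
    by_contra h1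
    have h2 := inv_lt_of_notMem h1
    have h3 := mul_lt h ((w3 _ (mem_of_lt h2)).2.2 h2)
    rw [← map_mul, mul_inv_cancel₀ (by rintro rfl; exact h1 (zero_mem _))] at h3
    simp at h3
  have wa : a ∈ W := by simpa [α] using w1 (X 0)
  refine noDom hX e hgen (w3 n o1).1 (fun q hq => ?_) (o3.imp id fun h h' => h (w4 _ h')) wa
    (by simpa [α] using w1 (X 1) : b ∈ W) ?_ ?_
  · have h1 := w3 _ (mem_of_eq (o2 q hq))
    rw [Polynomial.aeval_algebraMap_apply]
    exact le_antisymm (le_of_mem h1.1) (not_lt.1 fun h => (h1.2.1 h).ne (o2 q hq))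
  · have := (w2 (X 1 ^ 2 - X 0 * (X 0 - 1) * (X 0 - C ⟨n, o1⟩))).2 (by
      simp [β, d1, res_of o1])
    simpa [α] using this
  · rintro ⟨⟨c, h1⟩, h2⟩
    have h3 : algebraMap ℂ F c ∈ W := h1
    have h4 := (res_eq_iff wa h3).1 (h2.symm.trans (res_of h3).symm)
    have h5 := (w2 (X 0 - C ⟨c, w4 c h3⟩)).1 (by simpa [α] using h4)
    simp only [β, RingHom.comp_apply, map_sub, map_X, map_C, AlgHom.toRingHom_eq_coe,
      RingHom.coe_coe, aeval_X, aeval_C, sub_eq_zero] at h5
    exact d2 ⟨_, h5.symm⟩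

end Pool.Agent.P.MP_d3e5c7_ag.G1
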