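import Pool.Agent.P.MP_d3e5c7_ag.G1N

/-! Degenerate cubics do not dominate a smooth one. -/

set_option autoImplicit false

namespace Pool.Agent.P.MP_d3e5c7_ag.G1

open Polynomial IntermediateField

variable {κ k : Type*} [Field κ] [Field k] [Algebra κ k]

theorem trdeg_le {u η : k} (hη : η ^ 2 ∈ adjoin κ {u}) (h : ∀ z, z ∈ adjoin κ {u, η}) :
    Algebra.trdeg κ k ≤ 1 := by
  have : Algebra.IsAlgebraic (Algebra.adjoin κ {u}) k := ⟨fun z => by
    rw [← IntermediateField.isAlgebraic_adjoin_iff]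
    obtain ⟨a, ha, b, hb, rfl⟩ := mem_quad _ (mem_adjoin_simple_self κ u) hη (h z)
    have h1 : ∀ a ∈ adjoin κ {u}, IsAlgebraic (adjoin κ {u}) a := fun a ha =>
      isAlgebraic_algebraMap (⟨a, ha⟩ : adjoin κ {u})
    exact (h1 a ha).add ((h1 b hb).mul ((h1 _ hη).of_pow two_pos))⟩
  simpa using Algebra.IsAlgebraic.trdeg_le_cardinalMk κ ({u} : Set k)

theorem end_rat [IsAlgClosed κ] [CharZero κ] (htr : Algebra.trdeg κ k ≤ 1) {ν : κ}
    (hν : Transcendental ℚ ν) {τ x y : k} (hx : x ∈ adjoin κ {τ}) (hy : y ∈ adjoin κ {τ})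
    (e' : y ^ 2 = x * (x - 1) * (x - algebraMap κ k ν)) : x ∈ (algebraMap κ k).range := by
  by_cases hτ : τ ∈ (algebraMap κ k).range
  · exact IntermediateField.mem_bot.1 (adjoin_simple_eq_bot_iff.2 hτ ▸ hx)
  let L := AlgebraicClosure k
  let φ := IsScalarTower.toAlgHom κ k L
  have h1 : Algebra.trdeg κ L ≤ 1 := by
    rwa [← trdeg_add_eq κ k, trdeg_eq_zero (R := k), add_zero]
  have h2 : ∀ z, φ z ∈ (algebraMap κ L).range → z ∈ (algebraMap κ k).range := by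
    rintro z ⟨c, hc⟩; exact ⟨c, φ.injective ((φ.commutes c).trans hc)⟩
  obtain ⟨η, hη⟩ := IsAlgClosed.exists_pow_nat_eq (φ τ * (φ τ - 1) * (φ τ - algebraMap κ L (-1)))
    two_pos
  have h3 : ∀ z ∈ adjoin κ {τ}, φ z ∈ adjoin κ {φ τ, η} := fun z hz => by
    have := adjoin_map κ {τ} φ ▸ (show φ z ∈ (adjoin κ {τ}).map φ from ⟨z, hz, rfl⟩)
    exact adjoin.mono κ _ _ (by simp) this
  refine h2 x (nonIso h1 (l := -1) (by norm_num) (by norm_num) isAlgebraic_one.neg hν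
    (fun h => hτ (h2 _ h)) hη (h3 x hx) (h3 y hy) ?_)
  simpa using congrArg φ e'

theorem conic {u η l1 l2 : k} (h1 : l1 = 1 ∨ ∃ c : κ, l1 = u - algebraMap κ k c)
    (h2 : l2 = 1 ∨ ∃ c : κ, l2 = u - algebraMap κ k c) (h0 : l1 ≠ 0) (e : η ^ 2 = l1 * l2) :
    ∃ τ, u ∈ adjoin κ {τ} ∧ η ∈ adjoin κ {τ} := by
  have key : ∀ τ, u ∈ adjoin κ {τ} → l1 ∈ adjoin κ {τ} := fun τ h => by
    rcases h1 with rfl | ⟨c, rfl⟩
    · exact one_mem _
    · exact sub_mem h (IntermediateField.algebraMap_mem _ c)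
  obtain ⟨t, rfl⟩ : ∃ t, η = t * l1 := ⟨η / l1, by field_simp⟩
  have e1 : l2 = t ^ 2 * l1 := mul_left_cancel₀ h0 (by linear_combination -e)
  by_cases ht : t ^ 2 = 1
  · refine ⟨u, mem_adjoin_simple_self _ _, mul_mem ?_ (key u (mem_adjoin_simple_self _ _))⟩
    rcases sq_eq_one_iff.1 ht with rfl | rfl
    · exact one_mem _
    · exact neg_mem (one_mem _)
  have m := mem_adjoin_simple_self κ t
  have m2 := pow_mem m 2
  have mc := IntermediateField.algebraMap_mem (adjoin κ {t})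
  suffices u ∈ adjoin κ {t} from ⟨t, this, mul_mem m (key t this)⟩
  rcases h1 with rfl | ⟨c, rfl⟩ <;> rcases h2 with rfl | ⟨d, rfl⟩
  · exact absurd (by linear_combination -e1) ht
  · convert add_mem m2 (mc d) using 1; linear_combination e1
  · convert add_mem (inv_mem m2) (mc c) using 1
    rw [← eq_inv_of_mul_eq_one_right e1.symm]; ring
  · convert div_mem (sub_mem (mul_mem m2 (mc c)) (mc d)) (sub_mem m2 (one_mem _)) using 1
    rw [eq_div_iff (sub_ne_zero.2 ht)]; linear_combination -e1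

theorem endgame [IsAlgClosed κ] [CharZero κ] {u η l1 l2 l3 x y : k} {ν : κ}
    (hgen : ∀ z, z ∈ adjoin κ {u, η}) (hu : u ∉ (algebraMap κ k).range)
    (h1 : l1 = 1 ∨ ∃ c : κ, l1 = u - algebraMap κ k c)
    (h2 : l2 = 1 ∨ ∃ c : κ, l2 = u - algebraMap κ k c)
    (h3 : l3 = 1 ∨ ∃ c : κ, l3 = u - algebraMap κ k c) (e : η ^ 2 = l1 * l2 * l3)
    (H : ∀ c1 c2 c3 : κ, l1 = u - algebraMap κ k c1 → l2 = u - algebraMap κ k c2 →
      l3 = u - algebraMap κ k c3 → c1 ≠ c2 → IsAlgebraic ℚ ((c3 - c1) / (c2 - c1)))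
    (hν : Transcendental ℚ ν) (e' : y ^ 2 = x * (x - 1) * (x - algebraMap κ k ν)) :
    x ∈ (algebraMap κ k).range := by
  have hm : ∀ {l : k} {T : IntermediateField κ k}, u ∈ T →
      (l = 1 ∨ ∃ c : κ, l = u - algebraMap κ k c) → l ∈ T ∧ l ≠ 0 := by
    rintro l T h (rfl | ⟨c, rfl⟩)
    · exact ⟨one_mem _, one_ne_zero⟩
    · exact ⟨sub_mem h (T.algebraMap_mem c), fun h => hu ⟨c, (sub_eq_zero.1 h).symm⟩⟩
  have m := mem_adjoin_simple_self κ u
  have htr := trdeg_le (e ▸ mul_mem (mul_mem (hm m h1).1 (hm m h2).1) (hm m h3).1) hgen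
  have hle : ∀ T : IntermediateField κ k, u ∈ T → η ∈ T → ∀ z, z ∈ T := fun T a b z =>
    adjoin_le_iff.2 (by rintro _ (rfl | rfl) <;> assumption) (hgen z)
  have r1 : ∀ {a b : k}, (a = 1 ∨ ∃ c : κ, a = u - algebraMap κ k c) →
      (b = 1 ∨ ∃ c : κ, b = u - algebraMap κ k c) → η ^ 2 = a * b → x ∈ (algebraMap κ k).range := by
    intro a b ha hb e
    obtain ⟨τ, t1, t2⟩ := conic ha hb (hm m ha).2 e
    exact end_rat htr hν (hle _ t1 t2 x) (hle _ t1 t2 y) e'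
  have r2 : ∀ {a b : k}, (a = 1 ∨ ∃ c : κ, a = u - algebraMap κ k c) →
      (b = 1 ∨ ∃ c : κ, b = u - algebraMap κ k c) → η ^ 2 = a * a * b →
      x ∈ (algebraMap κ k).range := by
    intro a b ha hb e
    have h0 := (hm m ha).2
    obtain ⟨τ, t1, t2⟩ := conic (η := η / a) (Or.inl rfl) hb one_ne_zero (by
      field_simp; linear_combination e)
    have t3 := mul_mem t2 (hm t1 ha).1
    rw [div_mul_cancel₀ _ h0] at t3
    exact end_rat htr hν (hle _ t1 t3 x) (hle _ t1 t3 y) e'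
  obtain rfl | ⟨c1, e1⟩ := id h1
  · exact r1 h2 h3 (by rw [e, one_mul])
  obtain rfl | ⟨c2, e2⟩ := id h2
  · exact r1 h1 h3 (by rw [e, mul_one])
  obtain rfl | ⟨c3, e3⟩ := id h3
  · exact r1 h1 h2 (by rw [e, mul_one])
  by_cases n1 : c1 = c2
  · exact r2 h1 h3 (by rw [e, e1, e2, n1])
  by_cases n2 : c3 = c1
  · exact r2 h1 h2 (by rw [e, e1, e3, n2]; ring)
  by_cases n3 : c3 = c2
  · exact r2 h2 h1 (by rw [e, e2, e3, n3]; ring)
  have n4 : c2 - c1 ≠ 0 := sub_ne_zero.2 (Ne.symm n1)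
  obtain ⟨d, hd⟩ := IsAlgClosed.exists_pow_nat_eq ((c2 - c1) ^ 3) two_pos
  have d0 : algebraMap κ k d ≠ 0 := by
    rw [_root_.map_ne_zero]; rintro rfl; exact pow_ne_zero 3 n4 (by simpa using hd.symm)
  have n5 : algebraMap κ k c2 - algebraMap κ k c1 ≠ 0 := by rwa [← map_sub, _root_.map_ne_zero]
  set u' := (u - algebraMap κ k c1) / (algebraMap κ k c2 - algebraMap κ k c1) with hu'
  have hu2 : u = u' * algebraMap κ k (c2 - c1) + algebraMap κ k c1 := by
    rw [hu', map_sub]; field_simp; ring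
  have hT := hle (adjoin κ {u', η / algebraMap κ k d}) (by
    rw [hu2]
    exact add_mem (mul_mem (subset_adjoin _ _ (by simp)) (IntermediateField.algebraMap_mem _ _))
      (IntermediateField.algebraMap_mem _ _)) (by
    have := mul_mem (subset_adjoin κ {u', η / algebraMap κ k d} (Or.inr rfl))
      (IntermediateField.algebraMap_mem _ d)
    rwa [div_mul_cancel₀ _ d0] at this)
  refine nonIso htr (div_ne_zero (sub_ne_zero.2 n2) n4) (fun h => n3 ?_) (H _ _ _ e1 e2 e3 n1) hν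
    (fun h => hu ?_) ?_ (hT x) (hT y) e'
  · rw [div_eq_one_iff_eq n4] at h; linear_combination h
  · rw [hu2]; exact add_mem (mul_mem h ⟨_, rfl⟩) ⟨_, rfl⟩
  · rw [div_pow, ← map_pow, hd, e, e1, e2, e3, hu']
    simp only [map_pow, map_div₀, map_sub]
    field_simp
    ring

end Pool.Agent.P.MP_d3e5c7_ag.G1
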