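import Pool.Agent.P.MP_d3e5c7_ag.G1B

/-! Negative classes of nonpositive canonical degree; curves of genus at most one. -/

set_option autoImplicit false

namespace Pool.Agent.P.MP_d3e5c7_ag.G1

open MvPolynomial

theorem exc_of_canon {s : ℕ} (d : ℤ) (m : Fin s → ℤ) (h : Neg d m) (hK : ∑ i, m i ≤ 3 * d) :
    IsExc d m := by
  classical
  by_contra hx
  obtain ⟨n, hn⟩ : ∃ n : ℕ, d = n := ⟨d.toNat, by have := h.1.1; omega⟩
  induction n using Nat.strong_induction_on generalizing d m with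
  | _ n ih =>
  have h0 := h.nonneg hx
  have h1 := h.2.1
  rcases lt_or_ge s 3 with hs | hs
  · rcases Nat.eq_zero_or_pos s with rfl | hs0
    · simp only [dot, Finset.univ_eq_empty, Finset.sum_empty] at h1
      nlinarith
    obtain ⟨h2, h3, -⟩ := h.bound hx _ _ rfl rfl ⟨0, hs0⟩
    have h4 : ∑ i, m i ≤ s * d := by
      simpa using Finset.sum_le_card_nsmul Finset.univ m d fun i _ => h.1.le i
    have h5 : (s : ℤ) * d ≤ 2 * d := mul_le_mul_of_nonneg_right (by omega) h.1.1
    rcases eq_or_ne d 0 with rfl | hd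
    · have : m = 0 := funext fun i => le_antisymm (h.1.le i) (h0 i)
      simp [dot, this] at h1
    · exact hx ⟨by omega, by omega⟩
  let σ := Tuple.sort fun i => -m i
  have hσ : Monotone ((fun i => -m i) ∘ σ) := Tuple.monotone_sort _
  let t : Fin 3 → Fin s := fun a => σ (a.castLE hs)
  have ht : Function.Injective t := σ.injective.comp (Fin.castLE_injective hs)
  by_cases hc : m (t 0) + m (t 1) + m (t 2) ≤ d
  · have a1 : -m (t 0) ≤ -m (t 1) := hσ (by simp [Fin.le_def])
    have a2 : -m (t 1) ≤ -m (t 2) := hσ (by simp [Fin.le_def])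
    have a3 : ∑ i ∈ {t 0, t 1}ᶜ, m i * (m i - m (t 2)) ≤ 0 := Finset.sum_nonpos fun i hi => by
      obtain ⟨j, rfl⟩ := σ.surjective i
      simp only [t, Finset.mem_compl, Finset.mem_insert, Finset.mem_singleton,
        σ.injective.eq_iff, Fin.ext_iff, Fin.val_castLE] at hi
      have : -m (t 2) ≤ -m (σ j) := hσ (by simp [Fin.le_def]; simp at hi; omega)
      exact mul_nonpos_of_nonneg_of_nonpos (h0 _) (by omega)
    have a4 := Finset.sum_add_sum_compl {t 0, t 1} fun i => m i * (m i - m (t 2))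
    rw [Finset.sum_pair (ht.ne (by decide))] at a4
    simp only [mul_sub, Finset.sum_sub_distrib, ← Finset.sum_mul] at a3 a4
    have a5 := h0 (t 2)
    have a6 := mul_le_mul_of_nonneg_right hK a5
    simp only [dot] at h1
    obtain ⟨k, hk⟩ : ∃ k, d = m (t 0) + m (t 1) + m (t 2) + k := ⟨_, (add_sub_cancel _ _).symm⟩
    have a7 : 0 ≤ k := by omega
    generalize m (t 0) = x at *
    generalize m (t 1) = y at *
    generalize m (t 2) = z at *
    subst hk
    nlinarith [mul_nonneg a7 (show 0 ≤ 2 * x + 2 * y - z by omega), sq_nonneg k,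
      mul_le_mul (show z ≤ x by omega) (show z ≤ y by omega) a5 (by omega)]
  · have h2 := h.cm ht
    have h3 := h2.1.1
    have h4 : ck t d m < 0 := by unfold ck; omega
    have h5 := can_cm (t := t) d m
    exact ih (d + ck t d m).toNat (by omega) _ _ h2 (by omega)
      (by rwa [IsExc, dot_cm ht, can_cm]) (by omega)

theorem cubic_split {K : Type*} [Field K] [IsAlgClosed K] (b c d : K) :
    ∃ e1 e2 e3, b = -(e1 + e2 + e3) ∧ c = e1 * e2 + e1 * e3 + e2 * e3 ∧ d = -(e1 * e2 * e3) := by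
  obtain ⟨e1, h1⟩ := IsAlgClosed.exists_root (Polynomial.X ^ 3 + Polynomial.C b * Polynomial.X ^ 2 +
    Polynomial.C c * Polynomial.X + Polynomial.C d) (by
      rw [show Polynomial.degree _ = 3 by compute_degree!]; norm_num)
  obtain ⟨e2, h2⟩ := IsAlgClosed.exists_root (Polynomial.X ^ 2 + Polynomial.C (b + e1) *
    Polynomial.X + Polynomial.C (c + e1 * (b + e1))) (by
      rw [show Polynomial.degree _ = 2 by compute_degree!]; norm_num)
  simp only [Polynomial.IsRoot, Polynomial.eval_add, Polynomial.eval_mul, Polynomial.eval_pow,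
    Polynomial.eval_X, Polynomial.eval_C] at h1 h2
  exact ⟨e1, e2, -(b + e1) - e2, by ring, by linear_combination h2,
    by linear_combination h1 - e1 * h2⟩

theorem canon_le' {ι : Type} [Fintype ι] {p : ι → Fin 2 → ℂ}
    (hp : AlgebraicIndependent ℚ (fun ij : ι × Fin 2 => p ij.1 ij.2))
    {f : MvPolynomial (Fin 2) ℂ} (hf : Irreducible f) {m : ι → ℤ} (hv : ∀ i, Van (p i) (m i) f)
    {F : Type*} [Field F] [Algebra ℂ F] {x y : F} {a1 a2 a3 a4 a6 : ℂ} (tx : Transcendental ℂ x)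
    (e : y ^ 2 + (algebraMap ℂ F a1 * x + algebraMap ℂ F a3) * y =
      x ^ 3 + algebraMap ℂ F a2 * x ^ 2 + algebraMap ℂ F a4 * x + algebraMap ℂ F a6)
    (hg : ∀ z, z ∈ IntermediateField.adjoin ℂ {x, y}) (a : Fin 2 → F) (ha : aeval a f = 0)
    (hc : ∃ k, a k ∉ Set.range (algebraMap ℂ F)) : ∑ i, m i ≤ 3 * f.totalDegree := by
  obtain ⟨b1, rfl⟩ : ∃ b, a1 = 2 * b := ⟨a1 / 2, by ring⟩
  obtain ⟨b3, rfl⟩ : ∃ b, a3 = 2 * b := ⟨a3 / 2, by ring⟩
  obtain ⟨e1, e2, e3, h1, h2, h3⟩ := cubic_split (a2 + b1 ^ 2) (a4 + 2 * b1 * b3) (a6 + b3 ^ 2)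
  refine canon_le hp hf hv (x := x) (y := y + algebraMap ℂ F b1 * x + algebraMap ℂ F b3)
    (a := a 0) (b := a 1) (e1 := e1) (e2 := e2) (e3 := e3)
    (fun c h => tx (h ▸ isAlgebraic_algebraMap c)) ?_ (fun z => ?_) ?_ ?_
  · have h4 := congrArg (algebraMap ℂ F) h1
    have h5 := congrArg (algebraMap ℂ F) h2
    have h6 := congrArg (algebraMap ℂ F) h3
    simp only [map_add, map_mul, map_pow, map_neg, map_ofNat] at e h4 h5 h6
    linear_combination e + x ^ 2 * h4 + x * h5 + h6
  · refine IntermediateField.adjoin_le_iff.2 ?_ (hg z)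
    have h4 := IntermediateField.subset_adjoin ℂ {x, y + algebraMap ℂ F b1 * x + algebraMap ℂ F b3}
    rintro _ (rfl | h)
    · exact h4 (Or.inl rfl)
    · rw [h]
      simpa using sub_mem (sub_mem (h4 (Or.inr rfl)) (IntermediateField.algebraMap_mem _ b3))
        (mul_mem (IntermediateField.algebraMap_mem _ b1) (h4 (Or.inl rfl)))
  · rw [← ha]; congr 2; ext k; fin_cases k <;> rfl
  · obtain ⟨k, hk⟩ := hc
    fin_cases k
    · exact fun h => hk h.1
    · exact fun h => hk h.2

theorem canon_le_W {ι : Type} [Fintype ι] {p : ι → Fin 2 → ℂ}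
    (hp : AlgebraicIndependent ℚ (fun ij : ι × Fin 2 => p ij.1 ij.2))
    {f : MvPolynomial (Fin 2) ℂ} (hf : Irreducible f) {m : ι → ℤ} (hv : ∀ i, Van (p i) (m i) f)
    (W : WeierstrassCurve ℂ) (a : Fin 2 → W.toAffine.FunctionField) (ha : aeval a f = 0)
    (hc : ∃ k, a k ∉ Set.range (algebraMap ℂ W.toAffine.FunctionField)) :
    ∑ i, m i ≤ 3 * f.totalDegree := by
  have e := congrArg (IsScalarTower.toAlgHom ℂ _ W.toAffine.FunctionField) (eqR W.toAffine)
  simp only [map_add, map_mul, map_pow, AlgHom.commutes, IsScalarTower.coe_toAlgHom'] at e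
  exact canon_le' hp hf hv (xR_trans W.toAffine) e (gen_FF W.toAffine) a ha hc

end Pool.Agent.P.MP_d3e5c7_ag.G1
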