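import Pool.Agent.P.MP_d3e5c7_ag.G1V

/-! The invariant derivation of a Legendre cubic preserves every valuation ring. -/

set_option autoImplicit false

namespace Pool.Agent.P.MP_d3e5c7_ag.G1

open Polynomial

variable {κ L : Type*} [Field κ] [Field L] [Algebra κ L]

theorem aeval_ind [IsAlgClosed κ] (M : L → Prop) (u : L)
    (h1 : ∀ c : κ, c ≠ 0 → M (algebraMap κ L c)) (h2 : ∀ c : κ, M (u - algebraMap κ L c))
    (h3 : ∀ a b, M a → M b → M (a * b)) (p : κ[X]) (hp : p ≠ 0) : M (aeval u p) := by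
  induction hn : p.natDegree using Nat.strong_induction_on generalizing p with
  | _ n ih =>
    by_cases h : p.degree = 0
    · rw [eq_C_of_degree_eq_zero h] at hp ⊢
      rw [aeval_C]
      exact h1 _ (by simpa using hp)
    · obtain ⟨c, hc⟩ := IsAlgClosed.exists_root p h
      obtain ⟨q, rfl⟩ := dvd_iff_isRoot.2 hc
      have hq := right_ne_zero_of_mul hp
      rw [map_mul, map_sub, aeval_X, aeval_C]
      refine h3 _ _ (h2 c) (ih _ ?_ q hq rfl)
      rw [← hn, natDegree_mul (X_sub_C_ne_zero c) hq, natDegree_X_sub_C]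
      omega

theorem mem_quad (K0 : IntermediateField κ L) {u η θ : L} (hu : u ∈ K0) (hη : η ^ 2 ∈ K0)
    (hθ : θ ∈ IntermediateField.adjoin κ {u, η}) : ∃ α ∈ K0, ∃ β ∈ K0, θ = α + β * η := by
  induction hθ using IntermediateField.adjoin_induction with
  | mem x hx =>
    rcases hx with rfl | rfl
    · exact ⟨x, hu, 0, zero_mem _, by ring⟩
    · exact ⟨0, zero_mem _, 1, one_mem _, by ring⟩
  | algebraMap c => exact ⟨_, K0.algebraMap_mem c, 0, zero_mem _, by ring⟩
  | add x y _ _ h1 h2 =>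
    obtain ⟨a, ha, b, hb, rfl⟩ := h1
    obtain ⟨c, hc, d, hd, rfl⟩ := h2
    exact ⟨_, add_mem ha hc, _, add_mem hb hd, by ring⟩
  | mul x y _ _ h1 h2 =>
    obtain ⟨a, ha, b, hb, rfl⟩ := h1
    obtain ⟨c, hc, d, hd, rfl⟩ := h2
    exact ⟨_, add_mem (mul_mem ha hc) (mul_mem (mul_mem hb hd) hη), _,
      add_mem (mul_mem ha hd) (mul_mem hb hc), by ring⟩
  | inv x _ h1 =>
    obtain ⟨a, ha, b, hb, rfl⟩ := h1
    have hN := sub_mem (mul_mem ha ha) (mul_mem (mul_mem hb hb) hη)
    by_cases h : a - b * η = 0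
    · exact ⟨_, inv_mem (add_mem ha ha), 0, zero_mem _, by rw [← sub_eq_zero.1 h]; ring⟩
    · refine ⟨_, div_mem ha hN, _, neg_mem (div_mem hb hN), ?_⟩
      rw [show a * a - b * b * η ^ 2 = (a + b * η) * (a - b * η) by ring]
      by_cases h' : a + b * η = 0
      · simp [h']
      · field_simp
        ring

variable {V : ValuationSubring L}

theorem val_const (hV : ∀ c : κ, algebraMap κ L c ∈ V) {c : κ} (hc : c ≠ 0) :
    V.valuation (algebraMap κ L c) = 1 := by
  refine le_antisymm (le_of_mem (hV c)) ?_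
  have := le_of_mem (hV c⁻¹)
  rwa [map_inv₀, map_inv₀, inv_le_one₀ (by simpa [pos_iff_ne_zero] using hc)] at this

theorem adjoin_le (hV : ∀ c : κ, algebraMap κ L c ∈ V) {t s : L} (ht : t ∈ V) (hs : s ∈ V) {a : L}
    (ha : a ∈ Algebra.adjoin κ {t, s}) : a ∈ V := by
  induction ha using Algebra.adjoin_induction with
  | mem x hx => rcases hx with rfl | rfl <;> assumption
  | algebraMap c => exact hV c
  | add x y _ _ h1 h2 => exact add_mem h1 h2
  | mul x y _ _ h1 h2 => exact mul_mem h1 h2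

/-- fractions with unit denominator -/
def locA (V : ValuationSubring L) (R : Subalgebra κ L) : Subalgebra κ L where
  carrier := {θ | ∃ a ∈ R, ∃ b ∈ R, V.valuation b = 1 ∧ θ = a / b}
  mul_mem' := by
    rintro _ _ ⟨a, ha, b, hb, h, rfl⟩ ⟨c, hc, d, hd, h', rfl⟩
    exact ⟨_, mul_mem ha hc, _, mul_mem hb hd, by rw [map_mul, h, h', one_mul],
      div_mul_div_comm ..⟩
  add_mem' := by
    rintro _ _ ⟨a, ha, b, hb, h, rfl⟩ ⟨c, hc, d, hd, h', rfl⟩
    exact ⟨_, add_mem (mul_mem ha hd) (mul_mem hb hc), _, mul_mem hb hd,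
      by rw [map_mul, h, h', one_mul],
      div_add_div _ _ (by rintro rfl; simp at h) (by rintro rfl; simp at h')⟩
  algebraMap_mem' c := ⟨_, R.algebraMap_mem c, 1, one_mem _, map_one _, (div_one _).symm⟩

theorem mem_locA {R : Subalgebra κ L} {a : L} (ha : a ∈ R) : a ∈ locA V R :=
  ⟨a, ha, 1, one_mem _, map_one _, (div_one _).symm⟩

theorem loc_reg (hV : ∀ c : κ, algebraMap κ L c ∈ V) {t s r w : L} (ht : V.valuation t < 1)
    (hs : V.valuation s < 1) (hr : r ∈ Algebra.adjoin κ {t, s}) (hw : w ∈ Algebra.adjoin κ {t, s})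
    (hw1 : V.valuation w = 1) (e : s * w = t * r) {θ : L}
    (hθ : θ ∈ IntermediateField.adjoin κ {t, s}) (hθV : θ ∈ V) :
    θ ∈ locA V (Algebra.adjoin κ {t, s}) := by
  set R := Algebra.adjoin κ ({t, s} : Set L) with hR
  have hRV : ∀ a ∈ R, a ∈ V := fun a ha => adjoin_le hV (mem_of_lt ht) (mem_of_lt hs) ha
  have hAV : ∀ a ∈ locA V R, a ∈ V := by
    rintro _ ⟨a, ha, b, -, h, rfl⟩; exact div_mem_of_eq (hRV a ha) h
  have htA : t ∈ locA V R := mem_locA (Algebra.subset_adjoin (by simp))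
  have h1 : ∀ a ∈ R, ∃ c : κ, ∃ a' ∈ locA V R, a = algebraMap κ L c + t * a' := by
    intro a ha
    induction ha using Algebra.adjoin_induction with
    | mem x hx =>
      rcases hx with rfl | rfl
      · exact ⟨0, 1, one_mem _, by simp⟩
      · refine ⟨0, r / w, ⟨r, hr, w, hw, hw1, rfl⟩, ?_⟩
        have : w ≠ 0 := by rintro rfl; simp at hw1
        rw [map_zero, zero_add, ← mul_div_assoc, ← e, mul_div_cancel_right₀ _ this]
    | algebraMap c => exact ⟨c, 0, zero_mem _, by simp⟩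
    | add x y _ _ h1 h2 =>
      obtain ⟨c, a, ha, rfl⟩ := h1
      obtain ⟨d, b, hb, rfl⟩ := h2
      exact ⟨c + d, _, add_mem ha hb, by rw [map_add]; ring⟩
    | mul x y _ _ h1 h2 =>
      obtain ⟨c, a, ha, rfl⟩ := h1
      obtain ⟨d, b, hb, rfl⟩ := h2
      exact ⟨c * d, _, add_mem (add_mem (mul_mem (Subalgebra.algebraMap_mem _ c) hb)
        (mul_mem (Subalgebra.algebraMap_mem _ d) ha)) (mul_mem htA (mul_mem ha hb)),
        by rw [map_mul]; ring⟩
  have h2 : ∀ θ ∈ locA V R, V.valuation θ ≠ 1 → ∃ θ' ∈ locA V R, θ = t * θ' := by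
    rintro _ ⟨a, ha, b, hb, h, rfl⟩ hv
    obtain ⟨c, a', ha', rfl⟩ := h1 a ha
    rcases eq_or_ne c 0 with rfl | hc
    · refine ⟨a' * (1 / b), mul_mem ha' ⟨1, one_mem _, b, hb, h, rfl⟩, ?_⟩
      rw [map_zero]; ring
    · refine absurd ?_ hv
      rw [map_div₀, h, div_one]
      apply val_eq_of_sub (val_const hV hc)
      rw [add_sub_cancel_left, mul_comm]
      exact mul_lt (hAV _ ha') ht
  have hfin : IsNoetherianRing R := by
    have : Algebra.FiniteType κ R := ⟨(Subalgebra.fg_top _).2 (Subalgebra.fg_def.2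
      ⟨_, Set.toFinite _, rfl⟩)⟩
    exact Algebra.FiniteType.isNoetherianRing κ R
  have h3 : ∀ a ∈ R, a ≠ 0 → ∃ n : ℕ, ∃ ε ∈ locA V R, V.valuation ε = 1 ∧ a = t ^ n * ε := by
    intro a ha ha0
    by_contra hc
    have h4 : ∀ n : ℕ, ∃ θ ∈ locA V R, a = t ^ n * θ := by
      intro n
      induction n with
      | zero => exact ⟨a, mem_locA ha, by simp⟩
      | succ n ih =>
        obtain ⟨θ, h5, h6⟩ := ih
        obtain ⟨θ', h7, rfl⟩ := h2 θ h5 (fun h => hc ⟨n, θ, h5, h, h6⟩)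
        exact ⟨θ', h7, by rw [h6]; ring⟩
    let I : ℕ →o Submodule R R :=
      ⟨fun n => ⟨⟨⟨{z | V.valuation ((z : L) * t ^ n) ≤ V.valuation a}, fun {x y} hx hy => by
          simp only [Set.mem_ofPred_eq, Subalgebra.coe_add, add_mul] at *
          exact Valuation.map_add_le _ hx hy⟩, by simp⟩, fun c x hx => by
          simp only [Set.mem_ofPred_eq, smul_eq_mul, Subalgebra.coe_mul, mul_assoc] at *
          rw [map_mul]
          exact (mul_le_of_le_one_left' (le_of_mem (hRV _ c.2))).trans hx⟩,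
        monotone_nat_of_le_succ fun n x hx => by
          change V.valuation ((x : L) * t ^ n) ≤ V.valuation a at hx
          change V.valuation ((x : L) * t ^ (n + 1)) ≤ V.valuation a
          rw [pow_succ, ← mul_assoc, map_mul]
          exact (mul_le_of_le_one_right' ht.le).trans hx⟩
    obtain ⟨n, hn⟩ := monotone_stabilizes_iff_noetherian.2 hfin I
    obtain ⟨_, ⟨b, hb, c, hc, h, rfl⟩, h6⟩ := h4 (n + 1)
    have h7 : V.valuation a = V.valuation (b * t ^ n) * V.valuation t := by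
      rw [h6]; simp only [map_mul, map_div₀, h, pow_succ, div_one]; ac_rfl
    have h8 : (⟨b, hb⟩ : R) ∈ I (n + 1) := by
      change V.valuation (b * t ^ (n + 1)) ≤ V.valuation a
      rw [h7, pow_succ, ← mul_assoc, map_mul]
    rw [← hn _ (Nat.le_succ n)] at h8
    change V.valuation (b * t ^ n) ≤ V.valuation a at h8
    have h9 : V.valuation (b * t ^ n) ≠ 0 := by
      intro h0; rw [h0, zero_mul, map_eq_zero] at h7; exact ha0 h7
    rw [h7] at h8
    exact absurd h8 (not_le.2 (mul_lt_of_lt_one_right (pos_iff_ne_zero.2 h9) ht))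
  obtain ⟨a, ha, b, hb, rfl⟩ := IntermediateField.mem_adjoin_iff_div.1 hθ
  rcases eq_or_ne a 0 with rfl | ha0
  · simp
  rcases eq_or_ne b 0 with rfl | hb0
  · simp
  obtain ⟨n, ε, h4, h5, rfl⟩ := h3 a ha ha0
  obtain ⟨k, _, ⟨c, hc, d, hd, h6, rfl⟩, h7, rfl⟩ := h3 b hb hb0
  rw [map_div₀, h6, div_one] at h7
  have hc0 : c ≠ 0 := by rintro rfl; simp at h7
  have hd0 : d ≠ 0 := by rintro rfl; simp at h6
  rcases le_or_gt k n with h | h
  · obtain ⟨j, rfl⟩ := Nat.exists_eq_add_of_le h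
    have ht0 : t ^ k ≠ 0 := left_ne_zero_of_mul hb0
    have : t ^ (k + j) * ε / (t ^ k * (c / d)) = t ^ j * ε * (d / c) := by
      rw [pow_add]; field_simp
    rw [this]
    exact mul_mem (mul_mem (pow_mem htA _) h4) ⟨d, hd, c, hc, h7, rfl⟩
  · exfalso
    obtain ⟨j, rfl⟩ := Nat.exists_eq_add_of_lt h
    have ht0 : t ≠ 0 := by rintro rfl; simp at hb0
    have h8 := mul_lt (mul_mem hθV (pow_mem (mem_of_lt ht) j)) ht
    have : t ^ n * ε / (t ^ (n + j + 1) * (c / d)) * t ^ j * t = ε * d / c := by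
      field_simp; ring
    rw [this, map_div₀, map_mul, h5, h6, h7] at h8
    simp at h8

variable [CharZero L] (D : Derivation ℚ L L)

theorem der_mem (hV : ∀ c : κ, algebraMap κ L c ∈ V) (hD : ∀ c : κ, D (algebraMap κ L c) = 0)
    {t s r w : L} (ht : V.valuation t < 1)
    (hs : V.valuation s < 1) (hr : r ∈ Algebra.adjoin κ {t, s}) (hw : w ∈ Algebra.adjoin κ {t, s})
    (hw1 : V.valuation w = 1) (e : s * w = t * r) (hDt : D t ∈ V) (hDs : D s ∈ V) {θ : L}
    (hθ : θ ∈ IntermediateField.adjoin κ {t, s}) (hθV : θ ∈ V) : D θ ∈ V := by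
  have hRV := fun a => adjoin_le hV (mem_of_lt ht) (mem_of_lt hs) (a := a)
  have h1 : ∀ a ∈ Algebra.adjoin κ {t, s}, D a ∈ V := by
    intro a ha
    induction ha using Algebra.adjoin_induction with
    | mem x hx => rcases hx with rfl | rfl <;> assumption
    | algebraMap c => rw [hD]; exact zero_mem _
    | add x y _ _ h1 h2 => rw [map_add]; exact add_mem h1 h2
    | mul x y hx hy h1 h2 =>
      rw [D.leibniz]; exact add_mem (mul_mem (hRV _ hx) h2) (mul_mem (hRV _ hy) h1)
  obtain ⟨a, ha, b, hb, h, rfl⟩ := loc_reg hV ht hs hr hw hw1 e hθ hθV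
  rw [D.leibniz_div]
  exact mul_mem (pow_mem (inv_mem_of_eq h) 2)
    (sub_mem (mul_mem (hRV _ hb) (h1 _ ha)) (mul_mem (hRV _ ha) (h1 _ hb)))

omit [CharZero L] in
theorem inf_chart {x y l : L} (hl : l ∈ V) (e : y ^ 2 = x * (x - 1) * (x - l)) (hx : x ∉ V) :
    y ≠ 0 ∧ V.valuation (x / y) < 1 ∧ V.valuation (1 / y) < 1 ∧
      V.valuation (1 + ((1 + l) * (x / y) - 2 * l * (1 / y)) * (x / y)) = 1 := by
  have h1 := one_lt_of_notMem hx
  have h0 : V.valuation x ≠ 0 := (zero_lt_one.trans h1).ne'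
  have h2 : V.valuation y ^ 2 = V.valuation x ^ 3 := by
    rw [← map_pow, e, map_mul, map_mul, Valuation.map_sub_eq_of_lt_left _ (by simpa using h1),
      Valuation.map_sub_eq_of_lt_left _ ((le_of_mem hl).trans_lt h1), pow_three, mul_assoc]
  have h3 : V.valuation y ≠ 0 := by
    intro h; rw [h] at h2; exact pow_ne_zero 3 h0 (by simpa using h2.symm)
  have h4 : V.valuation (x / y) < 1 := by
    rw [map_div₀, div_lt_one₀ (pos_iff_ne_zero.2 h3), ← pow_lt_pow_iff_left₀ zero_le zero_le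
      two_ne_zero, h2]
    exact pow_lt_pow_right₀ h1 (by norm_num)
  have h5 : V.valuation (1 / y) < 1 := by
    have : 1 / y = x / y * x⁻¹ := by
      have : x ≠ 0 := by simpa using h0
      field_simp
    rw [this]
    exact mul_lt (mem_of_lt h4) (inv_lt_of_notMem hx)
  exact ⟨by simpa using h3, h4, h5, val_one_add (mul_lt (sub_mem (mul_mem (add_mem (one_mem _) hl)
    (mem_of_lt h4)) (mul_mem (mul_mem (ofNat_mem _ 2) hl) (mem_of_lt h5))) h4)⟩

theorem der_chart {x y l g : L} (hy : y ≠ 0) (e : y ^ 2 = x * (x - 1) * (x - l))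
    (h1 : D x = 2 * g * y) (h2 : D y = g * (3 * x ^ 2 - 2 * (1 + l) * x + l)) :
    D (x / y) = -g * (1 + ((1 + l) * (x / y) - 2 * l * (1 / y)) * (x / y)) ∧
      D (1 / y) = -g * (3 * (x / y) ^ 2 - 2 * (1 + l) * (x / y) * (1 / y) + l * (1 / y) ^ 2) := by
  rw [D.leibniz_div, D.leibniz_div, h1, h2, D.map_one_eq_zero]
  simp only [smul_eq_mul]
  constructor
  · field_simp
    linear_combination (3 * g) * e
  · field_simp
    ring

omit [CharZero L] in
theorem three (hV : ∀ c : κ, algebraMap κ L c ∈ V) {l : κ} (h0 : l ≠ 0) (h1 : l ≠ 1) {x : L}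
    (h : V.valuation (x * (x - 1) * (x - algebraMap κ L l)) < 1) :
    ∃ c c1 c2 : κ, V.valuation (x - algebraMap κ L c) < 1 ∧
      V.valuation ((x - algebraMap κ L c1) * (x - algebraMap κ L c2)) = 1 ∧
      x * (x - 1) * (x - algebraMap κ L l) =
        (x - algebraMap κ L c) * ((x - algebraMap κ L c1) * (x - algebraMap κ L c2)) ∧
      3 * x ^ 2 - 2 * (1 + algebraMap κ L l) * x + algebraMap κ L l =
        (x - algebraMap κ L c1) * (x - algebraMap κ L c2) +
          ((x - algebraMap κ L c1) + (x - algebraMap κ L c2)) * (x - algebraMap κ L c) := by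
  have key : ∀ c c1 c2 : κ, c ≠ c1 → c ≠ c2 → V.valuation (x - algebraMap κ L c) < 1 →
      V.valuation ((x - algebraMap κ L c1) * (x - algebraMap κ L c2)) = 1 := by
    intro c c1 c2 e1 e2 e
    rw [map_mul, val_eq_of_sub (val_const hV (sub_ne_zero.2 e1)) (by simpa using e),
      val_eq_of_sub (val_const hV (sub_ne_zero.2 e2)) (by simpa using e), one_mul]
  rcases lt_or_lt h with h | h
  · rcases lt_or_lt h with h | h
    · exact ⟨0, 1, l, by simpa using h, key 0 _ _ zero_ne_one h0.symm (by simpa using h),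
        by simp; ring, by simp; ring⟩
    · exact ⟨1, 0, l, by simpa using h, key 1 _ _ one_ne_zero h1.symm (by simpa using h),
        by simp; ring, by simp; ring⟩
  · exact ⟨l, 0, 1, h, key l _ _ h0 h1 h, by simp; ring, by simp; ring⟩

omit [CharZero L] in
theorem mem_of_sq {y : L} (h : y ^ 2 ∈ V) : y ∈ V := by
  have := le_of_mem h
  rw [map_pow, pow_le_one_iff two_ne_zero] at this
  exact V.mem_of_valuation_le_one _ this

theorem reg [IsAlgClosed κ] (hV : ∀ c : κ, algebraMap κ L c ∈ V)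
    (hD : ∀ c : κ, D (algebraMap κ L c) = 0) {l : κ} (h0 : l ≠ 0) (h1 : l ≠ 1) {u η : L}
    (e : η ^ 2 = u * (u - 1) * (u - algebraMap κ L l)) (hu : D u = 2 * 1 * η)
    (hη : D η = 1 * (3 * u ^ 2 - 2 * (1 + algebraMap κ L l) * u + algebraMap κ L l))
    {z : L} (hz : z ∈ IntermediateField.adjoin κ {u, η}) (hzV : z ∉ V) {θ : L}
    (hθ : θ ∈ IntermediateField.adjoin κ {u, η}) (hθV : θ ∈ V) : D θ ∈ V := by
  have m1 : ∀ a b : L, a ∈ Algebra.adjoin κ {a, b} := fun a b => Algebra.subset_adjoin (by simp)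
  have m2 : ∀ a b : L, b ∈ Algebra.adjoin κ {a, b} := fun a b => Algebra.subset_adjoin (by simp)
  have m3 : ∀ a b : L, u ∈ IntermediateField.adjoin κ {a, b} →
      η ∈ IntermediateField.adjoin κ {a, b} → θ ∈ IntermediateField.adjoin κ {a, b} :=
    fun a b ha hb => IntermediateField.adjoin_le_iff.2 (by
      rintro x (rfl | rfl) <;> assumption) hθ
  have m4 : ∀ (a b : L) {x : L}, x ∈ Algebra.adjoin κ {a, b} →
      x ∈ IntermediateField.adjoin κ {a, b} :=
    fun a b x h => IntermediateField.algebra_adjoin_le_adjoin κ ({a, b} : Set L) h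
  have m5 : ∀ (a b : L) (c : κ), algebraMap κ L c ∈ Algebra.adjoin κ {a, b} :=
    fun a b c => Subalgebra.algebraMap_mem _ c
  have hl := hV l
  by_cases huV : u ∈ V
  swap
  · obtain ⟨a0, a1, a2, a3⟩ := inf_chart hl e huV
    obtain ⟨b1, b2⟩ := der_chart D a0 e hu hη
    have c1 := mem_of_lt a1
    have c2 := mem_of_lt a2
    refine der_mem D hV hD a1 a2 (r := (u / η) ^ 2)
      (w := 1 + ((1 + algebraMap κ L l) * (u / η) - algebraMap κ L l * (1 / η)) * (u / η))
      (pow_mem (m1 _ _) 2) (add_mem (one_mem _) (mul_mem (sub_mem (mul_mem (add_mem (one_mem _)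
        (m5 _ _ l)) (m1 _ _)) (mul_mem (m5 _ _ l) (m2 _ _))) (m1 _ _)))
      (val_one_add (mul_lt (sub_mem (mul_mem (add_mem (one_mem _) hl) c1) (mul_mem hl c2)) a1))
      (by field_simp; linear_combination e) ?_ ?_ (m3 _ _ ?_ ?_) hθV
    · rw [b1]; exact mul_mem (neg_mem (one_mem _)) (mem_of_eq a3)
    · rw [b2]
      exact mul_mem (neg_mem (one_mem _)) (add_mem (sub_mem (mul_mem (ofNat_mem _ 3) (pow_mem c1 2))
        (mul_mem (mul_mem (mul_mem (ofNat_mem _ 2) (add_mem (one_mem _) hl)) c1) c2))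
        (mul_mem hl (pow_mem c2 2)))
    · have := div_mem (m4 _ _ (m1 (u / η) (1 / η))) (m4 _ _ (m2 (u / η) (1 / η)))
      rwa [show u / η / (1 / η) = u by field_simp] at this
    · have := inv_mem (m4 _ _ (m2 (u / η) (1 / η)))
      rwa [one_div, inv_inv, ← one_div] at this
  have hηV : η ∈ V := mem_of_sq (e ▸ mul_mem (mul_mem huV (sub_mem huV (one_mem _))) (sub_mem huV hl))
  have hDu : D u ∈ V := hu ▸ mul_mem (mul_mem (ofNat_mem _ 2) (one_mem _)) hηV
  have hDη : D η ∈ V := hη ▸ mul_mem (one_mem _) (add_mem (sub_mem (mul_mem (ofNat_mem _ 3)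
    (pow_mem huV 2)) (mul_mem (mul_mem (ofNat_mem _ 2) (add_mem (one_mem _) hl)) huV)) hl)
  have hs : ∀ (x : L) (c : κ), D x ∈ V → D (x - algebraMap κ L c) ∈ V := fun x c h => by
    rwa [map_sub, hD, sub_zero]
  have ha : ∀ (a b x : L) (c : κ), x - algebraMap κ L c ∈ Algebra.adjoin κ {a, b} →
      x ∈ Algebra.adjoin κ {a, b} := fun a b x c h => by simpa using add_mem h (m5 a b c)
  by_cases hηv : V.valuation η < 1
  · obtain ⟨c, c1, c2, a1, a2, a3, -⟩ := three hV h0 h1 (x := u) (by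
      rw [← e, sq]; exact mul_lt hηV hηv)
    have b1 := ha η _ u c (m2 _ _)
    exact der_mem D hV hD hηv a1 (m1 _ _) (mul_mem (sub_mem b1 (m5 _ _ c1)) (sub_mem b1 (m5 _ _ c2)))
      a2 (by rw [← a3, ← e, sq]) hDη (hs _ _ hDu) (m3 _ _ (m4 _ _ b1) (m4 _ _ (m1 _ _))) hθV
  have hη1 : V.valuation η = 1 := le_antisymm (le_of_mem hηV) (not_lt.1 hηv)
  by_cases hc : ∃ c : κ, V.valuation (u - algebraMap κ L c) < 1
  · obtain ⟨c, hc⟩ := hc
    obtain ⟨d, hd⟩ := IsAlgClosed.exists_pow_nat_eq (c * (c - 1) * (c - l)) two_pos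
    have key : ∀ d : κ, d ^ 2 = c * (c - 1) * (c - l) → V.valuation (η - algebraMap κ L d) < 1 →
        D θ ∈ V := by
      intro d hd hv
      have b1 := ha _ (η - algebraMap κ L d) u c (m1 _ _)
      have b2 := ha (u - algebraMap κ L c) _ η d (m2 _ _)
      have b3 := congrArg (algebraMap κ L) hd
      simp only [map_pow, map_mul, map_sub, map_one] at b3
      have : CharZero κ := (algebraMap κ L).charZero
      refine der_mem D hV hD hc hv (w := η + algebraMap κ L d) (r := u ^ 2 + u * algebraMap κ L c +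
        algebraMap κ L (c ^ 2 + l) - algebraMap κ L (1 + l) * (u + algebraMap κ L c))
        (sub_mem (add_mem (add_mem (pow_mem b1 2) (mul_mem b1 (m5 _ _ _))) (m5 _ _ _))
          (mul_mem (m5 _ _ _) (add_mem b1 (m5 _ _ _)))) (add_mem b2 (m5 _ _ _))
        (val_eq_of_sub (x := 2 * η) (by
          rw [map_mul, hη1, mul_one, ← map_ofNat (algebraMap κ L)]
          exact val_const hV two_ne_zero) (by
          rwa [show η + algebraMap κ L d - 2 * η = -(η - algebraMap κ L d) by ring,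
            Valuation.map_neg])) ?_ (hs _ _ hDu) (hs _ _ hDη)
        (m3 _ _ (m4 _ _ b1) (m4 _ _ b2)) hθV
      simp only [map_add, map_pow, map_one]
      linear_combination e - b3
    have b3 := congrArg (algebraMap κ L) hd
    simp only [map_pow, map_mul, map_sub, map_one] at b3
    have b4 : (η - algebraMap κ L d) * (η - algebraMap κ L (-d)) = (u ^ 2 + u * algebraMap κ L c +
        algebraMap κ L (c ^ 2 + l) - algebraMap κ L (1 + l) * (u + algebraMap κ L c)) *
        (u - algebraMap κ L c) := by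
      simp only [map_add, map_pow, map_one, map_neg]
      linear_combination e - b3
    rcases lt_or_lt (b4 ▸ mul_lt (sub_mem (add_mem (add_mem (pow_mem huV 2) (mul_mem huV (hV _)))
      (hV _)) (mul_mem (hV _) (add_mem huV (hV _)))) hc) with h | h
    · exact key d hd h
    · exact key (-d) (by rw [← hd]; ring) h
  · exfalso
    push Not at hc
    have b1 : ∀ p : κ[X], p ≠ 0 → V.valuation (aeval u p) = 1 :=
      aeval_ind (fun a => V.valuation a = 1) u (fun c h => val_const hV h)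
        (fun c => le_antisymm (le_of_mem (sub_mem huV (hV c))) (hc c))
        (fun a b h h' => by rw [map_mul, h, h', one_mul])
    have b2 : ∀ a ∈ IntermediateField.adjoin κ {u}, a ∈ V := by
      intro a ha
      obtain ⟨r, s, rfl⟩ := (IntermediateField.mem_adjoin_simple_iff _ _).1 ha
      rcases eq_or_ne r 0 with rfl | hr
      · simp
      rcases eq_or_ne s 0 with rfl | hs
      · simp
      exact div_mem_of_eq (mem_of_eq (b1 r hr)) (b1 s hs)
    have b3 := IntermediateField.mem_adjoin_simple_self κ u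
    obtain ⟨α, h2, β, h3, rfl⟩ := mem_quad _ b3 (e ▸ mul_mem (mul_mem b3 (sub_mem b3 (one_mem _)))
      (sub_mem b3 (IntermediateField.algebraMap_mem _ l))) hz
    exact hzV (add_mem (b2 _ h2) (mul_mem (b2 _ h3) hηV))

theorem g_mem (hV : ∀ c : κ, algebraMap κ L c ∈ V) {l : κ} (h0 : l ≠ 0) (h1 : l ≠ 1)
    (F : IntermediateField κ L) (H : ∀ θ ∈ F, θ ∈ V → D θ ∈ V) {x y g : L} (hx : x ∈ F)
    (hy : y ∈ F) (hy0 : y ≠ 0) (e : y ^ 2 = x * (x - 1) * (x - algebraMap κ L l))
    (h2 : D x = 2 * g * y)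
    (h3 : D y = g * (3 * x ^ 2 - 2 * (1 + algebraMap κ L l) * x + algebraMap κ L l)) : g ∈ V := by
  have key : ∀ a ε : L, a ∈ V → V.valuation ε = 1 → a = g * ε → g ∈ V := fun a ε ha hε h => by
    have : ε ≠ 0 := by rintro rfl; simp at hε
    have h4 := div_mem_of_eq ha hε
    rwa [h, mul_div_cancel_right₀ _ this] at h4
  by_cases hxV : x ∈ V
  · have hyV : y ∈ V := mem_of_sq
      (e ▸ mul_mem (mul_mem hxV (sub_mem hxV (one_mem _))) (sub_mem hxV (hV l)))
    by_cases hv : V.valuation y < 1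
    · obtain ⟨c, c1, c2, a1, a2, -, a3⟩ := three hV h0 h1 (x := x) (by
        rw [← e, sq]; exact mul_lt hyV hv)
      refine key _ _ (H y hy hyV) (val_eq_of_sub a2 ?_) h3
      rw [a3, add_sub_cancel_left]
      exact mul_lt (add_mem (sub_mem hxV (hV _)) (sub_mem hxV (hV _))) a1
    · have : CharZero κ := (algebraMap κ L).charZero
      refine key _ (2 * y) (H x hx hxV) ?_ (by rw [h2]; ring)
      rw [map_mul, le_antisymm (le_of_mem hyV) (not_lt.1 hv), mul_one, ← map_ofNat (algebraMap κ L)]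
      exact val_const hV two_ne_zero
  · obtain ⟨-, a1, -, a3⟩ := inf_chart (hV l) e hxV
    refine key _ _ (neg_mem (H _ (div_mem hx hy) (mem_of_lt a1))) a3 ?_
    rw [(der_chart D hy0 e h2 h3).1]; ring

end Pool.Agent.P.MP_d3e5c7_ag.G1
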