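import Pool.Agent.P.MP_d3e5c7_ag.G1L
import Pool.Agent.P.MP_d3e5c7_ag.ADer

/-! A Legendre cubic with algebraic modulus does not dominate one with transcendental modulus. -/

set_option autoImplicit false

namespace Pool.Agent.P.MP_d3e5c7_ag.G1

open Polynomial

section der
variable {A L : Type*} [CommRing A] [Field L] [CharZero L] [Algebra A L] (E : Derivation ℚ L L)

theorem der_aeval (φ : A → A) (h : ∀ a, E (algebraMap A L a) = algebraMap A L (φ a))
    (hinj : Function.Injective (algebraMap A L)) (z : L) (p : A[X]) :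
    ∃ q : A[X], (∀ i, q.coeff i = φ (p.coeff i)) ∧
      E (aeval z p) = aeval z q + aeval z (derivative p) * E z := by
  have h0 : φ 0 = 0 := hinj (by rw [← h]; simp)
  induction p using Polynomial.induction_on' with
  | add p q hp hq =>
    obtain ⟨p', h1, h2⟩ := hp
    obtain ⟨q', h3, h4⟩ := hq
    refine ⟨p' + q', fun i => hinj ?_, ?_⟩
    · rw [coeff_add, coeff_add, ← h, h1, h3, map_add, map_add, map_add, h, h]
    · simp only [map_add, h2, h4]; ring
  | monomial n a =>
    refine ⟨monomial n (φ a), fun i => ?_, ?_⟩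
    · rw [coeff_monomial, coeff_monomial]; split_ifs <;> simp [h0]
    · rw [derivative_monomial, aeval_monomial, aeval_monomial, aeval_monomial, E.leibniz, h,
        E.leibniz_pow]
      simp only [smul_eq_mul, nsmul_eq_mul, map_mul, map_natCast]
      ring

theorem der_alg (hinj : Function.Injective (algebraMap A L))
    (h : ∀ a, E (algebraMap A L a) = 0) {z : L} (hz : IsAlgebraic A z) : E z = 0 := by
  obtain ⟨p, hp, hz⟩ := hz
  induction hn : p.natDegree using Nat.strong_induction_on generalizing p with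
  | _ n ih =>
    have : CharZero A := (algebraMap A L).charZero
    have : IsDomain A := hinj.isDomain _
    have h1 : p.natDegree ≠ 0 := by
      intro h0
      rw [eq_C_of_natDegree_eq_zero h0] at hp hz
      have : p.coeff 0 = 0 := hinj (by simpa using hz)
      exact hp (by rw [this, map_zero])
    obtain ⟨q, h2, h3⟩ := der_aeval E (fun _ => 0) (by simpa using h) hinj z p
    obtain rfl : q = 0 := by ext i; simp [h2]
    rw [hz, map_zero, map_zero, zero_add] at h3
    rcases mul_eq_zero.1 h3.symm with h4 | h4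
    · exact ih _ (hn ▸ natDegree_derivative_lt h1) _
        (fun h5 => h1 (derivative_eq_zero.1 h5)) h4 rfl
    · exact h4

end der

variable {κ L : Type*} [Field κ] [Field L] [Algebra κ L]

theorem ode_descent [CharZero L] (E : Derivation ℚ L L) (K0 : IntermediateField κ L)
    (h : ∀ a ∈ K0, E a ∈ K0) {z α β : L} (hz : IsAlgebraic K0 z) (hα : α ∈ K0) (hβ : β ∈ K0)
    (e : E z = α + β * z) : ∃ B ∈ K0, E B = α + β * B := by
  have hi := hz.isIntegral
  obtain ⟨q, h2, h3⟩ := der_aeval E (A := K0) (fun a => ⟨E a, h _ a.2⟩) (fun _ => rfl)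
    Subtype.val_injective z (minpoly K0 z)
  have hm := minpoly.monic hi
  obtain ⟨n, hn⟩ : ∃ n, (minpoly K0 z).natDegree = n + 1 :=
    ⟨_, (Nat.succ_pred_eq_of_pos (minpoly.natDegree_pos hi)).symm⟩
  have hc : (minpoly K0 z).coeff (n + 1) = 1 := hn ▸ hm.coeff_natDegree
  set p := minpoly K0 z with hp
  let r : K0[X] := q + C ⟨α, hα⟩ * derivative p + C ⟨β, hβ⟩ * (X * derivative p - C (n + 1 : K0) * p)
  have h4 : aeval z r = 0 := by
    rw [minpoly.aeval, map_zero, e] at h3
    have : aeval z p = 0 := minpoly.aeval _ _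
    simp only [r, map_add, map_mul, map_sub, aeval_C, aeval_X, this]
    change _ + α * _ + β * _ = 0
    linear_combination -h3
  have hX : ∀ i, (X * derivative p).coeff i = i * p.coeff i := by
    rintro (_ | i)
    · simp
    · rw [coeff_X_mul, coeff_derivative]; push_cast; ring
  have h5 : r = 0 := by
    by_contra h0
    have h6 := minpoly.degree_le_of_ne_zero K0 z h0 h4
    rw [← hp, degree_eq_natDegree hm.ne_zero, hn] at h6
    refine absurd h6 (not_le.2 ((degree_lt_iff_coeff_zero _ _).2 fun i hi => ?_))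
    simp only [r, coeff_add, coeff_C_mul, coeff_sub, hX, h2, coeff_derivative,
      coeff_eq_zero_of_natDegree_lt (show p.natDegree < i + 1 by omega)]
    rcases eq_or_lt_of_le hi with rfl | h7
    · ext; simp [hc]
    · ext; simp [coeff_eq_zero_of_natDegree_lt (show p.natDegree < i by omega)]
  have h6 := congrArg (fun s : K0[X] => ((s.coeff n : K0) : L)) h5
  simp only [r, coeff_add, coeff_C_mul, coeff_sub, hX, h2, coeff_derivative, hc, coeff_zero] at h6
  push_cast at h6
  have h7 : (n + 1 : L) ≠ 0 := by exact_mod_cast n.succ_ne_zero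
  refine ⟨-(p.coeff n : L) / (n + 1), div_mem (neg_mem (p.coeff n).2)
    (add_mem (natCast_mem _ n) (one_mem _)), ?_⟩
  rw [E.leibniz_div_const _ _ (by simp), map_neg, smul_eq_mul]
  field_simp
  linear_combination -h6

theorem ode_poly [IsAlgClosed κ] [CharZero κ] {ν G : κ} (h0 : ν ≠ 0) (h1 : ν ≠ 1) (r s : κ[X])
    (hs : s ≠ 0) (e : 2 * (X * (X - 1) * (X - C ν)) * (derivative r * s - r * derivative s) -
      (3 * X ^ 2 - 2 * (1 + C ν) * X + C ν) * r * s =
        (2 * C G * (X * (X - 1) * (X - C ν)) - X * (X - 1)) * s ^ 2) : False := by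
  have h2 := sub_ne_zero.2 h1
  induction hn : s.natDegree using Nat.strong_induction_on generalizing r s with
  | _ n ih =>
  by_cases hd : s.degree = 0
  · rw [eq_C_of_degree_eq_zero hd] at e hs
    generalize s.coeff 0 = c at e hs
    have hc : c ≠ 0 := by simpa using hs
    by_cases hr : r.natDegree ≤ 1
    · rw [eq_X_add_C_of_natDegree_le_one hr] at e
      generalize r.coeff 0 = a at e
      generalize r.coeff 1 = b at e
      have e0 := congrArg (eval 0) e
      have e1 := congrArg (eval 1) e
      have e2 := congrArg (eval ν) e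
      simp only [derivative_C, derivative_add, derivative_mul, derivative_X, eval_sub, eval_mul,
        eval_add, eval_pow, eval_C, eval_X, eval_ofNat, eval_one, eval_zero] at e0 e1 e2
      have a0 : a = 0 := mul_left_cancel₀ (mul_ne_zero h0 hc) (by linear_combination -e0)
      have b0 : b = 0 := mul_left_cancel₀ (mul_ne_zero h2 hc) (by
        rw [a0] at e1; linear_combination e1)
      rw [a0, b0] at e2
      exact mul_ne_zero (mul_ne_zero h0 h2) (pow_ne_zero 2 hc) (by linear_combination e2)
    · obtain ⟨k, hk⟩ : ∃ k, r.natDegree = k + 2 := ⟨r.natDegree - 2, by omega⟩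
      have h3 : r.coeff (k + 2) ≠ 0 := by
        rw [← hk]; exact leadingCoeff_ne_zero.2 (by rintro rfl; simp at hk)
      have h4 := congrArg (coeff · (3 + (k + 1))) (show C (2 * c) * (X * (X - 1) * (X - C ν) *
        derivative r) - C c * ((3 * X ^ 2 - 2 * (1 + C ν) * X + C ν) * r) =
        (2 * C G * (X * (X - 1) * (X - C ν)) - X * (X - 1)) * C c ^ 2 by
          rw [← e, derivative_C, map_mul, C_ofNat]; ring)
      simp only [coeff_sub, coeff_C_mul] at h4
      rw [coeff_mul_add_eq_of_natDegree_le (by compute_degree)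
        ((natDegree_derivative_le _).trans (by omega)), show 3 + (k + 1) = 2 + (k + 2) by ring,
        coeff_mul_add_eq_of_natDegree_le (by compute_degree) hk.le, coeff_derivative,
        coeff_eq_zero_of_natDegree_lt (n := 2 + (k + 2))
          (lt_of_le_of_lt (b := 3) (by compute_degree) (by omega))] at h4
      have h5 : (X * (X - 1) * (X - C ν) : κ[X]).coeff 3 = 1 := by compute_degree!
      have h6 : (3 * X ^ 2 - 2 * (1 + C ν) * X + C ν : κ[X]).coeff 2 = 3 := by compute_degree!
      rw [h5, h6] at h4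
      have h7 : (2 * k + 1 : κ) ≠ 0 := by exact_mod_cast (by omega : 2 * k + 1 ≠ 0)
      exact mul_ne_zero (mul_ne_zero hc h3) h7 (by push_cast at h4; linear_combination h4)
  obtain ⟨a, ha⟩ := IsAlgClosed.exists_root s hd
  have hX := X_sub_C_ne_zero a
  by_cases hr : r.IsRoot a
  · obtain ⟨s1, rfl⟩ := dvd_iff_isRoot.2 ha
    obtain ⟨r1, rfl⟩ := dvd_iff_isRoot.2 hr
    have h3 := right_ne_zero_of_mul hs
    refine ih s1.natDegree ?_ r1 s1 h3 (mul_left_cancel₀ (pow_ne_zero 2 hX) ?_) rfl
    · rw [← hn, natDegree_mul hX h3, natDegree_X_sub_C]; omega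
    · simp only [derivative_mul, derivative_sub, derivative_X, derivative_C] at e
      linear_combination e
  obtain ⟨s1, h3, h4⟩ := exists_eq_pow_rootMultiplicity_mul_and_not_dvd s hs a
  obtain ⟨k, hk⟩ : ∃ k, rootMultiplicity a s = k + 1 :=
    ⟨_, (Nat.succ_pred_eq_of_pos ((rootMultiplicity_pos hs).2 ha)).symm⟩
  rw [dvd_iff_isRoot] at h4
  rw [hk] at h3
  subst h3
  have e1 : 2 * (X * (X - 1) * (X - C ν)) * (derivative r * (X - C a) * s1 -
      r * (C (k + 1 : κ) * s1 + (X - C a) * derivative s1)) -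
      (3 * X ^ 2 - 2 * (1 + C ν) * X + C ν) * r * (X - C a) * s1 =
        (2 * C G * (X * (X - 1) * (X - C ν)) - X * (X - 1)) * (X - C a) ^ (k + 2) * s1 ^ 2 := by
    apply mul_left_cancel₀ (pow_ne_zero k hX)
    simp only [derivative_mul, derivative_pow, derivative_sub, derivative_X, derivative_C,
      Nat.add_sub_cancel, Nat.cast_add, Nat.cast_one] at e
    linear_combination e
  have e2 := congrArg (eval a) e1
  have e3 := congrArg (fun p => eval a (derivative p)) e1
  simp only [derivative_C, derivative_add, derivative_mul, derivative_X, eval_sub, eval_mul,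
    eval_add, eval_pow, eval_C, eval_X, eval_ofNat, eval_one, eval_zero, derivative_pow,
    derivative_sub, derivative_one, derivative_ofNat, sub_self, Nat.add_succ_sub_one,
    ne_eq, Nat.add_eq_zero_iff, one_ne_zero, and_false, not_false_eq_true, zero_pow,
    OfNat.ofNat_ne_zero] at e2 e3
  have h5 : (k + 1 : κ) ≠ 0 := by exact_mod_cast k.succ_ne_zero
  have h6 : (2 * k + 3 : κ) ≠ 0 := by exact_mod_cast (by omega : 2 * k + 3 ≠ 0)
  have h7 : a * (a - 1) * (a - ν) = 0 := mul_left_cancel₀
    (mul_ne_zero (mul_ne_zero (mul_ne_zero hr h4) h5) two_ne_zero) (by linear_combination -e2)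
  have h8 : 3 * a ^ 2 - 2 * (1 + ν) * a + ν = 0 := mul_left_cancel₀
    (mul_ne_zero (mul_ne_zero hr h4) h6) (by
      rw [h7] at e3; linear_combination -e3)
  rcases mul_eq_zero.1 h7 with h | h
  · rcases mul_eq_zero.1 h with h | h
    · rw [h] at h8; exact h0 (by linear_combination h8)
    · rw [sub_eq_zero.1 h] at h8; exact h2 (by linear_combination -h8)
  · rw [sub_eq_zero.1 h] at h8; exact mul_ne_zero h0 h2 (by linear_combination h8)

theorem mem_range_of_alg [IsAlgClosed κ] {z : L} (h : IsAlgebraic κ z) :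
    z ∈ (algebraMap κ L).range :=
  minpoly.mem_range_of_degree_eq_one κ z
    (IsAlgClosed.degree_eq_one_of_irreducible κ (minpoly.irreducible h.isIntegral))

theorem exch (htr : Algebra.trdeg κ L ≤ 1) {x : L} (hx : Transcendental κ x) (z : L) :
    IsAlgebraic (IntermediateField.adjoin κ {x}) z := by
  have := ((algebraicIndependent_iff_transcendental.2 hx).isTranscendenceBasis_of_lift_trdeg_le_of_finite
    (by simpa using htr)).isAlgebraic_field
  rw [show Set.range ![x] = {x} by simp] at this
  exact this.1 z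

theorem der_cubic [CharZero L] (E : Derivation ℚ L L) {x y l : L}
    (e : y ^ 2 = x * (x - 1) * (x - l)) :
    2 * y * E y = (3 * x ^ 2 - 2 * (1 + l) * x + l) * E x - x * (x - 1) * E l := by
  have := congrArg E e
  simp only [sq, E.leibniz, map_sub, E.map_one_eq_zero, smul_eq_mul] at this
  linear_combination this

theorem der_closed [CharZero L] (E : Derivation ℚ L L) (hE : ∀ c : κ, E (algebraMap κ L c) = 0)
    (S : Set L) (T : IntermediateField κ L) (h1 : IntermediateField.adjoin κ S ≤ T ∨ ∀ a ∈ S, E a = 0)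
    (h : ∀ a ∈ S, E a ∈ T) {z : L} (hz : z ∈ IntermediateField.adjoin κ S) :
    E z ∈ T ∧ ((∀ a ∈ S, E a = 0) → E z = 0) := by
  rcases h1 with h1 | h1
  · induction hz using IntermediateField.adjoin_induction with
    | mem x hx => exact ⟨h x hx, fun h => h x hx⟩
    | algebraMap c => simp [hE]
    | add x y _ _ h2 h3 =>
      rw [map_add]; exact ⟨add_mem h2.1 h3.1, fun h => by simp [h2.2 h, h3.2 h]⟩
    | mul x y hx hy h2 h3 =>
      rw [E.leibniz]
      exact ⟨add_mem (mul_mem (h1 hx) h3.1) (mul_mem (h1 hy) h2.1), fun h => by simp [h2.2 h, h3.2 h]⟩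
    | inv x hx h2 =>
      rw [E.leibniz_inv]
      exact ⟨mul_mem (neg_mem (pow_mem (inv_mem (h1 hx)) 2)) h2.1, fun h => by simp [h2.2 h]⟩
  · suffices E z = 0 by simp [this]
    induction hz using IntermediateField.adjoin_induction with
    | mem x hx => exact h1 x hx
    | algebraMap c => exact hE c
    | add x y _ _ h2 h3 => simp [h2, h3]
    | mul x y hx hy h2 h3 => simp [h2, h3]
    | inv x hx h2 => simp [E.leibniz_inv, h2]

theorem nonIso [IsAlgClosed κ] [CharZero κ] (htr : Algebra.trdeg κ L ≤ 1) {l ν : κ} (h0 : l ≠ 0)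
    (h1 : l ≠ 1) (hl : IsAlgebraic ℚ l) (hν : Transcendental ℚ ν) {u η x y : L}
    (hu : u ∉ (algebraMap κ L).range) (e : η ^ 2 = u * (u - 1) * (u - algebraMap κ L l))
    (hx : x ∈ IntermediateField.adjoin κ {u, η}) (hy : y ∈ IntermediateField.adjoin κ {u, η})
    (e' : y ^ 2 = x * (x - 1) * (x - algebraMap κ L ν)) : x ∈ (algebraMap κ L).range := by
  classical
  by_contra hxr
  have : CharZero L := charZero_of_injective_algebraMap (algebraMap κ L).injective
  have tu : Transcendental κ u := fun h => hu (mem_range_of_alg h)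
  have tx : Transcendental κ x := fun h => hxr (mem_range_of_alg h)
  have n0 : ν ≠ 0 := by rintro rfl; exact hν isAlgebraic_zero
  have n1 : ν ≠ 1 := by rintro rfl; exact hν isAlgebraic_one
  have nz : ∀ {x y : L} {l : κ}, x ∉ (algebraMap κ L).range →
      y ^ 2 = x * (x - 1) * (x - algebraMap κ L l) → y ≠ 0 := by
    rintro x y l h e rfl
    rcases mul_eq_zero.1 (e.symm.trans (by simp)) with h2 | h2
    · rcases mul_eq_zero.1 h2 with h2 | h2
      · exact h ⟨0, by simp [h2]⟩
      · exact h ⟨1, by simp [sub_eq_zero.1 h2]⟩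
    · exact h ⟨l, (sub_eq_zero.1 h2).symm⟩
  have η0 := nz hu e
  have y0 := nz hxr e'
  obtain ⟨B, hB1, hB⟩ := exists_isTranscendenceBasis_superset (R := ℚ) (s := {ν})
    (algebraicIndependent_unique_type_iff.2 hν)
  have ind := hB.1.sumElim_comp (algebraicIndependent_iff_transcendental.2 tu)
  obtain ⟨P, hP⟩ := PA.exists_der ind (Sum.elim (fun _ => 2 * 1 * η) 0)
  obtain ⟨D, hD⟩ := PA.exists_der ind (Sum.elim 0 fun b => if (b : κ) = ν then 1 else 0)
  have kill : ∀ E : Derivation ℚ L L, (∀ b : B, E (algebraMap κ L b) = 0) →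
      ∀ c : κ, E (algebraMap κ L c) = 0 := by
    intro E hE c
    refine der_alg E (A := Algebra.adjoin ℚ (Set.range ((↑) : B → κ)))
      ((algebraMap κ L).injective.comp Subtype.val_injective) ?_ (hB.isAlgebraic.1 c).algebraMap
    rintro ⟨a, ha⟩
    change E (algebraMap κ L a) = 0
    induction ha using Algebra.adjoin_induction with
    | mem x hx => obtain ⟨b, rfl⟩ := hx; exact hE b
    | algebraMap c => rw [← IsScalarTower.algebraMap_apply, E.map_algebraMap]
    | add x y _ _ h2 h3 => simp [h2, h3]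
    | mul x y hx hy h2 h3 => simp [h2, h3]
  have kill2 : ∀ (E : Derivation ℚ L L) (x : L), Transcendental κ x →
      (∀ c : κ, E (algebraMap κ L c) = 0) → E x = 0 → ∀ z, E z = 0 := fun E x hx h2 h3 z =>
    der_alg E Subtype.val_injective (fun a => (der_closed E h2 {x} ⊤ (Or.inl le_top) (by simp)
      a.2).2 (by simpa using h3)) (exch htr hx z)
  have Pκ := kill P fun b => hP (Sum.inr b)
  have Pu : P u = 2 * 1 * η := hP (Sum.inl 0)
  have Du : D u = 0 := hD (Sum.inl 0)
  have Dν : D (algebraMap κ L ν) = 1 := by simpa using hD (Sum.inr ⟨ν, hB1 rfl⟩)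
  have Dl : D (algebraMap κ L l) = 0 :=
    der_alg D (algebraMap ℚ L).injective D.map_algebraMap hl.algebraMap
  have Pη : P η = 1 * (3 * u ^ 2 - 2 * (1 + algebraMap κ L l) * u + algebraMap κ L l) := by
    apply mul_left_cancel₀ (mul_ne_zero two_ne_zero η0)
    rw [der_cubic P e, Pκ, Pu]; ring
  have Dη : D η = 0 := by
    apply mul_left_cancel₀ (mul_ne_zero two_ne_zero η0)
    rw [der_cubic D e, Dl, Du]; ring
  have h3 : D (2 : L) = 0 := by simpa using D.map_natCast 2
  have comm : ∀ z, D (P z) = P (D z) := fun z => sub_eq_zero.1 (kill2 ⁅D, P⁆ u tu (kill _ fun b => by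
    have := hD (Sum.inr b)
    simp only [Sum.elim_inr, Function.comp] at this
    rw [Derivation.commutator_apply, Pκ, this]
    split_ifs <;> simp) (by simp [Derivation.commutator_apply, Pu, Du, Dη, h3]) z)
  have kerP : ∀ z, P z = 0 → z ∈ (algebraMap κ L).range := fun z hz => by
    by_contra hc
    have := kill2 P z (fun h => hc (mem_range_of_alg h)) Pκ hz u
    rw [Pu] at this
    exact η0 (by simpa using this)
  set F := IntermediateField.adjoin κ {u, η} with hF
  have uF : u ∈ F := IntermediateField.subset_adjoin _ _ (by simp)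
  have ηF : η ∈ F := IntermediateField.subset_adjoin _ _ (by simp)
  have PF : P x ∈ F := (der_closed P Pκ _ F (Or.inl le_rfl) (by
    rintro a (rfl | rfl)
    · rw [Pu]; exact mul_mem (mul_mem (ofNat_mem _ 2) (one_mem _)) ηF
    · rw [Pη]
      exact mul_mem (one_mem _) (add_mem (sub_mem (mul_mem (ofNat_mem _ 3) (pow_mem uF 2))
        (mul_mem (mul_mem (ofNat_mem _ 2) (add_mem (one_mem _) (F.algebraMap_mem l))) uF))
        (F.algebraMap_mem l))) hx).1
  obtain ⟨g, hg⟩ : ∃ g, g = P x / (2 * y) := ⟨_, rfl⟩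
  have gF : g ∈ F := hg ▸ div_mem PF (mul_mem (ofNat_mem _ 2) hy)
  have Px : P x = 2 * g * y := by rw [hg]; field_simp
  have Py : P y = g * (3 * x ^ 2 - 2 * (1 + algebraMap κ L ν) * x + algebraMap κ L ν) := by
    apply mul_left_cancel₀ (mul_ne_zero two_ne_zero y0)
    rw [der_cubic P e', Pκ, Px]; ring
  have g0 : g ≠ 0 := by rintro rfl; exact hxr (kerP x (by simpa using Px))
  have gκ : g ∈ (algebraMap κ L).range := by
    by_contra hc
    have tg : Transcendental κ g⁻¹ := fun h => hc (mem_range_of_alg (by simpa using h.inv))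
    obtain ⟨V, v1, v2⟩ := chev (aeval g⁻¹ : κ[X] →ₐ[κ] L).toRingHom (evalRingHom 0)
      (fun G hG => by rw [transcendental_iff.1 tg G hG, map_zero])
    have hV : ∀ c : κ, algebraMap κ L c ∈ V := fun c => by simpa using v1 (C c)
    have v3 : g ∉ V := fun h => by
      have := mul_lt h (by simpa using (v2 X).2 (by simp) : V.valuation g⁻¹ < 1)
      simp [g0] at this
    exact v3 (g_mem P hV n0 n1 F (fun θ => reg P hV Pκ h0 h1 e Pu Pη gF v3) hx hy y0 e' Px Py)
  obtain ⟨G, hG⟩ : D g / g ∈ (algebraMap κ L).range := by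
    obtain ⟨c, rfl⟩ := gκ
    obtain ⟨d, hd⟩ := kerP (D (algebraMap κ L c)) (by rw [← comm, Pκ, map_zero])
    exact ⟨d / c, by rw [map_div₀, hd]⟩
  let δ : Derivation ℚ L L := (2 * g * y)⁻¹ • P
  have δκ : ∀ c : κ, δ (algebraMap κ L c) = 0 := fun c => by simp [δ, Pκ]
  have δx : δ x = 1 := by
    simp only [δ, Derivation.smul_apply, Px, smul_eq_mul]; field_simp
  set K0 := IntermediateField.adjoin κ {x} with hK0
  have xK : x ∈ K0 := IntermediateField.mem_adjoin_simple_self κ x
  have qK := mul_mem (ofNat_mem K0 2) (mul_mem (mul_mem xK (sub_mem xK (one_mem _)))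
    (sub_mem xK (K0.algebraMap_mem ν)))
  have q0 : x * (x - 1) * (x - algebraMap κ L ν) ≠ 0 := e' ▸ pow_ne_zero 2 y0
  obtain ⟨_, hB2, hB3⟩ := ode_descent δ K0 (fun a ha => (der_closed δ δκ _ K0 (Or.inl le_rfl)
    (by rintro a rfl; rw [δx]; exact one_mem _) ha).1) (exch htr tx (D x))
    (sub_mem (K0.algebraMap_mem G) (div_mem (mul_mem xK (sub_mem xK (one_mem _))) qK))
    (div_mem (add_mem (sub_mem (mul_mem (ofNat_mem _ 3) (pow_mem xK 2))
      (mul_mem (mul_mem (ofNat_mem _ 2) (add_mem (one_mem _) (K0.algebraMap_mem ν))) xK))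
      (K0.algebraMap_mem ν)) qK) (by
      have h2 := der_cubic D e'
      simp only [δ, Derivation.smul_apply, ← comm, Px, D.leibniz, smul_eq_mul, h3, hG, ← e']
      rw [Dν] at h2
      field_simp
      linear_combination g * h2)
  obtain ⟨r, s, rfl⟩ := (IntermediateField.mem_adjoin_simple_iff _ _).1 hB2
  have δp : ∀ p : κ[X], δ (aeval x p) = aeval x (derivative p) := fun p => by
    obtain ⟨q, h2, h3⟩ := der_aeval δ (fun _ => 0) (by simpa using δκ) (algebraMap κ L).injective x p
    obtain rfl : q = 0 := by ext i; simp [h2]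
    simpa [δx] using h3
  wlog hs : s ≠ 0 generalizing r s
  · obtain rfl := not_not.1 hs
    exact this 0 1 (by simp) (by simpa using hB3) one_ne_zero
  have s0 : aeval x s ≠ 0 := fun h => hs (transcendental_iff.1 tx s h)
  refine ode_poly n0 n1 r s hs (G := G) (transcendental_iff_injective.1 tx ?_)
  rw [δ.leibniz_div, δp, δp] at hB3
  simp only [map_sub, map_mul, map_add, map_pow, aeval_X, aeval_C, map_one, map_ofNat, smul_eq_mul]
    at hB3 ⊢
  generalize x * (x - 1) * (x - algebraMap κ L ν) = Q at *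
  field_simp at hB3
  linear_combination hB3

end Pool.Agent.P.MP_d3e5c7_ag.G1
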