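import Pool.Agent.P.MP_d3e5c7_ag.G1Z

/-! A valuation of the complex numbers specialising general points to a smooth cubic. -/

set_option autoImplicit false

namespace Pool.Agent.P.MP_d3e5c7_ag.G1

open MvPolynomial

variable {ι : Type} [Fintype ι] [DecidableEq ι]

/-- weight of the variables of block `i` -/
def wt (i : ι) (v : Option (ι × Fin 3)) : ℕ := v.elim 0 fun jk => if jk.1 = i then 1 else 0

/-- scaling of block `i` -/
noncomputable def sc (c : ℚ) (i : ι) :
    MvPolynomial (Option (ι × Fin 3)) ℚ →ₐ[ℚ] MvPolynomial (Option (ι × Fin 3)) ℚ :=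
  aeval fun v => C (c ^ wt i v) * X v

theorem coeff_sc (c : ℚ) (i : ι) (h : MvPolynomial (Option (ι × Fin 3)) ℚ) (m) :
    coeff m (sc c i h) = c ^ (∑ v, wt i v * m v) * coeff m h := by
  induction h using MvPolynomial.induction_on' with
  | add p q hp hq => simp only [map_add, coeff_add, hp, hq, mul_add]
  | monomial n a =>
    have : sc c i (monomial n a) = monomial n (c ^ (∑ v, wt i v * n v) * a) := by
      rw [sc, aeval_monomial, monomial_eq, Finsupp.prod_fintype _ _ (by simp),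
        Finsupp.prod_fintype _ _ (by simp)]
      simp only [mul_pow, Finset.prod_mul_distrib, ← map_pow, ← map_prod, ← pow_mul,
        Finset.prod_pow_eq_pow_sum, algebraMap_eq, map_mul]
      ring
    rw [this, coeff_monomial, coeff_monomial]
    split_ifs with h
    · rw [h]
    · simp

/-- homogeneous coordinates -/
def hc {Ω : Type*} [Field Ω] (P : Option (Ω × Ω)) : Fin 3 → Ω :=
  P.elim ![0, 1, 0] fun a => ![a.1, a.2, 1]

theorem config {Ω : Type*} [Field Ω] [IsAlgClosed Ω] [CharZero Ω] {ν : Ω}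
    (hν : Transcendental ℤ ν) (h : MvPolynomial (Option (ι × Fin 3)) ℚ)
    (h1 : ∀ i, ∃ u : ℚ, sc 2 i h = C u * h)
    (h2 : ∀ c : ℚ, eval (fun v => v.elim c fun _ => 0) h = 0) :
    ∃ Q : ι → Fin 3 → Ω, aeval (fun v => v.elim ν fun jk => Q jk.1 jk.2) h = 0 ∧
      (∀ i, Q i 1 ^ 2 * Q i 2 - Q i 0 * (Q i 0 - Q i 2) * (Q i 0 - ν * Q i 2) = 0) ∧
      (∀ i, ∃ k, Q i k ≠ 0) ∧ ∀ i j, i ≠ j → ∃ k l, Q i k * Q j l - Q i l * Q j k ≠ 0 := by
  obtain ⟨q, q1, q2, q3⟩ := lemZ hν
  obtain ⟨e, he⟩ := exists_injective_nat ι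
  suffices ∃ P : ι → Option (Ω × Ω), Function.Injective P ∧
      (∀ i a, P i = some a → a.2 ^ 2 = a.1 * (a.1 - 1) * (a.1 - ν)) ∧
      aeval (fun v => v.elim ν fun jk => hc (P jk.1) jk.2) h = 0 by
    obtain ⟨P, p1, p2, p3⟩ := this
    refine ⟨fun i => hc (P i), p3, fun i => ?_, fun i => ?_, fun i j hij => ?_⟩ <;>
      beta_reduce
    · rcases hi : P i with _ | a
      · simp [hc]
      · simp [hc, p2 i a hi]
    · rcases P i with _ | a
      · exact ⟨1, by simp [hc]⟩
      · exact ⟨2, by simp [hc]⟩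
    · have := p1.ne hij
      revert this
      rcases P i with _ | ⟨a, b⟩ <;> rcases P j with _ | ⟨c, d⟩ <;> intro hne
      · exact absurd rfl hne
      · exact ⟨1, 2, by simp [hc]⟩
      · exact ⟨1, 2, by simp [hc]⟩
      · by_cases h3 : a = c
        · exact ⟨1, 2, by simpa [hc, h3, sub_eq_zero] using hne⟩
        · exact ⟨0, 2, by simpa [hc, sub_eq_zero] using h3⟩
  by_cases h3 : ∀ m ∈ h.support, ∀ i, ∑ v, wt i v * m v = 0
  · obtain rfl : h = 0 := by
      refine MvPolynomial.funext fun x => ?_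
      rw [map_zero, ← h2 (x none), eval_eq', eval_eq']
      refine Finset.sum_congr rfl fun m hm => ?_
      congr 1
      refine Finset.prod_congr rfl ?_
      rintro (_ | ⟨j, k⟩) -
      · rfl
      · have := Finset.sum_eq_zero_iff.1 (h3 m hm j) (some (j, k)) (Finset.mem_univ _)
        simp only [wt, Option.elim_some, if_true, one_mul] at this
        simp [this]
    exact ⟨fun i => some (q (e i)), fun i j hij => he (q1 (by simpa using hij)),
      fun i a ha => by rw [← Option.some.inj ha]; exact q2 _, map_zero _⟩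
  push Not at h3
  obtain ⟨m0, hm0, i0, h3⟩ := h3
  obtain ⟨u, hu⟩ := h1 i0
  have h4 : ∀ m ∈ h.support, (2 : ℚ) ^ (∑ v, wt i0 v * m v) = u := fun m hm => by
    have := congrArg (coeff m) hu
    rw [coeff_sc, coeff_C_mul] at this
    exact mul_right_cancel₀ (mem_support_iff.1 hm) this
  let g : Option (ι × Fin 3) → MvPolynomial (Fin 3) Ω := fun v =>
    v.elim (C ν) fun jk => if jk.1 = i0 then X jk.2 else C (hc (some (q (e jk.1))) jk.2)
  have h5 : (aeval g h).IsHomogeneous (∑ v, wt i0 v * m0 v) := by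
    rw [aeval_def, eval₂_eq']
    refine IsHomogeneous.sum _ _ _ fun m hm => ?_
    rw [← pow_right_injective₀ two_pos (by norm_num) ((h4 m hm).trans (h4 m0 hm0).symm),
      IsScalarTower.algebraMap_apply ℚ Ω, algebraMap_eq]
    refine (IsHomogeneous.prod _ _ _ ?_).C_mul _
    rintro (_ | ⟨j, k⟩) -
    · exact (isHomogeneous_C _ _).pow _
    · refine IsHomogeneous.pow ?_ _
      simp only [g, wt, Option.elim_some]
      split_ifs
      · exact isHomogeneous_X _ _
      · exact isHomogeneous_C _ _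
  obtain ⟨P, p1, p2, p3⟩ : ∃ P : Option (Ω × Ω), (∀ j, P ≠ some (q j)) ∧
      (∀ a, P = some a → a.2 ^ 2 = a.1 * (a.1 - 1) * (a.1 - ν)) ∧ eval (hc P) (aeval g h) = 0 := by
    rcases q3 _ _ (Nat.pos_of_ne_zero h3) h5 with h6 | ⟨x, y, h6, h7, h8⟩
    · exact ⟨none, by simp, by simp, h6⟩
    · exact ⟨some (x, y), fun j hj => h7 j (Option.some.inj hj).symm,
        fun a ha => by rw [← Option.some.inj ha]; exact h6, h8⟩
  refine ⟨fun i => if i = i0 then P else some (q (e i)), fun i j hij => ?_, fun i a ha => ?_, ?_⟩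
  · simp only at hij
    split_ifs at hij with a b b
    · rw [a, b]
    · exact absurd hij (p1 _)
    · exact absurd hij.symm (p1 _)
    · exact he (q1 (by simpa using hij))
  · simp only at ha
    split_ifs at ha
    · exact p2 a ha
    · rw [← Option.some.inj ha]; exact q2 _
  · rw [← p3, ← aeval_eq_eval]
    refine Eq.trans ?_ (comp_aeval_apply g ((aeval (hc P)).restrictScalars ℚ) h).symm
    congr 2
    ext (_ | ⟨j, k⟩)
    · simp [g]
    · simp only [g, Option.elim_some]
      split_ifs <;> simp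

theorem exists_gen {R L : Type*} [CommRing R] [IsDomain R] [UniqueFactorizationMonoid R] [Field L]
    (φ : R →+* L) (hφ : Function.Injective φ) (μ : L) :
    ∃ H : Polynomial R, ∀ G : Polynomial R, G.eval₂ φ μ = 0 ↔ H ∣ G := by
  classical
  let I := RingHom.ker (Polynomial.eval₂RingHom φ μ)
  by_cases h : I = ⊥
  · exact ⟨0, fun G => by rw [zero_dvd_iff, ← Ideal.mem_bot (x := G), ← h]; rfl⟩
  obtain ⟨H, h1, h2⟩ := (RingHom.ker_isPrime _).exists_mem_prime_of_ne_bot h
  change H.eval₂ φ μ = 0 at h1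
  refine ⟨H, fun G => ⟨fun hG => ?_, by rintro ⟨G, rfl⟩; rw [Polynomial.eval₂_mul, h1, zero_mul]⟩⟩
  let _ := UniqueFactorizationMonoid.strongNormalizationMonoid (α := R)
  let _ := UniqueFactorizationMonoid.toNormalizedGCDMonoid R
  have h3 : H.IsPrimitive := h2.irreducible.isPrimitive fun h0 => by
    rw [Polynomial.eq_C_of_natDegree_eq_zero h0] at h1 h2
    rw [Polynomial.eval₂_C, map_eq_zero_iff _ hφ] at h1
    exact h2.ne_zero (by rw [h1, map_zero])
  let _ := (IsFractionRing.lift (K := FractionRing R) hφ).toAlgebra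
  have h4 : ∀ G : Polynomial R, G.eval₂ φ μ = 0 →
      Polynomial.aeval μ (G.map (algebraMap R (FractionRing R))) = 0 := fun G hG => by
    rw [Polynomial.aeval_def, Polynomial.eval₂_map, ← hG]
    congr 1
    ext r
    exact IsFractionRing.lift_algebraMap hφ r
  refine h3.dvd_of_fraction_map_dvd_fraction_map (K := FractionRing R) ?_
  exact (((h3.irreducible_iff_irreducible_map_fraction_map).1 h2.irreducible).dvd_iff_aeval_eq_zero
    (h4 H h1)).1 (h4 G hG)

theorem exists_indep (κ : Type) [Finite κ] (K : IntermediateField ℚ ℂ) [Countable K] :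
    ∃ t : κ → ℂ, AlgebraicIndependent K t := by
  obtain ⟨B, hB⟩ := exists_isTranscendenceBasis K ℂ
  have : Infinite B := by
    by_contra h
    have := not_infinite_iff_finite.1 h
    have h1 := IsAlgClosed.cardinal_le_max_transcendence_basis' _ hB
    rw [Cardinal.mk_complex] at h1
    exact absurd (h1.trans (max_le (max_le Cardinal.mk_le_aleph0 Cardinal.mk_le_aleph0) le_rfl))
      (not_le.2 Cardinal.aleph0_lt_continuum)
  obtain ⟨e, he⟩ := exists_injective_nat κ
  exact ⟨_, hB.1.comp _ ((Infinite.natEmbedding B).injective.comp he)⟩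

/-- affine parametrisation of the cone -/
noncomputable def par (ι : Type) (v : Option (ι × Fin 3)) :
    MvPolynomial (Option ι) (MvPolynomial (ι × Fin 2) ℚ) :=
  v.elim (X none) fun jk => C (![X (jk.1, 0), X (jk.1, 1), 1] jk.2) * X (some jk.1)

omit [Fintype ι] [DecidableEq ι] in
theorem par_inj : Function.Injective (aeval (R := ℚ) (par ι)) := by
  let φ := IsScalarTower.toAlgHom ℚ (MvPolynomial (Option (ι × Fin 3)) ℚ)
    (FractionRing (MvPolynomial (Option (ι × Fin 3)) ℚ))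
  have h0 : Function.Injective φ := IsFractionRing.injective _ _
  have h1 : ∀ v, φ (X v) ≠ 0 := fun v => (map_ne_zero_iff _ h0).2 (X_ne_zero v)
  let ψ := aevalTower (σ := Option ι) (aeval (R := ℚ) fun jk : ι × Fin 2 =>
    φ (X (some (jk.1, jk.2.castSucc))) / φ (X (some (jk.1, 2))))
    fun o => o.elim (φ (X none)) fun j => φ (X (some (j, 2)))
  have : ψ.comp (aeval (par ι)) = φ := by
    ext (_ | ⟨j, k⟩) : 1
    · simp [ψ, par]
    · have := h1 (some (j, 2))
      fin_cases k <;> simp only [ψ, par, AlgHom.comp_apply, aeval_X, Option.elim_some, map_mul,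
        aevalTower_C, aevalTower_X] <;> simp [-IsScalarTower.coe_toAlgHom', this]
  exact Function.Injective.of_comp (f := ψ) (by rw [← AlgHom.coe_comp, this]; exact h0)

theorem sc_unit {H : Polynomial (MvPolynomial (Option (ι × Fin 3)) ℚ)} (i : ι)
    (hsc : ∀ c : ℚ, H ∣ H.map (sc c i).toRingHom) : ∃ u : ℚ, sc 2 i (H.coeff 0) = C u * H.coeff 0 := by
  rcases eq_or_ne H 0 with rfl | h0
  · exact ⟨1, by simp⟩
  obtain ⟨w, hw⟩ := hsc 2
  obtain ⟨w', hw'⟩ := hsc 2⁻¹
  have h1 : (sc 2⁻¹ i).comp (sc 2 i) = AlgHom.id ℚ _ := by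
    ext v : 1
    simp only [sc, AlgHom.comp_apply, aeval_X, map_mul, aeval_C, algebraMap_eq, AlgHom.id_apply]
    rw [← mul_assoc, ← map_mul, ← mul_pow]; simp
  have h2 := congrArg (Polynomial.map (sc 2⁻¹ i).toRingHom) hw
  rw [Polynomial.map_map, show (sc 2⁻¹ i).toRingHom.comp (sc 2 i).toRingHom = RingHom.id _ from
    congrArg AlgHom.toRingHom h1, Polynomial.map_mul, hw', mul_assoc, Polynomial.map_id] at h2
  have h3 : IsUnit (w.map (sc 2⁻¹ i).toRingHom) := IsUnit.of_mul_eq_one_right w'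
    (mul_left_cancel₀ h0 (h2.symm.trans (mul_one H).symm))
  obtain ⟨u, -, hu⟩ := isUnit_iff_eq_C_of_isReduced.1 (h3.map Polynomial.constantCoeff)
  refine ⟨u, ?_⟩
  have h4 := congrArg (Polynomial.coeff · 0) hw
  simp only [Polynomial.coeff_map, Polynomial.mul_coeff_zero] at h4
  have h5 : w.coeff 0 = C u := by
    ext m
    have := congrArg (coeff m) hu
    rw [Polynomial.constantCoeff_apply, Polynomial.coeff_map] at this
    change coeff m (sc 2⁻¹ i _) = _ at this
    rw [coeff_sc, coeff_C] at this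
    rw [coeff_C]
    split_ifs at this ⊢ with h
    · subst h; simpa using this
    · simpa using this
  rw [mul_comm, ← h5]
  exact h4

theorem exists_h {K : Type} [Field K] [Algebra ℚ K] [Algebra K ℂ] [IsScalarTower ℚ K ℂ]
    {t : Option ι → ℂ} (ht : AlgebraicIndependent K t) (μ : K) (p : ι → Fin 3 → K)
    (g : MvPolynomial (Option (ι × Fin 3)) ℚ →ₐ[ℚ] MvPolynomial (Option ι) K)
    (hg : Function.Injective g) (g0 : g (X none) = X none)
    (g1 : ∀ j k, g (X (some (j, k))) = C (p j k) * X (some j))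
    (hμ : algebraMap K ℂ μ = 0 ∨ Transcendental ℚ (algebraMap K ℂ μ)) :
    ∃ h : MvPolynomial (Option (ι × Fin 3)) ℚ, (∀ i, ∃ u : ℚ, sc 2 i h = C u * h) ∧
      (∀ c : ℚ, eval (fun v => v.elim c fun _ => 0) h = 0) ∧ ∀ G : Polynomial _,
      G.eval₂ (((aeval t).restrictScalars ℚ).comp g).toRingHom (algebraMap K ℂ μ) = 0 →
        h ∣ G.coeff 0 := by
  have key : ∀ (θ : Option ι → ℂ) (G : Polynomial _),
      G.eval₂ (((aeval t).restrictScalars ℚ).comp g).toRingHom (algebraMap K ℂ μ) = 0 →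
      G.eval₂ (((aeval θ).restrictScalars ℚ).comp g).toRingHom (algebraMap K ℂ μ) = 0 := by
    intro θ G hG
    have h1 : ∀ θ : Option ι → ℂ, G.eval₂ (((aeval θ).restrictScalars ℚ).comp g).toRingHom
        (algebraMap K ℂ μ) = aeval θ (G.eval₂ g.toRingHom (C μ)) := fun θ => by
      rw [← aeval_C θ μ]
      exact (Polynomial.hom_eval₂ G g.toRingHom (aeval θ).toRingHom (C μ)).symm
    rw [h1, ht (a₂ := 0) ((h1 _).symm.trans (hG.trans (map_zero _).symm)), map_zero]
  obtain ⟨H, hH⟩ := exists_gen (((aeval t).restrictScalars ℚ).comp g).toRingHom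
    (Function.Injective.comp (g := aeval (R := K) t) ht hg) (algebraMap K ℂ μ)
  refine ⟨H.coeff 0, fun i => sc_unit i fun c => ?_, fun c => ?_, fun G hG => ?_⟩
  · have h2 : (((aeval t).restrictScalars ℚ).comp g).comp (sc c i) = ((aeval fun o =>
        (c : ℂ) ^ (if o = some i then 1 else 0) * t o).restrictScalars ℚ).comp g := by
      ext (_ | ⟨j, k⟩) : 1
      · simp [sc, wt, g0]
      · by_cases h : j = i <;> simp [sc, wt, g1, h]
        ring
    rw [← hH, Polynomial.eval₂_map, ← key _ H ((hH H).2 dvd_rfl), ← h2]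
    rfl
  · have h1 := key (fun o => o.elim (c : ℂ) fun _ => 0) H ((hH H).2 dvd_rfl)
    have h2 : ((aeval fun o : Option ι => o.elim (c : ℂ) fun _ => 0 : _ →ₐ[K] ℂ).restrictScalars
        ℚ).comp g = (Algebra.ofId ℚ ℂ).comp (aeval fun v => v.elim c fun _ => 0) := by
      ext (_ | ⟨j, k⟩) : 1 <;> simp [g0, g1]
    rw [h2] at h1
    have h3 : Polynomial.aeval (algebraMap K ℂ μ) (H.map (eval fun v => v.elim c fun _ => 0)) = 0 := by
      rw [Polynomial.aeval_def, Polynomial.eval₂_map]; exact h1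
    rcases hμ with h | hμ
    · rw [h, Polynomial.aeval_def, Polynomial.eval₂_at_zero] at h3
      simpa using h3
    · simpa using congrArg (Polynomial.coeff · 0) (transcendental_iff.1 hμ _ h3)
  · obtain ⟨G, rfl⟩ := (hH G).1 hG
    simp

theorem exists_O (p : ι → Fin 2 → ℂ)
    (hp : AlgebraicIndependent ℚ (fun ij : ι × Fin 2 => p ij.1 ij.2)) (l : ℂ) :
    ∃ (O : ValuationSubring ℂ) (P : ι → Fin 3 → ℂ) (n : ℂ), n ∈ O ∧
      (∀ q : Polynomial ℤ, q ≠ 0 → O.valuation (Polynomial.aeval n q) = 1) ∧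
      (IsAlgebraic ℤ l ∨ l ∉ O) ∧ (∀ i, P i 2 ≠ 0 ∧ ![P i 0 / P i 2, P i 1 / P i 2] = p i) ∧
      (∀ i k, P i k ∈ O) ∧ (∀ i, O.valuation
        (P i 1 ^ 2 * P i 2 - P i 0 * (P i 0 - P i 2) * (P i 0 - n * P i 2)) < 1) ∧
      (∀ i, ∃ k, O.valuation (P i k) = 1) ∧
      ∀ i j, i ≠ j → ∃ k l, O.valuation (P i k * P j l - P i l * P j k) = 1 := by
  obtain ⟨μ, hμ, hμ'⟩ : ∃ μ : ℂ, (μ = 0 ∨ Transcendental ℚ μ) ∧ (IsAlgebraic ℤ l ∨ l * μ = 1) := by
    by_cases h : IsAlgebraic ℚ l
    · exact ⟨0, Or.inl rfl, Or.inl ((IsFractionRing.isAlgebraic_iff ℤ ℚ ℂ).2 h)⟩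
    · exact ⟨l⁻¹, Or.inr fun h' => h (IsAlgebraic.inv_iff.1 h'),
        Or.inr (mul_inv_cancel₀ (by rintro rfl; exact h isAlgebraic_zero))⟩
  let K := IntermediateField.adjoin ℚ (insert μ (Set.range fun ij : ι × Fin 2 => p ij.1 ij.2))
  have : Countable K := Cardinal.mk_le_aleph0_iff.1 ((IntermediateField.cardinalMk_adjoin_le _ _).trans
    (max_le (max_le Cardinal.mk_le_aleph0 (Cardinal.mk_le_aleph0_iff.2
      (Set.toFinite _).countable.to_subtype)) le_rfl))
  obtain ⟨t, ht⟩ := exists_indep (Option ι) K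
  let pK : ι × Fin 2 → K := fun ij => ⟨_, IntermediateField.subset_adjoin _ _ (Or.inr ⟨ij, rfl⟩)⟩
  have hpK : Function.Injective (aeval (R := ℚ) pK) := AlgebraicIndependent.of_comp K.val hp
  have g1 : ∀ j k, (mapAlgHom (aeval pK)).comp (aeval (R := ℚ) (par ι)) (X (some (j, k))) =
      C (![pK (j, 0), pK (j, 1), 1] k) * X (some j) := by
    intro j k; fin_cases k <;> simp [par]
  have g0 : (mapAlgHom (aeval pK)).comp (aeval (R := ℚ) (par ι)) (X none) = X none := by simp [par]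
  obtain ⟨h, h1, h2, h3⟩ := exists_h ht ⟨μ, IntermediateField.subset_adjoin _ _ (Or.inl rfl)⟩ _ _
    ((map_injective (aeval pK).toRingHom hpK).comp par_inj) g0 g1 hμ
  obtain ⟨φ, hφ⟩ : ∃ φ : MvPolynomial (Option (ι × Fin 3)) ℚ →ₐ[ℚ] ℂ, φ = ((aeval t).restrictScalars ℚ).comp
    ((mapAlgHom (aeval pK)).comp (aeval (R := ℚ) (par ι))) := ⟨_, rfl⟩
  have φ1 : ∀ j k, φ (X (some (j, k))) = ![p j 0, p j 1, 1] k * t (some j) := by
    intro j k
    rw [hφ, AlgHom.comp_apply, g1]
    fin_cases k <;> simp [pK]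
  have φ0 : φ (X none) = t none := by rw [hφ, AlgHom.comp_apply, g0]; simp
  rw [← hφ] at h3
  have tn : Transcendental ℤ (t none) := fun h => (ht.transcendental none)
    (((IsFractionRing.isAlgebraic_iff ℤ ℚ ℂ).1 h).tower_top K)
  have t0 : ∀ i, t i ≠ 0 := fun i h => ht.transcendental i (h ▸ isAlgebraic_zero)
  obtain ⟨Q, q1, q2, q3, q4⟩ := config tn h h1 h2
  clear hφ g0 g1 hpK ht
  let ψ : _ →ₐ[ℚ] ℂ := aeval fun v : Option (ι × Fin 3) => v.elim (t none) fun jk => Q jk.1 jk.2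
  obtain ⟨O, o1, o2⟩ := chev (Polynomial.eval₂RingHom φ.toRingHom μ)
    (Polynomial.eval₂RingHom ψ.toRingHom 0) fun G hG => by
      obtain ⟨r, hr⟩ := h3 G hG
      simp [ψ, hr, q1]
  have o3 : ∀ r, φ r ∈ O := fun r => by simpa using o1 (Polynomial.C r)
  have o4 : ∀ r, O.valuation (φ r) < 1 ↔ ψ r = 0 := fun r => by simpa using o2 (Polynomial.C r)
  have o5 : ∀ r, ψ r ≠ 0 → O.valuation (φ r) = 1 := fun r h =>
    le_antisymm (le_of_mem (o3 r)) (not_lt.1 fun h' => h ((o4 r).1 h'))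
  refine ⟨O, fun i k => φ (X (some (i, k))), φ (X none), o3 _, fun q hq => ?_,
    hμ'.imp id fun h hl => ?_, fun i => ?_, fun i k => o3 _, fun i => ?_, fun i => ?_,
    fun i j hij => ?_⟩
  · have h1 := Polynomial.aeval_algHom_apply φ.toRingHom.toIntAlgHom (X none) q
    have h2 := Polynomial.aeval_algHom_apply ψ.toRingHom.toIntAlgHom (X none) q
    refine (congrArg _ h1).trans (o5 _ fun h => hq (transcendental_iff.1 tn q ?_))
    simpa [ψ] using h2.trans h
  · have := mul_lt hl (by simpa using (o2 Polynomial.X).2 (by simp) : O.valuation μ < 1)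
    simp [h] at this
  · refine ⟨by simp [φ1, t0], ?_⟩
    ext k
    fin_cases k <;> simp [φ1, t0]
  · have := (o4 (X (some (i, 1)) ^ 2 * X (some (i, 2)) - X (some (i, 0)) * (X (some (i, 0)) -
      X (some (i, 2))) * (X (some (i, 0)) - X none * X (some (i, 2))))).2 (by simpa [ψ] using q2 i)
    simpa using this
  · obtain ⟨k, hk⟩ := q3 i
    exact ⟨k, o5 _ (by simpa [ψ] using hk)⟩
  · obtain ⟨k, l, hk⟩ := q4 i j hij
    have := o5 (X (some (i, k)) * X (some (j, l)) - X (some (i, l)) *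
      X (some (j, k))) (by simpa [ψ] using hk)
    exact ⟨k, l, by simpa using this⟩

end Pool.Agent.P.MP_d3e5c7_ag.G1
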