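import Mathlib

/-! Valuation subrings: existence with prescribed centre, residues. -/

set_option autoImplicit false

namespace Pool.Agent.P.MP_d3e5c7_ag.G1

open IsLocalRing

theorem chev {S K Ω : Type*} [CommRing S] [Field K] [CommRing Ω] [IsDomain Ω] (α : S →+* K)
    (β : S →+* Ω) (h : ∀ G, α G = 0 → β G = 0) :
    ∃ V : ValuationSubring K, (∀ G, α G ∈ V) ∧ ∀ G, V.valuation (α G) < 1 ↔ β G = 0 := by
  let β' : α.range →+* Ω := α.rangeRestrict.liftOfSurjective α.rangeRestrict_surjective
    ⟨β, fun G hG => h G (congrArg Subtype.val hG)⟩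
  have hβ : ∀ G, β' (α.rangeRestrict G) = β G := fun G =>
    RingHom.liftOfRightInverse_comp_apply _ _ _ _ _
  have : (RingHom.ker β').IsPrime := RingHom.ker_isPrime β'
  obtain ⟨V, h1, h2⟩ := (LocalSubring.ofPrime α.range (RingHom.ker β')).exists_le_valuationSubring
  have h3 : ∀ G, α G ∈ V := fun G => h1 (LocalSubring.le_ofPrime _ _ ⟨G, rfl⟩)
  refine ⟨V, h3, fun G => ?_⟩
  rw [← hβ, ← RingHom.mem_ker, ← IsLocalization.AtPrime.to_map_mem_maximal_iff
    (LocalSubring.ofPrime α.range (RingHom.ker β')).toSubring (RingHom.ker β'),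
    ← V.valuation_lt_one_iff ⟨_, h3 G⟩, mem_maximalIdeal, mem_maximalIdeal, mem_nonunits_iff,
    mem_nonunits_iff, not_iff_not]
  exact isUnit_map_iff (Subring.inclusion h1) (algebraMap _ _ (α.rangeRestrict G))

theorem algClosed_of_surj {K κ : Type*} [Field K] [IsAlgClosed K] [Field κ]
    (O : ValuationSubring K) (ρ : O →+* κ) (hρ : Function.Surjective ρ) : IsAlgClosed κ := by
  apply IsAlgClosed.of_exists_root
  intro p hp hi
  obtain ⟨P, h1, h2, h3⟩ := Polynomial.lifts_and_degree_eq_and_monic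
    ((Polynomial.mem_lifts p).2 (Polynomial.map_surjective ρ hρ p)) hp
  obtain ⟨z, hz⟩ := IsAlgClosed.exists_aeval_eq_zero_of_injective K (R := O) Subtype.val_injective P
    (by rw [h2]; exact (Polynomial.degree_pos_of_irreducible hi).ne')
  obtain ⟨y, rfl⟩ := (IsIntegrallyClosed.isIntegral_iff (R := O) (K := K)).1 ⟨P, h3, hz⟩
  refine ⟨ρ y, ?_⟩
  rw [Polynomial.aeval_algebraMap_apply, map_eq_zero_iff _ Subtype.val_injective] at hz
  rw [← h1, Polynomial.eval_map, Polynomial.eval₂_hom, ← Polynomial.coe_aeval_eq_eval, hz, map_zero]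

section res
variable {K : Type*} [Field K] (V : ValuationSubring K)

open Classical in
/-- residue as a total function -/
noncomputable def res (x : K) : ResidueField V := if h : x ∈ V then residue V ⟨x, h⟩ else 0

theorem res_coe (a : V) : res V a = residue V a := dif_pos a.2

variable {V} {x y : K}

theorem res_of (h : x ∈ V) : res V x = residue V ⟨x, h⟩ := dif_pos h

theorem res_add (hx : x ∈ V) (hy : y ∈ V) : res V (x + y) = res V x + res V y := by
  rw [res_of hx, res_of hy, res_of (add_mem hx hy), ← map_add]; rfl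

theorem res_mul (hx : x ∈ V) (hy : y ∈ V) : res V (x * y) = res V x * res V y := by
  rw [res_of hx, res_of hy, res_of (mul_mem hx hy), ← map_mul]; rfl

theorem res_sub (hx : x ∈ V) (hy : y ∈ V) : res V (x - y) = res V x - res V y := by
  rw [res_of hx, res_of hy, res_of (sub_mem hx hy), ← map_sub]; rfl

theorem res_one : res V 1 = 1 := by rw [res_of (one_mem _)]; exact map_one _

theorem res_zero : res V 0 = 0 := by rw [res_of (zero_mem _)]; exact map_zero _

theorem res_pow (hx : x ∈ V) (n : ℕ) : res V (x ^ n) = res V x ^ n := by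
  rw [res_of hx, res_of (pow_mem hx n), ← map_pow]; rfl

theorem res_eq_zero (hx : x ∈ V) : res V x = 0 ↔ V.valuation x < 1 := by
  rw [res_of hx, residue_eq_zero_iff, V.valuation_lt_one_iff]

theorem mem_of_lt (h : V.valuation x < 1) : x ∈ V := V.mem_of_valuation_le_one x h.le

theorem mem_of_eq (h : V.valuation x = 1) : x ∈ V := V.mem_of_valuation_le_one x h.le

theorem le_of_mem (h : x ∈ V) : V.valuation x ≤ 1 := (V.valuation_le_one_iff x).2 h

theorem res_ne_zero (hx : x ∈ V) : res V x ≠ 0 ↔ V.valuation x = 1 := by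
  rw [ne_eq, res_eq_zero hx, not_lt]
  exact ⟨fun h => le_antisymm (le_of_mem hx) h, fun h => h.ge⟩

theorem res_eq_iff (hx : x ∈ V) (hy : y ∈ V) : res V x = res V y ↔ V.valuation (x - y) < 1 := by
  rw [← sub_eq_zero, ← res_sub hx hy, res_eq_zero (sub_mem hx hy)]

theorem inv_mem_of_eq (h : V.valuation x = 1) : x⁻¹ ∈ V := mem_of_eq (by rw [map_inv₀, h, inv_one])

theorem res_inv (h : V.valuation x = 1) : res V x⁻¹ = (res V x)⁻¹ := by
  have h0 : x ≠ 0 := by rintro rfl; simp at h
  apply eq_inv_of_mul_eq_one_left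
  rw [← res_mul (inv_mem_of_eq h) (mem_of_eq h), inv_mul_cancel₀ h0, res_one]

theorem div_mem_of_eq (hx : x ∈ V) (h : V.valuation y = 1) : x / y ∈ V := by
  rw [div_eq_mul_inv]; exact mul_mem hx (inv_mem_of_eq h)

theorem res_div (hx : x ∈ V) (h : V.valuation y = 1) : res V (x / y) = res V x / res V y := by
  rw [div_eq_mul_inv, res_mul hx (inv_mem_of_eq h), res_inv h, div_eq_mul_inv]

theorem inv_lt_of_notMem (h : x ∉ V) : V.valuation x⁻¹ < 1 :=
  V.mem_nonunits_iff.1 (V.inv_mem_nonunits_iff.2 (Or.inr h))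

theorem one_lt_of_notMem (h : x ∉ V) : 1 < V.valuation x := by
  rwa [← V.valuation_le_one_iff, not_le] at h

theorem mul_lt (hx : x ∈ V) (hy : V.valuation y < 1) : V.valuation (x * y) < 1 := by
  rw [map_mul]
  exact lt_of_le_of_lt (mul_le_of_le_one_left' (le_of_mem hx)) hy

theorem val_one_add (h : V.valuation x < 1) : V.valuation (1 + x) = 1 :=
  Valuation.map_one_add_of_lt _ h

theorem val_eq_of_sub (h : V.valuation x = 1) (h' : V.valuation (y - x) < 1) :
    V.valuation y = 1 := by
  have := Valuation.map_add_eq_of_lt_left V.valuation (x := x) (y := y - x) (by rwa [h])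
  rwa [add_sub_cancel, h] at this

theorem lt_or_lt (h : V.valuation (x * y) < 1) : V.valuation x < 1 ∨ V.valuation y < 1 := by
  by_contra hc
  push Not at hc
  rw [map_mul] at h
  exact absurd (one_le_mul hc.1 hc.2) (not_le.2 h)

theorem exists_norm {ι : Type*} (s : Finset ι) (c : ι → K) (h : ∃ i ∈ s, c i ≠ 0) :
    ∃ j ∈ s, c j ≠ 0 ∧ ∀ i ∈ s, c i / c j ∈ V := by
  obtain ⟨i, hi, hc⟩ := h
  obtain ⟨j, hj, H⟩ := s.exists_max_image (fun i => V.valuation (c i)) ⟨i, hi⟩
  have hj0 : c j ≠ 0 := by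
    intro h0
    have := H i hi
    rw [h0, map_zero, le_zero_iff, map_eq_zero] at this
    exact hc this
  refine ⟨j, hj, hj0, fun k hk => V.mem_of_valuation_le_one _ ?_⟩
  rw [map_div₀]
  exact div_le_one_of_le₀ (H k hk) zero_le

end res

end Pool.Agent.P.MP_d3e5c7_ag.G1
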