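import Pool.Agent.P.MP_d3e5c7_ag.G1L

/-! A form of positive degree has a zero on a smooth cubic away from the multiples of a point of
infinite order. -/

set_option autoImplicit false

namespace Pool.Agent.P.MP_d3e5c7_ag.G1

open Polynomial WeierstrassCurve WeierstrassCurve.Affine WeierstrassCurve.Affine.CoordinateRing

section forms
variable {σ K L : Type*} [Field K] [CommRing L] [Algebra K L]

theorem aeval_smul_hom [Fintype σ] {A : MvPolynomial σ K} {e : ℕ} (h : A.IsHomogeneous e) (c : L)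
    (v : σ → L) : MvPolynomial.aeval (fun i => c * v i) A = c ^ e * MvPolynomial.aeval v A := by
  simp only [MvPolynomial.aeval_def, MvPolynomial.eval₂_eq', Finset.mul_sum]
  refine Finset.sum_congr rfl fun α hα => ?_
  have : ∑ i, α i = e := by
    rw [← Finsupp.degree_eq_sum]
    by_contra h2; exact MvPolynomial.mem_support_iff.1 hα (h.coeff_eq_zero h2)
  simp only [mul_pow, Finset.prod_mul_distrib, Finset.prod_pow_eq_pow_sum, this]
  ring

theorem aeval_congr {L : Type*} [Field L] [Algebra K L] {V : ValuationSubring L}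
    (hV : ∀ c : K, algebraMap K L c ∈ V) {v w : σ → L}
    (hw : ∀ i, w i ∈ V) (h : ∀ i, V.valuation (v i - w i) < 1) (A : MvPolynomial σ K) :
    MvPolynomial.aeval w A ∈ V ∧
      V.valuation (MvPolynomial.aeval v A - MvPolynomial.aeval w A) < 1 := by
  induction A using MvPolynomial.induction_on with
  | C c => simp [hV]
  | add p q hp hq =>
    rw [map_add, map_add, add_sub_add_comm]
    exact ⟨add_mem hp.1 hq.1, Valuation.map_add_lt _ hp.2 hq.2⟩
  | mul_X p i hp =>
    simp only [map_mul, MvPolynomial.aeval_X]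
    refine ⟨mul_mem hp.1 (hw i), ?_⟩
    rw [show ∀ a b c d : L, a * b - c * d = (d + (b - d)) * (a - c) + c * (b - d) by intros; ring]
    exact Valuation.map_add_lt _ (mul_lt (add_mem (hw i) (mem_of_lt (h i))) hp.2) (mul_lt hp.1 (h i))

end forms

variable {Ω : Type*} [Field Ω] (W : Affine Ω)

/-- first coordinate function -/
noncomputable def xR : W.CoordinateRing := mk W (C X)

/-- second coordinate function -/
noncomputable def yR : W.CoordinateRing := mk W X

theorem mk_C (p : (Polynomial Ω)) : mk W (C p) = aeval (xR W) p := by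
  have : xR W = algebraMap (Polynomial Ω) W.CoordinateRing X := rfl
  rw [this, aeval_algebraMap_apply, aeval_X_left_apply]; rfl

theorem eqR : yR W ^ 2 + (algebraMap Ω _ W.a₁ * xR W + algebraMap Ω _ W.a₃) * yR W =
    xR W ^ 3 + algebraMap Ω _ W.a₂ * xR W ^ 2 + algebraMap Ω _ W.a₄ * xR W + algebraMap Ω _ W.a₆ := by
  have : CoordinateRing.mk W (X ^ 2 + C (C W.a₁ * X + C W.a₃) * X -
    C (X ^ 3 + C W.a₂ * X ^ 2 + C W.a₄ * X + C W.a₆)) = 0 := AdjoinRoot.mk_self
  rw [map_sub, map_add, map_mul, map_pow, mk_C, mk_C, sub_eq_zero] at this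
  simpa [yR] using this

theorem xR_trans : Transcendental Ω (algebraMap _ W.FunctionField (xR W)) :=
  transcendental_iff.2 fun p hp => by
    rw [aeval_algebraMap_apply, map_eq_zero_iff _ (IsFractionRing.injective _ _), ← mk_C] at hp
    exact FaithfulSMul.algebraMap_injective (Polynomial Ω) W.CoordinateRing (hp.trans (map_zero _).symm)

theorem gen_FF (z : W.FunctionField) : z ∈ IntermediateField.adjoin Ω
    {algebraMap _ W.FunctionField (xR W), algebraMap _ W.FunctionField (yR W)} := by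
  set T := IntermediateField.adjoin Ω
    {algebraMap _ W.FunctionField (xR W), algebraMap _ W.FunctionField (yR W)}
  have h1 : ∀ p : (Polynomial Ω), algebraMap _ W.FunctionField (mk W (C p)) ∈ T := fun p => by
    rw [mk_C, ← aeval_algebraMap_apply]
    exact IntermediateField.algebra_adjoin_le_adjoin _ _ (Algebra.adjoin_mono (by simp)
      (aeval_mem_adjoin_singleton Ω _))
  have h2 : ∀ r, algebraMap W.CoordinateRing W.FunctionField r ∈ T := fun r => by
    obtain ⟨p, q, rfl⟩ := exists_smul_basis_eq r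
    rw [smul, smul, mul_one, map_add, map_mul]
    exact add_mem (h1 p) (mul_mem (h1 q) (IntermediateField.subset_adjoin _ _ (Or.inr rfl)))
  obtain ⟨a, b, -, rfl⟩ := IsFractionRing.div_surjective (A := W.CoordinateRing) z
  exact div_mem (h2 a) (h2 b)

variable {W}

theorem const_of_unit {a : W.CoordinateRing} (h : IsUnit a) : ∃ c, a = algebraMap Ω _ c := by
  obtain ⟨p, q, rfl⟩ := exists_smul_basis_eq a
  have h1 := degree_eq_zero_of_isUnit (h.map (Algebra.norm (Polynomial Ω)))
  rw [degree_norm_smul_basis] at h1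
  have h2 : q = 0 := by
    by_contra h0
    have := le_max_right (2 • p.degree) (2 • q.degree + 3)
    rw [h1, degree_eq_natDegree h0] at this
    norm_cast at this
  subst h2
  have h3 : p.degree ≤ 0 := by
    have := le_max_left (2 • p.degree) (2 • (0 : (Polynomial Ω)).degree + 3)
    rw [h1] at this
    by_contra h4
    rw [degree_eq_natDegree (by rintro rfl; simp at h4)] at this h4
    norm_cast at this h4
    simp at this h4
    have h5 : 2 * p.natDegree ≤ 0 := by exact_mod_cast this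
    omega
  exact ⟨p.coeff 0, by rw [eq_C_of_degree_le_zero h3, zero_smul, add_zero, smul, mul_one, mk_C]; simp⟩

theorem XY_max {x y : Ω} (h : W.Equation x y) : (XYIdeal W x (C y)).IsMaximal :=
  Ideal.Quotient.maximal_of_isField _
    ((quotientXYIdealEquiv (W' := W) h).toMulEquiv.isField (Field.toIsField Ω))

theorem max_eq [IsAlgClosed Ω] (m : Ideal W.CoordinateRing) [hm : m.IsMaximal] :
    ∃ x y, W.Equation x y ∧ m = XYIdeal W x (C y) ∧ ∀ A : MvPolynomial (Fin 3) Ω,
      MvPolynomial.aeval ![xR W, yR W, 1] A ∈ m → MvPolynomial.eval ![x, y, 1] A = 0 := by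
  let _ := Ideal.Quotient.field m
  have := finite_of_finite_type_of_isJacobsonRing Ω (W.CoordinateRing ⧸ m)
  have hb := IsAlgClosed.algebraMap_bijective_of_isIntegral (k := Ω) (K := W.CoordinateRing ⧸ m)
  obtain ⟨x, hx⟩ := hb.2 (Ideal.Quotient.mkₐ Ω m (xR W))
  obtain ⟨y, hy⟩ := hb.2 (Ideal.Quotient.mkₐ Ω m (yR W))
  have he : W.Equation x y := by
    have := congrArg (Ideal.Quotient.mkₐ Ω m) (eqR W)
    simp only [map_add, map_mul, map_pow, AlgHom.commutes, ← hx, ← hy] at this
    rw [equation_iff]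
    apply hb.1
    simp only [map_add, map_mul, map_pow]
    linear_combination this
  refine ⟨x, y, he, ((XY_max he).eq_of_le hm.ne_top (Ideal.span_le.2 ?_)).symm, fun A hA => hb.1 ?_⟩
  · rintro _ (rfl | rfl)
    · rw [SetLike.mem_coe, ← Ideal.Quotient.eq_zero_iff_mem, XClass, mk_C, ← Ideal.Quotient.mkₐ_eq_mk Ω]
      simp only [map_sub, aeval_X, aeval_C, AlgHom.commutes, hx, sub_self]
    · rw [SetLike.mem_coe, ← Ideal.Quotient.eq_zero_iff_mem, YClass, map_sub, mk_C,
        ← Ideal.Quotient.mkₐ_eq_mk Ω, map_sub, aeval_C, AlgHom.commutes, hy]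
      exact sub_self _
  · rw [← Ideal.Quotient.eq_zero_iff_mem, ← Ideal.Quotient.mkₐ_eq_mk Ω,
      MvPolynomial.comp_aeval_apply] at hA
    rw [map_zero, ← hA, ← MvPolynomial.aeval_eq_eval, ← MvPolynomial.aeval_algebraMap_apply]
    congr 2
    ext i : 1
    fin_cases i <;> simp [hx, hy]

theorem factor_ideal [IsAlgClosed Ω] [DecidableEq Ω] (hΔ : W.Δ ≠ 0) (Q : W.Point)
    (J : Ideal W.CoordinateRing) (h0 : J ≠ ⊥) (H : ∀ x y (h : W.Nonsingular x y),
      J ≤ XYIdeal W x (C y) → ∃ j : ℕ, Point.some x y h = (j + 1) • Q) :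
    ∃ (n : ℕ) (I : (FractionalIdeal (nonZeroDivisors W.CoordinateRing) W.FunctionField)ˣ),
      (I : FractionalIdeal (nonZeroDivisors W.CoordinateRing) W.FunctionField) = J ∧
      ClassGroup.mk W.FunctionField I = Additive.toMul (Point.toClass (n • Q)) ∧
      (n = 0 → J = ⊤) := by
  have : IsNoetherianRing W.CoordinateRing := Algebra.FiniteType.isNoetherianRing Ω _
  induction J using IsNoetherian.induction with
  | hgt J ih =>
  rcases eq_or_ne J ⊤ with rfl | hJ
  · exact ⟨0, 1, by simp, by simp, fun _ => rfl⟩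
  obtain ⟨m, hm, hJm⟩ := Ideal.exists_le_maximal J hJ
  obtain ⟨x, y, he, rfl, -⟩ := max_eq m
  have hn := (equation_iff_nonsingular_of_Δ_ne_zero hΔ).1 he
  obtain ⟨j, hj⟩ := H x y hn hJm
  have h1 := XYIdeal_neg_mul hn
  let J' : Ideal W.CoordinateRing := Submodule.comap (LinearMap.mulLeft _ (XClass W x))
    (XYIdeal W x (C (W.negY x y)) * J)
  have h2 : XYIdeal W x (C (W.negY x y)) * J = XIdeal W x * J' := by
    ext z
    rw [XIdeal, Ideal.mem_span_singleton_mul]
    refine ⟨fun h => ?_, by rintro ⟨w, hw, rfl⟩; exact hw⟩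
    have h3 := Ideal.mul_mono_right hJm h
    rw [h1] at h3
    obtain ⟨w, rfl⟩ := Ideal.mem_span_singleton.1 h3
    exact ⟨w, h, rfl⟩
  have h3 : J = XYIdeal W x (C y) * J' := by
    rw [← Ideal.span_singleton_mul_right_inj (XClass_ne_zero (W' := W) x)]
    change XIdeal W x * _ = XIdeal W x * _
    rw [mul_left_comm, ← h2, ← h1]; ring
  have h4 : J ≤ J' := h3.le.trans Ideal.mul_le_right
  have h5 : J < J' := lt_of_le_of_ne h4 fun h => by
    obtain ⟨r, h6, h7⟩ := Submodule.exists_sub_one_mem_and_smul_eq_zero_of_fg_of_le_smul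
      (XYIdeal W x (C y)) J (IsNoetherian.noetherian J) (by rw [← h] at h3; exact h3.le)
    obtain ⟨z, h8, h9⟩ := Submodule.exists_mem_ne_zero_of_ne_bot h0
    obtain rfl : r = 0 := (mul_eq_zero.1 (h7 z h8)).resolve_right h9
    exact hm.ne_top ((Ideal.eq_top_iff_one _).2 (by simpa using h6))
  obtain ⟨n, I, h6, h7, -⟩ := ih J' h5 (fun h => h0 (le_bot_iff.1 (h ▸ h4)))
    fun x y h h' => H x y h (h4.trans h')
  refine ⟨j + 1 + n, XYIdeal' hn * I, ?_, ?_, by omega⟩
  · rw [Units.val_mul, h6, XYIdeal'_eq, ← FractionalIdeal.coeIdeal_mul, ← h3]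
  · rw [map_mul, h7, add_nsmul, map_add, ← hj]; rfl

/-- the Legendre cubic -/
def leg (ν : Ω) : Affine Ω := ⟨0, -(1 + ν), 0, ν, 0⟩

theorem leg_eq (ν x y : Ω) : (leg ν).Equation x y ↔ y ^ 2 = x * (x - 1) * (x - ν) := by
  rw [equation_iff]; simp only [leg]
  constructor <;> intro h <;> linear_combination h

theorem leg_Δ [CharZero Ω] {ν : Ω} (h0 : ν ≠ 0) (h1 : ν ≠ 1) : (leg ν).Δ ≠ 0 := by
  have : (leg ν).Δ = 16 * ν ^ 2 * (ν - 1) ^ 2 := by
    simp only [leg, WeierstrassCurve.Δ, b₂, b₄, b₆, b₈]; ring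
  rw [this]
  exact mul_ne_zero (mul_ne_zero (by norm_num) (pow_ne_zero _ h0)) (pow_ne_zero _ (sub_ne_zero.2 h1))

theorem exists_inf [IsAlgClosed Ω] [CharZero Ω] [DecidableEq Ω] {ν : Ω}
    (hν : Transcendental ℤ ν) (hΔ : (leg ν).Δ ≠ 0) :
    ∃ Q : (leg ν).Point, Function.Injective fun n : ℕ => n • Q := by
  obtain ⟨V, v1, v2⟩ := chev (aeval ν : ℤ[X] →ₐ[ℤ] Ω).toRingHom (eval₂RingHom (Int.castRingHom (ZMod 2)) 0)
    (fun G hG => by rw [transcendental_iff.1 hν G hG, map_zero])
  have hv : ν ∈ V := by simpa using v1 X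
  have h2 : V.valuation 2 < 1 := by
    have := (v2 2).2 (by rw [map_ofNat]; rfl)
    rwa [map_ofNat] at this
  have h3 : 0 < V.valuation 2 := by simp [pos_iff_ne_zero]
  obtain ⟨y, hy⟩ := IsAlgClosed.exists_pow_nat_eq ((2⁻¹ : Ω) * (2⁻¹ - 1) * (2⁻¹ - ν)) two_pos
  have hn := (equation_iff_nonsingular_of_Δ_ne_zero hΔ).1 ((leg_eq _ _ _).2 hy)
  have key : ∀ k : ℕ, ∃ x' y' h, 2 ^ k • Point.some _ _ hn = Point.some x' y' h ∧
      V.valuation x' * V.valuation 2 ^ (2 * k + 1) = 1 := by
    intro k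
    induction k with
    | zero => exact ⟨_, _, hn, by simp, by simp [h3.ne']⟩
    | succ k ih =>
      obtain ⟨a, b, h, e1, e2⟩ := ih
      have e3 := (leg_eq _ _ _).1 h.1
      have e4 : a ∉ V := fun ha => by
        have := mul_lt ha (y := 2 ^ (2 * k + 1)) (by
          rw [map_pow]; exact pow_lt_one₀ zero_le h2 (by omega))
        rw [map_mul, map_pow, e2] at this
        exact lt_irrefl _ this
      have e5 := one_lt_of_notMem e4
      have b0 := (inf_chart hv e3 e4).1
      have e6 : b ≠ (leg ν).negY a b := by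
        simp only [negY, leg]; intro h; exact b0 (by linear_combination (2⁻¹ : Ω) * h)
      refine ⟨_, _, _, by rw [pow_succ', mul_nsmul', e1, two_nsmul, Point.add_self_of_Y_ne e6], ?_⟩
      have e7 : (leg ν).addX a a ((leg ν).slope a a b b) * (2 ^ 2 * b ^ 2) = (a ^ 2 - ν) ^ 2 := by
        rw [slope_of_Y_ne rfl e6]
        simp only [addX, negY, leg]
        rw [show b - (-b - 0 * a - 0) = 2 * b by ring]
        field_simp
        linear_combination (-4 * (2 * a - 1 - ν)) * e3
      have e8 := congrArg V.valuation e7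
      rw [map_mul, map_mul, e3, map_mul, map_mul, Valuation.map_sub_eq_of_lt_left _ (by simpa using e5),
        Valuation.map_sub_eq_of_lt_left _ ((le_of_mem hv).trans_lt e5), map_pow, map_pow,
        Valuation.map_sub_eq_of_lt_left _ ((le_of_mem hv).trans_lt (by
          rw [map_pow]; exact one_lt_pow₀ e5 two_ne_zero)), map_pow] at e8
      have e9 : V.valuation a ^ 3 ≠ 0 := pow_ne_zero _ (zero_lt_one.trans e5).ne'
      apply mul_left_cancel₀ e9
      rw [← e2]
      generalize V.valuation a = A at *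
      generalize V.valuation ((leg ν).addX a a ((leg ν).slope a a b b)) = B at *
      generalize V.valuation 2 = T at *
      trans B * (T ^ 2 * (A * A * A)) * T ^ (2 * k + 1)
      · rw [show 2 * (k + 1) + 1 = 2 + (2 * k + 1) by ring, pow_add, pow_three]; ac_rfl
      · rw [e8, ← mul_assoc, ← pow_mul, ← pow_succ]
  refine ⟨Point.some _ _ hn, injective_nsmul_iff_not_isOfFinAddOrder.2 fun h => ?_⟩
  refine h.finite_multiples.not_infinite (Set.infinite_of_injective_forall_mem
    (f := fun k : ℕ => 2 ^ k • Point.some _ _ hn) (fun i j hij => ?_) fun k => ⟨_, rfl⟩)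
  obtain ⟨a, b, h, e1, e2⟩ := key i
  obtain ⟨a', b', h', e3, e4⟩ := key j
  simp only [e1, e3, Point.some.injEq] at hij
  rw [← hij.1, ← e2] at e4
  have := pow_right_injective₀ h3 h2.ne
    (mul_left_cancel₀ (left_ne_zero_of_mul_eq_one e2) e4)
  omega

theorem lemZ [IsAlgClosed Ω] [CharZero Ω] {ν : Ω} (hν : Transcendental ℤ ν) :
    ∃ q : ℕ → Ω × Ω, Function.Injective q ∧
      (∀ j, (q j).2 ^ 2 = (q j).1 * ((q j).1 - 1) * ((q j).1 - ν)) ∧
      ∀ (A : MvPolynomial (Fin 3) Ω) (e : ℕ), 0 < e → A.IsHomogeneous e →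
        MvPolynomial.eval ![0, 1, 0] A = 0 ∨ ∃ x y, y ^ 2 = x * (x - 1) * (x - ν) ∧
          (∀ j, q j ≠ (x, y)) ∧ MvPolynomial.eval ![x, y, 1] A = 0 := by
  classical
  have hΔ := leg_Δ (ν := ν) (by rintro rfl; exact hν isAlgebraic_zero)
    (by rintro rfl; exact hν isAlgebraic_one)
  obtain ⟨Q, hQ⟩ := exists_inf hν hΔ
  have h1 : ∀ j : ℕ, ∃ x y h, (j + 1) • Q = Point.some x y h := fun j => by
    rcases h : (j + 1) • Q with _ | ⟨x, y, h'⟩
    · exact absurd (hQ (a₂ := 0) (h.trans (zero_nsmul Q).symm)) j.succ_ne_zero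
    · exact ⟨x, y, h', rfl⟩
  choose x y h e using h1
  refine ⟨fun j => (x j, y j), fun i j hij => ?_, fun j => (leg_eq _ _ _).1 (h j).1, ?_⟩
  · simp only [Prod.mk.injEq] at hij
    have : (i + 1) • Q = (j + 1) • Q := by rw [e, e, Point.some.injEq]; exact hij
    simpa using hQ this
  intro A d hd hA
  by_contra hc
  push Not at hc
  let φ := IsScalarTower.toAlgHom Ω (leg ν).CoordinateRing (leg ν).FunctionField
  set a := MvPolynomial.aeval ![xR (leg ν), yR (leg ν), 1] A with ha
  have key : ∀ c : Ω, a ≠ algebraMap Ω _ c := by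
    intro c h0
    have tx : Transcendental Ω (φ (xR (leg ν)))⁻¹ := fun h => xR_trans _ (IsAlgebraic.inv_iff.1 h)
    obtain ⟨V, v1, v2⟩ := chev (aeval (φ (xR (leg ν)))⁻¹ : (Polynomial Ω) →ₐ[Ω] _).toRingHom (evalRingHom 0)
      (fun G hG => by rw [transcendental_iff.1 tx G hG, map_zero])
    have hV : ∀ c : Ω, algebraMap Ω _ c ∈ V := fun c => by simpa using v1 (C c)
    have e1 := congrArg φ (eqR (leg ν))
    simp only [map_add, map_mul, map_pow, AlgHom.commutes] at e1
    generalize hX : φ (xR (leg ν)) = X' at *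
    generalize hY : φ (yR (leg ν)) = Y' at *
    have x0 : X' ≠ 0 := by rintro rfl; exact tx (by simpa using isAlgebraic_zero)
    have v3 : X' ∉ V := fun h => by
      have := mul_lt h (by simpa using (v2 X).2 (by simp) : V.valuation X'⁻¹ < 1)
      simp [x0] at this
    obtain ⟨b0, b1, b2, -⟩ := inf_chart (y := Y') (hV ν) (by
      rw [show (leg ν).a₁ = 0 from rfl, show (leg ν).a₂ = -(1 + ν) from rfl,
        show (leg ν).a₃ = 0 from rfl, show (leg ν).a₄ = ν from rfl,
        show (leg ν).a₆ = 0 from rfl] at e1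
      simp only [map_zero, map_neg, map_add, map_one] at e1; linear_combination e1) v3
    have e2 := aeval_smul_hom hA (1 / Y') ![X', Y', 1]
    have e3 : MvPolynomial.aeval ![X', Y', 1] A = algebraMap Ω _ c := by
      rw [← φ.commutes, ← h0, ha, MvPolynomial.comp_aeval_apply]
      congr 2
      ext i : 1
      fin_cases i <;> simp [hX, hY]
    have e4 := (aeval_congr hV (v := fun i => 1 / Y' * ![X', Y', 1] i)
      (w := algebraMap Ω _ ∘ ![0, 1, 0]) (fun i => hV _) (fun i => by
        fin_cases i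
        · simpa [div_eq_inv_mul] using b1
        · simp [b0]
        · simpa using b2) A).2
    rw [e2, e3, MvPolynomial.aeval_algebraMap_apply] at e4
    have e5 := val_eq_of_sub (val_const hV hc.1) e4
    rw [mul_comm] at e5
    exact (mul_lt (hV c) (by rw [map_pow]; exact pow_lt_one₀ zero_le b2 hd.ne')).ne e5
  obtain ⟨n, I, h1, h2, h3⟩ := factor_ideal hΔ Q (Ideal.span {a})
    (by simpa using key 0) (fun x' y' h' hle => by
      have := XY_max h'.1
      obtain ⟨x2, y2, e1, e2, e3⟩ := max_eq (XYIdeal (leg ν) x' (C y'))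
      have e4 := (equation_iff_nonsingular_of_Δ_ne_zero hΔ).1 e1
      have e5 : Point.some _ _ h' = Point.some _ _ e4 := Point.toClass_injective (by
        rw [Point.toClass_some, Point.toClass_some]
        congr 1
        exact Units.ext (by rw [XYIdeal'_eq, XYIdeal'_eq, e2]))
      by_contra h4
      refine hc.2 x2 y2 ((leg_eq _ _ _).1 e1) (fun j hj => h4 ⟨j, ?_⟩)
        (e3 A (hle (Ideal.mem_span_singleton_self a)))
      rw [e5, e, Point.some.injEq]
      simpa [eq_comm] using hj)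
  rw [(ClassGroup.mk_eq_one_of_coe_ideal h1).2 ⟨a, by simpa using key 0, rfl⟩] at h2
  have h4 := h3 (hQ (a₂ := 0) (((Point.toClass_eq_zero _).1 h2.symm).trans (zero_nsmul Q).symm))
  obtain ⟨c, h5⟩ := const_of_unit (Ideal.span_singleton_eq_top.1 h4)
  exact key c h5

end Pool.Agent.P.MP_d3e5c7_ag.G1
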