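import Mathlib

/-! Verified Gaussian elimination modulo a Mersenne prime on packed rows. -/

set_option autoImplicit false

namespace Pool.Agent.P.MP_d3e5c7_ag.GE

/-- force evaluation -/
noncomputable def frc (x : ℕ) (k : ℕ → Bool) : Bool := Nat.casesOn x (k 0) (fun n => k n.succ)

theorem frc_eq (x : ℕ) (k : ℕ → Bool) : frc x k = k x := by cases x <;> rfl

/-- digitwise reduction -/
def fold (k M R : ℕ) : ℕ := Nat.add (Nat.land R M) (Nat.shiftRight (Nat.sub R (Nat.land R M)) k)

/-- bound for the digits after `fold` -/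
def fb (k p bd : ℕ) : ℕ := Nat.add p (Nat.shiftRight bd k)

/-- all row operations -/
noncomputable def updAll (w mask p P : ℕ) (Rs : List ℕ) (k : List ℕ → Bool) : List ℕ → Bool :=
  List.rec (motive := fun _ => List ℕ → Bool) k
    (fun R _ ih acc =>
      ih (Nat.shiftRight (Nat.add R (Nat.mul (Nat.mod (Nat.land R mask) p) P)) w :: acc)) Rs

/-- pivot search -/
noncomputable def piv (mask p : ℕ) (Rs : List ℕ) (k : ℕ → List ℕ → List ℕ → Bool) :
    List ℕ → Bool :=
  List.rec (motive := fun _ => List ℕ → Bool) (fun _ => false)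
    (fun R Rs ih acc => cond (Nat.beq (Nat.mod (Nat.land R mask) p) 0) (ih (R :: acc)) (k R Rs acc))
    Rs

/-- one elimination step -/
noncomputable def step (k w mask p M : ℕ) (ih : ℕ → List ℕ → Bool) (bd : ℕ) (Rs : List ℕ) : Bool :=
  piv mask p Rs (fun R Rs acc =>
    frc (fold k M R) fun P1 => frc (fold k M P1) fun P2 => frc (fold k M P2) fun P3 =>
    frc (Nat.sub p (Nat.mod (Nat.pow (Nat.land P3 mask) (Nat.sub p 2)) p)) fun u =>
    frc (Nat.mul u P3) fun P4 => frc (fold k M P4) fun P5 => frc (fold k M P5) fun P =>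
    frc (Nat.mul u (fb k p (fb k p (fb k p bd)))) fun b4 =>
    frc (Nat.add bd (Nat.mul p (fb k p (fb k p b4)))) fun bd' =>
    cond (Nat.ble (Nat.add (Nat.add bd' b4) p) mask)
      (cond (Nat.beq (Nat.mod (Nat.succ (Nat.land P mask)) p) 0)
        (updAll w mask p P Rs (updAll w mask p P acc (ih bd')) []) false) false) []

/-- elimination -/
noncomputable def elim (k w mask p M n : ℕ) : ℕ → List ℕ → Bool :=
  Nat.rec (motive := fun _ => ℕ → List ℕ → Bool) (fun _ _ => true)
    (fun _ ih => step k w mask p M ih) n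

/-- packed constant vector -/
noncomputable def mk (w p n : ℕ) : ℕ :=
  Nat.rec 0 (fun _ acc => Nat.add p (Nat.shiftLeft acc w)) n

/-- entries -/
def ent (p i x a : ℕ) : ℕ := Nat.mod (Nat.mul (Nat.pow (Nat.succ a) i) (Nat.pow x a)) p

/-- packed vector -/
def vec (w p j y : ℕ) (l : List ℕ) : ℕ :=
  l.foldr (fun b acc => Nat.add (ent p j y b) (Nat.shiftLeft acc w)) 0

/-- segment start -/
def lo (m2 a : ℕ) : ℕ := m2 - a

/-- segment length -/
def ln (d m1 m2 a : ℕ) : ℕ := min (d - m1) (d - a) + 1 - (m2 - a)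

/-- packed row -/
def row (w p i x V : ℕ) (l : List (ℕ × ℕ × ℕ)) : ℕ :=
  l.foldr (fun s acc => Nat.add (Nat.mul (ent p i x s.1)
    (Nat.mod (Nat.shiftRight V (Nat.mul w s.2.1)) (Nat.pow 2 (Nat.mul w s.2.2))))
    (Nat.shiftLeft acc (Nat.mul w s.2.2))) 0

/-- segments -/
def segs (d m0 m1 m2 : ℕ) : List (ℕ × ℕ × ℕ) :=
  (List.range (d - m0 + 1)).map fun a => (a, lo m2 a, ln d m1 m2 a)

/-- all rows -/
def rows (w p d m0 m1 m2 : ℕ) (pts : List (ℕ × ℕ × ℕ)) : List ℕ :=
  pts.flatMap fun q => (List.range q.1).flatMap fun j => (List.range (q.1 - j)).map fun i =>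
    row w p i q.2.1 (vec w p j q.2.2 (List.range (d - m1 + 1))) (segs d m0 m1 m2)

/-- number of columns -/
def ncol (d m0 m1 m2 : ℕ) : ℕ := ((segs d m0 m1 m2).map fun s => s.2.2).sum

/-- the rank check -/
noncomputable def check (k w d m0 m1 m2 : ℕ) (pts : List (ℕ × ℕ × ℕ)) : Bool :=
  frc (2 ^ k - 1) fun p => frc (2 ^ w - 1) fun mask => frc (ncol d m0 m1 m2) fun n =>
  frc (mk w p n) fun M => frc (p * p) fun bd => cond (Nat.ble bd mask)
    (elim k w mask p M n bd (rows w p d m0 m1 m2 pts)) false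

section sound
variable {K : Type*} [CommRing K]

/-- pairing of a digit list with a vector -/
def dotL (r : List ℕ) (c : List K) : K := (List.zipWith (fun (x : ℕ) (y : K) => (x : K) * y) r c).sum

@[simp] theorem dotL_nil (c : List K) : dotL [] c = 0 := by simp [dotL]

@[simp] theorem dotL_cons (x : ℕ) (r : List ℕ) (y : K) (c : List K) :
    dotL (x :: r) (y :: c) = x * y + dotL r c := by simp [dotL]

theorem dotL_map (f : ℕ → ℕ) (u : K) (hf : ∀ x, (f x : K) = u * x) (r : List ℕ) (c : List K) :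
    dotL (r.map f) c = u * dotL r c := by
  induction r generalizing c with
  | nil => simp
  | cons x r ih =>
    cases c with
    | nil => simp [dotL]
    | cons y c => rw [List.map_cons, dotL_cons, dotL_cons, ih, hf]; ring

theorem dotL_zip (t : ℕ) (r s : List ℕ) (c : List K) (h : r.length = s.length) :
    dotL (List.zipWith (fun x y => x + t * y) r s) c = dotL r c + t * dotL s c := by
  induction r generalizing s c with
  | nil => cases s <;> simp_all
  | cons x r ih =>
    cases s with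
    | nil => simp at h
    | cons z s =>
      cases c with
      | nil => simp [dotL]
      | cons y c =>
        rw [List.zipWith_cons_cons, dotL_cons, dotL_cons, dotL_cons, ih s c (by simpa using h)]
        push_cast; ring

theorem dotL_zero (r : List ℕ) (c : List K) (hc : ∀ x ∈ c, x = 0) : dotL r c = 0 := by
  induction r generalizing c with
  | nil => simp
  | cons x r ih =>
    cases c with
    | nil => simp [dotL]
    | cons y c =>
      rw [dotL_cons, ih c (fun x hx => hc x (List.mem_cons_of_mem _ hx)), hc y List.mem_cons_self]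
      simp

theorem ofDigits_zip (B t : ℕ) (r s : List ℕ) (h : r.length = s.length) :
    Nat.ofDigits B (List.zipWith (fun x y => x + t * y) r s) =
      Nat.ofDigits B r + t * Nat.ofDigits B s := by
  induction r generalizing s with
  | nil => cases s <;> simp_all
  | cons x r ih =>
    cases s with
    | nil => simp at h
    | cons z s =>
      rw [List.zipWith_cons_cons, Nat.ofDigits_cons, Nat.ofDigits_cons, Nat.ofDigits_cons,
        ih s (by simpa using h)]
      ring

theorem ofDigits_map_mul (B u : ℕ) (r : List ℕ) :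
    Nat.ofDigits B (r.map (u * ·)) = u * Nat.ofDigits B r := by
  induction r with
  | nil => simp
  | cons x r ih => rw [List.map_cons, Nat.ofDigits_cons, Nat.ofDigits_cons, ih]; ring

theorem mk_succ (w p n : ℕ) : mk w p (n + 1) = p + 2 ^ w * mk w p n := by
  change p + mk w p n <<< w = _
  rw [Nat.shiftLeft_eq, mul_comm]

theorem ofDigits_land (w p : ℕ) (hp : p < 2 ^ w) (r : List ℕ) (n : ℕ) (hn : r.length ≤ n)
    (hr : ∀ x ∈ r, x < 2 ^ w) :
    Nat.ofDigits (2 ^ w) r &&& mk w p n = Nat.ofDigits (2 ^ w) (r.map (· &&& p)) := by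
  induction r generalizing n with
  | nil => simp
  | cons x r ih =>
    cases n with
    | zero => simp at hn
    | succ n =>
      have hx := hr x List.mem_cons_self
      have hB : 0 < 2 ^ w := by positivity
      rw [← Nat.mod_add_div (_ &&& _) (2 ^ w), Nat.and_mod_two_pow, Nat.and_div_two_pow, mk_succ,
        Nat.ofDigits_cons, List.map_cons, Nat.ofDigits_cons, Nat.add_mul_mod_self_left,
        Nat.add_mul_mod_self_left, Nat.mod_eq_of_lt hx, Nat.mod_eq_of_lt hp,
        Nat.add_mul_div_left _ _ hB, Nat.add_mul_div_left _ _ hB, Nat.div_eq_of_lt hx,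
        Nat.div_eq_of_lt hp, zero_add, zero_add,
        ih n (by simpa using hn) (fun y hy => hr y (List.mem_cons_of_mem _ hy))]

theorem ofDigits_split (B q : ℕ) (r : List ℕ) :
    Nat.ofDigits B r = Nat.ofDigits B (r.map (· % q)) + q * Nat.ofDigits B (r.map (· / q)) ∧
    Nat.ofDigits B (r.map (fun x => x % q + x / q)) =
      Nat.ofDigits B (r.map (· % q)) + Nat.ofDigits B (r.map (· / q)) := by
  induction r with
  | nil => simp
  | cons x r ih =>
    simp only [List.map_cons, Nat.ofDigits_cons]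
    constructor
    · conv_lhs => rw [ih.1, ← Nat.mod_add_div x q]
      ring
    · rw [ih.2]; ring

/-- the packed row `R` has digits at most `bd` and annihilates `c` -/
def Sat (w : ℕ) (c : List K) (bd R : ℕ) : Prop :=
  ∃ r : List ℕ, r.length = c.length ∧ Nat.ofDigits (2 ^ w) r = R ∧ (∀ x ∈ r, x ≤ bd) ∧ dotL r c = 0

theorem Sat.mono {w : ℕ} {c : List K} {bd bd' R : ℕ} (h : Sat w c bd R) (hb : bd ≤ bd') :
    Sat w c bd' R := by
  obtain ⟨r, h1, h2, h3, h4⟩ := h
  exact ⟨r, h1, h2, fun x hx => (h3 x hx).trans hb, h4⟩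

theorem Sat.fold {k w n : ℕ} {c : List K} {bd R : ℕ} (hK : ((2 ^ k - 1 : ℕ) : K) = 0)
    (hp : 2 ^ k - 1 < 2 ^ w) (hn : c.length ≤ n) (h : Sat w c bd R) (hb : bd < 2 ^ w) :
    Sat w c (fb k (2 ^ k - 1) bd) (fold k (mk w (2 ^ k - 1) n) R) := by
  obtain ⟨r, h1, h2, h3, h4⟩ := h
  have hq : 0 < 2 ^ k := by positivity
  refine ⟨r.map (fun x => x % 2 ^ k + x / 2 ^ k), by simpa using h1, ?_, ?_, ?_⟩
  · have e1 : R &&& mk w (2 ^ k - 1) n = Nat.ofDigits (2 ^ w) (r.map (· % 2 ^ k)) := by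
      rw [← h2, ofDigits_land w _ hp r n (by omega) (fun x hx => lt_of_le_of_lt (h3 x hx) hb)]
      simp only [Nat.and_two_pow_sub_one_eq_mod]
    change _ = (R &&& mk w (2 ^ k - 1) n) + (R - (R &&& mk w (2 ^ k - 1) n)) >>> k
    rw [e1, (ofDigits_split _ _ r).2, Nat.shiftRight_eq_div_pow]
    congr 1
    rw [← h2]
    conv_rhs => rw [(ofDigits_split (2 ^ w) (2 ^ k) r).1]
    rw [Nat.add_sub_cancel_left, Nat.mul_div_cancel_left _ hq]
  · intro y hy
    obtain ⟨x, hx, rfl⟩ := List.mem_map.1 hy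
    change _ ≤ 2 ^ k - 1 + bd >>> k
    rw [Nat.shiftRight_eq_div_pow]
    have := Nat.mod_lt x hq
    have := Nat.div_le_div_right (c := 2 ^ k) (h3 x hx)
    omega
  · rw [dotL_map _ 1, h4, mul_zero]
    intro x
    have e : ((2 ^ k : ℕ) : K) = 1 := by
      rw [show 2 ^ k = (2 ^ k - 1) + 1 by omega, Nat.cast_add, hK]
      simp
    conv_rhs => rw [← Nat.mod_add_div x (2 ^ k)]
    rw [Nat.cast_add, Nat.cast_add, Nat.cast_mul, e]; ring

theorem Sat.smul {w : ℕ} {c : List K} {bd R : ℕ} (u : ℕ) (h : Sat w c bd R) :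
    Sat w c (u * bd) (u * R) := by
  obtain ⟨r, h1, h2, h3, h4⟩ := h
  refine ⟨r.map (u * ·), by simpa using h1, by rw [ofDigits_map_mul, h2], ?_, ?_⟩
  · intro y hy
    obtain ⟨x, hx, rfl⟩ := List.mem_map.1 hy
    exact Nat.mul_le_mul_left _ (h3 x hx)
  · rw [dotL_map _ (u : K) (fun x => by simp), h4, mul_zero]

theorem cast_mod {p : ℕ} (hK : (p : K) = 0) (x : ℕ) : ((x % p : ℕ) : K) = x := by
  conv_rhs => rw [← Nat.mod_add_div x p]
  rw [Nat.cast_add, Nat.cast_mul, hK]; ring

theorem head_eq {w x : ℕ} {r : List ℕ} (hx : x < 2 ^ w) :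
    Nat.ofDigits (2 ^ w) (x :: r) &&& (2 ^ w - 1) = x := by
  rw [Nat.and_two_pow_sub_one_eq_mod, Nat.ofDigits_cons, Nat.add_mul_mod_self_left,
    Nat.mod_eq_of_lt hx]

theorem neg_one_of {p x : ℕ} (hK : (p : K) = 0) (h : (x + 1) % p = 0) : (x : K) = -1 := by
  have := cast_mod hK (x + 1)
  rw [h] at this
  push_cast at this
  linear_combination -this

theorem Sat.upd {w p : ℕ} {c0 : K} {c : List K} {bd bP R P : ℕ} (hK : (p : K) = 0) (hp : 0 < p)
    (hR : Sat w (c0 :: c) bd R) (hP : Sat w (c0 :: c) bP P) (hb : bd + p * bP < 2 ^ w)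
    (h1 : ((P &&& (2 ^ w - 1)) + 1) % p = 0) :
    Sat w c (bd + p * bP) ((R + (R &&& (2 ^ w - 1)) % p * P) >>> w) := by
  obtain ⟨r, r1, r2, r3, r4⟩ := hR
  obtain ⟨s, s1, s2, s3, s4⟩ := hP
  obtain _ | ⟨x, r⟩ := r
  · simp at r1
  obtain _ | ⟨y, s⟩ := s
  · simp at s1
  have hx := r3 x List.mem_cons_self
  have hy := s3 y List.mem_cons_self
  have hbP : bP ≤ p * bP := Nat.le_mul_of_pos_left _ hp
  rw [← s2, head_eq (by omega)] at h1
  have e1 : R &&& (2 ^ w - 1) = x := by rw [← r2, head_eq (by omega)]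
  rw [e1]
  have hl : r.length = s.length := by simp at r1 s1; omega
  have ht : x % p ≤ p := (Nat.mod_lt x hp).le
  refine ⟨List.zipWith (fun a b => a + x % p * b) r s, by simp at r1 s1 ⊢; omega, ?_, ?_, ?_⟩
  · rw [ofDigits_zip _ _ _ _ hl, Nat.shiftRight_eq_div_pow, ← r2, ← s2, Nat.ofDigits_cons,
      Nat.ofDigits_cons]
    have : x + x % p * y < 2 ^ w := by
      have := Nat.mul_le_mul ht hy
      omega
    rw [show x + 2 ^ w * Nat.ofDigits (2 ^ w) r + x % p * (y + 2 ^ w * Nat.ofDigits (2 ^ w) s) =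
      (x + x % p * y) + 2 ^ w * (Nat.ofDigits (2 ^ w) r + x % p * Nat.ofDigits (2 ^ w) s) by ring,
      Nat.add_mul_div_left _ _ (by positivity), Nat.div_eq_of_lt this, zero_add]
  · intro z hz
    obtain ⟨i, hi, rfl⟩ := List.mem_iff_getElem.1 hz
    rw [List.getElem_zipWith]
    have h3 := r3 _ (List.mem_cons_of_mem _ (List.getElem_mem (l := r) (n := i) (by simp at hi; omega)))
    have h4 := s3 _ (List.mem_cons_of_mem _ (List.getElem_mem (l := s) (n := i) (by simp at hi; omega)))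
    have := Nat.mul_le_mul ht h4
    omega
  · rw [dotL_zip _ _ _ _ hl, cast_mod hK]
    rw [dotL_cons] at r4 s4
    rw [neg_one_of hK h1] at s4
    linear_combination r4 + (x : K) * s4

theorem Sat.piv {w p : ℕ} {c0 : K} {c : List K} {bP P : ℕ} (hK : (p : K) = 0)
    (hP : Sat w (c0 :: c) bP P) (hb : bP < 2 ^ w) (h1 : ((P &&& (2 ^ w - 1)) + 1) % p = 0)
    (hc : ∀ x ∈ c, x = 0) : c0 = 0 := by
  obtain ⟨s, s1, s2, s3, s4⟩ := hP
  obtain _ | ⟨y, s⟩ := s
  · simp at s1
  have hy := s3 y List.mem_cons_self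
  rw [← s2, head_eq (by omega)] at h1
  rw [dotL_cons, neg_one_of hK h1, dotL_zero _ _ hc] at s4
  linear_combination -s4

theorem updAll_true {w mask p P : ℕ} (Q Q' : ℕ → Prop)
    (hQ : ∀ R, Q R → Q' ((R + (R &&& mask) % p * P) >>> w)) (Rs : List ℕ) (k : List ℕ → Bool)
    (acc : List ℕ) (h : updAll w mask p P Rs k acc = true) (h1 : ∀ R ∈ Rs, Q R)
    (h2 : ∀ R ∈ acc, Q' R) : ∃ l, k l = true ∧ ∀ R ∈ l, Q' R := by
  induction Rs generalizing acc with
  | nil => exact ⟨acc, h, h2⟩
  | cons R Rs ih =>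
    refine ih _ h (fun R hR => h1 R (List.mem_cons_of_mem _ hR)) ?_
    intro R' hR'
    rcases List.mem_cons.1 hR' with rfl | h3
    · exact hQ R (h1 R List.mem_cons_self)
    · exact h2 _ h3

theorem piv_true {mask p : ℕ} (Q : ℕ → Prop) (Rs : List ℕ) (k : ℕ → List ℕ → List ℕ → Bool)
    (acc : List ℕ) (h : piv mask p Rs k acc = true) (h1 : ∀ R ∈ Rs, Q R) (h2 : ∀ R ∈ acc, Q R) :
    ∃ R l l', k R l l' = true ∧ Q R ∧ (∀ R ∈ l, Q R) ∧ ∀ R ∈ l', Q R := by
  induction Rs generalizing acc with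
  | nil => exact absurd h (by simp [piv])
  | cons R Rs ih =>
    change cond (Nat.beq (Nat.mod (Nat.land R mask) p) 0) (piv mask p Rs k (R :: acc))
      (k R Rs acc) = true at h
    have h3 := fun R hR => h1 R (List.mem_cons_of_mem _ hR)
    have h4 := h1 R List.mem_cons_self
    cases hb : Nat.beq (Nat.mod (Nat.land R mask) p) 0
    · rw [hb] at h
      exact ⟨R, Rs, acc, h, h4, h3, h2⟩
    · rw [hb] at h
      refine ih _ h h3 ?_
      intro R' hR'
      rcases List.mem_cons.1 hR' with rfl | h5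
      · exact h4
      · exact h2 _ h5

theorem cond_true {b c : Bool} (h : cond b c false = true) : b = true ∧ c = true := by
  cases b <;> simp_all

theorem elim_true {k w N : ℕ} (hK : ((2 ^ k - 1 : ℕ) : K) = 0) (hk : 0 < 2 ^ k - 1)
    (hkw : 2 ^ (k + 1) ≤ 2 ^ w) (n : ℕ)
    (hn : n ≤ N) (bd : ℕ) (Rs : List ℕ) (c : List K) (hc : c.length = n)
    (h : elim k w (2 ^ w - 1) (2 ^ k - 1) (mk w (2 ^ k - 1) N) n bd Rs = true)
    (hR : ∀ R ∈ Rs, Sat w c bd R) : ∀ x ∈ c, x = 0 := by
  induction n generalizing bd Rs c with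
  | zero => simp [List.length_eq_zero_iff.1 hc]
  | succ n ih =>
    obtain _ | ⟨c0, c⟩ := c
    · simp
    obtain ⟨R, l, l', h1, h2, h3, h4⟩ := piv_true (Sat w (c0 :: c) bd) Rs _ [] h hR (by simp)
    simp only [frc_eq] at h1
    obtain ⟨h5, h6⟩ := cond_true h1
    obtain ⟨h7, h8⟩ := cond_true h6
    rw [Nat.ble_eq] at h5
    rw [Nat.beq_eq] at h7
    set p := 2 ^ k - 1 with hp
    set M := mk w p N
    set u := Nat.sub p (Nat.mod (Nat.pow (Nat.land (fold k M (fold k M (fold k M R))) (2 ^ w - 1))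
      (Nat.sub p 2)) p)
    have hB : 0 < 2 ^ w := by positivity
    have hq : 0 < 2 ^ k := by positivity
    have hf : ∀ b, b < 2 ^ w → fb k p b < 2 ^ w := by
      intro b hb
      change p + b >>> k < _
      rw [Nat.shiftRight_eq_div_pow]
      have : b / 2 ^ k ≤ b / 2 := Nat.div_le_div_left (by omega) (by norm_num)
      have : 2 ^ (k + 1) = 2 * 2 ^ k := by ring
      omega
    simp only [Nat.add_eq, Nat.mul_eq] at h5 h7 h8
    have hlen : (c0 :: c).length ≤ N := by omega
    have hpw : p < 2 ^ w := by omega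
    have b0 : bd < 2 ^ w := by omega
    have s1 := h2.fold hK hpw hlen b0
    have s2 := s1.fold hK hpw hlen (hf _ b0)
    have s3 := s2.fold hK hpw hlen (hf _ (hf _ b0))
    have s4 := s3.smul u
    have b4 : u * fb k p (fb k p (fb k p bd)) < 2 ^ w := by omega
    have s5 := s4.fold hK hpw hlen b4
    have s6 := s5.fold hK hpw hlen (hf _ b4)
    have hupd := fun R (hR : Sat w (c0 :: c) bd R) => Sat.upd hK hk hR s6 (by rw [← hp]; omega) h7
    obtain ⟨l1, e1, e2⟩ := updAll_true _ _ hupd l _ [] h8 h3 (by simp)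
    obtain ⟨l2, e3, e4⟩ := updAll_true _ _ hupd l' _ l1 e1 h4 e2
    have hc' := ih (by omega) _ l2 c (by simpa using hc) e3 e4
    have := Sat.piv hK s6 (hf _ (hf _ b4)) h7 hc'
    intro x hx
    rcases List.mem_cons.1 hx with rfl | h9
    · exact this
    · exact hc' x h9

end sound

end Pool.Agent.P.MP_d3e5c7_ag.GE
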