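import Pool.Agent.P.MP_d3e5c7_ag.Van

/-! Semicontinuity: existence of a polynomial with prescribed vanishing specialises. -/

set_option autoImplicit false

namespace Pool.Agent.P.MP_d3e5c7_ag

open MvPolynomial

theorem matrix_special {R Cc A L K : Type*} [Fintype R] [Fintype Cc] [CommRing A] [Field L] [Field K]
    (φ : A →+* L) (hφ : Function.Injective φ) (ψ : A →+* K) (M : Matrix R Cc A)
    (h : ∃ v : Cc → L, v ≠ 0 ∧ (M.map φ).mulVec v = 0) :
    ∃ w : Cc → K, w ≠ 0 ∧ (M.map ψ).mulVec w = 0 := by
  classical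
  by_contra hc
  push Not at hc
  have hk : LinearMap.ker (Matrix.toLin' (M.map ψ)) = ⊥ := by
    rw [LinearMap.ker_eq_bot']
    intro w hw
    by_contra h0
    exact hc w h0 (by simpa using hw)
  obtain ⟨g, hg⟩ := LinearMap.exists_leftInverse_of_injective _ hk
  have hN : LinearMap.toMatrix' g * M.map ψ = 1 := by
    have := congrArg LinearMap.toMatrix' hg
    rwa [LinearMap.toMatrix'_comp, LinearMap.toMatrix'_toLin', LinearMap.toMatrix'_id] at this
  set N := LinearMap.toMatrix' g
  let N' : Matrix Cc R (MvPolynomial (Cc × R) A) := Matrix.of fun c r => X (c, r)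
  let M' : Matrix R Cc (MvPolynomial (Cc × R) A) := M.map C
  let NM : Matrix Cc Cc (MvPolynomial (Cc × R) A) := N' * M'
  let D := NM.det
  have hD : D ≠ 0 := by
    intro h0
    have h1 := congrArg (eval₂Hom ψ (fun x : Cc × R => N x.1 x.2)) h0
    rw [RingHom.map_det, map_zero, RingHom.mapMatrix_apply, Matrix.map_mul] at h1
    have e1 : N'.map (eval₂Hom ψ (fun x : Cc × R => N x.1 x.2)) = N := by
      ext c r; simp [N']
    have e2 : M'.map (eval₂Hom ψ (fun x : Cc × R => N x.1 x.2)) = M.map ψ := by
      ext c r; simp [M']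
    rw [e1, e2, hN] at h1
    simp at h1
  have hD' : map φ D ≠ 0 := fun h0 => hD (map_injective φ hφ (by simpa using h0))
  apply hD'
  obtain ⟨v, hv, hM⟩ := h
  rw [RingHom.map_det, RingHom.mapMatrix_apply, Matrix.map_mul, ← Matrix.exists_mulVec_eq_zero_iff]
  refine ⟨fun c => C (v c), ?_, ?_⟩
  · intro h0
    apply hv
    ext c
    have := congrFun h0 c
    simpa using this
  · rw [← Matrix.mulVec_mulVec]
    have : (M'.map (map φ)).mulVec
        (fun c => (C (v c) : MvPolynomial (Cc × R) L)) = 0 := by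
      ext r : 1
      have := congrArg (C : L →+* MvPolynomial (Cc × R) L) (congrFun hM r)
      simpa [Matrix.mulVec, dotProduct, M'] using this
    rw [this, Matrix.mulVec_zero]

theorem coeff_sh_sum {σ K : Type*} [CommRing K] (S : Finset (σ →₀ ℕ)) (p : σ → K) (c : S → K)
    (β : σ →₀ ℕ) :
    coeff β (sh p (∑ α : S, monomial α.1 (c α))) =
      ∑ α : S, coeff β (sh p (monomial α.1 1)) * c α := by
  rw [map_sum, coeff_sum]
  refine Finset.sum_congr rfl fun α _ => ?_
  have : (monomial α.1 (c α) : MvPolynomial σ K) = c α • monomial α.1 1 := by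
    rw [smul_monomial, smul_eq_mul, mul_one]
  rw [this, map_smul, coeff_smul, smul_eq_mul, mul_comm]

theorem eq_sum_of_support {σ K : Type*} [CommRing K] (S : Finset (σ →₀ ℕ)) {f : MvPolynomial σ K}
    (hf : f.support ⊆ S) : f = ∑ α : S, monomial α.1 (coeff α.1 f) := by
  rw [Finset.sum_coe_sort S (fun α => monomial α (coeff α f))]
  conv_lhs => rw [f.as_sum]
  apply Finset.sum_subset hf
  intro x _ hx
  rw [notMem_support_iff.1 hx, monomial_zero]

theorem special {σ ι A L K : Type*} [Finite σ] [Finite ι] [CommRing A] [Field L] [Field K]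
    (φ : A →+* L) (hφ : Function.Injective φ) (ψ : A →+* K) (S : Finset (σ →₀ ℕ))
    (P : ι → σ → A) (m : ι → ℤ)
    (h : ∃ f : MvPolynomial σ L, f ≠ 0 ∧ f.support ⊆ S ∧ ∀ i, Van (fun k => φ (P i k)) (m i) f) :
    ∃ f : MvPolynomial σ K, f ≠ 0 ∧ f.support ⊆ S ∧ ∀ i, Van (fun k => ψ (P i k)) (m i) f := by
  classical
  let R := Σ i : ι, {β : σ →₀ ℕ // β.degree < (m i).toNat}
  have : ∀ i, Finite {β : σ →₀ ℕ // β.degree < (m i).toNat} :=
    fun i => (Finsupp.finite_of_degree_lt (m i).toNat).to_subtype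
  have : Fintype R := Fintype.ofFinite R
  let M : Matrix R S A := Matrix.of fun r α => coeff r.2.1 (sh (P r.1) (monomial α.1 1))
  have keyK : ∀ (r : R) (α : S),
      (M.map ψ) r α = coeff r.2.1 (sh (fun k => ψ (P r.1 k)) (monomial α.1 1)) := by
    intro r α
    simp only [M, Matrix.map_apply, Matrix.of_apply]
    rw [← coeff_map, map_sh, map_monomial, map_one]
  have keyL : ∀ (r : R) (α : S),
      (M.map φ) r α = coeff r.2.1 (sh (fun k => φ (P r.1 k)) (monomial α.1 1)) := by
    intro r α
    simp only [M, Matrix.map_apply, Matrix.of_apply]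
    rw [← coeff_map, map_sh, map_monomial, map_one]
  obtain ⟨f, hf0, hfS, hf⟩ := h
  obtain ⟨w, hw0, hw⟩ := matrix_special φ hφ ψ M ⟨fun α => coeff α.1 f, by
      intro h0
      apply hf0
      rw [eq_sum_of_support S hfS]
      apply Finset.sum_eq_zero
      intro α _
      have := congrFun h0 α
      simp only [Pi.zero_apply] at this
      rw [this, monomial_zero], by
      ext r
      have := hf r.1 r.2.1 (by have := r.2.2; omega)
      rw [eq_sum_of_support S hfS, coeff_sh_sum] at this
      simp only [Matrix.mulVec, dotProduct, keyL]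
      exact this⟩
  have hc : ∀ α : S, coeff α.1 (∑ α : S, (monomial α.1 (w α) : MvPolynomial σ K)) = w α := by
    intro α
    rw [coeff_sum, Finset.sum_eq_single α]
    · simp
    · intro b _ hb
      rw [coeff_monomial, if_neg (fun h => hb (Subtype.ext h))]
    · simp
  refine ⟨∑ α : S, monomial α.1 (w α), ?_, ?_, ?_⟩
  · intro h0
    apply hw0
    ext α
    rw [← hc α, h0]; simp
  · intro x hx
    by_contra hxS
    apply mem_support_iff.1 hx
    rw [coeff_sum]
    apply Finset.sum_eq_zero
    intro α _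
    rw [coeff_monomial, if_neg]
    intro h; exact hxS (h ▸ α.2)
  · intro i β hβ
    rw [coeff_sh_sum]
    have := congrFun hw ⟨i, β, by omega⟩
    simp only [Matrix.mulVec, dotProduct, keyK] at this
    exact this

end Pool.Agent.P.MP_d3e5c7_ag
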