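import Mathlib

/-! Linear algebra: codimensions, the Hopf lemma, an abstract duality theorem. -/

namespace Pool.Agent.P.MP_d3e5c7_ag

open Module Submodule

section Codim

variable {K U V : Type*} [Field K] [AddCommGroup U] [Module K U] [AddCommGroup V] [Module K V]

/-- codimension -/
noncomputable def cd (A : Submodule K V) : ℕ := finrank K (V ⧸ A)

/-- finite codimension -/
def Cof (A : Submodule K V) : Prop := FiniteDimensional K (V ⧸ A)

theorem Cof.mono {A B : Submodule K V} (h : Cof A) (hAB : A ≤ B) : Cof B := by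
  have : FiniteDimensional K (V ⧸ A) := h
  exact Module.Finite.of_surjective (A.mapQ B LinearMap.id hAB) fun x => by
    obtain ⟨y, rfl⟩ := B.mkQ_surjective x
    exact ⟨A.mkQ y, rfl⟩

theorem cd_le {A B : Submodule K V} (h : Cof A) (hAB : A ≤ B) :
    cd A = cd B + finrank K (B.map A.mkQ) := by
  have : FiniteDimensional K (V ⧸ A) := h
  rw [cd, cd, ← (quotientQuotientEquivQuotient A B hAB).finrank_eq,
    Submodule.finrank_quotient_add_finrank]

theorem cd_anti {A B : Submodule K V} (h : Cof A) (hAB : A ≤ B) : cd B ≤ cd A := by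
  rw [cd_le h hAB]; omega

theorem cd_top : cd (⊤ : Submodule K V) = 0 := by
  rw [cd]; exact finrank_zero_of_subsingleton

theorem cof_top : Cof (⊤ : Submodule K V) := by
  unfold Cof; infer_instance

theorem Cof.inf_comap (F : U →ₗ[K] V) {A : Submodule K V} {C : Submodule K U} (hA : Cof A)
    (hC : Cof C) : Cof (C ⊓ A.comap F) := by
  have : FiniteDimensional K (V ⧸ A) := hA
  have : FiniteDimensional K (U ⧸ C) := hC
  have hk : LinearMap.ker (C.mkQ.prod (A.mkQ ∘ₗ F)) = C ⊓ A.comap F := by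
    rw [LinearMap.ker_prod, ker_mkQ, LinearMap.ker_comp, ker_mkQ]
  refine Module.Finite.of_injective
    ((C ⊓ A.comap F).liftQ (C.mkQ.prod (A.mkQ ∘ₗ F)) hk.ge) ?_
  rw [← LinearMap.ker_eq_bot]
  exact ker_liftQ_eq_bot _ _ _ hk.le

theorem finrank_map_eq_of_ker {W W' : Type*} [AddCommGroup W] [Module K W] [AddCommGroup W']
    [Module K W'] (F : U →ₗ[K] W) (G : U →ₗ[K] W') (C : Submodule K U)
    (h : ∀ x ∈ C, F x = 0 ↔ G x = 0) : finrank K (C.map F) = finrank K (C.map G) := by
  rw [← LinearMap.range_domRestrict, ← LinearMap.range_domRestrict,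
    ← (LinearMap.quotKerEquivRange _).finrank_eq, ← (LinearMap.quotKerEquivRange _).finrank_eq]
  have : LinearMap.ker (F.domRestrict C) = LinearMap.ker (G.domRestrict C) := by
    ext x; exact h x x.2
  rw [this]

theorem cd_map (F : U →ₗ[K] V) {A : Submodule K V} {C : Submodule K U} (hA : Cof A) (hC : Cof C) :
    cd A + cd C = cd (A ⊔ C.map F) + cd (C ⊓ A.comap F) := by
  rw [cd_le hA (le_sup_left (b := C.map F)), cd_le (Cof.inf_comap F hA hC) inf_le_left,
    Submodule.map_sup, Submodule.mkQ_map_self, bot_sup_eq, ← Submodule.map_comp,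
    finrank_map_eq_of_ker (A.mkQ ∘ₗ F) (C ⊓ A.comap F).mkQ C fun x hx => by simp [hx]]
  ring

theorem cd_add_finrank [FiniteDimensional K V] (A : Submodule K V) :
    cd A + finrank K A = finrank K V := Submodule.finrank_quotient_add_finrank A

/-- the dimension of the part of a finite dimensional space inside a subspace of finite
codimension -/
theorem finrank_inf_add_cd {A S : Submodule K V} (hA : Cof A) [FiniteDimensional K S] :
    finrank K (A ⊓ S : Submodule K V) + cd A = finrank K S + cd (A ⊔ S) := by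
  have h := cd_map S.subtype hA (cof_top (K := K) (V := S))
  rw [cd_top, Submodule.map_top, range_subtype, top_inf_eq] at h
  have h2 := cd_add_finrank (A.comap S.subtype)
  rw [← finrank_map_subtype_eq, map_comap_subtype, inf_comm] at h2
  omega

theorem cof_of_sup {A S : Submodule K V} [FiniteDimensional K S] (h : A ⊔ S = ⊤) : Cof A := by
  refine Module.Finite.of_surjective (A.mkQ ∘ₗ S.subtype) fun x => ?_
  obtain ⟨y, rfl⟩ := A.mkQ_surjective x
  obtain ⟨a, ha, s, hs, rfl⟩ := mem_sup.1 (h ▸ mem_top : y ∈ A ⊔ S)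
  exact ⟨⟨s, hs⟩, by simp [(Quotient.mk_eq_zero A).2 ha]⟩

theorem cd_comap_of_surj (F : U →ₗ[K] V) (hF : Function.Surjective F) {A : Submodule K V}
    (hA : Cof A) : cd (A.comap F) = cd A := by
  have h := cd_map F hA (cof_top (K := K) (V := U))
  rw [cd_top, Submodule.map_top, LinearMap.range_eq_top.2 hF, sup_top_eq, cd_top,
    top_inf_eq] at h
  omega

theorem cof_of_comap (F : U →ₗ[K] V) (hF : Function.Surjective F) {A : Submodule K V}
    (hA : Cof (A.comap F)) : Cof A := by
  have : FiniteDimensional K (U ⧸ A.comap F) := hA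
  refine Module.Finite.of_surjective ((A.comap F).mapQ A F le_rfl) fun x => ?_
  obtain ⟨y, rfl⟩ := A.mkQ_surjective x
  obtain ⟨z, rfl⟩ := hF y
  exact ⟨(A.comap F).mkQ z, rfl⟩

end Codim

section Hopf

variable {K B : Type*} [Field K] [CommRing B] [IsDomain B] [Algebra K B]

theorem finrank_map_mulLeft {b : B} (hb : b ≠ 0) (W : Submodule K B) :
    finrank K (W.map (LinearMap.mulLeft K b)) = finrank K W :=
  (equivMapOfInjective _ (fun _ _ h => mul_left_cancel₀ hb h) W).finrank_eq.symm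

/-- the Hopf lemma on a curve -/
theorem hopf (hpt : ∀ b : B, b ≠ 0 → ∃ φ : B →ₐ[K] K, φ b ≠ 0) (W : Submodule K B)
    [FiniteDimensional K W] (hW : W ≠ ⊥) (n : ℕ) :
    ∀ (U Z : Submodule K B) [FiniteDimensional K U] [FiniteDimensional K Z],
      finrank K U = n + 1 → (∀ u ∈ U, ∀ w ∈ W, u * w ∈ Z) → n + finrank K W ≤ finrank K Z := by
  induction n with
  | zero =>
    intro U Z _ _ hU h
    obtain ⟨u, hu, hu0⟩ := Submodule.exists_mem_ne_zero_of_ne_bot (p := U) fun e => by
      rw [e, finrank_bot] at hU; omega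
    rw [zero_add, ← finrank_map_mulLeft hu0 W]
    refine finrank_mono ?_
    rintro _ ⟨w, hw, rfl⟩
    exact h u hu w hw
  | succ n ih =>
    intro U Z _ _ hU h
    obtain ⟨u, hu, hu0⟩ := Submodule.exists_mem_ne_zero_of_ne_bot (p := U) fun e => by
      rw [e, finrank_bot] at hU; omega
    obtain ⟨w, hw, hw0⟩ := Submodule.exists_mem_ne_zero_of_ne_bot hW
    obtain ⟨φ, hφ⟩ := hpt (u * w) (mul_ne_zero hu0 hw0)
    have key : ∀ (S : Submodule K B) [FiniteDimensional K S], (∃ s ∈ S, φ s ≠ 0) →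
        finrank K (LinearMap.ker φ.toLinearMap ⊓ S : Submodule K B) + 1 = finrank K S := by
      intro S _ ⟨s, hs, hs0⟩
      have htop : LinearMap.ker φ.toLinearMap ⊔ S = ⊤ := by
        refine eq_top_iff.2 fun x _ => mem_sup.2 ⟨x - (φ x / φ s) • s, ?_, (φ x / φ s) • s,
          S.smul_mem _ hs, by ring⟩
        simp [div_mul_cancel₀ _ hs0]
      have h1 := finrank_inf_add_cd (cof_of_sup htop) (S := S)
      rw [htop, cd_top, cd, (LinearMap.quotKerEquivRange _).finrank_eq,
        LinearMap.range_eq_top.2 (fun c => ⟨algebraMap K B c, by simp⟩), finrank_top,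
        finrank_self] at h1
      omega
    have h1 := key U ⟨u, hu, fun e => hφ (by rw [map_mul, e, zero_mul])⟩
    have h2 := key Z ⟨_, h u hu w hw, hφ⟩
    have := ih (LinearMap.ker φ.toLinearMap ⊓ U) (LinearMap.ker φ.toLinearMap ⊓ Z) (by omega)
      fun a ha b hb => ⟨by
        have : φ a = 0 := ha.1
        simp [this], h a ha.2 b hb⟩
    omega

theorem hopf' (hpt : ∀ b : B, b ≠ 0 → ∃ φ : B →ₐ[K] K, φ b ≠ 0) {U W Z : Submodule K B}
    [FiniteDimensional K U] [FiniteDimensional K W] [FiniteDimensional K Z]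
    (hU : 0 < finrank K U) (hW : 0 < finrank K W) (h : ∀ u ∈ U, ∀ w ∈ W, u * w ∈ Z) :
    finrank K U + finrank K W ≤ finrank K Z + 1 := by
  have := hopf hpt W (fun e => by rw [e, finrank_bot] at hW; omega) (finrank K U - 1) U Z
    (by omega) h
  omega

end Hopf

section Dual

variable {K B : Type*} [Field K] [CommRing B] [Algebra K B]

/-- abstract Riemann-Roch theorem -/
theorem duality (q : B) (lam : B →ₗ[K] K) (S S' : Submodule K B) [FiniteDimensional K S]
    (hcof : Cof ((Ideal.span {q}).restrictScalars K))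
    (h0 : ∀ c, lam (q * c) = 0) (h1 : ∀ b, (∀ c, lam (b * c) = 0) → q ∣ b)
    (h2 : ∀ b ∈ S', ∀ c ∈ S, lam (b * c) = 0)
    (h3 : ∀ b, (∀ c ∈ S, lam (b * c) = 0) → ∃ b' ∈ S', q ∣ b - b')
    (h4 : ∀ b ∈ S', q ∣ b → b = 0) (I : Ideal B) (hI : q ∈ I) :
    finrank K (I.restrictScalars K ⊓ S : Submodule K B) + cd (I.restrictScalars K) =
      finrank K S + finrank K
        (((Ideal.span {q}).colon (I : Set B)).restrictScalars K ⊓ S' : Submodule K B) := by
  set Q := (Ideal.span {q}).restrictScalars K with hQ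
  have memQ : ∀ b, b ∈ Q ↔ q ∣ b := fun b => Ideal.mem_span_singleton
  have hQI : Q ≤ I.restrictScalars K := fun b hb => by
    obtain ⟨c, rfl⟩ := (memQ b).1 hb
    exact I.mul_mem_right _ hI
  have : FiniteDimensional K (B ⧸ Q) := hcof
  let β : B →ₗ[K] B →ₗ[K] K := (LinearMap.mul K B).compr₂ lam
  have hβ : Q ≤ LinearMap.ker β := fun b hb => by
    obtain ⟨c, rfl⟩ := (memQ b).1 hb
    ext x
    simp [β, mul_assoc, h0]
  have hβ' : Q ≤ LinearMap.ker (Q.liftQ β hβ).flip := fun b hb => by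
    obtain ⟨c, rfl⟩ := (memQ b).1 hb
    ext x
    simp [β, mul_left_comm x, h0]
  let Ψ : LinearMap.BilinForm K (B ⧸ Q) := Q.liftQ (Q.liftQ β hβ).flip hβ'
  have hΨ : ∀ a b, Ψ (Q.mkQ a) (Q.mkQ b) = lam (b * a) := fun a b => rfl
  have nd : Ψ.Nondegenerate := by
    constructor
    · intro x hx
      obtain ⟨a, rfl⟩ := Q.mkQ_surjective x
      exact (Quotient.mk_eq_zero Q).2 ((memQ a).2 (h1 a fun c => by
        rw [mul_comm, ← hΨ]; exact hx _))
    · intro x hx
      obtain ⟨a, rfl⟩ := Q.mkQ_surjective x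
      exact (Quotient.mk_eq_zero Q).2 ((memQ a).2 (h1 a fun c => by rw [← hΨ]; exact hx _))
  set Z := I.restrictScalars K ⊔ S with hZ
  set Om := ((Ideal.span {q}).colon (I : Set B)).restrictScalars K ⊓ S' with hOm
  have e1 := LinearMap.BilinForm.finrank_orthogonal nd (Z.map Q.mkQ)
  have e2 := cd_le hcof (hQI.trans (le_sup_left (b := S)))
  have e3 : Ψ.orthogonal (Z.map Q.mkQ) = Om.map Q.mkQ := by
    apply le_antisymm
    · intro x hx
      obtain ⟨a, rfl⟩ := Q.mkQ_surjective x
      have hx' : ∀ z ∈ Z, lam (a * z) = 0 := fun z hz => hx _ ⟨z, hz, rfl⟩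
      obtain ⟨b, hb, c, hc⟩ := h3 a fun c hc => hx' c (mem_sup_right hc)
      refine ⟨b, ⟨?_, hb⟩, ((Submodule.Quotient.eq Q).2 ((memQ _).2 ⟨c, hc⟩)).symm⟩
      refine Submodule.mem_colon.2 fun i hi => (memQ _).2 (h1 _ fun e => ?_)
      have := hx' (i * e) (mem_sup_left (I.mul_mem_right _ hi))
      rw [eq_add_of_sub_eq hc, add_mul, map_add, mul_assoc, h0, zero_add] at this
      rw [smul_eq_mul, mul_assoc, this]
    · rintro _ ⟨a, ⟨ha, ha'⟩, rfl⟩ _ ⟨z, hz, rfl⟩
      obtain ⟨i, hi, s, hs, rfl⟩ := mem_sup.1 hz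
      change lam (a * (i + s)) = 0
      obtain ⟨c, hc⟩ := (memQ _).1 (Submodule.mem_colon.1 ha i hi)
      rw [smul_eq_mul] at hc
      rw [mul_add, map_add, hc, h0, h2 a ha' s hs, add_zero]
  have e4 : finrank K (Om.map Q.mkQ) = finrank K Om := by
    rw [finrank_map_eq_of_ker Q.mkQ LinearMap.id Om fun x hx => ⟨fun h =>
      h4 x hx.2 ((memQ x).1 ((Quotient.mk_eq_zero Q).1 h)), fun h => by
        rw [show x = 0 from h, map_zero]⟩, Submodule.map_id]
  have e5 := finrank_inf_add_cd (hcof.mono hQI) (S := S)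
  rw [e3, e4] at e1
  rw [e5, ← hZ, e1]
  rw [← hZ] at e2
  unfold cd at e2 ⊢
  omega

end Dual

end Pool.Agent.P.MP_d3e5c7_ag
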