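import Pool.Agent.P.MP_d3e5c7_ag.Base

/-! Descent by quadratic transformations and the final theorem for classes. -/

set_option autoImplicit false

namespace Pool.Agent.P.MP_d3e5c7_ag

theorem descent {ι : Type} [Fintype ι] (μ : ℤ) (i₀ : ι)
    (H : ∀ (d : ℤ) (m : ι → ℤ), Neg d m → ¬ IsExc d m → m i₀ = μ →
      (∀ t : Fin 3 → ι, Function.Injective t → (∀ a, t a ≠ i₀) → m (t 0) + m (t 1) + m (t 2) ≤ d) →
      False) (d : ℤ) (m : ι → ℤ) (h : Neg d m) (hx : ¬ IsExc d m) (hm : m i₀ = μ) : False := by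
  classical
  obtain ⟨n, hn⟩ : ∃ n : ℕ, d = n := ⟨d.toNat, by have := h.1.1; omega⟩
  induction n using Nat.strong_induction_on generalizing d m with
  | _ n ih =>
    refine H d m h hx hm fun t ht ht0 => ?_
    by_contra hc
    have h1 := h.cm ht
    have h2 := h1.1.1
    have h3 : ck t d m < 0 := by unfold ck; omega
    exact ih (d + ck t d m).toNat (by omega) _ _ h1 (by rwa [isExc_cm ht])
      (by rw [cm, ind_off ht0]; simpa using hm) (by omega)

theorem sq2_mod (l : List ℕ) : sq2 l % 2 = l.sum % 2 := by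
  induction l with
  | nil => rfl
  | cons x l ih =>
    have := Nat.mul_mod x x 2
    simp only [sq2, List.map_cons, List.sum_cons] at ih ⊢
    rcases Nat.mod_two_eq_zero_or_one x with h | h <;> rw [h] at this <;> omega

theorem to_list {ι : Type} [Fintype ι] (μ : ℕ) (i₀ : ι) (d : ℤ) (m : ι → ℤ) (h : Neg d m)
    (hx : ¬ IsExc d m) (hm : m i₀ = μ) (hμ : 2 ≤ μ)
    (hr : ∀ t : Fin 3 → ι, Function.Injective t → (∀ a, t a ≠ i₀) →
      m (t 0) + m (t 1) + m (t 2) ≤ d) (hall : ∀ i, m i ≤ 1 ∨ μ ≤ m i) (a b1 : ℕ)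
    (ha : (a : ℤ) = -dot d m d m) (hb : (b1 : ℤ) = ∑ i, m i - 3 * d + 1) (ha' : a < μ * μ) :
    ∃ (n x y z : ℕ) (r : List ℕ), (x :: y :: z :: r).Pairwise (· ≥ ·) ∧
      (∀ w ∈ x :: y :: z :: r, (w = 1 ∨ μ ≤ w) ∧ 0 < w) ∧ x + y + z ≤ n ∧
      μ + (x :: y :: z :: r).sum + 1 = 3 * n + b1 ∧
      μ * μ + sq2 (x :: y :: z :: r) = n * n + a ∧ EffL n (μ :: x :: y :: z :: r) := by
  classical
  obtain ⟨n, rfl⟩ : ∃ n : ℕ, d = n := ⟨d.toNat, by have := h.1.1; omega⟩
  obtain ⟨k, rfl⟩ : ∃ k : ι → ℕ, m = fun i => (k i : ℤ) :=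
    ⟨fun i => (m i).toNat, by ext i; exact (Int.toNat_of_nonneg (h.nonneg hx i)).symm⟩
  beta_reduce at hm hr hall hb
  have hm' : k i₀ = μ := by exact_mod_cast hm
  let T := (Finset.univ.erase i₀).filter (fun i => 0 < k i)
  let L := T.toList.mergeSort (fun i j => decide (k j ≤ k i))
  have hL : L.Perm T.toList := List.mergeSort_perm _ _
  have hLT : ∀ i, i ∈ L ↔ i ≠ i₀ ∧ 0 < k i := by
    intro i; rw [hL.mem_iff]; simp [T]
  have hnd : L.Nodup := hL.symm.nodup T.nodup_toList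
  have hs : (L.map k).Pairwise (· ≥ ·) := by
    rw [List.pairwise_map]
    refine (List.pairwise_mergeSort ?_ ?_ _).imp (fun h => by simpa using h)
    · intro a b c h1 h2; simp only [decide_eq_true_eq] at *; omega
    · intro a b; simp only [Bool.or_eq_true, decide_eq_true_eq]; omega
  have hsum : ∀ g : ℕ → ℕ, g 0 = 0 → ∑ i, g (k i) = g μ + ((L.map k).map g).sum := by
    intro g hg
    rw [List.map_map, (hL.map _).sum_eq, Finset.sum_map_toList,
      ← Finset.add_sum_erase _ _ (Finset.mem_univ i₀), hm']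
    congr 1
    symm
    apply Finset.sum_subset (Finset.filter_subset _ _)
    intro i h1 h2
    have : k i = 0 := by
      by_contra h3
      exact h2 (Finset.mem_filter.2 ⟨h1, by omega⟩)
    simp [this, hg]
  have e1 := hsum id rfl
  have e2 := hsum (fun x => x * x) rfl
  simp only [id, List.map_id] at e1
  have e3 : μ + (L.map k).sum + 1 = 3 * n + b1 := by
    rw [← e1]; zify; omega
  have e4 : μ * μ + sq2 (L.map k) = n * n + a := by
    rw [sq2, ← e2]; zify; simp only [dot] at ha; omega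
  have e5 : μ ≤ n := by have := h.1.le i₀; omega
  have hE : EffL n (μ :: L.map k) := ⟨ι, inferInstance, k, i₀ :: L,
    List.nodup_cons.2 ⟨fun h => ((hLT _).1 h).1 rfl, hnd⟩, by simp [hm'], h, hx⟩
  have hal : ∀ w ∈ L.map k, (w = 1 ∨ μ ≤ w) ∧ 0 < w := by
    intro w hw
    obtain ⟨i, hi, rfl⟩ := List.mem_map.1 hw
    have := ((hLT i).1 hi).2
    have := hall i
    omega
  clear_value L
  obtain _ | ⟨i, _ | ⟨j, _ | ⟨l, R⟩⟩⟩ := L
  · simp [sq2] at e3 e4; nlinarith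
  · simp [sq2] at e3 e4; nlinarith
  · exfalso
    simp only [sq2, List.map_cons, List.map_nil, List.sum_cons, List.sum_nil] at e3 e4
    have : k i < n := by nlinarith
    have : k j < n := by nlinarith
    omega
  · refine ⟨n, k i, k j, k l, R.map k, hs, hal, ?_, e3, e4, hE⟩
    simp only [List.nodup_cons, List.mem_cons, not_or] at hnd
    have := hr ![i, j, l] (by
      intro a b hab
      fin_cases a <;> fin_cases b <;> simp_all) (by
      intro a
      fin_cases a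
      · exact ((hLT i).1 (by simp)).1
      · exact ((hLT j).1 (by simp)).1
      · exact ((hLT l).1 (by simp)).1)
    simp only [Matrix.cons_val_zero, Matrix.cons_val_one, Matrix.cons_val] at this
    omega

theorem enum3' (a b : ℕ) (h1 : 1 ≤ a) (h2 : a ≤ b + 1) (h3 : b + 3 * a ≤ 7) (h4 : (a + b) % 2 = 1)
    (h5 : a = 1 → b ≠ 0) : enum base 3 a b = true :=
  List.all_eq_true.1 enum3 (a, b) (by
    simp only [List.mem_cons, Prod.mk.injEq, List.not_mem_nil, or_false]; omega)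

theorem enum4' (a b : ℕ) (h1 : 1 ≤ a) (h2 : a ≤ b + 1) (h3 : b + 3 * a ≤ 11) (h4 : (a + b) % 2 = 1)
    (h5 : a = 1 → b ≠ 0) : enum base 4 a b = true :=
  List.all_eq_true.1 enum4 (a, b) (by
    simp only [List.mem_cons, Prod.mk.injEq, List.not_mem_nil, or_false]; omega)

theorem parity {μ n a b : ℕ} {l : List ℕ} (p4 : μ + l.sum + 1 = 3 * n + b)
    (p5 : μ * μ + sq2 l = n * n + a) : (a + b) % 2 = 1 := by
  have q1 := sq2_mod l
  have q2 := sq2_mod [n]
  have q3 := sq2_mod [μ]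
  simp only [sq2, List.map_cons, List.map_nil, List.sum_cons, List.sum_nil] at q2 q3
  omega

theorem good3 {s : ℕ} (i₀ : Fin s) (d : ℤ) (m : Fin s → ℤ) (h : Neg d m) (hx : ¬ IsExc d m) :
    m i₀ ≠ 3 := by
  refine descent 3 i₀ (fun d m h hx hm hr => ?_) d m h hx
  obtain ⟨h1, h2, -, h3, -⟩ := h.bound hx _ _ rfl rfl i₀
  have h4 := h3 hm
  obtain ⟨a, ha⟩ : ∃ a : ℕ, (a : ℤ) = -dot d m d m := ⟨(-dot d m d m).toNat, by omega⟩
  obtain ⟨b, hb⟩ : ∃ b : ℕ, (b : ℤ) = ∑ i, m i - 3 * d + 1 :=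
    ⟨(∑ i, m i - 3 * d + 1).toNat, by omega⟩
  obtain ⟨n, x, y, z, r, p1, p2, p3, p4, p5, p6⟩ := to_list 3 i₀ d m h hx hm (by norm_num) hr
    (fun i => by have := (h.bound hx _ _ rfl rfl i).2.2.1; omega) a b ha hb (by omega)
  exact enum_true base_ne (enum3' a b (by omega) (by omega) (by omega) (parity p4 p5)
    (fun e1 e2 => hx ⟨by omega, by omega⟩)) (by omega) (by omega) (by omega)
    n x y z r p1 p2 p3 p4 p5 p6

theorem good4 {s : ℕ} (i₀ : Fin s) (d : ℤ) (m : Fin s → ℤ) (h : Neg d m) (hx : ¬ IsExc d m) :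
    m i₀ ≠ 4 := by
  refine descent 4 i₀ (fun d m h hx hm hr => ?_) d m h hx
  obtain ⟨h1, h2, -, -, h3⟩ := h.bound hx _ _ rfl rfl i₀
  have h4 := h3 hm
  obtain ⟨a, ha⟩ : ∃ a : ℕ, (a : ℤ) = -dot d m d m := ⟨(-dot d m d m).toNat, by omega⟩
  obtain ⟨b, hb⟩ : ∃ b : ℕ, (b : ℤ) = ∑ i, m i - 3 * d + 1 :=
    ⟨(∑ i, m i - 3 * d + 1).toNat, by omega⟩
  obtain ⟨n, x, y, z, r, p1, p2, p3, p4, p5, p6⟩ := to_list 4 i₀ d m h hx hm (by norm_num) hr
    (fun i => by
      have := (h.bound hx _ _ rfl rfl i).2.2.1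
      have := good3 i d m h hx
      omega) a b ha hb (by omega)
  exact enum_true base_ne (enum4' a b (by omega) (by omega) (by omega) (parity p4 p5)
    (fun e1 e2 => hx ⟨by omega, by omega⟩)) (by omega) (by omega) (by omega)
    n x y z r p1 p2 p3 p4 p5 p6

theorem exc_of_small {s : ℕ} (i₀ : Fin s) (d : ℤ) (m : Fin s → ℤ) (h : Neg d m)
    (h2 : 2 ≤ m i₀) (h4 : m i₀ ≤ 4) : IsExc d m := by
  by_contra hx
  have := (h.bound hx _ _ rfl rfl i₀).2.2.1
  have := good3 i₀ d m h hx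
  have := good4 i₀ d m h hx
  omega

end Pool.Agent.P.MP_d3e5c7_ag
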