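import Pool.Agent.P.MP_d3e5c7_ag.NagB

/-! The nodal cubic: orders along the two branches at the node. -/

set_option autoImplicit false

namespace Pool.Agent.P.MP_d3e5c7_ag.Nag

open MvPolynomial

section ring
variable (K : Type*) [CommRing K]

/-- the nodal cubic -/
noncomputable def cub : MvPolynomial (Fin 2) K := X 1 ^ 2 - X 0 * X 1 - X 0 ^ 3

/-- its parametrisation -/
noncomputable def gam : Fin 2 → Polynomial K :=
  ![Polynomial.X ^ 2 - Polynomial.X, Polynomial.X ^ 3 - Polynomial.X ^ 2]

/-- a polynomial map sending the two axes onto the two branches -/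
noncomputable def phi : Fin 2 → MvPolynomial (Fin 2) K :=
  ![X 0 ^ 2 - X 0 + (X 1 ^ 2 + X 1), X 0 ^ 3 - X 0 ^ 2 + (X 1 + 1) ^ 2 * X 1]

/-- the unit factor -/
noncomputable def uu : MvPolynomial (Fin 2) K :=
  1 + X 1 * (5 + 7 * X 1 + 3 * X 1 ^ 2) + X 0 * (-5 - 11 * X 1 - 9 * X 1 ^ 2 - 3 * X 1 ^ 3 +
    7 * X 0 + 9 * X 0 * X 1 + 2 * X 0 * X 1 ^ 2 - 3 * X 0 ^ 2 - 3 * X 0 ^ 2 * X 1)

variable {K}

theorem map_phi {L : Type*} [CommRing L] (ι : K →+* L) (k : Fin 2) :
    map ι (phi K k) = phi L k := by
  fin_cases k <;> simp [phi]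

theorem phi_cub : aeval (phi K) (cub K) = X 0 * X 1 * uu K := by
  simp [phi, cub, uu]; ring

theorem coeff_r0 (f : MvPolynomial (Fin 2) K) (a : ℕ) :
    (aeval ![Polynomial.X, 0] f : Polynomial K).coeff a = coeff (ex a 0) f := by
  rw [← coeff_E1, Polynomial.coeff_zero_eq_eval_zero]
  congr 1
  induction f using MvPolynomial.induction_on with
  | C c => simp [E1]
  | add f g hf hg => simp only [map_add, hf, hg, Polynomial.eval_add]
  | mul_X f i hf =>
    simp only [map_mul, hf, Polynomial.eval_mul]
    fin_cases i <;> simp [E1]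

theorem coeff_r1 (f : MvPolynomial (Fin 2) K) (b : ℕ) :
    (aeval ![0, Polynomial.X] f : Polynomial K).coeff b = coeff (ex 0 b) f := by
  rw [← coeff_E0, Polynomial.coeff_zero_eq_eval_zero]
  congr 1
  induction f using MvPolynomial.induction_on with
  | C c => simp [E0]
  | add f g hf hg => simp only [map_add, hf, hg, Polynomial.eval_add]
  | mul_X f i hf =>
    simp only [map_mul, hf, Polynomial.eval_mul]
    fin_cases i <;> simp [E0]

theorem r0_phi (f : MvPolynomial (Fin 2) K) :
    (aeval ![Polynomial.X, 0] (aeval (phi K) f) : Polynomial K) = aeval (gam K) f := by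
  have : (aeval ![Polynomial.X, 0] : _ →ₐ[K] Polynomial K).comp (aeval (phi K)) =
      aeval (gam K) := by
    ext k : 1
    fin_cases k <;> simp [phi, gam]
  exact congrArg (fun φ : MvPolynomial (Fin 2) K →ₐ[K] _ => φ f) this

theorem r1_phi (f : MvPolynomial (Fin 2) K) :
    (aeval ![0, Polynomial.X] (aeval (phi K) f) : Polynomial K) =
      Polynomial.taylor 1 (aeval (gam K) f) := by
  have : (aeval ![0, Polynomial.X] : _ →ₐ[K] Polynomial K).comp (aeval (phi K)) =
      (Polynomial.taylorAlgHom 1).comp (aeval (gam K)) := by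
    ext k : 1
    fin_cases k <;> simp [phi, gam] <;> ring
  exact congrArg (fun φ : MvPolynomial (Fin 2) K →ₐ[K] _ => φ f) this

theorem mod_cub (f : MvPolynomial (Fin 2) K) : ∃ (q : MvPolynomial (Fin 2) K) (a b : Polynomial K),
    f = cub K * q + Polynomial.aeval (X 0) a + Polynomial.aeval (X 0) b * X 1 := by
  induction f using MvPolynomial.induction_on with
  | C c => exact ⟨0, Polynomial.C c, 0, by simp⟩
  | add f g hf hg =>
    obtain ⟨q, a, b, rfl⟩ := hf
    obtain ⟨q', a', b', rfl⟩ := hg
    exact ⟨q + q', a + a', b + b', by simp; ring⟩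
  | mul_X f i hf =>
    obtain ⟨q, a, b, rfl⟩ := hf
    fin_cases i
    · exact ⟨q * X 0, a * Polynomial.X, b * Polynomial.X, by simp; ring⟩
    · exact ⟨q * X 1 + Polynomial.aeval (X 0) b, b * Polynomial.X ^ 3, a + b * Polynomial.X,
        by simp [cub]; ring⟩

end ring

variable {K : Type*} [Field K]

theorem natDegree_gam0 : (gam K 0).natDegree = 2 := by
  simp only [gam, Matrix.cons_val_zero]; compute_degree!

theorem natDegree_gam1 : (gam K 1).natDegree = 3 := by
  simp only [gam, Matrix.cons_val_one, Matrix.cons_val_zero]; compute_degree!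

theorem cub_dvd {f : MvPolynomial (Fin 2) K} (h : aeval (gam K) f = 0) : cub K ∣ f := by
  obtain ⟨q, a, b, rfl⟩ := mod_cub f
  have h0 : aeval (gam K) (cub K) = 0 := by simp [gam, cub]; ring
  have h1 : a.comp (gam K 0) + b.comp (gam K 0) * gam K 1 = 0 := by
    simpa [h0, ← Polynomial.aeval_algHom_apply, Polynomial.comp_eq_aeval] using h
  have hz : ∀ c : Polynomial K, c.comp (gam K 0) = 0 → c = 0 := by
    intro c hc
    rcases Polynomial.comp_eq_zero_iff.1 hc with h2 | ⟨-, h2⟩
    · exact h2
    · have := congrArg Polynomial.natDegree h2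
      rw [natDegree_gam0, Polynomial.natDegree_C] at this
      omega
  have hb : b = 0 := by
    by_contra hb
    have h2 := congrArg Polynomial.natDegree (eq_neg_of_add_eq_zero_left h1)
    rw [Polynomial.natDegree_neg, Polynomial.natDegree_mul (fun h3 => hb (hz b h3)) (by
      intro h3
      have := natDegree_gam1 (K := K)
      rw [h3] at this
      simp at this), Polynomial.natDegree_comp, Polynomial.natDegree_comp, natDegree_gam0,
      natDegree_gam1] at h2
    omega
  have ha : a = 0 := hz a (by simpa [hb] using h1)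
  simp [ha, hb]

theorem natDegree_aeval_gam (f : MvPolynomial (Fin 2) K) :
    (aeval (gam K) f).natDegree ≤ 3 * f.totalDegree := by
  conv_lhs => rw [f.as_sum, map_sum]
  refine Polynomial.natDegree_sum_le_of_forall_le _ _ fun α hα => ?_
  have h1 : α.degree ≤ f.totalDegree := le_totalDegree hα
  rw [← ex_eta α, degree_ex] at h1
  rw [mono2, map_mul, map_mul, map_pow, map_pow, aeval_C, aeval_X, aeval_X]
  refine (Polynomial.natDegree_C_mul_le _ _).trans (Polynomial.natDegree_mul_le.trans ?_)
  rw [Polynomial.natDegree_pow, Polynomial.natDegree_pow, natDegree_gam0, natDegree_gam1]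
  omega

theorem three_le_cub : 3 ≤ (cub K).totalDegree := by
  have h : ex 3 0 ∈ (cub K).support := by
    rw [mem_support_iff, ← coeff_r0]
    simp [cub]
  have h1 : (ex 3 0).degree ≤ (cub K).totalDegree := le_totalDegree h
  rwa [degree_ex] at h1

theorem cub_ne_zero : cub K ≠ 0 := by
  intro h
  have := three_le_cub (K := K)
  simp [h] at this

theorem le_totalDegree_cub_pow (j : ℕ) {f : MvPolynomial (Fin 2) K} (hf : f ≠ 0) :
    3 * j + f.totalDegree ≤ (cub K ^ j * f).totalDegree := by
  induction j with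
  | zero => simp
  | succ j ih =>
    rw [pow_succ', mul_assoc,
      totalDegree_mul_of_isDomain cub_ne_zero (mul_ne_zero (pow_ne_zero _ cub_ne_zero) hf)]
    have := three_le_cub (K := K)
    omega

theorem coeff_trailing_mul {h f : Polynomial K} (h0 : h.coeff 0 ≠ 0) (hf : f ≠ 0) :
    (h * f).coeff f.natTrailingDegree ≠ 0 := by
  have h1 : h.natTrailingDegree = 0 := Polynomial.natTrailingDegree_eq_zero.2 (Or.inr h0)
  have h2 := Polynomial.coeff_mul_natTrailingDegree_add_natTrailingDegree (p := h) (q := f)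
  rw [h1, zero_add] at h2
  rw [h2]
  exact mul_ne_zero (Polynomial.trailingCoeff_nonzero_iff_nonzero.2 (by rintro rfl; simp at h0))
    (Polynomial.trailingCoeff_nonzero_iff_nonzero.2 hf)

theorem node {f : MvPolynomial (Fin 2) K} (hf : f ≠ 0) :
    ∃ j u v : ℕ, u + v + 9 * j ≤ 3 * f.totalDegree ∧
      (∀ α ∈ (aeval (phi K) f).support, j ≤ α 0 ∧ j ≤ α 1) ∧
      ex (j + u) j ∈ (aeval (phi K) f).support ∧ ex j (j + v) ∈ (aeval (phi K) f).support := by
  classical
  have hnu : ¬ IsUnit (cub K) := by
    intro h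
    have h1 := three_le_cub (K := K)
    obtain ⟨c, -, hc⟩ := MvPolynomial.isUnit_iff_eq_C_of_isReduced.1 h
    simp [hc] at h1
  obtain ⟨j, g, hg, rfl⟩ := WfDvdMonoid.max_power_factor' hf hnu
  have hg0 : g ≠ 0 := by rintro rfl; simp at hg
  have hγ : aeval (gam K) g ≠ 0 := fun h => hg (cub_dvd h)
  have hγ' : Polynomial.taylor 1 (aeval (gam K) g) ≠ 0 := by
    rwa [Ne, Polynomial.taylor_eq_zero]
  set P := uu K ^ j * aeval (phi K) g with hP
  have e : aeval (phi K) (cub K ^ j * g) = monomial (ex j j) 1 * P := by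
    rw [map_mul, map_pow, phi_cub, mono2, hP]; simp; ring
  refine ⟨j, (aeval (gam K) g).natTrailingDegree,
    (Polynomial.taylor 1 (aeval (gam K) g)).natTrailingDegree, ?_, ?_, ?_, ?_⟩
  · have h1 := two_orders hγ _ (fun a ha => Polynomial.coeff_eq_zero_of_lt_natTrailingDegree ha)
    have h2 := natDegree_aeval_gam g
    have h3 := le_totalDegree_cub_pow j hg0
    omega
  · intro α hα
    rw [e, mem_support_iff, coeff_monomial_mul'] at hα
    have h1 : ex j j ≤ α := by
      by_contra h; simp [h] at hα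
    exact ⟨by simpa using h1 0, by simpa using h1 1⟩
  · have : ex (j + (aeval (gam K) g).natTrailingDegree) j =
        ex j j + ex (aeval (gam K) g).natTrailingDegree 0 := by
      rw [eq_comm, eq_ex_iff]; simp
    rw [e, mem_support_iff, this, coeff_monomial_mul, one_mul, ← coeff_r0, hP, map_mul, r0_phi]
    apply coeff_trailing_mul _ hγ
    simp [uu, Polynomial.coeff_zero_eq_eval_zero]
  · have : ex j (j + (Polynomial.taylor 1 (aeval (gam K) g)).natTrailingDegree) =
        ex j j + ex 0 (Polynomial.taylor 1 (aeval (gam K) g)).natTrailingDegree := by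
      rw [eq_comm, eq_ex_iff]; simp
    rw [e, mem_support_iff, this, coeff_monomial_mul, one_mul, ← coeff_r1, hP, map_mul, r1_phi]
    apply coeff_trailing_mul _ hγ'
    simp [uu, Polynomial.coeff_zero_eq_eval_zero]

end Pool.Agent.P.MP_d3e5c7_ag.Nag
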