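import Pool.Agent.P.MP_d3e5c7_ag.NagD

/-! Points on a coordinate line, and monomial changes of coordinates. -/

set_option autoImplicit false

namespace Pool.Agent.P.MP_d3e5c7_ag.Nag

open MvPolynomial

/-- exponent vector -/
noncomputable def ex (a b : ℕ) : Fin 2 →₀ ℕ := Finsupp.single 0 a + Finsupp.single 1 b

@[simp] theorem ex_zero (a b : ℕ) : ex a b 0 = a := by simp [ex]
@[simp] theorem ex_one (a b : ℕ) : ex a b 1 = b := by simp [ex]

theorem ex_eta (α : Fin 2 →₀ ℕ) : ex (α 0) (α 1) = α := by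
  ext k; fin_cases k <;> simp

theorem ex_inj {a b c d : ℕ} : ex a b = ex c d ↔ a = c ∧ b = d := by
  constructor
  · intro h
    exact ⟨by simpa using congrArg (· 0) h, by simpa using congrArg (· 1) h⟩
  · rintro ⟨rfl, rfl⟩; rfl

theorem eq_ex_iff {α : Fin 2 →₀ ℕ} {a b : ℕ} : α = ex a b ↔ α 0 = a ∧ α 1 = b := by
  conv_lhs => rw [← ex_eta α]
  exact ex_inj

theorem degree_ex (a b : ℕ) : (ex a b).degree = a + b := by
  rw [Finsupp.degree_eq_sum, Fin.sum_univ_two, ex_zero, ex_one]

theorem weight2 (w : Fin 2 → ℕ) (α : Fin 2 →₀ ℕ) :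
    Finsupp.weight w α = α 0 * w 0 + α 1 * w 1 := by
  rw [Finsupp.weight_apply, Finsupp.sum_fintype _ _ (by simp), Fin.sum_univ_two]; rfl

section ring
variable {K : Type*} [CommRing K]

theorem mono2 (α : Fin 2 →₀ ℕ) (c : K) :
    monomial α c = C c * (X 0 ^ α 0 * X 1 ^ α 1) := by
  rw [monomial_eq, Finsupp.prod_fintype _ _ (by simp), Fin.prod_univ_two]

/-- as a polynomial in the first variable -/
noncomputable def E0 : MvPolynomial (Fin 2) K →ₐ[K] Polynomial (Polynomial K) :=
  aeval ![Polynomial.X, Polynomial.C Polynomial.X]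

/-- as a polynomial in the second variable -/
noncomputable def E1 : MvPolynomial (Fin 2) K →ₐ[K] Polynomial (Polynomial K) :=
  aeval ![Polynomial.C Polynomial.X, Polynomial.X]

theorem coeff_E0 (f : MvPolynomial (Fin 2) K) (a b : ℕ) :
    ((E0 f).coeff a).coeff b = coeff (ex a b) f := by
  classical
  induction f using MvPolynomial.induction_on' with
  | monomial α c =>
    have : E0 (monomial α c) = Polynomial.monomial (α 0) (Polynomial.monomial (α 1) c) := by
      rw [mono2, ← Polynomial.C_mul_X_pow_eq_monomial, ← Polynomial.C_mul_X_pow_eq_monomial]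
      simp [E0]; ring
    rw [this, Polynomial.coeff_monomial, coeff_monomial]
    by_cases h1 : α 0 = a <;> by_cases h2 : α 1 = b <;>
      simp [h1, h2, Polynomial.coeff_monomial, eq_ex_iff]
  | add f g hf hg => simp [hf, hg]

theorem coeff_E1 (f : MvPolynomial (Fin 2) K) (a b : ℕ) :
    ((E1 f).coeff b).coeff a = coeff (ex a b) f := by
  classical
  induction f using MvPolynomial.induction_on' with
  | monomial α c =>
    have : E1 (monomial α c) = Polynomial.monomial (α 1) (Polynomial.monomial (α 0) c) := by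
      rw [mono2, ← Polynomial.C_mul_X_pow_eq_monomial, ← Polynomial.C_mul_X_pow_eq_monomial]
      simp [E1]; ring
    rw [this, Polynomial.coeff_monomial, coeff_monomial]
    by_cases h1 : α 0 = a <;> by_cases h2 : α 1 = b <;>
      simp [h1, h2, Polynomial.coeff_monomial, eq_ex_iff]
  | add f g hf hg => simp [hf, hg]

theorem E0_sh (y : K) (f : MvPolynomial (Fin 2) K) (a : ℕ) :
    (E0 (sh ![0, y] f)).coeff a = Polynomial.taylor y ((E0 f).coeff a) := by
  have : (E0 (K := K)).comp (sh ![0, y]) =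
      (Polynomial.mapAlgHom (Polynomial.taylorAlgHom y)).comp E0 := by
    ext k : 1
    fin_cases k <;> simp [E0, sh]
  have h := congrArg (fun φ : MvPolynomial (Fin 2) K →ₐ[K] _ => (φ f).coeff a) this
  simpa using h

theorem E1_sh (x : K) (f : MvPolynomial (Fin 2) K) (b : ℕ) :
    (E1 (sh ![x, 0] f)).coeff b = Polynomial.taylor x ((E1 f).coeff b) := by
  have : (E1 (K := K)).comp (sh ![x, 0]) =
      (Polynomial.mapAlgHom (Polynomial.taylorAlgHom x)).comp E1 := by
    ext k : 1
    fin_cases k <;> simp [E1, sh]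
  have h := congrArg (fun φ : MvPolynomial (Fin 2) K →ₐ[K] _ => (φ f).coeff b) this
  simpa using h

end ring

variable {K : Type*} [Field K]

theorem sum_le_natDegree {κ : Type*} [Fintype κ] (y : κ → K) (hy : Function.Injective y)
    (e : κ → ℕ) {f : Polynomial K} (hf : f ≠ 0)
    (h : ∀ k, ∀ a < e k, (Polynomial.taylor (y k) f).coeff a = 0) : ∑ k, e k ≤ f.natDegree := by
  have h1 : ∏ k, (Polynomial.X - Polynomial.C (y k)) ^ e k ∣ f := by
    apply Finset.prod_dvd_of_coprime
    · intro a _ b _ hab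
      exact (Polynomial.pairwise_coprime_X_sub_C hy hab).pow
    · intro k _
      rw [Polynomial.X_sub_C_pow_dvd_iff, Polynomial.X_pow_dvd_iff]
      exact h k
  have h2 := Polynomial.natDegree_le_of_dvd h1 hf
  rw [Polynomial.natDegree_prod_of_monic _ _
    (fun k _ => (Polynomial.monic_X_sub_C _).pow _)] at h2
  simpa using h2

theorem two_orders {f : Polynomial K} (hf : f ≠ 0) (j : ℕ)
    (h : ∀ a < j, (Polynomial.taylor 1 f).coeff a = 0) :
    f.natTrailingDegree + j ≤ f.natDegree := by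
  have := sum_le_natDegree ![0, 1] (by
    intro a b hab; fin_cases a <;> fin_cases b <;> simp_all) ![f.natTrailingDegree, j] hf (by
    intro k a ha
    fin_cases k
    · simpa using Polynomial.coeff_eq_zero_of_lt_natTrailingDegree (by simpa using ha)
    · exact h a (by simpa using ha))
  simpa using this

theorem chord {g : MvPolynomial (Fin 2) K} {a j : ℕ} (h1 : ex a j ∈ (sh ![0, 1] g).support)
    (h2 : ∀ α ∈ (sh ![0, 1] g).support, j ≤ α 1) :
    ∃ b0 b1, b0 + j ≤ b1 ∧ ex a b0 ∈ g.support ∧ ex a b1 ∈ g.support := by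
  have h0 : (E0 g).coeff a ≠ 0 := by
    intro h
    apply mem_support_iff.1 h1
    rw [← coeff_E0, E0_sh, h]; simp
  refine ⟨_, _, two_orders h0 j ?_, ?_, ?_⟩
  · intro b hb
    rw [← E0_sh, coeff_E0]
    by_contra h
    have := h2 _ (mem_support_iff.2 h)
    simp at this; omega
  · rw [mem_support_iff, ← coeff_E0]
    exact Polynomial.trailingCoeff_nonzero_iff_nonzero.2 h0
  · rw [mem_support_iff, ← coeff_E0]
    exact Polynomial.leadingCoeff_ne_zero.2 h0

theorem row_bound {ι : Type*} [Fintype ι] (x : ι → K) (hx : Function.Injective x)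
    (h0 : ∀ i, x i ≠ 0) {h : MvPolynomial (Fin 2) K} (hh : h ≠ 0) (m : ι → ℕ)
    (hv : ∀ i, Van ![x i, 0] (m i) h) :
    ∃ j K1 K2 : ℕ, K1 + ∑ i, (m i - j) ≤ K2 ∧ ex K1 j ∈ h.support ∧ ex K2 j ∈ h.support ∧
      ∀ α ∈ h.support, j ≤ α 1 ∧ (α 1 = j → K1 ≤ α 0) := by
  obtain ⟨α0, hα0, hmin⟩ := Finset.exists_min_image h.support (fun α => α 1)
    (support_nonempty.2 hh)
  set j := α0 1
  have hf : (E1 h).coeff j ≠ 0 := by
    intro h1
    apply mem_support_iff.1 hα0
    rw [← ex_eta α0, ← coeff_E1, h1]; simp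
  refine ⟨j, ((E1 h).coeff j).natTrailingDegree, ((E1 h).coeff j).natDegree, ?_, ?_, ?_, ?_⟩
  · have := sum_le_natDegree (fun o : Option ι => o.elim 0 x) (by
      rintro (_ | a) (_ | b) hab
      · rfl
      · exact absurd hab.symm (h0 b)
      · exact absurd hab (h0 a)
      · rw [hx hab]) (fun o => o.elim ((E1 h).coeff j).natTrailingDegree (fun i => m i - j)) hf (by
      rintro (_ | i) a ha
      · simpa using Polynomial.coeff_eq_zero_of_lt_natTrailingDegree ha
      · simp only [Option.elim_some] at ha ⊢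
        rw [← E1_sh, coeff_E1]
        exact hv i _ (by rw [degree_ex]; omega))
    simpa using this
  · rw [mem_support_iff, ← coeff_E1]
    exact Polynomial.trailingCoeff_nonzero_iff_nonzero.2 hf
  · rw [mem_support_iff, ← coeff_E1]
    exact Polynomial.leadingCoeff_ne_zero.2 hf
  · intro α hα
    refine ⟨hmin α hα, fun h1 => Polynomial.natTrailingDegree_le_of_ne_zero ?_⟩
    rw [coeff_E1, ← h1, ex_eta]
    exact mem_support_iff.1 hα

theorem relabel (p M : ℕ) (g : MvPolynomial (Fin 2) K) (hg : g ≠ 0)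
    (hM : ∀ α ∈ g.support, p * α 1 ≤ M + α 0) :
    ∃ g' : MvPolynomial (Fin 2) K, g' ≠ 0 ∧
      (∀ β ∈ g'.support, ∃ α ∈ g.support, β 0 + p * α 1 = M + α 0 ∧ β 1 = α 1) ∧
      ∀ (x y : K) (n : ℤ), x ≠ 0 → Van ![x, y] n g → Van ![x, x ^ p * y] n g' := by
  classical
  set g' : MvPolynomial (Fin 2) K :=
    ∑ α ∈ g.support, monomial (ex (M + α 0 - p * α 1) (α 1)) (coeff α g) with hg'
  have key : aeval ![X 0, X 0 ^ p * X 1] g' = X 0 ^ M * g := by
    conv_rhs => rw [g.as_sum, Finset.mul_sum]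
    rw [hg', map_sum]
    refine Finset.sum_congr rfl fun α hα => ?_
    obtain ⟨e, he⟩ := Nat.exists_eq_add_of_le (hM α hα)
    have h2 : (X 0 : MvPolynomial (Fin 2) K) ^ M * X 0 ^ α 0 = X 0 ^ (p * α 1) * X 0 ^ e := by
      rw [← pow_add, he, pow_add]
    rw [mono2, mono2, ex_zero, ex_one, he, Nat.add_sub_cancel_left]
    simp only [map_mul, map_pow, aeval_C, aeval_X, algebraMap_eq, Matrix.cons_val_zero,
      Matrix.cons_val_one, mul_pow, ← pow_mul]
    linear_combination (-C (coeff α g) * X 1 ^ α 1) * h2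
  refine ⟨g', ?_, ?_, ?_⟩
  · intro h0
    rw [h0, map_zero] at key
    exact mul_ne_zero (pow_ne_zero _ (X_ne_zero _)) hg key.symm
  · intro β hβ
    obtain ⟨α, hα, h1⟩ := Finset.mem_biUnion.1 (support_sum hβ)
    have h2 := Finset.mem_singleton.1 (support_monomial_subset h1)
    have := hM α hα
    exact ⟨α, hα, by rw [h2, ex_zero]; omega, by rw [h2, ex_one]⟩
  · intro x y n hx hv
    set q : Fin 2 → K := ![x, x ^ p * y]
    set N : MvPolynomial (Fin 2) K := 1 - C x⁻¹ * X 0 with hN
    set u : MvPolynomial (Fin 2) K := C x⁻¹ * ∑ i ∈ Finset.range (n.toNat + 1), N ^ i with hu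
    have hN0 : eval q N = 0 := by simp [hN, q, hx]
    have h1 : X 0 * u = 1 - N ^ (n.toNat + 1) := by
      rw [← mul_neg_geom_sum, hu, hN]; ring
    have h2 : eval q u = x⁻¹ := by
      simp [hu, hN0]
    have h3 : Van q n (aeval ![X 0, u ^ p * X 1] (X 0 ^ M * g)) := by
      apply Van.comp
      apply Van.mul_left
      convert hv using 2 with k
      fin_cases k
      · simp [q]
      · simp [q, h2]; field_simp
    rw [← key, van_iff, ← Ideal.Quotient.eq_zero_iff_mem] at h3
    rw [van_iff, ← Ideal.Quotient.eq_zero_iff_mem, ← h3]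
    have h4 : Ideal.Quotient.mk (mI q ^ n.toNat) (X 0 * u) = 1 := by
      rw [h1, map_sub, map_one, sub_eq_self, Ideal.Quotient.eq_zero_iff_mem, pow_succ]
      exact Ideal.mul_mem_right _ _ (Ideal.pow_mem_pow (show N ∈ mI q from hN0) _)
    have h5 : (Ideal.Quotient.mkₐ K (mI q ^ n.toNat)) =
        (Ideal.Quotient.mkₐ K (mI q ^ n.toNat)).comp
          ((aeval ![X 0, u ^ p * X 1]).comp (aeval ![X 0, X 0 ^ p * X 1])) := by
      ext k : 1
      fin_cases k
      · simp
      · simp only [Fin.mk_one, Fin.isValue, Ideal.Quotient.mkₐ_eq_mk, AlgHom.comp_apply, aeval_X,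
          Matrix.cons_val_one, Matrix.cons_val_zero, map_mul, map_pow]
        rw [← mul_assoc, ← mul_pow, ← map_mul, h4, one_pow, one_mul]
    exact congrArg (fun φ : MvPolynomial (Fin 2) K →ₐ[K] _ => φ g') h5

end Pool.Agent.P.MP_d3e5c7_ag.Nag
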