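import Pool.Agent.P.MP_d3e5c7_ag.Spec

/-! Degeneration to initial terms, through the field of Laurent series. -/

set_option autoImplicit false

namespace Pool.Agent.P.MP_d3e5c7_ag.Nag

open MvPolynomial

section lam
variable {σ τ K L : Type*} [Field K] [Field L]

/-- `l` is linear over `K` acting through `ι` -/
def Lin (ι : K →+* L) (l : L →+ K) : Prop := ∀ a c, l (ι a * c) = a * l c

/-- apply a linear form to all coefficients -/
noncomputable def lam (l : L →+ K) (F : MvPolynomial σ L) : MvPolynomial σ K :=
  ∑ α ∈ F.support, monomial α (l (coeff α F))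

theorem coeff_lam (l : L →+ K) (F : MvPolynomial σ L) (α : σ →₀ ℕ) :
    coeff α (lam l F) = l (coeff α F) := by
  classical
  rw [lam, coeff_sum, Finset.sum_eq_single α]
  · simp
  · intro b _ hb
    rw [coeff_monomial, if_neg hb]
  · intro h
    simp [notMem_support_iff.1 h]

theorem support_lam (l : L →+ K) (F : MvPolynomial σ L) : (lam l F).support ⊆ F.support := by
  intro α hα
  rw [mem_support_iff] at hα ⊢
  intro h0
  apply hα
  rw [coeff_lam, h0, map_zero]

theorem lam_add (l : L →+ K) (F G : MvPolynomial σ L) : lam l (F + G) = lam l F + lam l G := by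
  ext α; simp [coeff_lam]

variable {ι : K →+* L} {l : L →+ K}

theorem lam_C_mul (hl : Lin ι l) (c : L) (g : MvPolynomial σ K) :
    lam l (C c * map ι g) = C (l c) * g := by
  ext α
  rw [coeff_lam, coeff_C_mul, coeff_C_mul, coeff_map, mul_comm, hl, mul_comm]

theorem lam_aeval (hl : Lin ι l) (g : σ → MvPolynomial τ K) (F : MvPolynomial σ L) :
    lam l (aeval (fun i => map ι (g i)) F) = aeval g (lam l F) := by
  induction F using MvPolynomial.induction_on' with
  | monomial α c =>
    have e1 : (monomial α c : MvPolynomial σ L) = C c * map ι (monomial α 1) := by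
      rw [map_monomial, map_one, C_mul_monomial, mul_one]
    have e2 : aeval (fun i => map ι (g i)) (monomial α c) =
        C c * map ι (aeval g (monomial α (1 : K))) := by
      rw [aeval_monomial, aeval_monomial, map_one, one_mul, map_finsuppProd, algebraMap_eq]
      simp only [map_pow]
    rw [e2, lam_C_mul hl, e1, lam_C_mul hl, map_mul, aeval_C, algebraMap_eq]
  | add F G hF hG => rw [map_add, lam_add, lam_add, map_add, hF, hG]

theorem lam_sh (hl : Lin ι l) (q : σ → K) (F : MvPolynomial σ L) :
    lam l (sh (fun k => ι (q k)) F) = sh q (lam l F) := by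
  have := lam_aeval hl (fun k => X k + C (q k)) F
  simpa [sh] using this

theorem van_lam (hl : Lin ι l) {q : σ → K} {n : ℤ} {F : MvPolynomial σ L}
    (h : Van (fun k => ι (q k)) n F) : Van q n (lam l F) := by
  intro β hβ
  rw [← lam_sh hl, coeff_lam, h β hβ, map_zero]

end lam

section degen
variable {σ K : Type*} [Field K]

/-- the uniformiser -/
noncomputable def tt (K : Type*) [Field K] : HahnSeries ℤ K := HahnSeries.single 1 1

theorem tt_ne_zero : tt K ≠ 0 := by simp [tt]

/-- the constants -/
noncomputable abbrev cc (K : Type*) [Field K] : K →+* HahnSeries ℤ K := HahnSeries.C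

theorem lin_coeff (n : ℤ) : Lin (cc K) (HahnSeries.coeff.addMonoidHom n) := by
  intro a c
  simp

theorem coeff_scale {L : Type*} [CommRing L] (t : L) (w : σ → ℕ) (F : MvPolynomial σ L)
    (α : σ →₀ ℕ) :
    coeff α (aeval (fun k => C (t ^ w k) * X k) F) = t ^ Finsupp.weight w α * coeff α F := by
  classical
  induction F using MvPolynomial.induction_on' with
  | monomial β c =>
    have : aeval (fun k => C (t ^ w k) * X k) (monomial β c) =
        (monomial β (t ^ Finsupp.weight w β * c) : MvPolynomial σ L) := by
      rw [aeval_monomial, monomial_eq, Finsupp.weight_apply, Finsupp.prod, Finsupp.prod,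
        Finsupp.sum, ← Finset.prod_pow_eq_pow_sum, C_mul, map_prod, algebraMap_eq, mul_comm _ (C c),
        mul_assoc, ← Finset.prod_mul_distrib]
      congr 1
      refine Finset.prod_congr rfl fun k _ => ?_
      rw [mul_pow, ← map_pow, ← pow_mul, smul_eq_mul, mul_comm (w k)]
    rw [this, coeff_monomial, coeff_monomial]
    split_ifs with h
    · rw [h]
    · simp
  | add F G hF hG => rw [map_add, coeff_add, coeff_add, hF, hG, mul_add]

theorem degen (w : σ → ℕ) (F : MvPolynomial σ (HahnSeries ℤ K)) (hF : F ≠ 0) :
    ∃ g : MvPolynomial σ K, g ≠ 0 ∧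
      (∀ (q : σ → K) (n : ℤ), Van (fun k => tt K ^ w k * cc K (q k)) n F → Van q n g) ∧
      ∀ α ∈ g.support, ∃ l : HahnSeries ℤ K →+ K, Lin (cc K) l ∧ α ∈ (lam l F).support ∧
        ∀ β ∈ (lam l F).support, Finsupp.weight w α ≤ Finsupp.weight w β := by
  obtain ⟨α0, hα0, hmin⟩ := Finset.exists_min_image F.support
    (fun α => (coeff α F).order + (Finsupp.weight w α : ℤ)) (support_nonempty.2 hF)
  set N := (coeff α0 F).order + (Finsupp.weight w α0 : ℤ) with hN
  let F' := aeval (fun k => C (tt K ^ w k) * X k) F
  have hc : ∀ α, coeff α (lam (HahnSeries.coeff.addMonoidHom N) F') =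
      (coeff α F).coeff (N - Finsupp.weight w α) := by
    intro α
    rw [coeff_lam, coeff_scale, tt, HahnSeries.single_pow]
    simp [HahnSeries.coeff_single_mul]
  refine ⟨lam (HahnSeries.coeff.addMonoidHom N) F', ?_, ?_, ?_⟩
  · intro h0
    have := hc α0
    rw [h0, hN, add_sub_cancel_right, coeff_zero] at this
    exact mem_support_iff.1 hα0 (HahnSeries.coeff_order_eq_zero.1 this.symm)
  · intro q n h
    apply van_lam (lin_coeff N)
    apply Van.comp
    simpa using h
  · intro α hα
    refine ⟨HahnSeries.coeff.addMonoidHom (N - Finsupp.weight w α), lin_coeff _, ?_, ?_⟩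
    · rw [mem_support_iff, coeff_lam]
      rw [mem_support_iff, hc] at hα
      exact hα
    · intro β hβ
      have h1 := hmin β (support_lam _ _ hβ)
      rw [mem_support_iff, coeff_lam] at hβ
      have h2 : (coeff β F).order ≤ N - Finsupp.weight w α :=
        HahnSeries.order_le_of_coeff_ne_zero hβ
      omega

end degen

end Pool.Agent.P.MP_d3e5c7_ag.Nag
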