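import Pool.Agent.P.MP_d3e5c7_ag.NagM

/-! Symmetrisation, and passage to algebraically independent points. -/

set_option autoImplicit false

namespace Pool.Agent.P.MP_d3e5c7_ag.Nag

open MvPolynomial

theorem van_prod {σ κ L : Type*} [CommRing L] (s : Finset κ) {p : σ → L} {n : κ → ℤ}
    {f : κ → MvPolynomial σ L} (h : ∀ c ∈ s, Van p (n c) (f c)) :
    Van p (∑ c ∈ s, n c) (∏ c ∈ s, f c) := by
  classical
  induction s using Finset.induction_on with
  | empty => exact van_of_nonpos _ (by simp)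
  | insert a s ha ih =>
    rw [Finset.sum_insert ha, Finset.prod_insert ha]
    exact (h a (by simp)).mul (ih fun c hc => h c (by simp [hc]))

variable {K : Type*} [Field K] [Infinite K]

theorem uniform {s d m : ℕ} (hs : 10 ≤ s) (hm : 0 < m) (hr : d ^ 2 ≤ s * m ^ 2) :
    ¬ ∀ p : Fin s → Fin 2 → HahnSeries ℤ (HahnSeries ℤ K),
      ∃ f : MvPolynomial (Fin 2) (HahnSeries ℤ (HahnSeries ℤ K)),
        f ≠ 0 ∧ f.totalDegree ≤ d ∧ ∀ i, Van (p i) m f := by
  intro h
  obtain ⟨r, rfl⟩ := Nat.exists_eq_add_of_le (show 9 ≤ s by omega)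
  rcases lt_or_ge (3 * m) d with hd | hd
  · refine core (K := K) (ι := Fin r) hm hd (by simpa using hr) fun p => ?_
    obtain ⟨f, h1, h2, h3⟩ := h (fun i => p (finSumFinEquiv.symm i))
    exact ⟨f, h1, h2, fun i => by simpa using h3 (finSumFinEquiv i)⟩
  · refine core (K := K) (ι := Fin r) (d := 21 * m + 1) (m := 7 * m) (by omega) (by omega)
      (by rw [Fintype.card_fin]; nlinarith) fun p => ?_
    obtain ⟨f, h1, h2, h3⟩ := h (fun i => p (finSumFinEquiv.symm i))
    refine ⟨f ^ 7, pow_ne_zero _ h1, (totalDegree_pow _ _).trans (by omega), fun i => ?_⟩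
    have := van_prod (Finset.univ : Finset (Fin 7)) (n := fun _ => (m : ℤ)) (f := fun _ => f)
      (fun _ _ => h3 (finSumFinEquiv i))
    simpa using this

theorem nonuniform {s d : ℕ} {m : Fin s → ℕ} (hs : 10 ≤ s) (hm : 0 < ∑ i, m i)
    (hr : s * d ^ 2 ≤ (∑ i, m i) ^ 2) :
    ¬ ∀ p : Fin s → Fin 2 → HahnSeries ℤ (HahnSeries ℤ K),
      ∃ f : MvPolynomial (Fin 2) (HahnSeries ℤ (HahnSeries ℤ K)),
        f ≠ 0 ∧ f.totalDegree ≤ d ∧ ∀ i, Van (p i) (m i) f := by
  intro h
  have : NeZero s := ⟨by omega⟩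
  refine uniform (K := K) (d := s * d) hs hm (by nlinarith) fun p => ?_
  choose f h1 h2 h3 using fun c : Fin s => h (fun i => p (i + c))
  refine ⟨∏ c, f c, Finset.prod_ne_zero_iff.2 fun c _ => h1 c,
    (totalDegree_finsetProd _ _).trans ?_, fun i => ?_⟩
  · exact (Finset.sum_le_sum fun c _ => h2 c).trans (by simp)
  · have := van_prod (Finset.univ : Finset (Fin s)) (p := p i) (n := fun c => (m (i - c) : ℤ))
      (f := f) (fun c _ => by simpa using h3 c (i - c))
    convert this using 1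
    push_cast
    exact ((Equiv.subLeft i).sum_comp (fun c => (m c : ℤ))).symm

omit [Infinite K] in
/-- Nagata's inequality at points whose coordinates are algebraically independent over a subfield -/
theorem nagata {k : Type*} [Field k] [Algebra k K] {s d : ℕ} (hs : 10 ≤ s) (hd : 0 < d)
    (p : Fin s → Fin 2 → K) (hp : AlgebraicIndependent k (fun ij : Fin s × Fin 2 => p ij.1 ij.2))
    (m : Fin s → ℕ) {f : MvPolynomial (Fin 2) K} (hf0 : f ≠ 0) (hfd : f.totalDegree ≤ d)
    (hf : ∀ i, Van (p i) (m i) f) : (∑ i, m i) ^ 2 < s * d ^ 2 := by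
  classical
  by_contra hc
  rcases Nat.eq_zero_or_pos (∑ i, m i) with h0 | h0
  · apply hc
    rw [h0]
    have : 0 < s := by omega
    positivity
  refine nonuniform (K := AlgebraicClosure k) hs h0 (not_lt.1 hc) fun q => ?_
  let S := (Finsupp.finite_of_degree_le (σ := Fin 2) d).toFinset
  obtain ⟨g, hg0, hgS, hg⟩ := special
    (aeval (fun ij : Fin s × Fin 2 => p ij.1 ij.2) : _ →ₐ[k] K).toRingHom hp
    (eval₂Hom ((cc _).comp ((cc _).comp (algebraMap k (AlgebraicClosure k))))
      (fun ij : Fin s × Fin 2 => q ij.1 ij.2)) S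
    (fun i j => X (i, j)) (fun i => m i) ⟨f, hf0, by
      intro α hα
      have : α.degree ≤ f.totalDegree := le_totalDegree hα
      simp only [S, Set.Finite.mem_toFinset, Set.mem_ofPred_eq]
      omega, by simpa using hf⟩
  refine ⟨g, hg0, Finset.sup_le fun α hα => ?_, by simpa using hg⟩
  have := hgS hα
  simp only [S, Set.Finite.mem_toFinset, Set.mem_ofPred_eq] at this
  exact this

end Pool.Agent.P.MP_d3e5c7_ag.Nag
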