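import Pool.Agent.P.MP_d3e5c7_ag.NagA

/-! The three degenerations and the final count. -/

set_option autoImplicit false

namespace Pool.Agent.P.MP_d3e5c7_ag.Nag

open MvPolynomial

/-- the half-open triangle with base `3 d`, height `d / 3` and left slope `A / m` -/
def RR (d m A k j : ℤ) : Prop :=
  9 * j ≤ 3 * d ∧ -(9 * m * k) ≤ (3 * d - 9 * j) * A ∧
    (9 * m * k < (3 * d - 9 * j) * (9 * m - A) ∨ (3 * d = 9 * j ∧ k ≤ 0))

theorem RR.mono {d m A k j j' : ℤ} (hA : 0 < A) (hm : A ≤ m) (h : RR d m A k j) (hj : j' ≤ j) :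
    RR d m A k j' := by
  obtain ⟨h1, h2, h3⟩ := h
  refine ⟨by omega, by nlinarith, ?_⟩
  rcases h3 with h3 | ⟨h3, h4⟩
  · left; nlinarith
  · rcases hj.eq_or_lt with rfl | h5
    · exact Or.inr ⟨h3, h4⟩
    · left
      have : 0 < (3 * d - 9 * j') * (9 * m - A) := mul_pos (by omega) (by omega)
      nlinarith

theorem RR.bound {d m A k j : ℤ} (hA : 0 < A) (hm : A ≤ m) (h : RR d m A k j) (hj : 0 ≤ j) :
    -(3 * d) ≤ k ∧ k ≤ 3 * d := by
  obtain ⟨h1, h2, h3⟩ := h
  constructor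
  · by_contra h4
    nlinarith
  · rcases h3 with h3 | ⟨h3, h4⟩
    · by_contra h4
      nlinarith
    · omega

theorem arith0 {n m A a b u v : ℤ} (hA : 0 < A) (hm : A ≤ m) (hu : 0 ≤ u) (hv : 0 ≤ v)
    (ha : 0 ≤ a) (hb : 0 ≤ b) (hn : u + v ≤ n) (h1 : A * a + (9 * m - A) * b ≤ A * u)
    (h2 : A * a + (9 * m - A) * b ≤ (9 * m - A) * v)
    (h3 : 0 < a → A * a + (9 * m - A) * b < (9 * m - A) * v) (c : ℤ) (hc : c = min a b) :
    9 * c ≤ n ∧ -(9 * m * (a - b)) ≤ (n - 9 * c) * A ∧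
      (9 * m * (a - b) < (n - 9 * c) * (9 * m - A) ∨ (n = 9 * c ∧ a - b ≤ 0)) := by
  set B := 9 * m - A with hB
  have hB0 : 0 < B := by omega
  have hAB : A * B ≤ 8 * m ^ 2 := by nlinarith
  have hAB0 : 0 < A * B := mul_pos hA hB0
  have hm0 : 0 < m := by omega
  set S := A * a + B * b with hS
  have e1 : 9 * m * S ≤ A * B * n := by
    have := mul_le_mul_of_nonneg_left h1 hB0.le
    have := mul_le_mul_of_nonneg_left h2 hA.le
    have := mul_le_mul_of_nonneg_left hn hAB0.le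
    nlinarith
  have e2 : 0 < a → 9 * m * S < A * B * n := fun h => by
    have := mul_le_mul_of_nonneg_left h1 hB0.le
    have := mul_lt_mul_of_pos_left (h3 h) hA
    have := mul_le_mul_of_nonneg_left hn hAB0.le
    nlinarith
  rcases le_or_gt b a with hab | hab
  · rw [min_eq_right hab] at hc
    subst hc
    have e3 : 81 * m ^ 2 * c ≤ 9 * m * S := by
      have : 0 ≤ 9 * m * (A * (a - c)) := by positivity
      nlinarith
    have e4 : 9 * c ≤ n := by
      by_contra h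
      have : A * B * n ≤ 8 * m ^ 2 * n := mul_le_mul_of_nonneg_right hAB (by omega)
      have h5 : 8 * m ^ 2 * n ≤ 8 * m ^ 2 * (9 * c) :=
        mul_le_mul_of_nonneg_left (by omega) (by positivity)
      have h6 : 0 < m ^ 2 * c := mul_pos (by positivity) (by omega)
      nlinarith
    refine ⟨e4, ?_, ?_⟩
    · have : 0 ≤ (n - 9 * c) * A := mul_nonneg (by omega) hA.le
      have : 0 ≤ 9 * m * (a - c) := mul_nonneg (by omega) (by omega)
      omega
    · rcases ha.eq_or_lt with h | h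
      · have hc0 : c = 0 := by omega
        subst hc0
        rcases (show 0 ≤ n by omega).eq_or_lt with h7 | h7
        · right; omega
        · left
          have := mul_pos h7 hB0
          rw [← h]; simpa using this
      · left
        apply lt_of_mul_lt_mul_left _ hA.le
        have h5 := e2 h
        have h6 : A * B * c ≤ 8 * m ^ 2 * c := mul_le_mul_of_nonneg_right hAB hb
        have h7 : 0 ≤ m ^ 2 * c := by positivity
        nlinarith
  · rw [min_eq_left hab.le] at hc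
    subst hc
    have e3 : -(9 * m * (c - b)) ≤ (n - 9 * c) * A := by
      apply le_of_mul_le_mul_left _ hB0
      have h6 : A * B * c ≤ 8 * m ^ 2 * c := mul_le_mul_of_nonneg_right hAB ha
      have h7 : 0 ≤ m ^ 2 * c := by positivity
      nlinarith
    have e4 : 0 < 9 * m * (b - c) := mul_pos (by omega) (by omega)
    have e5 : 0 < n - 9 * c := by
      by_contra h
      have : (n - 9 * c) * A ≤ 0 := mul_nonpos_of_nonpos_of_nonneg (by omega) hA.le
      nlinarith
    refine ⟨by omega, e3, Or.inl ?_⟩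
    have := mul_pos e5 hB0
    nlinarith

theorem arith1 {d m A L j a b u v : ℤ} (hA : 0 < A) (hm : A ≤ m) (hL : 3 * d < L) (hj : 0 ≤ j)
    (hu : 0 ≤ u) (hv : 0 ≤ v) (ha : j ≤ a) (hb : j ≤ b) (hn : u + v + 9 * j ≤ 3 * d)
    (h1 : a * (A * L + 1) + b * ((9 * m - A) * L) ≤
      (j + u) * (A * L + 1) + j * ((9 * m - A) * L))
    (h2 : a * (A * L + 1) + b * ((9 * m - A) * L) ≤
      j * (A * L + 1) + (j + v) * ((9 * m - A) * L)) :
    RR d m A (a - b) (min a b) := by
  obtain ⟨a, rfl⟩ : ∃ a', a = j + a' := ⟨a - j, by ring⟩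
  obtain ⟨b, rfl⟩ : ∃ b', b = j + b' := ⟨b - j, by ring⟩
  have hL0 : 0 < L := by omega
  have := arith0 (n := 3 * d - 9 * j) (a := a) (b := b) hA hm hu hv (by omega) (by omega)
    (by omega) (by
      by_contra h
      have : L * (A * u + 1) ≤ L * (A * a + (9 * m - A) * b) :=
        mul_le_mul_of_nonneg_left (by omega) hL0.le
      nlinarith) (by
      apply le_of_mul_le_mul_left _ hL0
      nlinarith) (fun h => by
      apply lt_of_mul_lt_mul_left _ hL0.le
      nlinarith) _ rfl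
  rw [min_add_add_left, RR]
  obtain ⟨h3, h4, h5⟩ := this
  refine ⟨by omega, by convert h4 using 2 <;> ring, ?_⟩
  rcases h5 with h5 | h5
  · left; convert h5 using 2 <;> ring
  · right; omega

/-- the quadrilateral left after nine points on the base -/
def UU (d m A k j : ℤ) : Prop :=
  RR d m A k j ∧ ∃ k2, k + 9 * (m - j) ≤ k2 ∧ RR d m A k2 j

theorem arith3 {d m A p r j c1 c2 b0 b1 b2 e : ℤ} (hA : 0 < A) (hm : A ≤ m) (hd : 3 * m < d)
    (hp : p * m = A + 3 * d - 9 * m) (hr : d ^ 2 ≤ (9 + r) * m ^ 2)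
    (hb : b0 + j ≤ b1) (hb2 : j ≤ b2) (he : m - j ≤ e) (he0 : 0 ≤ e)
    (hc : c1 + r * e ≤ c2) (h0 : UU d m A (c1 + p * b0) b0) (h1 : UU d m A (c1 + p * b1) b1)
    (h2 : UU d m A (c2 + p * b2) b2) : False := by
  have hm0 : 0 < m := by omega
  obtain ⟨x, hx⟩ : ∃ x, x = 3 * d - 9 * m := ⟨_, rfl⟩
  have hx0 : 0 < x := by omega
  obtain ⟨C1, hC1⟩ : ∃ C1, C1 = 9 * m * c1 + 3 * d * A := ⟨_, rfl⟩
  obtain ⟨C2, hC2⟩ : ∃ C2, C2 = 9 * m * c2 + 3 * d * A := ⟨_, rfl⟩
  have hp' : ∀ b, 9 * m * (p * b) = 9 * b * (A + x) := fun b => by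
    rw [hx]; linear_combination 9 * b * hp
  have e1 : -(9 * b0 * x) ≤ C1 := by
    have := h0.1.2.1
    have := hp' b0
    nlinarith
  have e2 : C1 ≤ 27 * d * m - 81 * m * b1 - 9 * b1 * x := by
    have h3 := hp' b1
    rcases h1.1.2.2 with h | ⟨h, h'⟩
    · nlinarith
    · have : 9 * m * (c1 + p * b1) ≤ 0 := mul_nonpos_of_nonneg_of_nonpos (by omega) h'
      have h4 : 3 * d * A = 9 * b1 * A := by rw [h]
      have h5 : 27 * d * m = 81 * m * b1 := by linear_combination 9 * m * h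
      nlinarith
  have e3 : C2 < 9 * m * x - 9 * b2 * x := by
    have h3 := hp' b2
    obtain ⟨h4, k2, h5, h6⟩ := h2
    rcases h6.2.2 with h | ⟨h, h'⟩
    · have : 9 * m * (c2 + p * b2 + 9 * (m - b2)) ≤ 9 * m * k2 :=
        mul_le_mul_of_nonneg_left h5 (by omega)
      nlinarith
    · rcases h4.2.2 with h7 | ⟨-, h7⟩
      · have h8 : 3 * d - 9 * b2 = 0 := by omega
        rw [h8] at h7
        have h4 : 3 * d * A = 9 * b2 * A := by rw [h]
        have := mul_pos hm0 hx0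
        nlinarith
      · have : 9 * m * (c2 + p * b2) ≤ 0 := mul_nonpos_of_nonneg_of_nonpos (by omega) h7
        have h4 : 3 * d * A = 9 * b2 * A := by rw [h]
        have := mul_pos hm0 hx0
        nlinarith
  have e4 : C2 < 9 * x * (m - j) := by
    have : j * x ≤ b2 * x := mul_le_mul_of_nonneg_right hb2 hx0.le
    nlinarith
  have e5 : 81 * m * b0 ≤ 27 * d * m - (81 * m + 9 * x) * j := by
    have : (81 * m + 9 * x) * (b0 + j) ≤ (81 * m + 9 * x) * b1 :=
      mul_le_mul_of_nonneg_left hb (by omega)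
    nlinarith
  have e6 : -(x * (27 * d * m - (81 * m + 9 * x) * j)) ≤ 9 * m * C1 := by
    have := mul_le_mul_of_nonneg_left e5 hx0.le
    have := mul_le_mul_of_nonneg_left e1 (show 0 ≤ 9 * m by omega)
    nlinarith
  have e7 : 9 * m * C2 < 9 * m * (9 * x * (m - j)) := mul_lt_mul_of_pos_left e4 (by omega)
  have e8 : 9 * m * (C2 - C1) < 81 * (d ^ 2 - 9 * m ^ 2) * (m - j) := by
    have : 9 * m * (9 * x * (m - j)) + x * (27 * d * m - (81 * m + 9 * x) * j) =
        81 * (d ^ 2 - 9 * m ^ 2) * (m - j) := by rw [hx]; ring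
    linarith
  have e9 : 81 * m ^ 2 * (r * e) ≤ 9 * m * (C2 - C1) := by
    have : 81 * m ^ 2 * (r * e) ≤ 81 * m ^ 2 * (c2 - c1) :=
      mul_le_mul_of_nonneg_left (by omega) (by positivity)
    rw [hC1, hC2]; nlinarith
  have e10 : 0 ≤ d ^ 2 - 9 * m ^ 2 := by nlinarith
  have e11 : (d ^ 2 - 9 * m ^ 2) * (m - j) ≤ (d ^ 2 - 9 * m ^ 2) * e :=
    mul_le_mul_of_nonneg_left he e10
  have e12 : (d ^ 2 - 9 * m ^ 2) * e ≤ (r * m ^ 2) * e :=
    mul_le_mul_of_nonneg_right (by linarith) he0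
  nlinarith

variable {K : Type*} [Field K] {ι : Type*}

theorem step1 {d m A : ℕ} (hA : 0 < A) (hm : A ≤ m) (n : ι → ℤ)
    (h : ∀ p : ι → Fin 2 → HahnSeries ℤ K, ∃ f : MvPolynomial (Fin 2) (HahnSeries ℤ K),
      f ≠ 0 ∧ f.totalDegree ≤ d ∧ ∀ i, Van (p i) (n i) f) (q : ι → Fin 2 → K) :
    ∃ g : MvPolynomial (Fin 2) K, g ≠ 0 ∧
      (∀ α ∈ g.support, RR d m A ((α 0 : ℤ) - α 1) (min (α 0) (α 1))) ∧ ∀ i, Van (q i) (n i) g := by
  let w : Fin 2 → ℕ := ![A * (3 * d + 1) + 1, (9 * m - A) * (3 * d + 1)]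
  obtain ⟨f, hf0, hfd, hf⟩ :=
    h (fun i k => eval (fun k => tt K ^ w k * cc K (q i k)) (phi _ k))
  have hF : aeval (phi (HahnSeries ℤ K)) f ≠ 0 := by
    obtain ⟨j, u, v, -, -, h1, -⟩ := node hf0
    exact support_nonempty.1 ⟨_, h1⟩
  obtain ⟨g, hg0, hg, hs⟩ := degen w _ hF
  refine ⟨g, hg0, fun α hα => ?_, fun i => hg _ _ (Van.comp _ _ (hf i))⟩
  obtain ⟨l, hl, h1, h2⟩ := hs α hα
  have e : lam l (aeval (phi (HahnSeries ℤ K)) f) = aeval (phi K) (lam l f) := by
    rw [← lam_aeval hl]; simp only [map_phi]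
  rw [e] at h1 h2
  have h3 : lam l f ≠ 0 := by
    intro h0; simp [h0] at h1
  have h4 : (lam l f).totalDegree ≤ d :=
    le_trans (Finset.sup_mono (f := fun s : Fin 2 →₀ ℕ => s.sum fun _ e => e)
      (support_lam l f)) hfd
  obtain ⟨j, u, v, h5, h6, h7, h8⟩ := node h3
  have h9 := h2 _ h7
  have h10 := h2 _ h8
  have h11 := h6 _ h1
  simp only [weight2, ex_zero, ex_one, w, Matrix.cons_val_zero, Matrix.cons_val_one] at h9 h10
  zify [show A ≤ 9 * m by omega] at h9 h10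
  exact arith1 (L := 3 * d + 1) (j := j) (u := u) (v := v) (by omega) (by omega) (by omega)
    (by omega) (by omega) (by omega) (by omega) (by omega) (by omega) h9 h10

theorem van_sh {x y : K} {n : ℤ} {g : MvPolynomial (Fin 2) K} (h : Van ![x, 1 + y] n g) :
    Van ![x, y] n (sh ![0, 1] g) := by
  apply Van.comp
  convert h using 2 with k
  fin_cases k <;> simp [add_comm]

theorem sh_ne_zero {p : Fin 2 → K} {g : MvPolynomial (Fin 2) K} (h : g ≠ 0) : sh p g ≠ 0 :=
  fun h0 => h (sh_injective p (by simpa using h0))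

theorem step2 {d m A : ℕ} (hA : 0 < A) (hm : A ≤ m) (n : ι → ℤ) (x : Fin 9 → K)
    (hx : Function.Injective x) (hx0 : ∀ i, x i ≠ 0)
    (h : ∀ q : Fin 9 ⊕ ι → Fin 2 → HahnSeries ℤ K, ∃ g : MvPolynomial (Fin 2) (HahnSeries ℤ K),
      g ≠ 0 ∧ (∀ α ∈ g.support, RR d m A ((α 0 : ℤ) - α 1) (min (α 0) (α 1))) ∧
        ∀ i, Van (q i) (Sum.elim (fun _ => (m : ℤ)) n i) g)
    (q : ι → Fin 2 → K) (hq : ∀ i, q i 0 ≠ 0) :
    ∃ g : MvPolynomial (Fin 2) K, g ≠ 0 ∧
      (∀ α ∈ g.support, UU d m A ((α 0 : ℤ) - 3 * d) (α 1)) ∧ ∀ i, Van (q i) (n i) g := by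
  have hA' : (0 : ℤ) < A := by omega
  have hm' : (A : ℤ) ≤ m := by omega
  let w : Fin 2 → ℕ := ![1, 6 * d + 1]
  obtain ⟨g0, h0, hs0, hv0⟩ := h (Sum.elim (fun i => ![cc K (x i), (cc K (x i))⁻¹])
    (fun i => ![tt K ^ w 0 * cc K (q i 0),
      (tt K ^ w 0 * cc K (q i 0))⁻¹ * (1 + tt K ^ w 1 * cc K (q i 1))]))
  obtain ⟨g1, h1, hs1, hv1⟩ := relabel 1 (3 * d) g0 h0 (fun α hα => by
    have := (hs0 α hα).bound hA' hm' (by omega)
    omega)
  obtain ⟨g, hg0, hg, hs⟩ := degen w _ (sh_ne_zero (p := ![0, 1]) h1)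
  refine ⟨g, hg0, fun α hα => ?_, fun i => hg _ _ ?_⟩
  · obtain ⟨l, hl, h2, h3⟩ := hs α hα
    have e : lam l (sh ![0, 1] g1) = sh ![0, 1] (lam l g1) := by
      rw [← lam_sh hl]
      congr 3
      ext k : 1
      fin_cases k <;> simp
    obtain ⟨j, K1, K2, h4, h5, h6, h7⟩ := row_bound x hx hx0 (support_nonempty.1 ⟨_, h2⟩)
      (fun _ => m) (fun i => by
        apply van_lam hl
        have h8 : cc K (x i) ≠ 0 := by simpa using hx0 i
        have h9 := hv1 _ _ _ h8 (hv0 (Sum.inl i))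
        rw [pow_one, mul_inv_cancel₀ h8, ← add_zero (1 : HahnSeries ℤ K)] at h9
        have h10 : (fun k => cc K (![x i, 0] k)) = ![cc K (x i), 0] := by
          ext k : 1
          fin_cases k <;> simp
        rw [h10]
        exact van_sh h9)
    have hR : ∀ a : ℕ, ex a j ∈ (lam l (sh ![0, 1] g1)).support →
        RR d m A ((a : ℤ) - 3 * d) j := by
      intro a ha
      rw [e] at ha h7
      obtain ⟨b0, b1, h8, h9, h10⟩ := chord ha (fun β hβ => (h7 β hβ).1)
      obtain ⟨β0, -, h11, h12⟩ := hs1 _ (support_lam _ _ h9)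
      obtain ⟨β1, h13, h14, h15⟩ := hs1 _ (support_lam _ _ h10)
      simp only [ex_zero, ex_one] at h11 h12 h14 h15
      have := (hs0 β1 h13).mono (j' := j) hA' hm' (by omega)
      convert this using 1
      omega
    have h8 := hR _ h5
    have h9 := hR _ h6
    have h10 := h8.bound hA' hm' (by omega)
    have h11 := h3 _ h5
    have h12 := h7 _ h2
    simp only [weight2, ex_zero, ex_one, w, Matrix.cons_val_zero, Matrix.cons_val_one] at h11
    have h13 : α 1 = j := by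
      by_contra h14
      have : (j + 1) * (6 * d + 1) ≤ α 1 * (6 * d + 1) := Nat.mul_le_mul_right _ (by omega)
      have : K1 ≤ 6 * d := by omega
      nlinarith
    have h14 : α 0 = K1 := by
      rw [h13] at h11
      have := h12.2 h13
      omega
    rw [h13, h14]
    refine ⟨h8, _, ?_, h9⟩
    simp only [Finset.sum_const, Finset.card_univ, Fintype.card_fin, smul_eq_mul] at h4
    omega
  · have h8 : tt K ^ w 0 * cc K (q i 0) ≠ 0 :=
      mul_ne_zero (pow_ne_zero _ tt_ne_zero) (by simpa using hq i)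
    have h9 := hv1 _ _ _ h8 (hv0 (Sum.inr i))
    rw [pow_one, mul_inv_cancel_left₀ h8] at h9
    have h10 : (fun k => tt K ^ w k * cc K (q i k)) =
        ![tt K ^ w 0 * cc K (q i 0), tt K ^ w 1 * cc K (q i 1)] := by
      ext k : 1
      fin_cases k <;> rfl
    rw [h10]
    exact van_sh h9

theorem step3 {d m A p : ℕ} [Fintype ι] (hA : 0 < A) (hm : A ≤ m) (hd : 3 * m < d)
    (hp : p * m + 9 * m = A + 3 * d) (hr : d ^ 2 ≤ (9 + Fintype.card ι) * m ^ 2) (y : ι → K)
    (hy : Function.Injective y) (hy0 : ∀ i, y i ≠ 0) {g : MvPolynomial (Fin 2) K} (hg : g ≠ 0)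
    (hs : ∀ α ∈ g.support, UU d m A ((α 0 : ℤ) - 3 * d) (α 1))
    (hv : ∀ i, Van ![y i, (y i ^ p)⁻¹] m g) : False := by
  obtain ⟨g1, h1, hs1, hv1⟩ := relabel p (p * d) g hg (fun α hα => by
    have := (hs α hα).1.1
    have : p * α 1 ≤ p * d := Nat.mul_le_mul_left _ (by omega)
    omega)
  obtain ⟨j, K1, K2, h4, h5, h6, h7⟩ := row_bound y hy hy0 (sh_ne_zero (p := ![0, 1]) h1)
    (fun _ => m) (fun i => by
      have h9 := hv1 _ _ _ (hy0 i) (hv i)
      rw [mul_inv_cancel₀ (pow_ne_zero _ (hy0 i)), ← add_zero (1 : K)] at h9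
      exact van_sh h9)
  have hU : ∀ a b : ℕ, ex a b ∈ g1.support →
      UU d m A (((a : ℤ) - p * d - 3 * d) + p * b) b := by
    intro a b hab
    obtain ⟨β, h8, h9, h10⟩ := hs1 _ hab
    simp only [ex_zero, ex_one] at h9 h10
    have := hs β h8
    rw [← h10] at this h9
    convert this using 1
    zify at h9
    linarith
  obtain ⟨b0, b1, h8, h9, h10⟩ := chord h5 (fun β hβ => (h7 β hβ).1)
  obtain ⟨b2, b3, h11, -, h13⟩ := chord h6 (fun β hβ => (h7 β hβ).1)
  simp only [Finset.sum_const, Finset.card_univ, smul_eq_mul] at h4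
  refine arith3 (j := j) (r := Fintype.card ι) (e := (m - j : ℕ)) (by omega) (by omega) (by omega)
    (by zify at hp; linarith) (by exact_mod_cast hr) (by omega) (by omega) (by omega) (by omega)
    ?_ (hU _ _ h9) (hU _ _ h10) (hU _ _ h13)
  zify at h4
  linarith

theorem core [Infinite K] [Fintype ι] {d m : ℕ} (hm : 0 < m) (hd : 3 * m < d)
    (hr : d ^ 2 ≤ (9 + Fintype.card ι) * m ^ 2) :
    ¬ ∀ p : Fin 9 ⊕ ι → Fin 2 → HahnSeries ℤ (HahnSeries ℤ K),
      ∃ f : MvPolynomial (Fin 2) (HahnSeries ℤ (HahnSeries ℤ K)),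
        f ≠ 0 ∧ f.totalDegree ≤ d ∧ ∀ i, Van (p i) m f := by
  classical
  intro h
  obtain ⟨z, hz, hz0⟩ : ∃ z : ℕ → K, Function.Injective z ∧ ∀ n, z n ≠ 0 := by
    have : Infinite {a : K // a ≠ 0} := (Set.finite_singleton (0 : K)).infinite_compl.to_subtype
    let e := Infinite.natEmbedding {a : K // a ≠ 0}
    exact ⟨fun n => e n, Subtype.val_injective.comp e.injective, fun n => (e n).2⟩
  set p := (3 * d - 9 * m) / m + 1 with hp
  have h1 := Nat.div_add_mod (3 * d - 9 * m) m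
  have h2 := Nat.mod_lt (3 * d - 9 * m) hm
  set A := m - (3 * d - 9 * m) % m with hA
  let y : ι → K := fun i => z (Fintype.equivFin ι i)
  obtain ⟨g, hg, hs, hv⟩ := step2 (d := d) (m := m) (A := A) (by omega) (by omega)
    (fun _ : ι => (m : ℤ)) (fun i : Fin 9 => z i) (hz.comp Fin.val_injective) (fun i => hz0 _)
    (step1 (by omega) (by omega) _ (fun p => by
      obtain ⟨f, h3, h4, h5⟩ := h p
      exact ⟨f, h3, h4, fun i => by cases i <;> exact h5 _⟩))
    (fun i => ![y i, (y i ^ p)⁻¹]) (fun i => hz0 _)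
  refine step3 (A := A) (p := p) (by omega) (by omega) hd ?_ hr y
    (hz.comp (Fin.val_injective.comp (Fintype.equivFin ι).injective)) (fun i => hz0 _) hg hs hv
  rw [hp, add_mul, mul_comm _ m]
  omega

end Pool.Agent.P.MP_d3e5c7_ag.Nag
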