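import Pool.Agent.P.MP_d3e5c7_ag.NagF

/-! A calculus of regions: the toric moves. -/

set_option autoImplicit false

namespace Pool.Agent.P.MP_d3e5c7_ag.Nu

open MvPolynomial Nag

section degen
variable {K : Type*} [Field K]

/-- the constants -/
noncomputable abbrev cr (K : Type*) [Field K] : K →+* HahnSeries ℝ K := HahnSeries.C

/-- real powers of the uniformiser -/
noncomputable def tr (K : Type*) [Field K] (w : ℝ) : HahnSeries ℝ K := HahnSeries.single w 1

theorem tr_zero : tr K 0 = 1 := rfl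

theorem char_hs [CharZero K] : CharZero (HahnSeries ℝ K) :=
  (RingHom.charZero_iff (cr K).injective).1 inferInstance

theorem lin_coeffR (n : ℝ) : Lin (cr K) (HahnSeries.coeff.addMonoidHom n) := by
  intro a c
  simp

/-- real weight of an exponent -/
def wt (w : Fin 2 → ℝ) (α : Fin 2 →₀ ℕ) : ℝ := α 0 * w 0 + α 1 * w 1

theorem coeff_scaleR (w : Fin 2 → ℝ) (F : MvPolynomial (Fin 2) (HahnSeries ℝ K))
    (α : Fin 2 →₀ ℕ) :
    coeff α (aeval (fun k => C (tr K (w k)) * X k) F) = tr K (wt w α) * coeff α F := by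
  classical
  induction F using MvPolynomial.induction_on' with
  | monomial β c =>
    have : aeval (fun k => C (tr K (w k)) * X k) (monomial β c) =
        (monomial β (tr K (wt w β) * c) : MvPolynomial (Fin 2) (HahnSeries ℝ K)) := by
      have e : tr K (wt w β) = tr K (w 0) ^ β 0 * tr K (w 1) ^ β 1 := by
        simp [tr, wt, HahnSeries.single_pow, HahnSeries.single_mul_single]
      rw [mono2, mono2, e]
      simp only [map_mul, map_pow, aeval_C, aeval_X, algebraMap_eq]
      ring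
    rw [this, coeff_monomial, coeff_monomial]
    split_ifs with h
    · rw [h]
    · simp
  | add F G hF hG => rw [map_add, coeff_add, coeff_add, hF, hG, mul_add]

theorem degenR (w : Fin 2 → ℝ) (F : MvPolynomial (Fin 2) (HahnSeries ℝ K)) (hF : F ≠ 0) :
    ∃ g : MvPolynomial (Fin 2) K, g ≠ 0 ∧
      (∀ (q : Fin 2 → K) (n : ℤ), Van (fun k => tr K (w k) * cr K (q k)) n F → Van q n g) ∧
      ∀ α ∈ g.support, (α ∈ F.support ∧
        ∀ β ∈ F.support, (coeff α F).order + wt w α ≤ (coeff β F).order + wt w β) ∧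
        ∃ l : HahnSeries ℝ K →+ K, Lin (cr K) l ∧ α ∈ (lam l F).support ∧
          ∀ β ∈ (lam l F).support, wt w α ≤ wt w β := by
  obtain ⟨α0, hα0, hmin⟩ := Finset.exists_min_image F.support
    (fun α => (coeff α F).order + wt w α) (support_nonempty.2 hF)
  set N := (coeff α0 F).order + wt w α0 with hN
  let F' := aeval (fun k => C (tr K (w k)) * X k) F
  have hc : ∀ α, coeff α (lam (HahnSeries.coeff.addMonoidHom N) F') =
      (coeff α F).coeff (N - wt w α) := by
    intro α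
    rw [coeff_lam, coeff_scaleR, tr]
    simp [HahnSeries.coeff_single_mul]
  refine ⟨lam (HahnSeries.coeff.addMonoidHom N) F', ?_, ?_, ?_⟩
  · intro h0
    have := hc α0
    rw [h0, hN, add_sub_cancel_right, coeff_zero] at this
    exact mem_support_iff.1 hα0 (HahnSeries.coeff_order_eq_zero.1 this.symm)
  · intro q n h
    apply van_lam (lin_coeffR N)
    apply Van.comp
    simpa using h
  · intro α hα
    rw [mem_support_iff, hc] at hα
    refine ⟨⟨mem_support_iff.2 fun h0 => by simp [h0] at hα, fun β hβ => ?_⟩,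
      HahnSeries.coeff.addMonoidHom (N - wt w α), lin_coeffR _, ?_, ?_⟩
    · have h1 := hmin β hβ
      have h2 : (coeff α F).order ≤ N - wt w α := HahnSeries.order_le_of_coeff_ne_zero hα
      linarith
    · rw [mem_support_iff, coeff_lam]
      exact hα
    · intro β hβ
      have h1 := hmin β (support_lam _ _ hβ)
      rw [mem_support_iff, coeff_lam] at hβ
      have h2 : (coeff β F).order ≤ N - wt w α := HahnSeries.order_le_of_coeff_ne_zero hβ
      linarith

end degen

variable {ι : Type} [Fintype ι] {n : ι → ℤ} {I J : Finset ι} {P Q : ℕ → ℕ → Prop}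

/-- the polynomial `f` has exponents in `P` and multiplicities `n` at the points of `I` -/
def Sol {K : Type} [Field K] (p : ι → Fin 2 → K) (n : ι → ℤ) (I : Finset ι) (P : ℕ → ℕ → Prop)
    (f : MvPolynomial (Fin 2) K) : Prop :=
  f ≠ 0 ∧ (∀ α ∈ f.support, P (α 0) (α 1)) ∧ ∀ i ∈ I, Van (p i) (n i) f

/-- there is a solution for all positions of the points -/
def Ex (n : ι → ℤ) (I : Finset ι) (P : ℕ → ℕ → Prop) : Prop :=
  ∀ (K : Type) [Field K] [CharZero K] (p : ι → Fin 2 → K), ∃ f, Sol p n I P f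

theorem Ex.of_gen {L : Type} [Field L] [CharZero L] {p : ι → Fin 2 → L}
    (hp : AlgebraicIndependent ℚ (fun ij : ι × Fin 2 => p ij.1 ij.2))
    {f : MvPolynomial (Fin 2) L} (hf : Sol p n I P f) : Ex n I P := by
  classical
  intro K _ _ q
  obtain ⟨g, hg0, hgS, hg⟩ := special
    (aeval (fun ij : ι × Fin 2 => p ij.1 ij.2) : _ →ₐ[ℚ] L).toRingHom hp
    (aeval (fun ij : ι × Fin 2 => q ij.1 ij.2) : _ →ₐ[ℚ] K).toRingHom f.support
    (fun i j => X (i, j)) (fun i => if i ∈ I then n i else 0) ⟨f, hf.1, subset_rfl, fun i => by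
      split_ifs with h
      · simpa using hf.2.2 i h
      · exact van_of_nonpos _ le_rfl⟩
  exact ⟨g, hg0, fun α hα => hf.2.1 α (hgS hα), fun i hi => by simpa [hi] using hg i⟩

theorem exists_gen (ι : Type) : ∃ (L : Type) (_ : Field L) (_ : CharZero L) (p : ι → Fin 2 → L),
    AlgebraicIndependent ℚ (fun ij : ι × Fin 2 => p ij.1 ij.2) := by
  let A := MvPolynomial (ι × Fin 2) ℚ
  refine ⟨FractionRing A, inferInstance, inferInstance, fun i k => algebraMap A _ (X (i, k)), ?_⟩
  exact (MvPolynomial.algebraicIndependent_X (ι × Fin 2) ℚ).map'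
    (f := (algebraMap A (FractionRing A)).toRatAlgHom) (IsFractionRing.injective _ _)

omit [Fintype ι] in
theorem Ex.mono (h : Ex n I P) (hP : ∀ x j, P x j → Q x j) : Ex n I Q := fun K _ _ p =>
  (h K p).imp fun _ hf => ⟨hf.1, fun α hα => hP _ _ (hf.2.1 α hα), hf.2.2⟩

omit [Fintype ι] in
theorem Ex.shake (h : Ex n I P) :
    Ex n I fun x j => ∃ b0 b1, b0 + j ≤ b1 ∧ P x b0 ∧ P x b1 := by
  intro K _ _ q
  have := char_hs (K := K)
  obtain ⟨f, h0, hs, hv⟩ := h (HahnSeries ℝ K)
    (fun i => ![tr K 0 * cr K (q i 0), 1 + tr K 1 * cr K (q i 1)])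
  obtain ⟨g, g0, gv, gs⟩ := degenR ![0, 1] _ (sh_ne_zero (p := ![0, 1]) h0)
  refine ⟨g, g0, fun α hα => ?_, fun i hi => gv _ _ ?_⟩
  · obtain ⟨-, l, hl, h2, h3⟩ := gs α hα
    have e : lam l (sh ![0, 1] f) = sh ![0, 1] (lam l f) := by
      rw [← lam_sh hl]
      congr 3
      ext k : 1
      fin_cases k <;> simp
    rw [e] at h2 h3
    obtain ⟨b0, b1, h8, h9, h10⟩ := chord (a := α 0) (j := α 1) (by rwa [ex_eta])
      (fun β hβ => by simpa [wt] using h3 β hβ)
    exact ⟨b0, b1, h8, by simpa using hs _ (support_lam _ _ h9),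
      by simpa using hs _ (support_lam _ _ h10)⟩
  · have h10 : (fun k => tr K (![0, 1] k) * cr K (q i k)) =
        ![tr K 0 * cr K (q i 0), tr K 1 * cr K (q i 1)] := by
      ext k : 1
      fin_cases k <;> rfl
    rw [h10]
    exact van_sh (hv i hi)

omit [Fintype ι] in
theorem Ex.mon (A B C' D : ℕ)
    (hi : ∀ a b c d, A * a + B * b = A * c + B * d → C' * a + D * b = C' * c + D * d →
      a = c ∧ b = d) (h : Ex n I P) :
    Ex n I fun x j => ∃ a b, P a b ∧ x = A * a + B * b ∧ j = C' * a + D * b := by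
  classical
  intro K _ _ q
  let s : Fin 2 → MvPolynomial (Fin 2) K := ![X 0 ^ A * X 1 ^ C', X 0 ^ B * X 1 ^ D]
  obtain ⟨f, h0, hs, hv⟩ := h K (fun i k => eval (q i) (s k))
  have key : aeval s f = ∑ α ∈ f.support,
      monomial (ex (A * α 0 + B * α 1) (C' * α 0 + D * α 1)) (coeff α f) := by
    conv_lhs => rw [f.as_sum, map_sum]
    refine Finset.sum_congr rfl fun α _ => ?_
    rw [mono2, mono2, ex_zero, ex_one]
    simp only [map_mul, map_pow, aeval_C, aeval_X, algebraMap_eq, s, Matrix.cons_val_zero,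
      Matrix.cons_val_one]
    ring
  refine ⟨aeval s f, fun e => ?_, fun β hβ => ?_, fun i hi => Van.comp _ _ (hv i hi)⟩
  · obtain ⟨α, hα⟩ := support_nonempty.2 h0
    have := congrArg (coeff (ex (A * α 0 + B * α 1) (C' * α 0 + D * α 1))) (key.symm.trans e)
    rw [coeff_sum, Finset.sum_eq_single α, coeff_monomial, if_pos rfl] at this
    · exact mem_support_iff.1 hα this
    · intro β _ hβ
      rw [coeff_monomial, if_neg]
      intro e'
      obtain ⟨h1, h2⟩ := hi _ _ _ _ (ex_inj.1 e').1 (ex_inj.1 e').2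
      exact hβ (by rw [← ex_eta β, ← ex_eta α, h1, h2])
    · exact fun h => absurd hα h
  · rw [key] at hβ
    obtain ⟨α, hα, h1⟩ := Finset.mem_biUnion.1 (support_sum hβ)
    have h2 := Finset.mem_singleton.1 (support_monomial_subset h1)
    exact ⟨α 0, α 1, hs α hα, by rw [h2, ex_zero], by rw [h2, ex_one]⟩

omit [Fintype ι] in
theorem Ex.swap (h : Ex n I P) : Ex n I fun x j => P j x :=
  (h.mon 0 1 1 0 (by omega)).mono fun x j ⟨a, b, h1, h2, h3⟩ => by
    obtain rfl : x = b := by omega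
    obtain rfl : j = a := by omega
    exact h1

omit [Fintype ι] in
theorem Ex.shakeH (h : Ex n I P) :
    Ex n I fun x j => ∃ c0 c1, c0 + x ≤ c1 ∧ P c0 j ∧ P c1 j :=
  h.swap.shake.swap

omit [Fintype ι] in
theorem Ex.shear (p : ℕ) (h : Ex n I P) : Ex n I fun x j => ∃ a, P a j ∧ x = a + p * j :=
  (h.mon 1 p 0 1 (fun a b c d h1 h2 => by
    obtain rfl : b = d := by omega
    omega)).mono fun x j ⟨a, b, h1, h2, h3⟩ => by
    obtain rfl : j = b := by omega
    exact ⟨a, h1, by omega⟩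

theorem Ex.unshear (M : ℕ) (hM : ∀ a b, P a b → b ≤ M + a) (h : Ex n I P) :
    Ex n I fun x j => ∃ a, P a j ∧ x + j = M + a := by
  obtain ⟨K, _, _, q, hq⟩ := exists_gen ι
  obtain ⟨f, h0, hs, hv⟩ := h K (fun i => ![q i 0, (q i 0)⁻¹ * q i 1])
  obtain ⟨g, g0, gs, gv⟩ := relabel 1 M f h0 fun α hα => by simpa using hM _ _ (hs α hα)
  refine Ex.of_gen hq (f := g) ⟨g0, fun β hβ => ?_, fun i hi => ?_⟩
  · obtain ⟨α, hα, h1, h2⟩ := gs β hβ
    exact ⟨α 0, h2 ▸ hs α hα, by omega⟩
  · have h1 : q i 0 ≠ 0 := hq.ne_zero (i, 0)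
    have h2 := gv _ _ _ h1 (hv i hi)
    rw [pow_one, mul_inv_cancel_left₀ h1] at h2
    convert h2 using 1
    ext k : 1
    fin_cases k <;> rfl

theorem Ex.cut [DecidableEq ι] (hIJ : Disjoint I J) (u v c : ℝ) (h : Ex n (I ∪ J) P) :
    (Ex n I fun x j => P x j ∧ x * u + j * v ≤ c) ∨
      Ex n J fun x j => P x j ∧ c ≤ x * u + j * v := by
  obtain ⟨K, _, _, q, hq⟩ := exists_gen ι
  have := char_hs (K := K)
  obtain ⟨f, h0, hs, hv⟩ := h (HahnSeries ℝ K) fun i k =>
    if i ∈ I then tr K (![u, v] k) * cr K (q i k) else tr K (![-u, -v] k) * cr K (q i k)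
  obtain ⟨g, g0, gv, gs⟩ := degenR ![u, v] f h0
  obtain ⟨g', g0', gv', gs'⟩ := degenR ![-u, -v] f h0
  by_cases hc : ∀ α ∈ g.support, α 0 * u + α 1 * v ≤ c
  · refine Or.inl (Ex.of_gen hq (f := g) ⟨g0, fun α hα => ⟨hs α (gs α hα).1.1, hc α hα⟩,
      fun i hi => gv _ _ ?_⟩)
    simpa [hi] using hv i (Finset.mem_union_left _ hi)
  · push Not at hc
    obtain ⟨α, hα, hc⟩ := hc
    refine Or.inr (Ex.of_gen hq (f := g') ⟨g0', fun β hβ => ⟨hs β (gs' β hβ).1.1, ?_⟩,
      fun i hi => gv' _ _ ?_⟩)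
    · have h1 := (gs α hα).1.2 β (gs' β hβ).1.1
      have h2 := (gs' β hβ).1.2 α (gs α hα).1.1
      simp only [wt, Matrix.cons_val_zero, Matrix.cons_val_one] at h1 h2
      linarith
    · simpa [Finset.disjoint_right.1 hIJ hi] using hv i (Finset.mem_union_right _ hi)

end Pool.Agent.P.MP_d3e5c7_ag.Nu
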