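import Pool.Agent.P.MP_d3e5c7_ag.NuA

/-! The nodal move with real weights. -/

set_option autoImplicit false

namespace Pool.Agent.P.MP_d3e5c7_ag.Nu

open MvPolynomial Nag

section field
variable {K : Type*} [Field K]

theorem exists_top (w : Fin 2 → ℝ) {f : MvPolynomial (Fin 2) K} (hf : f ≠ 0) :
    ∃ α ∈ f.support, ∀ β ∈ f.support, wt w β ≤ wt w α ∧ (wt w β = wt w α → β 0 ≤ α 0) := by
  obtain ⟨α, hα, h⟩ := Finset.exists_max_image f.support
    (fun β => (toLex (wt w β, β 0) : ℝ ×ₗ ℕ)) (support_nonempty.2 hf)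
  refine ⟨α, hα, fun β hβ => ?_⟩
  rcases Prod.Lex.toLex_le_toLex.1 (h β hβ) with h1 | ⟨h1, h2⟩
  · exact ⟨le_of_lt h1, fun e => absurd e (ne_of_lt h1)⟩
  · exact ⟨le_of_eq h1, fun _ => h2⟩

theorem wt_mul {w : Fin 2 → ℝ} (hw : 0 < w 1) {f g : MvPolynomial (Fin 2) K} {α β : Fin 2 →₀ ℕ}
    (hα : α ∈ f.support) (hβ : β ∈ g.support) :
    ∃ γ ∈ (f * g).support, wt w α + wt w β ≤ wt w γ := by
  classical
  obtain ⟨a, ha, h1⟩ := exists_top w (support_nonempty.1 ⟨_, hα⟩)
  obtain ⟨b, hb, h2⟩ := exists_top w (support_nonempty.1 ⟨_, hβ⟩)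
  refine ⟨a + b, ?_, ?_⟩
  · rw [mem_support_iff, coeff_mul, Finset.sum_eq_single (a, b)]
    · exact mul_ne_zero (mem_support_iff.1 ha) (mem_support_iff.1 hb)
    · rintro ⟨x, y⟩ hxy hne
      by_contra h0
      have h3 := h1 x (mem_support_iff.2 (left_ne_zero_of_mul h0))
      have h4 := h2 y (mem_support_iff.2 (right_ne_zero_of_mul h0))
      have e : x + y = a + b := by simpa using hxy
      have e0 : x 0 + y 0 = a 0 + b 0 := by simpa using congrArg (· 0) e
      have e1 : x 1 + y 1 = a 1 + b 1 := by simpa using congrArg (· 1) e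
      have e0' : (x 0 : ℝ) + y 0 = a 0 + b 0 := by exact_mod_cast e0
      have e1' : (x 1 : ℝ) + y 1 = a 1 + b 1 := by exact_mod_cast e1
      have e2 : wt w x + wt w y = wt w a + wt w b := by
        simp only [wt]
        linear_combination w 0 * e0' + w 1 * e1'
      have e3 : wt w x = wt w a := by linarith [h3.1, h4.1]
      have h5 := h3.2 e3
      have h6 := h4.2 (by linarith)
      have e4 : x 0 = a 0 := by omega
      have e5 : x 1 = a 1 := by
        simp only [wt, e4, add_right_inj] at e3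
        exact_mod_cast mul_right_cancel₀ hw.ne' e3
      apply hne
      have hx : x = a := by rw [← ex_eta x, ← ex_eta a, e4, e5]
      subst hx
      rw [add_left_cancel e]
    · intro h
      simp at h
  · have h3 := (h1 α hα).1
    have h4 := (h2 β hβ).1
    simp only [wt, Finsupp.add_apply, Nat.cast_add] at h3 h4 ⊢
    linarith

theorem wt_pow {w : Fin 2 → ℝ} (hw : 0 < w 1) {f g : MvPolynomial (Fin 2) K} {α β : Fin 2 →₀ ℕ}
    (hα : α ∈ f.support) (hβ : β ∈ g.support) (j : ℕ) :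
    ∃ γ ∈ (f ^ j * g).support, j * wt w α + wt w β ≤ wt w γ := by
  induction j with
  | zero => exact ⟨β, by simpa using hβ, by simp⟩
  | succ j ih =>
    obtain ⟨γ, h1, h2⟩ := ih
    obtain ⟨δ, h3, h4⟩ := wt_mul hw hα h1
    exact ⟨δ, by rwa [pow_succ', mul_assoc], by push_cast; linarith⟩

theorem natDegree_gam {f : MvPolynomial (Fin 2) K} (hf : f ≠ 0) :
    ∃ β ∈ f.support, (aeval (gam K) f).natDegree ≤ 2 * β 0 + 3 * β 1 := by
  obtain ⟨β, hβ, h⟩ := Finset.exists_max_image f.support (fun β => 2 * β 0 + 3 * β 1)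
    (support_nonempty.2 hf)
  refine ⟨β, hβ, ?_⟩
  conv_lhs => rw [f.as_sum, map_sum]
  refine Polynomial.natDegree_sum_le_of_forall_le _ _ fun α hα => ?_
  have h1 := h α hα
  rw [mono2, map_mul, map_mul, map_pow, map_pow, aeval_C, aeval_X, aeval_X]
  refine (Polynomial.natDegree_C_mul_le _ _).trans (Polynomial.natDegree_mul_le.trans ?_)
  rw [Polynomial.natDegree_pow, Polynomial.natDegree_pow, natDegree_gam0, natDegree_gam1]
  omega

theorem node' {f : MvPolynomial (Fin 2) K} (hf : f ≠ 0) :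
    ∃ (j u v : ℕ) (g : MvPolynomial (Fin 2) K), f = cub K ^ j * g ∧
      (∃ β ∈ g.support, u + v ≤ 2 * β 0 + 3 * β 1) ∧
      (∀ α ∈ (aeval (phi K) f).support, j ≤ α 0 ∧ j ≤ α 1) ∧
      ex (j + u) j ∈ (aeval (phi K) f).support ∧ ex j (j + v) ∈ (aeval (phi K) f).support := by
  classical
  have hnu : ¬ IsUnit (cub K) := by
    intro h
    have h1 := three_le_cub (K := K)
    obtain ⟨c, -, hc⟩ := MvPolynomial.isUnit_iff_eq_C_of_isReduced.1 h
    simp [hc] at h1
  obtain ⟨j, g, hg, rfl⟩ := WfDvdMonoid.max_power_factor' hf hnu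
  have hg0 : g ≠ 0 := by rintro rfl; simp at hg
  have hγ : aeval (gam K) g ≠ 0 := fun h => hg (cub_dvd h)
  have hγ' : Polynomial.taylor 1 (aeval (gam K) g) ≠ 0 := by
    rwa [Ne, Polynomial.taylor_eq_zero]
  set P := uu K ^ j * aeval (phi K) g with hP
  have e : aeval (phi K) (cub K ^ j * g) = monomial (ex j j) 1 * P := by
    rw [map_mul, map_pow, phi_cub, mono2, hP]; simp; ring
  refine ⟨j, (aeval (gam K) g).natTrailingDegree,
    (Polynomial.taylor 1 (aeval (gam K) g)).natTrailingDegree, g, rfl, ?_, ?_, ?_, ?_⟩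
  · have h1 := two_orders hγ _ (fun a ha => Polynomial.coeff_eq_zero_of_lt_natTrailingDegree ha)
    obtain ⟨β, hβ, h2⟩ := natDegree_gam hg0
    exact ⟨β, hβ, h1.trans h2⟩
  · intro α hα
    rw [e, mem_support_iff, coeff_monomial_mul'] at hα
    have h1 : ex j j ≤ α := by
      by_contra h; simp [h] at hα
    exact ⟨by simpa using h1 0, by simpa using h1 1⟩
  · have : ex (j + (aeval (gam K) g).natTrailingDegree) j =
        ex j j + ex (aeval (gam K) g).natTrailingDegree 0 := by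
      rw [eq_comm, eq_ex_iff]; simp
    rw [e, mem_support_iff, this, coeff_monomial_mul, one_mul, ← coeff_r0, hP, map_mul, r0_phi]
    apply coeff_trailing_mul _ hγ
    simp [uu, Polynomial.coeff_zero_eq_eval_zero]
  · have : ex j (j + (Polynomial.taylor 1 (aeval (gam K) g)).natTrailingDegree) =
        ex j j + ex 0 (Polynomial.taylor 1 (aeval (gam K) g)).natTrailingDegree := by
      rw [eq_comm, eq_ex_iff]; simp
    rw [e, mem_support_iff, this, coeff_monomial_mul, one_mul, ← coeff_r1, hP, map_mul, r1_phi]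
    apply coeff_trailing_mul _ hγ'
    simp [uu, Polynomial.coeff_zero_eq_eval_zero]

theorem mem_cub0 : ex 3 0 ∈ (cub K).support := by
  rw [mem_support_iff, ← coeff_r0]
  simp [cub]

theorem mem_cub1 : ex 0 2 ∈ (cub K).support := by
  rw [mem_support_iff, ← coeff_r1]
  simp [cub]

end field

/-- the right triangle with height `H` and base `B` -/
def E (H B : ℝ) (x j : ℕ) : Prop := x * H + j * B ≤ H * B

/-- the triangle with height `h`, base `ρ h` and left slope `τ` -/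
def Tent (h ρ τ M : ℝ) (x j : ℕ) : Prop := 0 ≤ x - τ * j - M ∧ x - τ * j - M ≤ ρ * (h - j)

theorem nodal_arith {h ρ σ j u v a b c : ℝ} (σ0 : 0 < σ) (σ1 : σ ≤ 1) (hρ : 1 < ρ)
    (hn : u + v ≤ ρ * (h - j)) (ha : j ≤ a) (hb : j ≤ b)
    (h1 : a * σ + b * (ρ - σ) ≤ (j + u) * σ + j * (ρ - σ))
    (h2 : a * σ + b * (ρ - σ) ≤ j * σ + (j + v) * (ρ - σ)) (hc : c = min a b) :
    a - b ≤ (ρ - σ) * (h - c) ∧ b - a ≤ σ * (h - c) := by
  have hω : 0 < ρ - σ := by linarith
  have h3 : (a - j) * σ + (b - j) * (ρ - σ) ≤ σ * (ρ - σ) * (h - j) := by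
    refine le_of_mul_le_mul_left ?_ (show 0 < ρ by linarith)
    have e1 := mul_le_mul_of_nonneg_left h1 hω.le
    have e2 := mul_le_mul_of_nonneg_left h2 σ0.le
    have e3 := mul_le_mul_of_nonneg_left hn (mul_pos σ0 hω).le
    nlinarith
  have h4 : σ * (ρ - σ) ≤ ρ := by nlinarith
  rcases le_total a b with hab | hab
  · rw [min_eq_left hab] at hc
    subst hc
    have e : b - c ≤ σ * (h - c) := by
      refine le_of_mul_le_mul_left ?_ hω
      have := mul_le_mul_of_nonneg_right h4 (sub_nonneg.2 ha)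
      nlinarith
    have : 0 ≤ h - c := by
      by_contra h0
      nlinarith
    exact ⟨by nlinarith, e⟩
  · rw [min_eq_right hab] at hc
    subst hc
    have e : a - c ≤ (ρ - σ) * (h - c) := by
      refine le_of_mul_le_mul_left ?_ σ0
      have := mul_le_mul_of_nonneg_right h4 (sub_nonneg.2 hb)
      nlinarith
    have : 0 ≤ h - c := by
      by_contra h0
      nlinarith
    exact ⟨e, by nlinarith⟩

variable {ι : Type} [Fintype ι] {n : ι → ℤ} {I : Finset ι} {H B h ρ σ τ : ℝ}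

omit [Fintype ι] in
theorem Ex.nodal (hH : 0 < H) (hB : 0 < B) (e : 3 * h = B ∨ 2 * h = H) (h1 : 2 * B ≤ ρ * h)
    (h2 : 3 * H ≤ ρ * h) (σ0 : 0 < σ) (σ1 : σ ≤ 1) (hx : Ex n I (E H B)) :
    Ex n I fun a b => (a : ℝ) - b ≤ (ρ - σ) * (h - min (a : ℝ) b) ∧
      (b : ℝ) - a ≤ σ * (h - min (a : ℝ) b) := by
  intro K _ _ q
  have := char_hs (K := K)
  have hh : 0 < h := by rcases e with e | e <;> linarith
  have hρ : 1 < ρ := by rcases e with e | e <;> nlinarith
  let w : Fin 2 → ℝ := ![σ, ρ - σ]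
  obtain ⟨f, h0, hs, hv⟩ := hx (HahnSeries ℝ K)
    (fun i k => eval (fun k => tr K (w k) * cr K (q i k)) (phi _ k))
  have hF : aeval (phi (HahnSeries ℝ K)) f ≠ 0 := by
    obtain ⟨j, u, v, -, -, -, -, h1, -⟩ := node' h0
    exact support_nonempty.1 ⟨_, h1⟩
  obtain ⟨g, g0, gv, gs⟩ := degenR w _ hF
  refine ⟨g, g0, fun α hα => ?_, fun i hi => gv _ _ (Van.comp _ _ (hv i hi))⟩
  obtain ⟨-, l, hl, h3, h4⟩ := gs α hα
  have e' : lam l (aeval (phi (HahnSeries ℝ K)) f) = aeval (phi K) (lam l f) := by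
    rw [← lam_aeval hl]; simp only [map_phi]
  rw [e'] at h3 h4
  have h5 : lam l f ≠ 0 := by
    intro h0; simp [h0] at h3
  obtain ⟨j, u, v, f1, h6, ⟨β, hβ, h7⟩, h8, h9, h10⟩ := node' h5
  have h11 : (j : ℝ) * (H * B) + h * (β 0 * H + β 1 * B) ≤ h * (H * B) := by
    rcases e with e | e
    · obtain ⟨γ, h11, h12⟩ := wt_pow (w := ![H, B]) hB mem_cub0 hβ j
      have h13 : (γ 0 : ℝ) * H + γ 1 * B ≤ H * B := hs γ (support_lam l f (h6 ▸ h11))
      simp only [wt, ex_zero, ex_one, Matrix.cons_val_zero, Matrix.cons_val_one] at h12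
      have := mul_le_mul_of_nonneg_left (h12.trans h13) hh.le
      rw [← e] at this ⊢
      push_cast at this
      linarith
    · obtain ⟨γ, h11, h12⟩ := wt_pow (w := ![H, B]) hB mem_cub1 hβ j
      have h13 : (γ 0 : ℝ) * H + γ 1 * B ≤ H * B := hs γ (support_lam l f (h6 ▸ h11))
      simp only [wt, ex_zero, ex_one, Matrix.cons_val_zero, Matrix.cons_val_one] at h12
      have := mul_le_mul_of_nonneg_left (h12.trans h13) hh.le
      rw [← e] at this ⊢
      push_cast at this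
      linarith
  have h12 : (u : ℝ) + v ≤ ρ * (h - j) := by
    have h13 : (u : ℝ) + v ≤ 2 * β 0 + 3 * β 1 := by exact_mod_cast h7
    refine h13.trans (le_of_mul_le_mul_left ?_ (mul_pos hH hB))
    have e1 := mul_le_mul_of_nonneg_left h1 (by positivity : 0 ≤ (β 0 : ℝ) * H)
    have e2 := mul_le_mul_of_nonneg_left h2 (by positivity : 0 ≤ (β 1 : ℝ) * B)
    have e3 := mul_le_mul_of_nonneg_left h11 (by linarith : 0 ≤ ρ)
    nlinarith
  have h13 := h4 _ h9
  have h14 := h4 _ h10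
  simp only [wt, ex_zero, ex_one, w, Matrix.cons_val_zero, Matrix.cons_val_one,
    Nat.cast_add] at h13 h14
  exact nodal_arith σ0 σ1 hρ h12 (by exact_mod_cast (h8 α h3).1) (by exact_mod_cast (h8 α h3).2)
    h13 h14 rfl

theorem Ex.tent (hH : 0 < H) (hB : 0 < B) (e : 3 * h = B ∨ 2 * h = H) (h1 : 2 * B ≤ ρ * h)
    (h2 : 3 * H ≤ ρ * h) (hτ : 0 < τ) (hx : Ex n I (E H B)) : ∃ M, Ex n I (Tent h ρ τ M) := by
  have hh : 0 < h := by rcases e with e | e <;> linarith
  have hρ : 1 < ρ := by rcases e with e | e <;> nlinarith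
  obtain ⟨p, hp⟩ : ∃ p : ℕ, ⌈τ⌉₊ = p + 1 := Nat.exists_eq_succ_of_ne_zero (Nat.ceil_pos.2 hτ).ne'
  have h3 : τ ≤ p + 1 := by exact_mod_cast hp ▸ Nat.le_ceil τ
  have h4 : (p : ℝ) < τ := Nat.lt_ceil.1 (by omega)
  have h5 := ((hx.nodal (σ := τ - p) hH hB e h1 h2 (by linarith) (by linarith)).unshear ⌈h⌉₊
    fun a b hab => ?_).shake.shear p
  · refine ⟨⌈h⌉₊ - (τ - p) * h, h5.mono ?_⟩
    rintro x j ⟨y, ⟨b0, b1, h6, ⟨a0, -, h7⟩, a1, h8, h9⟩, rfl⟩
    have h10 : (j : ℝ) ≤ min (a1 : ℝ) b1 :=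
      le_min (by exact_mod_cast (by omega)) (by exact_mod_cast (by omega))
    have h11 : (y : ℝ) + b1 = ⌈h⌉₊ + a1 := by exact_mod_cast h9
    have h12 := mul_le_mul_of_nonneg_left h10 (by linarith : 0 ≤ τ - p)
    have h13 := mul_le_mul_of_nonneg_left h10 (by linarith : 0 ≤ ρ - (τ - p))
    constructor <;> push_cast <;> nlinarith [h8.1, h8.2]
  · have h6 : (0 : ℝ) ≤ min (a : ℝ) b := by positivity
    have h7 : (b : ℝ) ≤ ⌈h⌉₊ + a := by nlinarith [hab.2, Nat.le_ceil h]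
    exact_mod_cast h7

end Pool.Agent.P.MP_d3e5c7_ag.Nu
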