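import Pool.Agent.P.MP_d3e5c7_ag.NuB

/-! Moves between right triangles. -/

set_option autoImplicit false

namespace Pool.Agent.P.MP_d3e5c7_ag.Nu

open MvPolynomial Nag

variable {ι : Type} [Fintype ι] [DecidableEq ι] {n : ι → ℤ} {I J : Finset ι}
  {H B h ρ m c c' : ℝ}

theorem Ex.split {B1 B2 : ℝ} (hIJ : Disjoint I J) (hh : 0 < h)
    (hx : Ex n (I ∪ J) (E h (B1 + B2))) : Ex n I (E h B1) ∨ Ex n J (E h B2) := by
  refine (hx.cut hIJ h B1 (h * B1)).imp (fun h1 => h1.mono fun _ _ h2 => h2.2)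
    fun h1 => h1.shakeH.mono ?_
  rintro x j ⟨c0, c1, h2, ⟨-, h3⟩, h4, -⟩
  have h5 : (c0 : ℝ) + x ≤ c1 := by exact_mod_cast h2
  have := mul_le_mul_of_nonneg_right h5 hh.le
  simp only [E] at h4 ⊢
  linarith

omit [DecidableEq ι] in
theorem Ex.cev (hH : 0 < H) (hB : 0 < B) (e : 3 * h = B ∨ 2 * h = H) (h1 : 2 * B ≤ ρ * h)
    (h2 : 3 * H ≤ ρ * h) (hm : 0 < m) (hmh : m ≤ h) (hx : Ex n I (E H B)) :
    Ex n I (E m (ρ * h / m * h)) := by
  have hh : 0 < h := by linarith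
  have hρ : 0 < ρ := by nlinarith
  obtain ⟨τ, hτ⟩ : ∃ τ, τ = ρ * h / m := ⟨_, rfl⟩
  have e1 : τ * m = ρ * h := by rw [hτ]; field_simp
  have h3 : ρ ≤ τ := le_of_mul_le_mul_right (by nlinarith) hm
  obtain ⟨M, h4⟩ := hx.tent (τ := τ) hH hB e h1 h2 (by linarith)
  rw [← hτ]
  refine h4.shake.shakeH.mono ?_
  rintro x j ⟨z0, z1, h5, ⟨b0, b1, h6, -, h7, -⟩, d0, d1, h8, ⟨-, h9⟩, h10, -⟩
  have h5' : (z0 : ℝ) + x ≤ z1 := by exact_mod_cast h5
  have h6' : (j : ℝ) ≤ b1 := by exact_mod_cast (by omega)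
  have h8' : (d0 : ℝ) + j ≤ d1 := by exact_mod_cast h8
  have f1 := mul_le_mul_of_nonneg_left h6' (by linarith : 0 ≤ τ)
  have f2 := mul_le_mul_of_nonneg_left h8' (mul_nonneg (by linarith : 0 ≤ τ) (sub_nonneg.2 h3))
  have f3 := mul_le_mul_of_nonneg_left h9 (by linarith : 0 ≤ τ)
  have f4 := mul_le_mul_of_nonneg_left h10 (sub_nonneg.2 h3)
  have f5 : ρ * x ≤ ρ * τ * h - τ * τ * j := by
    have f6 := mul_le_mul_of_nonneg_left (show (x : ℝ) ≤ z1 - M - τ * j by linarith) hρ.le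
    nlinarith
  have f6 := mul_le_mul_of_nonneg_left f5 hm.le
  refine le_of_mul_le_mul_left ?_ hρ
  have f7 : m * (τ * τ * j) = ρ * (j * (τ * h)) := by linear_combination τ * j * e1
  nlinarith

theorem Ex.corner (hH : 0 < H) (hB : 0 < B) (e : 3 * h = B ∨ 2 * h = H) (h1 : 2 * B ≤ ρ * h)
    (h2 : 3 * H ≤ ρ * h) (hIJ : Disjoint J I) (hc : 0 < c) (hch : c ≤ h) (hc' : 0 < c')
    (h3 : c' ≤ ρ * h) (hx : Ex n (J ∪ I) (E H B)) :
    Ex n J (E c c') ∨ Ex n I (E h (ρ * h - c' / h * c)) := by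
  have hh : 0 < h := by linarith
  obtain ⟨τ, hτ⟩ : ∃ τ, τ = c' / h := ⟨_, rfl⟩
  have e1 : τ * h = c' := by rw [hτ]; field_simp
  have hτ0 : 0 < τ := by rw [hτ]; positivity
  have h4 : τ ≤ ρ := le_of_mul_le_mul_right (by linarith) hh
  obtain ⟨M, h5⟩ := hx.tent (τ := τ) hH hB e h1 h2 hτ0
  rw [← hτ]
  subst e1
  refine (h5.cut hIJ c (τ * h - c * τ) (c * (τ * h) + c * M)).imp (fun h6 => h6.shakeH.mono ?_)
    fun h6 => h6.shake.shakeH.mono ?_
  · rintro x j ⟨z0, z1, h7, ⟨⟨h8, -⟩, -⟩, -, h9⟩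
    have h7' : (z0 : ℝ) + x ≤ z1 := by exact_mod_cast h7
    have := mul_le_mul_of_nonneg_left (show (x : ℝ) ≤ z1 - τ * j - M by linarith) hc.le
    simp only [E]
    linarith
  · rintro x j ⟨z0, z1, h7, ⟨b0, b1, h8, ⟨-, h9⟩, ⟨h10, -⟩, -⟩, d0, d1, h11, -, ⟨-, h12⟩, -⟩
    have h7' : (z0 : ℝ) + x ≤ z1 := by exact_mod_cast h7
    have h8' : (b0 : ℝ) + j ≤ b1 := by exact_mod_cast h8
    have h11' : (j : ℝ) ≤ d1 := by exact_mod_cast (by omega)
    have f1 := mul_le_mul_of_nonneg_left h11' (sub_nonneg.2 h4)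
    have f2 := mul_le_mul_of_nonneg_left (show (z1 : ℝ) - M - τ * h ≤ (ρ - τ) * (h - j) by
      linarith) hh.le
    have f3 := mul_le_mul_of_nonneg_left h10 (sub_nonneg.2 hch)
    have f4 := mul_le_mul_of_nonneg_left h8' (mul_nonneg hτ0.le (sub_nonneg.2 hch))
    have f5 := mul_le_mul_of_nonneg_left h7' hh.le
    simp only [E]
    nlinarith

omit [Fintype ι] [DecidableEq ι] in
theorem fill (hI : I.Nonempty) (hm : 0 < m) (hn : ∀ i ∈ I, m < n i) :
    ¬ Ex n I (E m (I.card * m)) := by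
  classical
  intro hx
  let x : I → ℚ := fun i => (I.equivFin i : ℕ) + 1
  obtain ⟨f, h0, hs, hv⟩ := hx ℚ fun i => if hi : i ∈ I then ![x ⟨i, hi⟩, 0] else 0
  obtain ⟨j, K1, K2, h1, -, h2, -⟩ := row_bound x (fun a b hab => by
      have : (I.equivFin a : ℕ) = I.equivFin b := by simpa [x] using hab
      exact I.equivFin.injective (Fin.ext this)) (fun i => by positivity) h0
    (fun i => (n i).toNat) (fun i => by
      have := hv i i.2
      simp only [dif_pos i.2] at this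
      have h3 : (0 : ℝ) < n i := hm.trans (hn i i.2)
      have h4 : 0 < n i := by exact_mod_cast h3
      exact this.mono (by omega))
  have h3 : (K2 : ℝ) * m + j * (I.card * m) ≤ m * (I.card * m) := by simpa [E] using hs _ h2
  have h4 : ∑ _i : I, (m - j) < ∑ i : I, (((n i).toNat - j : ℕ) : ℝ) := by
    refine Finset.sum_lt_sum_of_nonempty (by simpa using hI) fun i _ => ?_
    have h5 : n i - j ≤ (((n i).toNat - j : ℕ) : ℤ) := by omega
    have h6 : (n i : ℝ) - j ≤ (((n i).toNat - j : ℕ) : ℝ) := by exact_mod_cast h5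
    linarith [hn i i.2]
  have h5 : ∑ i : I, (((n i).toNat - j : ℕ) : ℝ) ≤ K2 := by exact_mod_cast (by omega)
  simp only [Finset.sum_const, Finset.card_univ, Fintype.card_coe, nsmul_eq_mul] at h4
  nlinarith

end Pool.Agent.P.MP_d3e5c7_ag.Nu
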