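import Pool.Agent.P.MP_d3e5c7_ag.NuC

/-! Filling a right triangle with groups of points. -/

set_option autoImplicit false

namespace Pool.Agent.P.MP_d3e5c7_ag.Nu

open Finset

variable {ι : Type} [Fintype ι] [DecidableEq ι] {n : ι → ℤ} {a : ι → ℝ} {I J : Finset ι}
  {H h m v : ℝ}

/-- the points of `I` fill the triangle of height `h` -/
def Fl (n : ι → ℤ) (a : ι → ℝ) (h : ℝ) (I : Finset ι) : Prop :=
  ¬ Ex n I (E h ((∑ i ∈ I, a i ^ 2) / h))

/-- the weights are positive and below the multiplicities -/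
def Ok (n : ι → ℤ) (a : ι → ℝ) (I : Finset ι) : Prop := ∀ i ∈ I, 0 < a i ∧ a i < n i

open Classical in
/-- the number of points of weight `v` -/
noncomputable def cnt (a : ι → ℝ) (I : Finset ι) (v : ℝ) : ℕ := (I.filter (a · = v)).card

/-- every weight is `h`, or small and frequent -/
def Tame (a : ι → ℝ) (h : ℝ) (I : Finset ι) : Prop :=
  ∀ i ∈ I, a i = h ∨ (2 * a i ≤ h ∧ 3 * h ≤ cnt a I (a i) * a i)

omit [Fintype ι] [DecidableEq ι] in
theorem le_cnt (hJ : J ⊆ I) (hv : ∀ i ∈ J, a i = v) : (J.card : ℝ) ≤ cnt a I v := by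
  classical
  exact_mod_cast card_le_card fun i hi => mem_filter.2 ⟨hJ hi, hv i hi⟩

omit [Fintype ι] [DecidableEq ι] in
theorem cnt_le (hJ : ∀ i ∈ J, a i = v → i ∈ I) : (cnt a J v : ℝ) ≤ cnt a I v := by
  classical
  exact le_cnt (fun i hi => hJ i (mem_filter.1 hi).1 (mem_filter.1 hi).2)
    fun i hi => (mem_filter.1 hi).2

omit [Fintype ι] [DecidableEq ι] in
theorem sum_group (hv : ∀ i ∈ I, a i = v) : ∑ i ∈ I, a i ^ 2 = I.card * v ^ 2 := by
  rw [sum_congr rfl fun i hi => by rw [hv i hi], sum_const, nsmul_eq_mul]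

omit [Fintype ι] [DecidableEq ι] in
theorem Ok.mono (ho : Ok n a I) (hJ : J ⊆ I) : Ok n a J := fun i hi => ho i (hJ hi)

omit [Fintype ι] [DecidableEq ι] in
theorem Fl.group (hI : I.Nonempty) (ho : Ok n a I) (hv : ∀ i ∈ I, a i = v) : Fl n a v I := by
  obtain ⟨i, hi⟩ := id hI
  have h0 : 0 < v := hv i hi ▸ (ho i hi).1
  rw [Fl, sum_group hv, show I.card * v ^ 2 / v = I.card * v by field_simp]
  exact fill hI h0 fun i hi => hv i hi ▸ (ho i hi).2

theorem Fl.union (hIJ : Disjoint I J) (hh : 0 < h) (h1 : Fl n a h I) (h2 : Fl n a h J) :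
    Fl n a h (I ∪ J) := by
  rw [Fl, sum_union hIJ, add_div]
  exact fun hx => (hx.split hIJ hh).elim h1 h2

omit [DecidableEq ι] in
theorem Fl.up (hm : 0 < m) (h1 : 2 * m ≤ H) (h2 : 3 * m * H ≤ ∑ i ∈ I, a i ^ 2)
    (hf : Fl n a m I) : Fl n a H I := by
  intro hx
  apply hf
  have hH : 0 < H := by linarith
  obtain ⟨B, hB⟩ : ∃ B, B = (∑ i ∈ I, a i ^ 2) / H := ⟨_, rfl⟩
  have e : ∑ i ∈ I, a i ^ 2 = H * B := by rw [hB]; field_simp
  have h3 : 3 * m ≤ B := le_of_mul_le_mul_left (by linarith) hH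
  have hB0 : 0 < B := by linarith
  rw [← hB] at hx
  rw [e]
  rcases le_total (B / 3) (H / 2) with h4 | h4
  · have := hx.cev (h := B / 3) (ρ := 9 * H / B) (m := m) hH (by linarith) (Or.inl (by ring))
      (by field_simp; linarith) (by field_simp; linarith) hm (by linarith)
    convert this using 2
    field_simp
    ring
  · have := hx.cev (h := H / 2) (ρ := 4 * B / H) (m := m) hH (by linarith) (Or.inr (by ring))
      (by field_simp; linarith) (by field_simp; linarith) hm (by linarith)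
    convert this using 2
    field_simp
    ring

theorem Fl.bin (hJI : Disjoint J I) (hJ : J.Nonempty) (ho : Ok n a J) (hv : ∀ i ∈ J, a i = v)
    (h1 : v ≤ h) (h2 : J.card * v ≤ 6 * h) (h3 : 6 * h ^ 2 ≤ ∑ i ∈ J ∪ I, a i ^ 2)
    (hf : Fl n a h I) : Fl n a (2 * h) (J ∪ I) := by
  intro hx
  obtain ⟨i, hi⟩ := id hJ
  have h0 : 0 < v := hv i hi ▸ (ho i hi).1
  have hh : 0 < h := by linarith
  have hc : (0 : ℝ) < J.card := by exact_mod_cast hJ.card_pos
  have h4 : 6 * h ≤ (∑ i ∈ J ∪ I, a i ^ 2) / h ^ 2 * h := by field_simp; linarith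
  refine (hx.corner (h := h) (ρ := (∑ i ∈ J ∪ I, a i ^ 2) / h ^ 2) (c := v) (c' := J.card * v)
    (by linarith) (div_pos (by nlinarith) (by linarith)) (Or.inr rfl) (le_of_eq (by field_simp))
    (by linarith) hJI h0 h1 (by positivity) (by linarith)).elim
    (fill hJ h0 fun i hi => hv i hi ▸ (ho i hi).2) fun h5 => hf ?_
  convert h5 using 2
  rw [sum_union hJI, sum_group hv]
  field_simp
  ring

theorem Tame.fl (hh : 0 < h) (hI : I.Nonempty) (ho : Ok n a I) (ht : Tame a h I) :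
    Fl n a h I := by
  classical
  induction I using Finset.strongInduction with
  | H I ih =>
    obtain ⟨i, hi⟩ := hI
    set G := I.filter (a · = a i) with hG
    have hiG : i ∈ G := mem_filter.2 ⟨hi, rfl⟩
    have hv : ∀ j ∈ G, a j = a i := fun j hj => (mem_filter.1 hj).2
    have h1 : Fl n a (a i) G := Fl.group ⟨i, hiG⟩ (ho.mono (filter_subset _ _)) hv
    have h2 : Fl n a h G := by
      rcases ht i hi with e | ⟨h2, h3⟩
      · exact e ▸ h1
      · refine h1.up (ho i hi).1 h2 ?_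
        have h4 : (cnt a I (a i) : ℝ) = G.card := by rw [cnt]
        rw [sum_group hv]
        nlinarith [(ho i hi).1]
    rcases (I \ G).eq_empty_or_nonempty with h3 | h3
    · rwa [← (filter_subset _ _).antisymm (sdiff_eq_empty_iff_subset.1 h3)]
    · rw [← union_sdiff_of_subset (filter_subset (a · = a i) I)]
      refine h2.union disjoint_sdiff hh (ih _ (sdiff_ssubset (filter_subset _ _) ⟨i, hiG⟩) h3
        (ho.mono sdiff_subset) fun j hj => (ht j (mem_sdiff.1 hj).1).imp id fun h4 => ⟨h4.1, ?_⟩)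
      refine h4.2.trans (mul_le_mul_of_nonneg_right (cnt_le fun l hl e => mem_sdiff.2
        ⟨hl, fun h5 => (mem_sdiff.1 hj).2 (mem_filter.2 ⟨(mem_sdiff.1 hj).1, ?_⟩)⟩)
        (ho j (mem_sdiff.1 hj).1).1.le)
      rw [← e, hv l h5]

omit [Fintype ι] in
theorem Tame.piece (hh : 0 < h) (hI : I.Nonempty) (ho : Ok n a I) (ht : Tame a h I) :
    ∃ R ⊆ I, R.Nonempty ∧ Tame a h R ∧ Tame a h (I \ R) ∧ ∑ i ∈ R, a i ^ 2 ≤ 4 * h ^ 2 := by
  classical
  obtain ⟨i, hi⟩ := hI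
  have h0 := (ho i hi).1
  set G := I.filter (a · = a i) with hG
  have hv : ∀ j ∈ G, a j = a i := fun j hj => (mem_filter.1 hj).2
  suffices ∃ R ⊆ G, R.Nonempty ∧ R.card * a i ^ 2 ≤ 4 * h ^ 2 ∧ (a i = h ∨ (2 * a i ≤ h ∧
      3 * h ≤ R.card * a i ∧ (R = G ∨ 3 * h ≤ (G \ R).card * a i))) by
    obtain ⟨R, h1, h2, h3, h4⟩ := this
    have hR : ∀ j ∈ R, a j = a i := fun j hj => hv j (h1 hj)
    refine ⟨R, h1.trans (filter_subset _ _), h2, fun j hj => ?_, fun j hj => ?_,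
      by rwa [sum_group hR]⟩
    · rw [hR j hj]
      exact h4.imp id fun h5 => ⟨h5.1, h5.2.1.trans
        (mul_le_mul_of_nonneg_right (le_cnt subset_rfl hR) h0.le)⟩
    · obtain ⟨h5, h6⟩ := mem_sdiff.1 hj
      by_cases e : a j = a i
      · rw [e]
        refine h4.imp id fun h7 => ⟨h7.1, ?_⟩
        rcases h7.2.2 with h8 | h8
        · exact absurd (h8 ▸ mem_filter.2 ⟨h5, e⟩ : j ∈ R) h6
        · exact h8.trans (mul_le_mul_of_nonneg_right (le_cnt
            (sdiff_subset_sdiff (filter_subset _ _) subset_rfl)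
            fun l hl => hv l (mem_sdiff.1 hl).1) h0.le)
      · refine (ht j h5).imp id fun h7 => ⟨h7.1, h7.2.trans (mul_le_mul_of_nonneg_right
          (cnt_le fun l hl e' => mem_sdiff.2 ⟨hl, fun h8 => e ?_⟩) (ho j h5).1.le)⟩
        rw [← e', hR l h8]
  have hiG : i ∈ G := mem_filter.2 ⟨hi, rfl⟩
  rcases ht i hi with e | ⟨h1, h2⟩
  · exact ⟨{i}, singleton_subset_iff.2 hiG, singleton_nonempty _,
      by rw [e]; simp; nlinarith, Or.inl e⟩
  have h3 : 3 * h ≤ ⌈3 * h / a i⌉₊ * a i := (div_le_iff₀ h0).1 (Nat.le_ceil _)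
  have h4 : ⌈3 * h / a i⌉₊ * a i ≤ 3 * h + a i := by
    have := mul_le_mul_of_nonneg_right
      (Nat.ceil_lt_add_one (show 0 ≤ 3 * h / a i by positivity)).le h0.le
    rwa [add_mul, div_mul_cancel₀ _ h0.ne', one_mul] at this
  set r := ⌈3 * h / a i⌉₊
  rcases le_total (2 * r) G.card with h5 | h5
  · obtain ⟨R, h6, h7⟩ := exists_subset_card_eq (show r ≤ G.card by omega)
    have h8 : (r : ℝ) ≤ (G \ R).card := by
      rw [card_sdiff_of_subset h6]
      exact_mod_cast (by omega)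
    refine ⟨R, h6, card_pos.1 (h7 ▸ Nat.ceil_pos.2 (by positivity)), ?_,
      Or.inr ⟨h1, by rwa [h7], Or.inr (by nlinarith)⟩⟩
    rw [h7]
    nlinarith
  · have h6 : (G.card : ℝ) ≤ 2 * r := by exact_mod_cast h5
    refine ⟨G, subset_rfl, ⟨i, hiG⟩, ?_, Or.inr ⟨h1, by rwa [cnt] at h2, Or.inl rfl⟩⟩
    have h7 : G.card * a i ≤ 7 * h := by nlinarith
    nlinarith

omit [Fintype ι] [DecidableEq ι] in
theorem Tame.mono (ho : Ok n a I) (ht : Tame a h I) (hJ : I ⊆ J) {i : ι} (hi : i ∈ I) :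
    a i = h ∨ (2 * a i ≤ h ∧ 3 * h ≤ cnt a J (a i) * a i) :=
  (ht i hi).imp id fun h1 => ⟨h1.1, h1.2.trans
    (mul_le_mul_of_nonneg_right (cnt_le fun _ hl _ => hJ hl) (ho i hi).1.le)⟩

omit [Fintype ι] in
theorem Tame.pool {x : ℝ} (hh : 0 < h) (hI : I.Nonempty) (ho : Ok n a I) (ht : Tame a h I)
    (hx : x ≤ ∑ i ∈ I, a i ^ 2) (hx0 : 0 ≤ x) :
    ∃ T ⊆ I, T.Nonempty ∧ Tame a h T ∧ Tame a h (I \ T) ∧ x ≤ ∑ i ∈ T, a i ^ 2 ∧
      ∑ i ∈ T, a i ^ 2 ≤ x + 4 * h ^ 2 := by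
  classical
  obtain ⟨T, hT, hmin⟩ := exists_min_image (I.powerset.filter fun T =>
    T.Nonempty ∧ Tame a h T ∧ Tame a h (I \ T) ∧ x ≤ ∑ i ∈ T, a i ^ 2) card
    ⟨I, mem_filter.2 ⟨mem_powerset_self _, hI, ht, fun i hi => by simp at hi, hx⟩⟩
  obtain ⟨h1, h2, h3, h4, h5⟩ := mem_filter.1 hT
  rw [mem_powerset] at h1
  refine ⟨T, h1, h2, h3, h4, h5, ?_⟩
  obtain ⟨R, h6, h7, h8, h9, h10⟩ := h3.piece hh h2 (ho.mono h1)
  have e := sum_sdiff (f := fun i => a i ^ 2) h6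
  by_contra h11
  have h12 : (T \ R).Nonempty := by
    rw [nonempty_iff_ne_empty]
    intro h0
    rw [h0, sum_empty] at e
    linarith
  have := hmin (T \ R) (mem_filter.2 ⟨mem_powerset.2 (sdiff_subset.trans h1), h12, h9,
    fun i hi => ?_, by linarith⟩)
  · exact absurd (card_lt_card (sdiff_ssubset h6 h7)) (not_lt.2 this)
  · by_cases hiR : i ∈ R
    · exact h8.mono (ho.mono (h6.trans h1))
        (fun j hj => mem_sdiff.2 ⟨h1 (h6 hj), fun h => (mem_sdiff.1 h).2 hj⟩) hiR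
    · exact h4.mono (ho.mono sdiff_subset) (sdiff_subset_sdiff subset_rfl sdiff_subset)
        (mem_sdiff.2 ⟨(mem_sdiff.1 hi).1, fun h => (mem_sdiff.1 hi).2 (mem_sdiff.2 ⟨h, hiR⟩)⟩)

omit [Fintype ι] [DecidableEq ι] in
theorem sum_rare {T : Finset ℝ} (ho : Ok n a I) (hh : 0 < h)
    (hX : ∀ i ∈ I, a i ∈ T ∧ a i ≤ h ∧ cnt a I (a i) * a i ≤ 6 * h) :
    ∑ i ∈ I, a i ^ 2 ≤ T.card * (6 * h ^ 2) := by
  classical
  rw [← sum_fiberwise_of_maps_to (fun i hi => (hX i hi).1), ← nsmul_eq_mul]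
  refine sum_le_card_nsmul _ _ _ fun v _ => ?_
  rcases (I.filter (a · = v)).eq_empty_or_nonempty with h0 | ⟨i, hi⟩
  · rw [h0, sum_empty]
    positivity
  · obtain ⟨h1, rfl⟩ := mem_filter.1 hi
    obtain ⟨-, h2, h3⟩ := hX i h1
    rw [sum_group fun j hj => (mem_filter.1 hj).2]
    rw [cnt] at h3
    nlinarith [(ho i h1).1]

theorem fl_two (hh : 0 < h) (T : Finset ℝ) : ∀ P X : Finset ι, Disjoint P X → Ok n a P →
    Ok n a X → Tame a h P → (∀ i ∈ X, a i ∈ T ∧ a i ≤ h ∧ cnt a X (a i) * a i ≤ 6 * h) →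
    (6 + 10 * T.card) * h ^ 2 ≤ ∑ i ∈ P, a i ^ 2 + ∑ i ∈ X, a i ^ 2 → Fl n a (2 * h) (P ∪ X) := by
  classical
  have hne : ∀ P : Finset ι, 0 < ∑ i ∈ P, a i ^ 2 → P.Nonempty := fun P hP => by
    rw [nonempty_iff_ne_empty]
    rintro rfl
    simp at hP
  have hh2 : 0 < h ^ 2 := by positivity
  induction T using Finset.induction_on with
  | empty =>
    intro P X _ hP _ ht hX hS
    obtain rfl : X = ∅ := eq_empty_of_forall_notMem fun i hi => by simpa using (hX i hi).1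
    simp only [card_empty, Nat.cast_zero, mul_zero, add_zero, sum_empty] at hS
    rw [union_empty]
    exact (ht.fl hh (hne P (by linarith)) hP).up hh le_rfl (by linarith)
  | insert v T hv ih =>
    intro P X hd hP hX ht hr hS
    rw [card_insert_of_notMem hv] at hS
    push_cast at hS
    set J := X.filter (a · = v) with hJ
    have hJX : J ⊆ X := filter_subset _ _
    have hJv : ∀ i ∈ J, a i = v := fun j hj => (mem_filter.1 hj).2
    have hr' : ∀ i ∈ X \ J, a i ∈ T ∧ a i ≤ h ∧ cnt a (X \ J) (a i) * a i ≤ 6 * h := by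
      intro i hi
      obtain ⟨h1, h2⟩ := mem_sdiff.1 hi
      obtain ⟨h3, h4, h5⟩ := hr i h1
      exact ⟨(mem_insert.1 h3).resolve_left fun e => h2 (mem_filter.2 ⟨h1, e⟩), h4,
        (mul_le_mul_of_nonneg_right (cnt_le fun l hl _ => (mem_sdiff.1 hl).1)
          (hX i h1).1.le).trans h5⟩
    rcases J.eq_empty_or_nonempty with h0 | ⟨i, hi⟩
    · rw [h0, sdiff_empty] at hr'
      exact ih P X hd hP hX ht hr' (by linarith)
    have e := sum_sdiff (f := fun i => a i ^ 2) hJX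
    have h1 := sum_rare (hX.mono sdiff_subset) hh hr'
    obtain ⟨-, h2, h3⟩ := hr i (hJX hi)
    have h0 := (hX i (hJX hi)).1
    rw [hJv i hi] at h0 h2 h3
    rw [cnt, ← hJ] at h3
    have h4 : ∑ i ∈ J, a i ^ 2 ≤ 6 * h ^ 2 := by
      rw [sum_group hJv]
      nlinarith
    have h5 : 0 ≤ T.card * h ^ 2 := by positivity
    obtain ⟨R, h6, h7, h8, h9, h10, h11⟩ := ht.pool (x := 6 * h ^ 2 - ∑ i ∈ J, a i ^ 2) hh
      (hne P (by linarith)) hP (by linarith) (by linarith)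
    have e' := sum_sdiff (f := fun i => a i ^ 2) h6
    have hd' : Disjoint J R := hd.symm.mono hJX h6
    have h12 := Fl.bin hd' ⟨i, hi⟩ (hX.mono hJX) hJv h2 h3 (by rw [sum_union hd']; linarith)
      (h8.fl hh h7 (hP.mono h6))
    have h13 := ih (P \ R) (X \ J) (hd.mono sdiff_subset sdiff_subset) (hP.mono sdiff_subset)
      (hX.mono sdiff_subset) h9 hr' (by linarith)
    have h14 : P ∪ X = (J ∪ R) ∪ (P \ R ∪ X \ J) := by
      rw [union_comm J R, union_union_union_comm, union_sdiff_of_subset h6,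
        union_sdiff_of_subset hJX]
    rw [h14]
    refine h12.union ?_ (by linarith) h13
    simp only [disjoint_union_left, disjoint_union_right]
    exact ⟨⟨hd.symm.mono hJX sdiff_subset, disjoint_sdiff⟩, disjoint_sdiff,
      hd.mono h6 sdiff_subset⟩

theorem fl_main (hh : 0 < h) (T : Finset ℝ) (ho : Ok n a I)
    (h1 : ∀ i ∈ I, a i ∉ T → a i = h ∨ (2 * a i ≤ h ∧ 3 * h ≤ cnt a I (a i) * a i))
    (h2 : ∀ i ∈ I, a i ∈ T → a i ≤ h ∧ cnt a I (a i) * a i ≤ 6 * h)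
    (hS : min (9 + 27 * (T.card : ℝ)) (26 + 10 * T.card) * h ^ 2 ≤ ∑ i ∈ I, a i ^ 2) :
    Fl n a √(∑ i ∈ I, a i ^ 2) I := by
  classical
  have hs := Real.mul_self_sqrt (sum_nonneg fun i (_ : i ∈ I) => sq_nonneg (a i))
  have hs0 := Real.sqrt_nonneg (∑ i ∈ I, a i ^ 2)
  have hh2 : 0 < h ^ 2 := by positivity
  rcases T.eq_empty_or_nonempty with rfl | hT
  · norm_num at hS
    have h3 : 3 * h ≤ √(∑ i ∈ I, a i ^ 2) := Real.le_sqrt_of_sq_le (by linarith)
    refine (Tame.fl hh ?_ ho fun i hi => h1 i hi (notMem_empty _)).up hh (by linarith)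
      (by nlinarith)
    rw [nonempty_iff_ne_empty]
    rintro rfl
    simp at hS
    linarith
  · have h3 : (1 : ℝ) ≤ T.card := by exact_mod_cast hT.card_pos
    rw [min_eq_right (by linarith)] at hS
    have h4 : 6 * h ≤ √(∑ i ∈ I, a i ^ 2) := Real.le_sqrt_of_sq_le (by nlinarith)
    have h5 := fl_two (n := n) (a := a) hh T (I.filter (a · ∉ T)) (I.filter (a · ∈ T))
      (disjoint_filter_filter_not I I (a · ∈ T)).symm (ho.mono (filter_subset _ _))
      (ho.mono (filter_subset _ _)) (fun i hi => ?_) (fun i hi => ?_) ?_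
    · rw [union_comm, filter_union_filter_not_eq] at h5
      exact h5.up (by linarith) (by linarith) (by nlinarith)
    · obtain ⟨h6, h7⟩ := mem_filter.1 hi
      exact (h1 i h6 h7).imp id fun h8 => ⟨h8.1, h8.2.trans (mul_le_mul_of_nonneg_right
        (cnt_le fun l hl e => mem_filter.2 ⟨hl, by rwa [e]⟩) (ho i h6).1.le)⟩
    · obtain ⟨h6, h7⟩ := mem_filter.1 hi
      exact ⟨h7, (h2 i h6 h7).1, (mul_le_mul_of_nonneg_right
        (cnt_le fun l hl _ => (mem_filter.1 hl).1) (ho i h6).1.le).trans (h2 i h6 h7).2⟩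
    · rw [add_comm (∑ i ∈ _, _), sum_filter_add_sum_filter_not]
      nlinarith

end Pool.Agent.P.MP_d3e5c7_ag.Nu
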