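import Pool.Agent.P.MP_d3e5c7_ag.NuD

/-! From emptiness to the weighted inequality, by a count of dimensions. -/

set_option autoImplicit false

namespace Pool.Agent.P.MP_d3e5c7_ag.Nu

open MvPolynomial Nag Finset

/-- pairs of naturals with sum below `N` -/
def tri (N : ℕ) : Finset (Σ _ : ℕ, ℕ × ℕ) := (range N).sigma fun t => antidiagonal t

theorem card_tri (N : ℕ) : 2 * (tri N).card = N * (N + 1) := by
  rw [tri, card_sigma]
  induction N with
  | zero => simp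
  | succ N ih =>
    rw [sum_range_succ, mul_add, ih, Nat.card_antidiagonal]
    ring

theorem mem_tri {N : ℕ} {z : Σ _ : ℕ, ℕ × ℕ} : z ∈ tri N ↔ z.1 < N ∧ z.2.1 + z.2.2 = z.1 := by
  simp [tri]

variable {ι : Type} [Fintype ι] {K : Type} [Field K]

theorem exists_poly (p : ι → Fin 2 → K) (b : ι → ℕ) (D : ℕ)
    (h : ∑ i, b i * (b i + 1) < (D + 1) * (D + 2)) :
    ∃ g : MvPolynomial (Fin 2) K, g ≠ 0 ∧ g.totalDegree ≤ D ∧ ∀ i, Van (p i) (b i) g := by
  classical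
  let φ : (tri (D + 1) → K) →ₗ[K] MvPolynomial (Fin 2) K :=
    ∑ z : tri (D + 1), (monomial (ex z.1.2.1 z.1.2.2)).comp (LinearMap.proj z)
  have hφ : ∀ c, φ c = ∑ z : tri (D + 1), monomial (ex z.1.2.1 z.1.2.2) (c z) := fun c => by
    simp [φ]
  let ψ : MvPolynomial (Fin 2) K →ₗ[K] ((Σ i, tri (b i)) → K) :=
    LinearMap.pi fun r => (lcoeff K (ex r.2.1.2.1 r.2.1.2.2)).comp (sh (p r.1)).toLinearMap
  have h1 : LinearMap.ker (ψ.comp φ) ≠ ⊥ := by
    apply LinearMap.ker_ne_bot_of_finrank_lt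
    simp only [Module.finrank_fintype_fun_eq_card, Fintype.card_sigma, Fintype.card_coe]
    have h2 := card_tri (D + 1)
    have h3 : 2 * ∑ i, (tri (b i)).card = ∑ i, b i * (b i + 1) := by
      rw [mul_sum]
      exact sum_congr rfl fun i _ => card_tri _
    nlinarith
  obtain ⟨c, hc, h0⟩ := Submodule.exists_mem_ne_zero_of_ne_bot h1
  refine ⟨φ c, fun e => h0 (funext fun z => ?_), ?_, fun i β hβ => ?_⟩
  · have := congrArg (coeff (ex z.1.2.1 z.1.2.2)) e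
    rw [hφ, coeff_sum, sum_eq_single z, coeff_monomial, if_pos rfl] at this
    · exact this
    · rintro ⟨⟨t, x, y⟩, hy⟩ _ hne
      obtain ⟨⟨t', x', y'⟩, hz⟩ := z
      rw [coeff_monomial, if_neg]
      intro e'
      obtain ⟨rfl, rfl⟩ : x = x' ∧ y = y' := ex_inj.1 e'
      obtain rfl : t = t' := (mem_tri.1 hy).2.symm.trans (mem_tri.1 hz).2
      exact hne rfl
    · simp
  · rw [hφ]
    refine totalDegree_finsetSum_le fun z _ => (totalDegree_monomial_le _ _).trans ?_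
    have h2 := mem_tri.1 z.2
    have h3 := degree_ex z.1.2.1 z.1.2.2
    change (ex z.1.2.1 z.1.2.2).degree ≤ D
    omega
  · rw [← ex_eta β, degree_ex] at hβ
    have := congrFun (LinearMap.mem_ker.1 hc)
      ⟨i, ⟨β 0 + β 1, β 0, β 1⟩, mem_tri.2 ⟨by simp only; omega, rfl⟩⟩
    simpa [ψ, ex_eta] using this

theorem van_pow {p : Fin 2 → K} {m : ℤ} {f : MvPolynomial (Fin 2) K} (h : Van p m f) (N : ℕ) :
    Van p (N * m) (f ^ N) := by
  simpa using van_prod (univ : Finset (Fin N)) (n := fun _ => m) (f := fun _ => f) fun _ _ => h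

theorem exists_large {x y z : ℝ} (hx : 0 < x) : ∃ N : ℕ, 0 < N ∧ y ≤ N * x ∧ z ≤ N * x := by
  obtain ⟨N, hN⟩ := exists_nat_ge (max y z / x)
  rw [div_le_iff₀ hx, max_le_iff] at hN
  exact ⟨N + 1, N.succ_pos, by push_cast; linarith [hN.1], by push_cast; linarith [hN.2]⟩

/-- a curve violating the weighted inequality yields a curve of class above a multiple of `a` -/
theorem amplify (p : ι → Fin 2 → K) (a : ι → ℝ) {r : ℝ} (hr : 0 < r) (hS : r * r = ∑ i, a i ^ 2)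
    {d : ℕ} (m : ι → ℕ) {f : MvPolynomial (Fin 2) K} (hf0 : f ≠ 0) (hfd : f.totalDegree ≤ d)
    (hf : ∀ i, Van (p i) (m i) f) (h : r * d < ∑ i, a i * m i) :
    ∃ (t : ℝ) (n : ι → ℤ) (F : MvPolynomial (Fin 2) K), 0 < t ∧ F ≠ 0 ∧
      (F.totalDegree : ℝ) ≤ t * r ∧ ∀ i, t * a i < n i ∧ Van (p i) (n i) F := by
  obtain ⟨q, -, h1, h2⟩ := exists_large (x := min r (∑ i, a i * m i - r * d)) (y := d + 1)
    (z := ∑ i, (m i : ℝ) ^ 2 + 1) (lt_min hr (by linarith))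
  have hq : (0 : ℝ) ≤ q := by positivity
  have h3 := h1.trans (mul_le_mul_of_nonneg_left (min_le_left _ _) hq)
  have h4 := h2.trans (mul_le_mul_of_nonneg_left (min_le_right _ _) hq)
  set e : ι → ℝ := fun i => |q * a i - m i| with he
  have h5 : ∑ i, e i ^ 2 + 1 ≤ (q * r - d) ^ 2 := by
    have : ∑ i, e i ^ 2 = q ^ 2 * ∑ i, a i ^ 2 - 2 * q * ∑ i, a i * m i + ∑ i, (m i : ℝ) ^ 2 := by
      rw [mul_sum, mul_sum, ← sum_sub_distrib, ← sum_add_distrib]
      exact sum_congr rfl fun i _ => by rw [he, sq_abs]; ring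
    have h6 : 0 ≤ ∑ i, (m i : ℝ) ^ 2 := by positivity
    rw [this, ← hS]
    nlinarith [sq_nonneg (d : ℝ)]
  obtain ⟨N, hN, h6, -⟩ := exists_large (x := 1) (y := ∑ i, (6 * e i + 9) + 1) (z := 0) one_pos
  have hN1 : (1 : ℝ) ≤ N := by exact_mod_cast hN
  have he0 : ∀ i, 0 ≤ e i := fun i => abs_nonneg _
  have hy : 0 ≤ N * (q * r - d) := mul_nonneg (by linarith) (by linarith)
  obtain ⟨g, g0, gd, gv⟩ := exists_poly p (fun i => ⌈N * e i⌉₊ + 1) ⌊N * (q * r - d)⌋₊ (by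
    have h7 : ∑ i, ((⌈N * e i⌉₊ + 1 : ℝ) * (⌈N * e i⌉₊ + 1 + 1)) ≤
        ∑ i, (N ^ 2 * e i ^ 2 + N * (6 * e i + 9)) := sum_le_sum fun i _ => by
      have h8 := (Nat.ceil_lt_add_one (mul_nonneg (by linarith : (0 : ℝ) ≤ N) (he0 i))).le
      have h9 : (0 : ℝ) ≤ ⌈N * e i⌉₊ := by positivity
      nlinarith [mul_nonneg (by linarith : (0 : ℝ) ≤ N) (he0 i)]
    rw [sum_add_distrib, ← mul_sum, ← mul_sum] at h7
    have h8 := Nat.lt_floor_add_one (N * (q * r - d))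
    have h9 : (N * (q * r - d)) ^ 2 ≤ (⌊N * (q * r - d)⌋₊ + 1 : ℝ) * (⌊N * (q * r - d)⌋₊ + 2) := by
      nlinarith
    have h10 := mul_le_mul_of_nonneg_left h5 (sq_nonneg (N : ℝ))
    have h11 := mul_le_mul_of_nonneg_left h6 (by linarith : (0 : ℝ) ≤ N)
    have h12 : ∑ i, ((⌈N * e i⌉₊ + 1 : ℝ) * (⌈N * e i⌉₊ + 1 + 1)) <
        (⌊N * (q * r - d)⌋₊ + 1 : ℝ) * (⌊N * (q * r - d)⌋₊ + 2) := by nlinarith
    exact_mod_cast h12)
  refine ⟨N * q, fun i => (⌈N * e i⌉₊ + 1 : ℕ) + N * m i, g * f ^ N, ?_,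
    mul_ne_zero g0 (pow_ne_zero _ hf0), ?_, fun i => ⟨?_, (gv i).mul (van_pow (hf i) N)⟩⟩
  · refine mul_pos (by linarith) (lt_of_mul_lt_mul_right (a := r) ?_ hr.le)
    have : (0 : ℝ) ≤ d := by positivity
    linarith
  · have h7 : (g * f ^ N).totalDegree ≤ ⌊N * (q * r - d)⌋₊ + N * d :=
      (totalDegree_mul _ _).trans (add_le_add gd
        ((totalDegree_pow _ _).trans (Nat.mul_le_mul_left _ hfd)))
    have h8 : ((g * f ^ N).totalDegree : ℝ) ≤ ⌊N * (q * r - d)⌋₊ + N * d := by exact_mod_cast h7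
    linarith [Nat.floor_le hy]
  · have h7 := Nat.le_ceil (N * e i)
    have h8 := mul_le_mul_of_nonneg_left (le_abs_self (q * a i - m i)) (by linarith : (0 : ℝ) ≤ N)
    push_cast
    simp only [he] at h7 ⊢
    linarith

/-- the weighted inequality at points with algebraically independent coordinates -/
theorem weighted [CharZero K] (p : ι → Fin 2 → K)
    (hp : AlgebraicIndependent ℚ (fun ij : ι × Fin 2 => p ij.1 ij.2)) (a : ι → ℝ) {h : ℝ}
    (hh : 0 < h) (T : Finset ℝ)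
    (h1 : ∀ i, 0 < a i → a i ∉ T →
      a i = h ∨ (2 * a i ≤ h ∧ 3 * h ≤ {j | a j = a i}.ncard * a i))
    (h2 : ∀ i, a i ∈ T → a i ≤ h ∧ {j | a j = a i}.ncard * a i ≤ 6 * h) (ha : ∀ i, 0 ≤ a i)
    (hS : min (9 + 27 * (T.card : ℝ)) (26 + 10 * T.card) * h ^ 2 ≤ ∑ i, a i ^ 2)
    {d : ℕ} (m : ι → ℕ) {f : MvPolynomial (Fin 2) K} (hf0 : f ≠ 0) (hfd : f.totalDegree ≤ d)
    (hf : ∀ i, Van (p i) (m i) f) : ∑ i, a i * m i ≤ √(∑ i, a i ^ 2) * d := by
  classical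
  by_contra hc
  have hT : (0 : ℝ) ≤ T.card := by positivity
  have hS0 : 0 < ∑ i, a i ^ 2 :=
    (mul_pos (lt_min (by linarith) (by linarith)) (by positivity)).trans_le hS
  have hr := Real.sqrt_pos.2 hS0
  obtain ⟨t, n, F, ht, hF, hd, hn⟩ :=
    amplify p a hr (Real.mul_self_sqrt hS0.le) m hf0 hfd hf (not_le.1 hc)
  set I := univ.filter fun i => 0 < a i with hI
  have e1 : ∑ i ∈ I, (t * a i) ^ 2 = t ^ 2 * ∑ i, a i ^ 2 := by
    rw [mul_sum, hI, sum_filter]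
    refine sum_congr rfl fun i _ => ?_
    split_ifs with h0
    · ring
    · rw [le_antisymm (not_lt.1 h0) (ha i)]
      ring
  have e2 : ∀ i, t * a i ∈ T.image (t * ·) ↔ a i ∈ T := fun i =>
    (mul_right_injective₀ ht.ne').mem_finset_image
  have e3 : ∀ i ∈ I, cnt (fun i => t * a i) I (t * a i) = {j | a j = a i}.ncard := fun i hi => by
    rw [cnt, ← Set.ncard_coe_finset]
    congr 1
    ext j
    simp only [coe_filter, Set.mem_ofPred_eq, mul_right_inj' ht.ne']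
    exact ⟨fun h => h.2, fun h => ⟨mem_filter.2 ⟨mem_univ _, h ▸ (mem_filter.1 hi).2⟩, h⟩⟩
  have := fl_main (n := n) (a := fun i => t * a i) (I := I) (mul_pos ht hh) (T.image (t * ·))
    (fun i hi => ⟨mul_pos ht (mem_filter.1 hi).2, (hn i).1⟩) (fun i hi h3 => ?_)
    (fun i hi h3 => ?_) ?_
  · apply this
    rw [e1, Real.sqrt_mul (sq_nonneg t), Real.sqrt_sq ht.le]
    refine Ex.of_gen hp (f := F) ⟨hF, fun α hα => ?_, fun i _ => (hn i).2⟩
    have h3 : α.degree ≤ F.totalDegree := le_totalDegree hα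
    rw [← ex_eta α, degree_ex] at h3
    have h4 : (α 0 : ℝ) + α 1 ≤ F.totalDegree := by exact_mod_cast h3
    have h5 : t ^ 2 * (∑ i, a i ^ 2) / (t * √(∑ i, a i ^ 2)) = t * √(∑ i, a i ^ 2) := by
      rw [div_eq_iff (mul_pos ht hr).ne']
      linear_combination (-t ^ 2) * Real.mul_self_sqrt hS0.le
    rw [h5, E]
    nlinarith [mul_pos ht hr]
  · rw [e3 i hi]
    refine (h1 i (mem_filter.1 hi).2 (mt (e2 i).2 h3)).imp (fun h4 => by rw [h4]) fun h4 => ?_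
    constructor <;> nlinarith [h4.1, h4.2]
  · rw [e3 i hi]
    have h4 := h2 i ((e2 i).1 h3)
    constructor <;> nlinarith [h4.1, h4.2]
  · rw [e1, card_image_of_injective _ (mul_right_injective₀ ht.ne')]
    nlinarith [sq_nonneg t]

end Pool.Agent.P.MP_d3e5c7_ag.Nu
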