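import Pool.Agent.P.MP_d3e5c7_ag.NuD

/-! A discriminant and bounds for its exponents. -/

set_option autoImplicit false

namespace Pool.Agent.P.MP_d3e5c7_ag.Qh

open Polynomial

section ring
variable {R : Type*} [CommRing R] {m : ℕ} {g : R[X]}

/-- the polar with respect to the other homogeneous variable -/
noncomputable def pol (m : ℕ) (g : R[X]) : R[X] := C (m + 1 : R) * g - derivative g * X

/-- a multiple of the discriminant of a polynomial of degree `m + 1` -/
noncomputable def dis (m : ℕ) (g : R[X]) : R := resultant (pol m g) (derivative g) m m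

theorem coeff_pol (m : ℕ) (g : R[X]) (j : ℕ) :
    (pol m g).coeff j = (((m : ℤ) + 1 - j : ℤ) : R) * g.coeff j := by
  rw [pol, coeff_sub, coeff_C_mul]
  cases j with
  | zero => simp
  | succ j => rw [coeff_mul_X, coeff_derivative]; push_cast; ring

theorem dis_mul (hg : g.natDegree ≤ m + 1) :
    (m + 1 : R) ^ m * resultant g (derivative g) (m + 1) m =
      (-1) ^ m * (g.coeff (m + 1) * (m + 1)) * dis m g := by
  have h1 : (pol m g).natDegree ≤ m := natDegree_le_iff_coeff_eq_zero.2 fun N hN => by
    rw [coeff_pol]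
    rcases Nat.lt_or_eq_of_le (Nat.succ_le_of_lt hN) with h | rfl
    · rw [coeff_eq_zero_of_natDegree_lt (hg.trans_lt h), mul_zero]
    · simp
  have h2 : (derivative g).natDegree ≤ m := (natDegree_derivative_le g).trans (by omega)
  rw [← resultant_C_mul_left, show C (m + 1 : R) * g = pol m g + derivative g * X by simp [pol],
    resultant_add_mul_left _ _ _ _ _ (by have := natDegree_X_le (R := R); omega) h2,
    resultant_succ_left_deg _ _ _ _ h1, coeff_derivative, dis]

theorem dis_map {S : Type*} [CommRing S] (φ : R →+* S) (m : ℕ) (g : R[X]) :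
    dis m (g.map φ) = φ (dis m g) := by
  rw [dis, dis, ← resultant_map_map, derivative_map]
  congr 1
  simp [pol, Polynomial.map_sub, Polynomial.map_mul]

variable [IsDomain R] [CharZero R]

theorem natDegree_der (hg : g.natDegree = m + 1) : (derivative g).natDegree = m := by
  rw [natDegree_derivative, hg, Nat.add_sub_cancel]

theorem dis_taylor (hg : g.natDegree = m + 1) (c : R) : dis m (taylor c g) = dis m g := by
  have h1 := dis_mul hg.le
  have h2 := dis_mul (g := taylor c g) (m := m) (by rw [natDegree_taylor, hg])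
  have h3 : derivative (taylor c g) = taylor c (derivative g) := by
    simp [taylor_apply, derivative_comp]
  have h4 := resultant_taylor g (derivative g) c
  rw [natDegree_taylor, natDegree_taylor, natDegree_der hg, hg] at h4
  have h5 : (taylor c g).coeff (m + 1) = g.coeff (m + 1) := by
    rw [← hg, coeff_taylor_natDegree, coeff_natDegree]
  rw [h3, h4, h1, h5] at h2
  have h6 : g.coeff (m + 1) ≠ 0 := by
    rw [← hg, coeff_natDegree, leadingCoeff_ne_zero]
    rintro rfl
    simp at hg
  exact (mul_left_cancel₀ (mul_ne_zero (by simp) (mul_ne_zero h6 (Nat.cast_add_one_ne_zero m)))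
    h2).symm

end ring

variable {K : Type*} [Field K] {ε c c' : ℝ} {p q : K[X]}

theorem dis_ne_zero [CharZero K] {m : ℕ} {g : K[X][X]} (hg : g.natDegree = m + 1)
    (hi : Irreducible g) : dis m g ≠ 0 := by
  let L := FractionRing K[X]
  have hL : Function.Injective (algebraMap K[X] L) := IsFractionRing.injective _ _
  have h1 : Irreducible (g.map (algebraMap K[X] L)) :=
    (hi.isPrimitive (by omega)).irreducible_iff_irreducible_map_fraction_map.1 hi
  have h2 := resultant_ne_zero _ _ h1.separable
  have h3 : (g.map (algebraMap K[X] L)).natDegree = m + 1 := by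
    rw [natDegree_map_eq_of_injective hL, hg]
  rw [natDegree_der h3, h3] at h2
  intro h
  have h4 := dis_mul h3.le
  rw [dis_map, h, map_zero, mul_zero] at h4
  exact mul_ne_zero (pow_ne_zero _ (Nat.cast_add_one_ne_zero m)) h2 h4

/-- every exponent `a` of `p` has `c ≤ ε a` -/
def Lo (ε c : ℝ) (p : K[X]) : Prop := ∀ a, p.coeff a ≠ 0 → c ≤ ε * a

theorem lo_zero (ε c : ℝ) : Lo ε c (0 : K[X]) := fun _ h => absurd rfl h

theorem Lo.mono (h : Lo ε c p) (hc : c' ≤ c) : Lo ε c' p := fun a ha => hc.trans (h a ha)

theorem Lo.int (h : Lo ε c p) (z : ℤ) : Lo ε c ((z : K[X]) * p) := fun a ha =>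
  h a fun h0 => ha (by rw [← C_eq_intCast, coeff_C_mul, h0, mul_zero])

theorem Lo.sum {ι : Type*} (s : Finset ι) (f : ι → K[X]) (h : ∀ i ∈ s, Lo ε c (f i)) :
    Lo ε c (∑ i ∈ s, f i) := fun a ha => by
  rw [finsetSum_coeff] at ha
  obtain ⟨i, hi, h1⟩ := Finset.exists_ne_zero_of_sum_ne_zero ha
  exact h i hi a h1

theorem Lo.mul (h : Lo ε c p) (h' : Lo ε c' q) : Lo ε (c + c') (p * q) := fun a ha => by
  rw [coeff_mul] at ha
  obtain ⟨x, hx, h1⟩ := Finset.exists_ne_zero_of_sum_ne_zero ha
  rw [← Finset.HasAntidiagonal.mem_antidiagonal.1 hx, Nat.cast_add, mul_add]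
  exact add_le_add (h _ (left_ne_zero_of_mul h1)) (h' _ (right_ne_zero_of_mul h1))

theorem Lo.prod {ι : Type*} (s : Finset ι) (f : ι → K[X]) (c : ι → ℝ)
    (h : ∀ i ∈ s, Lo ε (c i) (f i)) : Lo ε (∑ i ∈ s, c i) (∏ i ∈ s, f i) := by
  classical
  induction s using Finset.induction_on with
  | empty =>
    intro a ha
    obtain rfl : a = 0 := by
      by_contra h0
      simp [coeff_one, h0] at ha
    simp
  | insert i s hi ih =>
    rw [Finset.sum_insert hi, Finset.prod_insert hi]
    exact (h i (by simp)).mul (ih fun j hj => h j (by simp [hj]))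

theorem lo_det {n : Type*} [Fintype n] [DecidableEq n] (M : Matrix n n K[X]) (r c : n → ℝ)
    (h : ∀ i j, Lo ε (r i + c j) (M i j)) : Lo ε (∑ i, r i + ∑ j, c j) M.det := by
  rw [Matrix.det_apply']
  refine Lo.sum _ _ fun σ _ => Lo.int ?_ _
  rw [← Equiv.sum_comp σ r, ← Finset.sum_add_distrib]
  exact Lo.prod _ _ _ fun i _ => h _ _

theorem sum_fin (n : ℕ) : ∑ i : Fin n, ((i : ℕ) : ℝ) = n * (n - 1) / 2 := by
  induction n with
  | zero => simp
  | succ n ih =>
    rw [Fin.sum_univ_castSucc]
    simp only [Fin.val_castSucc, Fin.val_last, ih]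
    push_cast
    ring

/-- every exponent `(a, j)` of `g` has `u + τ j ≤ ε a` -/
def LO (ε τ u : ℝ) (g : K[X][X]) : Prop := ∀ j : ℕ, Lo ε (u + τ * j) (g.coeff j)

theorem LO.dis {τ u : ℝ} {g : K[X][X]} (h : LO ε τ u g) (m : ℕ) :
    Lo ε (2 * m * u + τ * ((m + 1) * m)) (dis m g) := by
  have := lo_det (ε := ε) (sylvester (pol m g) (derivative g) m m) (fun i => τ * (i : ℕ))
    (fun j => j.addCases (fun j => u + τ * (1 - (j : ℕ))) fun j => u - τ * (j : ℕ)) fun i j => by
      induction j using Fin.addCases with
      | left j =>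
        simp only [sylvester, Matrix.of_apply, Fin.addCases_left]
        split_ifs with h1
        · rw [coeff_derivative, mul_comm (coeff _ _), ← Nat.cast_add_one (R := K[X]),
            ← Int.cast_natCast (R := K[X])]
          refine ((h (i - j + 1)).int _).mono (le_of_eq ?_)
          rw [Nat.cast_add_one, Nat.cast_sub h1.1]
          ring
        · exact lo_zero _ _
      | right j =>
        simp only [sylvester, Matrix.of_apply, Fin.addCases_right]
        split_ifs with h1
        · rw [coeff_pol]
          refine ((h (i - j)).int _).mono (le_of_eq ?_)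
          rw [Nat.cast_sub h1.1]
          ring
        · exact lo_zero _ _
  refine this.mono (le_of_eq ?_)
  rw [← Finset.mul_sum, sum_fin]
  simp only [Fin.sum_univ_add, Fin.addCases_left, Fin.addCases_right, Finset.sum_add_distrib,
    Finset.sum_sub_distrib, ← Finset.mul_sum, sum_fin,
    Nat.cast_add, Finset.sum_const, Finset.card_univ, Fintype.card_fin, nsmul_eq_mul]
  ring

theorem Lo.trailing (h : Lo ε c p) (hp : p ≠ 0) : c ≤ ε * p.natTrailingDegree :=
  h _ (trailingCoeff_nonzero_iff_nonzero.2 hp)

theorem Lo.leading (h : Lo ε c p) (hp : p ≠ 0) : c ≤ ε * p.natDegree :=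
  h _ (leadingCoeff_ne_zero.2 hp)

theorem three {c0 c1 c2 : ℝ} (hp : p ≠ 0) (h0 : Lo 1 c0 p) (h1 : Lo (-1) c1 p)
    (h2 : Lo 1 c2 (taylor 1 p)) : c0 + c1 + c2 ≤ 0 := by
  have h3 : (p.natTrailingDegree : ℝ) + (taylor 1 p).natTrailingDegree ≤ p.natDegree := by
    exact_mod_cast Nag.two_orders hp _ fun a ha => coeff_eq_zero_of_lt_natTrailingDegree ha
  linarith [h0.trailing hp, h1.leading hp, h2.trailing (by rwa [Ne, taylor_eq_zero])]

/-- a root of multiplicity `n` at one needs more than `n` terms -/
theorem terms [CharZero K] (n : ℕ) : ∀ q : K[X], q ≠ 0 → (X - C 1) ^ n ∣ q →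
    n < q.support.card := by
  classical
  induction n with
  | zero => exact fun q hq _ => Finset.card_pos.2 (support_nonempty.2 hq)
  | succ n ih =>
    intro q hq hd
    obtain ⟨e, he⟩ := support_nonempty.2 hq
    have h1 : (derivative q * X - C (e : K) * q).support = q.support.erase e := by
      ext i
      have : (derivative q * X - C (e : K) * q).coeff i = ((i : K) - e) * q.coeff i := by
        rw [coeff_sub, coeff_C_mul]
        cases i with
        | zero => simp
        | succ j => rw [coeff_mul_X, coeff_derivative]; push_cast; ring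
      rw [mem_support_iff, this]
      simp [sub_eq_zero]
    have h2 := ih (derivative q * X - C (e : K) * q) (fun h0 => ?_) (dvd_sub
      ((pow_sub_one_dvd_derivative_of_pow_dvd hd).mul_right _)
      (((pow_dvd_pow _ n.le_succ).trans hd).mul_left _))
    · rw [h1, Finset.card_erase_of_mem he] at h2
      omega
    · rw [h0, support_zero, eq_comm, Finset.erase_eq_empty_iff] at h1
      have h3 : q.support = {e} := h1.resolve_left (support_nonempty.2 hq).ne_empty
      have h4 := (dvd_iff_isRoot.1 ((dvd_pow_self _ n.succ_ne_zero).trans hd)).eq_zero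
      rw [eval_eq_sum, sum_def, h3] at h4
      simp at h4
      exact mem_support_iff.1 he h4

end Pool.Agent.P.MP_d3e5c7_ag.Qh
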