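import Pool.Agent.P.MP_d3e5c7_ag.QhA

/-! The vertex move: a trapezoid becomes a right triangle. -/

set_option autoImplicit false

namespace Pool.Agent.P.MP_d3e5c7_ag.Qh

open Nag Nu

section mv
open MvPolynomial
variable {K : Type*} [Field K]

theorem exists_bot (w : Fin 2 → ℝ) {f : MvPolynomial (Fin 2) K} (hf : f ≠ 0) :
    ∃ α ∈ f.support, ∀ β ∈ f.support, wt w α ≤ wt w β ∧ (wt w α = wt w β → α 1 ≤ β 1) := by
  obtain ⟨α, hα, h⟩ := Finset.exists_min_image f.support
    (fun β => (toLex (wt w β, β 1) : ℝ ×ₗ ℕ)) (support_nonempty.2 hf)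
  refine ⟨α, hα, fun β hβ => ?_⟩
  rcases Prod.Lex.toLex_le_toLex.1 (h β hβ) with h1 | ⟨h1, h2⟩
  · exact ⟨le_of_lt h1, fun e => absurd e (ne_of_lt h1)⟩
  · exact ⟨le_of_eq h1, fun _ => h2⟩

theorem bot_mul {w : Fin 2 → ℝ} (hw : w 0 ≠ 0) {f g : MvPolynomial (Fin 2) K} (hf : f ≠ 0)
    (hg : g ≠ 0) : ∃ a b : Fin 2 →₀ ℕ, a + b ∈ (f * g).support ∧
      (∀ α ∈ f.support, wt w a ≤ wt w α) ∧ ∀ β ∈ g.support, wt w b ≤ wt w β := by
  classical
  obtain ⟨a, ha, h1⟩ := exists_bot w hf
  obtain ⟨b, hb, h2⟩ := exists_bot w hg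
  refine ⟨a, b, ?_, fun α hα => (h1 α hα).1, fun β hβ => (h2 β hβ).1⟩
  rw [mem_support_iff, coeff_mul, Finset.sum_eq_single (a, b)]
  · exact mul_ne_zero (mem_support_iff.1 ha) (mem_support_iff.1 hb)
  · rintro ⟨x, y⟩ hxy hne
    by_contra h0
    have h3 := h1 x (mem_support_iff.2 (left_ne_zero_of_mul h0))
    have h4 := h2 y (mem_support_iff.2 (right_ne_zero_of_mul h0))
    have e : x + y = a + b := by simpa using hxy
    have e0 : x 0 + y 0 = a 0 + b 0 := by simpa using congrArg (· 0) e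
    have e1 : x 1 + y 1 = a 1 + b 1 := by simpa using congrArg (· 1) e
    have e0' : (x 0 : ℝ) + y 0 = a 0 + b 0 := by exact_mod_cast e0
    have e1' : (x 1 : ℝ) + y 1 = a 1 + b 1 := by exact_mod_cast e1
    have e2 : wt w x + wt w y = wt w a + wt w b := by
      simp only [wt]
      linear_combination w 0 * e0' + w 1 * e1'
    have e3 : wt w a = wt w x := by linarith [h3.1, h4.1]
    have h5 := h3.2 e3
    have h6 := h4.2 (by linarith)
    have e4 : a 1 = x 1 := by omega
    have e5 : a 0 = x 0 := by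
      simp only [wt, e4, add_left_inj] at e3
      exact_mod_cast mul_right_cancel₀ hw e3
    apply hne
    have hx : x = a := by rw [← ex_eta x, ← ex_eta a, e4, e5]
    subst hx
    rw [add_left_cancel e]
  · intro h
    simp at h

theorem LO_E1 {ε τ u : ℝ} {f : MvPolynomial (Fin 2) K} :
    LO ε τ u (E1 f) ↔ ∀ α ∈ f.support, u ≤ wt ![ε, -τ] α := by
  constructor
  · intro h α hα
    have := h (α 1) (α 0) (by rw [coeff_E1, ex_eta]; exact mem_support_iff.1 hα)
    simp only [wt, Matrix.cons_val_zero, Matrix.cons_val_one]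
    linarith
  · intro h j a ha
    have := h (ex a j) (mem_support_iff.2 (by rwa [← coeff_E1]))
    simp only [wt, Matrix.cons_val_zero, Matrix.cons_val_one, ex_zero, ex_one] at this
    linarith

theorem E1_surj : Function.Surjective (E1 (K := K)) := fun g =>
  ⟨Polynomial.Bivariate.equivMvPolynomial K g, by
    have : E1 (K := K) = (Polynomial.Bivariate.equivMvPolynomial K).symm := by
      ext k : 1
      fin_cases k <;> simp [E1]
    simp [this]⟩

end mv

open Polynomial

variable {K : Type*} [Field K] {ε τ u τL τR b t : ℝ} {N : ℕ}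

theorem LO.split {g g' : K[X][X]} (hε : ε ≠ 0) (hg : g ≠ 0) (hg' : g' ≠ 0)
    (h : LO ε τ u (g * g')) : ∃ v v', u ≤ v + v' ∧ LO ε τ v g ∧ LO ε τ v' g' := by
  obtain ⟨f, rfl⟩ := E1_surj g
  obtain ⟨f', rfl⟩ := E1_surj g'
  obtain ⟨a, c, h1, h2, h3⟩ := bot_mul (w := ![ε, -τ]) hε (f := f) (g := f')
    (by rintro rfl; simp at hg) (by rintro rfl; simp at hg')
  rw [← map_mul, LO_E1] at h
  refine ⟨_, _, (h _ h1).trans (le_of_eq ?_), LO_E1.2 h2, LO_E1.2 h3⟩
  simp only [wt, Finsupp.add_apply, Nat.cast_add]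
  ring

/-- coordinates centred at a point of the curve `y = x ^ N` -/
noncomputable def psi (N : ℕ) (g : K[X][X]) : K[X][X] :=
  (taylor (X ^ N) g).map (taylorAlgHom (1 : K)).toRingHom

theorem psi_mul (g g' : K[X][X]) : psi N (g * g') = psi N g * psi N g' := by
  rw [psi, taylor_mul, Polynomial.map_mul, psi, psi]

theorem coeff_psi (g : K[X][X]) (j : ℕ) :
    (psi N g).coeff j = taylor 1 ((taylor (X ^ N) g).coeff j) := coeff_map _ _

theorem psi_ne {g : K[X][X]} (hg : g ≠ 0) : psi N g ≠ 0 := by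
  intro h
  apply hg
  rw [← taylor_eq_zero (X ^ N)]
  ext j : 1
  rw [coeff_zero, ← taylor_eq_zero 1, ← coeff_psi, h, coeff_zero]

/-- the condition on the slopes -/
def SS (τL τR t : ℝ) : Prop := ∀ i j k : ℤ, 0 < t - k → k - t < i - τR → k - t < j + τL →
  k - t < i - τR + (j + τL) → 1 ≤ t - k + max 0 (i - τR) + max 0 (j + τL)

theorem support_sub (p : K[X]) : p.support ⊆ Finset.Icc p.natTrailingDegree p.natDegree :=
  fun _ h => Finset.mem_Icc.2 ⟨natTrailingDegree_le_of_mem_supp _ h, le_natDegree_of_mem_supp _ h⟩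

theorem key_one [CharZero K] (hS : SS τL τR t) (hb : 0 ≤ b) (hτ : τL - τR = b - t)
    (hN : b - τL ≤ N) {p q : K[X]} (hq : q ≠ 0) (hc : q.eval 1 = 0 → p.eval 1 ≠ 0) {u0 u1 u2 : ℝ}
    (a0 : Lo 1 u0 p) (b0 : Lo 1 (u0 + τL) q) (a1 : Lo (-1) u1 p) (b1 : Lo (-1) (u1 - τR) q)
    (c0 : Lo 1 u2 (taylor 1 (p + q * X ^ N))) (c1 : Lo 1 (u2 - (b + t)) (taylor 1 q)) :
    u0 + u1 + u2 ≤ t := by
  classical
  have h1 := b0.trailing hq
  have h2 := b1.leading hq
  have h3 := natTrailingDegree_le_natDegree q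
  have h3' : (q.natTrailingDegree : ℝ) ≤ q.natDegree := by exact_mod_cast h3
  by_cases e : (p + q * X ^ N).eval 1 = 0
  swap
  · have := c0 0 (by rwa [taylor_coeff_zero])
    push_cast at this
    linarith
  have e' : p.eval 1 + q.eval 1 = 0 := by simpa using e
  have h4 : q.eval 1 ≠ 0 := fun h => hc h (by simpa [h] using e')
  have hp : p ≠ 0 := by
    rintro rfl
    exact h4 (by simpa using e')
  have h5 := c1 0 (by rwa [taylor_coeff_zero])
  have h6 := a0.trailing hp
  have h7 := a1.leading hp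
  have h8 := natTrailingDegree_le_natDegree p
  have h8' : (p.natTrailingDegree : ℝ) ≤ p.natDegree := by exact_mod_cast h8
  push_cast at h5
  by_contra h9
  by_cases hQ : p + q * X ^ N = 0
  · have : p.natDegree = q.natDegree + N := by
      rw [eq_neg_of_add_eq_zero_left hQ, natDegree_neg, natDegree_mul_X_pow _ hq]
    rw [this] at h7
    push_cast at h7
    linarith
  have h10 := c0.trailing (by rwa [Ne, taylor_eq_zero])
  have h11 := terms _ _ hQ (pow_rootMultiplicity_dvd _ 1)
  rw [rootMultiplicity_eq_natTrailingDegree, ← taylor_apply] at h11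
  have h12 : (p + q * X ^ N).support ⊆ Finset.Icc p.natTrailingDegree p.natDegree ∪
      Finset.Icc (q.natTrailingDegree + N) (q.natDegree + N) := by
    refine support_add.trans (Finset.union_subset_union (support_sub p) ?_)
    rw [← natDegree_mul_X_pow _ hq, ← natTrailingDegree_mul_X_pow hq]
    exact support_sub _
  have h13 := (Finset.card_le_card h12).trans (Finset.card_union_le _ _)
  rw [Nat.card_Icc, Nat.card_Icc] at h13
  have h14 : ((taylor 1 (p + q * X ^ N)).natTrailingDegree : ℝ) + p.natTrailingDegree +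
      q.natTrailingDegree ≤ p.natDegree + q.natDegree + 1 := by exact_mod_cast (by omega)
  have h15 := hS (q.natDegree - p.natDegree) (p.natTrailingDegree - q.natTrailingDegree)
    (q.natDegree - q.natTrailingDegree)
  push_cast at h15
  have h16 := h15 (by linarith) (by linarith) (by linarith) (by linarith)
  have h17 : max 0 ((q.natDegree : ℝ) - p.natDegree - τR) ≤ -u1 - p.natDegree :=
    max_le (by linarith) (by linarith)
  have h18 : max 0 ((p.natTrailingDegree : ℝ) - q.natTrailingDegree + τL) ≤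
      p.natTrailingDegree - u0 := max_le (by linarith) (by linarith)
  linarith

theorem key [CharZero K] (hS : SS τL τR t) (hb : 0 ≤ b) (hτ : τL - τR = b - t)
    (hN : b - τL ≤ N) (g : K[X][X]) (hg : g ≠ 0) : ∀ u0 u1 u2 : ℝ, LO 1 τL u0 g →
      LO (-1) (-τR) u1 g → LO 1 (-(b + t)) u2 (psi N g) → u0 + u1 + u2 ≤ g.natDegree * t := by
  have z : ∀ g : K[X][X], g ≠ 0 → g.natDegree = 0 → ∀ u0 u1 u2 : ℝ, LO 1 τL u0 g →
      LO (-1) (-τR) u1 g → LO 1 (-(b + t)) u2 (psi N g) → u0 + u1 + u2 ≤ g.natDegree * t := by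
    intro g hg h u0 u1 u2 h0 h1 h2
    obtain ⟨p, rfl⟩ := natDegree_eq_zero.1 h
    simpa using three (p := p) (by simpa using hg) (by simpa using h0 0) (by simpa using h1 0)
      (by simpa [coeff_psi] using h2 0)
  induction g using WfDvdMonoid.induction_on_irreducible with
  | zero => exact absurd rfl hg
  | unit g hu => exact z g hg (natDegree_eq_zero_of_isUnit hu)
  | mul f g hf hi ih =>
    intro u0 u1 u2 h0 h1 h2
    have g0 := hi.ne_zero
    rw [psi_mul] at h2
    obtain ⟨v0, w0, e0, a0, b0⟩ := h0.split one_ne_zero g0 hf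
    obtain ⟨v1, w1, e1, a1, b1⟩ := h1.split (by norm_num) g0 hf
    obtain ⟨v2, w2, e2, a2, b2⟩ := h2.split one_ne_zero (psi_ne g0) (psi_ne hf)
    have h3 := ih hf _ _ _ b0 b1 b2
    suffices v0 + v1 + v2 ≤ g.natDegree * t by
      rw [natDegree_mul g0 hf]
      push_cast
      linarith
    obtain h | h | ⟨m, h⟩ : g.natDegree = 0 ∨ g.natDegree = 1 ∨ ∃ m, g.natDegree = m + 1 + 1 := by
      rcases g.natDegree with _ | _ | m <;> simp
    · exact z g g0 h _ _ _ a0 a1 a2
    · have pr := hi.isPrimitive (by omega)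
      obtain ⟨q, p, rfl⟩ := exists_eq_X_add_C_of_natDegree_le_one h.le
      rw [h, Nat.cast_one, one_mul]
      refine key_one (p := p) (q := q) hS hb hτ hN ?_ (fun c1 c0 => ?_)
        (by simpa using a0 0) (by simpa using a0 1) (by simpa using a1 0)
        (by simpa [sub_eq_add_neg] using a1 1) ?_ ?_
      · rintro rfl
        simp at h
      · obtain ⟨q, rfl⟩ := dvd_iff_isRoot.2 c1
        obtain ⟨p, rfl⟩ := dvd_iff_isRoot.2 c0
        exact not_isUnit_X_sub_C (1 : K) (pr _ ⟨C q * X + C p, by simp only [map_mul]; ring⟩)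
      · have := a2 0
        rw [coeff_psi, taylor_coeff_zero] at this
        simpa [add_comm] using this
      · have := a2 1
        rw [coeff_psi, taylor_coeff_one] at this
        simpa [sub_eq_add_neg] using this
    · have h4 := a2.dis (m + 1)
      rw [psi, dis_map, dis_taylor h] at h4
      have h5 := three (dis_ne_zero h hi) (a0.dis _) (a1.dis _) h4
      rw [h]
      push_cast at h5 ⊢
      refine le_of_mul_le_mul_left ?_ (show (0 : ℝ) < 2 * (m + 1) by positivity)
      rw [show τL = τR + b - t by linarith] at h5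
      linarith

open MvPolynomial in
/-- the same change of coordinates -/
noncomputable def chi (L : Type*) [Field L] (N : ℕ) : Fin 2 → MvPolynomial (Fin 2) L :=
  ![X 0 + 1, X 1 + (X 0 + 1) ^ N]

theorem E1_chi (f : MvPolynomial (Fin 2) K) :
    E1 (MvPolynomial.aeval (chi K N) f) = psi N (E1 f) := by
  induction f using MvPolynomial.induction_on with
  | C a => simp [psi, E1]
  | add f g hf hg => simp only [map_add, hf, hg, psi, Polynomial.map_add]
  | mul_X f i hf =>
    rw [map_mul, map_mul, map_mul, psi_mul, hf]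
    congr 1
    fin_cases i <;> simp [chi, psi, E1]

variable {ι : Type} {n : ι → ℤ} {I : Finset ι}

open MvPolynomial in
theorem vertex {h B T l : ℝ} (hh : 0 < h) (hB : 0 ≤ B) (hT : 0 ≤ T) (hτ : (τL - τR) * h = B - T)
    (hS : SS τL τR (T / h))
    (hx : Ex n I fun x j => j ≤ h ∧ l + τL * j ≤ x ∧ x ≤ l + B + τR * j) :
    Ex n I (E h (B + T)) := by
  intro K _ _ q
  have := char_hs (K := K)
  obtain ⟨N, hN⟩ := exists_nat_ge (B / h - τL)
  let w : Fin 2 → ℝ := ![1, B / h + T / h]
  obtain ⟨f, h0, hs, hv⟩ := hx (HahnSeries ℝ K)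
    (fun i k => MvPolynomial.eval (fun k => tr K (w k) * cr K (q i k)) (chi _ N k))
  have inj : ∀ {L : Type} [Field L] {f : MvPolynomial (Fin 2) L}, f ≠ 0 → E1 f ≠ 0 :=
    fun hf e => hf (by
      ext α
      rw [← ex_eta α, ← coeff_E1, e]
      simp)
  have hF : MvPolynomial.aeval (chi _ N) f ≠ 0 := fun e => psi_ne (N := N) (inj h0) (by
    rw [← E1_chi, e, map_zero])
  obtain ⟨g, g0, gv, gs⟩ := degenR w _ hF
  refine ⟨g, g0, fun α hα => ?_, fun i hi => gv _ _ (Van.comp _ _ (hv i hi))⟩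
  obtain ⟨-, l', hl, h3, h4⟩ := gs α hα
  have e' : lam l' (MvPolynomial.aeval (chi _ N) f) =
      MvPolynomial.aeval (chi K N) (lam l' f) := by
    rw [← lam_aeval hl]
    congr 3
    ext k : 1
    fin_cases k <;> simp [chi]
  rw [e'] at h3 h4
  have h5 : lam l' f ≠ 0 := by
    intro h0; simp [h0] at h3
  have h6 := fun β hβ => hs β (support_lam l' f hβ)
  have h7 := key hS (div_nonneg hB hh.le) (by field_simp; linarith) hN _ (inj h5) l (-(l + B))
    (wt w α) (LO_E1.2 fun β hβ => by simp only [wt]; simp; linarith [(h6 β hβ).2.1])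
    (LO_E1.2 fun β hβ => by simp only [wt]; simp; linarith [(h6 β hβ).2.2])
    (by rw [← E1_chi, LO_E1, neg_neg]; exact h4)
  have h8 : ((E1 (lam l' f)).natDegree : ℝ) ≤ h := by
    obtain ⟨a, ha⟩ := Polynomial.support_nonempty.2 (Polynomial.leadingCoeff_ne_zero.2 (inj h5))
    have := h6 (ex a (E1 (lam l' f)).natDegree)
      (mem_support_iff.2 (by rw [← coeff_E1]; exact Polynomial.mem_support_iff.1 ha))
    simpa using this.1
  have h9 := mul_le_mul_of_nonneg_right h8 (div_nonneg hT hh.le)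
  rw [mul_div_cancel₀ _ hh.ne'] at h9
  have h10 := mul_le_mul_of_nonneg_left (show wt w α ≤ B + T by linarith) hh.le
  have h11 : h * wt w α = α 0 * h + α 1 * (B + T) := by
    simp only [wt, w, Matrix.cons_val_zero, Matrix.cons_val_one]
    field_simp
  rw [E]
  linarith

end Pool.Agent.P.MP_d3e5c7_ag.Qh
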