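import Pool.Agent.P.MP_d3e5c7_ag.QhB

/-! Filling a strip with points of equal weight. -/

set_option autoImplicit false

namespace Pool.Agent.P.MP_d3e5c7_ag.Qh

open Nag Nu Finset

theorem ss_U {τL τR t w1 w2 f : ℝ} (i j k : ℤ) (h1 : τL = i - w1) (h2 : τR = j + w2)
    (h3 : t = k + f)
    (h : (0 ≤ w1 ∧ 0 ≤ w2 ∧ w1 ≤ f ∧ w2 ≤ f ∧ f ≤ w1 + w2 ∧ f ≤ 1) ∨
      (0 ≤ f ∧ f ≤ w1 ∧ f ≤ w2 ∧ w1 + w2 ≤ 1 + f)) : SS τL τR t := by
  intro a c z e0 e1 e2 e3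
  subst h1 h2 h3
  have m1 := le_max_left 0 (a - (j + w2))
  have m2 := le_max_right 0 (a - (j + w2))
  have m3 := le_max_left 0 (c + (i - w1))
  have m4 := le_max_right 0 (c + (i - w1))
  have int : ∀ x y : ℤ, (x : ℝ) ≤ y ∨ (y : ℝ) + 1 ≤ x := fun x y => by
    exact_mod_cast (le_or_gt x y)
  have s1 := int z k
  have s2 := int k z
  have s3 := int a j
  have s4 := int c (-i)
  push_cast at s4
  rcases h with ⟨_, _, _, _, _, _⟩ | ⟨_, _, _, _⟩ <;> rcases s1 with _ | _ <;>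
    rcases s2 with _ | _ <;> rcases s3 with _ | _ <;> rcases s4 with _ | _ <;> linarith

theorem exists_mult {θ z : ℝ} (hθ : 0 < θ) (hz : 0 ≤ z) : ∃ r : ℕ, z ≤ r * θ ∧ r * θ ≤ z + θ := by
  refine ⟨⌈z / θ⌉₊, (div_le_iff₀ hθ).1 (Nat.le_ceil _), ?_⟩
  have := mul_le_mul_of_nonneg_right (Nat.ceil_lt_add_one (div_nonneg hz hθ.le)).le hθ.le
  rwa [add_mul, div_mul_cancel₀ _ hθ.ne', one_mul] at this

/-- the condition for filling a right triangle -/
def Lf (μ β : ℝ) : Prop := 3 * μ ≤ β ∨ (3 * μ ≤ 1 ∧ 2 * μ ≤ β)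

variable {ι : Type} [Fintype ι] [DecidableEq ι] {n : ι → ℤ} {I J : Finset ι} {h μ β t : ℝ}
  {P : ℕ → ℕ → Prop}

omit [DecidableEq ι] in
theorem leaf (hh : 0 < h) (h0 : 0 < μ) (h1 : 2 * μ ≤ 1) (hβ : β = J.card * μ ^ 2) (hl : Lf μ β)
    (hn : ∀ i ∈ J, μ * h < n i) : ¬ Ex n J (E h (β * h)) := by
  have hm := mul_pos h0 hh
  have hb : 0 < β := by rcases hl with h2 | ⟨-, h2⟩ <;> linarith
  have hJ : J.Nonempty := by
    rw [nonempty_iff_ne_empty]
    rintro rfl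
    simp [hβ] at hb
  have e : ∑ _i ∈ J, (μ * h) ^ 2 = β * h ^ 2 := by rw [sum_const, nsmul_eq_mul, hβ]; ring
  have hf : Fl n (fun _ => μ * h) (μ * h) J :=
    Fl.group hJ (fun i hi => ⟨hm, hn i hi⟩) fun _ _ => rfl
  intro hx
  rcases hl with h2 | ⟨h2, h3⟩
  · refine hf.up (H := h) hm (by nlinarith) (by rw [e]; nlinarith [mul_pos hh hh]) ?_
    rwa [e, show β * h ^ 2 / h = β * h by field_simp]
  · refine hf.up (H := β * h) hm (by nlinarith)
      (by rw [e]; nlinarith [mul_pos hb (mul_pos hh hh)]) ?_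
    rw [e, show β * h ^ 2 / (β * h) = h by field_simp]
    exact hx.swap.mono fun x j h4 => by simp only [E] at h4 ⊢; linarith

theorem cut' (hJ : J ⊆ I) (u v c : ℝ) (hx : Ex n I P) :
    (Ex n J fun x j => P x j ∧ x * u + j * v ≤ c) ∨
      Ex n (I \ J) fun x j => P x j ∧ c ≤ x * u + j * v :=
  Ex.cut disjoint_sdiff u v c (by rwa [union_sdiff_of_subset hJ])

theorem cut3 {e γ τ : ℝ} (r1 r2 : ℕ) {β1 β2 : ℝ} (hh : 0 < h) (h0 : 0 < μ) (h1 : 2 * μ ≤ 1)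
    (ha : I.card * μ ^ 2 = 2 * t + e) (hn : ∀ i ∈ I, μ * h < n i) (e1 : β1 = r1 * μ ^ 2)
    (e2 : β2 = r2 * μ ^ 2) (l1 : Lf μ β1) (l2 : Lf μ β2) (l3 : Lf μ (2 * t + e - β1 - β2))
    (hγ : (γ = β2 ∧ τ = β2 - e) ∨ (γ = 0 ∧ τ = -e - β2)) (hB : 0 ≤ t + e - γ - β1)
    (hT : 0 ≤ t + e - γ + τ) (hS : SS (-β1) τ (t + e - γ + τ)) :
    ¬ Ex n I fun x j => j ≤ h ∧ x + e * j ≤ (t + e) * h := by
  intro hx
  have hθ : 0 < μ ^ 2 := by positivity
  have h2 : r1 + r2 ≤ I.card := by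
    have : ((r1 : ℝ) + r2) * μ ^ 2 ≤ I.card * μ ^ 2 := by
      rcases l3 with h3 | ⟨-, h3⟩ <;> linarith
    exact_mod_cast le_of_mul_le_mul_right this hθ
  obtain ⟨J1, s1, rfl⟩ := exists_subset_card_eq (show r1 ≤ I.card by omega)
  obtain ⟨J2, s2, rfl⟩ := exists_subset_card_eq
    (show r2 ≤ (I \ J1).card by rw [card_sdiff_of_subset s1]; omega)
  have s3 := s2.trans sdiff_subset
  rcases cut' s1 1 β1 (β1 * h) hx with h3 | h3
  · refine leaf hh h0 h1 e1 l1 (fun i hi => hn i (s1 hi)) (h3.mono fun x j h4 => ?_)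
    have := mul_le_mul_of_nonneg_left h4.2 hh.le
    simp only [E]
    linarith
  rcases cut' s2 (-1) τ (-((t + e - γ) * h)) h3 with h4 | h4
  · refine leaf hh h0 h1 e2 l2 (fun i hi => hn i (s3 hi)) ?_
    have hb : 0 ≤ β2 := by rw [e2]; positivity
    rcases hγ with ⟨rfl, rfl⟩ | ⟨rfl, rfl⟩
    · refine h4.shakeH.mono ?_
      rintro x j ⟨c0, c1, h5, ⟨-, h6⟩, ⟨⟨-, h7⟩, -⟩, -⟩
      have h8 : (c0 : ℝ) + x ≤ c1 := by exact_mod_cast h5
      have := mul_le_mul_of_nonneg_left (show (x : ℝ) + j * γ ≤ γ * h by linarith) hh.le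
      simp only [E]
      linarith
    · refine h4.shakeH.shake.mono ?_
      rintro x j ⟨b0, b1, h9, ⟨c0, c1, h5, ⟨-, h6⟩, ⟨⟨-, h7⟩, -⟩, -⟩, -, -, -, ⟨⟨⟨h10, -⟩, -⟩, -⟩, -⟩
      have h8 : (c0 : ℝ) + x ≤ c1 := by exact_mod_cast h5
      have h11 : (b0 : ℝ) + j ≤ b1 := by exact_mod_cast h9
      have h12 := mul_le_mul_of_nonneg_left (show (b0 : ℝ) ≤ h - j by linarith) hb
      have := mul_le_mul_of_nonneg_left (show (x : ℝ) + j * β2 ≤ β2 * h by linarith) hh.le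
      simp only [E]
      linarith
  · refine leaf (J := (I \ J1) \ J2) hh h0 h1 ?_ l3
      (fun i hi => hn i (sdiff_subset (sdiff_subset hi))) ?_
    · rw [card_sdiff_of_subset s2, card_sdiff_of_subset s1, Nat.sub_sub, Nat.cast_sub h2]
      push_cast
      linarith
    have := vertex (τL := -β1) (τR := τ) (l := β1 * h) hh (mul_nonneg hB hh.le)
      (mul_nonneg hT hh.le) (by ring) (by rwa [mul_div_cancel_right₀ _ hh.ne'])
      (h4.mono fun x j h5 => ⟨h5.1.1.1, by linarith [h5.1.2], by linarith [h5.2]⟩)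
    rwa [show (t + e - γ - β1) * h + (t + e - γ + τ) * h = (2 * t + e - β1 - β2) * h by
      rcases hγ with ⟨rfl, rfl⟩ | ⟨rfl, rfl⟩ <;> ring] at this

theorem strip (e : ℤ) (hh : 0 < h) (h0 : 0 < μ) (h1 : 2 * μ ≤ 1)
    (he : (e = 1 ∧ 0 ≤ t) ∨ (e = 0 ∧ 1 ≤ t)) (hc : 40 ≤ I.card)
    (ha : I.card * μ ^ 2 = 2 * t + e) (hn : ∀ i ∈ I, μ * h < n i) :
    ¬ Ex n I fun x j => j ≤ h ∧ x + (e : ℝ) * j ≤ (t + e) * h := by
  have hθ : 0 < μ ^ 2 := by positivity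
  have hθ' : μ ^ 2 ≤ 1 / 4 := by nlinarith
  have h2 : 40 * μ ^ 2 ≤ 2 * t + e := by
    rw [← ha]
    exact mul_le_mul_of_nonneg_right (by exact_mod_cast hc) hθ.le
  have he' : ((e : ℝ) = 1 ∧ 0 ≤ t) ∨ ((e : ℝ) = 0 ∧ 1 ≤ t) := by exact_mod_cast he
  have e0 : (0 : ℝ) ≤ e := by rcases he' with h | h <;> linarith [h.1]
  have e1 : (e : ℝ) ≤ 1 := by rcases he' with h | h <;> linarith [h.1]
  have one : ∀ z : ℝ, 0 ≤ z → (∀ β, z ≤ β → Lf μ β) → z + 1 / 2 + 2 * μ ^ 2 ≤ t →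
      3 * z + 1 + 4 * μ ^ 2 ≤ 2 * t + e →
      ¬ Ex n I fun x j => j ≤ h ∧ x + (e : ℝ) * j ≤ (t + e) * h := by
    intro z z0 hz z1 z2
    have f0 := Int.fract_nonneg t
    have f1 := (Int.fract_lt_one t).le
    have f2 := Int.floor_add_fract t
    set f := Int.fract t
    have c0 := Int.le_ceil (z + μ ^ 2 - (1 + f) / 2)
    have c1 := Int.ceil_lt_add_one (z + μ ^ 2 - (1 + f) / 2)
    set c := ⌈z + μ ^ 2 - (1 + f) / 2⌉
    obtain ⟨r, r0, r1⟩ := exists_mult hθ (z0.trans (le_max_left z (c + f / 2)))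
    rw [max_le_iff] at r0
    have r2 : max z (c + f / 2) ≤ z + 1 / 2 + μ ^ 2 := max_le (by linarith) (by linarith)
    have r3 : max z (c + f / 2) ≤ c + (1 + f) / 2 - μ ^ 2 := max_le (by linarith) (by linarith)
    refine cut3 r r hh h0 h1 ha hn rfl rfl (hz _ r0.1) (hz _ r0.1) (hz _ (by linarith))
      (Or.inr ⟨rfl, rfl⟩) (by linarith) (by linarith) ?_
    rcases le_total (r * μ ^ 2 - c) f with h3 | h3
    · exact ss_U (w1 := r * μ ^ 2 - c) (w2 := 1 - (r * μ ^ 2 - c)) (f := f - (r * μ ^ 2 - c))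
        (-c) (-e - c - 1) (⌊t⌋ - c) (by push_cast; ring) (by push_cast; ring)
        (by push_cast; linarith) (Or.inr ⟨by linarith, by linarith [r0.2], by linarith, by linarith⟩)
    · exact ss_U (w1 := r * μ ^ 2 - c) (w2 := 1 - (r * μ ^ 2 - c)) (f := 1 + f - (r * μ ^ 2 - c))
        (-c) (-e - c - 1) (⌊t⌋ - c - 1) (by push_cast; ring) (by push_cast; ring)
        (by push_cast; linarith) (Or.inl ⟨by linarith, by linarith, by linarith, by linarith,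
          by linarith, by linarith⟩)
  rcases le_total (3 * μ) 1 with h3 | h3
  swap
  · exact one (3 * μ) (by linarith) (fun _ h => Or.inl h) (by nlinarith) (by nlinarith)
  have hl : ∀ β, 2 * μ ≤ β → Lf μ β := fun _ h => Or.inr ⟨h3, h⟩
  have h4 : μ ^ 2 ≤ 1 / 9 := by nlinarith
  by_cases h5 : 4 ≤ 2 * t + e
  · exact one (2 * μ) (by linarith) hl (by linarith) (by linarith)
  by_cases h6 : 2 ≤ t + e
  · obtain ⟨r2, a0, a1⟩ := exists_mult hθ
      ((by linarith : 0 ≤ 2 * μ).trans (le_max_left _ (t - 1)))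
    obtain ⟨r1, b0, b1⟩ := exists_mult hθ (show 0 ≤ t by linarith)
    rw [max_le_iff] at a0
    have h7 : (e : ℝ) = 1 := by rcases he' with h | h <;> linarith [h.1]
    have h8 : max (2 * μ) (t - 1) ≤ 2 / 3 := max_le (by linarith) (by linarith)
    exact cut3 r1 r2 hh h0 h1 ha hn rfl rfl (hl _ (by linarith)) (hl _ a0.1) (hl _ (by linarith))
      (Or.inl ⟨rfl, rfl⟩) (by linarith) (by linarith)
      (ss_U (w1 := r1 * μ ^ 2 - 1) (w2 := r2 * μ ^ 2) (f := t - 1) (-1) (-1) 1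
        (by push_cast; ring) (by push_cast; linarith) (by push_cast; linarith)
        (Or.inr ⟨by linarith, by linarith, a0.2, by linarith⟩))
  · have h7 : 1 ≤ t + e := by rcases he' with h | h <;> linarith [h.1, h.2]
    have h8 : 0 ≤ t := by linarith
    obtain ⟨r, a0, a1⟩ := exists_mult hθ
      ((by linarith : 0 ≤ 2 * μ).trans (le_max_left _ ((t + e - 1) / 2)))
    have h9 : 2 * μ + μ ^ 2 ≤ (t + e) / 2 := by nlinarith [sq_nonneg (μ - 2 / 9)]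
    have h10 : max (2 * μ) ((t + e - 1) / 2) ≤ (t + e) / 2 - μ ^ 2 :=
      max_le (by linarith) (by linarith)
    have h11 : 2 * μ ≤ 2 * t + e - r * μ ^ 2 - r * μ ^ 2 := by
      rcases he' with h | h
      · have : max (2 * μ) ((t + e - 1) / 2) ≤ (2 * t + e) / 2 - μ - μ ^ 2 :=
          max_le (by nlinarith [sq_nonneg (μ - 3 / 19)]) (by linarith)
        linarith
      · linarith [h.1, h.2]
    rw [max_le_iff] at a0
    refine cut3 r r hh h0 h1 ha hn rfl rfl (hl _ a0.1) (hl _ a0.1) (hl _ h11)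
      (Or.inl ⟨rfl, rfl⟩) (by linarith) (by linarith)
      (ss_U (w1 := r * μ ^ 2) (w2 := r * μ ^ 2) (f := t + e - 1) 0 (-e) (1 - e)
        (by push_cast; ring) (by push_cast; ring) (by push_cast; ring) ?_)
    have : (0 : ℝ) ≤ r * μ ^ 2 := by positivity
    rcases le_total (r * μ ^ 2) (t + e - 1) with h12 | h12
    · exact Or.inl ⟨this, this, h12, h12, by linarith [a0.2], by linarith⟩
    · exact Or.inr ⟨by linarith, h12, h12, by linarith⟩

end Pool.Agent.P.MP_d3e5c7_ag.Qh
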