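import Pool.Agent.P.MP_d3e5c7_ag.QhC
import Pool.Agent.P.MP_d3e5c7_ag.Neg

/-! Classes with all multiplicities but one equal: descent by quadratic transformations. -/

set_option autoImplicit false

namespace Pool.Agent.P.MP_d3e5c7_ag.Qh

open Nag Nu Finset

variable {ι : Type} [Fintype ι] [DecidableEq ι] {d μ : ℤ} {m : ι → ℤ} {I : Finset ι}
  {P : ℕ → ℕ → Prop}

omit [Fintype ι] [DecidableEq ι] in
theorem ex_of_eff (h : Eff d m) (I : Finset ι) : Ex m I fun x j => (x : ℤ) + j ≤ d := by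
  intro K _ _ p
  obtain ⟨f, h0, h1, h2⟩ := h.affine K p
  refine ⟨f, h0, fun α hα => ?_, fun i _ => h2 i⟩
  have h3 : α.degree ≤ f.totalDegree := MvPolynomial.le_totalDegree hα
  rw [← ex_eta α, degree_ex] at h3
  omega

/-- a point cuts off a corner -/
theorem corner {o : ι} (ho : o ∈ I) (h0 : 0 ≤ m o) (hP : ∀ x j, P x j → (x : ℤ) + j ≤ d)
    (hx : Ex m I P) : Ex m (I.erase o) fun x j => P x j ∧ (j : ℤ) + m o ≤ d := by
  rcases h0.eq_or_lt with h1 | h1
  · intro K _ _ p
    obtain ⟨f, h2, h3, h4⟩ := hx K p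
    exact ⟨f, h2, fun α hα => ⟨h3 α hα, by have := hP _ _ (h3 α hα); omega⟩,
      fun i hi => h4 i (mem_of_mem_erase hi)⟩
  have h2 : (1 : ℝ) ≤ m o := by exact_mod_cast h1
  rcases cut' (singleton_subset_iff.2 ho) 0 (-1) (-(d - m o + 1 / 2)) hx with h3 | h3
  · refine absurd (h3.shake.mono ?_) (fill (m := m o - 1 / 2) (singleton_nonempty o)
      (by linarith) (by simp))
    rintro x j ⟨b0, b1, h4, ⟨-, h5⟩, h6, -⟩
    have h7 : (x : ℝ) + b1 ≤ d := by exact_mod_cast hP _ _ h6
    have h8 : (b0 : ℝ) + j ≤ b1 := by exact_mod_cast h4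
    have := mul_le_mul_of_nonneg_right (show (x : ℝ) + j ≤ m o - 1 / 2 by linarith)
      (show (0 : ℝ) ≤ m o - 1 / 2 by linarith)
    simp only [E, card_singleton, Nat.cast_one]
    linarith
  · rw [sdiff_singleton_eq_erase] at h3
    refine h3.mono fun x j h4 => ⟨h4.1, Int.lt_add_one_iff.1 ?_⟩
    have : (j : ℝ) + m o < d + 1 := by linarith [h4.2]
    exact_mod_cast this

theorem strip' {e h T : ℤ} (he : (e = 1 ∧ 0 ≤ T) ∨ (e = 0 ∧ h ≤ T)) (hc : 40 ≤ I.card)
    (hm : ∀ i ∈ I, m i = μ) (h0 : 0 < μ) (h1 : 2 * μ ≤ h) (h2 : h * (2 * T + e * h) < I.card * μ ^ 2) :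
    ¬ Ex m I fun x j => (j : ℤ) ≤ h ∧ x + e * j ≤ T + e * h := by
  intro hx
  have a0 : (0 : ℝ) < μ := by exact_mod_cast h0
  have a1 : 2 * (μ : ℝ) ≤ h := by exact_mod_cast h1
  have a2 : (h : ℝ) * (2 * T + e * h) < I.card * μ ^ 2 := by exact_mod_cast h2
  have hh : (0 : ℝ) < h := by linarith
  have hs : (0 : ℝ) < I.card := by exact_mod_cast (by omega)
  have he' : (e = 1 ∧ (0 : ℝ) ≤ T / h) ∨ (e = 0 ∧ (1 : ℝ) ≤ T / h) :=
    he.imp (fun h => ⟨h.1, div_nonneg (by exact_mod_cast h.2) hh.le⟩)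
      fun h => ⟨h.1, (one_le_div hh).2 (by exact_mod_cast h.2)⟩
  have a3 : (0 : ℝ) < 2 * (T / h) + e := by
    rcases he' with ⟨rfl, h⟩ | ⟨rfl, h⟩ <;> push_cast <;> linarith
  have a4 := Real.sq_sqrt (div_pos a3 hs).le
  have a5 : √((2 * (T / h) + e) / I.card) * h < μ := by
    refine lt_of_pow_lt_pow_left₀ 2 a0.le ?_
    rw [mul_pow, a4, div_mul_eq_mul_div, div_lt_iff₀ hs,
      show (2 * ((T : ℝ) / h) + e) * h ^ 2 = h * (2 * T + e * h) by field_simp]
    linarith
  refine strip (t := T / h) e hh (Real.sqrt_pos.2 (div_pos a3 hs))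
    (le_of_mul_le_mul_right (by linarith) hh) he' hc (by rw [a4]; field_simp)
    (fun i hi => by rwa [hm i hi]) (hx.mono fun x j h3 => ⟨by exact_mod_cast h3.1, ?_⟩)
  rw [add_mul, div_mul_cancel₀ _ hh.ne']
  exact_mod_cast h3.2

theorem flip (o : ι) (k : ℕ) : ∀ (A : Finset ι) (d : ℤ) (m : ι → ℤ), A.card = 2 * k → o ∉ A →
    (∀ i ∈ A, m i = μ) → Neg d m → ¬ IsExc d m → ∃ m' : ι → ℤ,
      Neg (d + k * (d - m o - 2 * μ)) m' ∧ ¬ IsExc (d + k * (d - m o - 2 * μ)) m' ∧
      m' o = m o + k * (d - m o - 2 * μ) ∧ (∀ i ∈ A, m' i = d - m o - μ) ∧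
      ∀ i ∉ A, i ≠ o → m' i = m i := by
  induction k with
  | zero =>
    intro A d m hA _ _ h1 h2
    obtain rfl := card_eq_zero.1 hA
    exact ⟨m, by simpa using h1, by simpa using h2, by simp, by simp, by simp⟩
  | succ k ih =>
    intro A d m hA ho hm h1 h2
    obtain ⟨i, hi, j, hj, hij⟩ := one_lt_card.1 (show 1 < A.card by omega)
    have hio : o ≠ i := fun e => ho (e ▸ hi)
    have hjo : o ≠ j := fun e => ho (e ▸ hj)
    have ht : Function.Injective ![o, i, j] := by
      intro a b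
      fin_cases a <;> fin_cases b <;> simp [hij, hio, hjo, hij.symm, hio.symm, hjo.symm]
    have e0 : ck ![o, i, j] d m = d - m o - 2 * μ := by simp [ck, hm i hi, hm j hj]; ring
    have e1 : ∀ a, cm ![o, i, j] d m (![o, i, j] a) = m (![o, i, j] a) + (d - m o - 2 * μ) :=
      fun a => by rw [cm, ind_t ht, e0, mul_one]
    have e2 : ∀ l, l ≠ o → l ≠ i → l ≠ j → cm ![o, i, j] d m l = m l := fun l a b c => by
      rw [cm, ind_off (fun x => by fin_cases x <;> simp [a.symm, b.symm, c.symm]), mul_zero,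
        add_zero]
    have eo : cm ![o, i, j] d m o = m o + (d - m o - 2 * μ) := e1 0
    have ei : cm ![o, i, j] d m i = m i + (d - m o - 2 * μ) := e1 1
    have ej : cm ![o, i, j] d m j = m j + (d - m o - 2 * μ) := e1 2
    obtain ⟨m', h3, h4, h5, h6, h7⟩ := ih ((A.erase i).erase j) _ _
      (by rw [card_erase_of_mem (mem_erase.2 ⟨hij.symm, hj⟩), card_erase_of_mem hi]; omega)
      (by simp [ho]) (fun l hl => by
        simp only [mem_erase] at hl
        rw [e2 l (fun e => ho (e ▸ hl.2.2)) hl.2.1 hl.1, hm l hl.2.2]) (h1.cm ht)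
      (by rwa [IsExc, dot_cm ht, can_cm])
    rw [e0, eo] at h3 h4 h5 h6
    have e3 : d + (d - m o - 2 * μ) + k * (d + (d - m o - 2 * μ) - (m o + (d - m o - 2 * μ)) -
        2 * μ) = d + (k + 1 : ℕ) * (d - m o - 2 * μ) := by push_cast; ring
    rw [e3] at h3 h4
    refine ⟨m', h3, h4, by rw [h5]; push_cast; ring, fun l hl => ?_, fun l hl hlo => ?_⟩
    · by_cases a : l = i
      · rw [a, h7 i (by simp) hio.symm, ei, hm i hi]; ring
      by_cases b : l = j
      · rw [b, h7 j (by simp) hjo.symm, ej, hm j hj]; ring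
      · rw [h6 l (by simp [a, b, hl])]; ring
    · rw [h7 l (by simp [hl]) hlo, e2 l hlo (fun e => hl (e ▸ hi)) fun e => hl (e ▸ hj)]

omit [Fintype ι] [DecidableEq ι] in
theorem sum_sq {A : Finset ι} (hm : ∀ i ∈ A, m i = μ) : ∑ i ∈ A, m i * m i = A.card * μ ^ 2 := by
  rw [sum_congr rfl fun i hi => by rw [hm i hi], sum_const, nsmul_eq_mul, sq]

theorem std_one (hc : 41 ≤ Fintype.card ι) {o : ι} (hm : ∀ i, i ≠ o → m i = μ) (he : Eff d m)
    (hn : dot d m d m < 0) (h0 : ∀ i, 0 ≤ m i) (h1 : 2 * μ ≤ d - m o) : False := by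
  have hm' : ∀ i ∈ univ.erase o, m i = μ := fun i hi => hm i (ne_of_mem_erase hi)
  have hc' : 40 ≤ (univ.erase o).card := by rw [card_erase_of_mem (mem_univ o), card_univ]; omega
  rw [dot, ← add_sum_erase _ _ (mem_univ o), sum_sq hm'] at hn
  have h2 := he.le o
  have h3 := h0 o
  obtain ⟨i, hi⟩ := card_pos.1 (show 0 < (univ.erase o).card by omega)
  have h4 : 0 < μ := by
    refine (hm' i hi ▸ h0 i).lt_of_ne ?_
    rintro rfl
    nlinarith
  exact strip' (h := d - m o) (Or.inl ⟨rfl, h3⟩) hc' hm' h4 h1 (by linarith)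
    ((corner (mem_univ o) h3 (fun _ _ h => h) (ex_of_eff he univ)).mono fun x j h => by omega)

theorem std_two (hc : 41 ≤ Fintype.card ι) {o o' : ι} (ho : o ≠ o')
    (hm : ∀ i, i ≠ o → i ≠ o' → m i = μ) (hd : d = m o + m o' + μ) (he : Eff d m)
    (hn : dot d m d m < 0) (h0 : 0 ≤ μ) (h1 : μ ≤ m o') (h2 : m o' ≤ m o) : False := by
  let n : Option ι → ℤ := fun i => i.elim 0 m
  have he' : Eff d n := ⟨he.1, fun K _ p => (he.2 K fun i => p (some i)).imp fun F hF =>
    ⟨hF.1, hF.2.1, fun i => by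
      cases i with
      | none => exact van_of_nonpos _ le_rfl
      | some i => exact hF.2.2 i⟩⟩
  have ht : Function.Injective ![some o, some o', none] := by
    intro a b
    fin_cases a <;> fin_cases b <;> simp [ho, ho.symm]
  have e0 : ck ![some o, some o', none] d n = μ := by simp [ck, n, hd]
  have e1 : ∀ a, cm ![some o, some o', none] d n (![some o, some o', none] a) =
      n (![some o, some o', none] a) + μ := fun a => by rw [cm, ind_t ht, e0, mul_one]
  have e2 := dot_cm ht d n d n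
  have e3 := he'.cm ht
  have eo : cm ![some o, some o', none] d n (some o) = m o + μ := e1 0
  have eo' : cm ![some o, some o', none] d n (some o') = m o' + μ := e1 1
  have hm' : ∀ i ∈ (univ.erase (some o')).erase (some o),
      cm ![some o, some o', none] d n i = μ := by
    rintro (_ | i) hi
    · exact (e1 2).trans (zero_add μ)
    · simp only [mem_erase, ne_eq, Option.some.injEq] at hi
      rw [cm, ind_off (fun x => by fin_cases x <;> simp [Ne.symm hi.1, Ne.symm hi.2.1]), mul_zero,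
        add_zero]
      exact hm i hi.1 hi.2.1
  have hoo : some o ∈ univ.erase (some o') := by simp [ho]
  have hc' : 40 ≤ ((univ.erase (some o')).erase (some o)).card := by
    rw [card_erase_of_mem hoo, card_erase_of_mem (mem_univ _), card_univ, Fintype.card_option]
    omega
  have e4 : dot d n d n = dot d m d m := by simp [dot, n]
  rw [e0] at e2 e3
  rw [← e4, ← e2, dot, ← add_sum_erase _ _ (mem_univ (some o')), ← add_sum_erase _ _ hoo,
    sum_sq hm', eo, eo', hd] at hn
  have h4 : 0 < μ := by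
    refine h0.lt_of_ne ?_
    rintro rfl
    nlinarith
  refine strip' (h := m o' + μ) (T := m o + μ) (Or.inr ⟨rfl, by omega⟩) hc' hm' h4 (by omega)
    (by linarith) ((corner (d := d + μ) hoo (by omega) (fun _ _ h => by omega)
      (corner (mem_univ (some o')) (by omega) (fun _ _ h => h) (ex_of_eff e3 univ)).swap).mono
      fun x j h => by omega)

theorem descent (hc : 41 ≤ Fintype.card ι) (N : ℕ) : ∀ (d μ : ℤ) (m : ι → ℤ) (o : ι), d < N →
    Neg d m → ¬ IsExc d m → ((∀ i, i ≠ o → m i = μ) ∨ ∃ o', o ≠ o' ∧ Even (Fintype.card ι) ∧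
      (∀ i, i ≠ o → i ≠ o' → m i = μ) ∧ d = m o + m o' + μ) → False := by
  induction N with
  | zero => exact fun d μ m o hd h _ _ => by have := h.1.1; omega
  | succ N ih =>
    intro d μ m o hd h hx ht
    have h0 := h.nonneg hx
    have lt : ∀ (k : ℕ) (x : ℤ), 0 < k → x < 0 → d + k * x < N := fun k x a b => by
      have := mul_neg_of_pos_of_neg (Int.natCast_pos.2 a) b
      omega
    have c1 : ∀ o : ι, (univ.erase o).card = Fintype.card ι - 1 := fun o => by
      rw [card_erase_of_mem (mem_univ o), card_univ]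
    have c2 : ∀ o o' : ι, o ≠ o' → ((univ.erase o).erase o').card = Fintype.card ι - 2 :=
      fun o o' ho => by rw [card_erase_of_mem (by simp [ho.symm]), c1]; omega
    rcases ht with hm | ⟨o', ho, ⟨k, hk⟩, hm, e⟩
    · by_cases h1 : 2 * μ ≤ d - m o
      · exact std_one hc hm h.1 h.2.1 h0 h1
      rcases Nat.even_or_odd' (Fintype.card ι) with ⟨k, hk | hk⟩
      · obtain ⟨o', ho⟩ := card_pos.1 (show 0 < (univ.erase o).card by rw [c1]; omega)
        have ho := (ne_of_mem_erase ho).symm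
        obtain ⟨m', h2, h3, h4, h5, h6⟩ := flip o (k - 1) _ d m (by rw [c2 o o' ho]; omega)
          (by simp) (fun i hi => hm i (by simp at hi; exact hi.2)) h hx
        refine ih _ (d - m o - μ) m' o (lt _ _ (by omega) (by omega)) h2 h3
          (Or.inr ⟨o', ho, ⟨k, by omega⟩, fun i a b => h5 i (by simp [a, b]), ?_⟩)
        rw [h4, h6 o' (by simp) ho.symm, hm o' ho.symm]
        ring
      · obtain ⟨m', h2, h3, h4, h5, h6⟩ := flip o k _ d m (by rw [c1 o]; omega)
          (by simp) (fun i hi => hm i (by simpa using hi)) h hx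
        exact ih _ (d - m o - μ) m' o (lt _ _ (by omega) (by omega)) h2 h3
          (Or.inl fun i a => h5 i (by simp [a]))
    · have key : ∀ o o' : ι, o ≠ o' → (∀ i, i ≠ o → i ≠ o' → m i = μ) → d = m o + m o' + μ →
          m o' ≤ m o → False := by
        intro o o' ho hm e h1
        obtain ⟨i, hi⟩ := card_pos.1 (show 0 < ((univ.erase o).erase o').card by
          rw [c2 o o' ho]; omega)
        simp only [mem_erase] at hi
        by_cases h2 : μ ≤ m o'
        · exact std_two hc ho hm e h.1 h.2.1 (hm i hi.2.1 hi.1 ▸ h0 i) h2 h1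
        obtain ⟨m', h3, h4, h5, h6, h7⟩ := flip o (k - 1) _ d m (by rw [c2 o o' ho]; omega)
          (by simp) (fun i hi => by simp only [mem_erase] at hi; exact hm i hi.2.1 hi.1) h hx
        refine ih _ (m o') m' o (lt _ _ (by omega) (by omega)) h3 h4 (Or.inl fun i a => ?_)
        by_cases b : i = o'
        · rw [b, h7 o' (by simp) ho.symm]
        · rw [h6 i (by simp [a, b])]
          omega
      rcases le_total (m o') (m o) with h1 | h1
      · exact key o o' ho hm e h1
      · exact key o' o ho.symm (fun i a b => hm i b a) (by omega) h1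

theorem main (hc : 41 ≤ Fintype.card ι) {o : ι} (hm : ∀ i j, i ≠ o → j ≠ o → m i = m j)
    (h : Neg d m) : IsExc d m := by
  by_contra hx
  obtain ⟨j, hj⟩ := Fintype.exists_ne_of_one_lt_card (by omega) o
  exact descent hc (d.toNat + 1) d (m j) m o (by omega) h hx (Or.inl fun i hi => hm i j hi hj)

end Pool.Agent.P.MP_d3e5c7_ag.Qh
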