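import Pool.Agent.P.MP_d3e5c7_ag.Eff
import Pool.Agent.P.MP_d3e5c7_ag.GE

/-! Soundness of the rank check. -/

set_option autoImplicit false

namespace Pool.Agent.P.MP_d3e5c7_ag

open MvPolynomial

section
variable {σ K : Type*} [CommRing K]

theorem pderiv_mem_pow (I : Ideal (MvPolynomial σ K)) (t : σ) (n : ℕ) :
    ∀ x ∈ I ^ (n + 1), pderiv t x ∈ I ^ n := by
  induction n with
  | zero => simp
  | succ n ih =>
    intro x hx
    rw [pow_succ] at hx
    refine Submodule.mul_induction_on hx (fun a ha b hb => ?_) (fun a b ha hb => ?_)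
    · rw [Derivation.leibniz, smul_eq_mul, smul_eq_mul]
      refine Ideal.add_mem _ (Ideal.mul_mem_right _ _ ha) ?_
      rw [pow_succ']
      exact Ideal.mul_mem_mul hb (ih a ha)
    · rw [map_add]; exact Ideal.add_mem _ ha hb

/-- shifted Euler operator -/
noncomputable def th (t : σ) (G : MvPolynomial σ K) : MvPolynomial σ K := pderiv t (X t * G)

theorem coeff_th (t : σ) (G : MvPolynomial σ K) (α : σ →₀ ℕ) :
    coeff α (th t G) = (α t + 1) * coeff α G := by
  rw [th, coeff_pderiv, add_comm α, coeff_X_mul, mul_comm]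

theorem coeff_th_iter (t : σ) (i : ℕ) (G : MvPolynomial σ K) (α : σ →₀ ℕ) :
    coeff α ((th t)^[i] G) = (α t + 1) ^ i * coeff α G := by
  induction i with
  | zero => simp
  | succ i ih => rw [Function.iterate_succ_apply', coeff_th, ih]; ring

theorem th_iter_mem (I : Ideal (MvPolynomial σ K)) (t : σ) (i n : ℕ) (G : MvPolynomial σ K)
    (h : G ∈ I ^ (n + i)) : (th t)^[i] G ∈ I ^ n := by
  induction i generalizing n with
  | zero => simpa using h
  | succ i ih =>
    rw [Function.iterate_succ_apply']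
    exact pderiv_mem_pow I t n _ (Ideal.mul_mem_left _ _ (ih (n + 1) (by convert h using 2; omega)))

end

theorem row_eq {K : Type*} [CommRing K] {F : MvPolynomial (Fin 3) K} {x y : K} {μ i j : ℕ}
    (h : Van ![x, y, 1] μ F) (hij : i + j < μ) :
    ∑ α ∈ F.support, ((α 0 + 1) ^ i * x ^ α 0) * ((α 1 + 1) ^ j * y ^ α 1) * coeff α F = 0 := by
  rw [van_iff] at h
  have h1 : (th 0)^[i] ((th 1)^[j] F) ∈ mI ![x, y, 1] ^ 1 := by
    apply th_iter_mem
    apply th_iter_mem
    exact Ideal.pow_le_pow_right (by simp; omega) h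
  rw [pow_one, mem_mI, eval_eq'] at h1
  rw [← h1]
  symm
  apply Finset.sum_subset_zero_on_sdiff
  · intro α hα
    rw [mem_support_iff, coeff_th_iter, coeff_th_iter] at hα
    rw [mem_support_iff]
    intro h0
    simp [h0] at hα
  · intro α hα
    have := notMem_support_iff.1 (Finset.mem_sdiff.1 hα).2
    rw [coeff_th_iter, coeff_th_iter] at this
    linear_combination (x ^ α 0 * y ^ α 1) * this
  · intro α _
    rw [coeff_th_iter, coeff_th_iter, Fin.prod_univ_three]
    simp; ring

namespace GE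

theorem vec_eq (w p j y : ℕ) (l : List ℕ) :
    vec w p j y l = Nat.ofDigits (2 ^ w) (l.map (ent p j y)) := by
  induction l with
  | nil => rfl
  | cons b l ih =>
    rw [List.map_cons, Nat.ofDigits_cons, ← ih]
    change ent p j y b + vec w p j y l <<< w = _
    rw [Nat.shiftLeft_eq, mul_comm]

/-- the columns -/
def cols (l : List (ℕ × ℕ × ℕ)) : List (ℕ × ℕ) :=
  l.flatMap fun s => (List.range' s.2.1 s.2.2).map fun b => (s.1, b)

theorem row_eq_ofDigits (w p i x : ℕ) (v : ℕ → ℕ) (hv : ∀ b, v b < 2 ^ w) (n : ℕ)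
    (l : List (ℕ × ℕ × ℕ)) (hl : ∀ s ∈ l, s.2.2 = 0 ∨ s.2.1 + s.2.2 ≤ n) :
    row w p i x (Nat.ofDigits (2 ^ w) ((List.range n).map v)) l =
      Nat.ofDigits (2 ^ w) ((cols l).map fun q => ent p i x q.1 * v q.2) := by
  induction l with
  | nil => rfl
  | cons s l ih =>
    have hB : 0 < 2 ^ w := by positivity
    rw [cols, List.flatMap_cons, List.map_append, Nat.ofDigits_append, ← cols,
      ← ih (fun s hs => hl s (List.mem_cons_of_mem _ hs))]
    change ent p i x s.1 * ((Nat.ofDigits (2 ^ w) ((List.range n).map v) >>> (w * s.2.1)) %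
      2 ^ (w * s.2.2)) + row w p i x _ l <<< (w * s.2.2) = _
    have hd : ∀ z ∈ (List.range n).map v, z < 2 ^ w := by
      intro z hz
      obtain ⟨b, _, rfl⟩ := List.mem_map.1 hz
      exact hv b
    rw [Nat.shiftLeft_eq, Nat.shiftRight_eq_div_pow, pow_mul, pow_mul,
      Nat.ofDigits_div_pow_eq_ofDigits_drop _ hB _ hd,
      Nat.ofDigits_mod_pow_eq_ofDigits_take _ hB _ (fun z hz => hd z (List.mem_of_mem_drop hz)),
      ← ofDigits_map_mul, mul_comm]
    simp only [List.length_map, List.length_range', List.map_map]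
    congr 2
    apply List.ext_getElem
    · rcases hl s List.mem_cons_self with h | h <;> simp <;> omega
    · intro t h1 h2
      simp

theorem length_cols (l : List (ℕ × ℕ × ℕ)) : (cols l).length = (l.map fun s => s.2.2).sum := by
  simp [cols, List.length_flatMap]

theorem dotL_map_map {α K : Type*} [CommRing K] (l : List α) (f : α → ℕ) (g : α → K) :
    dotL (l.map f) (l.map g) = (l.map fun q => (f q : K) * g q).sum := by
  induction l with
  | nil => simp
  | cons a l ih => simp [ih]

theorem mem_cols {d m0 m1 m2 a b : ℕ} : (a, b) ∈ cols (segs d m0 m1 m2) ↔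
    a ≤ d - m0 ∧ m2 - a ≤ b ∧ b ≤ d - m1 ∧ b ≤ d - a := by
  simp only [cols, segs, List.mem_flatMap, List.mem_map, List.mem_range, List.mem_range'_1,
    Prod.mk.injEq, lo, ln]
  constructor
  · rintro ⟨s, ⟨a', h1, rfl⟩, b', h2, rfl, rfl⟩
    simp only at h2 ⊢
    omega
  · intro h
    exact ⟨_, ⟨a, by omega, rfl⟩, b, by simp only; omega, rfl, rfl⟩

theorem nodup_cols (d m0 m1 m2 : ℕ) : (cols (segs d m0 m1 m2)).Nodup := by
  rw [cols, List.nodup_flatMap]
  constructor
  · intro s _
    exact (List.nodup_range' _).map (fun a b h => by simpa using h)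
  · rw [segs, List.pairwise_map]
    refine (List.nodup_range).imp fun {a b} hab => ?_
    intro q h1 h2
    simp only [List.mem_map] at h1 h2
    obtain ⟨_, _, rfl⟩ := h1
    obtain ⟨_, _, h3⟩ := h2
    exact hab (congrArg Prod.fst h3).symm

end GE

open _root_.Pool.Agent.P.MP_d3e5c7_ag.GE

/-- the class `(d; l)` is not effective -/
def NE (d : ℕ) (l : List ℕ) : Prop := ¬ Eff (ι := ℕ) (d : ℤ) (fun n => (l.getD n 0 : ℕ))

/-- exponent vector -/
noncomputable def ex (d : ℕ) (q : ℕ × ℕ) : Fin 3 →₀ ℕ :=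
  Finsupp.equivFunOnFinite.symm ![q.1, q.2, d - q.1 - q.2]

theorem check_sound (k w d m0 m1 m2 : ℕ) (pts : List (ℕ × ℕ × ℕ)) (hp : (2 ^ k - 1).Prime)
    (hkw : 2 ^ (k + 1) ≤ 2 ^ w) (h : check k w d m0 m1 m2 pts = true) :
    NE d (m0 :: m1 :: m2 :: pts.map (·.1)) := by
  classical
  intro hE
  have := Fact.mk hp
  set p := 2 ^ k - 1 with hpd
  let P : ℕ → Fin 3 → ZMod p := fun n => match n with
    | 0 => Pi.single 0 1
    | 1 => Pi.single 1 1
    | 2 => Pi.single 2 1
    | n + 3 => ![(pts.getD n (0, 0, 0)).2.1, (pts.getD n (0, 0, 0)).2.2, 1]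
  obtain ⟨F, hF0, hFd, hF⟩ := hE.2 (ZMod p) P
  rw [Int.toNat_natCast] at hFd
  have hs : ∀ α ∈ F.support, (α 0, α 1) ∈ cols (segs d m0 m1 m2) ∧ ex d (α 0, α 1) = α := by
    intro α hα
    have h0 := le_of_van_single 0 hFd (hF 0) hα
    have h1 := le_of_van_single 1 hFd (hF 1) hα
    have h2 := le_of_van_single 2 hFd (hF 2) hα
    have h3 : α.degree = d := by
      by_contra h4; exact mem_support_iff.1 hα (hFd.coeff_eq_zero h4)
    rw [degree3] at h3
    simp only [List.getD_cons_zero, List.getD_cons_succ] at h0 h1 h2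
    refine ⟨mem_cols.2 (by omega), ?_⟩
    ext t
    fin_cases t <;> simp [ex]
    omega
  simp only [check, frc_eq] at h
  obtain ⟨h1, h2⟩ := GE.cond_true h
  rw [Nat.ble_eq] at h1
  have hB : 0 < 2 ^ w := by positivity
  have hp0 := hp.pos
  have hK : ((2 ^ k - 1 : ℕ) : ZMod p) = 0 := ZMod.natCast_self _
  have hent : ∀ i x a, ent p i x a < p := fun i x a => Nat.mod_lt _ hp0
  have hent' : ∀ i x a, ((ent p i x a : ℕ) : ZMod p) = (a + 1) ^ i * x ^ a := by
    intro i x a
    change (((a + 1) ^ i * x ^ a % p : ℕ) : ZMod p) = _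
    rw [cast_mod hK]; push_cast; rfl
  have key := elim_true hK hp0 hkw _ le_rfl _ _
    ((cols (segs d m0 m1 m2)).map fun q => coeff (ex d q) F)
    (by rw [List.length_map, length_cols, ncol]) h2 (by
      intro R hR
      simp only [rows, List.mem_flatMap, List.mem_map, List.mem_range] at hR
      obtain ⟨q, hq, j, hj, i, hi, rfl⟩ := hR
      refine ⟨(cols (segs d m0 m1 m2)).map fun c => ent p i q.2.1 c.1 * ent p j q.2.2 c.2,
        by simp, ?_, ?_, ?_⟩
      · rw [vec_eq, row_eq_ofDigits]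
        · intro b
          have := hent j q.2.2 b
          have : p ≤ p * p := Nat.le_mul_self p
          rw [← hpd] at h1 ⊢
          omega
        · intro s hs
          obtain ⟨a, _, rfl⟩ := List.mem_map.1 hs
          simp only [lo, ln]
          omega
      · intro z hz
        obtain ⟨c, _, rfl⟩ := List.mem_map.1 hz
        exact Nat.mul_le_mul (hent _ _ _).le (hent _ _ _).le
      · rw [dotL_map_map, ← List.sum_toFinset _ (nodup_cols d m0 m1 m2)]
        obtain ⟨n, hn, rfl⟩ := List.mem_iff_getElem.1 hq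
        have h3 := hF (n + 3)
        simp only [P, List.getD_cons_succ] at h3
        rw [List.getD_eq_getElem _ _ hn, List.getD_eq_getElem _ _ (by simpa using hn),
          List.getElem_map] at h3
        rw [← row_eq h3 (i := i) (j := j) (by omega)]
        symm
        refine Finset.sum_bij_ne_zero (fun α _ _ => (α 0, α 1)) (fun α hα _ => ?_)
          (fun α hα _ β hβ _ hab => ?_) (fun c hc h0 => ?_) (fun α hα _ => ?_)
        · exact List.mem_toFinset.2 (hs α hα).1
        · rw [← (hs α hα).2, ← (hs β hβ).2, hab]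
        · have h4 : coeff (ex d c) F ≠ 0 := right_ne_zero_of_mul h0
          refine ⟨ex d c, mem_support_iff.2 h4, ?_, by simp [ex]⟩
          rw [Nat.cast_mul, hent', hent'] at h0
          simpa [ex] using h0
        · rw [(hs α hα).2, Nat.cast_mul, hent', hent'])
  obtain ⟨α, hα⟩ := ne_zero_iff.1 hF0
  have h5 := hs α (mem_support_iff.2 hα)
  apply hα
  apply key
  exact List.mem_map.2 ⟨_, h5.1, by rw [h5.2]⟩

end Pool.Agent.P.MP_d3e5c7_ag
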