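import Pool.Agent.P.MP_d3e5c7_ag.NuD

/-! Collisions of groups of points. -/

set_option autoImplicit false

namespace Pool.Agent.P.MP_d3e5c7_ag.Sc

open MvPolynomial Nag Nu Finset

variable {ι κ τ : Type} {n : ι → ℤ} {I J G : Finset ι} {P : ℕ → ℕ → Prop}

theorem anti (h : Ex n I P) (hJ : J ⊆ I) : Ex n J P := fun K _ _ p =>
  (h K p).imp fun _ hf => ⟨hf.1, hf.2.1, fun i hi => hf.2.2 i (hJ hi)⟩

theorem comp {e : κ → ι} (he : Function.Injective e) {S : Finset κ} (hS : ∀ k ∈ S, e k ∈ I)
    (h : Ex n I P) : Ex (fun k => n (e k)) S P := fun K _ _ p =>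
  (h K (Function.extend e p 0)).imp fun _ hf => ⟨hf.1, hf.2.1, fun k hk => by
    have := hf.2.2 _ (hS k hk)
    rwa [he.extend_apply] at this⟩

theorem of_comp (e : κ → ι) {S : Finset κ} (hS : ∀ i ∈ I, ∃ k ∈ S, e k = i)
    (h : Ex (fun k => n (e k)) S P) : Ex n I P := fun K _ _ p =>
  (h K fun k => p (e k)).imp fun _ hf => ⟨hf.1, hf.2.1, fun i hi => by
    obtain ⟨k, hk, rfl⟩ := hS i hi
    exact hf.2.2 k hk⟩

/-- regions closed under lowering the exponents -/
def Down (P : ℕ → ℕ → Prop) : Prop := ∀ x j x' j', x' ≤ x → j' ≤ j → P x j → P x' j'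

theorem support_sh {K : Type} [Field K] (p : Fin 2 → K) (f : MvPolynomial (Fin 2) K)
    {α : Fin 2 →₀ ℕ} (hα : α ∈ (sh p f).support) : ∃ β ∈ f.support, ∀ k, α k ≤ β k := by
  classical
  rw [f.as_sum, map_sum] at hα
  obtain ⟨β, hβ, h1⟩ := mem_biUnion.1 (support_sum hα)
  refine ⟨β, hβ, fun k => (monomial_le_degreeOf k h1).trans ?_⟩
  have h2 : ∀ l, degreeOf k (X l + C (p l) : MvPolynomial (Fin 2) K) ≤ if k = l then 1 else 0 :=
    fun l => (degreeOf_add_le _ _ _).trans (by simp [degreeOf_X, degreeOf_C])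
  rw [mono2]
  simp only [sh, map_mul, map_pow, aeval_C, aeval_X, algebraMap_eq]
  refine (degreeOf_C_mul_le _ _ _).trans ((degreeOf_mul_le _ _ _).trans ?_)
  refine (add_le_add ((degreeOf_pow_le _ _ _).trans (Nat.mul_le_mul_left _ (h2 0)))
    ((degreeOf_pow_le _ _ _).trans (Nat.mul_le_mul_left _ (h2 1)))).trans ?_
  fin_cases k <;> simp

theorem van_shift {K : Type} [Field K] {p q : Fin 2 → K} {m : ℤ} {f : MvPolynomial (Fin 2) K}
    (h : Van (p - q) m f) : Van p m (sh (-q) f) := by
  apply Van.comp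
  have e : (fun k => eval p (X k + C ((-q) k) : MvPolynomial (Fin 2) K)) = p - q := by
    ext k
    simp [sub_eq_add_neg]
  rwa [e]

variable [Fintype ι] [DecidableEq ι]

/-- a group of points that empties all degrees below `n o` acts as one point of multiplicity
`n o` -/
theorem collide (o : ι) (hGI : Disjoint G I) (hP : Down P)
    (hG : ¬ Ex n G fun x j => (x : ℤ) + j < n o) (h : Ex n (G ∪ I) P) : Ex n (insert o I) P := by
  rcases h.cut hGI 1 1 (n o - 1 / 2) with h1 | h1
  · refine absurd (h1.mono fun x j h2 => ?_) hG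
    have : (x : ℝ) + j < n o := by linarith [h2.2]
    exact_mod_cast this
  intro K _ _ p
  obtain ⟨f, f0, fs, fv⟩ := h1 K fun i => p i - p o
  refine ⟨sh (-p o) f, sh_ne_zero f0, fun α hα => ?_, fun i hi => van_shift ?_⟩
  · obtain ⟨β, hβ, h2⟩ := support_sh _ _ hα
    exact hP _ _ _ _ (h2 0) (h2 1) (fs β hβ).1
  · rcases mem_insert.1 hi with rfl | hi
    · intro β hβ
      have e : sh (p i - p i) f = f := by
        have : sh (p i - p i) = AlgHom.id K _ := by
          ext k : 1
          simp [sh]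
        rw [this]
        rfl
      rw [e]
      by_contra h2
      have h3 := (fs β (mem_support_iff.2 h2)).2
      rw [← ex_eta β, degree_ex] at hβ
      have h4 : (n i : ℝ) < (β 0 : ℝ) + β 1 + 1 := by linarith
      have h5 : n i < (β 0 : ℤ) + β 1 + 1 := by exact_mod_cast h4
      push_cast at hβ
      omega
    · exact fv i hi

theorem collide_all [Fintype κ] [Fintype τ] {m : κ × τ → ℤ} {N : κ → ℤ} (hP : Down P)
    (hN : ∀ k, ¬ Ex (fun t => m (k, t)) univ fun x j => (x : ℤ) + j < N k) (h : Ex m univ P) :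
    Ex N univ P := by
  classical
  have key : ∀ S : Finset κ, Ex (Sum.elim m N)
      (univ.filter fun z => Sum.elim (fun a => a.1 ∉ S) (fun k => k ∈ S) z) P := by
    intro S
    induction S using Finset.induction_on with
    | empty =>
      refine of_comp Sum.inl (S := univ) ?_ h
      rintro (a | k) hz
      · exact ⟨a, mem_univ _, rfl⟩
      · simp at hz
    | insert k S hk ih =>
      refine anti (collide (G := univ.image fun t => Sum.inl (k, t))
        (I := univ.filter fun z => Sum.elim (fun a => a.1 ∉ insert k S) (fun l => l ∈ S) z)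
        (Sum.inr k) ?_ hP (fun h1 => hN k ?_) (anti ih ?_)) ?_
      · rw [disjoint_left]
        intro z h1 h2
        obtain ⟨t, -, rfl⟩ := mem_image.1 h1
        simp at h2
      · exact comp (e := fun t => Sum.inl (k, t)) (fun a b hab => by simpa using hab)
          (fun t _ => mem_image.2 ⟨t, mem_univ t, rfl⟩) h1
      · rintro z hz
        rcases mem_union.1 hz with h1 | h1
        · obtain ⟨t, -, rfl⟩ := mem_image.1 h1
          simpa using hk
        · rcases z with a | l
          · simp at h1 ⊢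
            exact h1.2
          · simpa using h1
      · rintro (a | l) hz
        · simpa using hz
        · simpa using hz
  exact comp (e := Sum.inr) Sum.inr_injective (fun k _ => by simp) (key univ)

theorem totalDegree_le {K : Type} [Field K] {f : MvPolynomial (Fin 2) K} {d : ℕ}
    (h : ∀ α ∈ f.support, α 0 + α 1 ≤ d) : f.totalDegree ≤ d := by
  refine Finset.sup_le fun α hα => ?_
  have := degree_ex (α 0) (α 1)
  rw [ex_eta] at this
  change α.degree ≤ d
  rw [this]
  exact h α hα

/-- sixteen points: the strict inequality of Nagata -/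
theorem sixteen {N : Fin 16 → ℤ} (hN : ∀ i, 0 ≤ N i) (h4 : 4 ≤ ∑ i, N i) :
    ¬ Ex N univ fun x j => (x : ℤ) + j < (∑ i, N i) / 4 + 1 := by
  intro h
  obtain ⟨K, _, _, q, hq⟩ := exists_gen (Fin 16)
  obtain ⟨f, f0, fs, fv⟩ := h K q
  obtain ⟨D, hD⟩ : ∃ D : ℕ, (D : ℤ) = (∑ i, N i) / 4 := ⟨((∑ i, N i) / 4).toNat, by omega⟩
  have h1 := nagata (s := 16) (d := D) (by norm_num) (by omega) q hq (fun i => (N i).toNat) f0
    (totalDegree_le fun α hα => by have := fs α hα; omega)
    fun i => (fv i (mem_univ i)).mono (by have := hN i; omega)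
  have h2 : ((∑ i, (N i).toNat : ℕ) : ℤ) = ∑ i, N i := by
    push_cast
    exact sum_congr rfl fun i _ => Int.toNat_of_nonneg (hN i)
  have h3 : 4 * D ≤ ∑ i, (N i).toNat := by omega
  nlinarith

omit [DecidableEq ι] in
/-- points on a line fill a thin triangle up to the mean of their multiplicities -/
theorem fill_mean {c : ℝ} (hc : 0 < c) (hn : Fintype.card ι * c < ∑ i, (n i : ℝ)) :
    ¬ Ex n univ (E c (Fintype.card ι * c)) := by
  intro hx
  let x : ι → ℚ := fun i => (Fintype.equivFin ι i : ℕ) + 1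
  obtain ⟨f, h0, hs, hv⟩ := hx ℚ fun i => ![x i, 0]
  obtain ⟨j, K1, K2, h1, -, h2, -⟩ := row_bound x (fun a b hab => by
      have : (Fintype.equivFin ι a : ℕ) = Fintype.equivFin ι b := by simpa [x] using hab
      exact (Fintype.equivFin ι).injective (Fin.ext this)) (fun i => by positivity) h0
    (fun i => (n i).toNat) (fun i β hβ => by
      rcases le_total (n i) 0 with h3 | h3
      · omega
      · exact hv i (mem_univ i) β (by omega))
  have h3 : (K2 : ℝ) * c + j * (Fintype.card ι * c) ≤ c * (Fintype.card ι * c) := by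
    simpa [E] using hs _ h2
  have h4 : ∑ i, ((n i : ℝ) - j) ≤ ∑ i, (((n i).toNat - j : ℕ) : ℝ) := by
    refine sum_le_sum fun i _ => ?_
    have h5 : n i - j ≤ (((n i).toNat - j : ℕ) : ℤ) := by omega
    exact_mod_cast h5
  have h5 : ∑ i, (((n i).toNat - j : ℕ) : ℝ) ≤ K2 := by exact_mod_cast (by omega)
  rw [sum_sub_distrib, sum_const, card_univ, nsmul_eq_mul] at h4
  nlinarith

end Pool.Agent.P.MP_d3e5c7_ag.Sc
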