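import Pool.Agent.P.MP_d3e5c7_ag.ScA
import Pool.Agent.P.MP_d3e5c7_ag.Neg

/-! Nine points with close multiplicities, and bundles of 192 such groups. -/

set_option autoImplicit false

namespace Pool.Agent.P.MP_d3e5c7_ag.Sc

open MvPolynomial Nag Nu Finset

theorem chamber0 (t u0 u1 u2 u3 u4 u5 u6 u7 u8 u9 a1 a2 a3 a4 a5 a6 a7 a8 a9 d : ℤ)
    (h0 : 0 ≤ u0) (h1 : 0 ≤ u1) (h2 : 0 ≤ u2) (h3 : 0 ≤ u3) (h4 : 0 ≤ u4) (h5 : 0 ≤ u5)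
    (h6 : 0 ≤ u6) (h7 : 0 ≤ u7) (h8 : 0 ≤ u8) (h9 : 0 ≤ u9) (e1 : a1 = t + u1)
    (e2 : a2 = a1 + u2) (e3 : a3 = a2 + u3) (e4 : a4 = a3 + u4) (e5 : a5 = a4 + u5)
    (e6 : a6 = a5 + u6) (e7 : a7 = a6 + u7) (e8 : a8 = a7 + u8) (e9 : a9 = a8 + u9)
    (e0 : d = a9 + a8 + a7 + u0) :
    0 ≤ d * d - (t * t + a1 * a1 + a2 * a2 + a3 * a3 + a4 * a4 + a5 * a5 + a6 * a6 + a7 * a7 +
      a8 * a8 + a9 * a9) + (3 * d - (t + a1 + a2 + a3 + a4 + a5 + a6 + a7 + a8 + a9)) ^ 2 := by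
  subst e0 e9 e8 e7 e6 e5 e4 e3 e2 e1
  ring_nf
  positivity

theorem sum_ten (f : Fin 10 → ℤ) :
    ∑ i, f i = f 0 + f 1 + f 2 + f 3 + f 4 + f 5 + f 6 + f 7 + f 8 + f 9 := by
  simp [Fin.sum_univ_succ]
  ring

theorem cone (N : ℕ) : ∀ (d : ℤ) (m : Fin 10 → ℤ), d < N → Eff d m →
    0 ≤ dot d m d m + (3 * d - ∑ i, m i) ^ 2 := by
  induction N with
  | zero => exact fun d m hd h => by have := h.1; omega
  | succ N ih =>
    intro d m hd h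
    have hs := Tuple.monotone_sort m
    set σ := Tuple.sort m
    have ht : Function.Injective ![σ 9, σ 8, σ 7] := by
      intro a b
      fin_cases a <;> fin_cases b <;> simp
    rcases lt_or_ge (ck ![σ 9, σ 8, σ 7] d m) 0 with h1 | h1
    · have := ih _ _ (by omega) (h.cm ht)
      rwa [dot_cm ht, can_cm] at this
    · have h2 : ∀ i j : Fin 10, i ≤ j → 0 ≤ m (σ j) - m (σ i) := fun i j hij =>
        sub_nonneg.2 (hs hij)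
      rw [dot, ← Equiv.sum_comp σ, ← Equiv.sum_comp σ m, sum_ten, sum_ten]
      exact chamber0 _ _ _ _ _ _ _ _ _ _ _ _ _ _ _ _ _ _ _ _ _ h1 (h2 0 1 (by decide))
        (h2 1 2 (by decide)) (h2 2 3 (by decide)) (h2 3 4 (by decide)) (h2 4 5 (by decide))
        (h2 5 6 (by decide)) (h2 6 7 (by decide)) (h2 7 8 (by decide)) (h2 8 9 (by decide))
        (by ring) (by ring) (by ring) (by ring) (by ring) (by ring) (by ring) (by ring) (by ring)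
        (by simp [ck])

theorem cone9 {m : Fin 9 → ℤ} {N : ℤ} (h : Ex m univ fun x j => (x : ℤ) + j < N) :
    ∑ i, m i ^ 2 ≤ (N - 1) ^ 2 + (3 * (N - 1) - ∑ i, m i) ^ 2 := by
  obtain ⟨K, _, _, q, hq⟩ := exists_gen (Fin 10)
  obtain ⟨f, f0, fs, fv⟩ := h K fun i => q i.succ
  obtain ⟨α, hα⟩ := support_nonempty.2 f0
  have h0 := fs α hα
  have h1 : f.totalDegree ≤ (N - 1).toNat :=
    totalDegree_le fun β hβ => by have := fs β hβ; omega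
  have h2 : Eff (N - 1) (Fin.cons 0 m : Fin 10 → ℤ) :=
    eff_of_affine q hq f0 (by omega) fun i => by
      refine Fin.cases ?_ (fun j => ?_) i
      · exact van_of_nonpos _ le_rfl
      · exact fv j (mem_univ j)
  have h3 := cone N.toNat _ _ (by omega) h2
  simp only [dot, Fin.sum_univ_succ (n := 9), Fin.cons_zero, Fin.cons_succ] at h3
  simp only [sq] at h3 ⊢
  linarith

/-- variance bound for numbers in an interval -/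
theorem sum_sq_le {κ : Type} [Fintype κ] (x : κ → ℝ) {lo w : ℝ} (h : ∀ k, lo ≤ x k ∧ x k ≤ lo + w) :
    Fintype.card κ * ∑ k, x k ^ 2 ≤ (∑ k, x k) ^ 2 + (Fintype.card κ * w) ^ 2 / 4 := by
  have h1 : ∑ k, x k ^ 2 ≤ ∑ k, ((2 * lo + w) * x k - lo * (lo + w)) :=
    sum_le_sum fun k _ => by nlinarith [mul_nonneg (sub_nonneg.2 (h k).1) (sub_nonneg.2 (h k).2)]
  rw [sum_sub_distrib, ← mul_sum, sum_const, card_univ, nsmul_eq_mul] at h1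
  have h2 := mul_le_mul_of_nonneg_left h1 (Nat.cast_nonneg (Fintype.card κ))
  nlinarith [sq_nonneg (∑ k, x k - Fintype.card κ * (lo + w / 2))]

theorem nine {m : Fin 9 → ℤ} {y : ℝ} (hy : 2 ≤ y)
    (hm : ∀ i, y ^ 4 ≤ m i ∧ (m i : ℝ) ≤ y ^ 4 + y ^ 3 / 2) :
    ∃ θ : ℝ, (¬ Ex m univ fun x j => (x : ℤ) + j < ⌈θ⌉) ∧ (∑ i, (m i : ℝ)) / 3 ≤ θ ∧
      θ ≤ (∑ i, (m i : ℝ)) / 3 + y ^ 2 / 10 ∧ ∑ i, (m i : ℝ) ^ 2 ≤ θ ^ 2 + y ^ 4 / 10 := by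
  obtain ⟨μ, hμ⟩ : ∃ μ, ∑ i, (m i : ℝ) = 3 * μ := ⟨(∑ i, (m i : ℝ)) / 3, by ring⟩
  have h1 : 9 * y ^ 4 ≤ 3 * μ := by
    have := card_nsmul_le_sum univ (fun i => (m i : ℝ)) _ fun i _ => (hm i).1
    simpa [hμ] using this
  have h2 := sum_sq_le (fun i => (m i : ℝ)) hm
  have h3 := sq_sum_le_card_mul_sum_sq (s := univ) (f := fun i => (m i : ℝ))
  simp only [Fintype.card_fin, card_univ, Nat.cast_ofNat, hμ] at h2 h3
  have y2 : 4 ≤ y ^ 2 := by nlinarith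
  have y4 : 4 * y ^ 2 ≤ y ^ 4 := by nlinarith
  have μ0 : 0 < μ := by linarith
  obtain ⟨z, hz⟩ : ∃ z, ∑ i, (m i : ℝ) ^ 2 = μ ^ 2 + 2 * μ * z :=
    ⟨(∑ i, (m i : ℝ) ^ 2 - μ ^ 2) / (2 * μ), by field_simp; ring⟩
  rw [hz] at h2 h3
  have z0 : 0 ≤ z := by
    by_contra h0
    nlinarith
  have z1 : z ≤ y ^ 2 / 10 := by
    by_contra h0
    have h4 : 3 * y ^ 4 * (y ^ 2 / 10) ≤ μ * z :=
      mul_le_mul (by linarith) (not_le.1 h0).le (by positivity) μ0.le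
    have h5 : 0 < y ^ 6 := by positivity
    nlinarith
  obtain ⟨e, he⟩ : ∃ e, μ * e = μ * z - 5 * z ^ 2 := ⟨z - 5 * z ^ 2 / μ, by field_simp⟩
  have e0 : 0 ≤ e := by
    by_contra h0
    nlinarith [mul_nonneg z0 (show 0 ≤ μ - 5 * z by linarith)]
  have e1 : e ≤ z := by
    by_contra h0
    nlinarith [sq_nonneg z]
  refine ⟨μ + e, fun hx => ?_, by rw [hμ]; linarith, by rw [hμ]; linarith, ?_⟩
  · have h4 : ∑ i, (m i : ℝ) ^ 2 ≤ ((⌈μ + e⌉ : ℝ) - 1) ^ 2 +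
        (3 * ((⌈μ + e⌉ : ℝ) - 1) - ∑ i, (m i : ℝ)) ^ 2 := by exact_mod_cast cone9 hx
    have h5 := Int.le_ceil (μ + e)
    have h6 := Int.ceil_lt_add_one (μ + e)
    obtain ⟨g, hg⟩ : ∃ g, (⌈μ + e⌉ : ℝ) - 1 = μ + g := ⟨(⌈μ + e⌉ : ℝ) - 1 - μ, by ring⟩
    rw [hz, hμ, hg] at h4
    have h7 : 0 < (e - g) * (2 * μ + 10 * (e + g)) := mul_pos (by linarith) (by linarith)
    nlinarith [mul_le_mul e1 e1 e0 z0]
  · rw [hz]
    nlinarith [mul_le_mul z1 z1 z0 (by positivity), sq_nonneg e]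

theorem down_E {H B : ℝ} (hH : 0 ≤ H) (hB : 0 ≤ B) : Down (E H B) := by
  intro x j x' j' h1 h2 h3
  have h4 : (x' : ℝ) ≤ x := by exact_mod_cast h1
  have h5 : (j' : ℝ) ≤ j := by exact_mod_cast h2
  simp only [E] at h3 ⊢
  nlinarith

theorem bundle {m : (Fin 12 × Fin 16) × Fin 9 → ℤ} {y lo c : ℝ} (hy : 2 ≤ y)
    (hm : ∀ i, y ^ 4 ≤ m i ∧ (m i : ℝ) ≤ y ^ 4 + y ^ 3 / 2)
    (hs : ∀ g, 3 * lo ≤ ∑ t, (m (g, t) : ℝ) ∧ ∑ t, (m (g, t) : ℝ) ≤ 3 * lo + 9 * (y ^ 2 / 4))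
    (hlo : 3 * y ^ 4 ≤ lo) (hc : 0 < c) (hA : 12 * c ^ 2 ≤ ∑ i, (m i : ℝ) ^ 2) :
    ¬ Ex m univ (E c (12 * c)) := by
  intro hx
  choose θ h1 h2 h3 h4 using fun g => nine (m := fun t => m (g, t)) hy fun t => hm (g, t)
  have y2 : 4 ≤ y ^ 2 := by nlinarith
  have y4 : 4 * y ^ 2 ≤ y ^ 4 := by nlinarith
  have h5 : ∀ g, lo ≤ θ g ∧ θ g ≤ lo + 17 * y ^ 2 / 20 := fun g =>
    ⟨by linarith [h2 g, (hs g).1], by linarith [h3 g, (hs g).2]⟩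
  have h6 : ∀ g, 1 ≤ ⌈θ g⌉ := fun g => Int.one_le_ceil_iff.2 (by linarith [(h5 g).1])
  have hd := down_E hc.le (show 0 ≤ 12 * c by linarith)
  have h7 := collide_all (N := fun k => (∑ t, ⌈θ (k, t)⌉) / 4 + 1) hd (fun k =>
    sixteen (fun t => by linarith [h6 (k, t)]) (by
      have := card_nsmul_le_sum univ (fun t => ⌈θ (k, t)⌉) _ fun t _ => h6 (k, t)
      simp at this
      omega)) (collide_all hd h1 hx)
  refine fill_mean hc ?_ (by rw [Fintype.card_fin]; exact_mod_cast h7)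
  have h8 : (∑ g, θ g) / 4 + 3 ≤ ∑ k : Fin 12, (((∑ t, ⌈θ (k, t)⌉) / 4 + 1 : ℤ) : ℝ) := by
    have : ∑ k : Fin 12, ((∑ t, θ (k, t)) / 4 + 1 / 4) ≤
        ∑ k : Fin 12, (((∑ t, ⌈θ (k, t)⌉) / 4 + 1 : ℤ) : ℝ) := by
      refine sum_le_sum fun k _ => ?_
      have h9 : (∑ t, ⌈θ (k, t)⌉) + 1 ≤ 4 * ((∑ t, ⌈θ (k, t)⌉) / 4 + 1) := by omega
      have h10 : ((∑ t, ⌈θ (k, t)⌉ : ℤ) : ℝ) + 1 ≤ 4 * (((∑ t, ⌈θ (k, t)⌉) / 4 + 1 : ℤ) : ℝ) := by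
        exact_mod_cast h9
      have h11 : ∑ t, θ (k, t) ≤ ((∑ t, ⌈θ (k, t)⌉ : ℤ) : ℝ) := by
        push_cast
        exact sum_le_sum fun t _ => Int.le_ceil _
      linarith
    rw [sum_add_distrib, ← sum_div, ← Fintype.sum_prod_type] at this
    norm_num at this ⊢
    linarith
  refine lt_of_lt_of_le ?_ h8
  have h9 := sum_sq_le θ h5
  have h10 : ∑ i, (m i : ℝ) ^ 2 ≤ ∑ g, (θ g ^ 2 + y ^ 4 / 10) := by
    rw [Fintype.sum_prod_type]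
    exact sum_le_sum fun g _ => h4 g
  have h11 := card_nsmul_le_sum univ θ _ fun g _ => (h5 g).1
  rw [sum_add_distrib] at h10
  norm_num at h9 h10 h11 ⊢
  refine lt_of_pow_lt_pow_left₀ 2 (by linarith) ?_
  nlinarith

end Pool.Agent.P.MP_d3e5c7_ag.Sc
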