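import Pool.Agent.P.MP_d3e5c7_ag.NuD

/-! Filling a ball with blocks and a few exceptional pieces. -/

set_option autoImplicit false

namespace Pool.Agent.P.MP_d3e5c7_ag.Sc

open Nu Finset

variable {ι : Type} [DecidableEq ι] {n : ι → ℤ} {a : ι → ℝ} {I J : Finset ι} {H h B : ℝ}
  {Q : Finset ι → Prop} {k l : ℕ}

/-- disjoint unions of `k` sets with property `Q` -/
def Dec (Q : Finset ι → Prop) : ℕ → Finset ι → Prop
  | 0, I => I = ∅
  | k + 1, I => ∃ J ⊆ I, Q J ∧ Dec Q k (I \ J)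

theorem Dec.union (h1 : Dec Q k I) (h2 : Dec Q l J) (hd : Disjoint I J) :
    Dec Q (k + l) (I ∪ J) := by
  induction k generalizing I with
  | zero =>
    obtain rfl : I = ∅ := h1
    simpa using h2
  | succ k ih =>
    obtain ⟨R, h3, h4, h5⟩ := h1
    rw [Nat.succ_add]
    refine ⟨R, h3.trans subset_union_left, h4, ?_⟩
    rw [union_sdiff_distrib, sdiff_eq_self_of_disjoint (hd.symm.mono_right h3)]
    exact ih h5 (hd.mono_left sdiff_subset)

theorem Dec.one (hQ : Q J) : Dec Q 1 J := ⟨J, subset_rfl, hQ, Finset.sdiff_self J⟩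

theorem Dec.sum_le (hQ : ∀ J, Q J → ∑ i ∈ J, a i ^ 2 ≤ B) (h1 : Dec Q k I) :
    ∑ i ∈ I, a i ^ 2 ≤ k * B := by
  induction k generalizing I with
  | zero =>
    obtain rfl : I = ∅ := h1
    simp
  | succ k ih =>
    obtain ⟨R, h3, h4, h5⟩ := h1
    rw [← sum_sdiff h3]
    push_cast
    linarith [ih h5, hQ R h4]

theorem Dec.take (hQ : ∀ J, Q J → ∑ i ∈ J, a i ^ 2 ≤ B) (hB : 0 ≤ B) (h1 : Dec Q k I) {x : ℝ}
    (h0 : 0 ≤ x) (hx : x ≤ ∑ i ∈ I, a i ^ 2) : ∃ R ⊆ I, (∃ l, Dec Q l R) ∧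
      (∃ l, Dec Q l (I \ R)) ∧ x ≤ ∑ i ∈ R, a i ^ 2 ∧ ∑ i ∈ R, a i ^ 2 ≤ x + B := by
  induction k generalizing I x with
  | zero =>
    obtain rfl : I = ∅ := h1
    exact ⟨∅, subset_rfl, ⟨0, rfl⟩, ⟨0, rfl⟩, hx, by rw [sum_empty]; linarith⟩
  | succ k ih =>
    obtain ⟨J, h3, h4, h5⟩ := h1
    have e := sum_sdiff (f := fun i => a i ^ 2) h3
    rcases le_total x (∑ i ∈ J, a i ^ 2) with h6 | h6
    · exact ⟨J, h3, ⟨1, Dec.one h4⟩, ⟨k, h5⟩, h6, by linarith [hQ J h4]⟩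
    · obtain ⟨R, h7, ⟨l, h8⟩, h9, h10, h11⟩ := ih h5 (x := x - ∑ i ∈ J, a i ^ 2)
        (by linarith) (by linarith)
      have hd : Disjoint J R := disjoint_sdiff.mono_right h7
      refine ⟨J ∪ R, union_subset h3 (h7.trans sdiff_subset), ⟨_, (Dec.one h4).union h8 hd⟩,
        by rwa [_root_.sdiff_sdiff_left] at h9, ?_, ?_⟩ <;> rw [sum_union hd] <;> linarith

variable [Fintype ι]

theorem Dec.fl (hH : 0 < H) (hQ : ∀ J, Q J → Fl n a H J) (h1 : Dec Q k I) (hI : I.Nonempty) :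
    Fl n a H I := by
  induction k generalizing I with
  | zero => exact absurd h1 hI.ne_empty
  | succ k ih =>
    obtain ⟨R, h3, h4, h5⟩ := h1
    rcases (I \ R).eq_empty_or_nonempty with h6 | h6
    · rw [(sdiff_eq_empty_iff_subset.1 h6).antisymm h3]
      exact hQ R h4
    · rw [← union_sdiff_of_subset h3]
      exact (hQ R h4).union disjoint_sdiff hH (ih h5 h6)

/-- blocks of height `h` -/
def Qp (n : ι → ℤ) (a : ι → ℝ) (h : ℝ) (J : Finset ι) : Prop :=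
  Fl n a h J ∧ ∑ i ∈ J, a i ^ 2 ≤ 3 * h ^ 2

/-- exceptional pieces -/
def Qc (n : ι → ℤ) (a : ι → ℝ) (h : ℝ) (J : Finset ι) : Prop :=
  ∃ c, 0 < c ∧ c ≤ h ∧ 0 < ∑ i ∈ J, a i ^ 2 ∧ ∑ i ∈ J, a i ^ 2 ≤ 6 * h * c ∧ Fl n a c J

theorem absorb (hJI : Disjoint J I) (hJ : Qc n a h J) (h3 : 6 * h ^ 2 ≤ ∑ i ∈ J ∪ I, a i ^ 2)
    (hf : Fl n a h I) : Fl n a (2 * h) (J ∪ I) := by
  intro hx
  obtain ⟨c, h0, h1, h2, h4, h5⟩ := hJ
  have hh : 0 < h := by linarith
  have h6 : 6 * h ≤ (∑ i ∈ J ∪ I, a i ^ 2) / h ^ 2 * h := by field_simp; linarith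
  refine (hx.corner (h := h) (ρ := (∑ i ∈ J ∪ I, a i ^ 2) / h ^ 2) (c := c)
    (c' := (∑ i ∈ J, a i ^ 2) / c) (by linarith) (div_pos (by nlinarith) (by linarith))
    (Or.inr rfl) (le_of_eq (by field_simp)) (by linarith) hJI h0 h1 (by positivity)
    (((div_le_iff₀ h0).2 h4).trans h6)).elim h5 fun h7 => hf ?_
  have e : (∑ i ∈ J ∪ I, a i ^ 2) / h ^ 2 * h - (∑ i ∈ J, a i ^ 2) / c / h * c =
      (∑ i ∈ I, a i ^ 2) / h := by
    rw [sum_union hJI]
    field_simp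
    ring
  rwa [e] at h7

omit [DecidableEq ι] [Fintype ι] in
theorem ne_of_pos (h : 0 < ∑ i ∈ I, a i ^ 2) : I.Nonempty := by
  rw [nonempty_iff_ne_empty]
  rintro rfl
  simp at h

theorem two (hh : 0 < h) (k : ℕ) : ∀ P X : Finset ι, Disjoint P X → Dec (Qc n a h) k X →
    (∃ l, Dec (Qp n a h) l P) → (6 + 9 * k) * h ^ 2 ≤ ∑ i ∈ P, a i ^ 2 →
    Fl n a (2 * h) (P ∪ X) := by
  have hh2 : 0 < h ^ 2 := by positivity
  induction k with
  | zero =>
    rintro P X - hX ⟨l, hP⟩ hS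
    obtain rfl : X = ∅ := hX
    rw [union_empty]
    norm_num at hS
    exact (hP.fl hh (fun _ h => h.1) (ne_of_pos (a := a) (by linarith))).up hh le_rfl
      (by linarith)
  | succ k ih =>
    rintro P X hd ⟨J, hJX, hJ, hX⟩ ⟨l, hP⟩ hS
    push_cast at hS
    have h0 : 0 ≤ k * h ^ 2 := by positivity
    obtain ⟨R, h1, ⟨l', h2⟩, h3, h4, h5⟩ := hP.take (a := a) (x := 6 * h ^ 2) (fun _ h => h.2)
      (by linarith) (by linarith) (by linarith)
    have e := sum_sdiff (f := fun i => a i ^ 2) h1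
    have hd' : Disjoint J R := hd.symm.mono hJX h1
    have h6 : 0 ≤ ∑ i ∈ J, a i ^ 2 := by positivity
    have h7 := absorb hd' hJ (by rw [sum_union hd']; linarith)
      (h2.fl hh (fun _ h => h.1) (ne_of_pos (a := a) (by linarith)))
    have h8 := ih (P \ R) (X \ J) (hd.mono sdiff_subset sdiff_subset) hX h3 (by linarith)
    have h9 : P ∪ X = (J ∪ R) ∪ (P \ R ∪ X \ J) := by
      rw [union_comm J R, union_union_union_comm, union_sdiff_of_subset h1,
        union_sdiff_of_subset hJX]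
    rw [h9]
    refine h7.union ?_ (by linarith) h8
    simp only [disjoint_union_left, disjoint_union_right]
    exact ⟨⟨hd.symm.mono hJX sdiff_subset, disjoint_sdiff⟩, disjoint_sdiff,
      hd.mono h1 sdiff_subset⟩

/-- blocks and at most `k` exceptional pieces -/
def Spl (n : ι → ℤ) (a : ι → ℝ) (h : ℝ) (k : ℕ) (T : Finset ι) : Prop :=
  ∃ P ⊆ T, (∃ l, Dec (Qp n a h) l P) ∧ ∃ k' ≤ k, Dec (Qc n a h) k' (T \ P)

omit [Fintype ι] in
theorem Spl.union (h1 : Spl n a h k I) (h2 : Spl n a h l J) (hd : Disjoint I J) :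
    Spl n a h (k + l) (I ∪ J) := by
  obtain ⟨P, a1, ⟨l1, a2⟩, k1, a3, a4⟩ := h1
  obtain ⟨P', b1, ⟨l2, b2⟩, k2, b3, b4⟩ := h2
  refine ⟨P ∪ P', union_subset_union a1 b1, ⟨_, a2.union b2 (hd.mono a1 b1)⟩, k1 + k2,
    by omega, ?_⟩
  have e : (I ∪ J) \ (P ∪ P') = I \ P ∪ J \ P' := by
    ext i
    have c1 := @a1 i
    have c2 := @b1 i
    have c3 := @disjoint_left.1 hd i
    simp only [mem_sdiff, mem_union]
    tauto
  rw [e]
  exact a4.union b4 (hd.mono sdiff_subset sdiff_subset)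

omit [Fintype ι] in
theorem Spl.mono (h1 : Spl n a h k I) (hk : k ≤ l) : Spl n a h l I :=
  h1.imp fun _ h2 => ⟨h2.1, h2.2.1, h2.2.2.imp fun _ h3 => ⟨h3.1.trans hk, h3.2⟩⟩

omit [Fintype ι] in
theorem spl_empty : Spl n a h 0 ∅ := ⟨∅, subset_rfl, ⟨0, rfl⟩, 0, le_rfl, rfl⟩

theorem Spl.main (hh : 0 < h) (h1 : Spl n a h k I) (hS : (36 + 15 * k) * h ^ 2 ≤ ∑ i ∈ I, a i ^ 2) :
    Fl n a √(∑ i ∈ I, a i ^ 2) I := by
  obtain ⟨P, a1, a2, k', a3, a4⟩ := h1
  have hh2 : 0 < h ^ 2 := by positivity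
  have h2 := a4.sum_le (a := a) (B := 6 * h ^ 2) fun J ⟨c, _, h3, _, h4, _⟩ => by nlinarith
  have h3 : k' * h ^ 2 ≤ k * h ^ 2 := mul_le_mul_of_nonneg_right (by exact_mod_cast a3) hh2.le
  have h0 : 0 ≤ k * h ^ 2 := by positivity
  have e := sum_sdiff (f := fun i => a i ^ 2) a1
  have h4 := two hh k' P (I \ P) disjoint_sdiff a4 a2 (by linarith)
  rw [union_sdiff_of_subset a1] at h4
  have hs := Real.mul_self_sqrt (sum_nonneg fun i (_ : i ∈ I) => sq_nonneg (a i))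
  have h5 : 6 * h ≤ √(∑ i ∈ I, a i ^ 2) := Real.le_sqrt_of_sq_le (by linarith)
  exact h4.up (by linarith) (by linarith) (by nlinarith)

theorem batch (hH : 0 < H) (hHh : 2 * H ≤ h) (G : Finset ι) : Ok n a G →
    (∃ l, Dec (fun J => Fl n a H J ∧ ∑ i ∈ J, a i ^ 2 ≤ h ^ 2) l G) → Spl n a h 1 G := by
  induction G using Finset.strongInduction with
  | H G ih =>
    rintro ho ⟨l, hG⟩
    have hh : 0 < h := by linarith
    rcases le_total (3 * H * h) (∑ i ∈ G, a i ^ 2) with h1 | h1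
    · obtain ⟨R, h2, ⟨l', h3⟩, h4, h5, h6⟩ := hG.take (a := a) (fun _ h => h.2) (by positivity)
        (by positivity) h1
      have h7 : R.Nonempty := ne_of_pos (a := a) (lt_of_lt_of_le (by positivity) h5)
      have h8 : Spl n a h 0 R := ⟨R, subset_rfl, ⟨1, Dec.one
        ⟨(h3.fl hH (fun _ h => h.1) h7).up hH hHh h5, by nlinarith⟩⟩, 0, le_rfl,
        Finset.sdiff_self R⟩
      have := h8.union (ih _ (sdiff_ssubset h2 h7) (ho.mono sdiff_subset) h4) disjoint_sdiff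
      rwa [union_sdiff_of_subset h2] at this
    · rcases G.eq_empty_or_nonempty with rfl | h2
      · exact spl_empty.mono zero_le_one
      · refine ⟨∅, empty_subset _, ⟨0, rfl⟩, 1, le_rfl, ?_⟩
        rw [sdiff_empty]
        exact Dec.one ⟨H, hH, by linarith, sum_pos (fun i hi => pow_pos (ho i hi).1 2) h2,
          by nlinarith, hG.fl hH (fun _ h => h.1) h2⟩

omit [Fintype ι] in
theorem singles (W : Finset ι) (ho : Ok n a W) (hW : ∀ i ∈ W, a i ≤ h) :
    Dec (Qc n a h) W.card W := by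
  induction W using Finset.induction_on with
  | empty => rfl
  | insert i W hi ih =>
    have h1 := (ho i (mem_insert_self _ _)).1
    have h2 := hW i (mem_insert_self _ _)
    rw [card_insert_of_notMem hi, add_comm, insert_eq]
    refine (Dec.one ⟨a i, h1, h2, by rw [sum_singleton]; positivity,
      by rw [sum_singleton]; nlinarith,
      Fl.group (singleton_nonempty i) (ho.mono (by simp)) (by simp)⟩).union
      (ih (ho.mono (subset_insert _ _)) fun j hj => hW j (mem_insert_of_mem hj)) (by simpa using hi)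

omit [Fintype ι] in
theorem extract (T : Finset ι) : (∀ U ⊆ T, k ≤ U.card → ∃ J ⊆ U, J.Nonempty ∧ Q J) →
    ∃ G ⊆ T, (∃ l, Dec Q l G) ∧ (T \ G).card < k := by
  induction T using Finset.strongInduction with
  | H T ih =>
    intro hT
    rcases lt_or_ge T.card k with h1 | h1
    · exact ⟨∅, empty_subset _, ⟨0, rfl⟩, by rwa [sdiff_empty]⟩
    obtain ⟨J, h2, h3, h4⟩ := hT T subset_rfl h1
    obtain ⟨G, h5, ⟨l, h6⟩, h7⟩ := ih _ (sdiff_ssubset h2 h3)
      fun U hU => hT U (hU.trans sdiff_subset)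
    exact ⟨J ∪ G, union_subset h2 (h5.trans sdiff_subset),
      ⟨_, (Dec.one h4).union h6 (disjoint_sdiff.mono_right h5)⟩, 
      by rwa [_root_.sdiff_sdiff_left] at h7⟩

theorem bin (hH : 0 < H) (hHh : 2 * H ≤ h) (ho : Ok n a I) (hI : ∀ i ∈ I, a i ≤ h)
    (hT : ∀ U ⊆ I, k ≤ U.card → ∃ J ⊆ U, J.Nonempty ∧ Fl n a H J ∧ ∑ i ∈ J, a i ^ 2 ≤ h ^ 2) :
    Spl n a h k I := by
  obtain ⟨G, h1, h2, h3⟩ := extract I hT
  have h4 : Spl n a h (I \ G).card (I \ G) := ⟨∅, empty_subset _, ⟨0, rfl⟩, _, le_rfl, by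
    rw [sdiff_empty]
    exact singles _ (ho.mono sdiff_subset) fun i hi => hI i (mem_sdiff.1 hi).1⟩
  have := (batch hH hHh G (ho.mono h1) h2).union h4 disjoint_sdiff
  rw [union_sdiff_of_subset h1] at this
  exact this.mono (by omega)

omit [Fintype ι] in
theorem fibers {κ : Type} [DecidableEq κ] (β : ι → κ) (T : Finset κ)
    (hT : ∀ v ∈ T, Spl n a h k (I.filter fun i => β i = v)) :
    Spl n a h (T.card * k) (I.filter fun i => β i ∈ T) := by
  induction T using Finset.induction_on with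
  | empty => simpa using spl_empty
  | insert v T hv ih =>
    have e : (I.filter fun i => β i ∈ insert v T) =
        (I.filter fun i => β i = v) ∪ I.filter fun i => β i ∈ T := by
      simp only [mem_insert, filter_or]
    rw [e, card_insert_of_notMem hv, add_mul, one_mul, add_comm]
    refine (hT v (mem_insert_self _ _)).union (ih fun w hw => hT w (mem_insert_of_mem hw)) ?_
    exact disjoint_filter.2 fun i _ h1 h2 => hv (h1 ▸ h2)

end Pool.Agent.P.MP_d3e5c7_ag.Sc
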