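import Pool.Agent.P.MP_d3e5c7_ag.ScB
import Pool.Agent.P.MP_d3e5c7_ag.ScC
import Pool.Agent.P.MP_d3e5c7_ag.ScD

/-! No curve of negative square when the multiplicities are small against the degree. -/

set_option autoImplicit false

namespace Pool.Agent.P.MP_d3e5c7_ag.Sc

open MvPolynomial Nag Nu Finset

variable {ι : Type} [Fintype ι] [DecidableEq ι] {n : ι → ℤ} {a : ι → ℝ}

omit [Fintype ι] in
theorem exists_image {κ : Type} [Fintype κ] {x : κ → ι} {U : Finset ι} (h1 : Function.Injective x)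
    (h2 : ∀ i, x i ∈ U) :
    ∃ J : Finset ι, ∑ i ∈ J, a i ^ 2 = ∑ i, a (x i) ^ 2 ∧ J ⊆ U ∧ ∀ i, x i ∈ J :=
  ⟨univ.image x, sum_image fun _ _ _ _ h => h1 h, image_subset_iff.2 fun i _ => h2 i,
    fun i => mem_image_of_mem x (mem_univ i)⟩

theorem large {U : Finset ι} {y t : ℝ} (hy : 2 ≤ y) (ht : 1 ≤ t) (hyt : y ≤ t ^ 9)
    (hn : ∀ i ∈ U, y ^ 4 ≤ n i ∧ (n i : ℝ) ≤ y ^ 4 + y ^ 3 / 2)
    (ha : ∀ i ∈ U, (n i : ℝ) ^ 2 - 1 ≤ a i ^ 2 ∧ a i ^ 2 ≤ (n i : ℝ) ^ 2)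
    (hU : 1000000 * t ≤ U.card) :
    ∃ J ⊆ U, J.Nonempty ∧ Fl n a (32 * y ^ 4) J ∧ ∑ i ∈ J, a i ^ 2 ≤ (64 * y ^ 4) ^ 2 := by
  have y0 : 0 < y := by linarith
  have y2 : 4 ≤ y ^ 2 := by nlinarith
  have y3 : 2 * y ^ 3 ≤ y ^ 4 := by nlinarith [pow_pos y0 3]
  have y4 : 16 ≤ y ^ 4 := by nlinarith
  have hβ : 0 < y ^ 2 / 4 := by linarith
  let b : ι → ℕ := fun i => ⌊(n i - y ^ 4) / (y ^ 2 / 4)⌋₊
  have hb : ∀ i ∈ U, b i * (y ^ 2 / 4) ≤ n i - y ^ 4 ∧ n i - y ^ 4 ≤ (b i + 1) * (y ^ 2 / 4) :=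
    fun i hi => ⟨(le_div_iff₀ hβ).1 (Nat.floor_le (div_nonneg (by linarith [(hn i hi).1]) hβ.le)),
      (div_le_iff₀ hβ).1 (Nat.lt_floor_add_one _).le⟩
  have hb' : ∀ i ∈ U, (b i : ℝ) ≤ 2 * y := fun i hi =>
    le_of_mul_le_mul_right (by linarith [(hb i hi).1, (hn i hi).2]) hβ
  obtain ⟨x, h1, h2, s, h3⟩ := tuples (q := ⌊18 * y⌋₊ + 1) (fun i => (b i : ZMod (⌊18 * y⌋₊ + 1)))
    U (τ := 2 * t) (by linarith) (by
      have := Nat.floor_le (show 0 ≤ 18 * y by linarith)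
      have := one_le_pow₀ (n := 9) ht
      push_cast
      linarith) (by linarith)
  have h4 : ∀ g, ∑ j, (b (x (g, j)) : ℝ) = s.val := fun g => by
    have h5 : ((∑ j, b (x (g, j)) : ℕ) : ℝ) ≤ 18 * y := by
      have := sum_le_card_nsmul univ (fun j => (b (x (g, j)) : ℝ)) _ fun j _ => hb' _ (h2 (g, j))
      norm_num at this ⊢
      linarith
    rw [← h3 g, ← Nat.cast_sum, ← Nat.cast_sum,
      ZMod.val_cast_of_lt (Nat.lt_succ_of_le (Nat.le_floor h5))]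
  generalize s.val = r at h4
  obtain ⟨J, e, hJU, hJ⟩ := exists_image (a := a) h1 h2
  have h5 : 1728 * ((y ^ 4) ^ 2 - 1) ≤ ∑ i, a (x i) ^ 2 := by
    have := card_nsmul_le_sum univ (fun i => a (x i) ^ 2) ((y ^ 4) ^ 2 - 1) fun i _ => by
      nlinarith [(ha _ (h2 i)).1, (hn _ (h2 i)).1]
    simpa using this
  have h6 : ∑ i, a (x i) ^ 2 ≤ 1728 * (25 / 16 * (y ^ 4) ^ 2) := by
    have := sum_le_card_nsmul univ (fun i => a (x i) ^ 2) (25 / 16 * (y ^ 4) ^ 2) fun i _ => by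
      nlinarith [(ha _ (h2 i)).2, (hn _ (h2 i)).1, (hn _ (h2 i)).2]
    simpa using this
  have h9 : ∑ i, a (x i) ^ 2 ≤ ∑ i, (n (x i) : ℝ) ^ 2 := sum_le_sum fun i _ => (ha _ (h2 i)).2
  rw [← e] at h5 h6 h9
  obtain ⟨c, c0, hc⟩ : ∃ c, 0 ≤ c ∧ ∑ i ∈ J, a i ^ 2 = 12 * c ^ 2 :=
    ⟨√((∑ i ∈ J, a i ^ 2) / 12), Real.sqrt_nonneg _, by rw [Real.sq_sqrt (by nlinarith)]; ring⟩
  have c1 : 8 * y ^ 4 ≤ c := le_of_pow_le_pow_left₀ two_ne_zero c0 (by nlinarith)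
  have c2 : c ≤ 16 * y ^ 4 := le_of_pow_le_pow_left₀ two_ne_zero (by linarith) (by nlinarith)
  refine ⟨J, hJU, ⟨_, hJ 0⟩,
    Fl.up (m := c) (by linarith) (by linarith) (by rw [hc]; nlinarith) fun hx => ?_, by nlinarith⟩
  · rw [hc, show 12 * c ^ 2 / c = 12 * c by field_simp] at hx
    rw [hc] at h9
    refine bundle (lo := 3 * y ^ 4 + r * (y ^ 2 / 4) / 3) hy (fun i => hn _ (h2 i))
      (fun g => ?_) (by linarith [mul_nonneg r.cast_nonneg hβ.le]) (by linarith) h9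
      (comp h1 (fun i _ => hJ i) hx)
    have h7 := sum_le_sum (s := univ) fun j (_ : j ∈ univ) => (hb _ (h2 (g, j))).1
    have h8 := sum_le_sum (s := univ) fun j (_ : j ∈ univ) => (hb _ (h2 (g, j))).2
    rw [← sum_mul, sum_sub_distrib, h4] at h7
    rw [← sum_mul, sum_sub_distrib, sum_add_distrib, h4] at h8
    norm_num at h7 h8
    constructor <;> linarith

theorem root4 (x : ℕ) : x.sqrt.sqrt ^ 4 ≤ x ∧ x < (x.sqrt.sqrt + 1) ^ 4 := by
  have h1 := Nat.pow_le_pow_left (Nat.sqrt_le' x.sqrt) 2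
  have h2 := Nat.pow_le_pow_left (Nat.succ_le_of_lt (Nat.lt_succ_sqrt' x.sqrt)) 2
  rw [← pow_mul] at h1 h2
  exact ⟨h1.trans (Nat.sqrt_le' x), (Nat.lt_succ_sqrt' x).trans_le h2⟩

theorem root4' (x : ℕ) : 10 * x.sqrt.sqrt ≤ (10000 * x).sqrt.sqrt ∧
    (10000 * x).sqrt.sqrt < 10 * x.sqrt.sqrt + 10 := by
  obtain ⟨h1, h2⟩ := root4 x
  obtain ⟨h3, h4⟩ := root4 (10000 * x)
  exact ⟨Nat.lt_succ_iff.1 (lt_of_pow_lt_pow_left₀ 4 (Nat.zero_le _) (by nlinarith)),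
    lt_of_pow_lt_pow_left₀ 4 (Nat.zero_le _) (by nlinarith)⟩

theorem spl_all (m : ι → ℕ) {t ε : ℝ} (ht : 1 ≤ t) (hM : ∀ i, (m i : ℝ) ≤ t ^ 36) (h0 : 0 < ε)
    (h1 : ε < 1) : Spl (fun i => (m i : ℤ)) (fun i => √((m i : ℝ) ^ 2 - ε)) (64 * t ^ 36)
      ((univ.image fun i => (m i).sqrt.sqrt).card * 16 * ⌈1000000 * t⌉₊)
      (univ.filter fun i => 0 < m i) := by
  set I := univ.filter fun i => 0 < m i with hI
  have hm : ∀ i ∈ I, (1 : ℝ) ≤ m i := fun i hi => by exact_mod_cast (mem_filter.1 hi).2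
  have hs : ∀ i ∈ I, √((m i : ℝ) ^ 2 - ε) ^ 2 = (m i : ℝ) ^ 2 - ε := fun i hi =>
    Real.sq_sqrt (by nlinarith [hm i hi])
  have ho : Ok (fun i => (m i : ℤ)) (fun i => √((m i : ℝ) ^ 2 - ε)) I := fun i hi =>
    ⟨Real.sqrt_pos.2 (by nlinarith [hm i hi]),
      (Real.sqrt_lt' (by push_cast; linarith [hm i hi])).2 (by push_cast; linarith)⟩
  have hl : ∀ i ∈ I, √((m i : ℝ) ^ 2 - ε) ≤ t ^ 36 := fun i hi =>
    (ho i hi).2.le.trans (by push_cast; exact hM i)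
  have t0 : 0 < t ^ 36 := by positivity
  let β : ι → ℕ × ℕ := fun i => ((m i).sqrt.sqrt,
    if m i < 16 then m i else (10000 * m i).sqrt.sqrt - 10 * (m i).sqrt.sqrt)
  have key := fibers (n := fun i => (m i : ℤ)) (a := fun i => √((m i : ℝ) ^ 2 - ε)) (I := I)
    (h := 64 * t ^ 36) (k := ⌈1000000 * t⌉₊) β
    ((univ.image fun i => (m i).sqrt.sqrt) ×ˢ range 16) ?_
  · rw [card_product, card_range, filter_true_of_mem] at key
    · exact key
    refine fun i _ => mem_product.2 ⟨mem_image.2 ⟨i, mem_univ i, rfl⟩, mem_range.2 ?_⟩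
    have := root4' (m i)
    simp only [β]
    split_ifs <;> omega
  rintro ⟨r, j⟩ -
  set T := I.filter fun i => β i = (r, j) with hT
  have hTI : T ⊆ I := filter_subset _ _
  rcases T.eq_empty_or_nonempty with h2 | ⟨o, hoT⟩
  · rw [h2]
    exact spl_empty.mono (Nat.zero_le _)
  have hl' : ∀ i ∈ T, √((m i : ℝ) ^ 2 - ε) ≤ 64 * t ^ 36 := fun i hi => by linarith [hl i (hTI hi)]
  have hr : ∀ i ∈ T, (m i).sqrt.sqrt = r := fun i hi => (Prod.ext_iff.1 (mem_filter.1 hi).2).1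
  have hj : ∀ i ∈ T, (if m i < 16 then m i else
      (10000 * m i).sqrt.sqrt - 10 * (m i).sqrt.sqrt) = j :=
    fun i hi => (Prod.ext_iff.1 (mem_filter.1 hi).2).2
  rcases le_or_gt r 1 with h2 | h2
  · have h3 : ∀ i ∈ T, m i = j := fun i hi => by
      have h4 := (root4 (m i)).2.trans_le (Nat.pow_le_pow_left
        (show (m i).sqrt.sqrt + 1 ≤ 2 by rw [hr i hi]; omega) 4)
      rw [← hj i hi, if_pos h4]
    have h4 : ∀ i ∈ T, √((m i : ℝ) ^ 2 - ε) = √((m o : ℝ) ^ 2 - ε) := fun i hi => by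
      rw [h3 i hi, h3 o hoT]
    refine bin (ho o (hTI hoT)).1 (by linarith [hl o (hTI hoT)]) (ho.mono hTI) hl'
      fun U hU h5 => ?_
    obtain ⟨i, hi⟩ := card_pos.1 ((Nat.ceil_pos.2 (by linarith)).trans_le h5)
    refine ⟨{i}, singleton_subset_iff.2 hi, singleton_nonempty i, Fl.group (singleton_nonempty i)
      (ho.mono (singleton_subset_iff.2 (hTI (hU hi)))) (by simpa using h4 i (hU hi)), ?_⟩
    rw [sum_singleton]
    exact pow_le_pow_left₀ (Real.sqrt_nonneg _) (hl' i (hU hi)) 2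
  · obtain ⟨y, hy⟩ : ∃ y : ℝ, 10 * y = 10 * r + j := ⟨r + j / 10, by ring⟩
    have h3 : (2 : ℝ) ≤ r := by exact_mod_cast h2
    have y2 : 2 ≤ y := by linarith [Nat.cast_nonneg (α := ℝ) j]
    have h4 : ∀ i ∈ T, y ^ 4 ≤ m i ∧ (m i : ℝ) ≤ y ^ 4 + y ^ 3 / 2 := fun i hi => by
      have h5 := (Nat.pow_le_pow_left (show 2 ≤ (m i).sqrt.sqrt by rw [hr i hi]; omega) 4).trans
        (root4 (m i)).1
      have h6 := hj i hi
      have h7 := root4' (m i)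
      rw [if_neg (by omega), hr i hi] at h6
      have h8 := root4 (10000 * m i)
      rw [show (10000 * m i).sqrt.sqrt = 10 * r + j by rw [hr i hi] at h7; omega] at h8
      have h9 : (10 * r + j : ℝ) ^ 4 ≤ 10000 * m i := by exact_mod_cast h8.1
      have h10 : (10000 * m i : ℝ) < (10 * r + j + 1) ^ 4 := by exact_mod_cast h8.2
      rw [← hy] at h9 h10
      have y1 : 2 * y ≤ y ^ 2 := by nlinarith
      have y3 : 2 * y ^ 2 ≤ y ^ 3 := by nlinarith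
      constructor <;> nlinarith
    have h5 : y ^ 4 ≤ t ^ 36 := (h4 o hoT).1.trans (hM o)
    have h6 : y ≤ t ^ 9 := le_of_pow_le_pow_left₀ (n := 4) (by norm_num) (by positivity)
      (by rwa [← pow_mul])
    refine bin (H := 32 * y ^ 4) (by positivity) (by linarith) (ho.mono hTI) hl' fun U hU h7 => ?_
    obtain ⟨J, h8, h9, h10, h11⟩ := large (n := fun i => (m i : ℤ))
      (a := fun i => √((m i : ℝ) ^ 2 - ε)) y2 ht h6 (fun i hi => by simpa using h4 i (hU hi))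
      (fun i hi => by rw [hs i (hTI (hU hi))]; push_cast; constructor <;> linarith)
      (Nat.ceil_le.1 h7)
    exact ⟨J, h8, h9, h10, h11.trans (pow_le_pow_left₀ (by positivity) (by linarith) 2)⟩

omit [DecidableEq ι] in
theorem main {K : Type} [Field K] [CharZero K] (p : ι → Fin 2 → K)
    (hp : AlgebraicIndependent ℚ (fun ij : ι × Fin 2 => p ij.1 ij.2)) {d M : ℕ} (m : ι → ℕ)
    (hM : ∀ i, m i ≤ M) (hS : 10 ^ 12 * ((univ.image fun i => (m i).sqrt.sqrt).card : ℝ) *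
      (M : ℝ) ^ (73 / 36 : ℝ) ≤ ∑ i, (m i : ℝ) ^ 2)
    {f : MvPolynomial (Fin 2) K} (hf0 : f ≠ 0) (hfd : f.totalDegree ≤ d)
    (hf : ∀ i, Van (p i) (m i) f) : ∑ i, m i ^ 2 ≤ d ^ 2 := by
  classical
  by_contra hc
  have hc' : (d : ℝ) ^ 2 + 1 ≤ ∑ i, (m i : ℝ) ^ 2 := by exact_mod_cast not_le.1 hc
  obtain ⟨o, -, ho⟩ := exists_ne_zero_of_sum_ne_zero (s := univ) (f := fun i => m i ^ 2) (by omega)
  have M1 : (1 : ℝ) ≤ M := by
    have := hM o
    have : m o ≠ 0 := fun h => ho (by rw [h]; rfl)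
    exact_mod_cast (by omega)
  set t := (M : ℝ) ^ (1 / 36 : ℝ) with ht
  have t1 : 1 ≤ t := Real.one_le_rpow M1 (by norm_num)
  have e1 : t ^ 36 = M := by
    rw [ht, ← Real.rpow_natCast, ← Real.rpow_mul (by linarith)]
    norm_num
  have e2 : (M : ℝ) ^ (73 / 36 : ℝ) = t * (t ^ 36) ^ 2 := by
    rw [← pow_mul, ← pow_succ', ht, ← Real.rpow_natCast, ← Real.rpow_mul (by linarith)]
    norm_num
  have s0 : (0 : ℝ) < Fintype.card ι + 1 := by positivity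
  have h1 := spl_all m t1 (fun i => by rw [e1]; exact_mod_cast hM i) (ε := 1 / (2 * (Fintype.card ι + 1)))
    (by positivity) ((div_lt_one (by positivity)).2 (by linarith [Nat.cast_nonneg (α := ℝ) (Fintype.card ι)]))
  set I := univ.filter fun i => 0 < m i with hI
  set ε : ℝ := 1 / (2 * (Fintype.card ι + 1)) with hε
  have h2 : ∑ i, (m i : ℝ) ^ 2 - 1 / 2 ≤ ∑ i ∈ I, √((m i : ℝ) ^ 2 - ε) ^ 2 := by
    have h3 : ∑ i, ((m i : ℝ) ^ 2 - ε) ≤ ∑ i ∈ I, √((m i : ℝ) ^ 2 - ε) ^ 2 := by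
      rw [hI, sum_filter]
      refine sum_le_sum fun i _ => ?_
      split_ifs with h4
      · rw [Real.sq_sqrt']
        exact le_max_left _ _
      · rw [show m i = 0 by omega]
        simp [hε]
        positivity
    rw [sum_sub_distrib, sum_const, card_univ, nsmul_eq_mul] at h3
    have h4 : (Fintype.card ι + 1) * ε = 1 / 2 := by rw [hε]; field_simp
    have h5 : 0 < ε := by positivity
    linarith
  have k1 : (1 : ℝ) ≤ (univ.image fun i => (m i).sqrt.sqrt).card := by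
    exact_mod_cast card_pos.2 ⟨_, mem_image_of_mem _ (mem_univ o)⟩
  refine h1.main (by positivity) ?_ (Ex.of_gen hp (f := f) ⟨hf0, fun α hα => ?_, fun i _ => hf i⟩)
  · have h3 := (Nat.ceil_lt_add_one (show 0 ≤ 1000000 * t by linarith)).le
    push_cast
    rw [e2] at hS
    generalize ((univ.image fun i => (m i).sqrt.sqrt).card : ℝ) = k at *
    have h4 := mul_le_mul_of_nonneg_left h3 (show 0 ≤ k by linarith)
    have h5 : 36 + 15 * (k * 16 * ⌈1000000 * t⌉₊) ≤ 241000000 * (k * t) := by nlinarith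
    have h6 : 1 ≤ (t ^ 36) ^ 2 := one_le_pow₀ (by linarith)
    have h7 := mul_le_mul_of_nonneg_right h5 (sq_nonneg (64 * t ^ 36))
    have h8 : 1 ≤ k * t * (t ^ 36) ^ 2 := one_le_mul_of_one_le_of_one_le (by nlinarith) h6
    linarith
  · have h3 : α.degree ≤ f.totalDegree := le_totalDegree hα
    rw [← ex_eta α, degree_ex] at h3
    have h4 : (α 0 : ℝ) + α 1 ≤ d := by exact_mod_cast h3.trans hfd
    generalize ∑ i ∈ I, √((m i : ℝ) ^ 2 - ε) ^ 2 = A at *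
    have h5 : (d : ℝ) ≤ √A := Real.le_sqrt_of_sq_le (by linarith)
    rw [Real.div_sqrt, E]
    nlinarith [Real.sqrt_nonneg A]

end Pool.Agent.P.MP_d3e5c7_ag.Sc
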