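import Pool.Agent.P.MP_d3e5c7_ag.ScD
import Pool.Agent.P.MP_d3e5c7_ag.QhC

/-! Filling a strip with blocks and a few exceptional pieces. -/

set_option autoImplicit false

namespace Pool.Agent.P.MP_d3e5c7_ag.Sc

open Nu Qh Finset

theorem choice {t z δ : ℝ} (ht : 0 ≤ t) (z0 : 0 ≤ z) (z1 : z ≤ 1 / 50) (d1 : δ ≤ 1 / 100) :
    ∃ x, z ≤ x ∧ 3 * (x + δ) ≤ 2 * t + 1 ∧ ∀ β1 β2, x ≤ β1 → β1 ≤ x + δ → x ≤ β2 → β2 ≤ x + δ →
      ∃ γ τ, ((γ = β2 ∧ τ = β2 - 1) ∨ (γ = 0 ∧ τ = -1 - β2)) ∧ 0 ≤ t + 1 - γ - β1 ∧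
        0 ≤ t + 1 - γ + τ ∧ SS (-β1) τ (t + 1 - γ + τ) := by
  have f0 := Int.fract_nonneg t
  have f1 := (Int.fract_lt_one t).le
  have f2 := Int.floor_add_fract t
  set f := Int.fract t
  have f3 : (0 : ℝ) ≤ ⌊t⌋ := by exact_mod_cast Int.floor_nonneg.2 ht
  rcases le_total t (1 / 2) with h1 | h1
  · refine ⟨t + z, by linarith, by linarith, fun β1 β2 a1 a2 b1 b2 =>
      ⟨_, _, Or.inl ⟨rfl, rfl⟩, by linarith, by linarith, ?_⟩⟩
    exact ss_U (w1 := β1) (w2 := β2) (f := t) 0 (-1) 0 (by push_cast; ring) (by push_cast; ring)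
      (by push_cast; ring) (Or.inr ⟨ht, by linarith, by linarith, by linarith⟩)
  rcases le_or_gt (1 / 2) f with h2 | h2
  · refine ⟨f / 2, by linarith, by linarith, fun β1 β2 a1 a2 b1 b2 =>
      ⟨_, _, Or.inr ⟨rfl, rfl⟩, by linarith, by linarith, ?_⟩⟩
    exact ss_U (w1 := β1) (w2 := 1 - β2) (f := f - β2) 0 (-2) ⌊t⌋ (by push_cast; ring)
      (by push_cast; ring) (by linarith)
      (Or.inr ⟨by linarith, by linarith, by linarith, by linarith⟩)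
  · have f4 : (1 : ℝ) ≤ ⌊t⌋ := by
      have : (0 : ℝ) < ⌊t⌋ := by linarith
      exact_mod_cast this
    refine ⟨f + z, by linarith, by linarith, fun β1 β2 a1 a2 b1 b2 =>
      ⟨_, _, Or.inr ⟨rfl, rfl⟩, by linarith, by linarith, ?_⟩⟩
    exact ss_U (w1 := β1) (w2 := 1 - β2) (f := 1 + f - β2) 0 (-2) (⌊t⌋ - 1) (by push_cast; ring)
      (by push_cast; ring) (by push_cast; linarith)
      (Or.inl ⟨by linarith, by linarith, by linarith, by linarith, by linarith, by linarith⟩)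

variable {ι : Type} [Fintype ι] [DecidableEq ι] {n : ι → ℤ} {a : ι → ℝ} {I J J1 J2 : Finset ι}
  {H h m β t T : ℝ} {k : ℕ}

omit [DecidableEq ι] in
theorem leaf' (hm : 0 < m) (h1 : 3 * m ≤ H) (h2 : 2 * m ≤ β * H)
    (e : ∑ i ∈ J, a i ^ 2 = β * H ^ 2) (hf : Fl n a m J) : ¬ Ex n J (E H (β * H)) := by
  intro hx
  have hH : 0 < H := by linarith
  have hb : 0 < β * H := by linarith
  have hβ : 0 < β := (pos_iff_pos_of_mul_pos hb).2 hH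
  refine hf.up (H := β * H) hm h2 (by rw [e]; nlinarith) ?_
  rw [e, show β * H ^ 2 / (β * H) = H by field_simp]
  exact hx.swap.mono fun x j h4 => by simp only [E] at h4 ⊢; linarith

theorem cut3' {γ τ β1 β2 : ℝ} (hh : 0 < h) (s1 : J1 ⊆ I) (s2 : J2 ⊆ I \ J1)
    (l1 : ¬ Ex n J1 (E h (β1 * h))) (l2 : ¬ Ex n J2 (E h (β2 * h)))
    (l3 : ¬ Ex n ((I \ J1) \ J2) (E h ((2 * t + 1 - β1 - β2) * h))) (hb : 0 ≤ β2)
    (hγ : (γ = β2 ∧ τ = β2 - 1) ∨ (γ = 0 ∧ τ = -1 - β2)) (hB : 0 ≤ t + 1 - γ - β1)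
    (hT : 0 ≤ t + 1 - γ + τ) (hS : SS (-β1) τ (t + 1 - γ + τ)) :
    ¬ Ex n I fun x j => j ≤ h ∧ (x : ℝ) + j ≤ (t + 1) * h := by
  intro hx
  rcases cut' s1 1 β1 (β1 * h) hx with h3 | h3
  · refine l1 (h3.mono fun x j h4 => ?_)
    have := mul_le_mul_of_nonneg_left h4.2 hh.le
    simp only [E]
    linarith
  rcases cut' s2 (-1) τ (-((t + 1 - γ) * h)) h3 with h4 | h4
  · refine l2 ?_
    rcases hγ with ⟨rfl, rfl⟩ | ⟨rfl, rfl⟩
    · refine h4.shakeH.mono ?_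
      rintro x j ⟨c0, c1, h5, ⟨-, h6⟩, ⟨⟨-, h7⟩, -⟩, -⟩
      have h8 : (c0 : ℝ) + x ≤ c1 := by exact_mod_cast h5
      have := mul_le_mul_of_nonneg_left (show (x : ℝ) + j * γ ≤ γ * h by linarith) hh.le
      simp only [E]
      linarith
    · refine h4.shakeH.shake.mono ?_
      rintro x j ⟨b0, b1, h9, ⟨c0, c1, h5, ⟨-, h6⟩, ⟨⟨-, h7⟩, -⟩, -⟩, -, -, -, ⟨⟨⟨h10, -⟩, -⟩, -⟩, -⟩
      have h8 : (c0 : ℝ) + x ≤ c1 := by exact_mod_cast h5
      have h11 : (b0 : ℝ) + j ≤ b1 := by exact_mod_cast h9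
      have h12 := mul_le_mul_of_nonneg_left (show (b0 : ℝ) ≤ h - j by linarith) hb
      have := mul_le_mul_of_nonneg_left (show (x : ℝ) + j * β2 ≤ β2 * h by linarith) hh.le
      simp only [E]
      linarith
  · refine l3 ?_
    have := vertex (τL := -β1) (τR := τ) (l := β1 * h) hh (mul_nonneg hB hh.le)
      (mul_nonneg hT hh.le) (by ring) (by rwa [mul_div_cancel_right₀ _ hh.ne'])
      (h4.mono fun x j h5 => ⟨h5.1.1.1, by linarith [h5.1.2], by linarith [h5.2]⟩)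
    rwa [show (t + 1 - γ - β1) * h + (t + 1 - γ + τ) * h = (2 * t + 1 - β1 - β2) * h by
      rcases hγ with ⟨rfl, rfl⟩ | ⟨rfl, rfl⟩ <;> ring] at this

theorem strip_spl (hh : 0 < h) (hs : Spl n a h k I) (hH : 100 * h ≤ H) (hT : 0 ≤ T)
    (hA : ∑ i ∈ I, a i ^ 2 = H * (2 * T + H)) (hS : (18 + 45 * k) * h ^ 2 ≤ ∑ i ∈ I, a i ^ 2) :
    ¬ Ex n I fun x j => (j : ℝ) ≤ H ∧ (x : ℝ) + j ≤ T + H := by
  obtain ⟨P, a1, ⟨l, a2⟩, k', a3, a4⟩ := hs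
  have hH0 : 0 < H := by linarith
  have hh2 : 0 < h ^ 2 := by positivity
  have hH2 : 0 < H ^ 2 := by positivity
  obtain ⟨t, rfl⟩ : ∃ t, T = t * H := ⟨T / H, by field_simp⟩
  obtain ⟨μ, rfl⟩ : ∃ μ, h = μ * H := ⟨h / H, by field_simp⟩
  have t0 : 0 ≤ t := nonneg_of_mul_nonneg_left hT hH0
  have m0 : 0 < μ := (pos_iff_pos_of_mul_pos hh).2 hH0
  have m1 : 100 * μ ≤ 1 := le_of_mul_le_mul_right (by linarith) hH0
  obtain ⟨x, x0, x1, hx⟩ := choice (z := 2 * μ) (δ := 3 * μ ^ 2) t0 (by linarith) (by linarith)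
    (by nlinarith)
  have m2 : ∀ β, x ≤ β → 2 * (μ * H) ≤ β * H := fun β hβ => by
    linarith [mul_le_mul_of_nonneg_right (x0.trans hβ) hH0.le]
  have h2 := a4.sum_le (a := a) (B := 6 * (μ * H) ^ 2) fun J ⟨c, _, h3, _, h4, _⟩ => by nlinarith
  have h3 : k' * (μ * H) ^ 2 ≤ k * (μ * H) ^ 2 :=
    mul_le_mul_of_nonneg_right (by exact_mod_cast a3) hh2.le
  have h0 : 0 ≤ k * (μ * H) ^ 2 := by positivity
  have e0 := sum_sdiff (f := fun i => a i ^ 2) a1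
  have x2 := mul_le_mul_of_nonneg_right x1 hH2.le
  have x3 : 0 < x * H ^ 2 := mul_pos (by linarith) hH2
  obtain ⟨J1, s1, ⟨l1, p1⟩, ⟨l2, p2⟩, b1, b2⟩ := a2.take (a := a) (x := x * H ^ 2)
    (fun _ h => h.2) (by linarith) x3.le (by linarith)
  have e1 := sum_sdiff (f := fun i => a i ^ 2) s1
  obtain ⟨J2, s2, ⟨l3, p3⟩, p4, b3, b4⟩ := p2.take (a := a) (x := x * H ^ 2)
    (fun _ h => h.2) (by linarith) x3.le (by linarith)
  have e2 := sum_sdiff (f := fun i => a i ^ 2) s2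
  obtain ⟨β1, c1⟩ : ∃ β, ∑ i ∈ J1, a i ^ 2 = β * H ^ 2 := ⟨_, (div_mul_cancel₀ _ hH2.ne').symm⟩
  obtain ⟨β2, c2⟩ : ∃ β, ∑ i ∈ J2, a i ^ 2 = β * H ^ 2 := ⟨_, (div_mul_cancel₀ _ hH2.ne').symm⟩
  have d1 : x ≤ β1 := le_of_mul_le_mul_right (by linarith) hH2
  have d2 : β1 ≤ x + 3 * μ ^ 2 := le_of_mul_le_mul_right (by linarith) hH2
  have d3 : x ≤ β2 := le_of_mul_le_mul_right (by linarith) hH2
  have d4 : β2 ≤ x + 3 * μ ^ 2 := le_of_mul_le_mul_right (by linarith) hH2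
  obtain ⟨γ, τ, g1, g2, g3, g4⟩ := hx β1 β2 d1 d2 d3 d4
  have s3 : J2 ⊆ I \ J1 := s2.trans (sdiff_subset_sdiff a1 subset_rfl)
  have e3 := sum_sdiff (f := fun i => a i ^ 2) (s1.trans a1)
  have e4 := sum_sdiff (f := fun i => a i ^ 2) s3
  have h4 := two hh k' ((P \ J1) \ J2) (I \ P)
    (disjoint_sdiff.mono_left (sdiff_subset.trans sdiff_subset)) a4 p4 (by linarith)
  have e5 : (P \ J1) \ J2 ∪ I \ P = (I \ J1) \ J2 := by
    ext i
    have k1 := @a1 i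
    have k2 := @s1 i
    have k3 := @s2 i
    simp only [mem_sdiff, mem_union] at k3 ⊢
    tauto
  rw [e5] at h4
  rw [show t * H + H = (t + 1) * H by ring]
  refine cut3' hH0 (s1.trans a1) s3
    (leaf' hh (by linarith) (m2 _ d1) c1
      (p1.fl hh (fun _ h => h.1) (ne_of_pos (a := a) (by linarith))))
    (leaf' hh (by linarith) (m2 _ d3) c2
      (p3.fl hh (fun _ h => h.1) (ne_of_pos (a := a) (by linarith))))
    (leaf' (by linarith) (by linarith) ?_ (by linarith) h4) (by linarith) g1 g2 g3 g4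
  exact (mul_le_mul_of_nonneg_right (show 4 * μ ≤ 2 * t + 1 - β1 - β2 by linarith) hH0.le).trans_eq'
    (by ring)

end Pool.Agent.P.MP_d3e5c7_ag.Sc
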