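import Mathlib

/-! Many pairwise disjoint tuples with the same sum. -/

set_option autoImplicit false
set_option linter.unusedSectionVars false

namespace Pool.Agent.P.MP_d3e5c7_ag.Sc7

open Finset

variable {G U : Type} [AddCommGroup G] [Fintype G] [DecidableEq G] [Fintype U] [DecidableEq U]

/-- number of `j`-tuples with sum `c` -/
noncomputable def cnt (b : U → G) (j : ℕ) (c : G) : ℝ :=
  ∑ x : Fin j → U, if ∑ i, b (x i) = c then 1 else 0

/-- number of pairs of `j`-tuples with equal sums -/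
noncomputable def En (b : U → G) (j : ℕ) : ℝ := ∑ c, cnt b j c ^ 2

lemma cnt_nonneg (b : U → G) (j : ℕ) (c : G) : 0 ≤ cnt b j c :=
  sum_nonneg fun _ _ => by split_ifs <;> norm_num

lemma sum_cls (b : U → G) (j : ℕ) (F : G → ℝ) :
    ∑ x : Fin j → U, F (∑ i, b (x i)) = ∑ c, cnt b j c * F c := by
  simp only [cnt, sum_mul]
  rw [sum_comm]
  refine sum_congr rfl fun x _ => ?_
  simp

lemma sum_ins (j : ℕ) (i : Fin (j + 1)) (F : (Fin (j + 1) → U) → ℝ) :
    ∑ x, F x = ∑ u : U, ∑ y : Fin j → U, F (Fin.insertNth i u y) := by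
  rw [← (Fin.insertNthEquiv (fun _ => U) i).sum_comp, Fintype.sum_prod_type]
  rfl

omit [Fintype G] [DecidableEq G] [Fintype U] [DecidableEq U] in
lemma sum_b_ins (b : U → G) (j : ℕ) (i : Fin (j + 1)) (u : U) (y : Fin j → U) :
    ∑ k, b ((Fin.insertNth i u y : Fin (j + 1) → U) k) = b u + ∑ k, b (y k) := by
  rw [Fin.sum_univ_succAbove _ i]
  simp

omit [Fintype G] in
lemma cnt_succ (b : U → G) (j : ℕ) (c : G) : cnt b (j + 1) c = ∑ u, cnt b j (c - b u) := by
  unfold cnt
  rw [sum_ins j 0]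
  refine sum_congr rfl fun u _ => sum_congr rfl fun y _ => ?_
  rw [sum_b_ins]
  congr 1
  rw [eq_sub_iff_add_eq']

omit [DecidableEq G] in
lemma shift (F : G → ℝ) (a : G) : ∑ c, F (c + a) = ∑ c, F c :=
  Equiv.sum_comp (Equiv.addRight a) F

lemma En_zero (b : U → G) : En b 0 = 1 := by
  simp [En, cnt]

lemma En_up (b : U → G) (j : ℕ) : ∑ d, (∑ u, cnt b j (d + b u)) ^ 2 = En b (j + 1) := by
  simp only [En, cnt_succ, sq, sum_mul_sum]
  rw [sum_comm]
  conv_rhs => rw [sum_comm]
  have h : ∀ u u' : U, ∑ d, cnt b j (d + b u) * cnt b j (d + b u')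
      = ∑ d, cnt b j (d - b u') * cnt b j (d - b u) := by
    intro u u'
    rw [← shift (fun d => cnt b j (d - b u') * cnt b j (d - b u)) (b u + b u')]
    refine sum_congr rfl fun d _ => ?_
    congr 2 <;> abel
  calc ∑ u, ∑ d, ∑ u', cnt b j (d + b u) * cnt b j (d + b u')
      = ∑ u, ∑ u', ∑ d, cnt b j (d - b u') * cnt b j (d - b u) :=
        sum_congr rfl fun u _ => by
          rw [sum_comm]; exact sum_congr rfl fun u' _ => h u u'
    _ = ∑ u', ∑ u, ∑ d, cnt b j (d - b u') * cnt b j (d - b u) := sum_comm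
    _ = _ := sum_congr rfl fun u _ => sum_comm

lemma En_mix (b : U → G) (j : ℕ) :
    En b (j + 1) = ∑ d, cnt b j d * ∑ u, cnt b (j + 1) (d + b u) := by
  have : En b (j + 1) = ∑ c, ∑ u, cnt b j (c - b u) * cnt b (j + 1) c := by
    refine sum_congr rfl fun c _ => ?_
    rw [← sum_mul, ← cnt_succ, sq]
  rw [this, sum_comm]
  simp only [mul_sum]
  conv_rhs => rw [sum_comm]
  refine sum_congr rfl fun u _ => ?_
  rw [← shift (fun c => cnt b j (c - b u) * cnt b (j + 1) c) (b u)]
  simp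

lemma logconv (b : U → G) (j : ℕ) : En b (j + 1) ^ 2 ≤ En b j * En b (j + 2) := by
  rw [En_mix, ← En_up b (j + 1)]
  exact sum_mul_sq_le_sq_mul_sq _ _ _

lemma En_low (b : U → G) (j : ℕ) :
    ((Fintype.card U : ℝ) ^ 2) ^ j ≤ Fintype.card G * En b j := by
  have h := sum_cls b j (fun _ => 1)
  simp only [mul_one, sum_const, card_univ, Fintype.card_fun, Fintype.card_fin, nsmul_eq_mul,
    Nat.cast_pow] at h
  have h2 := sq_sum_le_card_mul_sum_sq (s := (univ : Finset G)) (f := cnt b j)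
  rw [← h, card_univ] at h2
  rw [← pow_mul, mul_comm 2 j, pow_mul]
  exact h2

lemma En_pos (b : U → G) (hU : 0 < (Fintype.card U : ℝ)) (j : ℕ) : 0 < En b j := by
  have h := En_low b j
  have h1 : 0 < ((Fintype.card U : ℝ) ^ 2) ^ j := by positivity
  exact pos_of_mul_pos_right (h1.trans_le h) (Nat.cast_nonneg _)

lemma ratio (b : U → G) (hU : 0 < (Fintype.card U : ℝ)) (g : ℕ) (τ : ℝ) (hτ : 0 < τ)
    (hq : (Fintype.card G : ℝ) ≤ τ ^ (g + 1)) :
    (Fintype.card U : ℝ) ^ 2 * En b g ≤ τ * En b (g + 1) := by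
  have hp := En_pos b hU
  set ρ : ℕ → ℝ := fun j => En b (j + 1) / En b j with hρ
  have hm : Monotone ρ := monotone_nat_of_le_succ fun j => by
    simp only [hρ]
    rw [div_le_div_iff₀ (hp _) (hp _)]
    have := logconv b j
    nlinarith
  have h0 : ∀ j, 0 < ρ j := fun j => div_pos (hp _) (hp _)
  have hi : ∀ j, j ≤ g + 1 → En b j ≤ ρ g ^ j := by
    intro j
    induction j with
    | zero => intro _; simp [En_zero]
    | succ j ih =>
      intro hj
      have e : En b (j + 1) = ρ j * En b j := by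
        simp only [hρ]; rw [div_mul_cancel₀ _ (hp j).ne']
      rw [e, pow_succ']
      exact mul_le_mul (hm (by omega)) (ih (by omega)) (hp j).le (h0 g).le
  have h1 : ((Fintype.card U : ℝ) ^ 2) ^ (g + 1) ≤ (τ * ρ g) ^ (g + 1) := by
    rw [mul_pow]
    exact (En_low b (g + 1)).trans
      (mul_le_mul hq (hi _ le_rfl) (hp _).le (by positivity))
  have h2 := le_of_pow_le_pow_left₀ (Nat.succ_ne_zero g) (mul_pos hτ (h0 g)).le h1
  simp only [hρ] at h2
  rw [← mul_div_assoc, le_div_iff₀ (hp g)] at h2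
  exact h2

omit [Fintype G] [DecidableEq G] [Fintype U] in
lemma matching (b : U → G) (n : ℕ) (c : G) (r : ℕ) :
    (∃ T : Fin r × Fin n → U, Function.Injective T ∧ ∀ a, ∑ i, b (T (a, i)) = c) ∨
    ∃ K : Finset U, K.card ≤ r * n ∧ ∀ x : Fin n → U, ∑ i, b (x i) = c →
      Function.Injective x → ∃ i, x i ∈ K := by
  induction r with
  | zero => exact Or.inl ⟨fun p => p.1.elim0, fun p => p.1.elim0, fun a => a.elim0⟩
  | succ r ih =>
    rcases ih with ⟨T, hT, hs⟩ | ⟨K, hK, hc⟩
    · by_cases h : ∀ x : Fin n → U, ∑ i, b (x i) = c →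
          Function.Injective x → ∃ i, x i ∈ univ.image T
      · refine Or.inr ⟨_, ?_, h⟩
        refine card_image_le.trans ?_
        simp [Nat.succ_mul]
      · push Not at h
        obtain ⟨x, hx, hi, hn⟩ := h
        refine Or.inl ⟨fun p => (Fin.cons x (fun a i => T (a, i)) : Fin (r + 1) → Fin n → U)
          p.1 p.2, ?_, ?_⟩
        · rintro ⟨a, i⟩ ⟨a', i'⟩ e
          induction a using Fin.cases with
          | zero =>
            induction a' using Fin.cases with
            | zero => simp only [Fin.cons_zero] at e; rw [hi e]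
            | succ a' =>
              simp only [Fin.cons_zero, Fin.cons_succ] at e
              exact absurd (e ▸ mem_image_of_mem T (mem_univ _)) (hn i)
          | succ a =>
            induction a' using Fin.cases with
            | zero =>
              simp only [Fin.cons_zero, Fin.cons_succ] at e
              exact absurd (e ▸ mem_image_of_mem T (mem_univ _)) (hn i')
            | succ a' =>
              simp only [Fin.cons_succ] at e
              have := hT e
              simp only [Prod.mk.injEq] at this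
              rw [this.1, this.2]
        · intro a
          induction a using Fin.cases with
          | zero => simpa using hx
          | succ a => simpa using hs a
    · exact Or.inr ⟨K, hK.trans (Nat.mul_le_mul_right _ (Nat.le_succ r)), hc⟩

lemma amgm (x y μ : ℝ) (hμ : 0 < μ) : x * y ≤ μ / 2 * x ^ 2 + 1 / (2 * μ) * y ^ 2 := by
  have h : μ / 2 * x ^ 2 + 1 / (2 * μ) * y ^ 2 - x * y = (μ * x - y) ^ 2 / (2 * μ) := by
    field_simp; ring
  have : 0 ≤ (μ * x - y) ^ 2 / (2 * μ) := by positivity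
  linarith

lemma type_one (b : U → G) (g k : ℕ) (K : G → Finset U) (hK : ∀ c, (K c).card ≤ k) (μ : ℝ)
    (hμ : 0 < μ) :
    ∑ u, ∑ y : Fin g → U, cnt b (g + 1) (b u + ∑ i, b (y i)) *
        (if u ∈ K (b u + ∑ i, b (y i)) then 1 else 0)
      ≤ μ / 2 * (Fintype.card U * En b g) + 1 / (2 * μ) * (k * En b (g + 1)) := by
  have h1 : ∀ u, ∑ y : Fin g → U, cnt b (g + 1) (b u + ∑ i, b (y i)) *
        (if u ∈ K (b u + ∑ i, b (y i)) then 1 else 0)
      ≤ μ / 2 * En b g + 1 / (2 * μ) *
        ∑ c, cnt b (g + 1) c ^ 2 * (if u ∈ K c then 1 else 0) := by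
    intro u
    rw [sum_cls b g (fun d => cnt b (g + 1) (b u + d) * (if u ∈ K (b u + d) then 1 else 0)),
      ← shift (fun c => cnt b (g + 1) c ^ 2 * (if u ∈ K c then 1 else 0)) (b u), En, mul_sum,
      mul_sum, ← sum_add_distrib]
    refine sum_le_sum fun d _ => (amgm _ _ μ hμ).trans (le_of_eq ?_)
    rw [add_comm d]
    split_ifs <;> simp
  refine (sum_le_sum fun u _ => h1 u).trans ?_
  rw [sum_add_distrib, ← mul_sum, ← mul_sum, sum_comm]
  refine add_le_add (le_of_eq (by simp)) (mul_le_mul_of_nonneg_left ?_ (by positivity))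
  rw [En, mul_sum]
  refine sum_le_sum fun c _ => ?_
  rw [← mul_sum, mul_comm]
  refine mul_le_mul_of_nonneg_right ?_ (sq_nonneg _)
  simpa using hK c

lemma type_two (b : U → G) (g : ℕ) (μ : ℝ) (hμ : 0 < μ) :
    ∑ u, ∑ y : Fin g → U, cnt b (g + 1) (b u + ∑ i, b (y i)) *
        (if u ∈ univ.image y then 1 else 0)
      ≤ g * (μ / 2 * En b g + 1 / (2 * μ) * (Fintype.card U * En b (g + 1))) := by
  set S : G → ℝ := fun d => ∑ u, cnt b (g + 1) (d + b u) ^ 2 with hS
  have hS0 : ∀ d, 0 ≤ S d := fun d => sum_nonneg fun _ _ => sq_nonneg _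
  have h1 : ∀ y : Fin g → U, ∑ u, cnt b (g + 1) (b u + ∑ i, b (y i)) *
        (if u ∈ univ.image y then 1 else 0) ≤ g * √(S (∑ i, b (y i))) := by
    intro y
    calc _ ≤ ∑ u, √(S (∑ i, b (y i))) * (if u ∈ univ.image y then 1 else 0) := by
          refine sum_le_sum fun u _ => mul_le_mul_of_nonneg_right ?_ (by split_ifs <;> norm_num)
          refine Real.le_sqrt_of_sq_le ?_
          rw [add_comm (b u)]
          exact single_le_sum (f := fun u => cnt b (g + 1) (∑ i, b (y i) + b u) ^ 2)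
            (fun _ _ => sq_nonneg _) (mem_univ u)
      _ ≤ _ := by
          rw [← mul_sum, mul_comm]
          refine mul_le_mul_of_nonneg_right ?_ (Real.sqrt_nonneg _)
          have : (univ.image y).card ≤ g := card_image_le.trans (by simp)
          rw [sum_ite_mem, univ_inter, sum_const, nsmul_eq_mul, mul_one]
          exact_mod_cast this
  rw [sum_comm]
  refine (sum_le_sum fun y _ => h1 y).trans ?_
  rw [← mul_sum, sum_cls b g (fun d => √(S d))]
  refine mul_le_mul_of_nonneg_left ?_ (Nat.cast_nonneg _)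
  have h2 : ∑ d, S d = Fintype.card U * En b (g + 1) := by
    simp only [hS]
    rw [sum_comm]
    rw [sum_congr rfl fun u _ => shift (fun c => cnt b (g + 1) c ^ 2) (b u)]
    simp [En]
  rw [← h2, En, mul_sum, mul_sum, ← sum_add_distrib]
  refine sum_le_sum fun d _ => (amgm _ _ μ hμ).trans (le_of_eq ?_)
  rw [Real.sq_sqrt (hS0 d)]

/-- `r` pairwise disjoint `(g+1)`-tuples of distinct points with one and the same sum -/
theorem bundles (b : U → G) (g r : ℕ) (τ : ℝ) (hτ : 0 < τ)
    (hq : (Fintype.card G : ℝ) ≤ τ ^ (g + 1))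
    (hP : 8 * ((g : ℝ) + 1) ^ 3 * (r + g + 1) * τ ≤ Fintype.card U) :
    ∃ c, ∃ T : Fin r × Fin (g + 1) → U, Function.Injective T ∧ ∀ a, ∑ i, b (T (a, i)) = c := by
  by_contra hno
  have hK : ∀ c, ∃ K : Finset U, K.card ≤ r * (g + 1) ∧ ∀ x : Fin (g + 1) → U,
      ∑ i, b (x i) = c → Function.Injective x → ∃ i, x i ∈ K := fun c =>
    (matching b (g + 1) c r).resolve_left fun h => hno ⟨c, h⟩
  choose K hK hc using hK
  set P : ℝ := (Fintype.card U : ℝ) with hPd
  have hP0 : 0 < P := lt_of_lt_of_le (by positivity) hP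
  have hE := En_pos b hP0 (g + 1)
  have hE0 := En_pos b hP0 g
  have hr := ratio b hP0 g τ hτ hq
  rw [← hPd] at hr
  have h1 : ∀ x : Fin (g + 1) → U, cnt b (g + 1) (∑ i, b (x i)) ≤
      ∑ i, (cnt b (g + 1) (∑ i, b (x i)) * (if x i ∈ K (∑ i, b (x i)) then 1 else 0) +
        cnt b (g + 1) (∑ i, b (x i)) *
          (if x i ∈ univ.image (fun k => x (i.succAbove k)) then 1 else 0)) := by
    intro x
    have hn := cnt_nonneg b (g + 1) (∑ i, b (x i))
    have hi : ∃ i, x i ∈ K (∑ i, b (x i)) ∨ x i ∈ univ.image (fun k => x (i.succAbove k)) := by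
      by_cases hx : Function.Injective x
      · exact (hc _ x rfl hx).imp fun i h => Or.inl h
      · obtain ⟨i, j, e, hij⟩ := Function.not_injective_iff.1 hx
        obtain ⟨k, hk⟩ := Fin.exists_succAbove_eq hij.symm
        exact ⟨i, Or.inr (mem_image.2 ⟨k, mem_univ _, by rw [hk, e]⟩)⟩
    obtain ⟨i, hi⟩ := hi
    refine le_trans ?_ (single_le_sum (fun i _ => ?_) (mem_univ i))
    · split_ifs <;> first | linarith | tauto
    · split_ifs <;> linarith
  set n : ℝ := (g : ℝ) + 1 with hn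
  have hn0 : 0 < n := by positivity
  have hr0 : (0 : ℝ) ≤ r := Nat.cast_nonneg r
  have hg0 : (0 : ℝ) ≤ g := Nat.cast_nonneg g
  have t1 := type_one b g (r * (g + 1)) K hK (4 * n ^ 2 * (r + n)) (by positivity)
  have t2 := type_two b g (4 * n ^ 2 * P) (by positivity)
  rw [← hPd] at t1 t2
  have hP' : 8 * n ^ 3 * (r + n) * τ ≤ P := by rw [hn, ← add_assoc]; exact hP
  have key : 8 * n ^ 3 * (r + n) * (P * En b g) ≤ En b (g + 1) := by
    have : P * (8 * n ^ 3 * (r + n) * (P * En b g)) ≤ P * En b (g + 1) :=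
      calc _ = 8 * n ^ 3 * (r + n) * (P ^ 2 * En b g) := by ring
        _ ≤ 8 * n ^ 3 * (r + n) * (τ * En b (g + 1)) := by gcongr
        _ = 8 * n ^ 3 * (r + n) * τ * En b (g + 1) := by ring
        _ ≤ _ := by gcongr
    exact le_of_mul_le_mul_left this hP0
  have b1 : n * (4 * n ^ 2 * (r + n) / 2 * (P * En b g) +
      1 / (2 * (4 * n ^ 2 * (r + n))) * (((r * (g + 1) : ℕ) : ℝ) * En b (g + 1)))
      ≤ 3 / 8 * En b (g + 1) := by
    have e : n * (1 / (2 * (4 * n ^ 2 * (r + n))) * (((r * (g + 1) : ℕ) : ℝ) * En b (g + 1)))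
        = r / (r + n) * (1 / 8 * En b (g + 1)) := by
      push_cast; rw [← hn]; field_simp; ring
    have e2 : (r : ℝ) / (r + n) ≤ 1 := by rw [div_le_one (by positivity)]; linarith
    rw [mul_add, e]
    nlinarith
  have b2 : n * (g * (4 * n ^ 2 * P / 2 * En b g +
      1 / (2 * (4 * n ^ 2 * P)) * (P * En b (g + 1)))) ≤ 3 / 8 * En b (g + 1) := by
    have e : n * (g * (1 / (2 * (4 * n ^ 2 * P)) * (P * En b (g + 1))))
        = g / n * (1 / 8 * En b (g + 1)) := by
      field_simp; ring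
    have e2 : (g : ℝ) / n ≤ 1 := by rw [div_le_one hn0]; linarith
    have e3 : 8 * n ^ 3 * g * (P * En b g) ≤ 8 * n ^ 3 * (r + n) * (P * En b g) := by
      gcongr; linarith
    rw [mul_add, mul_add, e]
    nlinarith
  have h2 : En b (g + 1) ≤ 3 / 8 * En b (g + 1) + 3 / 8 * En b (g + 1) := by
    have e : En b (g + 1) = ∑ x : Fin (g + 1) → U, cnt b (g + 1) (∑ i, b (x i)) := by
      rw [sum_cls b (g + 1) (cnt b (g + 1))]
      simp only [En, sq]
    refine e.le.trans ((sum_le_sum fun x _ => h1 x).trans ?_)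
    refine le_trans ?_ (add_le_add b1 b2)
    rw [sum_comm, ← mul_add]
    have hs : ∀ (F : Fin (g + 1) → ℝ) (B : ℝ), (∀ i, F i ≤ B) → ∑ i, F i ≤ n * B :=
      fun F B h => (sum_le_card_nsmul _ _ B fun i _ => h i).trans (le_of_eq (by simp [hn]))
    refine hs _ _ fun i => ?_
    refine le_trans (le_of_eq ?_) (add_le_add t1 t2)
    rw [sum_ins g i, ← sum_add_distrib]
    refine sum_congr rfl fun u _ => ?_
    rw [← sum_add_distrib]
    refine sum_congr rfl fun y _ => ?_
    rw [sum_b_ins]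
    simp
  linarith

/-- integer form, for a finite set of points -/
theorem bundles_int {ι : Type} [DecidableEq ι] (I : Finset ι) (b : ι → ℤ) (B : ℕ)
    (hb : ∀ i ∈ I, 0 ≤ b i ∧ b i ≤ B) (g r : ℕ) (τ : ℝ) (hτ : 0 < τ)
    (hq : ((g : ℝ) + 1) * B + 1 ≤ τ ^ (g + 1))
    (hP : 8 * ((g : ℝ) + 1) ^ 3 * (r + g + 1) * τ ≤ I.card) :
    ∃ (c : ℤ) (T : Fin r → Finset ι),
      (∀ a, T a ⊆ I ∧ (T a).card = g + 1 ∧ ∑ i ∈ T a, b i = c) ∧
      Pairwise fun a a' => Disjoint (T a) (T a') := by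
  have : NeZero ((g + 1) * B + 1) := ⟨Nat.succ_ne_zero _⟩
  obtain ⟨c, T, hT, hs⟩ := bundles (G := ZMod ((g + 1) * B + 1)) (U := I)
    (fun i => (b i : ZMod ((g + 1) * B + 1))) g r τ hτ
    (by rw [ZMod.card]; push_cast; exact hq) (by rw [Fintype.card_coe]; exact hP)
  have hinj : ∀ a, Function.Injective fun i => (T (a, i) : ι) := fun a i j e => by
    have := hT (Subtype.ext e)
    simpa using this
  refine ⟨c.val, fun a => univ.image fun i => (T (a, i) : ι), fun a => ⟨?_, ?_, ?_⟩, ?_⟩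
  · intro x hx
    obtain ⟨i, -, rfl⟩ := mem_image.1 hx
    exact (T (a, i)).2
  · rw [card_image_of_injective _ (hinj a)]; simp
  · rw [sum_image fun i _ j _ e => hinj a e, ← hs a, ← Int.cast_sum, ZMod.val_intCast]
    have h0 : 0 ≤ ∑ i, b (T (a, i)) := sum_nonneg fun i _ => (hb _ (T (a, i)).2).1
    have h1 : ∑ i, b (T (a, i)) ≤ (g + 1) * B :=
      (sum_le_card_nsmul _ _ (B : ℤ) fun i _ => (hb _ (T (a, i)).2).2).trans
        (le_of_eq (by simp))
    refine (Int.emod_eq_of_lt h0 ?_).symm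
    push_cast
    omega
  · intro a a' h
    rw [disjoint_left]
    intro x hx hx'
    obtain ⟨i, -, rfl⟩ := mem_image.1 hx
    obtain ⟨j, -, e⟩ := mem_image.1 hx'
    have := hT (Subtype.ext e)
    simp only [Prod.mk.injEq] at this
    exact h this.1.symm

end Pool.Agent.P.MP_d3e5c7_ag.Sc7

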