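import Pool.Agent.P.MP_d3e5c7_ag.ScA
import Pool.Agent.P.MP_d3e5c7_ag.Neg

/-! Nine points with close multiplicities, and bundles of 192 such groups. -/

set_option autoImplicit false

namespace Pool.Agent.P.MP_d3e5c7_ag.Sd

open MvPolynomial Nag Nu Sc Finset

theorem chamber0 (t u0 u1 u2 u3 u4 u5 u6 u7 u8 u9 a1 a2 a3 a4 a5 a6 a7 a8 a9 d : ℤ)
    (h0 : 0 ≤ u0) (h1 : 0 ≤ u1) (h2 : 0 ≤ u2) (h3 : 0 ≤ u3) (h4 : 0 ≤ u4) (h5 : 0 ≤ u5)
    (h6 : 0 ≤ u6) (h7 : 0 ≤ u7) (h8 : 0 ≤ u8) (h9 : 0 ≤ u9) (e1 : a1 = t + u1)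
    (e2 : a2 = a1 + u2) (e3 : a3 = a2 + u3) (e4 : a4 = a3 + u4) (e5 : a5 = a4 + u5)
    (e6 : a6 = a5 + u6) (e7 : a7 = a6 + u7) (e8 : a8 = a7 + u8) (e9 : a9 = a8 + u9)
    (e0 : d = a9 + a8 + a7 + u0) :
    0 ≤ d * d - (t * t + a1 * a1 + a2 * a2 + a3 * a3 + a4 * a4 + a5 * a5 + a6 * a6 + a7 * a7 +
      a8 * a8 + a9 * a9) + (3 * d - (t + a1 + a2 + a3 + a4 + a5 + a6 + a7 + a8 + a9)) ^ 2 := by
  subst e0 e9 e8 e7 e6 e5 e4 e3 e2 e1
  ring_nf
  positivity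

theorem sum_ten (f : Fin 10 → ℤ) :
    ∑ i, f i = f 0 + f 1 + f 2 + f 3 + f 4 + f 5 + f 6 + f 7 + f 8 + f 9 := by
  simp [Fin.sum_univ_succ]
  ring

theorem cone (N : ℕ) : ∀ (d : ℤ) (m : Fin 10 → ℤ), d < N → Eff d m →
    0 ≤ dot d m d m + (3 * d - ∑ i, m i) ^ 2 := by
  induction N with
  | zero => exact fun d m hd h => by have := h.1; omega
  | succ N ih =>
    intro d m hd h
    have hs := Tuple.monotone_sort m
    set σ := Tuple.sort m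
    have ht : Function.Injective ![σ 9, σ 8, σ 7] := by
      intro a b
      fin_cases a <;> fin_cases b <;> simp
    rcases lt_or_ge (ck ![σ 9, σ 8, σ 7] d m) 0 with h1 | h1
    · have := ih _ _ (by omega) (h.cm ht)
      rwa [dot_cm ht, can_cm] at this
    · have h2 : ∀ i j : Fin 10, i ≤ j → 0 ≤ m (σ j) - m (σ i) := fun i j hij =>
        sub_nonneg.2 (hs hij)
      rw [dot, ← Equiv.sum_comp σ, ← Equiv.sum_comp σ m, sum_ten, sum_ten]
      exact chamber0 _ _ _ _ _ _ _ _ _ _ _ _ _ _ _ _ _ _ _ _ _ h1 (h2 0 1 (by decide))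
        (h2 1 2 (by decide)) (h2 2 3 (by decide)) (h2 3 4 (by decide)) (h2 4 5 (by decide))
        (h2 5 6 (by decide)) (h2 6 7 (by decide)) (h2 7 8 (by decide)) (h2 8 9 (by decide))
        (by ring) (by ring) (by ring) (by ring) (by ring) (by ring) (by ring) (by ring) (by ring)
        (by simp [ck])

theorem cone9 {m : Fin 9 → ℤ} {N : ℤ} (h : Ex m univ fun x j => (x : ℤ) + j < N) :
    ∑ i, m i ^ 2 ≤ (N - 1) ^ 2 + (3 * (N - 1) - ∑ i, m i) ^ 2 := by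
  obtain ⟨K, _, _, q, hq⟩ := exists_gen (Fin 10)
  obtain ⟨f, f0, fs, fv⟩ := h K fun i => q i.succ
  obtain ⟨α, hα⟩ := support_nonempty.2 f0
  have h0 := fs α hα
  have h1 : f.totalDegree ≤ (N - 1).toNat :=
    totalDegree_le fun β hβ => by have := fs β hβ; omega
  have h2 : Eff (N - 1) (Fin.cons 0 m : Fin 10 → ℤ) :=
    eff_of_affine q hq f0 (by omega) fun i => by
      refine Fin.cases ?_ (fun j => ?_) i
      · exact van_of_nonpos _ le_rfl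
      · exact fv j (mem_univ j)
  have h3 := cone N.toNat _ _ (by omega) h2
  simp only [dot, Fin.sum_univ_succ (n := 9), Fin.cons_zero, Fin.cons_succ] at h3
  simp only [sq] at h3 ⊢
  linarith

/-- variance bound for numbers in an interval -/
theorem sum_sq_le {κ : Type} [Fintype κ] (x : κ → ℝ) {lo w : ℝ} (h : ∀ k, lo ≤ x k ∧ x k ≤ lo + w) :
    Fintype.card κ * ∑ k, x k ^ 2 ≤ (∑ k, x k) ^ 2 + (Fintype.card κ * w) ^ 2 / 4 := by
  have h1 : ∑ k, x k ^ 2 ≤ ∑ k, ((2 * lo + w) * x k - lo * (lo + w)) :=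
    sum_le_sum fun k _ => by nlinarith [mul_nonneg (sub_nonneg.2 (h k).1) (sub_nonneg.2 (h k).2)]
  rw [sum_sub_distrib, ← mul_sum, sum_const, card_univ, nsmul_eq_mul] at h1
  have h2 := mul_le_mul_of_nonneg_left h1 (Nat.cast_nonneg (Fintype.card κ))
  nlinarith [sq_nonneg (∑ k, x k - Fintype.card κ * (lo + w / 2))]

theorem nine {m : Fin 9 → ℤ} {v w Z : ℝ} (hv : 4 ≤ v) (hw : 0 ≤ w) (hwv : w ≤ v)
    (hZ : 3 * w ^ 2 ≤ 8 * v * Z) (hm : ∀ i, v ≤ m i ∧ (m i : ℝ) ≤ v + w) :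
    ∃ N : ℤ, (¬ Ex m univ fun x j => (x : ℤ) + j < N) ∧ (∑ i, (m i : ℝ)) / 3 ≤ N ∧
      N ≤ (∑ i, (m i : ℝ)) / 3 + Z + 1 ∧ ∑ i, (m i : ℝ) ^ 2 ≤ N ^ 2 + 10 * Z ^ 2 := by
  obtain ⟨μ, hμ⟩ : ∃ μ, ∑ i, (m i : ℝ) = 3 * μ := ⟨(∑ i, (m i : ℝ)) / 3, by ring⟩
  have h1 : 9 * v ≤ 3 * μ := by
    have := card_nsmul_le_sum univ (fun i => (m i : ℝ)) _ fun i _ => (hm i).1
    simpa [hμ] using this
  have h2 := sum_sq_le (fun i => (m i : ℝ)) hm
  have h3 := sq_sum_le_card_mul_sum_sq (s := univ) (f := fun i => (m i : ℝ))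
  simp only [Fintype.card_fin, card_univ, Nat.cast_ofNat, hμ] at h2 h3
  have μ0 : 0 < μ := by linarith
  obtain ⟨z, hz⟩ : ∃ z, ∑ i, (m i : ℝ) ^ 2 = μ ^ 2 + 2 * μ * z :=
    ⟨(∑ i, (m i : ℝ) ^ 2 - μ ^ 2) / (2 * μ), by field_simp; ring⟩
  rw [hz] at h2 h3
  have z0 : 0 ≤ z := by
    by_contra h0
    nlinarith
  have z2 := mul_le_mul_of_nonneg_right (show 3 * v ≤ μ by linarith) z0
  have z1 : z ≤ Z := le_of_mul_le_mul_left (a := 8 * v) (by nlinarith) (by linarith)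
  have z3 : z ≤ 3 * v / 8 := le_of_mul_le_mul_left (a := 8 * v) (by nlinarith) (by linarith)
  obtain ⟨e, he⟩ : ∃ e, μ * e = μ * z - 5 * z ^ 2 := ⟨z - 5 * z ^ 2 / μ, by field_simp⟩
  have e0 : 0 ≤ e := by
    by_contra h0
    nlinarith [mul_nonneg z0 (show 0 ≤ μ - 5 * z by linarith)]
  have e1 : e ≤ z := by
    by_contra h0
    nlinarith [sq_nonneg z]
  have h5 := Int.le_ceil (μ + e)
  have h6 := Int.ceil_lt_add_one (μ + e)
  refine ⟨⌈μ + e⌉, fun hx => ?_, by rw [hμ]; linarith, by rw [hμ]; linarith, ?_⟩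
  · have h4 : ∑ i, (m i : ℝ) ^ 2 ≤ ((⌈μ + e⌉ : ℝ) - 1) ^ 2 +
        (3 * ((⌈μ + e⌉ : ℝ) - 1) - ∑ i, (m i : ℝ)) ^ 2 := by exact_mod_cast cone9 hx
    obtain ⟨g, hg⟩ : ∃ g, (⌈μ + e⌉ : ℝ) - 1 = μ + g := ⟨(⌈μ + e⌉ : ℝ) - 1 - μ, by ring⟩
    rw [hz, hμ, hg] at h4
    have h7 : 0 < (e - g) * (2 * μ + 10 * (e + g)) := mul_pos (by linarith) (by linarith)
    nlinarith [mul_le_mul e1 e1 e0 z0]
  · rw [hz]
    nlinarith [pow_le_pow_left₀ z0 z1 2, sq_nonneg e, pow_le_pow_left₀ (by linarith) h5 2]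

theorem one_point {τ : Type} {I : Finset τ} (m : τ → ℤ) {o : τ} (ho : o ∈ I) :
    ¬ Ex m I fun x j => (x : ℤ) + j < m o := by
  intro hx
  obtain ⟨f, h0, hs, hv⟩ := hx ℚ 0
  obtain ⟨α, hα⟩ := support_nonempty.2 h0
  have h1 := hv o ho α (by
    have := hs α hα
    rw [degree2]
    push_cast
    exact this)
  rw [Pi.zero_apply, sh_zero] at h1
  exact mem_support_iff.1 hα h1

/-- `9 ^ j` points with close multiplicities collide to one point -/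
theorem tower {v w Y : ℝ} (hv : 4 ≤ v) (hw : 0 ≤ w) (hwv : 2 * w ≤ v) (hY : 1 ≤ Y)
    (hY2 : w ^ 2 ≤ v * Y) (j : ℕ) : j * Y ≤ w → ∀ (τ : Type) [Fintype τ] (m : τ → ℤ),
      Fintype.card τ = 9 ^ j → (∀ i, v ≤ m i ∧ (m i : ℝ) ≤ v + w) →
      ∃ N : ℤ, (¬ Ex m univ fun x j => (x : ℤ) + j < N) ∧ (∑ i, (m i : ℝ)) / 3 ^ j ≤ N ∧
        N ≤ (∑ i, (m i : ℝ)) / 3 ^ j + j * 3 ^ j * Y ∧
        ∑ i, (m i : ℝ) ^ 2 ≤ N ^ 2 + 3 * j * (3 ^ j) ^ 2 * Y ^ 2 := by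
  induction j with
  | zero =>
    intro _ τ _ m hG _
    obtain ⟨_⟩ := Fintype.card_eq_one_iff_nonempty_unique.1 hG
    exact ⟨m default, one_point m (mem_univ _), by simp, by simp, by simp⟩
  | succ j ih =>
    intro hj τ _ m hG hm
    push_cast at hj
    let e : Fin 9 × Fin (9 ^ j) ≃ τ := Fintype.equivOfCardEq (by simp [hG, pow_succ'])
    choose N h1 h2 h3 h4 using fun a : Fin 9 => ih (by linarith) _ (fun t => m (e (a, t)))
      (Fintype.card_fin _) fun t => hm _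
    have e9 : ((9 ^ j : ℕ) : ℝ) = (3 ^ j) ^ 2 := by
      rw [← pow_mul, mul_comm, pow_mul]
      norm_num
    have t1 : (1 : ℝ) ≤ 3 ^ j := one_le_pow₀ (by norm_num)
    rw [← e.sum_comp, ← e.sum_comp fun i => (m i : ℝ) ^ 2, Fintype.sum_prod_type,
      Fintype.sum_prod_type, pow_succ]
    have k1 := fun a => card_nsmul_le_sum univ (fun t => (m (e (a, t)) : ℝ)) _ fun t _ => (hm _).1
    have k2 := fun a => sum_le_card_nsmul univ (fun t => (m (e (a, t)) : ℝ)) _ fun t _ => (hm _).2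
    simp only [card_univ, Fintype.card_fin, nsmul_eq_mul, e9] at k1 k2
    generalize (3 : ℝ) ^ j = t at *
    have k5 := mul_le_mul_of_nonneg_left (show j * Y ≤ w by linarith) (by linarith : 0 ≤ t)
    obtain ⟨M, c1, c2, c3, c4⟩ := nine (m := N) (v := t * v) (w := 2 * (t * w))
      (Z := 3 / 2 * t * Y) (by nlinarith) (by positivity) (by nlinarith)
      (by nlinarith [mul_le_mul_of_nonneg_left hY2 (sq_nonneg t)]) fun a => by
        have k3 : t * v ≤ (∑ i, (m (e (a, i)) : ℝ)) / t :=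
          (le_div_iff₀ (by linarith)).2 (by linarith [k1 a])
        have k4 : (∑ i, (m (e (a, i)) : ℝ)) / t ≤ t * (v + w) :=
          (div_le_iff₀ (by linarith)).2 (by linarith [k2 a])
        exact ⟨k3.trans (h2 a), by linarith [h3 a]⟩
    have s1 := sum_le_sum (s := univ) fun a _ => h2 a
    have s2 := sum_le_sum (s := univ) fun a _ => h3 a
    have s3 := sum_le_sum (s := univ) fun a _ => h4 a
    simp only [sum_add_distrib, ← sum_div, sum_const, card_univ, Fintype.card_fin, nsmul_eq_mul,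
      Nat.cast_ofNat] at s1 s2 s3
    refine ⟨M, fun hx => c1 (collide_all (fun _ _ _ _ _ _ _ => by omega) h1
      (comp e.injective (fun _ _ => mem_univ _) hx)), ?_, ?_, ?_⟩
    · rw [← div_div]
      linarith
    · rw [← div_div]
      push_cast
      nlinarith [mul_le_mul t1 hY (by norm_num) (by linarith)]
    · push_cast
      nlinarith [sq_nonneg (t * Y)]

theorem down_E {H B : ℝ} (hH : 0 ≤ H) (hB : 0 ≤ B) : Down (E H B) := by
  intro x j x' j' h1 h2 h3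
  have h4 : (x' : ℝ) ≤ x := by exact_mod_cast h1
  have h5 : (j' : ℝ) ≤ j := by exact_mod_cast h2
  simp only [E] at h3 ⊢
  nlinarith

theorem bundle {τ : Type} [Fintype τ] {m : (Fin 12 × Fin 16) × τ → ℤ} {N : Fin 12 × Fin 16 → ℤ}
    {lo w W c : ℝ} (h1 : ∀ g, ¬ Ex (fun t => m (g, t)) univ fun x j => (x : ℤ) + j < N g)
    (h5 : ∀ g, lo ≤ N g ∧ (N g : ℝ) ≤ lo + w) (h4 : ∀ g, ∑ t, (m (g, t) : ℝ) ^ 2 ≤ N g ^ 2 + W)
    (hlo : 2 * w ^ 2 + 8 * W ≤ lo) (h0 : 0 < lo) (hc : 0 < c)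
    (hA : 12 * c ^ 2 ≤ ∑ i, (m i : ℝ) ^ 2) : ¬ Ex m univ (E c (12 * c)) := by
  classical
  intro hx
  have h6 : ∀ g, 1 ≤ N g := fun g => by
    have : (0 : ℝ) < N g := h0.trans_le (h5 g).1
    exact_mod_cast this
  have hd := down_E hc.le (show 0 ≤ 12 * c by linarith)
  have h7 := collide_all (N := fun k => (∑ t, N (k, t)) / 4 + 1) hd (fun k =>
    sixteen (fun t => by linarith [h6 (k, t)]) (by
      have := card_nsmul_le_sum univ (fun t => N (k, t)) _ fun t _ => h6 (k, t)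
      simp at this
      omega)) (collide_all hd h1 hx)
  refine fill_mean hc ?_ (by rw [Fintype.card_fin]; exact_mod_cast h7)
  have h8 : (∑ g, (N g : ℝ)) / 4 + 3 ≤ ∑ k : Fin 12, (((∑ t, N (k, t)) / 4 + 1 : ℤ) : ℝ) := by
    have : ∑ k : Fin 12, ((∑ t, (N (k, t) : ℝ)) / 4 + 1 / 4) ≤
        ∑ k : Fin 12, (((∑ t, N (k, t)) / 4 + 1 : ℤ) : ℝ) := by
      refine sum_le_sum fun k _ => ?_
      have h9 : (∑ t, N (k, t)) + 1 ≤ 4 * ((∑ t, N (k, t)) / 4 + 1) := by omega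
      have h10 : ∑ t, (N (k, t) : ℝ) + 1 ≤ 4 * (((∑ t, N (k, t)) / 4 + 1 : ℤ) : ℝ) := by
        exact_mod_cast h9
      linarith
    rw [sum_add_distrib, ← sum_div, ← Fintype.sum_prod_type fun g => (N g : ℝ)] at this
    norm_num at this ⊢
    linarith
  refine lt_of_lt_of_le ?_ h8
  have h9 := sum_sq_le (fun g => (N g : ℝ)) h5
  have h10 : ∑ i, (m i : ℝ) ^ 2 ≤ ∑ g, ((N g : ℝ) ^ 2 + W) := by
    rw [Fintype.sum_prod_type]
    exact sum_le_sum fun g _ => h4 g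
  have h11 := card_nsmul_le_sum univ (fun g => (N g : ℝ)) _ fun g _ => (h5 g).1
  rw [sum_add_distrib] at h10
  norm_num at h9 h10 h11 ⊢
  refine lt_of_pow_lt_pow_left₀ 2 (by linarith) ?_
  nlinarith

end Pool.Agent.P.MP_d3e5c7_ag.Sd
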