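import Mathlib

/-! Many disjoint tuples with the same sum. -/

set_option autoImplicit false

namespace Pool.Agent.P.MP_d3e5c7_ag.Sd

open Finset Fintype

theorem greedy {α : Type} (R : α → α → Prop) [DecidableRel R] (hR : ∀ x y, R x y → R y x)
    {D ρ : ℝ} (hρ : 0 < ρ) (hD : 0 ≤ D) (N : ℕ) : ∀ V : Finset α,
    ((∑ x ∈ V, (V.filter (R x)).card : ℕ) : ℝ) ≤ D * ρ → ρ + N * D ≤ V.card →
    ∃ g : Fin N → α, (∀ i, g i ∈ V) ∧ ∀ i j, i ≠ j → ¬ R (g i) (g j) := by
  induction N with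
  | zero => exact fun V _ _ => ⟨Fin.elim0, fun i => i.elim0, fun i => i.elim0⟩
  | succ N ih =>
    intro V h1 h2
    push_cast at h1 h2
    have h3 : ρ ≤ V.card := by nlinarith [mul_nonneg (Nat.cast_nonneg (α := ℝ) N) hD]
    have h4 : V.Nonempty := card_pos.1 (by exact_mod_cast hρ.trans_le h3)
    obtain ⟨x, hx, h5⟩ := exists_le_of_sum_le (f := fun x => ((V.filter (R x)).card : ℝ))
      (g := fun _ => D) h4 (by rw [sum_const, nsmul_eq_mul]; nlinarith)
    obtain ⟨g, h6, h7⟩ := ih (V.filter fun y => ¬ R x y) (le_trans (by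
      exact_mod_cast (sum_le_sum fun z _ => card_le_card
        (filter_subset_filter _ (filter_subset _ _))).trans
        (sum_le_sum_of_subset (filter_subset _ _))) h1) (by
      have : ((V.filter (R x)).card : ℝ) + (V.filter fun y => ¬ R x y).card = V.card := by
        exact_mod_cast card_filter_add_card_filter_not (R x)
      linarith)
    refine ⟨Fin.cons x g, fun i => ?_, fun i j => ?_⟩
    · exact Fin.cases hx (fun i => (mem_filter.1 (h6 i)).1) i
    · refine Fin.cases ?_ (fun i => ?_) i <;> refine Fin.cases ?_ (fun j => ?_) j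
      · exact fun h => absurd rfl h
      · exact fun _ => (mem_filter.1 (h6 j)).2
      · exact fun _ h => (mem_filter.1 (h6 i)).2 (hR _ _ h)
      · exact fun h => h7 i j fun e => h (e ▸ rfl)

variable {ι : Type} [DecidableEq ι] {q g : ℕ} [NeZero q]

/-- signs -/
def sg (q : ℕ) : Fin g ⊕ Fin g → ZMod q := Sum.elim (fun _ => 1) fun _ => -1

/-- pairs of tuples with equal sums -/
def zs (b : ι → ZMod q) (W : Fin g ⊕ Fin g → Finset ι) : Finset (Fin g ⊕ Fin g → ι) :=
  (piFinset W).filter fun z => ∑ l, sg q l * b (z l) = 0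

theorem char_sum {κ : Type} (s : Finset κ) (f : κ → ZMod q) :
    ZMod.stdAddChar (∑ l ∈ s, f l) = ∏ l ∈ s, ZMod.stdAddChar (f l) := by
  classical
  induction s using Finset.induction_on with
  | empty => simp
  | insert a s ha ih => rw [sum_insert ha, prod_insert ha, AddChar.map_add_eq_mul, ih]

omit [DecidableEq ι] in
theorem fourier (b : ι → ZMod q) (W : Fin g ⊕ Fin g → Finset ι) :
    (q : ℂ) * (zs b W).card =
      ∑ ξ : ZMod q, ∏ l, ∑ u ∈ W l, ZMod.stdAddChar (ξ * (sg q l * b u)) := by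
  simp only [prod_univ_sum, ← char_sum, ← mul_sum]
  rw [sum_comm, zs, card_filter]
  push_cast
  rw [mul_sum]
  refine sum_congr rfl fun z _ => ?_
  rw [AddChar.sum_mulShift _ (ZMod.isPrimitive_stdAddChar q), ZMod.card]
  split_ifs <;> simp

/-- the exponential sum -/
noncomputable def ph (b : ι → ZMod q) (U : Finset ι) (ξ : ZMod q) : ℂ :=
  ∑ u ∈ U, ZMod.stdAddChar (ξ * b u)

omit [DecidableEq ι] in
theorem ph_neg (b : ι → ZMod q) (U : Finset ι) (ξ : ZMod q) :
    ∑ u ∈ U, ZMod.stdAddChar (ξ * (-1 * b u)) = (starRingEnd ℂ) (ph b U ξ) := by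
  rw [ph, map_sum]
  exact sum_congr rfl fun u _ => by rw [← AddChar.map_neg_eq_conj]; congr 1; ring

omit [DecidableEq ι] in
theorem card_all (b : ι → ZMod q) (U : Finset ι) :
    (q : ℝ) * (zs (g := g) b fun _ => U).card = ∑ ξ, (‖ph b U ξ‖ ^ 2) ^ g := by
  have h := fourier (g := g) b fun _ => U
  simp only [Fintype.prod_sum_type, sg, Sum.elim_inl, Sum.elim_inr, ph_neg, one_mul, prod_const,
    card_univ, Fintype.card_fin] at h
  apply Complex.ofReal_injective
  push_cast
  rw [h]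
  refine sum_congr rfl fun ξ _ => ?_
  rw [← mul_pow, ← Complex.mul_conj']
  rfl

omit [DecidableEq ι] in
theorem card_two (b : ι → ZMod q) (U : Finset ι) {l l' : Fin (g + 1) ⊕ Fin (g + 1)}
    (hl : l ≠ l') (u : ι) :
    (q : ℝ) * (zs b fun k => if k = l ∨ k = l' then {u} else U).card ≤
      ∑ ξ, (‖ph b U ξ‖ ^ 2) ^ g := by
  have h := congrArg norm (fourier b fun k => if k = l ∨ k = l' then {u} else U)
  rw [norm_mul, Complex.norm_natCast, Complex.norm_natCast] at h
  rw [h]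
  refine (norm_sum_le _ _).trans (le_of_eq (sum_congr rfl fun ξ _ => ?_))
  have h1 : ∀ k, ‖∑ v ∈ (if k = l ∨ k = l' then {u} else U),
      ZMod.stdAddChar (ξ * (sg q k * b v))‖ = if k = l ∨ k = l' then 1 else ‖ph b U ξ‖ := by
    intro k
    split_ifs
    · simp
    · rcases k with k | k
      · simp [sg, ph]
      · simp only [sg, Sum.elim_inr, ph_neg, RCLike.norm_conj]
  have h2 : (univ.filter fun k => ¬ (k = l ∨ k = l')) = univ \ {l, l'} := by
    ext k
    simp
  rw [norm_prod, prod_congr rfl fun k _ => h1 k, prod_ite, prod_const_one, one_mul, prod_const, h2,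
    card_sdiff_of_subset (subset_univ _), card_pair hl, ← pow_mul, card_univ, Fintype.card_sum,
    Fintype.card_fin, show g + 1 + (g + 1) - 2 = 2 * g by omega]

theorem card_bad (b : ι → ZMod q) (U : Finset ι) :
    (q : ℝ) * ((zs (g := g + 1) b fun _ => U).filter fun z => ¬ Function.Injective z).card ≤
      4 * (g + 1) ^ 2 * U.card * ∑ ξ, (‖ph b U ξ‖ ^ 2) ^ g := by
  have h1 : ((zs (g := g + 1) b fun _ => U).filter fun z => ¬ Function.Injective z) ⊆
      ((univ : Finset (Fin (g + 1) ⊕ Fin (g + 1))).offDiag ×ˢ U).biUnion fun w =>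
        zs b fun k => if k = w.1.1 ∨ k = w.1.2 then {w.2} else U := by
    intro z hz
    simp only [zs, mem_filter, mem_piFinset, Function.not_injective_iff] at hz
    obtain ⟨⟨h2, h3⟩, l, l', h4, h5⟩ := hz
    refine mem_biUnion.2 ⟨((l, l'), z l), by simp [h2, h5], ?_⟩
    refine mem_filter.2 ⟨mem_piFinset.2 fun k => ?_, h3⟩
    split_ifs with h6
    · rcases h6 with rfl | rfl <;> simp [h4]
    · exact h2 k
  have h2 := (Nat.cast_le (α := ℝ)).2 ((card_le_card h1).trans card_biUnion_le)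
  refine (mul_le_mul_of_nonneg_left h2 (Nat.cast_nonneg q)).trans ?_
  rw [Nat.cast_sum, mul_sum]
  refine (sum_le_card_nsmul _ _ _ fun w hw =>
    card_two b U (mem_offDiag.1 (mem_product.1 hw).1).2.2 w.2).trans ?_
  rw [nsmul_eq_mul, card_product, offDiag_card, Nat.cast_mul]
  refine mul_le_mul_of_nonneg_right (mul_le_mul_of_nonneg_right ?_ (by positivity)) (by positivity)
  refine ((Nat.cast_le (α := ℝ)).2 (Nat.sub_le _ _)).trans (le_of_eq ?_)
  simp
  ring

theorem bad_le (b : ι → ZMod q) (U : Finset ι) {τ : ℝ} (hτ : 0 < τ) (hq : q ≤ τ ^ (g + 1))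
    (hP : 6144 * (g + 1) ^ 2 * τ ≤ U.card) : (zs (g := g + 1) b fun _ => U).Nonempty ∧
      768 * (((zs (g := g + 1) b fun _ => U).filter fun z => ¬ Function.Injective z).card : ℝ) ≤
        (zs (g := g + 1) b fun _ => U).card := by
  have q0 : (0 : ℝ) < q := by exact_mod_cast NeZero.pos q
  have P0 : (0 : ℝ) < U.card := lt_of_lt_of_le (by positivity) hP
  have h1 := card_all (g := g + 1) b U
  have h2 := card_bad (g := g) b U
  obtain ⟨L, hL⟩ : ∃ L, (U.card : ℝ) ^ 2 = τ * L := ⟨(U.card : ℝ) ^ 2 / τ, by field_simp⟩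
  have L0 : 0 < L := (mul_pos_iff_of_pos_left hτ).1 (by rw [← hL]; positivity)
  have h3 : (τ * L) ^ (g + 1) ≤ ∑ ξ, (‖ph b U ξ‖ ^ 2) ^ (g + 1) := by
    have := single_le_sum (f := fun ξ => (‖ph b U ξ‖ ^ 2) ^ (g + 1)) (fun _ _ => by positivity)
      (mem_univ (0 : ZMod q))
    rw [← hL]
    simpa [ph] using this
  have h4 : L * ∑ ξ, (‖ph b U ξ‖ ^ 2) ^ g ≤ ∑ ξ, (L ^ (g + 1) + (‖ph b U ξ‖ ^ 2) ^ (g + 1)) := by
    rw [mul_sum]
    refine sum_le_sum fun ξ _ => ?_
    have h5 : 0 ≤ ‖ph b U ξ‖ ^ 2 := by positivity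
    generalize ‖ph b U ξ‖ ^ 2 = A at h5
    rw [pow_succ' L, pow_succ' A]
    rcases le_total A L with h6 | h6
    · linarith [mul_le_mul_of_nonneg_left (pow_le_pow_left₀ h5 h6 g) L0.le,
        mul_nonneg h5 (pow_nonneg h5 g)]
    · linarith [mul_le_mul_of_nonneg_right h6 (pow_nonneg h5 g), mul_pos L0 (pow_pos L0 g)]
  rw [sum_add_distrib, sum_const, card_univ, ZMod.card, nsmul_eq_mul] at h4
  have h5 : q * L ^ (g + 1) ≤ (τ * L) ^ (g + 1) := by
    rw [mul_pow]
    exact mul_le_mul_of_nonneg_right hq (by positivity)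
  have h6 : (0 : ℝ) < (zs (g := g + 1) b fun _ => U).card :=
    (mul_pos_iff_of_pos_left q0).1 (by rw [h1]; exact lt_of_lt_of_le (by positivity) h3)
  refine ⟨card_pos.1 (by exact_mod_cast h6), ?_⟩
  generalize (((zs (g := g + 1) b fun _ => U).filter
    fun z => ¬ Function.Injective z).card : ℝ) = B at *
  generalize ((zs (g := g + 1) b fun _ => U).card : ℝ) = Z at *
  generalize ∑ ξ, (‖ph b U ξ‖ ^ 2) ^ g = S at *
  have G0 : (0 : ℝ) < (g + 1) ^ 2 := by positivity
  generalize ((g : ℝ) + 1) ^ 2 = G at *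
  have h7 : L * S ≤ 2 * (q * Z) := by linarith
  have h8 : 6144 * G * U.card ≤ L := le_of_mul_le_mul_left (by nlinarith) hτ
  refine le_of_mul_le_mul_left ?_ (mul_pos q0 L0)
  have h9 := mul_le_mul_of_nonneg_left h2 L0.le
  have h10 := mul_le_mul_of_nonneg_left h7 (mul_pos G0 P0).le
  have h11 := mul_le_mul_of_nonneg_left h8 (mul_pos q0 h6).le
  nlinarith

theorem tuples (b : ι → ZMod q) (U : Finset ι) {τ : ℝ} (hτ : 0 < τ) (hg : 0 < g) (hq : q ≤ τ ^ g)
    (hP : 6144 * g ^ 2 * τ ≤ U.card) : ∃ x : (Fin 12 × Fin 16) × Fin g → ι, Function.Injective x ∧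
      (∀ i, x i ∈ U) ∧ ∃ t, ∀ k, ∑ j, b (x (k, j)) = t := by
  classical
  obtain ⟨g, rfl⟩ := Nat.exists_eq_succ_of_ne_zero hg.ne'
  obtain ⟨h1, h2⟩ := bad_le (g := g) b U hτ hq (by exact_mod_cast hP)
  set Z := zs (g := g + 1) b fun _ => U with hZ
  let s : (Fin (g + 1) ⊕ Fin (g + 1) → ι) → ZMod q := fun z => ∑ j, b (z (Sum.inl j))
  obtain ⟨t, ht, h3⟩ := exists_le_of_sum_le (h1.image s)
    (f := fun t => 768 * ((((Z.filter fun z => ¬ Function.Injective z)).filter
      fun z => s z = t).card : ℝ)) (g := fun t => ((Z.filter fun z => s z = t).card : ℝ)) (by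
    rw [card_eq_sum_card_fiberwise (f := s) (t := Z.image s)
      (fun z hz => mem_image_of_mem _ (mem_filter.1 hz).1),
      card_eq_sum_card_fiberwise (s := Z) (f := s) (t := Z.image s)
      (fun z hz => mem_image_of_mem _ hz)] at h2
    push_cast at h2
    rwa [mul_sum] at h2)
  let V := (piFinset fun _ : Fin (g + 1) => U).filter fun x => ∑ j, b (x j) = t
  have hm : ∀ z, z ∈ Z ↔ (∀ l, z l ∈ U) ∧ s z = ∑ j, b (z (Sum.inr j)) := fun z => by
    simp [hZ, zs, sg, s, ← sub_eq_add_neg, sub_eq_zero]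
  have h4 : (Z.filter fun z => s z = t).card ≤ (V ×ˢ V).card := by
    refine card_le_card_of_injOn (fun z => (z ∘ Sum.inl, z ∘ Sum.inr)) (fun z hz => ?_)
      fun z _ z' _ e => ?_
    · obtain ⟨h5, h6⟩ := mem_filter.1 hz
      obtain ⟨h7, h8⟩ := (hm z).1 h5
      simp only [coe_product, Set.mem_prod, mem_coe, V, mem_filter, mem_piFinset]
      exact ⟨⟨fun _ => h7 _, h6⟩, fun _ => h7 _, h8 ▸ h6⟩
    · ext l
      rcases l with l | l
      · exact congrFun (Prod.ext_iff.1 e).1 l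
      · exact congrFun (Prod.ext_iff.1 e).2 l
  have h5 : ∑ x ∈ V, (V.filter fun y => ¬ Function.Injective (Sum.elim x y)).card ≤
      ((Z.filter fun z => ¬ Function.Injective z).filter fun z => s z = t).card := by
    rw [← card_sigma]
    refine card_le_card_of_injOn (fun w => Sum.elim w.1 w.2) (fun w hw => ?_)
      fun w _ w' _ e => ?_
    · simp only [coe_sigma, Set.mem_sigma_iff, mem_coe, V, mem_filter, mem_piFinset] at hw
      obtain ⟨⟨a1, a2⟩, ⟨a3, a4⟩, a5⟩ := hw
      refine mem_coe.2 (mem_filter.2 ⟨mem_filter.2 ⟨(hm _).2 ⟨?_, a2.trans a4.symm⟩, a5⟩, a2⟩)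
      rintro (l | l)
      · exact a1 l
      · exact a3 l
    · obtain ⟨x, y⟩ := w
      obtain ⟨x', y'⟩ := w'
      obtain rfl : x = x' := funext fun l => congrFun e (Sum.inl l)
      obtain rfl : y = y' := funext fun l => congrFun e (Sum.inr l)
      rfl
  have h6 : 0 < (Z.filter fun z => s z = t).card := by
    obtain ⟨z, hz, e⟩ := mem_image.1 ht
    exact card_pos.2 ⟨z, mem_filter.2 ⟨hz, e⟩⟩
  rw [card_product] at h4
  have h7 : (0 : ℝ) < V.card := by
    have : 0 < V.card := Nat.pos_of_mul_pos_left (h6.trans_le h4)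
    exact_mod_cast this
  have h8 : ((Z.filter fun z => s z = t).card : ℝ) ≤ V.card * V.card := by exact_mod_cast h4
  obtain ⟨G, h9, h10⟩ := greedy (fun x y : Fin (g + 1) → ι => ¬ Function.Injective (Sum.elim x y))
    (fun x y h e => h (by
      rw [← Sum.elim_swap]
      exact e.comp Sum.swap_leftInverse.injective)) (D := V.card / 384) (ρ := V.card / 2) (by linarith)
    (by linarith) (12 * 16) V (((Nat.cast_le (α := ℝ)).2 h5).trans (by linarith))
    (by push_cast; linarith)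
  simp only [not_not] at h10
  refine ⟨fun i => G (finProdFinEquiv i.1) i.2, ?_, fun i => mem_piFinset.1
    (mem_filter.1 (h9 _)).1 _, t, fun k => (mem_filter.1 (h9 (finProdFinEquiv k))).2⟩
  rintro ⟨k, j⟩ ⟨k', j'⟩ e
  by_cases hk : k = k'
  · subst hk
    obtain ⟨k', hk'⟩ := exists_ne (finProdFinEquiv k)
    have := h10 _ _ hk' (a₁ := Sum.inr j) (a₂ := Sum.inr j') e
    rw [Sum.inr_injective this]
  · have := h10 _ _ (finProdFinEquiv.injective.ne hk) (a₁ := Sum.inl j) (a₂ := Sum.inr j') e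
    cases this

end Pool.Agent.P.MP_d3e5c7_ag.Sd
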