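import Pool.Agent.P.MP_d3e5c7_ag.SdB
import Pool.Agent.P.MP_d3e5c7_ag.SdC
import Pool.Agent.P.MP_d3e5c7_ag.ScS
import Pool.Agent.P.MP_d3e5c7_ag.QhD

/-! No curve of negative square when all multiplicities but one are small. -/

set_option autoImplicit false

namespace Pool.Agent.P.MP_d3e5c7_ag.Sd

open MvPolynomial Nag Nu Sc Finset

variable {ι : Type} [Fintype ι] [DecidableEq ι] {n : ι → ℤ} {a : ι → ℝ}

omit [Fintype ι] in
theorem exists_image {κ : Type} [Fintype κ] {x : κ → ι} {U : Finset ι} (h1 : Function.Injective x)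
    (h2 : ∀ i, x i ∈ U) :
    ∃ J : Finset ι, ∑ i ∈ J, a i ^ 2 = ∑ i, a (x i) ^ 2 ∧ J ⊆ U ∧ ∀ i, x i ∈ J :=
  ⟨univ.image x, sum_image fun _ _ _ _ h => h1 h, image_subset_iff.2 fun i _ => h2 i,
    fun i => mem_image_of_mem x (mem_univ i)⟩

theorem large (j : ℕ) {U : Finset ι} {t z u B τ : ℝ} (ht : t = 3 ^ j) (hz : 1 ≤ z)
    (hu : 81 * t ^ 4 * z ^ 4 ≤ u) (hB : 0 ≤ B) (hτ : 0 < τ) (hq : t ^ 2 * B + 1 ≤ τ ^ 9 ^ j)
    (hn : ∀ i ∈ U, u ≤ n i ∧ (n i : ℝ) ≤ u + 9 * t ^ 2 * z ^ 3 ∧ (n i : ℝ) ≤ u + B * z ^ 2)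
    (ha : ∀ i ∈ U, (n i : ℝ) ^ 2 - 1 ≤ a i ^ 2 ∧ a i ^ 2 ≤ (n i : ℝ) ^ 2)
    (hU : 6144 * t ^ 4 * τ ≤ U.card) :
    ∃ J ⊆ U, J.Nonempty ∧ Fl n a (10 * t * u) J ∧ ∑ i ∈ J, a i ^ 2 ≤ (20 * t * u) ^ 2 := by
  have e9 : ((9 ^ j : ℕ) : ℝ) = t ^ 2 := by
    rw [ht, ← pow_mul, mul_comm, pow_mul]
    norm_num
  have tj : (j : ℝ) + 1 ≤ t := by
    rw [ht]
    exact_mod_cast Nat.lt_pow_self (by norm_num)
  have j0 : (0 : ℝ) ≤ j := j.cast_nonneg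
  have t1 : 1 ≤ t := by linarith
  have t2 : 1 ≤ t ^ 2 := one_le_pow₀ t1
  have z2 : 1 ≤ z ^ 2 := one_le_pow₀ hz
  have w1 : 1 ≤ t ^ 2 * z ^ 3 := one_le_mul_of_one_le_of_one_le t2 (one_le_pow₀ hz)
  have w2 : t ^ 2 * z ^ 3 ≤ t ^ 4 * z ^ 4 := by gcongr <;> first | assumption | norm_num
  have w3 : t * z ^ 2 ≤ t ^ 2 * z ^ 3 :=
    mul_le_mul (le_self_pow₀ t1 two_ne_zero) (pow_le_pow_right₀ hz (by norm_num)) (by positivity)
      (by positivity)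
  have hβ : 0 < z ^ 2 := by linarith
  let b : ι → ℕ := fun i => ⌊(n i - u) / z ^ 2⌋₊
  have hb : ∀ i ∈ U, b i * z ^ 2 ≤ n i - u ∧ n i - u ≤ (b i + 1) * z ^ 2 :=
    fun i hi => ⟨(le_div_iff₀ hβ).1 (Nat.floor_le (div_nonneg (by linarith [(hn i hi).1]) hβ.le)),
      (div_le_iff₀ hβ).1 (Nat.lt_floor_add_one _).le⟩
  have hb' : ∀ i ∈ U, (b i : ℝ) ≤ B := fun i hi =>
    le_of_mul_le_mul_right (by linarith [(hb i hi).1, (hn i hi).2.2]) hβ
  obtain ⟨x, h1, h2, s, h3⟩ := tuples (q := ⌊t ^ 2 * B⌋₊ + 1) (g := 9 ^ j)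
    (fun i => (b i : ZMod (⌊t ^ 2 * B⌋₊ + 1))) U hτ (by positivity) (by
      have := Nat.floor_le (show 0 ≤ t ^ 2 * B by positivity)
      push_cast
      linarith) (by rw [e9]; linarith)
  have h4 : ∀ g, ∑ l, (b (x (g, l)) : ℝ) = s.val := fun g => by
    have h5 : ((∑ l, b (x (g, l)) : ℕ) : ℝ) ≤ t ^ 2 * B := by
      have := sum_le_card_nsmul univ (fun l => (b (x (g, l)) : ℝ)) _ fun l _ => hb' _ (h2 (g, l))
      rwa [card_univ, Fintype.card_fin, nsmul_eq_mul, e9, ← Nat.cast_sum] at this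
    rw [← h3 g, ← Nat.cast_sum, ← Nat.cast_sum,
      ZMod.val_cast_of_lt (Nat.lt_succ_of_le (Nat.le_floor h5))]
  generalize s.val = r at h4
  obtain ⟨J, e, hJU, hJ⟩ := exists_image (a := a) h1 h2
  have hc : (Fintype.card ((Fin 12 × Fin 16) × Fin (9 ^ j)) : ℝ) = 192 * t ^ 2 := by
    rw [← e9]
    simp
  have h5 : 192 * t ^ 2 * (u ^ 2 - 1) ≤ ∑ i, a (x i) ^ 2 := by
    have := card_nsmul_le_sum univ (fun i => a (x i) ^ 2) (u ^ 2 - 1) fun i _ => by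
      nlinarith [(ha _ (h2 i)).1, (hn _ (h2 i)).1]
    rwa [card_univ, nsmul_eq_mul, hc] at this
  have h6 : ∑ i, a (x i) ^ 2 ≤ 192 * t ^ 2 * (25 / 16 * u ^ 2) := by
    have := sum_le_card_nsmul univ (fun i => a (x i) ^ 2) (25 / 16 * u ^ 2) fun i _ => by
      nlinarith [(ha _ (h2 i)).2, (hn _ (h2 i)).1, (hn _ (h2 i)).2.1]
    rwa [card_univ, nsmul_eq_mul, hc] at this
  have h9 : ∑ i, a (x i) ^ 2 ≤ ∑ i, (n (x i) : ℝ) ^ 2 := sum_le_sum fun i _ => (ha _ (h2 i)).2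
  rw [← e] at h5 h6 h9
  have u1 : 81 ≤ u := by linarith
  have u2 : 0 < t * u := mul_pos (by linarith) (by linarith)
  have u3 : t ^ 2 * 2 ≤ t ^ 2 * u ^ 2 := mul_le_mul_of_nonneg_left (by nlinarith) (by linarith)
  obtain ⟨c, c0, hc⟩ : ∃ c, 0 ≤ c ∧ ∑ i ∈ J, a i ^ 2 = 12 * c ^ 2 :=
    ⟨√((∑ i ∈ J, a i ^ 2) / 12), Real.sqrt_nonneg _, by rw [Real.sq_sqrt (by nlinarith)]; ring⟩
  have c1 : 5 / 2 * (t * u) ≤ c := le_of_pow_le_pow_left₀ two_ne_zero c0 (by nlinarith)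
  have c2 : c ≤ 5 * (t * u) := le_of_pow_le_pow_left₀ two_ne_zero (by linarith) (by nlinarith)
  refine ⟨J, hJU, ⟨_, hJ (0, ⟨0, by positivity⟩)⟩,
    Fl.up (m := c) (by linarith) (by linarith) (by rw [hc]; nlinarith) fun hx => ?_, by nlinarith⟩
  rw [hc, show 12 * c ^ 2 / c = 12 * c by field_simp] at hx
  rw [hc] at h9
  have k0 := mul_le_mul_of_nonneg_right (show (j : ℝ) ≤ t by linarith) hβ.le
  choose N k1 k2 k3 k4 using fun g => tower (v := u) (w := 9 * t ^ 2 * z ^ 3) (Y := z ^ 2)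
    (by linarith) (by linarith) (by linarith) z2
    (by nlinarith [mul_le_mul_of_nonneg_right hu hβ.le]) j (by linarith) _ (fun l => n (x (g, l)))
    (Fintype.card_fin _) fun l => ⟨(hn _ (h2 _)).1, (hn _ (h2 _)).2.1⟩
  rw [← ht] at k2 k3 k4
  have r0 : 0 ≤ r * z ^ 2 / t := div_nonneg (mul_nonneg r.cast_nonneg hβ.le) (by linarith)
  have k5 := mul_le_mul_of_nonneg_left k0 (show 0 ≤ t by linarith)
  refine bundle (lo := t * u + r * z ^ 2 / t) (w := t ^ 2 * z ^ 2) (W := 3 * t ^ 3 * z ^ 4) k1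
    (fun g => ?_) (fun g => (k4 g).trans ?_) ?_ (by linarith) (by linarith) h9
    (comp h1 (fun i _ => hJ i) hx)
  · have h7 := sum_le_sum (s := univ) fun l (_ : l ∈ univ) => (hb _ (h2 (g, l))).1
    have h8 := sum_le_sum (s := univ) fun l (_ : l ∈ univ) => (hb _ (h2 (g, l))).2
    rw [← sum_mul, sum_sub_distrib, h4] at h7
    rw [← sum_mul, sum_sub_distrib, sum_add_distrib, h4] at h8
    simp only [sum_const, card_univ, Fintype.card_fin, nsmul_eq_mul, e9, mul_one] at h7 h8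
    have h10 : t * u + r * z ^ 2 / t ≤ (∑ l, (n (x (g, l)) : ℝ)) / t := by
      rw [le_div_iff₀ (by linarith), add_mul, div_mul_cancel₀ _ (by linarith)]
      linarith
    have h11 : (∑ l, (n (x (g, l)) : ℝ)) / t ≤ t * u + r * z ^ 2 / t + t * z ^ 2 := by
      rw [div_le_iff₀ (by linarith), add_mul, add_mul, div_mul_cancel₀ _ (by linarith)]
      linarith
    have h12 := mul_le_mul_of_nonneg_left tj (show 0 ≤ t * z ^ 2 by positivity)
    exact ⟨h10.trans (k2 g), by linarith [k3 g]⟩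
  · have := mul_le_mul_of_nonneg_right (show (j : ℝ) ≤ t by linarith)
      (show 0 ≤ t ^ 2 * z ^ 4 by positivity)
    linarith
  · have h7 : t ^ 3 * z ^ 4 ≤ t ^ 4 * z ^ 4 :=
      mul_le_mul_of_nonneg_right (pow_le_pow_right₀ t1 (by norm_num)) (by linarith [sq_nonneg (z ^ 2)])
    have h8 := mul_le_mul_of_nonneg_right t1 (show 0 ≤ u by linarith)
    linarith

theorem spl_all (j : ℕ) {t : ℝ} (ht : t = 3 ^ j) (m : ι → ℕ) (I : Finset ι) (T : Finset ℝ)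
    {L M ε : ℝ} (hL : 1 ≤ L) (hm : ∀ i ∈ I, (1 : ℝ) ≤ m i ∧ m i ≤ M) (h0 : 0 < ε) (h1 : ε < 1)
    (hT : ∀ i ∈ I, ∃ y ∈ T, y ^ 4 ≤ m i ∧ m i ≤ y ^ 4 + min (y ^ 3) (L ^ 9 ^ j * y ^ 2)) :
    Spl (fun i => (m i : ℤ)) (fun i => √((m i : ℝ) ^ 2 - ε)) (20 * t * M)
      (T.card * ⌈163 * t ^ 4⌉₊ * ⌈61440 * t ^ 8 * L⌉₊) I := by
  classical
  have t1 : 1 ≤ t := ht ▸ one_le_pow₀ (by norm_num)
  have t4 : t ≤ t ^ 4 := le_self_pow₀ t1 (by norm_num)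
  have hs : ∀ i ∈ I, √((m i : ℝ) ^ 2 - ε) ^ 2 = (m i : ℝ) ^ 2 - ε := fun i hi =>
    Real.sq_sqrt (by nlinarith [(hm i hi).1])
  have ho : Ok (fun i => (m i : ℤ)) (fun i => √((m i : ℝ) ^ 2 - ε)) I := fun i hi =>
    ⟨Real.sqrt_pos.2 (by nlinarith [(hm i hi).1]),
      (Real.sqrt_lt' (by push_cast; linarith [(hm i hi).1])).2 (by push_cast; linarith)⟩
  have hl : ∀ i ∈ I, 2 * √((m i : ℝ) ^ 2 - ε) ≤ 20 * t * M := fun i hi => by
    have h2 : √((m i : ℝ) ^ 2 - ε) ≤ m i := by exact_mod_cast (ho i hi).2.le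
    nlinarith [(hm i hi).1, (hm i hi).2]
  choose! y hy1 hy2 hy3 using hT
  have hy4 : ∀ i ∈ I, (m i : ℝ) ≤ y i ^ 4 + y i ^ 3 := fun i hi =>
    (hy3 i hi).trans (add_le_add_right (min_le_left _ _) _)
  let β : ι → ℝ × ℕ := fun i => (y i,
    if y i < 3 * t then m i else ⌊(m i - y i ^ 4) / (y i ^ 3 / (3 * t))⌋₊)
  have key := fibers (n := fun i => (m i : ℤ)) (a := fun i => √((m i : ℝ) ^ 2 - ε)) (I := I)
    (h := 20 * t * M) (k := ⌈61440 * t ^ 8 * L⌉₊) β (T ×ˢ range ⌈163 * t ^ 4⌉₊) ?_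
  · rw [card_product, card_range, filter_true_of_mem] at key
    · exact key
    refine fun i hi => mem_product.2 ⟨hy1 i hi, mem_range.2 (Nat.lt_ceil.2 ?_)⟩
    simp only [β]
    split_ifs with h2
    · have h3 : 0 ≤ y i := (Odd.pow_nonneg_iff (n := 3) (by decide)).1
        (by linarith [hy2 i hi, hy4 i hi])
      have h4 := pow_le_pow_left₀ h3 h2.le 4
      have h5 := pow_le_pow_left₀ h3 h2.le 3
      have h6 : t ^ 3 ≤ t ^ 4 := pow_le_pow_right₀ t1 (by norm_num)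
      linarith [hy4 i hi]
    · have h3 : 0 < y i ^ 3 / (3 * t) := div_pos (pow_pos (by linarith) 3) (by linarith)
      refine (Nat.floor_le (div_nonneg (by linarith [hy2 i hi]) h3.le)).trans_lt ?_
      refine lt_of_le_of_lt ((div_le_iff₀ h3).2 ?_) (show 3 * t < _ by linarith)
      rw [mul_div_cancel₀ _ (by linarith)]
      linarith [hy4 i hi]
  rintro ⟨Y, r⟩ -
  set G := I.filter fun i => β i = (Y, r) with hG
  have hGI : G ⊆ I := filter_subset _ _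
  rcases G.eq_empty_or_nonempty with h2 | ⟨o, hoG⟩
  · rw [h2]
    exact spl_empty.mono (Nat.zero_le _)
  have hl' : ∀ i ∈ G, √((m i : ℝ) ^ 2 - ε) ≤ 20 * t * M := fun i hi => by
    linarith [hl i (hGI hi), (ho i (hGI hi)).1]
  have hr : ∀ i ∈ G, y i = Y := fun i hi => (Prod.ext_iff.1 (mem_filter.1 hi).2).1
  have hj : ∀ i ∈ G, (if y i < 3 * t then m i else
      ⌊(m i - y i ^ 4) / (y i ^ 3 / (3 * t))⌋₊) = r :=
    fun i hi => (Prod.ext_iff.1 (mem_filter.1 hi).2).2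
  rcases lt_or_ge Y (3 * t) with h2 | h2
  · have h3 : ∀ i ∈ G, m i = r := fun i hi => by rw [← hj i hi, if_pos (hr i hi ▸ h2)]
    have h4 : ∀ i ∈ G, √((m i : ℝ) ^ 2 - ε) = √((m o : ℝ) ^ 2 - ε) := fun i hi => by
      rw [h3 i hi, h3 o hoG]
    refine bin (ho o (hGI hoG)).1 (hl o (hGI hoG)) (ho.mono hGI) hl' fun U hU h5 => ?_
    obtain ⟨i, hi⟩ := card_pos.1 ((Nat.ceil_pos.2 (by positivity)).trans_le h5)
    refine ⟨{i}, singleton_subset_iff.2 hi, singleton_nonempty i, Fl.group (singleton_nonempty i)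
      (ho.mono (singleton_subset_iff.2 (hGI (hU hi)))) (by simpa using h4 i (hU hi)), ?_⟩
    rw [sum_singleton]
    exact pow_le_pow_left₀ (Real.sqrt_nonneg _) (hl' i (hU hi)) 2
  · obtain ⟨z, rfl⟩ : ∃ z, Y = 3 * t * z := ⟨Y / (3 * t), by field_simp⟩
    have z1 : 1 ≤ z := le_of_mul_le_mul_left (by linarith) (show 0 < 3 * t by linarith)
    have w0 : 0 < 9 * t ^ 2 * z ^ 3 := by positivity
    have r0 : 0 ≤ r * (9 * t ^ 2 * z ^ 3) := by positivity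
    have L1 : 1 ≤ L ^ 9 ^ j := one_le_pow₀ hL
    have h4 : ∀ i ∈ G, 81 * t ^ 4 * z ^ 4 + r * (9 * t ^ 2 * z ^ 3) ≤ m i ∧
        (m i : ℝ) ≤ 81 * t ^ 4 * z ^ 4 + r * (9 * t ^ 2 * z ^ 3) + 9 * t ^ 2 * z ^ 3 ∧
        (m i : ℝ) ≤ 81 * t ^ 4 * z ^ 4 + r * (9 * t ^ 2 * z ^ 3) + 9 * t ^ 2 * L ^ 9 ^ j * z ^ 2 :=
      fun i hi => by
      have h5 := hy2 i (hGI hi)
      have h6 := hj i hi
      have h7 := (hy3 i (hGI hi)).trans (add_le_add_right (min_le_right _ _) _)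
      rw [hr i hi] at h5 h6 h7
      rw [if_neg (not_lt.2 h2), show (3 * t * z) ^ 3 / (3 * t) = 9 * t ^ 2 * z ^ 3 by
        field_simp; ring, Nat.floor_eq_iff (div_nonneg (by linarith) w0.le), le_div_iff₀ w0,
        div_lt_iff₀ w0] at h6
      exact ⟨by linarith [h6.1], by linarith [h6.2], by linarith⟩
    have h5 := (h4 o hoG).1.trans (hm o (hGI hoG)).2
    have h6 : 0 < 81 * t ^ 4 * z ^ 4 := by positivity
    generalize hu : 81 * t ^ 4 * z ^ 4 + r * (9 * t ^ 2 * z ^ 3) = u at h4 h5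
    have h7 := mul_le_mul_of_nonneg_left h5 (show 0 ≤ t by linarith)
    have h8 : 0 < t * u := mul_pos (by linarith) (by linarith)
    refine bin (H := 10 * t * u) (by linarith) (by linarith) (ho.mono hGI) hl' fun U hU h9 => ?_
    obtain ⟨J, k1, k2, k3, k4⟩ := large j (n := fun i => (m i : ℤ)) (U := U) (u := u)
      (a := fun i => √((m i : ℝ) ^ 2 - ε)) (B := 9 * t ^ 2 * L ^ 9 ^ j) (τ := 10 * t ^ 4 * L) ht z1
      (by linarith) (by positivity) (by positivity) (by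
        have k1 : 10 * t ^ 4 ≤ (10 * t ^ 4) ^ 9 ^ j := le_self_pow₀ (by linarith) (by positivity)
        have k2 := mul_le_mul_of_nonneg_right k1 (show 0 ≤ L ^ 9 ^ j by linarith)
        have k3 := one_le_mul_of_one_le_of_one_le (t1.trans t4) L1
        rw [mul_pow]
        linarith)
      (fun i hi => by simpa using h4 i (hU hi))
      (fun i hi => by rw [hs i (hGI (hU hi))]; push_cast; constructor <;> linarith)
      (by linarith [Nat.ceil_le.1 h9])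
    exact ⟨J, k1, k2, k3, k4.trans (pow_le_pow_left₀ (by linarith) (by linarith) 2)⟩

omit [DecidableEq ι] in
theorem main (j : ℕ) {K : Type} [Field K] [CharZero K] (p : ι → Fin 2 → K)
    (hp : AlgebraicIndependent ℚ (fun ij : ι × Fin 2 => p ij.1 ij.2)) {d M : ℕ} (m : ι → ℕ)
    (o : ι) (T : Finset ℝ) {L : ℝ} (hL : 1 ≤ L) (hM : ∀ i, i ≠ o → m i ≤ M)
    (hT : ∀ i, i ≠ o → 0 < m i →
      ∃ y ∈ T, y ^ 4 ≤ m i ∧ m i ≤ y ^ 4 + min (y ^ 3) (L ^ 9 ^ j * y ^ 2))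
    (hS : 10 ^ 12 * (3 ^ j) ^ 14 * M * (T.card * L * M + m o) + (m o : ℝ) ^ 2 ≤ ∑ i, (m i : ℝ) ^ 2)
    {f : MvPolynomial (Fin 2) K} (hf0 : f ≠ 0) (hfd : f.totalDegree ≤ d)
    (hf : ∀ i, Van (p i) (m i) f) : ∑ i, m i ^ 2 ≤ d ^ 2 := by
  classical
  by_contra hc
  have hc' : (d : ℝ) ^ 2 + 1 ≤ ∑ i, (m i : ℝ) ^ 2 := by exact_mod_cast not_le.1 hc
  have he : Eff d fun i => (m i : ℤ) := eff_of_affine p hp hf0 (by exact_mod_cast hfd) hf
  have hod : (m o : ℝ) ≤ d := by exact_mod_cast he.le o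
  have m0 : (0 : ℝ) ≤ m o := by positivity
  rw [← add_sum_erase _ _ (mem_univ o)] at hc' hS
  obtain ⟨o', ho1, ho2⟩ := exists_ne_zero_of_sum_ne_zero (s := univ.erase o)
    (f := fun i => (m i : ℝ) ^ 2) (by nlinarith)
  have ho3 : 0 < m o' := Nat.pos_of_ne_zero fun h => ho2 (by simp [h])
  have M1 : (1 : ℝ) ≤ M := by exact_mod_cast ho3.trans_le (hM o' (ne_of_mem_erase ho1))
  have k1 : (1 : ℝ) ≤ T.card := by
    obtain ⟨y, hy, -⟩ := hT o' (ne_of_mem_erase ho1) ho3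
    exact_mod_cast card_pos.2 ⟨y, hy⟩
  obtain ⟨t, ht⟩ : ∃ t : ℝ, t = 3 ^ j := ⟨_, rfl⟩
  have t1 : 1 ≤ t := ht ▸ one_le_pow₀ (by norm_num)
  rw [← ht] at hS
  obtain ⟨ε, e0, e1, hε⟩ : ∃ ε : ℝ, 0 < ε ∧ ε < 1 ∧ (Fintype.card ι + 1) * ε = 1 / 2 :=
    ⟨1 / (2 * (Fintype.card ι + 1)), by positivity, (div_lt_one (by positivity)).2
      (by linarith [Nat.cast_nonneg (α := ℝ) (Fintype.card ι)]), by field_simp⟩
  set I := (univ.erase o).filter fun i => 0 < m i with hI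
  have h1 := spl_all j ht m I T (M := M) hL (fun i hi => ⟨by exact_mod_cast (mem_filter.1 hi).2,
    by exact_mod_cast hM i (ne_of_mem_erase (mem_filter.1 hi).1)⟩) e0 e1
    fun i hi => hT i (ne_of_mem_erase (mem_filter.1 hi).1) (mem_filter.1 hi).2
  have h2 : ∑ i ∈ univ.erase o, (m i : ℝ) ^ 2 - 1 / 2 ≤ ∑ i ∈ I, √((m i : ℝ) ^ 2 - ε) ^ 2 := by
    have h3 : ∑ i ∈ univ.erase o, ((m i : ℝ) ^ 2 - ε) ≤ ∑ i ∈ I, √((m i : ℝ) ^ 2 - ε) ^ 2 := by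
      rw [hI, sum_filter]
      refine sum_le_sum fun i _ => ?_
      split_ifs with h4
      · rw [Real.sq_sqrt']
        exact le_max_left _ _
      · rw [show m i = 0 by omega]
        simpa using e0.le
    rw [sum_sub_distrib, sum_const, nsmul_eq_mul] at h3
    have h4 : ((univ.erase o).card : ℝ) ≤ Fintype.card ι := by exact_mod_cast card_le_univ _
    nlinarith
  have h3 := anti (Qh.corner (mem_univ o) (by positivity) (fun _ _ h => h) (Qh.ex_of_eff he univ))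
    (filter_subset (fun i => 0 < m i) _)
  have h4 : (18 + 45 * ((T.card * ⌈163 * t ^ 4⌉₊ * ⌈61440 * t ^ 8 * L⌉₊ : ℕ) : ℝ)) ≤
      5 * 10 ^ 8 * (t ^ 12 * (T.card * L)) := by
    have t4 : 1 ≤ t ^ 4 := one_le_pow₀ t1
    have t8 : 1 ≤ t ^ 8 * L := one_le_mul_of_one_le_of_one_le (one_le_pow₀ t1) hL
    have c1 := (Nat.ceil_lt_add_one (show 0 ≤ 163 * t ^ 4 by positivity)).le
    have c2 := (Nat.ceil_lt_add_one (show 0 ≤ 61440 * t ^ 8 * L by positivity)).le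
    have c3 := mul_le_mul (show (⌈163 * t ^ 4⌉₊ : ℝ) ≤ 164 * t ^ 4 by linarith)
      (show (⌈61440 * t ^ 8 * L⌉₊ : ℝ) ≤ 61441 * (t ^ 8 * L) by linarith) (by positivity)
      (by positivity)
    have c4 := mul_le_mul_of_nonneg_left c3 (show (0 : ℝ) ≤ T.card by linarith)
    have c5 := one_le_mul_of_one_le_of_one_le k1 (one_le_mul_of_one_le_of_one_le t4 t8)
    push_cast
    nlinarith
  have h5 := mul_le_mul_of_nonneg_right h4 (sq_nonneg (20 * t * M))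
  have g1 : 1 ≤ T.card * L := one_le_mul_of_one_le_of_one_le k1 hL
  have g2 : t ^ 2 * M ^ 2 ≤ t ^ 14 * M ^ 2 * (T.card * L) :=
    (mul_le_mul_of_nonneg_right (pow_le_pow_right₀ t1 (by norm_num)) (by positivity)).trans
      (le_mul_of_one_le_right (by positivity) g1)
  have g3 : 1 ≤ t ^ 2 * M ^ 2 := one_le_mul_of_one_le_of_one_le (one_le_pow₀ t1) (one_le_pow₀ M1)
  have g4 : t * (M * m o) ≤ t ^ 14 * (M * m o) :=
    mul_le_mul_of_nonneg_right (le_self_pow₀ t1 (by norm_num)) (by positivity)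
  have g5 : 0 ≤ t * (M * m o) := by positivity
  have A0 : 0 ≤ (m o : ℝ) ^ 2 + ∑ i ∈ I, √((m i : ℝ) ^ 2 - ε) ^ 2 := by positivity
  have r1 := Real.sq_sqrt A0
  have r2 : (d : ℝ) ≤ √((m o : ℝ) ^ 2 + ∑ i ∈ I, √((m i : ℝ) ^ 2 - ε) ^ 2) :=
    Real.le_sqrt_of_sq_le (by linarith)
  have r3 : m o + 100 * (20 * t * M) ≤ √((m o : ℝ) ^ 2 + ∑ i ∈ I, √((m i : ℝ) ^ 2 - ε) ^ 2) :=
    Real.le_sqrt_of_sq_le (by linarith)
  generalize √((m o : ℝ) ^ 2 + ∑ i ∈ I, √((m i : ℝ) ^ 2 - ε) ^ 2) = R at r1 r2 r3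
  refine strip_spl (H := R - m o) (T := m o) (by positivity) h1 (by linarith) m0 (by linarith)
    (by linarith) (h3.mono fun x l h6 => ?_)
  have h7 : (x : ℝ) + l ≤ d := by exact_mod_cast h6.1
  have h8 : (l : ℝ) + m o ≤ d := by exact_mod_cast h6.2
  exact ⟨by linarith, by linarith⟩

end Pool.Agent.P.MP_d3e5c7_ag.Sd
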