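import Pool.Agent.P.MP_d3e5c7_ag.TtW
import Pool.Agent.P.MP_d3e5c7_ag.K3.Sphere

/-! Cells of nine or seventeen points with real weights. -/

set_option autoImplicit false

namespace Pool.Agent.P.MP_d3e5c7_ag.Sn

open MvPolynomial Nag Nu Sc Tt Finset

theorem nefEx {s : ℕ} (hs : s ≤ 21) {a0 : ℝ} {a : Fin s → ℝ} (h0 : 0 ≤ a0) (ha : ∀ i, 0 ≤ a i)
    (hq : ∑ i, a i ^ 2 ≤ a0 ^ 2) (hc : K3.Ch a0 a) {m : Fin s → ℤ} {c : ℕ}
    (hx : Ex m univ fun x j => x + j ≤ c) : ∑ i, a i * m i ≤ a0 * c := by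
  obtain ⟨L, _, _, q, hq'⟩ := exists_gen (Fin s)
  obtain ⟨f, f0, fs, fv⟩ := hx L q
  obtain ⟨ξ, h⟩ := K3.exists_root (K := AlgebraicClosure (ZMod 2))
  obtain ⟨w, w0, w1, w2⟩ := special
    (aeval (fun ij : Fin s × Fin 2 => q ij.1 ij.2) : _ →ₐ[ℤ] L).toRingHom
    (hq'.restrictScalars (algebraMap ℤ ℚ).injective_int)
    (eval₂Hom (Int.castRingHom _) fun ij : Fin s × Fin 2 => K3.pt ξ ij.1 ij.2)
    f.support (fun i k => X (i, k)) m ⟨f, f0, subset_rfl, fun i => by simpa using fv i (mem_univ i)⟩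
  have h1 : w.totalDegree ≤ c := totalDegree_le fun α hα => fs α (w1 hα)
  refine (sum_le_sum fun i _ => ?_).trans ((K3.model h hs h0 hq hc w w0).trans (by gcongr))
  have := (van_iff_le_ordN (K3.pt ξ i) w0 (m i)).1 (by simpa using w2 i)
  exact mul_le_mul_of_nonneg_left (by exact_mod_cast this) (ha i)

theorem sphere10 {a0 : ℝ} {a : Fin 10 → ℝ} (h0 : 0 ≤ a0) (hq : ∑ i, a i ^ 2 ≤ a0 ^ 2)
    (hu : ∑ i, a i = 3 * a0) : K3.Ch a0 a := by
  intro e k he hk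
  rcases hk with h1 | ⟨-, -, h1⟩
  swap
  · exact K3.cs h0 hq (by omega)
  have m2 : ∀ n : ℕ, n ^ 2 % 2 = n % 2 := fun n => by
    rcases Nat.mod_two_eq_zero_or_one n with h | h <;> simp [Nat.pow_mod, h]
  have h2 : ∑ i, k i ≠ 3 * e := by
    have a : (∑ i, k i ^ 2) % 2 = (∑ i, k i) % 2 := by
      rw [sum_nat_mod, sum_nat_mod _ _ k]
      simp only [m2]
    have := m2 e
    omega
  have r1 : ∑ i, (k i : ℝ) ^ 2 = e ^ 2 + 1 := by exact_mod_cast h1
  have h3 : 3 * ∑ i, k i ≤ 10 * e := by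
    rcases le_or_gt 3 e with h | h
    · have c := sq_sum_le_card_mul_sum_sq (s := univ) (f := fun i => (k i : ℝ))
      rw [r1, card_univ, Fintype.card_fin] at c
      have c' : (∑ i, k i) ^ 2 ≤ 10 * (e ^ 2 + 1) := by exact_mod_cast c
      generalize ∑ i, k i = S at c' ⊢
      have c2 : 3 * 3 ≤ e * e := Nat.mul_le_mul h h
      exact (pow_le_pow_iff_left₀ (Nat.zero_le _) (Nat.zero_le _) two_ne_zero).1 (by linarith)
    · have c : ∑ i, k i ≤ ∑ i, k i ^ 2 := sum_le_sum fun i _ => Nat.le_self_pow two_ne_zero _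
      interval_cases e <;> omega
  obtain ⟨t, ht⟩ : ∃ t : ℤ, t = 3 * e - (∑ i, k i : ℕ) := ⟨_, rfl⟩
  have t1 : (1 : ℝ) ≤ (t : ℝ) ^ 2 := by
    have : t ≠ 0 := by omega
    exact_mod_cast (one_le_sq_iff_one_le_abs t).2 (Int.one_le_abs this)
  have t2 : ∑ i, (k i : ℝ) = 3 * e - t := by rw [ht]; push_cast; ring
  have t3 : 3 * ∑ i, (k i : ℝ) ≤ 10 * e := by exact_mod_cast h3
  have := K3.cs0 h0 hq (e := e + 3 * t) (k := fun i => k i + t) (by linarith) (by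
    simp only [add_sq, sum_add_distrib, ← sum_mul, ← mul_sum, r1, t2, sum_const, card_univ,
      Fintype.card_fin, nsmul_eq_mul]
    push_cast
    linarith)
  simp only [mul_add, sum_add_distrib, ← sum_mul, hu] at this
  linarith

theorem trap {k : ℕ} {m : Fin k → ℤ} {h c : ℕ} (hx : Ex m univ fun x j => j ≤ h ∧ x + j ≤ c) :
    Ex (Fin.cons ((c : ℤ) - h) m : Fin (k + 1) → ℤ) univ fun x j => x + j ≤ c := by
  have h1 : Ex m univ fun x j => x + j ≤ c ∧ (c : ℤ) - h ≤ (x : ℤ) + j := by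
    rcases le_total c h with hc | hc
    · exact hx.mono fun x j h2 => ⟨h2.2, by omega⟩
    obtain ⟨M, rfl⟩ := Nat.exists_eq_add_of_le hc
    have h2 := ((hx.mon 1 0 1 1 (by omega)).unshear h (by
      rintro a b ⟨x, j, h3, h4, h5⟩
      omega)).shake.mono (Q := fun x j => x ≤ h ∧ j ≤ M + x) (by
      rintro x j ⟨b0, b1, h3, ⟨a0, ⟨x0, j0, h4, h5, h6⟩, h7⟩, a1, ⟨x1, j1, h8, h9, h10⟩, h11⟩
      omega)
    refine (h2.unshear M fun a b h3 => h3.2).mono ?_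
    rintro x j ⟨a, h3, h4⟩
    omega
  have h2 : Ex (Fin.cons ((c : ℤ) - h) m : Fin (k + 1) → ℤ) (insert 0 (univ.image Fin.succ))
      fun x j => x + j ≤ c :=
    origin 0 (fun _ _ _ _ _ _ _ => by omega) (of_comp Fin.succ (S := univ)
      (fun i hi => by simpa using hi) h1)
  exact anti h2 fun i _ => by refine Fin.cases ?_ (fun j => ?_) i <;> simp

theorem cellR {k : ℕ} (hk : k + 1 ≤ 21) {a : Fin k → ℝ} {m : Fin k → ℤ} {g c : ℝ} (g0 : 0 < g)
    (hg : g ≤ c) (ha : ∀ i, 0 ≤ a i) (hm : ∀ i, a i < m i) (hQ : ∑ i, a i ^ 2 = g * (2 * c - g))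
    (hc : K3.Ch c (Fin.cons (c - g) a : Fin (k + 1) → ℝ)) :
    ¬ Ex m univ fun x j => (j : ℝ) ≤ g ∧ x + 1 * (j : ℝ) ≤ c := by
  intro hx
  have h1 := nefEx hk (by linarith) (fun i => Fin.cases (by simpa using hg) (by simpa using ha) i)
    (by rw [Fin.sum_univ_succ]; simp only [Fin.cons_zero, Fin.cons_succ]; linarith) hc
    (trap (h := ⌊g⌋₊) (c := ⌊c⌋₊) (hx.mono fun x j h2 =>
      ⟨Nat.le_floor h2.1, Nat.le_floor (by push_cast; linarith [h2.2])⟩))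
  rw [Fin.sum_univ_succ] at h1
  simp only [Fin.cons_zero, Fin.cons_succ] at h1
  push_cast at h1
  obtain ⟨o, -, ho⟩ := exists_ne_zero_of_sum_ne_zero (s := univ) (f := fun i => a i ^ 2)
    (by nlinarith)
  have h2 : ∑ i, a i ^ 2 < ∑ i, a i * m i := sum_lt_sum (fun i _ => by nlinarith [ha i, hm i])
    ⟨o, mem_univ o, by
      have : 0 < a o := (ha o).lt_of_ne fun e => ho (by simp [← e])
      nlinarith [hm o]⟩
  have h3 := mul_le_mul_of_nonneg_left (Nat.floor_le g0.le) (sub_nonneg.2 hg)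
  have h4 := mul_le_mul_of_nonneg_left (Nat.floor_le (g0.le.trans hg)) g0.le
  linarith

variable {ι : Type} {n : ι → ℤ} {a : ι → ℝ} {J : Finset ι} {g : ℝ}

/-- the points of `J` fill the strip of height `R` and slope `s` with the right area -/
def F (n : ι → ℤ) (a : ι → ℝ) (J : Finset ι) (R s : ℝ) : Prop :=
  ¬ Ex n J fun x j => (j : ℝ) ≤ R ∧ x + s * j ≤ ((∑ i ∈ J, a i ^ 2) / R + s * R) / 2

/-- nine or seventeen weights on the sphere -/
def Cell (a : ι → ℝ) (g : ℝ) (J : Finset ι) : Prop :=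
  (J.card = 9 ∨ J.card = 17) ∧ ∑ i ∈ J, (a i - g / 2) ^ 2 = g ^ 2 / 4

theorem Cell.sum (hJ : Cell a g J) :
    g * ∑ i ∈ J, a i = ∑ i ∈ J, a i ^ 2 + (J.card - 1) * g ^ 2 / 4 := by
  have h := hJ.2
  simp only [sub_sq, sum_add_distrib, sum_sub_distrib, ← sum_mul, ← mul_sum, sum_const,
    nsmul_eq_mul] at h
  linarith

theorem Cell.area (hJ : Cell a g J) (g0 : 0 < g) :
    g ^ 2 ≤ ∑ i ∈ J, a i ^ 2 ∧ ∑ i ∈ J, a i ^ 2 ≤ 7 * g ^ 2 := by
  have h1 := hJ.sum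
  have h2 := mul_le_mul_of_nonneg_left (sq_sum_le_card_mul_sum_sq (s := J) (f := a)) (sq_nonneg g)
  rw [← mul_pow, h1] at h2
  have g2 : 0 < g ^ 2 := by positivity
  generalize g ^ 2 = G at *
  rcases hJ.1 with e | e <;> rw [e] at h2 <;> push_cast at h2 <;> constructor <;>
    by_contra h3 <;> nlinarith

theorem Cell.f (hJ : Cell a g J) (g0 : 0 < g) (hn : ∀ i ∈ J, a i < n i) : F n a J g 1 := by
  intro hx
  have ha : ∀ i ∈ J, 0 ≤ a i := fun i hi => by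
    have := (single_le_sum (f := fun i => (a i - g / 2) ^ 2) (fun _ _ => sq_nonneg _) hi).trans_eq
      hJ.2
    nlinarith
  have h1 := hJ.sum
  have h2 := (hJ.area g0).1
  obtain ⟨c, hc⟩ : ∃ c, ∑ i ∈ J, a i ^ 2 = g * (2 * c - g) :=
    ⟨((∑ i ∈ J, a i ^ 2) / g + g) / 2, by field_simp; ring⟩
  have hg : g ≤ c := by nlinarith
  rw [hc, show (g * (2 * c - g) / g + 1 * g) / 2 = c by field_simp; ring] at hx
  have key : ∀ k, J.card = k → k + 1 ≤ 21 → (∀ b : Fin k → ℝ, ∑ i, b i ^ 2 = g * (2 * c - g) →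
      ∑ i, b i = ∑ i ∈ J, a i → K3.Ch c (Fin.cons (c - g) b : Fin (k + 1) → ℝ)) → False := by
    intro k e hk hb
    let φ := (J.equivFinOfCardEq e).symm
    have hs : ∀ F : ι → ℝ, ∑ i, F (φ i) = ∑ i ∈ J, F i := fun F => by
      rw [φ.sum_comp fun i => F i, sum_coe_sort]
    have h3 := (hs fun i => a i ^ 2).trans hc
    exact cellR hk g0 hg (fun i => ha _ (φ i).2) (fun i => hn _ (φ i).2) h3 (hb _ h3 (hs a))
      (comp (Subtype.val_injective.comp φ.injective) (fun i _ => (φ i).2) hx)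
  rw [hc] at h1
  rcases hJ.1 with e | e <;> rw [e] at h1 <;> push_cast at h1
  · have h3 : ∑ i ∈ J, a i = 2 * c + g := mul_left_cancel₀ g0.ne' (by linarith)
    refine key 9 e (by norm_num) fun b b1 b2 => sphere10 (by linarith) ?_ ?_ <;>
      rw [Fin.sum_univ_succ] <;> simp only [Fin.cons_zero, Fin.cons_succ] <;> linarith
  · have h3 : ∑ i ∈ J, a i = 2 * c + 3 * g := mul_left_cancel₀ g0.ne' (by linarith)
    refine key 17 e (by norm_num) fun b b1 b2 => K3.sphere (by linarith) ?_ ?_ <;>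
      rw [Fin.sum_univ_succ] <;> simp only [Fin.cons_zero, Fin.cons_succ] <;> linarith

end Pool.Agent.P.MP_d3e5c7_ag.Sn
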