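import Pool.Agent.P.MP_d3e5c7_ag.SnA

/-! A calculus of strips: unions, horizontal cuts and the move along the smooth cubic. -/

set_option autoImplicit false

namespace Pool.Agent.P.MP_d3e5c7_ag.Sn

open MvPolynomial Nag Nu Sc Tt Finset

variable {ι : Type} [Fintype ι] [DecidableEq ι] {n : ι → ℤ} {a : ι → ℝ} {I J J1 J2 : Finset ι}
  {g h R s r s1 s2 B α α' : ℝ} {Q : Finset ι → Prop}

theorem slopeR (hs : 3 / 2 ≤ s) (hr : 4 * s ≤ r)
    (hx : Ex n I fun x j => (j : ℝ) ≤ 2 * h ∧ x + s * j ≤ B) :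
    Ex n I fun x j => (j : ℝ) ≤ h ∧ x + r * j ≤ 2 * B + (r - 4 * s) / 2 * h := by
  obtain ⟨δ, rfl⟩ : ∃ δ, r = 4 * s + 2 * δ := ⟨(r - 4 * s) / 2, by ring⟩
  have δ0 : 0 ≤ δ := by linarith
  have p1 := Nat.lt_floor_add_one δ
  have p2 := Nat.floor_le δ0
  obtain ⟨θ, hθ⟩ : ∃ θ, θ * (4 * s) = 4 * s + δ - (⌊δ⌋₊ + 1) :=
    ⟨(4 * s + δ - (⌊δ⌋₊ + 1)) / (4 * s), by field_simp⟩
  obtain ⟨M, h1⟩ := tate' ι n I _ s B θ hs (by by_contra k; nlinarith)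
    (by by_contra k; nlinarith) hx
  have h2 := (h1.shear (⌊δ⌋₊ + 1)).mono (Q := fun x j => (j : ℝ) ≤ h ∧
      M - 2 * θ * B + (4 * s + δ) * j ≤ x ∧ x ≤ M - 2 * θ * B + 2 * B + δ * j) (by
    rintro x j ⟨a, ⟨h3, h4, h5⟩, rfl⟩
    have e : θ * (4 * s) * j = (4 * s + δ - (⌊δ⌋₊ + 1)) * j := by rw [hθ]
    push_cast
    exact ⟨h3, by linarith, by linarith⟩)
  have h3 := h2.shake.mono (Q := fun x j => (j : ℝ) ≤ h ∧
      M - 2 * θ * B + (4 * s + δ) * j ≤ x ∧ x ≤ M - 2 * θ * B + 2 * B + δ * (h - j)) (by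
    rintro x j ⟨b0, b1, h3, ⟨-, -, h4⟩, h5, h6, -⟩
    have h7 : (b0 : ℝ) + j ≤ b1 := by exact_mod_cast h3
    have h8 : (0 : ℝ) ≤ b0 := b0.cast_nonneg
    refine ⟨by linarith, le_trans ?_ h6, h4.trans ?_⟩
    · linarith [mul_le_mul_of_nonneg_left (show (j : ℝ) ≤ b1 by linarith)
        (show 0 ≤ 4 * s + δ by linarith)]
    · linarith [mul_le_mul_of_nonneg_left (show (b0 : ℝ) ≤ h - j by linarith) δ0])
  refine h3.shakeH.mono ?_
  rintro x j ⟨c0, c1, h4, ⟨h5, h6, -⟩, -, -, h7⟩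
  have h8 : (c0 : ℝ) + x ≤ c1 := by exact_mod_cast h4
  exact ⟨h5, by linarith⟩

theorem F.union (hd : Disjoint J1 J2) (h1 : F n a J1 R s1) (h2 : F n a J2 R s2) :
    F n a (J1 ∪ J2) R (s1 + s2) := by
  intro hx
  rcases hx.cut hd 1 s1 (((∑ i ∈ J1, a i ^ 2) / R + s1 * R) / 2) with h3 | h3
  · exact h1 (h3.mono fun x j h4 => ⟨h4.1.1, by linarith [h4.2]⟩)
  · refine h2 (h3.shakeH.mono ?_)
    rintro x j ⟨c0, c1, h4, ⟨-, h5⟩, ⟨h6, h7⟩, -⟩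
    have h8 : (c0 : ℝ) + x ≤ c1 := by exact_mod_cast h4
    rw [sum_union hd, add_div (∑ i ∈ J1, a i ^ 2)] at h7
    exact ⟨h6, by linarith⟩

theorem F.tate (h1 : F n a J R r) (hs : 3 / 2 ≤ s) (hr : 4 * s ≤ r) : F n a J (2 * R) s :=
  fun hx => h1 ((slopeR hs hr hx).mono fun x j h2 => ⟨h2.1, h2.2.trans_eq (by
    rw [mul_comm 2 R, ← div_div]
    ring)⟩)

theorem F.split (hd : Disjoint J1 J2) (hR : 0 < R) (s0 : 0 ≤ s) (h1 : F n a J1 R s)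
    (h2 : F n a J2 R s) (e : ∑ i ∈ J1, a i ^ 2 = ∑ i ∈ J2, a i ^ 2 + 2 * s * R ^ 2) :
    F n a (J1 ∪ J2) (2 * R) s := by
  intro hx
  obtain ⟨z, hz⟩ : ∃ z, ∑ i ∈ J2, a i ^ 2 = z * R := ⟨(∑ i ∈ J2, a i ^ 2) / R, by field_simp⟩
  rw [F, hz, mul_div_cancel_right₀ _ hR.ne'] at h2
  rw [F, e, hz, show (z * R + 2 * s * R ^ 2) / R = z + 2 * s * R by field_simp] at h1
  rw [sum_union hd, e, hz,
    show (z * R + 2 * s * R ^ 2 + z * R) / (2 * R) = z + s * R by field_simp; ring] at hx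
  rcases hx.cut hd 0 1 R with h3 | h3
  · exact h1 (h3.mono fun x j h4 => ⟨by linarith [h4.2], by linarith [h4.1.2]⟩)
  · refine h2 (h3.shake.mono ?_)
    rintro x j ⟨b0, b1, h4, ⟨-, h5⟩, ⟨h6, h7⟩, -⟩
    have h8 : (b0 : ℝ) + j ≤ b1 := by exact_mod_cast h4
    exact ⟨by linarith, by
      linarith [mul_le_mul_of_nonneg_left (show R + j ≤ b1 by linarith) s0]⟩

omit [Fintype ι] [DecidableEq ι] in
theorem F.start (hR : 0 < R) (hA : 6 * R ^ 2 ≤ ∑ i ∈ J, a i ^ 2)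
    (h1 : F n a J R ((∑ i ∈ J, a i ^ 2) / R ^ 2 - 2)) : Fl n a (2 * R) J := by
  obtain ⟨h, rfl⟩ : ∃ h, R = 2 * h := ⟨R / 2, by ring⟩
  have hh : 0 < h := by linarith
  intro hx
  rw [show 2 * (2 * h) = 4 * h by ring] at hx
  refine h1 ((strip hh (by linarith) hx).mono fun x j h2 => ⟨h2.1, ?_⟩)
  rw [show (2 * h) ^ 2 = 4 * h ^ 2 by ring]
  refine h2.2.trans_eq ?_
  field_simp
  ring

/-- unions of sets with property `Q` fill all strips of height `R` and moderate slope -/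
def G (n : ι → ℤ) (a : ι → ℝ) (Q : Finset ι → Prop) (R α : ℝ) : Prop :=
  ∀ J, (∃ l, Dec Q l J) → ∀ s, 3 / 2 ≤ s → s * (α * R ^ 2) ≤ ∑ i ∈ J, a i ^ 2 → F n a J R s

theorem G.step (hQ : ∀ J, Q J → ∑ i ∈ J, a i ^ 2 ≤ B) (hB : 0 ≤ B) (hR : 0 < R) (hα : 0 ≤ α)
    (e : (α + 1) * (6 * R ^ 2 + B) ≤ 12 * α' * R ^ 2) (h1 : G n a Q R α) :
    G n a Q (2 * (2 * R)) α' := by
  rintro J ⟨l, hJ⟩ s hs hA
  have R2 : 0 < R ^ 2 := by positivity
  have k0 : 0 ≤ s * R ^ 2 := by positivity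
  have k1 : (α + 1) * (4 * (s * R ^ 2) + B) ≤ (∑ i ∈ J, a i ^ 2) / 2 := by
    have k2 := mul_le_mul_of_nonneg_left e (show 0 ≤ s by linarith)
    have k3 := mul_le_mul_of_nonneg_right hs (mul_nonneg (show 0 ≤ α + 1 by linarith) hB)
    linarith
  have k2 := mul_nonneg hα k0
  have k3 := mul_nonneg hα hB
  obtain ⟨J1, h2, h3, h4, h5, h6⟩ := hJ.take (a := a) hQ hB
    (x := (∑ i ∈ J, a i ^ 2) / 2 + 4 * (s * R ^ 2)) (by linarith) (by linarith)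
  have e1 := sum_sdiff (f := fun i => a i ^ 2) h2
  obtain ⟨r, hr⟩ : ∃ r, ∑ i ∈ J1, a i ^ 2 = ∑ i ∈ J \ J1, a i ^ 2 + 2 * r * R ^ 2 :=
    ⟨(∑ i ∈ J1, a i ^ 2 - ∑ i ∈ J \ J1, a i ^ 2) / (2 * R ^ 2), by field_simp; ring⟩
  have r1 : 4 * s ≤ r := le_of_mul_le_mul_right (by linarith) R2
  have r2 := mul_le_mul_of_nonneg_left (show r * R ^ 2 ≤ 4 * (s * R ^ 2) + B by linarith) hα
  have r3 : 0 ≤ r * R ^ 2 := mul_nonneg (by linarith) R2.le
  have := F.split disjoint_sdiff hR (by linarith) (h1 J1 h3 r (by linarith) (by linarith))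
    (h1 _ h4 r (by linarith) (by linarith)) hr
  rw [union_sdiff_of_subset h2] at this
  exact this.tate hs r1

theorem G.base (g0 : 0 < g) (hQ : ∀ J, Q J → F n a J g 1 ∧ ∑ i ∈ J, a i ^ 2 ≤ 7 * g ^ 2) :
    G n a Q (2 * g) 7 := by
  have key : ∀ (l : ℕ) J, Dec Q (l + 1) J → F n a J g (l + 1) := by
    intro l
    induction l with
    | zero =>
      rintro J ⟨J1, h1, h2, h3⟩
      obtain rfl : J = J1 := (sdiff_eq_empty_iff_subset.1 h3).antisymm h1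
      simpa using (hQ J h2).1
    | succ l ih =>
      rintro J ⟨J1, h1, h2, h3⟩
      have := (ih _ h3).union disjoint_sdiff.symm (hQ J1 h2).1
      rw [sdiff_union_of_subset h1] at this
      exact_mod_cast this
  rintro J ⟨l, hJ⟩ s hs hA
  have g2 : 0 < g ^ 2 := by positivity
  have h1 := hJ.sum_le (a := a) fun J h => (hQ J h).2
  have h2 : 4 * s ≤ l := le_of_mul_le_mul_right (by linarith) g2
  obtain _ | l := l
  · norm_num at h2
    linarith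
  · exact (key l J hJ).tate hs (by exact_mod_cast h2)

theorem batch_fl (g0 : 0 < g) (hQ : ∀ J, Q J → F n a J g 1 ∧ ∑ i ∈ J, a i ^ 2 ≤ 7 * g ^ 2)
    (hJ : ∃ l, Dec Q l J) (h1 : 6 * (8192 * g) ^ 2 ≤ ∑ i ∈ J, a i ^ 2)
    (h2 : ∑ i ∈ J, a i ^ 2 ≤ 13 * (8192 * g) ^ 2) : Fl n a (2 * (8192 * g)) J := by
  have g2 : 0 < g ^ 2 := by positivity
  have hB := fun J h => (hQ J h).2
  have h3 := (((((((G.base g0 hQ).step (α' := 517 / 100) hB (by linarith) (by linarith)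
    (by norm_num) (by linarith)).step (α' := 315 / 100) hB (by linarith) (by linarith)
    (by norm_num) (by linarith)).step (α' := 208 / 100) hB (by linarith) (by linarith)
    (by norm_num) (by linarith)).step (α' := 155 / 100) hB (by linarith) (by linarith)
    (by norm_num) (by linarith)).step (α' := 128 / 100) hB (by linarith) (by linarith)
    (by norm_num) (by linarith)).step (α' := 115 / 100) hB (by linarith) (by linarith)
    (by norm_num) (by linarith))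
  rw [show 2 * (2 * (2 * (2 * (2 * (2 * (2 * (2 * (2 * (2 * (2 * (2 * (2 * g)))))))))))) =
    8192 * g by ring] at h3
  have R0 : 0 < 8192 * g := by linarith
  generalize 8192 * g = R at *
  have R2 : 0 < R ^ 2 := by positivity
  obtain ⟨z, hz⟩ : ∃ z, ∑ i ∈ J, a i ^ 2 = z * R ^ 2 := ⟨(∑ i ∈ J, a i ^ 2) / R ^ 2, by field_simp⟩
  refine F.start R0 h1 (h3 J hJ _ ?_ ?_) <;> rw [hz, mul_div_cancel_right₀ _ R2.ne']
  · have : 6 ≤ z := le_of_mul_le_mul_right (by linarith) R2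
    linarith
  · linarith

omit [Fintype ι] in
/-- a large union is cut into unions of comparable size -/
theorem chop {x : ℝ} (hQ : ∀ J, Q J → ∑ i ∈ J, a i ^ 2 ≤ B) (hB : 0 ≤ B) (hx : 0 < x)
    (I : Finset ι) : (∃ l, Dec Q l I) → x ≤ ∑ i ∈ I, a i ^ 2 → ∃ l, Dec (fun J => (∃ l, Dec Q l J) ∧
      x ≤ ∑ i ∈ J, a i ^ 2 ∧ ∑ i ∈ J, a i ^ 2 ≤ 2 * x + B) l I := by
  induction I using Finset.strongInduction with
  | H I ih =>
    rintro ⟨l, hI⟩ h1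
    rcases le_total (∑ i ∈ I, a i ^ 2) (2 * x + B) with h2 | h2
    · exact ⟨1, Dec.one ⟨⟨l, hI⟩, h1, h2⟩⟩
    obtain ⟨J, h3, h4, h5, h6, h7⟩ := hI.take (a := a) hQ hB hx.le h1
    have e := sum_sdiff (f := fun i => a i ^ 2) h3
    obtain ⟨k, hk⟩ := ih _ (sdiff_ssubset h3 (ne_of_pos (a := a) (hx.trans_le h6))) h5
      (by linarith)
    exact ⟨k + 1, J, h3, ⟨h4, h6, by linarith⟩, hk⟩

end Pool.Agent.P.MP_d3e5c7_ag.Sn
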