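import Pool.Agent.P.MP_d3e5c7_ag.SnB
import Pool.Agent.P.MP_d3e5c7_ag.NuE

/-! Cells, frequent weights and rare weights together. -/

set_option autoImplicit false

namespace Pool.Agent.P.MP_d3e5c7_ag.Sn

open MvPolynomial Nag Nu Sc Tt Finset

variable {ι : Type} [DecidableEq ι] {n : ι → ℤ} {a : ι → ℝ} {I J : Finset ι}
  {g h x B : ℝ} {Q Q' : Finset ι → Prop} {k : ℕ}

theorem dec_mono (hQ : ∀ J, Q J → Q' J) (h1 : Dec Q k I) : Dec Q' k I := by
  induction k generalizing I with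
  | zero => exact h1
  | succ k ih => exact h1.imp fun J h2 => ⟨h2.1, hQ J h2.2.1, ih h2.2.2⟩

theorem dec_biUnion {κ : Type} [DecidableEq κ] (S : Finset κ) (f : κ → Finset ι)
    (hd : ∀ c ∈ S, ∀ c' ∈ S, c ≠ c' → Disjoint (f c) (f c')) (hS : ∀ c ∈ S, ∃ l, Dec Q l (f c)) :
    ∃ l, Dec Q l (S.biUnion f) := by
  induction S using Finset.induction_on with
  | empty => exact ⟨0, rfl⟩
  | insert c S hc ih =>
    obtain ⟨l, h1⟩ := hS c (mem_insert_self _ _)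
    obtain ⟨l', h2⟩ := ih (fun b hb c hc => hd b (mem_insert_of_mem hb) c (mem_insert_of_mem hc))
      fun b hb => hS b (mem_insert_of_mem hb)
    rw [biUnion_insert]
    exact ⟨_, h1.union h2 ((disjoint_biUnion_right _ _ _).2 fun b hb =>
      hd c (mem_insert_self _ _) b (mem_insert_of_mem hb) (by rintro rfl; exact hc hb))⟩

omit [DecidableEq ι] in
theorem fl_ne (h1 : Fl n a h J) : J.Nonempty := by
  rw [nonempty_iff_ne_empty]
  rintro rfl
  refine h1 fun K _ _ p => ⟨1, one_ne_zero, fun α hα => ?_, by simp⟩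
  have : α = 0 := by
    by_contra h2
    exact mem_support_iff.1 hα (by rw [coeff_one, if_neg (Ne.symm h2)])
  simp [this, E]

/-- pieces of height `h` -/
def Qf (n : ι → ℤ) (a : ι → ℝ) (h : ℝ) (J : Finset ι) : Prop :=
  Fl n a h J ∧ ∑ i ∈ J, a i ^ 2 ≤ 4 * h ^ 2

theorem take1 (h1 : Dec (Qf n a h) k I) (hI : I.Nonempty) (h0 : 0 ≤ x)
    (hx : x ≤ ∑ i ∈ I, a i ^ 2) : ∃ R ⊆ I, R.Nonempty ∧ (∃ l, Dec (Qf n a h) l R) ∧
      (∃ l, Dec (Qf n a h) l (I \ R)) ∧ x ≤ ∑ i ∈ R, a i ^ 2 ∧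
      ∑ i ∈ R, a i ^ 2 ≤ x + 4 * h ^ 2 := by
  obtain ⟨R, h2, h3, h4, h5, h6⟩ := h1.take (a := a) (fun _ h => h.2) (by positivity) h0 hx
  rcases R.eq_empty_or_nonempty with rfl | h7
  · obtain _ | k := k
    · exact absurd h1 hI.ne_empty
    obtain ⟨J, k1, k2, k3⟩ := h1
    rw [sum_empty] at h5
    exact ⟨J, k1, fl_ne k2.1, ⟨1, Dec.one k2⟩, ⟨k, k3⟩, h5.trans (by positivity),
      by linarith [k2.2]⟩
  · exact ⟨R, h2, h7, h3, h4, h5, h6⟩

variable [Fintype ι]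

theorem tame_dec (hh : 0 < h) (I : Finset ι) : Ok n a I → Tame a h I → ∃ l, Dec (Qf n a h) l I := by
  induction I using Finset.strongInduction with
  | H I ih =>
    intro ho ht
    rcases I.eq_empty_or_nonempty with rfl | hI
    · exact ⟨0, rfl⟩
    obtain ⟨R, h1, h2, h3, h4, h5⟩ := ht.piece hh hI ho
    obtain ⟨l, h6⟩ := ih _ (sdiff_ssubset h1 h2) (ho.mono sdiff_subset) h4
    exact ⟨l + 1, R, h1, ⟨h3.fl hh h2 (ho.mono h1), h5⟩, h6⟩

theorem cells_dec (g0 : 0 < g) (hg : 2 ^ 15 * g ≤ h)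
    (hI : ∃ l, Dec (fun J => Cell a g J ∧ ∀ i ∈ J, a i < n i) l I)
    (hA : 2 ^ 16 * g * h ≤ ∑ i ∈ I, a i ^ 2) : ∃ l, Dec (Qf n a h) l I := by
  have hQ : ∀ J, (Cell a g J ∧ ∀ i ∈ J, a i < n i) → F n a J g 1 ∧ ∑ i ∈ J, a i ^ 2 ≤ 7 * g ^ 2 :=
    fun J h1 => ⟨h1.1.f g0 h1.2, (h1.1.area g0).2⟩
  have g2 : 0 < g ^ 2 := by positivity
  have g3 := mul_le_mul_of_nonneg_left hg g0.le
  have g4 := mul_le_mul_of_nonneg_left hg (show 0 ≤ h by linarith)
  obtain ⟨l, h1⟩ := chop (a := a) (x := 6 * (8192 * g) ^ 2) (fun J h1 => (hQ J h1).2) (by linarith)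
    (by linarith) I hI (by linarith)
  obtain ⟨l', h2⟩ := chop (a := a) (x := 3 * (2 * (8192 * g)) * h) (B := 13 * (8192 * g) ^ 2)
    (Q := fun J => Fl n a (2 * (8192 * g)) J ∧ ∑ i ∈ J, a i ^ 2 ≤ 13 * (8192 * g) ^ 2)
    (fun J h1 => h1.2) (by linarith) (by linarith) I ⟨l, dec_mono (fun J h2 =>
      ⟨batch_fl g0 hQ h2.1 h2.2.1 (by linarith [h2.2.2]), by linarith [h2.2.2]⟩) h1⟩ (by linarith)
  refine ⟨l', dec_mono (fun J ⟨⟨k, h3⟩, h4, h5⟩ => ⟨(h3.fl (by linarith) (fun _ h => h.1)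
    (ne_of_pos (a := a) (by linarith))).up (by linarith) (by linarith) h4, by linarith⟩) h2⟩

theorem two4 (hh : 0 < h) (T : Finset ℝ) : ∀ P X : Finset ι, Disjoint P X → Ok n a X →
    (∃ l, Dec (Qf n a h) l P) → (∀ i ∈ X, a i ∈ T ∧ a i ≤ h ∧ cnt a X (a i) * a i ≤ 6 * h) →
    (6 + 10 * T.card) * h ^ 2 ≤ ∑ i ∈ P, a i ^ 2 + ∑ i ∈ X, a i ^ 2 → Fl n a (2 * h) (P ∪ X) := by
  classical
  have hh2 : 0 < h ^ 2 := by positivity
  induction T using Finset.induction_on with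
  | empty =>
    rintro P X - - ⟨l, ht⟩ hX hS
    obtain rfl : X = ∅ := eq_empty_of_forall_notMem fun i hi => by simpa using (hX i hi).1
    simp only [card_empty, Nat.cast_zero, mul_zero, add_zero, sum_empty] at hS
    rw [union_empty]
    exact (ht.fl hh (fun _ h => h.1) (ne_of_pos (a := a) (by linarith))).up hh le_rfl (by linarith)
  | insert v T hv ih =>
    rintro P X hd hX ⟨l, ht⟩ hr hS
    rw [card_insert_of_notMem hv] at hS
    push_cast at hS
    set J := X.filter (a · = v) with hJ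
    have hJX : J ⊆ X := filter_subset _ _
    have hJv : ∀ i ∈ J, a i = v := fun j hj => (mem_filter.1 hj).2
    have hr' : ∀ i ∈ X \ J, a i ∈ T ∧ a i ≤ h ∧ cnt a (X \ J) (a i) * a i ≤ 6 * h := by
      intro i hi
      obtain ⟨h1, h2⟩ := mem_sdiff.1 hi
      obtain ⟨h3, h4, h5⟩ := hr i h1
      exact ⟨(mem_insert.1 h3).resolve_left fun e => h2 (mem_filter.2 ⟨h1, e⟩), h4,
        (mul_le_mul_of_nonneg_right (cnt_le fun l hl _ => (mem_sdiff.1 hl).1)
          (hX i h1).1.le).trans h5⟩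
    rcases J.eq_empty_or_nonempty with h0 | ⟨i, hi⟩
    · rw [h0, sdiff_empty] at hr'
      exact ih P X hd hX ⟨l, ht⟩ hr' (by linarith)
    have e := sum_sdiff (f := fun i => a i ^ 2) hJX
    have h1 := sum_rare (hX.mono sdiff_subset) hh hr'
    obtain ⟨-, h2, h3⟩ := hr i (hJX hi)
    have h0 := (hX i (hJX hi)).1
    rw [hJv i hi] at h0 h2 h3
    rw [cnt, ← hJ] at h3
    have h4 : ∑ i ∈ J, a i ^ 2 ≤ 6 * h ^ 2 := by
      rw [sum_group hJv]
      nlinarith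
    have h5 : 0 ≤ T.card * h ^ 2 := by positivity
    obtain ⟨R, h6, h7, ⟨l', h8⟩, h9, h10, h11⟩ := take1 (x := 6 * h ^ 2 - ∑ i ∈ J, a i ^ 2) ht
      (ne_of_pos (a := a) (by linarith)) (by linarith) (by linarith)
    have e' := sum_sdiff (f := fun i => a i ^ 2) h6
    have hd' : Disjoint J R := hd.symm.mono hJX h6
    have h12 := Fl.bin hd' ⟨i, hi⟩ (hX.mono hJX) hJv h2 h3 (by rw [sum_union hd']; linarith)
      (h8.fl hh (fun _ h => h.1) h7)
    have h13 := ih (P \ R) (X \ J) (hd.mono sdiff_subset sdiff_subset) (hX.mono sdiff_subset) h9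
      hr' (by linarith)
    have h14 : P ∪ X = (J ∪ R) ∪ (P \ R ∪ X \ J) := by
      rw [union_comm J R, union_union_union_comm, union_sdiff_of_subset h6,
        union_sdiff_of_subset hJX]
    rw [h14]
    refine h12.union ?_ (by linarith) h13
    simp only [disjoint_union_left, disjoint_union_right]
    exact ⟨⟨hd.symm.mono hJX sdiff_subset, disjoint_sdiff⟩, disjoint_sdiff,
      hd.mono h6 sdiff_subset⟩

theorem main4 {U : Finset ι} (hh : 0 < h) (T : Finset ℝ) (hd : Disjoint U I)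
    (hU : ∃ l, Dec (Qf n a h) l U) (ho : Ok n a I)
    (h1 : ∀ i ∈ I, a i ∉ T → a i = h ∨ (2 * a i ≤ h ∧ 3 * h ≤ cnt a I (a i) * a i))
    (h2 : ∀ i ∈ I, a i ∈ T → a i ≤ h ∧ cnt a I (a i) * a i ≤ 6 * h)
    (hS : min (9 + 27 * (T.card : ℝ)) (26 + 10 * T.card) * h ^ 2 ≤ ∑ i ∈ U ∪ I, a i ^ 2) :
    Fl n a √(∑ i ∈ U ∪ I, a i ^ 2) (U ∪ I) := by
  classical
  have hs := Real.mul_self_sqrt (sum_nonneg fun i (_ : i ∈ U ∪ I) => sq_nonneg (a i))
  have hh2 : 0 < h ^ 2 := by positivity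
  obtain ⟨l, hU⟩ := hU
  obtain ⟨l', h3⟩ := tame_dec (n := n) (a := a) hh (I.filter (a · ∉ T))
    (ho.mono (filter_subset _ _)) fun i hi => by
      obtain ⟨h6, h7⟩ := mem_filter.1 hi
      exact (h1 i h6 h7).imp id fun h8 => ⟨h8.1, h8.2.trans (mul_le_mul_of_nonneg_right
        (cnt_le fun l hl e => mem_filter.2 ⟨hl, by rwa [e]⟩) (ho i h6).1.le)⟩
  have h4 := hU.union h3 (hd.mono_right (filter_subset _ _))
  rcases T.eq_empty_or_nonempty with rfl | hT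
  · norm_num at hS
    rw [filter_true_of_mem fun _ _ => notMem_empty _] at h4
    have h5 : 3 * h ≤ √(∑ i ∈ U ∪ I, a i ^ 2) := Real.le_sqrt_of_sq_le (by linarith)
    exact (h4.fl hh (fun _ h => h.1) (ne_of_pos (a := a) (by linarith))).up hh (by linarith)
      (by nlinarith)
  · have h5 : (1 : ℝ) ≤ T.card := by exact_mod_cast hT.card_pos
    rw [min_eq_right (by linarith)] at hS
    have h6 : 6 * h ≤ √(∑ i ∈ U ∪ I, a i ^ 2) := Real.le_sqrt_of_sq_le (by nlinarith)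
    have hd' : Disjoint (U ∪ I.filter (a · ∉ T)) (I.filter (a · ∈ T)) := disjoint_union_left.2
      ⟨hd.mono_right (filter_subset _ _), (disjoint_filter_filter_not I I (a · ∈ T)).symm⟩
    have e : U ∪ I.filter (a · ∉ T) ∪ I.filter (a · ∈ T) = U ∪ I := by
      rw [union_assoc, union_comm (I.filter _), filter_union_filter_not_eq]
    have h7 := two4 (n := n) (a := a) hh T _ _ hd' (ho.mono (filter_subset _ _)) ⟨_, h4⟩
      (fun i hi => by
        obtain ⟨h6, h7⟩ := mem_filter.1 hi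
        exact ⟨h7, (h2 i h6 h7).1, (mul_le_mul_of_nonneg_right
          (cnt_le fun l hl _ => (mem_filter.1 hl).1) (ho i h6).1.le).trans (h2 i h6 h7).2⟩)
      (by rw [← sum_union hd', e]; nlinarith)
    rw [e] at h7
    exact h7.up (by linarith) (by linarith) (by nlinarith)

end Pool.Agent.P.MP_d3e5c7_ag.Sn
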