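import Pool.Agent.P.MP_d3e5c7_ag.SnC

/-! The weighted inequality with cells. -/

set_option autoImplicit false

namespace Pool.Agent.P.MP_d3e5c7_ag.Sn

open MvPolynomial Nag Nu Sc Tt Finset

variable {ι : Type} [Fintype ι]

theorem all_cells [DecidableEq ι] {n : ι → ℤ} {a : ι → ℝ} {h : ℝ} (C : Finset (Finset ι))
    (g : Finset ι → ℝ) (hd : ∀ c ∈ C, ∀ c' ∈ C, c ≠ c' → Disjoint c c') (hn : ∀ i, a i < n i)
    (hC : ∀ c ∈ C, 0 < g c ∧ Cell a (g c) c ∧ 2 ^ 15 * g c ≤ h ∧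
      2 ^ 16 * g c * h ≤ ∑ c' ∈ C with g c' = g c, ∑ i ∈ c', a i ^ 2) :
    ∃ l, Dec (Qf n a h) l (C.biUnion id) := by
  have e : C.biUnion id = (C.image g).biUnion fun v => (C.filter (g · = v)).biUnion id := by
    ext i
    simp only [mem_biUnion, mem_image, mem_filter, id]
    exact ⟨fun ⟨c, h1, h2⟩ => ⟨_, ⟨c, h1, rfl⟩, c, ⟨h1, rfl⟩, h2⟩,
      fun ⟨_, _, c, h1, h2⟩ => ⟨c, h1.1, h2⟩⟩
  rw [e]
  refine dec_biUnion _ _ (fun v _ w _ hvw => ?_) fun v hv => ?_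
  · simp only [disjoint_biUnion_left, disjoint_biUnion_right, mem_filter, id]
    rintro c ⟨h1, rfl⟩ c' ⟨h2, rfl⟩
    exact hd _ h2 _ h1 fun e => hvw (e ▸ rfl)
  · obtain ⟨c, hc, rfl⟩ := mem_image.1 hv
    obtain ⟨h1, -, h2, h3⟩ := hC c hc
    have hd' : ∀ b ∈ C.filter (g · = g c), ∀ b' ∈ C.filter (g · = g c), b ≠ b' → Disjoint b b' :=
      fun b hb b' hb' => hd b (mem_filter.1 hb).1 b' (mem_filter.1 hb').1
    refine cells_dec h1 h2 (dec_biUnion _ _ hd' fun b hb => ⟨1, Dec.one ⟨?_, fun i _ => hn i⟩⟩) ?_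
    · exact (mem_filter.1 hb).2 ▸ (hC b (mem_filter.1 hb).1).2.1
    · rwa [sum_biUnion (t := id) fun b hb b' hb' => hd' b hb b' hb']

theorem weighted {K : Type} [Field K] [CharZero K] (p : ι → Fin 2 → K)
    (hp : AlgebraicIndependent ℚ (fun ij : ι × Fin 2 => p ij.1 ij.2)) (a : ι → ℝ) {h : ℝ}
    (hh : 0 < h) (T : Finset ℝ) (C : Finset (Finset ι)) (g : Finset ι → ℝ)
    (hd : ∀ c ∈ C, ∀ c' ∈ C, c ≠ c' → Disjoint c c')
    (hC : ∀ c ∈ C, 0 < g c ∧ Cell a (g c) c ∧ 2 ^ 15 * g c ≤ h ∧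
      2 ^ 16 * g c * h ≤ ∑ c' ∈ C with g c' = g c, ∑ i ∈ c', a i ^ 2)
    (h1 : ∀ i, (∀ c ∈ C, i ∉ c) → 0 < a i → a i ∉ T →
      a i = h ∨ (2 * a i ≤ h ∧ 3 * h ≤ {j | (∀ c ∈ C, j ∉ c) ∧ a j = a i}.ncard * a i))
    (h2 : ∀ i, (∀ c ∈ C, i ∉ c) → a i ∈ T →
      a i ≤ h ∧ {j | (∀ c ∈ C, j ∉ c) ∧ a j = a i}.ncard * a i ≤ 6 * h) (ha : ∀ i, 0 ≤ a i)
    (hS : min (9 + 27 * (T.card : ℝ)) (26 + 10 * T.card) * h ^ 2 ≤ ∑ i, a i ^ 2)
    {d : ℕ} (m : ι → ℕ) {f : MvPolynomial (Fin 2) K} (hf0 : f ≠ 0) (hfd : f.totalDegree ≤ d)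
    (hf : ∀ i, Van (p i) (m i) f) : ∑ i, a i * m i ≤ √(∑ i, a i ^ 2) * d := by
  classical
  by_contra hc
  have hT : (0 : ℝ) ≤ T.card := by positivity
  have hS0 : 0 < ∑ i, a i ^ 2 :=
    (mul_pos (lt_min (by linarith) (by linarith)) (by positivity)).trans_le hS
  have hr := Real.sqrt_pos.2 hS0
  obtain ⟨t, n, F, ht, hF, hD, hn⟩ :=
    amplify p a hr (Real.mul_self_sqrt hS0.le) m hf0 hfd hf (not_le.1 hc)
  set I := univ.filter fun i => (∀ c ∈ C, i ∉ c) ∧ 0 < a i with hI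
  have hm : ∀ i, i ∈ I ↔ (∀ c ∈ C, i ∉ c) ∧ 0 < a i := fun i => by simp [hI]
  have e1 : ∑ i ∈ C.biUnion id ∪ I, (t * a i) ^ 2 = t ^ 2 * ∑ i, a i ^ 2 := by
    rw [mul_sum, sum_subset (subset_univ _) fun i _ hi => ?_]
    · exact sum_congr rfl fun i _ => mul_pow _ _ _
    · simp only [mem_union, mem_biUnion, id, hm, not_or, not_exists, not_and, not_lt] at hi
      rw [le_antisymm (hi.2 hi.1) (ha i)]
      ring
  have e2 : ∀ i, t * a i ∈ T.image (t * ·) ↔ a i ∈ T := fun i =>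
    (mul_right_injective₀ ht.ne').mem_finset_image
  have e3 : ∀ i ∈ I, cnt (fun i => t * a i) I (t * a i) =
      {j | (∀ c ∈ C, j ∉ c) ∧ a j = a i}.ncard := fun i hi => by
    rw [cnt, ← Set.ncard_coe_finset]
    congr 1
    ext j
    simp only [coe_filter, Set.mem_ofPred_eq, mul_right_inj' ht.ne', hm]
    exact ⟨fun h => ⟨h.1.1, h.2⟩, fun h => ⟨⟨h.1, h.2 ▸ ((hm i).1 hi).2⟩, h.2⟩⟩
  have := main4 (n := n) (a := fun i => t * a i) (I := I) (U := C.biUnion id) (mul_pos ht hh)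
    (T.image (t * ·)) ?_ (all_cells C (fun c => t * g c) hd (fun i => (hn i).1) fun c hc => ?_)
    (fun i hi => ⟨mul_pos ht ((hm i).1 hi).2, (hn i).1⟩) (fun i hi h3 => ?_)
    (fun i hi h3 => ?_) ?_
  · apply this
    rw [e1, Real.sqrt_mul (sq_nonneg t), Real.sqrt_sq ht.le]
    refine Ex.of_gen hp (f := F) ⟨hF, fun α hα => ?_, fun i _ => (hn i).2⟩
    have h3 : α.degree ≤ F.totalDegree := le_totalDegree hα
    rw [← ex_eta α, degree_ex] at h3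
    have h4 : (α 0 : ℝ) + α 1 ≤ F.totalDegree := by exact_mod_cast h3
    have h5 : t ^ 2 * (∑ i, a i ^ 2) / (t * √(∑ i, a i ^ 2)) = t * √(∑ i, a i ^ 2) := by
      rw [div_eq_iff (mul_pos ht hr).ne']
      linear_combination (-t ^ 2) * Real.mul_self_sqrt hS0.le
    rw [h5, E]
    nlinarith [mul_pos ht hr]
  · rw [disjoint_biUnion_left]
    exact fun c hc => disjoint_left.2 fun i h3 h4 => ((hm i).1 h4).1 c hc h3
  · obtain ⟨k1, ⟨k2, k3⟩, k4, k5⟩ := hC c hc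
    refine ⟨mul_pos ht k1, ⟨k2, ?_⟩, by nlinarith, ?_⟩
    · rw [mul_pow, mul_div_assoc (t ^ 2), ← k3, mul_sum]
      exact sum_congr rfl fun i _ => by ring
    · simp only [mul_right_inj' ht.ne', mul_pow, ← mul_sum]
      linarith [mul_le_mul_of_nonneg_left k5 (sq_nonneg t)]
  · rw [e3 i hi]
    refine (h1 i ((hm i).1 hi).1 ((hm i).1 hi).2 (mt (e2 i).2 h3)).imp (fun h4 => by rw [h4])
      fun h4 => ?_
    constructor <;> nlinarith [h4.1, h4.2]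
  · rw [e3 i hi]
    have h4 := h2 i ((hm i).1 hi).1 ((e2 i).1 h3)
    constructor <;> nlinarith [h4.1, h4.2]
  · rw [e1, card_image_of_injective _ (mul_right_injective₀ ht.ne')]
    nlinarith [sq_nonneg t]

end Pool.Agent.P.MP_d3e5c7_ag.Sn
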