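import Pool.Agent.P.MP_d3e5c7_ag.ScB

/-! Strips of integer slope cut into cells of nine points. -/

set_option autoImplicit false

namespace Pool.Agent.P.MP_d3e5c7_ag.Tt

open MvPolynomial Nag Nu Sc Finset

variable {ι κ : Type} {n : ι → ℤ} {I : Finset ι} {P : ℕ → ℕ → Prop}

/-- order at the origin counts as one more point -/
theorem origin [DecidableEq ι] (o : ι) (hP : Down P)
    (h : Ex n I fun x j => P x j ∧ n o ≤ (x : ℤ) + j) : Ex n (insert o I) P := by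
  intro K _ _ p
  obtain ⟨f, f0, fs, fv⟩ := h K fun i => p i - p o
  refine ⟨sh (-p o) f, sh_ne_zero f0, fun α hα => ?_, fun i hi => van_shift ?_⟩
  · obtain ⟨β, hβ, h2⟩ := support_sh _ _ hα
    exact hP _ _ _ _ (h2 0) (h2 1) (fs β hβ).1
  · rcases mem_insert.1 hi with rfl | hi
    · intro β hβ
      have e : sh (p i - p i) f = f := by
        have : sh (p i - p i) = AlgHom.id K _ := by
          ext k : 1
          simp [sh]
        rw [this]
        rfl
      rw [e]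
      by_contra h2
      have h3 := (fs β (mem_support_iff.2 h2)).2
      rw [← ex_eta β, degree_ex] at hβ
      push_cast at hβ
      omega
    · exact fv i hi

theorem cone10 {m : Fin 10 → ℤ} {c : ℕ} (h : Ex m univ fun x j => x + j ≤ c) :
    ∑ i, m i ^ 2 ≤ (c : ℤ) ^ 2 + (3 * c - ∑ i, m i) ^ 2 := by
  obtain ⟨K, _, _, q, hq⟩ := exists_gen (Fin 10)
  obtain ⟨f, f0, fs, fv⟩ := h K q
  have h2 : Eff c m := eff_of_affine q hq f0 (by exact_mod_cast totalDegree_le fs)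
    fun i => fv i (mem_univ i)
  have h3 := cone (c + 1) _ _ (by push_cast; omega) h2
  simp only [dot, sq] at h3 ⊢
  linarith

/-- nine points in a trapezoid of height `h` -/
theorem cell {m : Fin 9 → ℤ} {h c : ℕ} (hx : Ex m univ fun x j => j ≤ h ∧ x + j ≤ c) :
    ∑ i, m i ^ 2 ≤ h * (2 * c - h : ℤ) + (2 * c + h - ∑ i, m i) ^ 2 := by
  have h1 : Ex m univ fun x j => x + j ≤ c ∧ (c : ℤ) - h ≤ (x : ℤ) + j := by
    rcases le_total c h with hc | hc
    · exact hx.mono fun x j h2 => ⟨h2.2, by omega⟩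
    obtain ⟨M, rfl⟩ := Nat.exists_eq_add_of_le hc
    have h2 := ((hx.mon 1 0 1 1 (by omega)).unshear h (by
      rintro a b ⟨x, j, h3, h4, h5⟩
      omega)).shake.mono (Q := fun x j => x ≤ h ∧ j ≤ M + x) (by
      rintro x j ⟨b0, b1, h3, ⟨a0, ⟨x0, j0, h4, h5, h6⟩, h7⟩, a1, ⟨x1, j1, h8, h9, h10⟩, h11⟩
      omega)
    refine (h2.unshear M fun a b h3 => h3.2).mono ?_
    rintro x j ⟨a, h3, h4⟩
    omega
  have h2 : Ex (Fin.cons ((c : ℤ) - h) m : Fin 10 → ℤ) (insert 0 (univ.image Fin.succ))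
      fun x j => x + j ≤ c :=
    origin 0 (fun _ _ _ _ _ _ _ => by omega) (of_comp Fin.succ (S := univ)
      (fun i hi => by simpa using hi) h1)
  have h3 := cone10 (anti h2 fun i _ => by
    refine Fin.cases ?_ (fun j => ?_) i <;> simp)
  simp only [Fin.sum_univ_succ (n := 9), Fin.cons_zero, Fin.cons_succ] at h3
  have e : (3 * c - ((c : ℤ) - h + ∑ i, m i)) = 2 * c + h - ∑ i, m i := by ring
  rw [e] at h3
  linarith

variable [Fintype ι] [DecidableEq ι]

/-- a strip of slope `card s` is cut into `card s` cells -/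
theorem cells [DecidableEq κ] (F : κ → Finset ι) (C : κ → ℤ) {h : ℕ} (s : Finset κ)
    (hd : ∀ a ∈ s, ∀ b ∈ s, a ≠ b → Disjoint (F a) (F b))
    (hF : ∀ a ∈ s, ¬ Ex n (F a) fun x j => j ≤ h ∧ (x : ℤ) + j < C a) :
    ¬ Ex n (s.biUnion F) fun x j => j ≤ h ∧ (x : ℤ) + s.card * j < ∑ a ∈ s, C a := by
  induction s using Finset.induction_on with
  | empty =>
    intro hx
    obtain ⟨f, f0, fs, -⟩ := hx ℚ 0
    obtain ⟨α, hα⟩ := support_nonempty.2 f0
    have := (fs α hα).2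
    simp only [card_empty, Nat.cast_zero, zero_mul, add_zero, sum_empty] at this
    omega
  | insert a s ha ih =>
    intro hx
    have hm := mem_insert_self a s
    rw [biUnion_insert] at hx
    rcases hx.cut (by
      rw [disjoint_biUnion_right]
      exact fun b hb => hd a hm b (mem_insert_of_mem hb) (by rintro rfl; exact ha hb))
      1 1 (C a - 1 / 2) with h1 | h1
    · refine hF a hm (h1.mono fun x j h2 => ⟨h2.1.1, ?_⟩)
      have : (x : ℝ) + j < C a := by linarith [h2.2]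
      exact_mod_cast this
    · refine ih (fun b hb c hc => hd b (mem_insert_of_mem hb) c (mem_insert_of_mem hc))
        (fun b hb => hF b (mem_insert_of_mem hb)) (h1.shakeH.mono ?_)
      rintro x j ⟨c0, c1, h2, ⟨-, h3⟩, ⟨h4, h5⟩, -⟩
      have h6 : (C a : ℝ) < (c0 : ℝ) + j + 1 := by linarith
      have h7 : C a < (c0 : ℤ) + j + 1 := by exact_mod_cast h6
      have h8 : (c0 : ℤ) + x ≤ c1 := by exact_mod_cast h2
      rw [card_insert_of_notMem ha, sum_insert ha] at h5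
      push_cast at h5
      exact ⟨h4, by linarith⟩

/-- the move along the smooth cubic -/
def Tate (ι : Type) : Prop :=
  ∀ (n : ι → ℤ) (I : Finset ι) (h s B θ : ℝ), 3 / 2 ≤ s → 0 < θ → θ < 1 →
    (Ex n I fun x j => (j : ℝ) ≤ 2 * h ∧ x + s * j ≤ B) →
    ∃ M : ℝ, Ex n I fun x j => (j : ℝ) ≤ h ∧ -(θ * (2 * B - 4 * s * j)) ≤ x - M ∧
      x - M ≤ (1 - θ) * (2 * B - 4 * s * j)

omit [Fintype ι] [DecidableEq ι] in
/-- a strip without tip from a right triangle -/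
theorem strip {h A : ℝ} (hh : 0 < h) (hA : 24 * h ^ 2 ≤ A) (hx : Ex n I (E (4 * h) (A / (4 * h)))) :
    Ex n I fun x j => (j : ℝ) ≤ 2 * h ∧
      x + (A / (4 * h ^ 2) - 2) * j ≤ 2 * h * (A / (4 * h ^ 2) - 1) := by
  obtain ⟨ρ, rfl⟩ : ∃ ρ, A = ρ * (4 * h ^ 2) := ⟨A / (4 * h ^ 2), by field_simp⟩
  have h2 : 0 < h ^ 2 := by positivity
  have hρ : 6 ≤ ρ := by nlinarith
  rw [mul_div_cancel_right₀ _ (by positivity)]
  rw [show ρ * (4 * h ^ 2) / (4 * h) = ρ * h by field_simp] at hx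
  refine (hx.nodal (h := 2 * h) (ρ := ρ) (σ := 1) (by linarith) (by positivity) (Or.inr (by ring))
    (by linarith) (by nlinarith) one_pos le_rfl).mono fun x j ⟨h3, h4⟩ => ?_
  rcases le_total (x : ℝ) j with h5 | h5
  · rw [min_eq_left h5] at h4
    exact ⟨by linarith, by nlinarith⟩
  · rw [min_eq_right h5] at h3
    refine ⟨?_, by linarith⟩
    by_contra h6
    nlinarith

omit [Fintype ι] [DecidableEq ι] in
/-- a strip of integer slope `r` -/
theorem slope (hT : Tate ι) {h : ℕ} {s B r : ℝ} (hs : 3 / 2 ≤ s) (hr : 4 * s ≤ r)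
    (hx : Ex n I fun x j => (j : ℝ) ≤ 2 * (h + 1 / 2) ∧ x + s * j ≤ B) :
    Ex n I fun x j => j ≤ h ∧ x + r * j ≤ 2 * B + (r - 4 * s) / 2 * h := by
  obtain ⟨δ, rfl⟩ : ∃ δ, r = 4 * s + 2 * δ := ⟨(r - 4 * s) / 2, by ring⟩
  have δ0 : 0 ≤ δ := by linarith
  have p1 := Nat.lt_floor_add_one δ
  have p2 := Nat.floor_le δ0
  obtain ⟨θ, hθ⟩ : ∃ θ, θ * (4 * s) = 4 * s + δ - (⌊δ⌋₊ + 1) :=
    ⟨(4 * s + δ - (⌊δ⌋₊ + 1)) / (4 * s), by field_simp⟩
  obtain ⟨M, h1⟩ := hT n I _ s B θ hs (by by_contra k; nlinarith) (by by_contra k; nlinarith) hx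
  have h2 := (h1.shear (⌊δ⌋₊ + 1)).mono (Q := fun x j => j ≤ h ∧
      M - 2 * θ * B + (4 * s + δ) * j ≤ x ∧ x ≤ M - 2 * θ * B + 2 * B + δ * j) (by
    rintro x j ⟨a, ⟨h3, h4, h5⟩, rfl⟩
    have h6 : (j : ℝ) < h + 1 := by linarith
    have h7 : j < h + 1 := by exact_mod_cast h6
    have e : θ * (4 * s) * j = (4 * s + δ - (⌊δ⌋₊ + 1)) * j := by rw [hθ]
    push_cast
    exact ⟨by omega, by linarith, by linarith⟩)
  have h3 := h2.shake.mono (Q := fun x j => j ≤ h ∧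
      M - 2 * θ * B + (4 * s + δ) * j ≤ x ∧ x ≤ M - 2 * θ * B + 2 * B + δ * (h - j)) (by
    rintro x j ⟨b0, b1, h3, ⟨-, -, h4⟩, h5, h6, -⟩
    have h7 : (b0 : ℝ) ≤ h - j := by
      have : (b0 : ℝ) + j ≤ h := by exact_mod_cast h3.trans h5
      linarith
    have h8 : (j : ℝ) ≤ b1 := by exact_mod_cast (by omega)
    refine ⟨by omega, le_trans ?_ h6, h4.trans ?_⟩
    · linarith [mul_le_mul_of_nonneg_left h8 (show 0 ≤ 4 * s + δ by linarith)]
    · linarith [mul_le_mul_of_nonneg_left h7 δ0])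
  refine h3.shakeH.mono ?_
  rintro x j ⟨c0, c1, h4, ⟨h5, h6, -⟩, -, -, h7⟩
  have h8 : (c0 : ℝ) + x ≤ c1 := by exact_mod_cast h4
  exact ⟨h5, by linarith⟩

end Pool.Agent.P.MP_d3e5c7_ag.Tt
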