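import Pool.Agent.P.MP_d3e5c7_ag.K3.Sphere
import Pool.Agent.P.MP_d3e5c7_ag.TtC

/-! Cells of seventeen points. -/

set_option autoImplicit false

namespace Pool.Agent.P.MP_d3e5c7_ag.Sv

open MvPolynomial Nag Nu Sc Tt Finset

/-- the classes orthogonal to `(5; 3, 1, ..., 1)` are nef -/
theorem nef {m : Fin 18 → ℤ} {c : ℕ} (h : Ex m univ fun x j => x + j ≤ c) {a0 : ℝ}
    {a : Fin 18 → ℝ} (h0 : 0 ≤ a0) (hq : ∑ i, a i ^ 2 ≤ a0 ^ 2)
    (hu : 2 * a 0 + ∑ i, a i = 5 * a0) : ∑ i, a i * m i ≤ a0 * c := by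
  let A := MvPolynomial (Fin 18 × Fin 2) ℤ
  have hi := IsFractionRing.injective A (FractionRing A)
  have : CharZero (FractionRing A) := charZero_of_injective_algebraMap hi
  obtain ⟨f, f0, fs, fv⟩ := h (FractionRing A) fun i k => algebraMap A _ (X (i, k))
  obtain ⟨ξ, hξ⟩ := K3.exists_root (K := AlgebraicClosure (ZMod 2))
  obtain ⟨w, w0, w1, w2⟩ := special _ hi
    (eval₂Hom (Int.castRingHom _) fun ij : Fin 18 × Fin 2 => K3.pt ξ ij.1 ij.2) f.support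
    (fun i k => X (i, k)) m ⟨f, f0, subset_rfl, fun i => fv i (mem_univ i)⟩
  have h1 : w.totalDegree ≤ c := totalDegree_le fun α hα => fs α (w1 hα)
  refine (sum_le_sum fun i _ => ?_).trans
    ((K3.model hξ (by norm_num) h0 hq (K3.sphere h0 hq hu) w w0).trans (by gcongr))
  have := (van_iff_le_ordN (K3.pt ξ i) w0 (m i)).1 (by
    convert w2 i using 1
    exact funext fun k =>
      (eval₂Hom_X' _ (fun ij : Fin 18 × Fin 2 => K3.pt ξ ij.1 ij.2) (i, k)).symm)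
  exact mul_le_mul_of_nonneg_left (by exact_mod_cast this) (K3.sphere_nonneg h0 hq hu i)

theorem cone18 {m : Fin 18 → ℤ} {c : ℕ} (h : Ex m univ fun x j => x + j ≤ c) :
    ∑ i, (m i : ℝ) ^ 2 ≤ (c : ℝ) ^ 2 + (5 * c - (2 * m 0 + ∑ i, (m i : ℝ))) ^ 2 := by
  by_contra hc
  have su := K3.sum_u fun i => (m i : ℝ)
  have uu := K3.sum_uu
  have key : ∀ x y a0 : ℝ, 0 ≤ a0 → x ^ 2 * ∑ i, (m i : ℝ) ^ 2 +
      2 * x * y * (2 * m 0 + ∑ i, (m i : ℝ)) + y ^ 2 * 26 ≤ a0 ^ 2 →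
      x * (2 * m 0 + ∑ i, (m i : ℝ)) + y * 26 = 5 * a0 →
      x * ∑ i, (m i : ℝ) ^ 2 + y * (2 * m 0 + ∑ i, (m i : ℝ)) ≤ a0 * c := fun x y a0 h0 h1 h2 => by
    have := nef h (a := fun i => x * m i + y * if i = 0 then 3 else 1) h0 (by
      rw [← su, ← uu] at h1
      simp only [mul_sum, ← sum_add_distrib] at h1
      exact (le_of_eq (sum_congr rfl fun i _ => by ring)).trans h1) (by
      rw [← K3.sum_u fun i => x * m i + y * if i = 0 then 3 else 1, ← h2, ← su, ← uu]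
      simp only [mul_sum, ← sum_add_distrib]
      exact sum_congr rfl fun i _ => by ring)
    rw [← su]
    simp only [mul_sum, ← sum_add_distrib]
    exact (le_of_eq (sum_congr rfl fun i _ => by ring)).trans this
  clear su uu
  generalize 2 * m 0 + ∑ i, (m i : ℝ) = S at *
  obtain ⟨r, r0, hr⟩ : ∃ r, 0 < r ∧ ∑ i, (m i : ℝ) ^ 2 = c ^ 2 + (5 * c - S) ^ 2 + r :=
    ⟨∑ i, (m i : ℝ) ^ 2 - c ^ 2 - (5 * c - S) ^ 2, by linarith, by ring⟩
  rw [hr] at key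
  have b0 : 0 ≤ 26 * c - 5 * S := by linarith [key 0 5 26 (by norm_num) (by norm_num) (by norm_num)]
  obtain ⟨z, hz⟩ : ∃ z, z * r = 26 * c - 5 * S := ⟨(26 * c - 5 * S) / r, by field_simp⟩
  obtain ⟨e, he⟩ : ∃ e, e * (1 + r) = 1 := ⟨1 / (1 + r), by field_simp⟩
  have z0 : 0 ≤ z := by by_contra k; nlinarith
  have e0 : 0 < e := by by_contra k; nlinarith
  have e1 : e * (e * r) ≤ 1 := mul_le_one₀ (by nlinarith) (by positivity) (by linarith)
  have h1 := key (z + e) (5 + (z + e) * (5 * c - S)) (26 + (z + e) * (26 * c - 5 * S))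
    (by positivity) (by
      have : 0 ≤ z * (z * r) := by positivity
      have e2 : (z + e) * (26 * c - 5 * S) = (z + e) * (z * r) := by rw [hz]
      nlinarith) (by ring)
  nlinarith [mul_pos e0 r0]

/-- seventeen points in a trapezoid of height `h` -/
theorem cell {m : Fin 17 → ℤ} {h c : ℕ} (hx : Ex m univ fun x j => j ≤ h ∧ x + j ≤ c) :
    ∑ i, (m i : ℝ) ^ 2 ≤ h * (2 * c - h : ℝ) + (2 * c + 3 * h - ∑ i, (m i : ℝ)) ^ 2 := by
  have h1 : Ex m univ fun x j => x + j ≤ c ∧ (c : ℤ) - h ≤ (x : ℤ) + j := by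
    rcases le_total c h with hc | hc
    · exact hx.mono fun x j h2 => ⟨h2.2, by omega⟩
    obtain ⟨M, rfl⟩ := Nat.exists_eq_add_of_le hc
    have h2 := ((hx.mon 1 0 1 1 (by omega)).unshear h (by
      rintro a b ⟨x, j, h3, h4, h5⟩
      omega)).shake.mono (Q := fun x j => x ≤ h ∧ j ≤ M + x) (by
      rintro x j ⟨b0, b1, h3, ⟨a0, ⟨x0, j0, h4, h5, h6⟩, h7⟩, a1, ⟨x1, j1, h8, h9, h10⟩, h11⟩
      omega)
    refine (h2.unshear M fun a b h3 => h3.2).mono ?_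
    rintro x j ⟨a, h3, h4⟩
    omega
  have h2 : Ex (Fin.cons ((c : ℤ) - h) m : Fin 18 → ℤ) (insert 0 (univ.image Fin.succ))
      fun x j => x + j ≤ c :=
    origin 0 (fun _ _ _ _ _ _ _ => by omega) (of_comp Fin.succ (S := univ)
      (fun i hi => by simpa using hi) h1)
  have h3 := cone18 (anti h2 fun i _ => by
    refine Fin.cases ?_ (fun j => ?_) i <;> simp)
  simp only [Fin.sum_univ_succ (n := 17), Fin.cons_zero, Fin.cons_succ] at h3
  push_cast at h3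
  nlinarith

/-- the first empty cell -/
theorem first {m : Fin 17 → ℤ} {h : ℕ} {w : ℝ} (hh : 0 < h) (hw : 50 * (w + 3) ^ 2 ≤ h)
    (hg : |(∑ i, (m i : ℝ) ^ 2) / h + 4 * h - ∑ i, (m i : ℝ)| ≤ w) :
    ∃ C : ℤ, (¬ Ex m univ fun x j => j ≤ h ∧ (x : ℤ) + j < C) ∧
      ∑ i, (m i : ℝ) ^ 2 ≤ h * (2 * C - h) + h / 50 := by
  have h0 : (0 : ℝ) < h := by exact_mod_cast hh
  obtain ⟨z, hz⟩ : ∃ z, ∑ i, (m i : ℝ) ^ 2 = h * z := ⟨(∑ i, (m i : ℝ) ^ 2) / h, by field_simp⟩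
  rw [hz, mul_div_cancel_left₀ _ h0.ne', abs_le] at hg
  have h1 := Int.le_ceil ((z + h - 1 / 50) / 2)
  have h2 := Int.ceil_lt_add_one ((z + h - 1 / 50) / 2)
  refine ⟨⌈(z + h - 1 / 50) / 2⌉, fun hx => ?_, by rw [hz]; nlinarith⟩
  generalize ⌈(z + h - 1 / 50) / 2⌉ = C at *
  obtain ⟨c, rfl⟩ : ∃ c : ℕ, C = c + 1 := by
    obtain ⟨f, f0, fs, -⟩ := hx ℚ 0
    obtain ⟨α, hα⟩ := support_nonempty.2 f0
    exact ⟨(C - 1).toNat, by have := (fs α hα).2; omega⟩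
  have h3 := cell (c := c) (hx.mono fun x j h3 => ⟨h3.1, by omega⟩)
  push_cast at h1 h2
  have h4 : (2 * c + 3 * h - ∑ i, (m i : ℝ)) ^ 2 ≤ (w + 3) ^ 2 :=
    sq_le_sq' (by linarith) (by linarith)
  rw [hz] at h3
  nlinarith

end Pool.Agent.P.MP_d3e5c7_ag.Sv
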