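import Pool.Agent.P.MP_d3e5c7_ag.SvA
import Pool.Agent.P.MP_d3e5c7_ag.NuD

/-! Blocks of 2600 cells. -/

set_option autoImplicit false

namespace Pool.Agent.P.MP_d3e5c7_ag.Sv

open MvPolynomial Nag Nu Sc Tt Finset

/-- the points empty every strip with top row `R`, slope `s` and area at most `T` -/
def Em {ι : Type} (n : ι → ℤ) (I : Finset ι) (R : ℕ) (s T : ℝ) : Prop :=
  ∀ W : ℝ, R * (2 * W - s * R) ≤ T → ¬ Ex n I fun x j => j ≤ R ∧ (x : ℝ) + s * j ≤ W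

section
variable {ι : Type} {n : ι → ℤ} {I J : Finset ι} {R : ℕ} {r s T T1 T2 : ℝ}

theorem Em.tate (hT : Tate ι) (h : Em n I R r T) (hr : r * (R + 1) ^ 2 ≤ T) (hs : 3 / 2 ≤ s)
    (h4 : 4 * s ≤ r) : Em n I (2 * R + 1) s T := by
  intro W hW hx
  have R0 : (0 : ℝ) ≤ R := R.cast_nonneg
  refine h _ ?_ (slope hT hs h4 (hx.mono fun x j h1 => ⟨?_, h1.2⟩))
  · push_cast at hW
    by_contra k
    have h1 : 2 * W ≤ s * (4 * R + 1) := by nlinarith
    have h2 := mul_le_mul_of_nonneg_left h1 R0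
    have h3 := mul_le_mul_of_nonneg_right h4 (sq_nonneg ((R : ℝ) + 1))
    nlinarith [mul_nonneg R0 (show 0 ≤ s by linarith)]
  · have : (j : ℝ) ≤ 2 * R + 1 := by exact_mod_cast h1.1
    linarith

theorem Em.split [Fintype ι] [DecidableEq ι] (hd : Disjoint I J) (h1 : Em n I R s T1)
    (h2 : Em n J R s T2) (hs : 0 ≤ s) (e : T1 - T2 = 2 * s * (R * (R + 1)))
    (hT : 2 * R * T ≤ (2 * R + 1) * (T1 + T2)) : Em n (I ∪ J) (2 * R + 1) s T := by
  intro W hW hx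
  have R0 : (0 : ℝ) ≤ R := R.cast_nonneg
  push_cast at hW
  have h3 : 2 * R * (2 * W - s * (2 * R + 1)) ≤ T1 + T2 :=
    le_of_mul_le_mul_left (a := (2 * R + 1 : ℝ)) (by nlinarith) (by linarith)
  rcases hx.cut hd 0 1 (R + 1 / 2) with h4 | h4
  · refine h1 W (by linarith) (h4.mono fun x j h5 => ⟨?_, h5.1.2⟩)
    have : (j : ℝ) < R + 1 := by linarith [h5.2]
    have : j < R + 1 := by exact_mod_cast this
    omega
  · refine h2 (W - s * (R + 1)) (by linarith) (h4.shake.mono ?_)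
    rintro x j ⟨b0, b1, h5, ⟨-, h6⟩, ⟨h7, h8⟩, -⟩
    have h9 : (R : ℝ) < b0 := by linarith
    have h10 : R < b0 := by exact_mod_cast h9
    have h11 : (j : ℝ) + (R + 1) ≤ b1 := by exact_mod_cast (by omega)
    exact ⟨by omega, by linarith [mul_le_mul_of_nonneg_left h11 hs]⟩

end

variable {κ : Type} [Fintype κ] [DecidableEq κ] {m : κ × Fin 17 → ℤ} {h : ℕ}

theorem leaf (hh : 0 < h) (C : κ → ℤ) (u : κ → ℝ)
    (hC : ∀ g, ¬ Ex (fun i => m (g, i)) univ fun x j => j ≤ h ∧ (x : ℤ) + j < C g)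
    (hu : ∀ g, u g < h * (2 * C g - h)) {s : Finset κ} {k : ℕ} (hs : s.card = k + 1) :
    Em m (s ×ˢ univ) h (k + 1) (∑ g ∈ s, u g) := by
  intro W hW hx
  have h0 : (0 : ℝ) < h := by exact_mod_cast hh
  have h1 := sum_lt_sum_of_nonempty (card_pos.1 (by omega) : s.Nonempty) fun g _ => hu g
  rw [← mul_sum, sum_sub_distrib, ← mul_sum, sum_const, nsmul_eq_mul, hs] at h1
  push_cast at h1
  have h2 : W < ∑ g ∈ s, (C g : ℝ) := lt_of_mul_lt_mul_left (by linarith) h0.le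
  refine cells (n := m) (h := h) (fun g => univ.image fun i => (g, i)) C s (fun a _ b _ hab => ?_)
    (fun g _ h8 => hC g (comp (e := fun i => (g, i)) (fun a b hab => by simpa using hab)
      (fun t _ => mem_image.2 ⟨t, mem_univ t, rfl⟩) h8))
    ((anti hx fun z hz => ?_).mono fun x j h8 => ⟨h8.1, ?_⟩)
  · rw [disjoint_left]
    intro z h8 h9
    obtain ⟨t, -, rfl⟩ := mem_image.1 h8
    obtain ⟨t', -, h10⟩ := mem_image.1 h9
    exact hab (Prod.ext_iff.1 h10).1.symm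
  · obtain ⟨g, hg, h8⟩ := mem_biUnion.1 hz
    obtain ⟨t, -, rfl⟩ := mem_image.1 h8
    exact mem_product.2 ⟨hg, mem_univ _⟩
  · rw [hs]
    exact_mod_cast h8.2.trans_lt h2

theorem block (hT : Tate (κ × Fin 17)) {w z A : ℝ} (hh : 1000 ≤ h) (hw : 50 * (w + 3) ^ 2 ≤ h)
    (hg : ∀ g, |(∑ i, (m (g, i) : ℝ) ^ 2) / h + 4 * h - ∑ i, (m (g, i) : ℝ)| ≤ w)
    (hz : ∀ g, z ≤ ∑ i, (m (g, i) : ℝ) ^ 2 ∧ ∑ i, (m (g, i) : ℝ) ^ 2 ≤ z + h ^ 2 / 1000)
    (z1 : 243 / 100 * (h : ℝ) ^ 2 ≤ z) (z2 : z ≤ 5 / 2 * (h : ℝ) ^ 2) {s : Finset κ}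
    (hs : s.card = 2600) (h1 : 6 * (32 * h + 31 : ℝ) ^ 2 ≤ A)
    (h3 : A ≤ ∑ g ∈ s, ∑ i, (m (g, i) : ℝ) ^ 2) :
    ¬ Ex m (s ×ˢ univ) (E (64 * h + 62) (A / (64 * h + 62))) := by
  intro hx
  have h0 : (1000 : ℝ) ≤ h := by exact_mod_cast hh
  choose C h4 h5 using fun g => first (m := fun i => m (g, i)) (by omega) hw (hg g)
  obtain ⟨u, hu⟩ : ∃ u : κ → ℝ, ∀ g, ∑ i, (m (g, i) : ℝ) ^ 2 = u g + h / 49 :=
    ⟨fun g => ∑ i, (m (g, i) : ℝ) ^ 2 - h / 49, fun g => by ring⟩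
  simp only [hu] at h3 h5 hz
  have key : ∀ (t : Finset κ) (k : ℕ), t.card = k + 1 →
      Em m (t ×ˢ univ) h (k + 1) (∑ g ∈ t, u g) ∧ (k + 1) * (z - h / 49) ≤ ∑ g ∈ t, u g ∧
      ∑ g ∈ t, u g ≤ (k + 1) * (z + h ^ 2 / 1000) := fun t k ht => by
    have a1 := card_nsmul_le_sum t u (z - h / 49) fun g _ => by linarith [(hz g).1]
    have a2 := sum_le_card_nsmul t u (z + h ^ 2 / 1000) fun g _ => by linarith [(hz g).2]
    rw [ht, nsmul_eq_mul] at a1 a2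
    push_cast at a1 a2
    exact ⟨leaf (by omega) C u h4 (fun g => by linarith [h5 g]) ht, a1, a2⟩
  obtain ⟨s1, d1, c1⟩ := exists_subset_card_eq (s := s) (n := 1759 + 1) (by omega)
  obtain ⟨s2, d2, c2⟩ := exists_subset_card_eq (s := s \ s1) (n := 536 + 1)
    (by rw [card_sdiff_of_subset d1]; omega)
  have c3 : ((s \ s1) \ s2).card = 302 + 1 := by
    rw [card_sdiff_of_subset d2, card_sdiff_of_subset d1]
    omega
  obtain ⟨e1, a1, b1⟩ := key _ _ c1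
  obtain ⟨e2, a2, b2⟩ := key _ _ c2
  obtain ⟨e3, a3, b3⟩ := key _ _ c3
  rw [sum_add_distrib, sum_const, hs, nsmul_eq_mul, ← sum_sdiff d1, ← sum_sdiff d2] at h3
  rw [← union_sdiff_of_subset d1, union_product, ← union_sdiff_of_subset d2, union_product] at hx
  have j1 : Disjoint (s2 ×ˢ (univ : Finset (Fin 17))) (((s \ s1) \ s2) ×ˢ univ) :=
    disjoint_product.2 (.inl disjoint_sdiff)
  have j2 : Disjoint (s1 ×ˢ (univ : Finset (Fin 17))) (s2 ×ˢ univ ∪ ((s \ s1) \ s2) ×ˢ univ) := by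
    rw [← union_product, union_sdiff_of_subset d2]
    exact disjoint_product.2 (.inl disjoint_sdiff)
  generalize ∑ g ∈ s1, u g = T1 at *
  generalize ∑ g ∈ s2, u g = T2 at *
  generalize ∑ g ∈ (s \ s1) \ s2, u g = T3 at *
  generalize s1 ×ˢ (univ : Finset (Fin 17)) = I1 at *
  generalize s2 ×ˢ (univ : Finset (Fin 17)) = I2 at *
  generalize ((s \ _) \ _) ×ˢ (univ : Finset (Fin 17)) = I3 at *
  norm_num at e1 e2 e3 a1 a2 a3 b1 b2 b3 h3
  have k2 : 1000 * (h : ℝ) ≤ h ^ 2 := by nlinarith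
  obtain ⟨b, hb⟩ : ∃ b, T2 - T3 = 2 * b * ((2 * h + 1) * (2 * h + 1 + 1)) :=
    ⟨(T2 - T3) / (2 * ((2 * h + 1) * (2 * h + 1 + 1))), by field_simp⟩
  obtain ⟨a, ha⟩ : ∃ a, T1 - (T2 + T3) = 2 * a * ((8 * h + 7) * (8 * h + 7 + 1)) :=
    ⟨(T1 - (T2 + T3)) / (2 * ((8 * h + 7) * (8 * h + 7 + 1))), by field_simp⟩
  obtain ⟨ρ, hρ⟩ : ∃ ρ, A = ρ * (32 * h + 31) ^ 2 := ⟨A / (32 * h + 31) ^ 2, by field_simp⟩
  have p1 : 3 / 2 ≤ b := by by_contra k; nlinarith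
  have p2 : 4 * b ≤ 303 := by by_contra k; nlinarith
  have p3 : 3 / 2 ≤ a := by by_contra k; nlinarith
  have p4 : 4 * a ≤ b := by
    by_contra k
    nlinarith [mul_nonneg (show 0 ≤ b by linarith) (show (0 : ℝ) ≤ h by linarith),
      mul_pos (sub_pos.2 (not_le.1 k)) (show (0 : ℝ) < (8 * h + 7) * (8 * h + 7 + 1) by positivity)]
  have p5 : 6 ≤ ρ := by by_contra k; nlinarith
  have p6 : 4 * (ρ - 2) ≤ a := by
    by_contra k
    nlinarith [mul_nonneg (show 0 ≤ ρ by linarith) (show (0 : ℝ) ≤ h by linarith),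
      mul_pos (sub_pos.2 (not_le.1 k)) (show (0 : ℝ) < (8 * h + 7) * (8 * h + 7 + 1) by positivity)]
  have q1 := ((e1.tate hT (s := 440) (by nlinarith) (by norm_num) (by norm_num)).tate hT (s := 110)
    (by push_cast; nlinarith) (by norm_num) (by norm_num)).tate hT (by push_cast; nlinarith) p3
    (by linarith)
  have q2 := ((e2.tate hT (by nlinarith) p1 (by linarith)).split j1
    (e3.tate hT (by nlinarith) p1 p2) (by linarith) (by push_cast; exact hb) (T := T2 + T3)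
    (by push_cast; nlinarith)).tate hT (by push_cast; nlinarith) p3 p4
  have q3 := (q1.split j2 q2 (by linarith) (by push_cast; linarith)
    (T := T1 + (T2 + T3) + 2600 * (h / 49)) (by push_cast; nlinarith)).tate hT (s := ρ - 2)
    (by push_cast; nlinarith) (by linarith) p6
  have q4 := strip (h := 16 * h + 31 / 2) (A := A) (by positivity) (by linarith)
    (by rwa [show 4 * (16 * h + 31 / 2 : ℝ) = 64 * h + 62 by ring])
  rw [show A / (4 * (16 * h + 31 / 2 : ℝ) ^ 2) = ρ by rw [hρ]; field_simp; ring] at q4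
  refine q3 _ ?_ (q4.mono fun x j h6 => ⟨?_, h6.2⟩)
  · push_cast
    linarith
  · have : (j : ℝ) ≤ 32 * h + 31 := by linarith [h6.1]
    have : j ≤ 32 * h + 31 := by exact_mod_cast this
    omega

end Pool.Agent.P.MP_d3e5c7_ag.Sv
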