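import Pool.Agent.P.MP_d3e5c7_ag.TtA

/-! Degeneration of a strip along a smooth cubic close to the nodal one. -/

set_option autoImplicit false

namespace Pool.Agent.P.MP_d3e5c7_ag.Tt

open MvPolynomial Nag Nu

section hahn
variable {K : Type*} [Field K]

/-- series in the uniformiser and two variables -/
abbrev RR (K : Type*) [Field K] := HahnSeries (ℝ × ℤ × ℤ) K

/-- a monomial -/
noncomputable def sg (K : Type*) [Field K] (g : ℝ × ℤ × ℤ) : RR K := HahnSeries.single g 1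

theorem sg_mul (g g' : ℝ × ℤ × ℤ) : sg K g * sg K g' = sg K (g + g') := by
  simp [sg, HahnSeries.single_mul_single]

theorem sg_pow (g : ℝ × ℤ × ℤ) (j : ℕ) : sg K g ^ j = sg K (j • g) := by
  simp [sg, HahnSeries.single_pow]

theorem coeff_sg_mul (g g' : ℝ × ℤ × ℤ) (x : RR K) : (sg K g * x).coeff g' = x.coeff (g' - g) := by
  simp [sg, HahnSeries.coeff_single_mul]

/-- the scalars -/
noncomputable def emb (K : Type*) [Field K] : HahnSeries ℝ K →+* RR K :=
  HahnSeries.embDomainRingHom (AddMonoidHom.inl ℝ (ℤ × ℤ)) (fun a b h => by simpa using h)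
    (fun a b => by simp)

theorem emb_tr (w : ℝ) : emb K (tr K w) = sg K (w, 0, 0) := HahnSeries.embDomain_single

theorem coeff_emb (c : HahnSeries ℝ K) (r : ℝ) : (emb K c).coeff (r, 0, 0) = c.coeff r :=
  HahnSeries.embDomain_coeff (a := r)

theorem emb_ne {c : HahnSeries ℝ K} {g : ℝ × ℤ × ℤ} (h : (emb K c).coeff g ≠ 0) :
    g.2.1 = 0 ∧ g.2.2 = 0 ∧ c.coeff g.1 ≠ 0 := by
  obtain ⟨r, hr, rfl⟩ := HahnSeries.support_embDomain_subset (show g ∈ (emb K c).support from h)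
  exact ⟨rfl, rfl, hr⟩

/-- order at least `c` -/
def Ge (c : ℝ) (x : RR K) : Prop := ∀ g, x.coeff g ≠ 0 → c ≤ g.1

variable {c d : ℝ} {x y : RR K}

theorem Ge.mono (h : Ge c x) (hd : d ≤ c) : Ge d x := fun g hg => hd.trans (h g hg)

theorem ge_zero : Ge c (0 : RR K) := fun _ h => absurd rfl h

theorem Ge.add (h : Ge c x) (h' : Ge c y) : Ge c (x + y) := fun g hg => by
  by_contra h0
  rw [HahnSeries.coeff_add, of_not_not (mt (h g) h0), of_not_not (mt (h' g) h0)] at hg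
  simp at hg

theorem Ge.mul (h : Ge c x) (h' : Ge d y) : Ge (c + d) (x * y) := fun g hg => by
  obtain ⟨a, ha, b, hb, rfl⟩ := HahnSeries.support_mul_subset (show g ∈ (x * y).support from hg)
  exact add_le_add (h a ha) (h' b hb)

theorem Ge.sum {κ : Type*} (s : Finset κ) (f : κ → RR K) (h : ∀ i ∈ s, Ge c (f i)) :
    Ge c (∑ i ∈ s, f i) := Finset.sum_induction _ _ (fun _ _ => Ge.add) ge_zero h

theorem ge_sg (g : ℝ × ℤ × ℤ) : Ge g.1 (sg K g) := fun g' hg => by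
  rw [HahnSeries.eq_of_mem_support_single (show g' ∈ (sg K g).support from hg)]

theorem ge_one : Ge 0 (1 : RR K) := ge_sg 0

theorem ge_emb {a : HahnSeries ℝ K} (h : ∀ r, a.coeff r ≠ 0 → c ≤ r) : Ge c (emb K a) :=
  fun _ hg => h _ (emb_ne hg).2.2

theorem Ge.pow (h : Ge c x) (j : ℕ) : Ge (j * c) (x ^ j) := by
  induction j with
  | zero => simpa using ge_one
  | succ j ih => exact pow_succ x j ▸ (ih.mul h).mono (by push_cast; linarith)

theorem Ge.pow_sub (h : Ge c x) (h' : Ge c y) (hd : Ge (c + d) (x - y)) (j : ℕ) :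
    Ge (j * c + d) (x ^ j - y ^ j) := by
  induction j with
  | zero => simpa using ge_zero
  | succ j ih =>
    rw [show x ^ (j + 1) - y ^ (j + 1) = x * (x ^ j - y ^ j) + (x - y) * y ^ j by ring]
    exact ((h.mul ih).mono (by push_cast; linarith)).add
      ((hd.mul (h'.pow j)).mono (by push_cast; linarith))

/-- evaluation -/
noncomputable def ev (z : Fin 2 → RR K) : MvPolynomial (Fin 2) (HahnSeries ℝ K) →+* RR K :=
  eval₂Hom (emb K) z

variable {z z' : Fin 2 → RR K} {P : MvPolynomial (Fin 2) (HahnSeries ℝ K)}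

theorem ev_eq (z : Fin 2 → RR K) (P : MvPolynomial (Fin 2) (HahnSeries ℝ K)) :
    ev z P = ∑ α ∈ P.support, z 0 ^ α 0 * z 1 ^ α 1 * emb K (coeff α P) := by
  conv_lhs => rw [P.as_sum, map_sum]
  refine Finset.sum_congr rfl fun α _ => ?_
  rw [mono2, mul_comm]
  simp [ev]

theorem ev_ge (hz : ∀ k, Ge 0 (z k)) (h : ∀ α r, (coeff α P).coeff r ≠ 0 → c ≤ r) :
    Ge c (ev z P) := by
  rw [ev_eq]
  exact Ge.sum _ _ fun α _ =>
    ((((hz 0).pow _).mul ((hz 1).pow _)).mul (ge_emb (h α))).mono (by simp)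

theorem ev_sub (hz : ∀ k, Ge 0 (z k)) (hz' : Ge 0 (z' 1)) (h0 : z' 0 = z 0)
    (h1 : Ge d (z 1 - z' 1)) (h : ∀ α r, (coeff α P).coeff r ≠ 0 → c ≤ r) :
    Ge (c + d) (ev z P - ev z' P) := by
  rw [ev_eq, ev_eq, ← Finset.sum_sub_distrib, h0]
  refine Ge.sum _ _ fun α _ => ?_
  rw [← sub_mul, ← mul_sub]
  exact ((((hz 0).pow _).mul ((hz 1).pow_sub hz' (by simpa using h1) _)).mul
    (ge_emb (h α))).mono (by simp [add_comm])

theorem ev_mo (hz : ∀ k, Ge c (z k)) (hc : 0 ≤ c) (N : ℕ) : ∀ e ∈ mo K ^ N,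
    Ge (N * c) (ev z (map (cr K) e)) := by
  induction N with
  | zero =>
    refine fun e _ => ev_ge (fun k => (hz k).mono hc) fun α r hr => ?_
    rw [coeff_map] at hr
    rw [HahnSeries.eq_of_mem_support_single hr]
    simp
  | succ N ih =>
    intro e he
    obtain ⟨a, ha, b, hb, rfl⟩ := mo_split he
    simp only [map_add, map_mul, map_X]
    rw [show ev z (X 0) = z 0 by simp [ev], show ev z (X 1) = z 1 by simp [ev]]
    exact (((hz 0).mul (ih a ha)).add ((hz 1).mul (ih b hb))).mono (by push_cast; linarith)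

theorem coeff_ev (u w g : ℝ × ℤ × ℤ) (P : MvPolynomial (Fin 2) (HahnSeries ℝ K)) :
    (ev ![sg K u, sg K w] P).coeff g =
      ∑ α ∈ P.support, (emb K (coeff α P)).coeff (g - (α 0 • u + α 1 • w)) := by
  rw [ev_eq, HahnSeries.coeff_sum]
  refine Finset.sum_congr rfl fun α _ => ?_
  simp only [Matrix.cons_val_zero, Matrix.cons_val_one, sg_pow, sg_mul, coeff_sg_mul]

theorem ev_ne {u w g : ℝ × ℤ × ℤ} (h : (ev ![sg K u, sg K w] P).coeff g ≠ 0) :
    ∃ α ∈ P.support, (emb K (coeff α P)).coeff (g - (α 0 • u + α 1 • w)) ≠ 0 :=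
  Finset.exists_ne_zero_of_sum_ne_zero (coeff_ev u w g P ▸ h)

theorem coeff_ev_one {u w : ℝ × ℤ × ℤ} (β : Fin 2 →₀ ℕ) (r : ℝ)
    (h : ∀ α, (emb K (coeff α P)).coeff
      ((r, 0, 0) + (β 0 • u + β 1 • w) - (α 0 • u + α 1 • w)) ≠ 0 → α = β) :
    (ev ![sg K u, sg K w] P).coeff ((r, 0, 0) + (β 0 • u + β 1 • w)) = (coeff β P).coeff r := by
  rw [coeff_ev, Finset.sum_eq_single β, add_sub_cancel_right, coeff_emb]
  · exact fun α _ hα => of_not_not (mt (h α) hα)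
  · intro h0
    simp [notMem_support_iff.1 h0]

theorem lowest {S : Finset ℕ} {θ N : ℝ} {m n : ℕ → ℝ} {V Γ : ℕ → RR K} (θ0 : 0 < θ) (θ1 : θ < 1)
    (h1 : ∀ j ∈ S, ∀ g, (Γ j).coeff g ≠ 0 →
      g.2.2 = j ∧ m j + θ * g.2.1 ≤ g.1 ∧ m j - (1 - θ) * g.2.1 ≤ g.1)
    (h2 : ∀ j ∈ S, ∃ u v : ℕ, u + v ≤ n j ∧ (Γ j).coeff (m j + θ * u, u, j) ≠ 0 ∧
      (Γ j).coeff (m j + (1 - θ) * v, -v, j) ≠ 0) (hn : ∀ j ∈ S, n j < N)
    (h3 : ∀ j ∈ S, Ge (m j + N) (V j - Γ j)) (hS : S.Nonempty) :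
    ∑ j ∈ S, V j ≠ 0 ∧ ∀ g, (∑ j ∈ S, V j).coeff g ≠ 0 →
      (∀ g', (∑ j ∈ S, V j).coeff g' ≠ 0 → g.1 ≤ g'.1) →
      ∃ j ∈ S, g.2.2 = j ∧ -(θ * n j) ≤ g.2.1 ∧ g.2.1 ≤ (1 - θ) * n j := by
  obtain ⟨i, hi, h4⟩ := S.exists_min_image m hS
  have h5 : ∀ g : ℝ × ℤ × ℤ, g.1 < m i + N →
      (∑ j ∈ S, V j).coeff g = ∑ j ∈ S, (Γ j).coeff g := fun g hg => by
    rw [HahnSeries.coeff_sum]
    refine Finset.sum_congr rfl fun j hj => ?_
    rw [← sub_eq_zero, ← HahnSeries.coeff_sub]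
    by_contra h0
    linarith [h3 j hj g h0, h4 j hj]
  have h6 : ∀ j ∈ S, ∀ r k, r < m i + N → (Γ j).coeff (r, k, j) ≠ 0 →
      (∑ j ∈ S, V j).coeff (r, k, j) ≠ 0 := fun j hj r k hr h => by
    rwa [h5 _ hr, Finset.sum_eq_single_of_mem j hj fun l hl e => of_not_not fun h0 =>
      e (Int.natCast_inj.1 (h1 l hl _ h0).1).symm]
  obtain ⟨u0, v0, a1, a2, -⟩ := h2 i hi
  have a3 : m i + θ * u0 < m i + N := by
    nlinarith [hn i hi, Nat.cast_nonneg (α := ℝ) u0, Nat.cast_nonneg (α := ℝ) v0]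
  have a4 := h6 i hi _ _ a3 a2
  refine ⟨fun h0 => by simp [h0] at a4, fun g hg hm => ?_⟩
  have a5 := (hm _ a4).trans_lt a3
  obtain ⟨j, hj, b1⟩ := Finset.exists_ne_zero_of_sum_ne_zero (h5 g a5 ▸ hg)
  obtain ⟨b2, b3, b4⟩ := h1 j hj g b1
  obtain ⟨u, v, b5, b6, b7⟩ := h2 j hj
  have b8 : g.1 ≤ m j + θ * u := by
    by_contra h0
    exact h0 (hm _ (h6 j hj _ _ (by linarith) b6))
  have b9 : g.1 ≤ m j + (1 - θ) * v := by
    by_contra h0
    exact h0 (hm _ (h6 j hj _ _ (by linarith) b7))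
  have b10 : g.1 - m j ≤ θ * (1 - θ) * n j := by
    nlinarith [mul_le_mul_of_nonneg_left b5 (mul_pos θ0 (sub_pos.2 θ1)).le,
      mul_le_mul_of_nonneg_left b8 (sub_pos.2 θ1).le, mul_le_mul_of_nonneg_left b9 θ0.le]
  exact ⟨j, hj, b2, le_of_mul_le_mul_left (by linarith) (sub_pos.2 θ1),
    le_of_mul_le_mul_left (by linarith) θ0⟩

theorem row {ψ : Fin 2 → MvPolynomial (Fin 2) K}
    (h0 : ∀ f : MvPolynomial (Fin 2) K, (aeval ![Polynomial.X, 0] (aeval ψ f) : Polynomial K) = aeval (gam K) f)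
    (h1 : ∀ f : MvPolynomial (Fin 2) K, (aeval ![0, Polynomial.X] (aeval ψ f) : Polynomial K) =
      Polynomial.taylor 1 (aeval (gam K) f)) {g : MvPolynomial (Fin 2) (HahnSeries ℝ K)}
    (hg : g ≠ 0) (hd : ∀ α ∈ g.support, α 1 ≤ 1) :
    ∃ a : ℝ, (∀ α r, (coeff α (aeval (fun k => map (cr K) (ψ k)) g)).coeff r ≠ 0 → a ≤ r) ∧
      ∃ u v : ℕ, (∃ β ∈ g.support, u + v ≤ 2 * β 0 + 3 * β 1) ∧
        (coeff (ex u 0) (aeval (fun k => map (cr K) (ψ k)) g)).coeff a ≠ 0 ∧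
        (coeff (ex 0 v) (aeval (fun k => map (cr K) (ψ k)) g)).coeff a ≠ 0 := by
  obtain ⟨β, hβ, h2⟩ := g.support.exists_min_image (fun α => (coeff α g).order)
    (support_nonempty.2 hg)
  have h3 : ∀ α r, (coeff α (aeval (fun k => map (cr K) (ψ k)) g)).coeff r =
      coeff α (aeval ψ (lam (HahnSeries.coeff.addMonoidHom r) g)) := fun α r => by
    rw [← lam_aeval (lin_coeffR r), coeff_lam]
    rfl
  have h4 : lam (HahnSeries.coeff.addMonoidHom (coeff β g).order) g ≠ 0 := fun e => by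
    have := congrArg (coeff β) e
    rw [coeff_lam] at this
    exact mem_support_iff.1 hβ (HahnSeries.coeff_order_eq_zero.1 this)
  obtain ⟨u, v, ⟨γ, h5, h6⟩, h7, h8⟩ := orders h0 h1 h4 fun α hα => hd α (support_lam _ _ hα)
  refine ⟨_, fun α r hr => ?_, u, v, ⟨γ, support_lam _ _ h5, h6⟩, by rwa [h3], by rwa [h3]⟩
  rw [h3] at hr
  obtain ⟨δ, h9⟩ := support_nonempty.2
    (show lam (HahnSeries.coeff.addMonoidHom r) g ≠ 0 from fun e => by simp [e] at hr)
  refine (h2 δ (support_lam _ _ h9)).trans (HahnSeries.order_le_of_coeff_ne_zero ?_)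
  rwa [mem_support_iff, coeff_lam] at h9

end hahn

variable {ι : Type} [Fintype ι] {n : ι → ℤ} {I : Finset ι}

theorem tate {s B h θ : ℝ} (hs : 3 / 2 ≤ s) (θ0 : 0 < θ) (θ1 : θ < 1)
    (hx : Ex n I fun x j => (j : ℝ) ≤ 2 * h ∧ x + s * j ≤ B) :
    ∃ M : ℕ, Ex n I fun x j => (j : ℝ) ≤ h ∧ -(θ * (2 * B - 4 * s * j)) ≤ (x : ℝ) - M ∧
      (x : ℝ) - M ≤ (1 - θ) * (2 * B - 4 * s * j) := by
  obtain ⟨K, _, _, q, hq⟩ := exists_gen ι
  have := char_hs (K := K)
  obtain ⟨N, N0, hN⟩ : ∃ N : ℝ, 0 < N ∧ 2 * B < N :=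
    ⟨|2 * B| + 1, by positivity, by linarith [le_abs_self (2 * B)]⟩
  have μ0 : 0 < min θ (1 - θ) := lt_min θ0 (by linarith)
  obtain ⟨N', hN'⟩ := exists_nat_ge (2 * N / min θ (1 - θ))
  rw [div_le_iff₀ μ0] at hN'
  obtain ⟨ψ, e, he, hc, h0, h1⟩ := newton (K := K) N'
  let ψ' := fun k => map (cr K) (ψ k)
  let pt : ι → Fin 2 → HahnSeries ℝ K := fun i => ![tr K θ * cr K (q i 0),
    tr K (1 - θ) * (1 + tr K N * cr K (q i 1)) * cr K (q i 0)⁻¹]
  obtain ⟨F, F0, Fs, Fv⟩ := hx (HahnSeries ℝ K) fun i k => eval (pt i) (ψ' k)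
  obtain ⟨Q, hQ, hQs⟩ := gd (t := tr K 1) hs Fs
  obtain ⟨M, g', hg'⟩ := relab (aeval ψ' F)
  let σ : Fin 2 → MvPolynomial (Fin 2) (HahnSeries ℝ K) :=
    ![C (tr K θ) * X 0, C (tr K 1) * (1 + C (tr K N) * X 1)]
  let z0 : Fin 2 → RR K := ![sg K (θ, 1, 0), sg K (1 - θ, -1, 0)]
  let z1 : Fin 2 → RR K := ![sg K (θ, 1, 0), sg K (1 - θ, -1, 0) * (1 + sg K (N, 0, 1))]
  have e1 : z1 0 * z1 1 = sg K (1, 0, 0) * (1 + sg K (N, 0, 1)) := by
    simp [z1, ← mul_assoc, sg_mul]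
  have key : ev ![sg K (0, 1, 0), sg K (0, 0, 1)] (aeval σ g') =
      sg K (M • (θ, 1, 0)) * ev z1 (aeval ψ' F) := by
    have : (ev ![sg K (0, 1, 0), sg K (0, 0, 1)]).comp (aeval σ).toRingHom =
        (ev z1).comp (aeval (R := HahnSeries ℝ K) ![X 0, X 0 * X 1]).toRingHom := by
      refine ringHom_ext (fun c => by simp [ev]) fun k => ?_
      fin_cases k
      · simp [ev, σ, z1, emb_tr, sg_mul]
      · simp [ev, σ, e1, emb_tr, sg_mul]
    have h2 := congrArg (fun φ : _ →+* RR K => φ g') this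
    simp only [RingHom.comp_apply, AlgHom.toRingHom_eq_coe, RingHom.coe_coe] at h2
    rw [h2, hg', map_mul, map_pow, ← sg_pow]
    simp [ev, z1]
  have g1 : Ge 0 (1 + sg K (N, 0, 1)) := ge_one.add ((ge_sg _).mono N0.le)
  have gz : ∀ k, Ge (min θ (1 - θ)) (z1 k) := fun k => by
    fin_cases k
    · exact (ge_sg _).mono (min_le_left _ _)
    · exact ((ge_sg _).mul g1).mono (by simp)
  have gz' : ∀ k, Ge 0 (z1 k) := fun k => (gz k).mono μ0.le
  have g2 : Ge (1 + N + N) (ev z1 (aeval ψ' (cub _ - C (tr K 1))) - sg K (1 + N, 0, 1)) := by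
    have h2 : aeval ψ' (cub (HahnSeries ℝ K)) = X 0 * X 1 * (1 + map (cr K) e) := by
      have := congrArg (map (cr K)) hc
      simpa [cub, ψ'] using this
    have h3 : ev z1 (aeval ψ' (cub _ - C (tr K 1))) - sg K (1 + N, 0, 1) =
        sg K (1, 0, 0) * (1 + sg K (N, 0, 1)) * ev z1 (map (cr K) e) := by
      rw [map_sub, h2, aeval_C, map_sub, map_mul, map_mul, map_add, map_one,
        show ev z1 (X 0) = z1 0 by simp [ev], show ev z1 (X 1) = z1 1 by simp [ev], e1,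
        show sg K (1 + N, 0, 1) = sg K (1, 0, 0) * sg K (N, 0, 1) by simp [sg_mul],
        show ev z1 (algebraMap _ _ (tr K 1)) = sg K (1, 0, 0) by simp [ev, emb_tr]]
      ring
    rw [h3]
    exact (((ge_sg _).mul g1).mul (ev_mo gz μ0.le _ e he)).mono (by push_cast; nlinarith)
  choose! a ha hb using fun j (hj : j ∈ Q.support) =>
    row h0 h1 (Polynomial.mem_support_iff.1 hj) fun α hα => (hQs j α hα).1
  obtain ⟨l1, l2⟩ := lowest (S := Q.support) (N := N) (m := fun j => (1 + N) * j + a j)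
    (n := fun j => 2 * B - 4 * s * j)
    (V := fun j => ev z1 (aeval ψ' (cub _ - C (tr K 1))) ^ j * ev z1 (aeval ψ' (Q.coeff j)))
    (Γ := fun j => sg K (j • (1 + N, 0, 1)) * ev z0 (aeval ψ' (Q.coeff j))) θ0 θ1
    (fun j hj g hg => by
      rw [coeff_sg_mul] at hg
      obtain ⟨α, -, h2⟩ := ev_ne hg
      obtain ⟨h3, h4, h5⟩ := emb_ne h2
      have h6 := ha j hj _ _ h5
      simp at h3 h4 h6
      have h7 : (g.2.1 : ℝ) = α 0 - α 1 := by
        rw [show g.2.1 = (α 0 : ℤ) - α 1 by omega]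
        simp
      rw [h7]
      exact ⟨by omega, by linarith [Nat.cast_nonneg (α := ℝ) (α 1)],
        by linarith [Nat.cast_nonneg (α := ℝ) (α 0)]⟩)
    (fun j hj => by
      obtain ⟨u, v, ⟨β, h2, h3⟩, h4, h5⟩ := hb j hj
      have h6 : (u : ℝ) + v ≤ 2 * β 0 + 3 * β 1 := by exact_mod_cast h3
      refine ⟨u, v, by nlinarith [(hQs j β h2).2.1, Nat.cast_nonneg (α := ℝ) (β 1)], ?_, ?_⟩
      · rw [← coeff_ev_one (u := (θ, 1, 0)) (w := (1 - θ, -1, 0))] at h4
        · rw [coeff_sg_mul]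
          convert h4 using 2
          simp
          ring
        · intro α h7
          obtain ⟨h8, -, h9⟩ := emb_ne h7
          have h10 := ha j hj _ _ h9
          simp at h8 h10
          have h11 : (α 0 : ℝ) = u + α 1 := by exact_mod_cast (by omega)
          have h12 : (α 1 : ℝ) ≤ 0 := by rw [h11] at h10; linarith
          have h13 : α 1 = 0 := by exact_mod_cast h12.antisymm (Nat.cast_nonneg _)
          exact eq_ex_iff.2 ⟨by omega, h13⟩
      · rw [← coeff_ev_one (u := (θ, 1, 0)) (w := (1 - θ, -1, 0))] at h5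
        · rw [coeff_sg_mul]
          convert h5 using 2
          simp
          ring
        · intro α h7
          obtain ⟨h8, -, h9⟩ := emb_ne h7
          have h10 := ha j hj _ _ h9
          simp at h8 h10
          have h11 : (α 1 : ℝ) = v + α 0 := by exact_mod_cast (by omega)
          have h12 : (α 0 : ℝ) ≤ 0 := by rw [h11] at h10; linarith
          have h13 : α 0 = 0 := by exact_mod_cast h12.antisymm (Nat.cast_nonneg _)
          exact eq_ex_iff.2 ⟨h13, by omega⟩)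
    (fun j _ => by nlinarith [Nat.cast_nonneg (α := ℝ) j])
    (fun j hj => by
      have g3 : Ge (1 + N) (sg K (1 + N, 0, 1)) := ge_sg _
      have g6 : Ge 0 (z0 1) := (ge_sg (K := K) (1 - θ, -1, 0)).mono (by linarith)
      have g4 : Ge (1 + N) (ev z1 (aeval ψ' (cub _ - C (tr K 1)))) := by
        simpa using (g2.mono (by linarith)).add g3
      have g5 : Ge N (z1 1 - z0 1) := by
        simpa [z1, z0, mul_add] using ((ge_sg (K := K) (1 - θ, -1, 0)).mul
          (ge_sg (N, 0, 1))).mono (show N ≤ _ by simp; linarith)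
      rw [← sg_pow, show ∀ x y p p' : RR K, x * p - y * p' = (x - y) * p + y * (p - p') from
        fun _ _ _ _ => by ring]
      exact (((g4.pow_sub g3 g2 j).mul (ev_ge gz' (ha j hj))).mono (by linarith)).add
        (((g3.pow j).mul (ev_sub (z' := z0) gz' g6 rfl g5 (ha j hj))).mono (by linarith)))
    (Polynomial.support_nonempty.2 fun e => F0 (by simp [hQ, e]))
  have e2 : ev z1 (aeval ψ' F) = ∑ j ∈ Q.support,
      ev z1 (aeval ψ' (cub _ - C (tr K 1))) ^ j * ev z1 (aeval ψ' (Q.coeff j)) := by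
    rw [hQ, Polynomial.eval_eq_sum, Polynomial.sum_def, map_sum, map_sum]
    exact Finset.sum_congr rfl fun j _ => by rw [map_mul, map_mul, map_pow, map_pow, mul_comm]
  rw [← e2] at l1 l2
  have e3 : ∀ g, (ev z1 (aeval ψ' F)).coeff g =
      (ev ![sg K (0, 1, 0), sg K (0, 0, 1)] (aeval σ g')).coeff (g + M • (θ, 1, 0)) := fun g => by
    rw [key, coeff_sg_mul, add_sub_cancel_right]
  obtain ⟨g, g0, gv, gs⟩ := degenR 0 (aeval σ g') fun e => l1 (by
    ext g
    rw [e3, e]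
    simp)
  refine ⟨M, Ex.of_gen hq (f := g) ⟨g0, fun α hα => ?_, fun i hi => gv _ _ ?_⟩⟩
  · obtain ⟨⟨h2, h3⟩, -⟩ := gs α hα
    obtain ⟨j, hj, h4, h5, h6⟩ := l2
      (((coeff α (aeval σ g')).order, (α 0 : ℤ), (α 1 : ℤ)) - M • (θ, (1 : ℤ), (0 : ℤ))) (by
        rw [e3, sub_add_cancel]
        have := coeff_ev_one (P := aeval σ g') (u := (0, 1, 0)) (w := (0, 0, 1)) α
          (coeff α (aeval σ g')).order fun β h7 => by
            obtain ⟨h8, h9, -⟩ := emb_ne h7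
            simp at h8 h9
            rw [← ex_eta α]
            exact eq_ex_iff.2 ⟨by omega, by omega⟩
        refine fun e => mem_support_iff.1 h2 (HahnSeries.coeff_order_eq_zero.1 ?_)
        rw [← this, ← e]
        simp)
      fun g hg => by
        rw [e3] at hg
        obtain ⟨β, h7, h8⟩ := ev_ne hg
        have h9 := HahnSeries.order_le_of_coeff_ne_zero (emb_ne h8).2.2
        have h10 := h3 β h7
        simp [wt] at h9 h10 ⊢
        linarith
    simp at h4 h5 h6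
    obtain ⟨β, hβ⟩ := support_nonempty.2 (Polynomial.mem_support_iff.1 hj)
    rw [h4]
    exact ⟨by linarith [(hQs j β hβ).2.2], by linarith, by linarith⟩
  · have h2 : q i 0 ≠ 0 := hq.ne_zero (i, 0)
    have h3 : tr K θ * cr K (q i 0) ≠ 0 :=
      mul_ne_zero (by simp [tr]) (HahnSeries.C_ne_zero h2)
    have h4 := van_blow h3 (g := g') (by
      rw [hg']
      exact (Van.comp ψ' (pt i) (Fv i hi)).mul_left _)
    have h5 : tr K 1 = tr K θ * tr K (1 - θ) := by simp [tr, HahnSeries.single_mul_single]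
    have h6 : cr K (q i 0) * cr K (q i 0)⁻¹ = 1 := by rw [← map_mul, mul_inv_cancel₀ h2, map_one]
    refine Van.comp _ _ (Eq.mp (congrArg (fun p => Van p (n i) g') ?_) h4)
    ext k : 1
    fin_cases k
    · simp [σ, tr_zero]
    · simp only [σ, tr_zero, Pi.zero_apply, one_mul, Fin.mk_one, Matrix.cons_val_one,
        Matrix.cons_val_zero, map_mul, map_add, map_one, eval_C, eval_X, h5]
      linear_combination (tr K θ * tr K (1 - θ) * (1 + tr K N * cr K (q i 1))) * h6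

end Pool.Agent.P.MP_d3e5c7_ag.Tt
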