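import Pool.Agent.P.MP_d3e5c7_ag.SvB
import Pool.Agent.P.MP_d3e5c7_ag.ScSeven
import Pool.Agent.P.MP_d3e5c7_ag.TtB

/-! Blocks are found among few points. -/

set_option autoImplicit false

namespace Pool.Agent.P.MP_d3e5c7_ag.Sv

open MvPolynomial Nag Nu Sc Tt Finset

theorem tate (ι : Type) [Fintype ι] [DecidableEq ι] : Tate ι :=
  fun _ _ _ _ _ _ hs θ0 θ1 hx => (Tt.tate hs θ0 θ1 hx).elim fun M hM => ⟨M, hM⟩

theorem many {κ : Type} [Fintype κ] [DecidableEq κ] {m : κ × Fin 17 → ℤ} {a : κ × Fin 17 → ℝ}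
    {h : ℕ} {w z : ℝ} (hh : 1000 ≤ h) (hw : 50 * (w + 3) ^ 2 ≤ h)
    (hg : ∀ g, |(∑ i, (m (g, i) : ℝ) ^ 2) / h + 4 * h - ∑ i, (m (g, i) : ℝ)| ≤ w)
    (hz : ∀ g, z ≤ ∑ i, (m (g, i) : ℝ) ^ 2 ∧ ∑ i, (m (g, i) : ℝ) ^ 2 ≤ z + h ^ 2 / 1000)
    (z1 : 243 / 100 * (h : ℝ) ^ 2 ≤ z) (z2 : z ≤ 5 / 2 * (h : ℝ) ^ 2)
    (ha : ∀ i, (m i : ℝ) ^ 2 - 1 ≤ a i ^ 2 ∧ a i ^ 2 ≤ (m i : ℝ) ^ 2) :
    (∀ s : Finset κ, s.card * (z - 17) ≤ ∑ i ∈ s ×ˢ univ, a i ^ 2 ∧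
      ∑ i ∈ s ×ˢ univ, a i ^ 2 ≤ s.card * (z + h ^ 2 / 1000)) ∧
    ∀ (k : ℕ) (s : Finset κ), s.card = 2600 * (k + 1) → Fl m a (64 * h + 62) (s ×ˢ univ) := by
  have h0 : (1000 : ℝ) ≤ h := by exact_mod_cast hh
  have h1 : ∀ s : Finset κ, ∑ i ∈ s ×ˢ univ, a i ^ 2 ≤ ∑ g ∈ s, ∑ i, (m (g, i) : ℝ) ^ 2 :=
    fun s => by
      rw [sum_product]
      exact sum_le_sum fun g _ => sum_le_sum fun i _ => (ha _).2
  have h2 : ∀ s : Finset κ, s.card * (z - 17) ≤ ∑ i ∈ s ×ˢ univ, a i ^ 2 := fun s => by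
    rw [sum_product, ← nsmul_eq_mul]
    refine card_nsmul_le_sum _ _ _ fun g _ => ?_
    have := sum_le_sum fun i (_ : i ∈ univ) => (ha (g, i)).1
    rw [sum_sub_distrib] at this
    norm_num at this
    linarith [(hz g).1]
  have h3 : ∀ s : Finset κ, s.card = 2600 → Fl m a (64 * h + 62) (s ×ˢ univ) := fun s hs =>
    block (tate _) hh hw hg hz z1 z2 hs (by
      have := h2 s
      rw [hs] at this
      push_cast at this
      linarith [mul_le_mul_of_nonneg_right h0 h.cast_nonneg]) (h1 s)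
  refine ⟨fun s => ⟨h2 s, (h1 s).trans ?_⟩, fun k => ?_⟩
  · rw [← nsmul_eq_mul]
    exact sum_le_card_nsmul _ _ _ fun g _ => (hz g).2
  induction k with
  | zero => exact h3
  | succ k ih =>
    intro s hs
    obtain ⟨t, d, c⟩ := exists_subset_card_eq (s := s) (n := 2600) (by omega)
    rw [← union_sdiff_of_subset d, union_product]
    exact (h3 t c).union (disjoint_product.2 (.inl disjoint_sdiff)) (by positivity)
      (ih _ (by rw [card_sdiff_of_subset d]; omega))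

/-- the height of the cells -/
theorem root {P Q v : ℝ} (hv : 10 ^ 6 ≤ v) (h1 : 17 * v ≤ P) (h2 : P ^ 2 ≤ 17 * Q)
    (h3 : 17 * Q ≤ P ^ 2 + (17 * (v / 8)) ^ 2 / 4) :
    ∃ h : ℕ, |Q / h + 4 * h - P| ≤ 2 ∧ 1543 / 10000 * P ≤ h ∧ h ≤ 6213 / 40000 * P := by
  have h4 : (587 / 2500 * P) ^ 2 ≤ P ^ 2 - 16 * Q := by nlinarith
  obtain ⟨r, r0, hr⟩ : ∃ r, 0 ≤ r ∧ r ^ 2 = P ^ 2 - 16 * Q :=
    ⟨√(P ^ 2 - 16 * Q), Real.sqrt_nonneg _, Real.sq_sqrt ((sq_nonneg _).trans h4)⟩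
  have r1 : 587 / 2500 * P ≤ r := le_of_pow_le_pow_left₀ two_ne_zero r0 (by linarith)
  have r2 : r ≤ 1213 / 5000 * P :=
    le_of_pow_le_pow_left₀ two_ne_zero (by linarith) (by nlinarith)
  have h5 := Nat.floor_le (show 0 ≤ (P + r) / 8 by linarith)
  have h6 := Nat.lt_floor_add_one ((P + r) / 8)
  refine ⟨⌊(P + r) / 8⌋₊, ?_, by linarith, by linarith⟩
  generalize (⌊(P + r) / 8⌋₊ : ℝ) = h at *
  have h0 : 0 < h := by linarith
  obtain ⟨φ, rfl⟩ : ∃ φ, P = 8 * (h + φ) - r := ⟨(P + r) / 8 - h, by ring⟩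
  have e : Q / h + 4 * h - (8 * (h + φ) - r) = φ * (4 * φ - r) / h := by
    field_simp
    nlinarith
  have φ0 : 0 ≤ φ := by linarith
  have φ1 : φ ≤ 1 := by linarith
  rw [e, abs_div, abs_of_pos h0, div_le_iff₀ h0, abs_le]
  constructor <;> nlinarith

variable {ι : Type} [Fintype ι] [DecidableEq ι] {n : ι → ℤ} {a : ι → ℝ}

omit [Fintype ι] in
theorem exists_image {κ : Type} [Fintype κ] {x : κ → ι} {U : Finset ι} (h1 : Function.Injective x)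
    (h2 : ∀ i, x i ∈ U) :
    ∃ J : Finset ι, ∑ i ∈ J, a i ^ 2 = ∑ i, a (x i) ^ 2 ∧ J ⊆ U ∧ ∀ i, x i ∈ J :=
  ⟨univ.image x, sum_image fun _ _ _ _ h => h1 h, image_subset_iff.2 fun i _ => h2 i,
    fun i => mem_image_of_mem x (mem_univ i)⟩

omit [Fintype ι] in
/-- many disjoint sets of seventeen elements with two equal sums -/
theorem tuples (b c : ι → ℕ) (U : Finset ι) {τ : ℝ} {B C : ℕ} (hτ : 0 < τ)
    (hb : ∀ i ∈ U, b i ≤ B) (hc : ∀ i ∈ U, c i ≤ C)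
    (hq : ((17 * B + 1) * (17 * C + 1) : ℝ) ≤ τ ^ 17) (hP : 6 * 10 ^ 8 * τ ≤ U.card) :
    ∃ x : Fin 13000 × Fin 17 → ι, Function.Injective x ∧ (∀ i, x i ∈ U) ∧
      ∃ s t : ℕ, ∀ g, ∑ j, b (x (g, j)) = s ∧ ∑ j, c (x (g, j)) = t := by
  have : NeZero ((17 * B + 1) * (17 * C + 1)) := ⟨by positivity⟩
  have lt : ∀ u v, u ≤ 17 * B → v ≤ 17 * C → u + (17 * B + 1) * v < (17 * B + 1) * (17 * C + 1) :=
    fun u v hu hv => by linarith [Nat.mul_le_mul_left (17 * B + 1) hv]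
  obtain ⟨s, x, h1, h3⟩ := Sc7.bundles (G := ZMod ((17 * B + 1) * (17 * C + 1))) (U := U)
    (fun i => ((b i + (17 * B + 1) * c i : ℕ) : ZMod ((17 * B + 1) * (17 * C + 1)))) 16 13000 τ hτ
    (by rw [ZMod.card]; exact_mod_cast hq) (by rw [Fintype.card_coe]; push_cast; linarith)
  refine ⟨fun i => x i, Subtype.val_injective.comp h1, fun i => (x i).2, s.val % (17 * B + 1),
    s.val / (17 * B + 1), fun g => ?_⟩
  have h4 : ∑ j, b (x (g, j)) ≤ 17 * B := by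
    simpa using sum_le_card_nsmul univ (fun j => b (x (g, j))) _ fun j _ => hb _ (x (g, j)).2
  have h5 : ∑ j, c (x (g, j)) ≤ 17 * C := by
    simpa using sum_le_card_nsmul univ (fun j => c (x (g, j))) _ fun j _ => hc _ (x (g, j)).2
  rw [← h3 g, ← Nat.cast_sum, sum_add_distrib, ← mul_sum, ZMod.val_cast_of_lt (lt _ _ h4 h5),
    Nat.add_mul_mod_self_left, Nat.add_mul_div_left _ _ (by positivity),
    Nat.mod_eq_of_lt (Nat.lt_succ_of_le h4), Nat.div_eq_of_lt (Nat.lt_succ_of_le h4), zero_add]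
  exact ⟨rfl, rfl⟩

theorem near {f : Fin 17 → ℝ} {β : ℝ} {s : ℕ} (hβ : 0 < β) (hf : ∀ j, 0 ≤ f j)
    (hs : ∑ j, ⌊f j / β⌋₊ = s) : s * β ≤ ∑ j, f j ∧ ∑ j, f j ≤ s * β + 17 * β := by
  have h1 := sum_le_sum (s := univ) fun j (_ : j ∈ univ) =>
    (le_div_iff₀ hβ).1 (Nat.floor_le (div_nonneg (hf j) hβ.le))
  have h2 := sum_le_sum (s := univ) fun j (_ : j ∈ univ) =>
    (div_le_iff₀ hβ).1 (Nat.lt_floor_add_one (f j / β)).le
  rw [← sum_mul, ← Nat.cast_sum, hs] at h1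
  rw [← sum_mul, sum_add_distrib, ← Nat.cast_sum, hs] at h2
  norm_num at h2
  exact ⟨h1, by linarith⟩

theorem narrow {U : Finset ι} {y w τ : ℝ} (hy : 1000 ≤ y) (w0 : 0 ≤ w) (hw : w ≤ y ^ 2 / 8)
    (hτ : 0 < τ) (hq : (3400 * (w / y) + 1) * (3400 * (w ^ 2 / y ^ 3) + 1) ≤ τ ^ 17)
    (hn' : ∀ i ∈ U, y ^ 2 ≤ n i ∧ (n i : ℝ) ≤ y ^ 2 + w)
    (ha : ∀ i ∈ U, (n i : ℝ) ^ 2 - 1 ≤ a i ^ 2 ∧ a i ^ 2 ≤ (n i : ℝ) ^ 2)
    (hU : 6 * 10 ^ 8 * τ ≤ U.card) :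
    ∃ J ⊆ U, J.Nonempty ∧ Fl n a (384 * y ^ 2) J ∧ ∑ i ∈ J, a i ^ 2 ≤ (768 * y ^ 2) ^ 2 := by
  have y0 : 0 < y := by linarith
  have y2 : 1000 * y ≤ y ^ 2 := by nlinarith
  have y3 : 0 < y ^ 3 := by positivity
  have hn : ∀ i ∈ U, y ^ 2 ≤ n i ∧ (n i : ℝ) ≤ 9 / 8 * y ^ 2 :=
    fun i hi => ⟨(hn' i hi).1, by linarith [(hn' i hi).2]⟩
  obtain ⟨x, h1, h2, s1, s2, h3⟩ := tuples (fun i => ⌊(n i - y ^ 2) / (y / 200)⌋₊)
    (fun i => ⌊(n i - y ^ 2) ^ 2 / (y ^ 3 / 200)⌋₊) U (τ := τ) (B := ⌊200 * (w / y)⌋₊)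
    (C := ⌊200 * (w ^ 2 / y ^ 3)⌋₊) hτ
    (fun i hi => Nat.floor_mono ((div_le_iff₀ (by linarith)).2 (by
      rw [show 200 * (w / y) * (y / 200) = w by field_simp]
      linarith [(hn' i hi).2])))
    (fun i hi => Nat.floor_mono ((div_le_iff₀ (by linarith)).2 (by
      rw [show 200 * (w ^ 2 / y ^ 3) * (y ^ 3 / 200) = w ^ 2 by field_simp]
      exact pow_le_pow_left₀ (sub_nonneg.2 (hn i hi).1) (by linarith [(hn' i hi).2]) 2)))
    (by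
      have h1 := Nat.floor_le (show 0 ≤ 200 * (w / y) by positivity)
      have h2 := Nat.floor_le (show 0 ≤ 200 * (w ^ 2 / y ^ 3) by positivity)
      exact (mul_le_mul (by linarith) (by linarith) (by positivity) (by positivity)).trans hq) hU
  have h4 := fun g => near (f := fun j => n (x (g, j)) - y ^ 2) (β := y / 200) (by linarith)
    (fun j => sub_nonneg.2 (hn _ (h2 _)).1) (h3 g).1
  have h5 := fun g => near (f := fun j => (n (x (g, j)) - y ^ 2) ^ 2) (β := y ^ 3 / 200)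
    (by linarith) (fun j => sq_nonneg _) (h3 g).2
  have e1 : ∀ g, ∑ j, (n (x (g, j)) : ℝ) = ∑ j, (n (x (g, j)) - y ^ 2 : ℝ) + 17 * y ^ 2 :=
    fun g => by simp [sum_sub_distrib]
  have e2 : ∀ g, ∑ j, (n (x (g, j)) : ℝ) ^ 2 = ∑ j, (n (x (g, j)) - y ^ 2 : ℝ) ^ 2 +
      2 * y ^ 2 * ∑ j, (n (x (g, j)) - y ^ 2 : ℝ) + 17 * y ^ 4 := fun g => by
    rw [mul_sum, ← sum_add_distrib, show 17 * y ^ 4 = ∑ _j : Fin 17, y ^ 4 by simp,
      ← sum_add_distrib]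
    exact sum_congr rfl fun j _ => by ring
  have p1 : 17 * y ^ 2 ≤ ∑ j, (n (x (0, j)) : ℝ) := by
    rw [e1]
    linarith [(h4 0).1, mul_nonneg s1.cast_nonneg (show 0 ≤ y / 200 by linarith)]
  have p2 : ∑ j, (n (x (0, j)) : ℝ) ≤ 17 * (9 / 8 * y ^ 2) := by
    simpa using sum_le_card_nsmul univ (fun j => (n (x (0, j)) : ℝ)) _ fun j _ => (hn _ (h2 _)).2
  obtain ⟨h, h6, h7, h8⟩ := root (v := y ^ 2) (Q := ∑ j, (n (x (0, j)) : ℝ) ^ 2) (by linarith) p1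
    (by simpa using sq_sum_le_card_mul_sum_sq (s := univ) (f := fun j => (n (x (0, j)) : ℝ)))
    (by
      simpa using sum_sq_le (fun j => (n (x (0, j)) : ℝ)) (lo := y ^ 2) (w := y ^ 2 / 8)
        fun j => ⟨(hn _ (h2 _)).1, by linarith [(hn _ (h2 (0, j))).2]⟩)
  have h0 : (0 : ℝ) < h := by linarith
  obtain ⟨u, hu⟩ : ∃ u, ∑ j, (n (x (0, j)) : ℝ) ^ 2 = h * u :=
    ⟨(∑ j, (n (x (0, j)) : ℝ) ^ 2) / h, by field_simp⟩
  rw [hu, mul_div_cancel_left₀ _ h0.ne', abs_le] at h6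
  have h9 : ∀ g, |(∑ j, (n (x (g, j)) : ℝ) ^ 2) / h + 4 * h - ∑ j, (n (x (g, j)) : ℝ)| ≤ y / 5 ∧
      h * (u - h / 2000) ≤ ∑ j, (n (x (g, j)) : ℝ) ^ 2 ∧
      ∑ j, (n (x (g, j)) : ℝ) ^ 2 ≤ h * (u - h / 2000) + h ^ 2 / 1000 := fun g => by
    obtain ⟨z, hz⟩ : ∃ z, ∑ j, (n (x (g, j)) : ℝ) ^ 2 = ∑ j, (n (x (0, j)) : ℝ) ^ 2 + h * z :=
      ⟨(∑ j, (n (x (g, j)) : ℝ) ^ 2 - ∑ j, (n (x (0, j)) : ℝ) ^ 2) / h, by field_simp; ring⟩
    have k1 : |∑ j, (n (x (g, j)) : ℝ) - ∑ j, (n (x (0, j)) : ℝ)| ≤ 17 * (y / 200) := by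
      rw [e1, e1, abs_le]
      constructor <;> linarith [(h4 g).1, (h4 g).2, (h4 0).1, (h4 0).2]
    have k2 : |h * z| ≤ 51 * (y ^ 3 / 200) := by
      rw [e2, e2] at hz
      have y4 : 0 ≤ 2 * y ^ 2 := by positivity
      have k3 := mul_le_mul_of_nonneg_left ((h4 g).2.trans (add_le_add_left (h4 0).1 _)) y4
      have k4 := mul_le_mul_of_nonneg_left ((h4 0).2.trans (add_le_add_left (h4 g).1 _)) y4
      rw [abs_le]
      constructor <;> linarith [(h5 g).1, (h5 g).2, (h5 0).1, (h5 0).2]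
    have k3 : |z| ≤ y / 10 := by
      rw [abs_mul, abs_of_pos h0] at k2
      by_contra k4
      linarith [mul_le_mul (show 26 / 10 * y ^ 2 ≤ h by linarith) (not_le.1 k4).le
        (by linarith) h0.le]
    rw [hz, hu, ← mul_add, mul_div_cancel_left₀ _ h0.ne', abs_le]
    rw [abs_le] at k1 k3
    have k4 := mul_le_mul_of_nonneg_left (show u - h / 2000 ≤ u + z by linarith) h0.le
    have k5 := mul_le_mul_of_nonneg_left (show u + z ≤ u + h / 2000 by linarith) h0.le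
    exact ⟨⟨by linarith, by linarith⟩, k4, by linarith⟩
  have z1 := mul_le_mul_of_nonneg_left (show 243 / 100 * h ≤ u - h / 2000 by linarith) h0.le
  have z2 := mul_le_mul_of_nonneg_left (show u - h / 2000 ≤ 5 / 2 * h by linarith) h0.le
  obtain ⟨k1, k2⟩ := many (m := fun i => n (x i)) (a := fun i => a (x i)) (h := h) (w := y / 5)
    (by exact_mod_cast (show ((1000 : ℕ) : ℝ) ≤ h by push_cast; linarith)) (by linarith)
    (fun g => (h9 g).1) (fun g => (h9 g).2) (by linarith) (by linarith) fun i => ha _ (h2 i)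
  obtain ⟨J, e, hJU, hJ⟩ := exists_image (a := a) h1 h2
  obtain ⟨a1, a2⟩ := k1 univ
  have k3 := k2 4 univ (by simp)
  rw [univ_product_univ, ← e, card_univ, Fintype.card_fin] at a1 a2
  rw [univ_product_univ, Fl, ← e] at k3
  push_cast at a1 a2
  have a3 := mul_le_mul_of_nonneg_left (show 384 * y ^ 2 ≤ 147 * h by linarith)
    (show (0 : ℝ) ≤ 3 * (64 * h + 62) by positivity)
  have a4 := pow_le_pow_left₀ h0.le (show h ≤ 3 * y ^ 2 by linarith) 2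
  have a5 := mul_le_mul_of_nonneg_right (show (1000 : ℝ) ≤ h by linarith) h0.le
  exact ⟨J, hJU, ⟨_, hJ 0⟩, Fl.up (m := 64 * h + 62) (by linarith) (by linarith) (by linarith)
    fun hx => k3 (comp h1 (fun i _ => hJ i) hx), by linarith⟩

end Pool.Agent.P.MP_d3e5c7_ag.Sv
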