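import Pool.Agent.P.MP_d3e5c7_ag.ScD

/-! Windows of ratio nine to eight. -/

set_option autoImplicit false

namespace Pool.Agent.P.MP_d3e5c7_ag.Tt

open MvPolynomial Nag Nu Sc Finset

/-- blocks are found among few points with multiplicities in a wide window -/
def Wide (ι : Type) : Prop :=
  ∀ (n : ι → ℤ) (a : ι → ℝ) (U : Finset ι) (y t : ℝ), 1000 ≤ y → 1 ≤ t → y ^ 2 ≤ t ^ 9 →
    (∀ i ∈ U, y ^ 2 ≤ n i ∧ (n i : ℝ) ≤ 9 / 8 * y ^ 2) →
    (∀ i ∈ U, (n i : ℝ) ^ 2 - 1 ≤ a i ^ 2 ∧ a i ^ 2 ≤ (n i : ℝ) ^ 2) → 1500000 * t ≤ U.card →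
      ∃ J ⊆ U, J.Nonempty ∧ Fl n a (32 * y ^ 2) J ∧ ∑ i ∈ J, a i ^ 2 ≤ (64 * y ^ 2) ^ 2

variable {ι : Type} [Fintype ι] [DecidableEq ι] {n : ι → ℤ} {a : ι → ℝ} {I : Finset ι} {h T : ℝ}

theorem spl_small (N : ℕ) (ho : Ok n a I) (he : ∀ i ∈ I, ∀ j ∈ I, n i = n j → a i = a j)
    (hh : ∀ i ∈ I, 2 * a i ≤ h) : Spl n a h N (I.filter fun i => n i < N) := by
  have key := fibers (n := n) (a := a) (I := I) (h := h) (k := 1) (fun i => (n i).toNat) (range N)
    fun v _ => ?_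
  · rw [card_range, mul_one] at key
    convert key using 1
    refine filter_congr fun i hi => ?_
    have h1 : (0 : ℝ) < n i := (ho i hi).1.trans (ho i hi).2
    have h2 : 0 < n i := by exact_mod_cast h1
    rw [mem_range]
    omega
  set U := I.filter fun i => (n i).toNat = v with hU
  have hUI : U ⊆ I := filter_subset _ _
  rcases U.eq_empty_or_nonempty with h2 | ⟨o, hoU⟩
  · rw [h2]
    exact spl_empty.mono (Nat.zero_le _)
  have h3 : ∀ i ∈ U, a i = a o := fun i hi => he i (hUI hi) o (hUI hoU) (by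
    have h4 : (0 : ℝ) < n i := (ho i (hUI hi)).1.trans (ho i (hUI hi)).2
    have h5 : (0 : ℝ) < n o := (ho o (hUI hoU)).1.trans (ho o (hUI hoU)).2
    have h6 : 0 < n i := by exact_mod_cast h4
    have h7 : 0 < n o := by exact_mod_cast h5
    have := (mem_filter.1 hi).2
    have := (mem_filter.1 hoU).2
    omega)
  have h4 : ∀ i ∈ U, a i ≤ h := fun i hi => by linarith [hh i (hUI hi), (ho i (hUI hi)).1]
  refine bin (ho o (hUI hoU)).1 (hh o (hUI hoU)) (ho.mono hUI) h4 fun W hW h5 => ?_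
  obtain ⟨i, hi⟩ := card_pos.1 h5
  refine ⟨{i}, singleton_subset_iff.2 hi, singleton_nonempty i, Fl.group (singleton_nonempty i)
    (ho.mono (singleton_subset_iff.2 (hUI (hW hi)))) (by simpa using h3 i (hW hi)), ?_⟩
  rw [sum_singleton]
  exact pow_le_pow_left₀ (ho i (hUI (hW hi))).1.le (h4 i (hW hi)) 2

/-- all points split into blocks and at most `10 ^ 9 T` exceptional pieces -/
theorem spl_wide (hW : Wide ι) (hT : 1 ≤ T) (hh : 64 * T ^ 9 ≤ h) (ho : Ok n a I)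
    (ha : ∀ i ∈ I, (n i : ℝ) ^ 2 - 1 ≤ a i ^ 2) (he : ∀ i ∈ I, ∀ j ∈ I, n i = n j → a i = a j)
    (hM : ∀ i ∈ I, (n i : ℝ) ≤ T ^ 9) : ∃ k : ℕ, (k : ℝ) ≤ 10 ^ 9 * T ∧ Spl n a h k I := by
  classical
  have T0 : 0 < T ^ 9 := by positivity
  have hl : ∀ i ∈ I, a i ≤ T ^ 9 := fun i hi => (ho i hi).2.le.trans (hM i hi)
  have key : ∀ w : ℕ, ∃ k : ℕ, (k : ℝ) ≤ 2 * 10 ^ 8 * (5 * (101 / 100) ^ w) ∧
      (k : ℝ) ≤ 10 ^ 9 * T ∧
      Spl n a h k (I.filter fun i => (n i : ℝ) < (5 * (101 / 100) ^ w) ^ 9) := by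
    intro w
    induction w with
    | zero =>
      refine ⟨5 ^ 9, by norm_num, by push_cast; linarith, ?_⟩
      convert spl_small (5 ^ 9) ho he fun i hi => by linarith [hl i hi] using 1
      refine filter_congr fun i _ => ?_
      rw [pow_zero, mul_one]
      exact_mod_cast Iff.rfl
    | succ w ih =>
      obtain ⟨k, k1, k2, k3⟩ := ih
      have t5 : (5 : ℝ) ≤ 5 * (101 / 100) ^ w :=
        le_mul_of_one_le_right (by norm_num) (one_le_pow₀ (by norm_num))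
      rw [pow_succ _ w, ← mul_assoc 5]
      generalize (5 : ℝ) * (101 / 100) ^ w = t at *
      have t0 : 0 < t ^ 9 := by positivity
      have t1 : (t * (101 / 100)) ^ 9 ≤ 9 / 8 * t ^ 9 := by
        rw [mul_pow, mul_comm]
        exact mul_le_mul_of_nonneg_right (by norm_num) t0.le
      have t2 : t ^ 9 ≤ (t * (101 / 100)) ^ 9 := pow_le_pow_left₀ (by linarith) (by linarith) 9
      set U := I.filter fun i => t ^ 9 ≤ (n i : ℝ) ∧ (n i : ℝ) < (t * (101 / 100)) ^ 9 with hU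
      have hUI : U ⊆ I := filter_subset _ _
      have e : (I.filter fun i => (n i : ℝ) < (t * (101 / 100)) ^ 9) =
          (I.filter fun i => (n i : ℝ) < t ^ 9) ∪ U := by
        rw [hU, ← filter_or]
        refine filter_congr fun i _ => ⟨fun h1 => ?_, fun h1 => h1.elim (fun h2 => h2.trans_le t2)
          fun h2 => h2.2⟩
        exact (lt_or_ge _ _).imp id fun h2 => ⟨h2, h1⟩
      rw [e]
      rcases U.eq_empty_or_nonempty with h2 | ⟨o, hoU⟩
      · rw [h2, union_empty]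
        exact ⟨k, by linarith, k2, k3⟩
      have h3 : t ^ 9 ≤ T ^ 9 := (mem_filter.1 hoU).2.1.trans (hM o (hUI hoU))
      have h4 : t ≤ T := le_of_pow_le_pow_left₀ (by norm_num) (by linarith) h3
      have h5 := (Nat.ceil_lt_add_one (show 0 ≤ 1500000 * t by linarith)).le
      have y2 : √(t ^ 9) ^ 2 = t ^ 9 := Real.sq_sqrt t0.le
      have y1 : 1000 ≤ √(t ^ 9) := Real.le_sqrt_of_sq_le
        (le_trans (by norm_num) (pow_le_pow_left₀ (by norm_num) t5 9))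
      refine ⟨k + ⌈1500000 * t⌉₊, by push_cast; linarith, by push_cast; linarith, k3.union
        (bin (H := 32 * t ^ 9) (by linarith) (by linarith) (ho.mono hUI)
          (fun i hi => by linarith [hl i (hUI hi)]) fun W h6 h7 => ?_)
        (disjoint_filter.2 fun i _ h6 h7 => absurd h7.1 (not_le.2 h6))⟩
      obtain ⟨J, h8, h9, h10, h11⟩ := hW n a W _ t y1 (by linarith) y2.le
        (fun i hi => by
          have := (mem_filter.1 (h6 hi)).2
          rw [y2]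
          exact ⟨this.1, this.2.le.trans t1⟩)
        (fun i hi => ⟨ha i (hUI (h6 hi)), pow_le_pow_left₀ (ho i (hUI (h6 hi))).1.le
          (ho i (hUI (h6 hi))).2.le 2⟩) (Nat.ceil_le.1 h7)
      rw [y2] at h10 h11
      exact ⟨J, h8, h9, h10, h11.trans (pow_le_pow_left₀ (by positivity) (by linarith) 2)⟩
  obtain ⟨w, hw⟩ := pow_unbounded_of_one_lt T (show (1 : ℝ) < 101 / 100 by norm_num)
  obtain ⟨k, -, k2, k3⟩ := key w
  refine ⟨k, k2, ?_⟩
  rwa [filter_true_of_mem] at k3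
  exact fun i hi => (hM i hi).trans_lt (pow_lt_pow_left₀ (by linarith) (by linarith) (by norm_num))

omit [DecidableEq ι] in
theorem main (hW : Wide ι) {K : Type} [Field K] [CharZero K] (p : ι → Fin 2 → K)
    (hp : AlgebraicIndependent ℚ (fun ij : ι × Fin 2 => p ij.1 ij.2)) {d M : ℕ} (m : ι → ℕ)
    (hM : ∀ i, m i ≤ M) (hS : 10 ^ 14 * (M : ℝ) ^ (19 / 9 : ℝ) ≤ ∑ i, (m i : ℝ) ^ 2)
    {f : MvPolynomial (Fin 2) K} (hf0 : f ≠ 0) (hfd : f.totalDegree ≤ d)
    (hf : ∀ i, Van (p i) (m i) f) : ∑ i, m i ^ 2 ≤ d ^ 2 := by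
  classical
  by_contra hc
  have hc' : (d : ℝ) ^ 2 + 1 ≤ ∑ i, (m i : ℝ) ^ 2 := by exact_mod_cast not_le.1 hc
  obtain ⟨o, -, ho⟩ := exists_ne_zero_of_sum_ne_zero (s := univ) (f := fun i => m i ^ 2) (by omega)
  have M1 : (1 : ℝ) ≤ M := by
    have := hM o
    have : m o ≠ 0 := fun h => ho (by rw [h]; rfl)
    exact_mod_cast (by omega)
  set t := (M : ℝ) ^ (1 / 9 : ℝ) with ht
  have t1 : 1 ≤ t := Real.one_le_rpow M1 (by norm_num)
  have e1 : t ^ 9 = M := by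
    rw [ht, ← Real.rpow_natCast, ← Real.rpow_mul (by linarith)]
    norm_num
  have e2 : (M : ℝ) ^ (19 / 9 : ℝ) = t * (t ^ 9) ^ 2 := by
    rw [← pow_mul, ← pow_succ', ht, ← Real.rpow_natCast, ← Real.rpow_mul (by linarith)]
    norm_num
  have s0 : (0 : ℝ) ≤ Fintype.card ι := by positivity
  set I := univ.filter fun i => 0 < m i with hI
  set ε : ℝ := 1 / (2 * (Fintype.card ι + 1)) with hε
  have ε0 : 0 < ε := by positivity
  have ε1 : ε < 1 := (div_lt_one (by positivity)).2 (by linarith)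
  have hm : ∀ i ∈ I, (1 : ℝ) ≤ m i := fun i hi => by exact_mod_cast (mem_filter.1 hi).2
  have hs : ∀ i ∈ I, √((m i : ℝ) ^ 2 - ε) ^ 2 = (m i : ℝ) ^ 2 - ε := fun i hi =>
    Real.sq_sqrt (by nlinarith [hm i hi])
  obtain ⟨k, hk, h1⟩ := spl_wide (n := fun i => (m i : ℤ)) (a := fun i => √((m i : ℝ) ^ 2 - ε))
    (I := I) hW t1 le_rfl (fun i hi => ⟨Real.sqrt_pos.2 (by nlinarith [hm i hi]),
      (Real.sqrt_lt' (by push_cast; linarith [hm i hi])).2 (by push_cast; linarith)⟩)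
    (fun i hi => by rw [hs i hi]; push_cast; linarith)
    (fun i _ j _ e => by rw [show m i = m j by exact_mod_cast e])
    fun i _ => by rw [e1]; exact_mod_cast hM i
  have h2 : ∑ i, (m i : ℝ) ^ 2 - 1 / 2 ≤ ∑ i ∈ I, √((m i : ℝ) ^ 2 - ε) ^ 2 := by
    have h3 : ∑ i, ((m i : ℝ) ^ 2 - ε) ≤ ∑ i ∈ I, √((m i : ℝ) ^ 2 - ε) ^ 2 := by
      rw [hI, sum_filter]
      refine sum_le_sum fun i _ => ?_
      split_ifs with h4
      · rw [Real.sq_sqrt']
        exact le_max_left _ _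
      · rw [show m i = 0 by omega]
        simp [ε0.le]
    rw [sum_sub_distrib, sum_const, card_univ, nsmul_eq_mul] at h3
    have h4 : (Fintype.card ι + 1) * ε = 1 / 2 := by rw [hε]; field_simp
    linarith
  refine h1.main (by positivity) ?_ (Ex.of_gen hp (f := f) ⟨hf0, fun α hα => ?_, fun i _ => hf i⟩)
  · rw [e2] at hS
    have h5 : 36 + 15 * (k : ℝ) ≤ 16 * 10 ^ 9 * t := by linarith
    have h6 : 1 ≤ (t ^ 9) ^ 2 := one_le_pow₀ (by linarith)
    have h7 := mul_le_mul_of_nonneg_right h5 (sq_nonneg (64 * t ^ 9))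
    have h8 : 1 ≤ t * (t ^ 9) ^ 2 := one_le_mul_of_one_le_of_one_le t1 h6
    linarith
  · have h3 : α.degree ≤ f.totalDegree := le_totalDegree hα
    rw [← ex_eta α, degree_ex] at h3
    have h4 : (α 0 : ℝ) + α 1 ≤ d := by exact_mod_cast h3.trans hfd
    generalize ∑ i ∈ I, √((m i : ℝ) ^ 2 - ε) ^ 2 = A at *
    have h5 : (d : ℝ) ≤ √A := Real.le_sqrt_of_sq_le (by linarith)
    rw [Real.div_sqrt, E]
    nlinarith [Real.sqrt_nonneg A]

end Pool.Agent.P.MP_d3e5c7_ag.Tt
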