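import Pool.Agent.P.MP_d3e5c7_ag.SvC
import Pool.Agent.P.MP_d3e5c7_ag.TtE
import Pool.Agent.P.MP_d3e5c7_ag.ScS
import Pool.Agent.P.MP_d3e5c7_ag.QhD

/-! Multiplicities in windows, one of them free: cells of seventeen points. -/

set_option autoImplicit false

namespace Pool.Agent.P.MP_d3e5c7_ag.Sv

open MvPolynomial Nag Nu Sc Tt Finset

section
variable {ι : Type} [Fintype ι] [DecidableEq ι] {n : ι → ℤ} {a : ι → ℝ} {I : Finset ι} {h T : ℝ}

theorem wide {U : Finset ι} {y t : ℝ} (hy : 1000 ≤ y) (ht : 1 ≤ t) (hyt : y ^ 2 ≤ t ^ 17)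
    (hn : ∀ i ∈ U, y ^ 2 ≤ n i ∧ (n i : ℝ) ≤ 9 / 8 * y ^ 2)
    (ha : ∀ i ∈ U, (n i : ℝ) ^ 2 - 1 ≤ a i ^ 2 ∧ a i ^ 2 ≤ (n i : ℝ) ^ 2)
    (hU : 1200000000 * t ≤ U.card) :
    ∃ J ⊆ U, J.Nonempty ∧ Fl n a (384 * y ^ 2) J ∧ ∑ i ∈ J, a i ^ 2 ≤ (768 * y ^ 2) ^ 2 := by
  have y0 : 0 < y := by linarith
  refine narrow (w := y ^ 2 / 8) (τ := 2 * t) hy (by positivity) le_rfl (by linarith) ?_
    (fun i hi => ⟨(hn i hi).1, by linarith [(hn i hi).2]⟩) ha (by linarith)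
  rw [show y ^ 2 / 8 / y = y / 8 by field_simp,
    show (y ^ 2 / 8) ^ 2 / y ^ 3 = y / 64 by field_simp; norm_num]
  nlinarith

/-- all points split into blocks and at most `10 ^ 12 T` exceptional pieces -/
theorem spl_wide (hT : 1 ≤ T) (hh : 768 * T ^ 17 ≤ h) (ho : Ok n a I)
    (ha : ∀ i ∈ I, (n i : ℝ) ^ 2 - 1 ≤ a i ^ 2) (he : ∀ i ∈ I, ∀ j ∈ I, n i = n j → a i = a j)
    (hM : ∀ i ∈ I, (n i : ℝ) ≤ T ^ 17) : ∃ k : ℕ, (k : ℝ) ≤ 10 ^ 12 * T ∧ Spl n a h k I := by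
  classical
  have T0 : 0 < T ^ 17 := by positivity
  have hl : ∀ i ∈ I, a i ≤ T ^ 17 := fun i hi => (ho i hi).2.le.trans (hM i hi)
  have key : ∀ w : ℕ, ∃ k : ℕ, (k : ℝ) ≤ 3 * 10 ^ 11 * (3 * (503 / 500) ^ w) ∧
      (k : ℝ) ≤ 10 ^ 12 * T ∧
      Spl n a h k (I.filter fun i => (n i : ℝ) < (3 * (503 / 500) ^ w) ^ 17) := by
    intro w
    induction w with
    | zero =>
      refine ⟨3 ^ 17, by norm_num, by push_cast; linarith, ?_⟩
      convert spl_small (3 ^ 17) ho he fun i hi => by linarith [hl i hi] using 1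
      refine filter_congr fun i _ => ?_
      rw [pow_zero, mul_one]
      exact_mod_cast Iff.rfl
    | succ w ih =>
      obtain ⟨k, k1, k2, k3⟩ := ih
      have t5 : (3 : ℝ) ≤ 3 * (503 / 500) ^ w :=
        le_mul_of_one_le_right (by norm_num) (one_le_pow₀ (by norm_num))
      rw [pow_succ _ w, ← mul_assoc 3]
      generalize (3 : ℝ) * (503 / 500) ^ w = t at *
      have t0 : 0 < t ^ 17 := by positivity
      have t1 : (t * (503 / 500)) ^ 17 ≤ 9 / 8 * t ^ 17 := by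
        rw [mul_pow, mul_comm]
        exact mul_le_mul_of_nonneg_right (by norm_num) t0.le
      have t2 : t ^ 17 ≤ (t * (503 / 500)) ^ 17 := pow_le_pow_left₀ (by linarith) (by linarith) 17
      set U := I.filter fun i => t ^ 17 ≤ (n i : ℝ) ∧ (n i : ℝ) < (t * (503 / 500)) ^ 17 with hU
      have hUI : U ⊆ I := filter_subset _ _
      have e : (I.filter fun i => (n i : ℝ) < (t * (503 / 500)) ^ 17) =
          (I.filter fun i => (n i : ℝ) < t ^ 17) ∪ U := by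
        rw [hU, ← filter_or]
        refine filter_congr fun i _ => ⟨fun h1 => ?_, fun h1 => h1.elim (fun h2 => h2.trans_le t2)
          fun h2 => h2.2⟩
        exact (lt_or_ge _ _).imp id fun h2 => ⟨h2, h1⟩
      rw [e]
      rcases U.eq_empty_or_nonempty with h2 | ⟨o, hoU⟩
      · rw [h2, union_empty]
        exact ⟨k, by linarith, k2, k3⟩
      have h3 : t ^ 17 ≤ T ^ 17 := (mem_filter.1 hoU).2.1.trans (hM o (hUI hoU))
      have h4 : t ≤ T := le_of_pow_le_pow_left₀ (by norm_num) (by linarith) h3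
      have h5 := (Nat.ceil_lt_add_one (show 0 ≤ 1200000000 * t by linarith)).le
      have y2 : √(t ^ 17) ^ 2 = t ^ 17 := Real.sq_sqrt t0.le
      have y1 : 1000 ≤ √(t ^ 17) := Real.le_sqrt_of_sq_le
        (le_trans (by norm_num) (pow_le_pow_left₀ (by norm_num) t5 17))
      refine ⟨k + ⌈1200000000 * t⌉₊, by push_cast; linarith, by push_cast; linarith, k3.union
        (bin (H := 384 * t ^ 17) (by linarith) (by linarith) (ho.mono hUI)
          (fun i hi => by linarith [hl i (hUI hi)]) fun W h6 h7 => ?_)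
        (disjoint_filter.2 fun i _ h6 h7 => absurd h7.1 (not_le.2 h6))⟩
      obtain ⟨J, h8, h9, h10, h11⟩ := wide (n := n) (a := a) (U := W) (t := t) y1 (by linarith) y2.le
        (fun i hi => by
          have := (mem_filter.1 (h6 hi)).2
          rw [y2]
          exact ⟨this.1, this.2.le.trans t1⟩)
        (fun i hi => ⟨ha i (hUI (h6 hi)), pow_le_pow_left₀ (ho i (hUI (h6 hi))).1.le
          (ho i (hUI (h6 hi))).2.le 2⟩) (Nat.ceil_le.1 h7)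
      rw [y2] at h10 h11
      exact ⟨J, h8, h9, h10, h11.trans (pow_le_pow_left₀ (by positivity) (by linarith) 2)⟩
  obtain ⟨w, hw⟩ := pow_unbounded_of_one_lt T (show (1 : ℝ) < 503 / 500 by norm_num)
  obtain ⟨k, -, k2, k3⟩ := key w
  refine ⟨k, k2, ?_⟩
  rwa [filter_true_of_mem] at k3
  exact fun i hi => (hM i hi).trans_lt (pow_lt_pow_left₀ (by linarith) (by linarith) (by norm_num))

/-- one window -/
theorem window {v w c t : ℝ} (t1 : 1 ≤ t) (c1 : 1 ≤ c) (h1 : w / √v ≤ c ^ 17)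
    (h2 : w ^ 3 / v ^ 2 ≤ c ^ 17) (ho : Ok n a I) (ha : ∀ i ∈ I, (n i : ℝ) ^ 2 - 1 ≤ a i ^ 2)
    (he : ∀ i ∈ I, ∀ j ∈ I, n i = n j → a i = a j)
    (hn : ∀ i ∈ I, (n i : ℝ) ≤ t ^ 17 ∧ (n i : ℝ) ≤ v ∧ v ≤ n i + w) :
    ∃ k : ℕ, (k : ℝ) ≤ 3 * 10 ^ 12 * c ∧ Spl n a (768 * t ^ 17) k I := by
  have c9 : 1 ≤ c ^ 17 := one_le_pow₀ c1
  rcases le_total v ((3 * c) ^ 17) with hv | hv
  · obtain ⟨k, k1, k2⟩ := spl_wide (T := min (3 * c) t) (h := 768 * t ^ 17)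
      (le_min (by linarith) t1) (mul_le_mul_of_nonneg_left (pow_le_pow_left₀
        (le_min (by linarith) (by linarith)) (min_le_right _ _) 17) (by norm_num)) ho ha he
      fun i hi => by
        rcases min_choice (3 * c) t with e | e <;> rw [e]
        · exact (hn i hi).2.1.trans hv
        · exact (hn i hi).1
    exact ⟨k, by linarith [min_le_left (3 * c) t], k2⟩
  rcases I.eq_empty_or_nonempty with rfl | ⟨o, hoI⟩
  · exact ⟨0, by push_cast; linarith, spl_empty⟩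
  have w0 : 0 ≤ w := by linarith [(hn o hoI).2.1, (hn o hoI).2.2]
  rw [mul_pow] at hv
  have v0 : 0 < v := by linarith
  rw [div_le_iff₀ (by positivity)] at h1 h2
  have h3 : 9 * w ≤ v := by
    by_contra h4
    have h5 := pow_le_pow_left₀ v0.le (not_le.1 h4).le 3
    nlinarith [mul_le_mul_of_nonneg_right hv (sq_nonneg v), sq_pos_of_pos v0]
  obtain ⟨y, y1, hy⟩ : ∃ y, 1000 ≤ y ∧ y ^ 2 = v - w :=
    ⟨√(v - w), Real.le_sqrt_of_sq_le (by linarith), Real.sq_sqrt (by linarith)⟩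
  have y0 : 0 < y := by linarith
  have h4 : √v ≤ 2 * y := Real.sqrt_le_iff.2 ⟨by linarith, by nlinarith⟩
  have h5 : w / y ≤ 2 * c ^ 17 := (div_le_iff₀ y0).2 (by nlinarith)
  have h6 : w ^ 2 / y ^ 3 ≤ w / y := by
    rw [div_le_div_iff₀ (by positivity) y0]
    nlinarith [mul_le_mul_of_nonneg_left (show w ≤ y ^ 2 by linarith) (mul_nonneg w0 y0.le)]
  have h7 : w / y * (w ^ 2 / y ^ 3) ≤ 2 * c ^ 17 := by
    rw [div_mul_div_comm, div_le_iff₀ (by positivity), show y * y ^ 3 = (y ^ 2) ^ 2 by ring, hy]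
    have h8 : v ^ 2 ≤ 2 * (v - w) ^ 2 := by nlinarith
    nlinarith [mul_le_mul_of_nonneg_left h8 (show 0 ≤ c ^ 17 by linarith)]
  have h8 : y ^ 2 ≤ t ^ 17 := by linarith [(hn o hoI).1, (hn o hoI).2.2]
  have t0 : 0 < t ^ 17 := by positivity
  refine ⟨⌈6 * 10 ^ 8 * (3 * c)⌉₊, by linarith [Nat.ceil_lt_add_one (show 0 ≤ 6 * 10 ^ 8 * (3 * c) by
    linarith)], bin (H := 384 * y ^ 2) (by positivity) (by linarith) ho
      (fun i hi => by linarith [(ho i hi).2, (hn i hi).1]) fun U hU h9 => ?_⟩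
  obtain ⟨J, k1, k2, k3, k4⟩ := narrow (n := n) (a := a) (U := U) (τ := 3 * c) y1 w0
    (by linarith) (by linarith) (by rw [mul_pow]; nlinarith)
    (fun i hi => ⟨by linarith [(hn i (hU hi)).2.2], by linarith [(hn i (hU hi)).2.1]⟩)
    (fun i hi => ⟨ha i (hU hi), pow_le_pow_left₀ (ho i (hU hi)).1.le (ho i (hU hi)).2.le 2⟩)
    (Nat.ceil_le.1 h9)
  exact ⟨J, k1, k2, k3, k4.trans (pow_le_pow_left₀ (by positivity) (by linarith) 2)⟩

omit [Fintype ι] in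
theorem windows {κ : Type} [DecidableEq κ] (β : ι → κ) (c : κ → ℝ) (T : Finset κ)
    (hT : ∀ v ∈ T, ∃ k : ℕ, (k : ℝ) ≤ c v ∧ Spl n a h k (I.filter fun i => β i = v)) :
    ∃ k : ℕ, (k : ℝ) ≤ ∑ v ∈ T, c v ∧ Spl n a h k (I.filter fun i => β i ∈ T) := by
  induction T using Finset.induction_on with
  | empty => exact ⟨0, by simp, by simpa using spl_empty⟩
  | insert v T hv ih =>
    have e : (I.filter fun i => β i ∈ insert v T) =
        (I.filter fun i => β i = v) ∪ I.filter fun i => β i ∈ T := by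
      simp only [mem_insert, filter_or]
    obtain ⟨k, k1, k2⟩ := hT v (mem_insert_self _ _)
    obtain ⟨l, l1, l2⟩ := ih fun w hw => hT w (mem_insert_of_mem hw)
    rw [e, sum_insert hv]
    exact ⟨k + l, by push_cast; linarith,
      k2.union l2 (disjoint_filter.2 fun i _ h1 h2 => hv (h1 ▸ h2))⟩

end

theorem free {ι : Type} [Fintype ι] {K : Type} [Field K] [CharZero K] (p : ι → Fin 2 → K)
    (hp : AlgebraicIndependent ℚ (fun ij : ι × Fin 2 => p ij.1 ij.2)) {d M : ℕ} (m : ι → ℕ)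
    (o : ι) (T : Finset (ℕ × ℕ)) (c : ℕ × ℕ → ℝ) (hM : ∀ i, i ≠ o → m i ≤ M)
    (hc1 : ∀ t, 1 ≤ c t ∧ (t.2 : ℝ) / √t.1 ≤ c t ^ 17 ∧ (t.2 : ℝ) ^ 3 / t.1 ^ 2 ≤ c t ^ 17)
    (hT : ∀ i, i ≠ o → 0 < m i → ∃ t ∈ T, m i ≤ t.1 ∧ t.1 ≤ m i + t.2)
    (hS : 10 ^ 20 * M * (M * ∑ t ∈ T, c t + m o) + (m o : ℝ) ^ 2 ≤ ∑ i, (m i : ℝ) ^ 2)
    {f : MvPolynomial (Fin 2) K} (hf0 : f ≠ 0) (hfd : f.totalDegree ≤ d)
    (hf : ∀ i, Van (p i) (m i) f) : ∑ i, m i ^ 2 ≤ d ^ 2 := by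
  classical
  by_contra hc
  have hc' : (d : ℝ) ^ 2 + 1 ≤ ∑ i, (m i : ℝ) ^ 2 := by exact_mod_cast not_le.1 hc
  have he : Eff d fun i => (m i : ℤ) := eff_of_affine p hp hf0 (by exact_mod_cast hfd) hf
  have hod : (m o : ℝ) ≤ d := by exact_mod_cast he.le o
  have m0 : (0 : ℝ) ≤ m o := by positivity
  rw [← add_sum_erase _ _ (mem_univ o)] at hc' hS
  obtain ⟨o', ho1, ho2⟩ := exists_ne_zero_of_sum_ne_zero (s := univ.erase o)
    (f := fun i => (m i : ℝ) ^ 2) (by nlinarith)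
  have ho3 : 0 < m o' := Nat.pos_of_ne_zero fun h => ho2 (by simp [h])
  have M1 : (1 : ℝ) ≤ M := by exact_mod_cast ho3.trans_le (hM o' (ne_of_mem_erase ho1))
  obtain ⟨t, t1, e9⟩ : ∃ t : ℝ, 1 ≤ t ∧ t ^ 17 = M :=
    ⟨(M : ℝ) ^ ((17 : ℕ) : ℝ)⁻¹, Real.one_le_rpow M1 (by positivity),
      Real.rpow_inv_natCast_pow (by linarith) (by norm_num)⟩
  have N1 : 1 ≤ ∑ t ∈ T, c t := by
    obtain ⟨u, hu, -⟩ := hT o' (ne_of_mem_erase ho1) ho3
    exact (hc1 u).1.trans (single_le_sum (fun u _ => zero_le_one.trans (hc1 u).1) hu)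
  choose! β hβ using hT
  obtain ⟨ε, e0, e1, hε⟩ : ∃ ε : ℝ, 0 < ε ∧ ε < 1 ∧ (Fintype.card ι + 1) * ε = 1 / 2 :=
    ⟨1 / (2 * (Fintype.card ι + 1)), by positivity, (div_lt_one (by positivity)).2
      (by linarith [Nat.cast_nonneg (α := ℝ) (Fintype.card ι)]), by field_simp⟩
  set I := (univ.erase o).filter fun i => 0 < m i with hI
  have hm : ∀ i ∈ I, (1 : ℝ) ≤ m i := fun i hi => by exact_mod_cast (mem_filter.1 hi).2
  have hs : ∀ i ∈ I, √((m i : ℝ) ^ 2 - ε) ^ 2 = (m i : ℝ) ^ 2 - ε := fun i hi =>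
    Real.sq_sqrt (by nlinarith [hm i hi])
  have hn : ∀ i ∈ I, i ≠ o ∧ 0 < m i := fun i hi =>
    ⟨ne_of_mem_erase (mem_filter.1 hi).1, (mem_filter.1 hi).2⟩
  obtain ⟨k, hk, h1⟩ := windows (n := fun i => (m i : ℤ)) (a := fun i => √((m i : ℝ) ^ 2 - ε))
    (I := I) (h := 768 * t ^ 17) β (fun u => 3 * 10 ^ 12 * c u) T fun u _ =>
      window (v := u.1) (w := u.2) t1 (hc1 u).1 (hc1 u).2.1 (hc1 u).2.2
        (fun i hi => ⟨Real.sqrt_pos.2 (by nlinarith [hm i (mem_filter.1 hi).1]),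
          (Real.sqrt_lt' (by push_cast; linarith [hm i (mem_filter.1 hi).1])).2
            (by push_cast; linarith)⟩)
        (fun i hi => by rw [hs i (mem_filter.1 hi).1]; push_cast; linarith)
        (fun i _ j _ e => by rw [show m i = m j by exact_mod_cast e]) fun i hi => by
          obtain ⟨h3, rfl⟩ := mem_filter.1 hi
          have h4 := (hβ i (hn i h3).1 (hn i h3).2).2
          rw [e9]
          exact_mod_cast And.intro (hM i (hn i h3).1) h4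
  rw [filter_true_of_mem fun i hi => (hβ i (hn i hi).1 (hn i hi).2).1, e9] at h1
  rw [← mul_sum] at hk
  generalize ∑ t ∈ T, c t = N at *
  have h2 : ∑ i ∈ univ.erase o, (m i : ℝ) ^ 2 - 1 / 2 ≤ ∑ i ∈ I, √((m i : ℝ) ^ 2 - ε) ^ 2 := by
    have h3 : ∑ i ∈ univ.erase o, ((m i : ℝ) ^ 2 - ε) ≤ ∑ i ∈ I, √((m i : ℝ) ^ 2 - ε) ^ 2 := by
      rw [hI, sum_filter]
      refine sum_le_sum fun i _ => ?_
      split_ifs with h4
      · rw [Real.sq_sqrt']
        exact le_max_left _ _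
      · rw [show m i = 0 by omega]
        simpa using e0.le
    rw [sum_sub_distrib, sum_const, nsmul_eq_mul] at h3
    have h4 : ((univ.erase o).card : ℝ) ≤ Fintype.card ι := by exact_mod_cast card_le_univ _
    nlinarith
  have h3 := anti (Qh.corner (mem_univ o) (by positivity) (fun _ _ h => h) (Qh.ex_of_eff he univ))
    (filter_subset (fun i => 0 < m i) _)
  have h5 := mul_le_mul_of_nonneg_right (show 18 + 45 * (k : ℝ) ≤ 136 * 10 ^ 12 * N by linarith)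
    (sq_nonneg (768 * (M : ℝ)))
  have g3 : 1 ≤ (M : ℝ) ^ 2 := one_le_pow₀ M1
  have g2 : (M : ℝ) ^ 2 ≤ N * M ^ 2 := le_mul_of_one_le_left (by linarith) (by linarith)
  have g5 : 0 ≤ (M : ℝ) * m o := by positivity
  have A0 : 0 ≤ (m o : ℝ) ^ 2 + ∑ i ∈ I, √((m i : ℝ) ^ 2 - ε) ^ 2 := by positivity
  have r1 := Real.sq_sqrt A0
  have r2 : (d : ℝ) ≤ √((m o : ℝ) ^ 2 + ∑ i ∈ I, √((m i : ℝ) ^ 2 - ε) ^ 2) :=
    Real.le_sqrt_of_sq_le (by linarith)
  have r3 : m o + 100 * (768 * M) ≤ √((m o : ℝ) ^ 2 + ∑ i ∈ I, √((m i : ℝ) ^ 2 - ε) ^ 2) :=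
    Real.le_sqrt_of_sq_le (by linarith)
  generalize √((m o : ℝ) ^ 2 + ∑ i ∈ I, √((m i : ℝ) ^ 2 - ε) ^ 2) = R at r1 r2 r3
  refine strip_spl (H := R - m o) (T := m o) (by positivity) h1 (by linarith) m0 (by linarith)
    (by linarith) (h3.mono fun x l h6 => ?_)
  have h7 : (x : ℝ) + l ≤ d := by exact_mod_cast h6.1
  have h8 : (l : ℝ) + m o ≤ d := by exact_mod_cast h6.2
  exact ⟨by linarith, by linarith⟩

end Pool.Agent.P.MP_d3e5c7_ag.Sv
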