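import Pool.Agent.P.MP_d3e5c7_ag.NuB

/-! Coordinates at the node, and expansion in powers of a smooth cubic of the pencil. -/

set_option autoImplicit false

namespace Pool.Agent.P.MP_d3e5c7_ag.Tt

open MvPolynomial Nag Nu

section ring
variable {K : Type*} [CommRing K]

/-- the ideal of the origin -/
noncomputable def mo (K : Type*) [CommRing K] : Ideal (MvPolynomial (Fin 2) K) :=
  Ideal.span {X 0, X 1}

theorem mo_split {N : ℕ} {e : MvPolynomial (Fin 2) K} (h : e ∈ mo K ^ (N + 1)) :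
    ∃ a ∈ mo K ^ N, ∃ b ∈ mo K ^ N, e = X 0 * a + X 1 * b := by
  rw [pow_succ'] at h
  nth_rewrite 1 [mo] at h
  rw [Ideal.span_insert, Ideal.sup_mul, Submodule.mem_sup] at h
  obtain ⟨y, hy, z, hz, rfl⟩ := h
  obtain ⟨a, ha, rfl⟩ := Ideal.mem_span_singleton_mul.1 hy
  obtain ⟨b, hb, rfl⟩ := Ideal.mem_span_singleton_mul.1 hz
  exact ⟨a, ha, b, hb, rfl⟩

theorem X_mul_mem {N : ℕ} {e : MvPolynomial (Fin 2) K} (k : Fin 2) (h : e ∈ mo K ^ N) :
    X k * e ∈ mo K ^ (N + 1) := by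
  rw [pow_succ']
  refine Ideal.mul_mem_mul (Ideal.subset_span ?_) h
  fin_cases k <;> simp

theorem sub_mem (J : Ideal (MvPolynomial (Fin 2) K)) (s : Fin 2 → MvPolynomial (Fin 2) K)
    (hs : ∀ k, s k - X k ∈ J) (p : MvPolynomial (Fin 2) K) : aeval s p - p ∈ J := by
  induction p using MvPolynomial.induction_on with
  | C a => simp
  | add p q hp hq =>
    rw [map_add, add_sub_add_comm]
    exact J.add_mem hp hq
  | mul_X p i hp =>
    rw [map_mul, aeval_X,
      show aeval s p * s i - p * X i = (aeval s p - p) * s i + p * (s i - X i) by ring]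
    exact J.add_mem (J.mul_mem_right _ hp) (J.mul_mem_left _ (hs i))

theorem newton (N : ℕ) : ∃ (ψ : Fin 2 → MvPolynomial (Fin 2) K) (e : MvPolynomial (Fin 2) K),
    e ∈ mo K ^ (N + 1) ∧ aeval ψ (cub K) = X 0 * X 1 * (1 + e) ∧
      (∀ f : MvPolynomial (Fin 2) K, (aeval ![Polynomial.X, 0] (aeval ψ f) : Polynomial K) = aeval (gam K) f) ∧
      ∀ f : MvPolynomial (Fin 2) K, (aeval ![0, Polynomial.X] (aeval ψ f) : Polynomial K) =
        Polynomial.taylor 1 (aeval (gam K) f) := by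
  induction N with
  | zero =>
    refine ⟨phi K, uu K - 1, ?_, by rw [phi_cub]; ring, r0_phi, r1_phi⟩
    rw [uu, add_assoc, add_sub_cancel_left]
    exact Ideal.add_mem _ (X_mul_mem 1 (by simp)) (X_mul_mem 0 (by simp))
  | succ N ih =>
    obtain ⟨ψ, e, h1, h2, h3, h4⟩ := ih
    obtain ⟨a, ha, b, hb, rfl⟩ := mo_split h1
    let s : Fin 2 → MvPolynomial (Fin 2) K := ![X 0 * (1 - X 1 * b), X 1 * (1 - X 0 * a)]
    have c : ∀ f : MvPolynomial (Fin 2) K, aeval (fun k => aeval s (ψ k)) f = aeval s (aeval ψ f) := fun f => by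
      rw [← comp_aeval]
      rfl
    have p1 := X_mul_mem 0 ha
    have p2 := X_mul_mem 1 hb
    have p3 := sub_mem (mo K ^ (N + 1 + 1)) s (fun k => by
      fin_cases k
      · simpa [s, mul_sub] using X_mul_mem 0 p2
      · simpa [s, mul_sub] using X_mul_mem 1 p1) (X 0 * a + X 1 * b)
    have p4 : ∀ x ∈ mo K ^ (N + 1), ∀ y ∈ mo K ^ (N + 1), x * y ∈ mo K ^ (N + 1 + 1) :=
      fun x hx y hy => by
        have := Ideal.mul_mem_mul hx hy
        rw [← pow_add] at this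
        exact Ideal.pow_le_pow_right (by omega) this
    refine ⟨fun k => aeval s (ψ k), (1 - X 1 * b) * (1 - X 0 * a) *
      (1 + aeval s (X 0 * a + X 1 * b)) - 1, ?_, ?_, fun f => ?_, fun f => ?_⟩
    · generalize aeval s (X 0 * a + X 1 * b) = z at p3
      generalize X 0 * a = p at *
      generalize X 1 * b = q at *
      rw [show (1 - q) * (1 - p) * (1 + z) - 1 = (z - (p + q)) * ((1 - q) * (1 - p)) +
        p * q * (1 + p + q) - (p + q) * (p + q) by ring]
      exact Ideal.sub_mem _ (Ideal.add_mem _ (Ideal.mul_mem_right _ _ p3)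
        (Ideal.mul_mem_right _ _ (p4 _ p1 _ p2))) (p4 _ h1 _ h1)
    · rw [c, h2, map_mul, map_mul, map_add, map_one, aeval_X, aeval_X]
      simp only [s, Matrix.cons_val_zero, Matrix.cons_val_one]
      ring
    · rw [c, ← h3 f]
      have : (aeval ![Polynomial.X, 0] : _ →ₐ[K] Polynomial K).comp (aeval s) =
          aeval ![Polynomial.X, 0] := by
        ext k : 1
        fin_cases k <;> simp [s]
      exact congrArg (fun φ : MvPolynomial (Fin 2) K →ₐ[K] _ => φ (aeval ψ f)) this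
    · rw [c, ← h4 f]
      have : (aeval ![0, Polynomial.X] : _ →ₐ[K] Polynomial K).comp (aeval s) =
          aeval ![0, Polynomial.X] := by
        ext k : 1
        fin_cases k <;> simp [s]
      exact congrArg (fun φ : MvPolynomial (Fin 2) K →ₐ[K] _ => φ (aeval ψ f)) this

/-- expansion in powers of `cub - t` with bounds on the weights -/
def Gd (t : K) (s B D : ℝ) (f : MvPolynomial (Fin 2) K) : Prop :=
  ∃ Q : Polynomial (MvPolynomial (Fin 2) K), f = Q.eval (cub K - C t) ∧ ∀ j : ℕ,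
    ∀ α ∈ (Q.coeff j).support, α 1 ≤ 1 ∧ α 0 + s * α 1 + 2 * s * j ≤ B ∧ 2 * (j : ℝ) ≤ D

variable {t : K} {s B D B' D' : ℝ} {f g : MvPolynomial (Fin 2) K}

theorem Gd.mono (h : Gd t s B D f) (h1 : B ≤ B') (h2 : D ≤ D') : Gd t s B' D' f :=
  h.imp fun _ h => ⟨h.1, fun j α hα =>
    ⟨(h.2 j α hα).1, (h.2 j α hα).2.1.trans h1, (h.2 j α hα).2.2.trans h2⟩⟩

theorem Gd.add (h : Gd t s B D f) (h' : Gd t s B D g) : Gd t s B D (f + g) := by
  classical
  obtain ⟨Q, rfl, h1⟩ := h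
  obtain ⟨Q', rfl, h2⟩ := h'
  refine ⟨Q + Q', by simp, fun j α hα => ?_⟩
  rw [Polynomial.coeff_add] at hα
  exact (Finset.mem_union.1 (support_add hα)).elim (h1 j α) (h2 j α)

theorem Gd.smul (c : K) (h : Gd t s B D f) : Gd t s B D (C c * f) := by
  obtain ⟨Q, rfl, h1⟩ := h
  refine ⟨Polynomial.C (C c) * Q, by simp, fun j α hα => h1 j α ?_⟩
  rw [Polynomial.coeff_C_mul, mem_support_iff, coeff_C_mul] at hα
  exact mem_support_iff.2 (right_ne_zero_of_mul hα)

theorem Gd.up (h : Gd t s B D f) : Gd t s (B + 2 * s) (D + 2) ((cub K - C t) * f) := by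
  obtain ⟨Q, rfl, h1⟩ := h
  refine ⟨Polynomial.X * Q, by simp, fun j α hα => ?_⟩
  rcases j with _ | j
  · simp at hα
  · rw [Polynomial.coeff_X_mul] at hα
    obtain ⟨h2, h3, h4⟩ := h1 j α hα
    push_cast
    exact ⟨h2, by linarith, by linarith⟩

theorem gd_low (a : ℕ) {b : ℕ} (hb : b ≤ 1) : Gd t s (a + s * b) b (X 0 ^ a * X 1 ^ b) := by
  refine ⟨Polynomial.C (X 0 ^ a * X 1 ^ b), by simp, fun j α hα => ?_⟩
  rw [Polynomial.coeff_C] at hα
  split_ifs at hα with h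
  · rw [show (X 0 ^ a * X 1 ^ b : MvPolynomial (Fin 2) K) = monomial (ex a b) 1 by simp [mono2]]
      at hα
    rw [Finset.mem_singleton.1 (support_monomial_subset hα), h]
    simp [hb]
  · simp at hα

theorem gd_mono (hs : 3 / 2 ≤ s) (b : ℕ) : ∀ a : ℕ, Gd t s (a + s * b) b (X 0 ^ a * X 1 ^ b) := by
  induction b using Nat.twoStepInduction with
  | zero => exact fun a => gd_low a (by omega)
  | one => exact fun a => gd_low a le_rfl
  | more b h0 h1 =>
    intro a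
    rw [show (X 0 ^ a * X 1 ^ (b + 2) : MvPolynomial (Fin 2) K) =
      (cub K - C t) * (X 0 ^ a * X 1 ^ b) + X 0 ^ (a + 1) * X 1 ^ (b + 1) +
        X 0 ^ (a + 3) * X 1 ^ b + C t * (X 0 ^ a * X 1 ^ b) by rw [cub]; ring]
    refine ((((h0 a).up.mono ?_ ?_).add ((h1 _).mono ?_ ?_)).add ((h0 _).mono ?_ ?_)).add
      (((h0 a).mono ?_ ?_).smul t) <;> push_cast <;> linarith

theorem gd (hs : 3 / 2 ≤ s) (h : ∀ α ∈ f.support, (α 1 : ℝ) ≤ D ∧ α 0 + s * α 1 ≤ B) :
    Gd t s B D f := by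
  rw [f.as_sum]
  refine Finset.sum_induction _ _ (fun _ _ => Gd.add) ⟨0, by simp, by simp⟩ fun α hα => ?_
  rw [mono2]
  exact ((gd_mono hs _ _).mono (h α hα).2 (h α hα).1).smul _

end ring

variable {K : Type*} [Field K]

theorem orders {ψ : Fin 2 → MvPolynomial (Fin 2) K}
    (h0 : ∀ f : MvPolynomial (Fin 2) K, (aeval ![Polynomial.X, 0] (aeval ψ f) : Polynomial K) = aeval (gam K) f)
    (h1 : ∀ f : MvPolynomial (Fin 2) K, (aeval ![0, Polynomial.X] (aeval ψ f) : Polynomial K) =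
      Polynomial.taylor 1 (aeval (gam K) f)) {g : MvPolynomial (Fin 2) K} (hg : g ≠ 0)
    (hd : ∀ α ∈ g.support, α 1 ≤ 1) : ∃ u v : ℕ, (∃ β ∈ g.support, u + v ≤ 2 * β 0 + 3 * β 1) ∧
      coeff (ex u 0) (aeval ψ g) ≠ 0 ∧ coeff (ex 0 v) (aeval ψ g) ≠ 0 := by
  have hγ : aeval (gam K) g ≠ 0 := fun h => by
    obtain ⟨q, rfl⟩ := cub_dvd h
    obtain ⟨β, hβ⟩ := support_nonempty.2 (right_ne_zero_of_mul hg)
    obtain ⟨γ, h2, h3⟩ := wt_mul (w := ![0, 1]) (by simp) mem_cub1 hβ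
    have h4 : (γ 1 : ℝ) ≤ 1 := by exact_mod_cast hd γ h2
    simp [wt] at h3
    linarith [Nat.cast_nonneg (α := ℝ) (β 1)]
  have hγ' : Polynomial.taylor 1 (aeval (gam K) g) ≠ 0 := by
    rwa [Ne, Polynomial.taylor_eq_zero]
  refine ⟨(aeval (gam K) g).natTrailingDegree,
    (Polynomial.taylor 1 (aeval (gam K) g)).natTrailingDegree, ?_, ?_, ?_⟩
  · obtain ⟨β, hβ, h2⟩ := natDegree_gam hg
    exact ⟨β, hβ, (two_orders hγ _
      fun a ha => Polynomial.coeff_eq_zero_of_lt_natTrailingDegree ha).trans h2⟩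
  · rw [← coeff_r0, h0]
    exact Polynomial.trailingCoeff_nonzero_iff_nonzero.2 hγ
  · rw [← coeff_r1, h1]
    exact Polynomial.trailingCoeff_nonzero_iff_nonzero.2 hγ'

theorem relab (g : MvPolynomial (Fin 2) K) : ∃ (M : ℕ) (g' : MvPolynomial (Fin 2) K),
    aeval ![X 0, X 0 * X 1] g' = X 0 ^ M * g := by
  refine ⟨g.totalDegree,
    ∑ α ∈ g.support, monomial (ex (g.totalDegree + α 0 - α 1) (α 1)) (coeff α g), ?_⟩
  generalize hM : g.totalDegree = M
  conv_rhs => rw [g.as_sum, Finset.mul_sum]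
  rw [map_sum]
  refine Finset.sum_congr rfl fun α hα => ?_
  have h1 : α.degree ≤ g.totalDegree := le_totalDegree hα
  rw [← ex_eta α, degree_ex] at h1
  obtain ⟨e, he⟩ := Nat.exists_eq_add_of_le (show α 1 ≤ M + α 0 by omega)
  have h2 : (X 0 : MvPolynomial (Fin 2) K) ^ M * X 0 ^ α 0 = X 0 ^ α 1 * X 0 ^ e := by
    rw [← pow_add, he, pow_add]
  rw [mono2, mono2, ex_zero, ex_one, he, Nat.add_sub_cancel_left]
  simp only [map_mul, map_pow, aeval_C, aeval_X, algebraMap_eq, Matrix.cons_val_zero,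
    Matrix.cons_val_one, mul_pow]
  linear_combination (-C (coeff α g) * X 1 ^ α 1) * h2

theorem van_blow {x y : K} {n : ℤ} (hx : x ≠ 0) {g : MvPolynomial (Fin 2) K}
    (hv : Van ![x, y] n (aeval ![X 0, X 0 * X 1] g)) : Van ![x, x * y] n g := by
  set q : Fin 2 → K := ![x, x * y]
  set N : MvPolynomial (Fin 2) K := 1 - C x⁻¹ * X 0 with hN
  set u : MvPolynomial (Fin 2) K := C x⁻¹ * ∑ i ∈ Finset.range (n.toNat + 1), N ^ i with hu
  have hN0 : eval q N = 0 := by simp [hN, q, hx]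
  have h1 : X 0 * u = 1 - N ^ (n.toNat + 1) := by
    rw [← mul_neg_geom_sum, hu, hN]; ring
  have h2 : eval q u = x⁻¹ := by
    simp [hu, hN0]
  have h3 : Van q n (aeval ![X 0, u * X 1]
      (aeval ![X 0, X 0 * X 1] g : MvPolynomial (Fin 2) K)) := by
    apply Van.comp
    convert hv using 2 with k
    fin_cases k
    · simp [q]
    · simp [q, h2, hx]
  rw [van_iff, ← Ideal.Quotient.eq_zero_iff_mem] at h3
  rw [van_iff, ← Ideal.Quotient.eq_zero_iff_mem, ← h3]
  have h4 : Ideal.Quotient.mk (mI q ^ n.toNat) (X 0 * u) = 1 := by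
    rw [h1, map_sub, map_one, sub_eq_self, Ideal.Quotient.eq_zero_iff_mem, pow_succ]
    exact Ideal.mul_mem_right _ _ (Ideal.pow_mem_pow (show N ∈ mI q from hN0) _)
  have h5 : (Ideal.Quotient.mkₐ K (mI q ^ n.toNat)) =
      (Ideal.Quotient.mkₐ K (mI q ^ n.toNat)).comp
        ((aeval ![X 0, u * X 1]).comp (aeval ![X 0, X 0 * X 1])) := by
    ext k : 1
    fin_cases k
    · simp
    · simp only [Fin.mk_one, Fin.isValue, Ideal.Quotient.mkₐ_eq_mk, AlgHom.comp_apply, aeval_X,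
        Matrix.cons_val_one, Matrix.cons_val_zero, map_mul]
      rw [← mul_assoc, ← map_mul, h4, one_mul]
  exact congrArg (fun φ : MvPolynomial (Fin 2) K →ₐ[K] _ => φ g) h5

end Pool.Agent.P.MP_d3e5c7_ag.Tt
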