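import Pool.Agent.P.MP_d3e5c7_ag.TtC
import Pool.Agent.P.MP_d3e5c7_ag.ScE

/-! Blocks of 192 cells. -/

set_option autoImplicit false

namespace Pool.Agent.P.MP_d3e5c7_ag.Tt

open MvPolynomial Nag Nu Sc Finset

/-- the first empty cell -/
theorem first {m : Fin 9 → ℤ} {h : ℕ} {w : ℝ} (hh : 0 < h) (hw : 50 * (w + 3) ^ 2 ≤ h)
    (hg : |(∑ i, (m i : ℝ) ^ 2) / h + 2 * h - ∑ i, (m i : ℝ)| ≤ w) :
    ∃ C : ℤ, (¬ Ex m univ fun x j => j ≤ h ∧ (x : ℤ) + j < C) ∧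
      ∑ i, (m i : ℝ) ^ 2 ≤ h * (2 * C - h) + h / 50 := by
  have h0 : (0 : ℝ) < h := by exact_mod_cast hh
  obtain ⟨z, hz⟩ : ∃ z, ∑ i, (m i : ℝ) ^ 2 = h * z := ⟨(∑ i, (m i : ℝ) ^ 2) / h, by field_simp⟩
  rw [hz, mul_div_cancel_left₀ _ h0.ne', abs_le] at hg
  have h1 := Int.le_ceil ((z + h - 1 / 50) / 2)
  have h2 := Int.ceil_lt_add_one ((z + h - 1 / 50) / 2)
  refine ⟨⌈(z + h - 1 / 50) / 2⌉, fun hx => ?_, by rw [hz]; nlinarith⟩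
  generalize ⌈(z + h - 1 / 50) / 2⌉ = C at *
  obtain ⟨c, rfl⟩ : ∃ c : ℕ, C = c + 1 := by
    obtain ⟨f, f0, fs, -⟩ := hx ℚ 0
    obtain ⟨α, hα⟩ := support_nonempty.2 f0
    exact ⟨(C - 1).toNat, by have := (fs α hα).2; omega⟩
  have h3 : ∑ i, (m i : ℝ) ^ 2 ≤ h * (2 * c - h : ℝ) + (2 * c + h - ∑ i, (m i : ℝ)) ^ 2 := by
    exact_mod_cast cell (hx.mono fun x j h3 => ⟨h3.1, by omega⟩)
  push_cast at h1 h2
  have h4 : (2 * c + h - ∑ i, (m i : ℝ)) ^ 2 ≤ (w + 3) ^ 2 :=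
    sq_le_sq' (by linarith) (by linarith)
  rw [hz] at h3
  nlinarith

theorem block {κ : Type} [Fintype κ] [DecidableEq κ] (hκ : Fintype.card κ = 192)
    (hT : Tate (κ × Fin 9)) {m : κ × Fin 9 → ℤ} {h : ℕ} {w A : ℝ} (hh : 0 < h)
    (hw : 50 * (w + 3) ^ 2 ≤ h)
    (hg : ∀ g, |(∑ i, (m (g, i) : ℝ) ^ 2) / h + 2 * h - ∑ i, (m (g, i) : ℝ)| ≤ w)
    (h1 : 24 * (h + 1 / 2 : ℝ) ^ 2 ≤ A) (h2 : A ≤ 200 * (h + 1 / 2 : ℝ) ^ 2)
    (h3 : A ≤ ∑ i, (m i : ℝ) ^ 2) :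
    ¬ Ex m univ (E (4 * (h + 1 / 2)) (A / (4 * (h + 1 / 2)))) := by
  intro hx
  have h0 : (0 : ℝ) < h := by exact_mod_cast hh
  choose C h4 h5 using fun g => first (m := fun i => m (g, i)) hh hw (hg g)
  have h6 := strip (by positivity) h1 hx
  obtain ⟨ρ, hρ⟩ : ∃ ρ, A = ρ * (4 * (h + 1 / 2 : ℝ) ^ 2) :=
    ⟨A / (4 * (h + 1 / 2 : ℝ) ^ 2), by field_simp⟩
  have H2 : 0 < (h + 1 / 2 : ℝ) ^ 2 := by positivity
  have ρ1 : 6 ≤ ρ := by nlinarith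
  have ρ2 : ρ ≤ 50 := by nlinarith
  rw [show A / (4 * (h + 1 / 2 : ℝ) ^ 2) = ρ by rw [hρ]; field_simp] at h6
  have h7 := slope hT (r := 192) (by linarith) (by linarith) h6
  refine cells (n := m) (h := h) (fun g => univ.image fun i => (g, i)) C univ (fun a _ b _ hab => ?_)
    (fun g _ h8 => h4 g (comp (e := fun i => (g, i)) (fun a b hab => by simpa using hab)
      (fun t _ => mem_image.2 ⟨t, mem_univ t, rfl⟩) h8))
    ((anti h7 (subset_univ _)).mono fun x j h8 => ⟨h8.1, ?_⟩)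
  · rw [disjoint_left]
    intro z h8 h9
    obtain ⟨t, -, rfl⟩ := mem_image.1 h8
    obtain ⟨t', -, h10⟩ := mem_image.1 h9
    exact hab (Prod.ext_iff.1 h10).1.symm
  · have h9 : A ≤ ∑ g, (h * (2 * C g - h) + h / 50 : ℝ) := by
      rw [Fintype.sum_prod_type] at h3
      exact h3.trans (sum_le_sum fun g _ => h5 g)
    rw [sum_add_distrib, ← mul_sum, sum_sub_distrib, ← mul_sum] at h9
    simp only [sum_const, card_univ, hκ, nsmul_eq_mul] at h9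
    have h10 : (x : ℝ) + 192 * j < ∑ g, (C g : ℝ) := by
      refine h8.2.trans_lt (lt_of_mul_lt_mul_left ?_ h0.le)
      push_cast at h9
      nlinarith
    rw [card_univ, hκ]
    exact_mod_cast h10

/-- the height of a block -/
theorem root {P Q v : ℝ} (hv : 1000 ≤ v) (h1 : 9 * v ≤ P) (h2 : P ^ 2 ≤ 9 * Q)
    (h3 : 9 * Q ≤ P ^ 2 + (9 * (v / 8)) ^ 2 / 4) :
    ∃ h : ℕ, |Q / h + 2 * h - P| ≤ 2 ∧ 33 / 100 * P ≤ h ∧ 3 * h ≤ P := by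
  have h4 : (41 / 125 * P) ^ 2 ≤ P ^ 2 - 8 * Q := by nlinarith
  obtain ⟨r, r0, hr⟩ : ∃ r, 0 ≤ r ∧ r ^ 2 = P ^ 2 - 8 * Q :=
    ⟨√(P ^ 2 - 8 * Q), Real.sqrt_nonneg _, Real.sq_sqrt ((sq_nonneg _).trans h4)⟩
  have r1 : 41 / 125 * P ≤ r := le_of_pow_le_pow_left₀ two_ne_zero r0 (by linarith)
  have r2 : r ≤ P / 3 := le_of_pow_le_pow_left₀ two_ne_zero (by linarith) (by linarith)
  have h5 := Nat.floor_le (show 0 ≤ (P + r) / 4 by linarith)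
  have h6 := Nat.lt_floor_add_one ((P + r) / 4)
  refine ⟨⌊(P + r) / 4⌋₊, ?_, by linarith, by linarith⟩
  generalize (⌊(P + r) / 4⌋₊ : ℝ) = h at *
  have h0 : 0 < h := by linarith
  obtain ⟨φ, rfl⟩ : ∃ φ, P = 4 * (h + φ) - r := ⟨(P + r) / 4 - h, by ring⟩
  have e : Q / h + 2 * h - (4 * (h + φ) - r) = φ * (2 * φ - r) / h := by
    field_simp
    nlinarith
  have φ0 : 0 ≤ φ := by linarith
  have φ1 : φ ≤ 1 := by linarith
  rw [e, abs_div, abs_of_pos h0, div_le_iff₀ h0, abs_le]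
  constructor <;> nlinarith

variable {ι : Type} [Fintype ι] [DecidableEq ι] {n : ι → ℤ} {a : ι → ℝ}

omit [Fintype ι] in
/-- many disjoint sets of nine elements with two equal sums -/
theorem tuples2 (b c : ι → ℕ) (U : Finset ι) {τ : ℝ} {B C : ℕ} (hτ : 0 < τ)
    (hb : ∀ i ∈ U, b i ≤ B) (hc : ∀ i ∈ U, c i ≤ C)
    (hq : ((9 * B + 1) * (9 * C + 1) : ℝ) ≤ τ ^ 9) (hP : 500000 * τ ≤ U.card) :
    ∃ x : (Fin 12 × Fin 16) × Fin 9 → ι, Function.Injective x ∧ (∀ i, x i ∈ U) ∧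
      ∃ s t : ℕ, ∀ g, ∑ j, b (x (g, j)) = s ∧ ∑ j, c (x (g, j)) = t := by
  have : NeZero ((9 * B + 1) * (9 * C + 1)) := ⟨by positivity⟩
  obtain ⟨x, h1, h2, s, h3⟩ := tuples (q := (9 * B + 1) * (9 * C + 1))
    (fun i => ((b i + (9 * B + 1) * c i : ℕ) : ZMod ((9 * B + 1) * (9 * C + 1)))) U hτ
    (by exact_mod_cast hq) hP
  refine ⟨x, h1, h2, s.val % (9 * B + 1), s.val / (9 * B + 1), fun g => ?_⟩
  have h4 : ∑ j, b (x (g, j)) ≤ 9 * B := by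
    simpa using sum_le_card_nsmul univ (fun j => b (x (g, j))) _ fun j _ => hb _ (h2 (g, j))
  have h5 : ∑ j, c (x (g, j)) ≤ 9 * C := by
    simpa using sum_le_card_nsmul univ (fun j => c (x (g, j))) _ fun j _ => hc _ (h2 (g, j))
  rw [← h3 g, ← Nat.cast_sum, sum_add_distrib, ← mul_sum, ZMod.val_cast_of_lt (by nlinarith),
    Nat.add_mul_mod_self_left, Nat.add_mul_div_left _ _ (by positivity),
    Nat.mod_eq_of_lt (by omega), Nat.div_eq_of_lt (by omega), zero_add]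
  exact ⟨rfl, rfl⟩

theorem near {f : Fin 9 → ℝ} {β : ℝ} {s : ℕ} (hβ : 0 < β) (hf : ∀ j, 0 ≤ f j)
    (hs : ∑ j, ⌊f j / β⌋₊ = s) : s * β ≤ ∑ j, f j ∧ ∑ j, f j ≤ s * β + 9 * β := by
  have h1 := sum_le_sum (s := univ) fun j (_ : j ∈ univ) =>
    (le_div_iff₀ hβ).1 (Nat.floor_le (div_nonneg (hf j) hβ.le))
  have h2 := sum_le_sum (s := univ) fun j (_ : j ∈ univ) =>
    (div_le_iff₀ hβ).1 (Nat.lt_floor_add_one (f j / β)).le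
  rw [← sum_mul, ← Nat.cast_sum, hs] at h1
  rw [← sum_mul, sum_add_distrib, ← Nat.cast_sum, hs] at h2
  norm_num at h2
  exact ⟨h1, by linarith⟩

theorem narrow (hT : Tate ((Fin 12 × Fin 16) × Fin 9)) {U : Finset ι} {y w τ : ℝ} (hy : 1000 ≤ y)
    (w0 : 0 ≤ w) (hw : w ≤ y ^ 2 / 8) (hτ : 0 < τ)
    (hq : (1800 * (w / y) + 1) * (1800 * (w ^ 2 / y ^ 3) + 1) ≤ τ ^ 9)
    (hn' : ∀ i ∈ U, y ^ 2 ≤ n i ∧ (n i : ℝ) ≤ y ^ 2 + w)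
    (ha : ∀ i ∈ U, (n i : ℝ) ^ 2 - 1 ≤ a i ^ 2 ∧ a i ^ 2 ≤ (n i : ℝ) ^ 2)
    (hU : 500000 * τ ≤ U.card) :
    ∃ J ⊆ U, J.Nonempty ∧ Fl n a (32 * y ^ 2) J ∧ ∑ i ∈ J, a i ^ 2 ≤ (64 * y ^ 2) ^ 2 := by
  have y0 : 0 < y := by linarith
  have y2 : 1000 * y ≤ y ^ 2 := by nlinarith
  have y3 : 0 < y ^ 3 := by positivity
  have hn : ∀ i ∈ U, y ^ 2 ≤ n i ∧ (n i : ℝ) ≤ 9 / 8 * y ^ 2 :=
    fun i hi => ⟨(hn' i hi).1, by linarith [(hn' i hi).2]⟩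
  obtain ⟨x, h1, h2, s1, s2, h3⟩ := tuples2 (fun i => ⌊(n i - y ^ 2) / (y / 200)⌋₊)
    (fun i => ⌊(n i - y ^ 2) ^ 2 / (y ^ 3 / 200)⌋₊) U (τ := τ) (B := ⌊200 * (w / y)⌋₊)
    (C := ⌊200 * (w ^ 2 / y ^ 3)⌋₊) hτ
    (fun i hi => Nat.floor_mono ((div_le_iff₀ (by linarith)).2 (by
      rw [show 200 * (w / y) * (y / 200) = w by field_simp]
      linarith [(hn' i hi).2])))
    (fun i hi => Nat.floor_mono ((div_le_iff₀ (by linarith)).2 (by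
      rw [show 200 * (w ^ 2 / y ^ 3) * (y ^ 3 / 200) = w ^ 2 by field_simp]
      exact pow_le_pow_left₀ (sub_nonneg.2 (hn i hi).1) (by linarith [(hn' i hi).2]) 2)))
    (by
      have h1 := Nat.floor_le (show 0 ≤ 200 * (w / y) by positivity)
      have h2 := Nat.floor_le (show 0 ≤ 200 * (w ^ 2 / y ^ 3) by positivity)
      exact (mul_le_mul (by linarith) (by linarith) (by positivity) (by positivity)).trans hq) hU
  have h4 := fun g => near (f := fun j => n (x (g, j)) - y ^ 2) (β := y / 200) (by linarith)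
    (fun j => sub_nonneg.2 (hn _ (h2 _)).1) (h3 g).1
  have h5 := fun g => near (f := fun j => (n (x (g, j)) - y ^ 2) ^ 2) (β := y ^ 3 / 200)
    (by linarith) (fun j => sq_nonneg _) (h3 g).2
  have e1 : ∀ g, ∑ j, (n (x (g, j)) : ℝ) = ∑ j, (n (x (g, j)) - y ^ 2 : ℝ) + 9 * y ^ 2 :=
    fun g => by simp [sum_sub_distrib]
  have e2 : ∀ g, ∑ j, (n (x (g, j)) : ℝ) ^ 2 = ∑ j, (n (x (g, j)) - y ^ 2 : ℝ) ^ 2 +
      2 * y ^ 2 * ∑ j, (n (x (g, j)) - y ^ 2 : ℝ) + 9 * y ^ 4 := fun g => by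
    rw [mul_sum, ← sum_add_distrib, show 9 * y ^ 4 = ∑ _j : Fin 9, y ^ 4 by simp,
      ← sum_add_distrib]
    exact sum_congr rfl fun j _ => by ring
  have p1 : 9 * y ^ 2 ≤ ∑ j, (n (x (0, j)) : ℝ) := by
    rw [e1]
    linarith [(h4 0).1, mul_nonneg s1.cast_nonneg (show 0 ≤ y / 200 by linarith)]
  have p2 : ∑ j, (n (x (0, j)) : ℝ) ≤ 9 * (9 / 8 * y ^ 2) := by
    simpa using sum_le_card_nsmul univ (fun j => (n (x (0, j)) : ℝ)) _ fun j _ => (hn _ (h2 _)).2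
  obtain ⟨h, h6, h7, h8⟩ := root (v := y ^ 2) (Q := ∑ j, (n (x (0, j)) : ℝ) ^ 2) (by linarith) p1
    (by simpa using sq_sum_le_card_mul_sum_sq (s := univ) (f := fun j => (n (x (0, j)) : ℝ)))
    (by
      simpa using sum_sq_le (fun j => (n (x (0, j)) : ℝ)) (lo := y ^ 2) (w := y ^ 2 / 8)
        fun j => ⟨(hn _ (h2 _)).1, by linarith [(hn _ (h2 (0, j))).2]⟩)
  have h0 : (0 : ℝ) < h := by linarith
  have h9 : ∀ g, |(∑ j, (n (x (g, j)) : ℝ) ^ 2) / h + 2 * h - ∑ j, (n (x (g, j)) : ℝ)| ≤ y / 10 ∧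
      ∑ j, (n (x (g, j)) : ℝ) ^ 2 ≤ 26 / 25 * h ^ 2 := fun g => by
    obtain ⟨z, hz⟩ : ∃ z, ∑ j, (n (x (g, j)) : ℝ) ^ 2 = ∑ j, (n (x (0, j)) : ℝ) ^ 2 + h * z :=
      ⟨(∑ j, (n (x (g, j)) : ℝ) ^ 2 - ∑ j, (n (x (0, j)) : ℝ) ^ 2) / h, by field_simp; ring⟩
    have k1 : |∑ j, (n (x (g, j)) : ℝ) - ∑ j, (n (x (0, j)) : ℝ)| ≤ 9 * (y / 200) := by
      rw [e1, e1, abs_le]
      constructor <;> linarith [(h4 g).1, (h4 g).2, (h4 0).1, (h4 0).2]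
    have k2 : |h * z| ≤ 27 * (y ^ 3 / 200) := by
      rw [e2, e2] at hz
      have y4 : 0 ≤ 2 * y ^ 2 := by positivity
      have k3 := mul_le_mul_of_nonneg_left ((h4 g).2.trans (add_le_add_left (h4 0).1 _)) y4
      have k4 := mul_le_mul_of_nonneg_left ((h4 0).2.trans (add_le_add_left (h4 g).1 _)) y4
      rw [abs_le]
      constructor <;> linarith [(h5 g).1, (h5 g).2, (h5 0).1, (h5 0).2]
    have k3 : |z| ≤ y / 20 := by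
      rw [abs_mul, abs_of_pos h0] at k2
      by_contra k4
      nlinarith [mul_le_mul (show 29 / 10 * y ^ 2 ≤ h by linarith) (not_le.1 k4).le
        (by linarith) h0.le]
    obtain ⟨u, hu⟩ : ∃ u, ∑ j, (n (x (0, j)) : ℝ) ^ 2 = h * u :=
      ⟨(∑ j, (n (x (0, j)) : ℝ) ^ 2) / h, by field_simp⟩
    rw [hu, mul_div_cancel_left₀ _ h0.ne', abs_le] at h6
    rw [hz, hu, ← mul_add, mul_div_cancel_left₀ _ h0.ne', abs_le]
    rw [abs_le] at k1 k3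
    refine ⟨⟨by linarith, by linarith⟩, ?_⟩
    have k4 : u + z ≤ 26 / 25 * h := by linarith
    nlinarith
  obtain ⟨J, e, hJU, hJ⟩ := exists_image (a := a) h1 h2
  have a1 : 1728 * ((y ^ 2) ^ 2 - 1) ≤ ∑ i, a (x i) ^ 2 := by
    have := card_nsmul_le_sum univ (fun i => a (x i) ^ 2) ((y ^ 2) ^ 2 - 1) fun i _ => by
      nlinarith [(ha _ (h2 i)).1, (hn _ (h2 i)).1]
    simpa using this
  have a2 : ∑ i, a (x i) ^ 2 ≤ ∑ i, (n (x i) : ℝ) ^ 2 := sum_le_sum fun i _ => (ha _ (h2 i)).2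
  have a3 : ∑ i, (n (x i) : ℝ) ^ 2 ≤ 192 * (26 / 25 * h ^ 2) := by
    rw [Fintype.sum_prod_type]
    simpa using sum_le_card_nsmul univ _ _ fun g _ => (h9 g).2
  rw [← e] at a1 a2
  have a4 : (h + 1 / 2 : ℝ) ≤ 4 * y ^ 2 := by linarith
  have a5 := pow_le_pow_left₀ (by linarith) a4 2
  refine ⟨J, hJU, ⟨_, hJ 0⟩, Fl.up (m := 4 * (h + 1 / 2)) (by linarith) (by linarith)
    (by nlinarith) fun hx => ?_, by nlinarith⟩
  exact block (by simp) hT (m := fun i => n (x i)) (w := y / 10) (by exact_mod_cast h0)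
    (by nlinarith) (fun g => (h9 g).1) (by nlinarith) (by nlinarith) a2
    (comp h1 (fun i _ => hJ i) hx)

theorem wide (hT : Tate ((Fin 12 × Fin 16) × Fin 9)) {U : Finset ι} {y t : ℝ} (hy : 1000 ≤ y)
    (ht : 1 ≤ t) (hyt : y ^ 2 ≤ t ^ 9) (hn : ∀ i ∈ U, y ^ 2 ≤ n i ∧ (n i : ℝ) ≤ 9 / 8 * y ^ 2)
    (ha : ∀ i ∈ U, (n i : ℝ) ^ 2 - 1 ≤ a i ^ 2 ∧ a i ^ 2 ≤ (n i : ℝ) ^ 2)
    (hU : 1500000 * t ≤ U.card) :
    ∃ J ⊆ U, J.Nonempty ∧ Fl n a (32 * y ^ 2) J ∧ ∑ i ∈ J, a i ^ 2 ≤ (64 * y ^ 2) ^ 2 := by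
  have y0 : 0 < y := by linarith
  refine narrow hT (w := y ^ 2 / 8) (τ := 3 * t) hy (by positivity) le_rfl (by linarith) ?_
    (fun i hi => ⟨(hn i hi).1, by linarith [(hn i hi).2]⟩) ha (by linarith)
  rw [show y ^ 2 / 8 / y = y / 8 by field_simp,
    show (y ^ 2 / 8) ^ 2 / y ^ 3 = y / 64 by field_simp; norm_num]
  nlinarith

end Pool.Agent.P.MP_d3e5c7_ag.Tt
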