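import Pool.Agent.P.MP_d3e5c7_ag.TtB
import Pool.Agent.P.MP_d3e5c7_ag.TtD
import Pool.Agent.P.MP_d3e5c7_ag.TtE
import Pool.Agent.P.MP_d3e5c7_ag.ScS
import Pool.Agent.P.MP_d3e5c7_ag.QhD

/-! Multiplicities in windows, one of them free. -/

set_option autoImplicit false

namespace Pool.Agent.P.MP_d3e5c7_ag.Tt

open MvPolynomial Nag Nu Sc Finset

theorem tate' (ι : Type) [Fintype ι] [DecidableEq ι] : Tate ι :=
  fun _ _ _ _ _ _ hs θ0 θ1 hx => (tate hs θ0 θ1 hx).elim fun M hM => ⟨M, hM⟩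

theorem wide' (ι : Type) [Fintype ι] [DecidableEq ι] : Wide ι :=
  fun _ _ _ _ _ hy ht hyt hn ha hU => wide (tate' _) hy ht hyt hn ha hU

section
variable {ι : Type} [Fintype ι] [DecidableEq ι] {n : ι → ℤ} {a : ι → ℝ} {I : Finset ι}

/-- one window -/
theorem window {v w c t : ℝ} (t1 : 1 ≤ t) (c1 : 1 ≤ c) (h1 : w / √v ≤ c ^ 9)
    (h2 : w ^ 3 / v ^ 2 ≤ c ^ 9) (ho : Ok n a I) (ha : ∀ i ∈ I, (n i : ℝ) ^ 2 - 1 ≤ a i ^ 2)
    (he : ∀ i ∈ I, ∀ j ∈ I, n i = n j → a i = a j)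
    (hn : ∀ i ∈ I, (n i : ℝ) ≤ t ^ 9 ∧ (n i : ℝ) ≤ v ∧ v ≤ n i + w) :
    ∃ k : ℕ, (k : ℝ) ≤ 6 * 10 ^ 9 * c ∧ Spl n a (64 * t ^ 9) k I := by
  have c9 : 1 ≤ c ^ 9 := one_le_pow₀ c1
  rcases le_total v ((6 * c) ^ 9) with hv | hv
  · obtain ⟨k, k1, k2⟩ := spl_wide (T := min (6 * c) t) (h := 64 * t ^ 9) (wide' ι)
      (le_min (by linarith) t1) (mul_le_mul_of_nonneg_left (pow_le_pow_left₀
        (le_min (by linarith) (by linarith)) (min_le_right _ _) 9) (by norm_num)) ho ha he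
      fun i hi => by
        rcases min_choice (6 * c) t with e | e <;> rw [e]
        · exact (hn i hi).2.1.trans hv
        · exact (hn i hi).1
    exact ⟨k, by linarith [min_le_left (6 * c) t], k2⟩
  rcases I.eq_empty_or_nonempty with rfl | ⟨o, hoI⟩
  · exact ⟨0, by push_cast; linarith, spl_empty⟩
  have w0 : 0 ≤ w := by linarith [(hn o hoI).2.1, (hn o hoI).2.2]
  rw [mul_pow] at hv
  have v0 : 0 < v := by linarith
  rw [div_le_iff₀ (by positivity)] at h1 h2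
  have h3 : 9 * w ≤ v := by
    by_contra h4
    have h5 := pow_le_pow_left₀ v0.le (not_le.1 h4).le 3
    nlinarith [mul_le_mul_of_nonneg_right hv (sq_nonneg v), sq_pos_of_pos v0]
  obtain ⟨y, y1, hy⟩ : ∃ y, 1000 ≤ y ∧ y ^ 2 = v - w :=
    ⟨√(v - w), Real.le_sqrt_of_sq_le (by linarith), Real.sq_sqrt (by linarith)⟩
  have y0 : 0 < y := by linarith
  have h4 : √v ≤ 2 * y := Real.sqrt_le_iff.2 ⟨by linarith, by nlinarith⟩
  have h5 : w / y ≤ 2 * c ^ 9 := (div_le_iff₀ y0).2 (by nlinarith)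
  have h6 : w ^ 2 / y ^ 3 ≤ w / y := by
    rw [div_le_div_iff₀ (by positivity) y0]
    nlinarith [mul_le_mul_of_nonneg_left (show w ≤ y ^ 2 by linarith) (mul_nonneg w0 y0.le)]
  have h7 : w / y * (w ^ 2 / y ^ 3) ≤ 2 * c ^ 9 := by
    rw [div_mul_div_comm, div_le_iff₀ (by positivity), show y * y ^ 3 = (y ^ 2) ^ 2 by ring, hy]
    have h8 : v ^ 2 ≤ 2 * (v - w) ^ 2 := by nlinarith
    nlinarith [mul_le_mul_of_nonneg_left h8 (show 0 ≤ c ^ 9 by linarith)]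
  have h8 : y ^ 2 ≤ t ^ 9 := by linarith [(hn o hoI).1, (hn o hoI).2.2]
  have t0 : 0 < t ^ 9 := by positivity
  refine ⟨⌈500000 * (6 * c)⌉₊, by linarith [Nat.ceil_lt_add_one (show 0 ≤ 500000 * (6 * c) by
    linarith)], bin (H := 32 * y ^ 2) (by positivity) (by linarith) ho
      (fun i hi => by linarith [(ho i hi).2, (hn i hi).1]) fun U hU h9 => ?_⟩
  obtain ⟨J, k1, k2, k3, k4⟩ := narrow (tate' _) (n := n) (a := a) (U := U) (τ := 6 * c) y1 w0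
    (by linarith) (by linarith) (by rw [mul_pow]; nlinarith)
    (fun i hi => ⟨by linarith [(hn i (hU hi)).2.2], by linarith [(hn i (hU hi)).2.1]⟩)
    (fun i hi => ⟨ha i (hU hi), pow_le_pow_left₀ (ho i (hU hi)).1.le (ho i (hU hi)).2.le 2⟩)
    (Nat.ceil_le.1 h9)
  exact ⟨J, k1, k2, k3, k4.trans (pow_le_pow_left₀ (by positivity) (by linarith) 2)⟩

omit [Fintype ι] in
theorem windows {κ : Type} [DecidableEq κ] {h : ℝ} (β : ι → κ) (c : κ → ℝ) (T : Finset κ)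
    (hT : ∀ v ∈ T, ∃ k : ℕ, (k : ℝ) ≤ c v ∧ Spl n a h k (I.filter fun i => β i = v)) :
    ∃ k : ℕ, (k : ℝ) ≤ ∑ v ∈ T, c v ∧ Spl n a h k (I.filter fun i => β i ∈ T) := by
  induction T using Finset.induction_on with
  | empty => exact ⟨0, by simp, by simpa using spl_empty⟩
  | insert v T hv ih =>
    have e : (I.filter fun i => β i ∈ insert v T) =
        (I.filter fun i => β i = v) ∪ I.filter fun i => β i ∈ T := by
      simp only [mem_insert, filter_or]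
    obtain ⟨k, k1, k2⟩ := hT v (mem_insert_self _ _)
    obtain ⟨l, l1, l2⟩ := ih fun w hw => hT w (mem_insert_of_mem hw)
    rw [e, sum_insert hv]
    exact ⟨k + l, by push_cast; linarith,
      k2.union l2 (disjoint_filter.2 fun i _ h1 h2 => hv (h1 ▸ h2))⟩

end

theorem free {ι : Type} [Fintype ι] {K : Type} [Field K] [CharZero K] (p : ι → Fin 2 → K)
    (hp : AlgebraicIndependent ℚ (fun ij : ι × Fin 2 => p ij.1 ij.2)) {d M : ℕ} (m : ι → ℕ)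
    (o : ι) (T : Finset (ℕ × ℕ)) (c : ℕ × ℕ → ℝ) (hM : ∀ i, i ≠ o → m i ≤ M)
    (hc1 : ∀ t, 1 ≤ c t ∧ (t.2 : ℝ) / √t.1 ≤ c t ^ 9 ∧ (t.2 : ℝ) ^ 3 / t.1 ^ 2 ≤ c t ^ 9)
    (hT : ∀ i, i ≠ o → 0 < m i → ∃ t ∈ T, m i ≤ t.1 ∧ t.1 ≤ m i + t.2)
    (hS : 10 ^ 16 * M * (M * ∑ t ∈ T, c t + m o) + (m o : ℝ) ^ 2 ≤ ∑ i, (m i : ℝ) ^ 2)
    {f : MvPolynomial (Fin 2) K} (hf0 : f ≠ 0) (hfd : f.totalDegree ≤ d)
    (hf : ∀ i, Van (p i) (m i) f) : ∑ i, m i ^ 2 ≤ d ^ 2 := by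
  classical
  by_contra hc
  have hc' : (d : ℝ) ^ 2 + 1 ≤ ∑ i, (m i : ℝ) ^ 2 := by exact_mod_cast not_le.1 hc
  have he : Eff d fun i => (m i : ℤ) := eff_of_affine p hp hf0 (by exact_mod_cast hfd) hf
  have hod : (m o : ℝ) ≤ d := by exact_mod_cast he.le o
  have m0 : (0 : ℝ) ≤ m o := by positivity
  rw [← add_sum_erase _ _ (mem_univ o)] at hc' hS
  obtain ⟨o', ho1, ho2⟩ := exists_ne_zero_of_sum_ne_zero (s := univ.erase o)
    (f := fun i => (m i : ℝ) ^ 2) (by nlinarith)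
  have ho3 : 0 < m o' := Nat.pos_of_ne_zero fun h => ho2 (by simp [h])
  have M1 : (1 : ℝ) ≤ M := by exact_mod_cast ho3.trans_le (hM o' (ne_of_mem_erase ho1))
  obtain ⟨t, t1, e9⟩ : ∃ t : ℝ, 1 ≤ t ∧ t ^ 9 = M :=
    ⟨(M : ℝ) ^ ((9 : ℕ) : ℝ)⁻¹, Real.one_le_rpow M1 (by positivity),
      Real.rpow_inv_natCast_pow (by linarith) (by norm_num)⟩
  have N1 : 1 ≤ ∑ t ∈ T, c t := by
    obtain ⟨u, hu, -⟩ := hT o' (ne_of_mem_erase ho1) ho3
    exact (hc1 u).1.trans (single_le_sum (fun u _ => zero_le_one.trans (hc1 u).1) hu)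
  choose! β hβ using hT
  obtain ⟨ε, e0, e1, hε⟩ : ∃ ε : ℝ, 0 < ε ∧ ε < 1 ∧ (Fintype.card ι + 1) * ε = 1 / 2 :=
    ⟨1 / (2 * (Fintype.card ι + 1)), by positivity, (div_lt_one (by positivity)).2
      (by linarith [Nat.cast_nonneg (α := ℝ) (Fintype.card ι)]), by field_simp⟩
  set I := (univ.erase o).filter fun i => 0 < m i with hI
  have hm : ∀ i ∈ I, (1 : ℝ) ≤ m i := fun i hi => by exact_mod_cast (mem_filter.1 hi).2
  have hs : ∀ i ∈ I, √((m i : ℝ) ^ 2 - ε) ^ 2 = (m i : ℝ) ^ 2 - ε := fun i hi =>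
    Real.sq_sqrt (by nlinarith [hm i hi])
  have hn : ∀ i ∈ I, i ≠ o ∧ 0 < m i := fun i hi =>
    ⟨ne_of_mem_erase (mem_filter.1 hi).1, (mem_filter.1 hi).2⟩
  obtain ⟨k, hk, h1⟩ := windows (n := fun i => (m i : ℤ)) (a := fun i => √((m i : ℝ) ^ 2 - ε))
    (I := I) (h := 64 * t ^ 9) β (fun u => 6 * 10 ^ 9 * c u) T fun u _ =>
      window (v := u.1) (w := u.2) t1 (hc1 u).1 (hc1 u).2.1 (hc1 u).2.2
        (fun i hi => ⟨Real.sqrt_pos.2 (by nlinarith [hm i (mem_filter.1 hi).1]),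
          (Real.sqrt_lt' (by push_cast; linarith [hm i (mem_filter.1 hi).1])).2
            (by push_cast; linarith)⟩)
        (fun i hi => by rw [hs i (mem_filter.1 hi).1]; push_cast; linarith)
        (fun i _ j _ e => by rw [show m i = m j by exact_mod_cast e]) fun i hi => by
          obtain ⟨h3, rfl⟩ := mem_filter.1 hi
          have h4 := (hβ i (hn i h3).1 (hn i h3).2).2
          rw [e9]
          exact_mod_cast And.intro (hM i (hn i h3).1) h4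
  rw [filter_true_of_mem fun i hi => (hβ i (hn i hi).1 (hn i hi).2).1, e9] at h1
  rw [← mul_sum] at hk
  generalize ∑ t ∈ T, c t = N at *
  have h2 : ∑ i ∈ univ.erase o, (m i : ℝ) ^ 2 - 1 / 2 ≤ ∑ i ∈ I, √((m i : ℝ) ^ 2 - ε) ^ 2 := by
    have h3 : ∑ i ∈ univ.erase o, ((m i : ℝ) ^ 2 - ε) ≤ ∑ i ∈ I, √((m i : ℝ) ^ 2 - ε) ^ 2 := by
      rw [hI, sum_filter]
      refine sum_le_sum fun i _ => ?_
      split_ifs with h4
      · rw [Real.sq_sqrt']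
        exact le_max_left _ _
      · rw [show m i = 0 by omega]
        simpa using e0.le
    rw [sum_sub_distrib, sum_const, nsmul_eq_mul] at h3
    have h4 : ((univ.erase o).card : ℝ) ≤ Fintype.card ι := by exact_mod_cast card_le_univ _
    nlinarith
  have h3 := anti (Qh.corner (mem_univ o) (by positivity) (fun _ _ h => h) (Qh.ex_of_eff he univ))
    (filter_subset (fun i => 0 < m i) _)
  have h5 := mul_le_mul_of_nonneg_right (show 18 + 45 * (k : ℝ) ≤ 271 * 10 ^ 9 * N by linarith)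
    (sq_nonneg (64 * (M : ℝ)))
  have g3 : 1 ≤ (M : ℝ) ^ 2 := one_le_pow₀ M1
  have g2 : (M : ℝ) ^ 2 ≤ N * M ^ 2 := le_mul_of_one_le_left (by linarith) (by linarith)
  have g5 : 0 ≤ (M : ℝ) * m o := by positivity
  have A0 : 0 ≤ (m o : ℝ) ^ 2 + ∑ i ∈ I, √((m i : ℝ) ^ 2 - ε) ^ 2 := by positivity
  have r1 := Real.sq_sqrt A0
  have r2 : (d : ℝ) ≤ √((m o : ℝ) ^ 2 + ∑ i ∈ I, √((m i : ℝ) ^ 2 - ε) ^ 2) :=
    Real.le_sqrt_of_sq_le (by linarith)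
  have r3 : m o + 100 * (64 * M) ≤ √((m o : ℝ) ^ 2 + ∑ i ∈ I, √((m i : ℝ) ^ 2 - ε) ^ 2) :=
    Real.le_sqrt_of_sq_le (by linarith)
  generalize √((m o : ℝ) ^ 2 + ∑ i ∈ I, √((m i : ℝ) ^ 2 - ε) ^ 2) = R at r1 r2 r3
  refine strip_spl (H := R - m o) (T := m o) (by positivity) h1 (by linarith) m0 (by linarith)
    (by linarith) (h3.mono fun x l h6 => ?_)
  have h7 : (x : ℝ) + l ≤ d := by exact_mod_cast h6.1
  have h8 : (l : ℝ) + m o ≤ d := by exact_mod_cast h6.2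
  exact ⟨by linarith, by linarith⟩

end Pool.Agent.P.MP_d3e5c7_ag.Tt
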