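import Mathlib

/-! Vanishing order of polynomials at points. -/

set_option autoImplicit false

namespace Pool.Agent.P.MP_d3e5c7_ag

open MvPolynomial

section ring
variable {σ τ : Type*} {K : Type*} [CommRing K]

/-- translation to the point `p` -/
noncomputable def sh (p : σ → K) : MvPolynomial σ K →ₐ[K] MvPolynomial σ K :=
  aeval (fun k => X k + C (p k))

/-- `f` vanishes to order at least `n` at `p` -/
def Van (p : σ → K) (n : ℤ) (f : MvPolynomial σ K) : Prop :=
  ∀ β : σ →₀ ℕ, (β.degree : ℤ) < n → coeff β (sh p f) = 0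

/-- ideal of a point -/
noncomputable def mI (p : σ → K) : Ideal (MvPolynomial σ K) := RingHom.ker (eval p)

theorem mem_mI {p : σ → K} {f : MvPolynomial σ K} : f ∈ mI p ↔ eval p f = 0 := Iff.rfl

theorem eval_aeval' (g : σ → MvPolynomial τ K) (q : τ → K) (f : MvPolynomial σ K) :
    eval q (aeval g f) = eval (fun k => eval q (g k)) f := by
  induction f using MvPolynomial.induction_on with
  | C a => simp
  | add f g hf hg => simp only [map_add, hf, hg]
  | mul_X f i hf => simp only [map_mul, hf, aeval_X, eval_X]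

theorem aeval_mem_mI_pow (g : σ → MvPolynomial τ K) (q : τ → K) (n : ℕ) {f : MvPolynomial σ K}
    (hf : f ∈ mI (fun k => eval q (g k)) ^ n) : aeval g f ∈ mI q ^ n := by
  have h1 : (mI (fun k => eval q (g k))).map (aeval g : MvPolynomial σ K →ₐ[K] _) ≤ mI q := by
    rw [Ideal.map_le_iff_le_comap]
    intro x hx
    rw [Ideal.mem_comap, mem_mI]
    rw [mem_mI] at hx
    rw [← hx]; exact eval_aeval' g q x
  have h2 := Ideal.mem_map_of_mem (aeval g : MvPolynomial σ K →ₐ[K] _) hf
  rw [Ideal.map_pow] at h2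
  exact Ideal.pow_right_mono h1 n h2

theorem mI_zero : mI (0 : σ → K) = idealOfVars σ K := by
  ext f
  rw [mem_mI, ← pow_one (idealOfVars σ K), mem_pow_idealOfVars_iff']
  rw [eval_zero]
  constructor
  · intro h x hx
    have : x = 0 := by
      rw [← Finsupp.degree_eq_zero_iff]; omega
    subst this; exact h
  · intro h; exact h 0 (by simp)

theorem sh_neg_sh (p : σ → K) (f : MvPolynomial σ K) : sh (-p) (sh p f) = f := by
  have : (sh (-p)).comp (sh p) = AlgHom.id K _ := by
    ext k : 1
    simp [sh]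
  exact congrArg (fun φ : MvPolynomial σ K →ₐ[K] MvPolynomial σ K => φ f) this

theorem sh_injective (p : σ → K) : Function.Injective (sh p) :=
  Function.LeftInverse.injective (sh_neg_sh p)

theorem van_iff {p : σ → K} {n : ℤ} {f : MvPolynomial σ K} : Van p n f ↔ f ∈ mI p ^ n.toNat := by
  have h0 : Van p n f ↔ sh p f ∈ mI (0 : σ → K) ^ n.toNat := by
    rw [mI_zero, mem_pow_idealOfVars_iff']
    constructor
    · intro h x hx; exact h x (by omega)
    · intro h x hx; exact h x (by omega)
  rw [h0]
  constructor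
  · intro h
    rw [← sh_neg_sh p f]
    apply aeval_mem_mI_pow
    convert h using 3
    ext k; simp
  · intro h
    apply aeval_mem_mI_pow
    convert h using 3
    ext k; simp

theorem Van.mono {p : σ → K} {m n : ℤ} {f : MvPolynomial σ K} (h : Van p n f) (hmn : m ≤ n) :
    Van p m f := fun β hβ => h β (by omega)

theorem van_of_nonpos {p : σ → K} {n : ℤ} (f : MvPolynomial σ K) (hn : n ≤ 0) : Van p n f :=
  fun β hβ => by omega

theorem Van.mul {p : σ → K} {m n : ℤ} {f g : MvPolynomial σ K} (hf : Van p m f) (hg : Van p n g) :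
    Van p (m + n) (f * g) := by
  rw [van_iff] at *
  have := Ideal.mul_mem_mul hf hg
  rw [← pow_add] at this
  exact Ideal.pow_le_pow_right (by omega) this

theorem Van.mul_left {p : σ → K} {n : ℤ} {g : MvPolynomial σ K} (f : MvPolynomial σ K)
    (hg : Van p n g) : Van p n (f * g) := by
  rw [van_iff] at *
  exact Ideal.mul_mem_left _ _ hg

theorem Van.sum {ι : Type*} {p : σ → K} {n : ℤ} (s : Finset ι) (g : ι → MvPolynomial σ K)
    (hg : ∀ i ∈ s, Van p n (g i)) : Van p n (∑ i ∈ s, g i) := by
  simp only [van_iff] at *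
  exact Ideal.sum_mem _ hg

theorem Van.pow {p : σ → K} {f : MvPolynomial σ K} (hf : eval p f = 0) (n : ℕ) :
    Van p n (f ^ n) := by
  rw [van_iff]
  simpa using Ideal.pow_mem_pow (show f ∈ mI p from hf) n

theorem Van.comp (g : σ → MvPolynomial τ K) (q : τ → K) {n : ℤ} {f : MvPolynomial σ K}
    (hf : Van (fun k => eval q (g k)) n f) : Van q n (aeval g f) := by
  rw [van_iff] at *
  exact aeval_mem_mI_pow g q _ hf

theorem map_sh {L : Type*} [CommRing L] (φ : K →+* L) (p : σ → K) (f : MvPolynomial σ K) :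
    map φ (sh p f) = sh (fun k => φ (p k)) (map φ f) := by
  induction f using MvPolynomial.induction_on with
  | C a => simp [sh]
  | add f g hf hg => simp [hf, hg]
  | mul_X f i hf => simp only [map_mul, hf]; simp [sh]

theorem van_iff_hc (p : σ → K) (n : ℕ) (f : MvPolynomial σ K) :
    Van p n f ↔ ∀ j < n, homogeneousComponent j (sh p f) = 0 := by
  constructor
  · intro h j hj
    ext β
    rw [coeff_homogeneousComponent]
    split_ifs with h1
    · exact h β (by omega)
    · rfl
  · intro h β hβ
    have := congrArg (coeff β) (h β.degree (by omega))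
    rw [coeff_homogeneousComponent] at this
    simpa using this

end ring

section field
variable {σ τ : Type*} {K : Type*} [Field K]

theorem Van.of_mul {p : σ → K} {n : ℤ} {u f : MvPolynomial σ K} (hu : eval p u ≠ 0)
    (h : Van p n (u * f)) : Van p n f := by
  rw [van_iff] at *
  have h1 : IsCoprime (Ideal.span {u}) (mI p) := by
    rw [Ideal.isCoprime_iff_exists]
    refine ⟨C (eval p u)⁻¹ * u, Ideal.mul_mem_left _ _ (Ideal.mem_span_singleton_self u),
      1 - C (eval p u)⁻¹ * u, ?_, by ring⟩
    rw [mem_mI]; simp [hu]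
  have h2 : IsCoprime (Ideal.span {u}) (mI p ^ n.toNat) := h1.pow_right
  rw [Ideal.isCoprime_iff_exists] at h2
  obtain ⟨a, ha, b, hb, hab⟩ := h2
  obtain ⟨c, rfl⟩ := Ideal.mem_span_singleton'.1 ha
  have : f = c * (u * f) + f * b := by linear_combination (-f) * hab
  rw [this]
  exact Ideal.add_mem _ (Ideal.mul_mem_left _ _ h) (Ideal.mul_mem_left _ _ hb)

/-- exact order of vanishing -/
noncomputable def ordN (p : σ → K) (f : MvPolynomial σ K) : ℕ :=
  ((sh p f : MvPolynomial σ K) : MvPowerSeries σ K).order.toNat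

theorem order_sh_ne_top (p : σ → K) {f : MvPolynomial σ K} (hf : f ≠ 0) :
    ((sh p f : MvPolynomial σ K) : MvPowerSeries σ K).order ≠ ⊤ := by
  rw [ne_eq, MvPowerSeries.order_eq_top_iff, MvPolynomial.coe_eq_zero_iff]
  intro h
  exact hf (sh_injective p (by simpa using h))

theorem ordN_mul (p : σ → K) {f g : MvPolynomial σ K} (hf : f ≠ 0) (hg : g ≠ 0) :
    ordN p (f * g) = ordN p f + ordN p g := by
  unfold ordN
  rw [map_mul, MvPolynomial.coe_mul, MvPowerSeries.order_mul,
    ENat.toNat_add (order_sh_ne_top p hf) (order_sh_ne_top p hg)]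

theorem van_iff_le_ordN (p : σ → K) {f : MvPolynomial σ K} (hf : f ≠ 0) (n : ℤ) :
    Van p n f ↔ n ≤ ordN p f := by
  have h0 := ENat.natCast_toNat (order_sh_ne_top p hf)
  constructor
  · intro h
    have : ((n.toNat : ℕ) : ℕ∞) ≤ ((sh p f : MvPolynomial σ K) : MvPowerSeries σ K).order := by
      apply MvPowerSeries.nat_le_order
      intro d hd
      rw [MvPolynomial.coeff_coe]
      exact h d (by omega)
    rw [← h0, Nat.cast_le] at this
    unfold ordN; omega
  · intro h β hβ
    rw [← MvPolynomial.coeff_coe]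
    apply MvPowerSeries.coeff_of_lt_order
    rw [← h0, Nat.cast_lt]
    unfold ordN at h; omega

theorem ordN_eq_iff (p : σ → K) {f : MvPolynomial σ K} (hf : f ≠ 0) (n : ℕ) :
    ordN p f = n ↔ (∀ j < n, homogeneousComponent j (sh p f) = 0) ∧
      homogeneousComponent n (sh p f) ≠ 0 := by
  rw [← van_iff_hc, van_iff_le_ordN p hf]
  have h1 := van_iff_hc p (n + 1) f
  have h2 := van_iff_hc p n f
  rw [van_iff_le_ordN p hf] at h1 h2
  constructor
  · intro h
    refine ⟨by omega, fun h3 => ?_⟩
    have : ((n + 1 : ℕ) : ℤ) ≤ ordN p f := by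
      rw [h1]; intro j hj
      rcases Nat.lt_succ_iff_lt_or_eq.1 hj with h4 | h4
      · exact h2.1 (by omega) j h4
      · rw [h4]; exact h3
    omega
  · rintro ⟨h3, h4⟩
    by_contra h5
    exact h4 (h1.1 (by omega) n (by omega))

end field

end Pool.Agent.P.MP_d3e5c7_ag
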